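import Pool.Agent.R885.W9
import Pool.Agent.W619.Y.Final
import Pool.Agent.W619.Y.LMain

section

/-!
The quotient of a product `F × C` by a finite group which is faithful on both factors: the local
estimates.
-/

set_option autoImplicit false
set_option linter.overlappingInstances false
set_option linter.unusedSectionVars false
set_option linter.unusedVariables false
set_option linter.unusedSimpArgs false

open Polynomial FF IntermediateField Pool.Agent.W619.PQ Pool.Agent.W619.PL Pool.Agent.W619.TW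
  Pool.Agent.W619.X Pool.Agent.W619.Y Pool.Agent.W603.LV

namespace Pool.Agent.K4H25.GQ

section

variable {k : Type} [Field k] [CharZero k] [IsAlgClosed k] {L : Type} [Field L] [Algebra k L]

/-- A place which is trivial on a stable subfield on which the group is faithful is unramified over
the fixed field. -/
theorem unram_of_triv (G : Subgroup (L ≃ₐ[k] L)) [Finite G] (E : IntermediateField k L)
    (hst : ∀ g ∈ G, ∀ z ∈ E, g z ∈ E) (hf : ∀ g ∈ G, (∀ z ∈ E, g z = z) → g = 1)
    {v : Place k (fixedField G)} {w : Place k L} {e : ℕ} (h : Over w v e)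
    (htriv : ∀ z ∈ E, w.ord z = 0) : e = 1 := by
  obtain ⟨w', e', I, hw', hcard, hI⟩ := exists_inertia G v
  have hee : e = e' := Pool.Agent.R885.N.index_unique h hw'
  obtain ⟨g, hg⟩ := pCONJ k L G v w w' e e' h hw'
  have htriv' : ∀ z ∈ E, w'.ord z = 0 := fun z hz => by
    rw [hg z]
    exact htriv _ (hst _ g.2 z hz)
  have h1 : ∀ h' ∈ I, h' = 1 := by
    intro h' hh'
    apply Subtype.ext
    refine hf _ h'.2 fun z hz => ?_
    have h2 := hI h' hh' z (Or.inr (htriv' z hz).ge)
    rcases h2 with h2 | h2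
    · exact sub_eq_zero.1 h2
    · have h3 := htriv' _ (sub_mem (hst _ h'.2 z hz) hz)
      omega
  have h2 : I = ⊥ := (Subgroup.eq_bot_iff_forall I).2 h1
  rw [hee, ← hcard, h2, Subgroup.card_bot]

theorem index_le (G : Subgroup (L ≃ₐ[k] L)) [Finite G]
    {v : Place k (fixedField G)} {w : Place k L} {e : ℕ} (h : Over w v e) : e ≤ Nat.card G := by
  obtain ⟨w', e', I, hw', hcard, hI⟩ := exists_inertia G v
  have hee : e = e' := Pool.Agent.R885.N.index_unique h hw'
  rw [hee, ← hcard]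
  exact Subgroup.card_le_card_group I

/-- Local coordinates on a subfield. -/
theorem f_loc (F : IntermediateField k L) {d n : ℕ} (hd : Algebra.trdeg k F = d)
    (hn : Algebra.trdeg k L = n)
    (hfin : ∀ y : Fin d → F, IsTranscendenceBasis k y →
      FiniteDimensional (IntermediateField.adjoin k (Set.range y)) F)
    (y : Fin d → F) (E : Fin d → Derivation k F F)
    (hy : IsTranscendenceBasis k y) (hE : ∀ i j, E i (y j) = if i = j then 1 else 0)
    (w : Place k L) (hw : IsDivisorial w n) :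
    ∃ (Z : Matrix (Fin d) (Fin d) L) (z : Fin d → L), (∀ c, z c ≠ 0) ∧ (∀ c, w.Reg (z c)) ∧
      ((∀ f ∈ F, w.ord f = 0) ∨ 1 ≤ ∑ c, w.ord (z c)) ∧
      (∀ (D : Derivation k L L) l, D (y l : L) = ∑ c, Z l c * D (z c)) ∧
      ∀ (m : ℕ) (η : (Fin d → Derivation k F F) → F), IsPluriForm k F d m η →
        (∀ u : Place k F, IsDivisorial u d → ∀ D : Fin d → Derivation k F F,
          (∀ l, Pres u (D l)) → u.Reg (η D)) →
        w.Reg ((η E : L) * Z.det ^ m) := by
  by_cases htriv : ∃ f : F, w.ord (algebraMap F L f) ≠ 0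
  · obtain ⟨e, u, hu⟩ := exists_over (K := F) w htriv
    have hdiv : IsDivisorial u d := pDIVR k F L d n u w e hd hn hu hw
    obtain ⟨y', E', i0, hy', hE', hi0, hyr, hpres⟩ := pFRAME k F d hd hfin u hdiv
    have hregL : ∀ f : F, u.Reg f → w.Reg (algebraMap F L f) := by
      intro f hf
      rcases hf with hf | hf
      · left; rw [hf, map_zero]
      · right
        rw [hu.2]
        exact mul_nonneg (by positivity) hf
    have hne : ∀ c, y' c ≠ 0 := fun c => hy'.1.ne_zero c
    have hneL : ∀ c, algebraMap F L (y' c) ≠ 0 := fun c => by simpa using hne c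
    refine ⟨Matrix.of fun l c => algebraMap F L (E' c (y l)), fun c => algebraMap F L (y' c),
      hneL, fun c => hregL _ (hyr c), Or.inr ?_, ?_, ?_⟩
    · have h1 : ∀ c, 0 ≤ w.ord (algebraMap F L (y' c)) := fun c =>
        (hregL _ (hyr c)).resolve_left (hneL c)
      have h2 : 1 ≤ w.ord (algebraMap F L (y' i0)) := by
        rw [hu.2, hi0, mul_one]
        exact_mod_cast hu.1
      exact h2.trans (Finset.single_le_sum (f := fun c => w.ord (algebraMap F L (y' c)))
        (fun c _ => h1 c) (Finset.mem_univ i0))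
    · intro D l
      exact Pool.Agent.W308.PG.YLOC.expand y' E' hy' hE' D (y l)
    · intro m η hη hreg
      set A : Matrix (Fin d) (Fin d) F := Matrix.of fun c l => E' c (y l) with hA
      have h1 : η E' = A.det ^ m * η E := by
        have h2 := hη A E
        have h3 : (fun i => ∑ j, A i j • E j) = E' := by
          funext i
          exact (Pool.Agent.W308.PG.YLOC.expandK y E hy hE (E' i)).symm
        rw [h3] at h2
        exact h2
      have h4 : (Matrix.of fun l c => algebraMap F L (E' c (y l))).det = algebraMap F L A.det := by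
        rw [RingHom.map_det, ← Matrix.det_transpose]
        rfl
      rw [h4]
      have h5 : ((η E : F) : L) * algebraMap F L A.det ^ m = algebraMap F L (η E') := by
        rw [h1, map_mul, map_pow, mul_comm]
        rfl
      rw [h5]
      exact hregL _ (hreg u hdiv E' hpres)
  · push Not at htriv
    refine ⟨1, fun l => (y l : L), fun c => ?_, fun c => Or.inr (htriv (y c)).ge,
      Or.inl fun f hf => htriv ⟨f, hf⟩, ?_, ?_⟩
    · intro h0
      exact hy.1.ne_zero c (Subtype.ext h0)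
    · intro D l
      rw [Finset.sum_eq_single l]
      · rw [Matrix.one_apply_eq, one_mul]
      · intro c _ hc
        rw [Matrix.one_apply_ne (Ne.symm hc), zero_mul]
      · intro h
        exact absurd (Finset.mem_univ l) h
    · intro m η hη hreg
      rw [Matrix.det_one, one_pow, mul_one]
      exact Or.inr (htriv (η E)).ge

/-- Change of coordinates. -/
theorem det_factor {N : ℕ} (D : Fin N → Derivation k L L) (Y W : Fin N → L)
    (T : Matrix (Fin N) (Fin N) L)
    (h : ∀ (D : Derivation k L L) i, D (Y i) = ∑ i', T i i' * D (W i')) :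
    (Matrix.of fun a b => D a (Y b)).det = T.det * (Matrix.of fun a b => D a (W b)).det := by
  have h1 : (Matrix.of fun a b => D a (Y b)) = (Matrix.of fun a b => D a (W b)) * T.transpose := by
    ext a b
    rw [Matrix.of_apply, h, Matrix.mul_apply]
    refine Finset.sum_congr rfl fun c _ => ?_
    rw [Matrix.transpose_apply, Matrix.of_apply, mul_comm]
  rw [h1, Matrix.det_mul, Matrix.det_transpose, mul_comm]

theorem det_dlog {N : ℕ} (D : Fin N → Derivation k L L) (W : Fin N → L) (hW : ∀ i, W i ≠ 0) :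
    (Matrix.of fun a b => D a (W b)).det =
      (∏ i, W i) * (Matrix.of fun a b => D a (W b) / W b).det := by
  have h1 : (Matrix.of fun a b => D a (W b)) =
      (Matrix.of fun a b => D a (W b) / W b) * Matrix.diagonal W := by
    ext a b
    rw [Matrix.mul_diagonal, Matrix.of_apply, Matrix.of_apply, div_mul_cancel₀ _ (hW b)]
  rw [h1, Matrix.det_mul, Matrix.det_diagonal, mul_comm]

/-- The matrix of the change of coordinates on the product. -/
theorem append_factor {d : ℕ} (y z : Fin d → L) (x u r : L) (Z : Matrix (Fin d) (Fin d) L)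
    (hZ : ∀ (D : Derivation k L L) l, D (y l) = ∑ c, Z l c * D (z c))
    (hr : ∀ D : Derivation k L L, D x = r * D u) :
    ∃ T : Matrix (Fin (d + 1)) (Fin (d + 1)) L, T.det = Z.det * r ∧
      ∀ (D : Derivation k L L) i, D ((Fin.append y (fun _ : Fin 1 => x) : Fin (d + 1) → L) i) =
        ∑ i', T i i' * D ((Fin.append z (fun _ : Fin 1 => u) : Fin (d + 1) → L) i') := by
  classical
  refine ⟨Matrix.reindex finSumFinEquiv finSumFinEquiv
    (Matrix.fromBlocks Z 0 0 (Matrix.of fun _ _ : Fin 1 => r)), ?_, ?_⟩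
  · rw [Matrix.det_reindex_self, Matrix.det_fromBlocks_zero₂₁]
    congr 1
    rw [Matrix.det_fin_one, Matrix.of_apply]
  · intro D i
    rw [← finSumFinEquiv.sum_comp, Fintype.sum_sum_type]
    refine Fin.addCases (fun l => ?_) (fun l => ?_) i
    · simp only [Fin.append_left, Matrix.reindex_apply, Matrix.submatrix_apply,
        Equiv.symm_apply_apply, finSumFinEquiv_symm_apply_castAdd, finSumFinEquiv_symm_apply_natAdd, finSumFinEquiv_apply_left,
        finSumFinEquiv_apply_right, Matrix.fromBlocks_apply₁₁, Matrix.fromBlocks_apply₁₂,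
        Fin.append_right, Matrix.zero_apply, zero_mul, Finset.sum_const_zero, add_zero]
      exact hZ D l
    · simp only [Fin.append_left, Matrix.reindex_apply, Matrix.submatrix_apply,
        Equiv.symm_apply_apply, finSumFinEquiv_symm_apply_natAdd, finSumFinEquiv_symm_apply_castAdd, finSumFinEquiv_apply_left,
        finSumFinEquiv_apply_right, Matrix.fromBlocks_apply₂₁, Matrix.fromBlocks_apply₂₂,
        Fin.append_right, Matrix.zero_apply, zero_mul, Finset.sum_const_zero, zero_add,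
        Matrix.of_apply, Finset.univ_unique, Finset.sum_singleton]
      exact hr D

end

end Pool.Agent.K4H25.GQ

end

section

/-!
The estimate for the forms on the quotient of a product `F × C` by a finite group which is faithful
on both factors.
-/

set_option autoImplicit false
set_option linter.overlappingInstances false
set_option linter.unusedSectionVars false
set_option linter.unusedVariables false
set_option linter.unusedSimpArgs false

open Polynomial FF IntermediateField Pool.Agent.W619.PQ Pool.Agent.W619.PL Pool.Agent.W619.TW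
  Pool.Agent.W619.X Pool.Agent.W619.Y Pool.Agent.W603.LV

namespace Pool.Agent.K4H25.GQ

section

variable {k : Type} [Field k] [CharZero k] [IsAlgClosed k] {L : Type} [Field L] [Algebra k L]

theorem append_ne {d : ℕ} {z : Fin d → L} {u : L} (hz : ∀ c, z c ≠ 0) (hu : u ≠ 0) (i : Fin (d + 1)) :
    (Fin.append z (fun _ : Fin 1 => u) : Fin (d + 1) → L) i ≠ 0 := by
  refine Fin.addCases (fun l => ?_) (fun l => ?_) i
  · rw [Fin.append_left]; exact hz l
  · rw [Fin.append_right]; exact hu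

theorem append_reg {d : ℕ} {w : Place k L} {z : Fin d → L} {u : L} (hz : ∀ c, w.Reg (z c))
    (hu : w.Reg u) (i : Fin (d + 1)) :
    w.Reg ((Fin.append z (fun _ : Fin 1 => u) : Fin (d + 1) → L) i) := by
  refine Fin.addCases (fun l => ?_) (fun l => ?_) i
  · rw [Fin.append_left]; exact hz l
  · rw [Fin.append_right]; exact hu

/-- The numerical part of the estimate. -/
theorem arith {M e c0 : ℤ} {l s : ℤ} {δ : ℚ} (hM : 0 ≤ M) (he : 1 ≤ e) (hc0 : 1 ≤ c0)
    (hs : 0 ≤ s) (hl : (M : ℚ) * (1 - δ) ≤ l)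
    (h : δ = 0 ∨ (0 ≤ δ ∧ δ ≤ 1 / 2 ∧ (2 ≤ c0 ∨ (1 ≤ s ∧ δ * e ≤ 1)))) :
    M * (e - 1) ≤ e * c0 * l + M * s - M := by
  have hMq : (0 : ℚ) ≤ M := by exact_mod_cast hM
  have heq : (1 : ℚ) ≤ e := by exact_mod_cast he
  have hcq : (1 : ℚ) ≤ c0 := by exact_mod_cast hc0
  have hsq : (0 : ℚ) ≤ s := by exact_mod_cast hs
  have key : (M : ℚ) * (e - 1) ≤ e * c0 * l + M * s - M := by
    have hMs : (0 : ℚ) ≤ M * s := mul_nonneg hMq hsq
    have hec : (0 : ℚ) ≤ e * c0 := by positivity
    rcases h with h | ⟨h0, h1, h2⟩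
    · rw [h, sub_zero, mul_one] at hl
      have h3 : (e : ℚ) * M ≤ e * c0 * l := by
        have h4 : (e : ℚ) * c0 * M ≤ e * c0 * l := mul_le_mul_of_nonneg_left hl hec
        have h5 : (e : ℚ) * 1 * M ≤ e * c0 * M := by
          apply mul_le_mul_of_nonneg_right _ hMq
          exact mul_le_mul_of_nonneg_left hcq (by linarith)
        linarith
      linarith
    · have h3 : (e : ℚ) * c0 * (M * (1 - δ)) ≤ e * c0 * l := mul_le_mul_of_nonneg_left hl hec
      rcases h2 with h2 | ⟨h2, h4⟩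
      · have h2q : (2 : ℚ) ≤ c0 := by exact_mod_cast h2
        have h5 : (e : ℚ) * 2 * (M * (1 / 2)) ≤ e * c0 * (M * (1 - δ)) := by
          apply mul_le_mul
          · exact mul_le_mul_of_nonneg_left h2q (by linarith)
          · exact mul_le_mul_of_nonneg_left (by linarith) hMq
          · positivity
          · exact hec
        linarith
      · have h2q : (1 : ℚ) ≤ s := by exact_mod_cast h2
        have h5 : (e : ℚ) * 1 * (M * (1 - δ)) ≤ e * c0 * (M * (1 - δ)) := by
          apply mul_le_mul_of_nonneg_right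
          · exact mul_le_mul_of_nonneg_left hcq (by linarith)
          · apply mul_nonneg hMq
            linarith
        have h6 : (M : ℚ) * (δ * e) ≤ M * 1 := mul_le_mul_of_nonneg_left h4 hMq
        have h7 : (M : ℚ) * 1 ≤ M * s := mul_le_mul_of_nonneg_left h2q hMq
        nlinarith
  have : ((M * (e - 1) : ℤ) : ℚ) ≤ ((e * c0 * l + M * s - M : ℤ) : ℚ) := by
    push_cast
    exact key
  exact_mod_cast this

/-- The estimate at a place. -/
theorem place_est (F C : IntermediateField k L) [hC : IsFF k C] (G : Subgroup (L ≃ₐ[k] L))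
    [Finite G] (hstF : ∀ g ∈ G, ∀ z ∈ F, g z ∈ F) (hstC : ∀ g ∈ G, ∀ z ∈ C, g z ∈ C)
    (hfF : ∀ g ∈ G, (∀ z ∈ F, g z = z) → g = 1) (hfC : ∀ g ∈ G, (∀ z ∈ C, g z = z) → g = 1)
    {d M : ℕ} (δ : Place k ↥(C ⊓ fixedField G) → ℚ)
    (hδ : ∀ q, δ q = 0 ∨ (0 ≤ δ q ∧ δ q ≤ 1 / 2 ∧ δ q * Nat.card G ≤ 1 ∧
      ∀ (w : Place k C) (e : ℕ), LiesOver (inf_le_left : C ⊓ fixedField G ≤ C) w q e → 2 ≤ e))
    (D0 : Derivation k ↥(C ⊓ fixedField G) ↥(C ⊓ fixedField G)) (c x : ↥(C ⊓ fixedField G))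
    (hD0 : D0 ≠ 0) (hc : c ≠ 0) (hx : Transcendental k x)
    (hg : GoodX (fun _ => False) (fun q => 1 - δ q) M D0 c)
    (y z : Fin d → L) (Z : Matrix (Fin d) (Fin d) L) (a : L)
    {v : Place k (fixedField G)} {w : Place k L} {e : ℕ} (h : Over w v e)
    (hz0 : ∀ c, z c ≠ 0) (hzr : ∀ c, w.Reg (z c))
    (hzF : (∀ f ∈ F, w.ord f = 0) ∨ 1 ≤ ∑ c, w.ord (z c))
    (hZ : ∀ (D : Derivation k L L) l, D (y l) = ∑ c, Z l c * D (z c))
    (ha : w.Reg (a * Z.det ^ M))
    (D : Fin (d + 1) → Derivation k L L) (hD : ∀ j, Pres w (D j)) :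
    Ge w (M * ((e : ℤ) - 1)) (a * ((c / (D0 x) ^ M : ↥(C ⊓ fixedField G)) : L) *
      (Matrix.of fun i j => D i
        ((Fin.append y (fun _ : Fin 1 => (x : L)) : Fin (d + 1) → L) j)).det ^ M) := by
  classical
  let _ : Algebra ↥(C ⊓ fixedField G) C :=
    (inclusion (inf_le_left : C ⊓ fixedField G ≤ C)).toRingHom.toAlgebra
  have t1 : IsScalarTower k ↥(C ⊓ fixedField G) C := IsScalarTower.of_algebraMap_eq fun c => rfl
  have t2 : IsScalarTower ↥(C ⊓ fixedField G) C L := IsScalarTower.of_algebraMap_eq fun c => rfl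
  have f1 : FiniteDimensional ↥(C ⊓ fixedField G) C := inf_finite G C hstC fun z => rfl
  have f2 : IsFF k ↥(C ⊓ fixedField G) := isFF_down (E := C)
  let _ : Algebra ↥(C ⊓ fixedField G) (fixedField G) :=
    (inclusion (inf_le_right : C ⊓ fixedField G ≤ fixedField G)).toRingHom.toAlgebra
  have t3 : IsScalarTower k ↥(C ⊓ fixedField G) (fixedField G) :=
    IsScalarTower.of_algebraMap_eq fun c => rfl
  have t4 : IsScalarTower ↥(C ⊓ fixedField G) (fixedField G) L :=
    IsScalarTower.of_algebraMap_eq fun c => rfl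
  have hx0 : x ≠ 0 := by
    intro h0
    rw [h0] at hx
    exact hx (isAlgebraic_zero)
  have hDx : D0 x ≠ 0 := der_ne_zero hD0 hx
  by_cases htriv : ∀ f : ↥(C ⊓ fixedField G), w.ord (algebraMap ↥(C ⊓ fixedField G) L f) = 0
  · -- `w` is trivial on the curve
    have h1 : ∀ f ∈ C, w.ord f = 0 := fun f hf =>
      ord_eq_zero_of_alg (K0 := ↥(C ⊓ fixedField G)) (K1 := C) (K2 := L) w htriv ⟨f, hf⟩
    have he : e = 1 := unram_of_triv G C hstC hfC h h1
    subst he
    have hb : Ge w 0 ((c / (D0 x) ^ M : ↥(C ⊓ fixedField G)) : L) :=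
      Or.inr (htriv (c / (D0 x) ^ M)).ge
    obtain ⟨T, hT, hT'⟩ := append_factor y z (x : L) (x : L) 1 Z hZ fun D => (one_mul _).symm
    rw [det_factor D _ _ T hT', hT, mul_one, mul_pow]
    have h3 : Ge w 0 (Matrix.of fun i j => D i
        ((Fin.append z (fun _ : Fin 1 => (x : L)) : Fin (d + 1) → L) j)).det :=
      ge_det w _ fun i j => hD i _ (append_reg hzr (Or.inr (htriv x).ge) j)
    have h4 : Ge w 0 (a * Z.det ^ M) := ha
    have h5 := (h4.mul hb).mul (h3.pow M)
    have e1 : a * Z.det ^ M * ((c / (D0 x) ^ M : ↥(C ⊓ fixedField G)) : L) *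
        (Matrix.of fun i j => D i
        ((Fin.append z (fun _ : Fin 1 => (x : L)) : Fin (d + 1) → L) j)).det ^ M =
        a * ((c / (D0 x) ^ M : ↥(C ⊓ fixedField G)) : L) * (Z.det ^ M *
        (Matrix.of fun i j => D i
        ((Fin.append z (fun _ : Fin 1 => (x : L)) : Fin (d + 1) → L) j)).det ^ M) := by ring
    rw [← e1]
    refine h5.mono ?_
    simp
  -- `w` is not trivial on the curve
  push Not at htriv
  obtain ⟨α, p, hp⟩ := exists_over (K := ↥(C ⊓ fixedField G)) w htriv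
  obtain ⟨u, hu0, hpu⟩ := p.surj
  -- the place below `v`
  obtain ⟨c0, p', hp'⟩ := exists_over (K := ↥(C ⊓ fixedField G)) v (by
    obtain ⟨f, hf⟩ := htriv
    refine ⟨f, fun h0 => hf ?_⟩
    rw [IsScalarTower.algebraMap_apply ↥(C ⊓ fixedField G) (fixedField G) L, h.2, h0, mul_zero])
  obtain ⟨rfl, hα⟩ := over_unique' hp (over_trans h hp')
  -- the uniformizer
  have hut : Transcendental k u := trans_of_ord p (by omega)
  obtain ⟨r, hr1, hr2⟩ := ratio' (K := L) hut x
  have hDu : D0 u ≠ 0 := der_ne_zero hD0 hut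
  have hxr : D0 x = r * D0 u := hr1 D0
  have hr0 : r ≠ 0 := by
    intro h
    rw [h, zero_mul] at hxr
    exact hDx hxr
  obtain ⟨T, hT, hT'⟩ := append_factor y z (x : L) (u : L) (r : L) Z hZ fun D => hr2 D
  have huL : (u : L) ≠ 0 := fun h0 => hu0 (Subtype.ext h0)
  have hne : ∀ i, (Fin.append z (fun _ : Fin 1 => (u : L)) : Fin (d + 1) → L) i ≠ 0 :=
    append_ne hz0 huL
  rw [det_factor D _ _ T hT', hT, det_dlog D _ hne, Fin.prod_univ_add]
  simp only [Fin.append_left, Fin.append_right, Finset.univ_unique, Finset.prod_singleton]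
  have hlog := det_log w D hD _ hne
  -- the form on the curve
  have hval : ((c / (D0 x) ^ M : ↥(C ⊓ fixedField G)) : L) * ((r : L) * (u : L)) ^ M =
      algebraMap ↥(C ⊓ fixedField G) L (c * (u / D0 u) ^ M) := by
    have h3 : c / (D0 x) ^ M * (r * u) ^ M = c * (u / D0 u) ^ M := by
      rw [hxr, div_mul_eq_mul_div, mul_div_assoc, ← div_pow]
      congr 2
      field_simp
    rw [← h3]
    change _ = ((c / (D0 x) ^ M * (r * u) ^ M : ↥(C ⊓ fixedField G)) : L)
    push_cast
    rfl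
  have hord : p.ord (c * (u / D0 u) ^ M) = p.ord c + M * (1 - vo p D0) := by
    rw [p.ord_mul hc (pow_ne_zero _ (div_ne_zero hu0 hDu)), p.ord_pow, p.ord_div hu0 hDu, hpu,
      vo_eq p hpu hD0]
  obtain ⟨h5, h6⟩ := hg p
  have h7 := h6 not_false
  rw [← hord] at h7 h5
  have hw : w.ord (((c / (D0 x) ^ M : ↥(C ⊓ fixedField G)) : L) * ((r : L) * (u : L)) ^ M) =
      α * p.ord (c * (u / D0 u) ^ M) := by
    rw [hval, hp.2]
  have hgb : Ge w (α * p.ord (c * (u / D0 u) ^ M))
      (((c / (D0 x) ^ M : ↥(C ⊓ fixedField G)) : L) * ((r : L) * (u : L)) ^ M) := Or.inr hw.ge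
  have hprod : Ge w (∑ c, w.ord (z c)) (∏ c, z c) :=
    Ge.prod _ _ _ fun c _ => Or.inr le_rfl
  have hfinal := (((show Ge w 0 (a * Z.det ^ M) from ha).mul hgb).mul (hprod.pow M)).mul
    (hlog.pow M)
  have e1 : a * Z.det ^ M * (((c / (D0 x) ^ M : ↥(C ⊓ fixedField G)) : L) *
      ((r : L) * (u : L)) ^ M) * (∏ c, z c) ^ M *
      (Matrix.of fun j i => D j ((Fin.append z (fun _ : Fin 1 => (u : L)) : Fin (d + 1) → L) i) /
        (Fin.append z (fun _ : Fin 1 => (u : L)) : Fin (d + 1) → L) i).det ^ M =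
      a * ((c / (D0 x) ^ M : ↥(C ⊓ fixedField G)) : L) * (Z.det * (r : L) * ((∏ c, z c) * (u : L) *
        (Matrix.of fun j i => D j ((Fin.append z (fun _ : Fin 1 => (u : L)) : Fin (d + 1) → L) i) /
        (Fin.append z (fun _ : Fin 1 => (u : L)) : Fin (d + 1) → L) i).det)) ^ M := by
    ring
  rw [e1] at hfinal
  refine hfinal.mono ?_
  rw [hα]
  push_cast
  have hs0 : ∀ c, 0 ≤ w.ord (z c) := fun c => (hzr c).resolve_left (hz0 c)
  have he1 : (1 : ℤ) ≤ e := by exact_mod_cast h.1
  have hc01 : (1 : ℤ) ≤ c0 := by exact_mod_cast hp'.1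
  have hA := arith (M := (M : ℤ)) (e := (e : ℤ)) (c0 := (c0 : ℤ))
    (l := p.ord (c * (u / D0 u) ^ M)) (s := ∑ c, w.ord (z c)) (δ := δ p) (by positivity)
    he1 hc01 (Finset.sum_nonneg fun c _ => hs0 c) (by push_cast at h7 ⊢; exact h7) (by
      rcases hδ p with h8 | ⟨h8, h9, h10, h11⟩
      · exact Or.inl h8
      refine Or.inr ⟨h8, h9, ?_⟩
      by_cases h12 : 2 ≤ c0
      · exact Or.inl (by exact_mod_cast h12)
      right
      have h13 : c0 = 1 := by have := hp'.1; omega
      have h14 : δ p * e ≤ 1 := by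
        refine (mul_le_mul_of_nonneg_left ?_ h8).trans h10
        exact_mod_cast index_le G h
      rcases hzF with h15 | h15
      · -- `w` is trivial on `F`: then it is unramified
        exfalso
        have he : e = 1 := unram_of_triv G F hstF hfF h h15
        rw [he, h13] at hα
        obtain ⟨f, q, hq⟩ := exists_over (K := C) w
          ⟨algebraMap ↥(C ⊓ fixedField G) C u, by
            rw [← IsScalarTower.algebraMap_apply, hp.2, hα, hpu]
            norm_num⟩
        have hqu : q.ord (algebraMap ↥(C ⊓ fixedField G) C u) ≠ 0 := by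
          intro h
          have h3 := hq.2 (algebraMap ↥(C ⊓ fixedField G) C u)
          rw [h, mul_zero, ← IsScalarTower.algebraMap_apply, hp.2, hα, hpu] at h3
          norm_num at h3
        obtain ⟨g, p'', hp''⟩ := exists_over (K := ↥(C ⊓ fixedField G)) q ⟨_, hqu⟩
        obtain ⟨rfl, hfg⟩ := over_unique' hp (over_trans hq hp'')
        rw [hα] at hfg
        have h16 := h11 q g hp''
        have h17 := hq.1
        nlinarith
      · exact ⟨h15, by exact_mod_cast h14⟩)
  linarith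

end

end Pool.Agent.K4H25.GQ

end

section

/-!
The forms on the curve.
-/

set_option autoImplicit false
set_option linter.overlappingInstances false
set_option linter.unusedSectionVars false
set_option linter.unusedVariables false
set_option linter.unusedSimpArgs false

open Polynomial FF IntermediateField Pool.Agent.W619.PQ Pool.Agent.W619.PL Pool.Agent.W619.TW
  Pool.Agent.W619.X Pool.Agent.W619.Y Pool.Agent.W603.LV

namespace Pool.Agent.K4H25.GQ

section

variable {k : Type} [Field k] [CharZero k] [IsAlgClosed k]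
  {E0 E : Type} [Field E0] [Field E] [Algebra k E0] [Algebra k E] [Algebra E0 E]
  [IsScalarTower k E0 E] [IsFF k E0] [IsFF k E] [FiniteDimensional E0 E]

/-- The genus does not grow on quotients. -/
theorem canDeg_up (h : ¬ ∃ t : E0, k⟮t⟯ = ⊤) : 0 ≤ canDeg k E := by
  classical
  have hD : der k E0 ≠ 0 := der_ne
  obtain ⟨f, hf0, hf⟩ := exists_regular h hD
  obtain ⟨D, hDne, hDext⟩ := exists_ext (E := E) (der k E0) hD
  have hfE : ∀ w : Place k E, vo w D ≤ w.ord (algebraMap E0 E f) := by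
    intro w
    obtain ⟨e, q, hq⟩ := Pool.Agent.W73.PG.PULL.exists_over' (K := E0) w
    rw [vo_over hq hD hDne hDext, hq.2]
    have h1 : (1 : ℤ) ≤ e := by exact_mod_cast hq.1
    have h2 := mul_le_mul_of_nonneg_left (hf q) (by omega : (0 : ℤ) ≤ e)
    linarith
  set g : E := algebraMap E0 E f with hg
  set T : Finset (Place k E) := (finite_support (k := k) g).toFinset ∪ (vo_finite hDne).toFinset
  have hs1 : ∑ q ∈ T, q.ord g = 0 := sum_ord_finset g T fun q hq =>
    Finset.mem_union_left _ ((finite_support (k := k) g).mem_toFinset.2 hq)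
  have hs2 : ∑ q ∈ T, vo q D = - canDeg k E := canDeg_finset hDne T fun q hq =>
    Finset.mem_union_right _ ((vo_finite hDne).mem_toFinset.2 hq)
  have h1 := Finset.sum_le_sum fun q (_ : q ∈ T) => hfE q
  rw [hs1, hs2] at h1
  omega

/-- Two forms with small poles at one branch point. -/
theorem two_forms {H : Type*} [Group H] [Finite H] (ρ : H →* (E ≃ₐ[k] E))
    (hfix : ∀ (h : H) (z : E0), ρ h (algebraMap E0 E z) = algebraMap E0 E z)
    (hinv : ∀ z : E, (∀ h, ρ h z = z) → ∃ z0, algebraMap E0 E z0 = z)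
    (hirr : ¬ ∃ t : E0, k⟮t⟯ = ⊤) (hpos : 0 < canDeg k E) (N : ℕ) (hN : 1 ≤ N) :
    ∃ (δ : Place k E0 → ℚ) (m : ℕ) (D0 : Derivation k E0 E0) (c c' : E0),
      (∀ q, δ q = 0 ∨ (0 ≤ δ q ∧ δ q ≤ 1 / 2 ∧ δ q * N ≤ 1 ∧
        ∀ (w : Place k E) (e : ℕ), Over w q e → 2 ≤ e)) ∧
      1 ≤ m ∧ D0 ≠ 0 ∧ c ≠ 0 ∧ c' ≠ 0 ∧
      GoodX (fun _ => False) (fun q => 1 - δ q) m D0 c ∧
      GoodX (fun _ => False) (fun q => 1 - δ q) m D0 c' ∧ Transcendental k (c' / c) := by
  classical
  by_cases h0 : 0 < canDeg k E0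
  · obtain ⟨m, D0, c, c', h1, h2, h3, h4, h5, h6, h7⟩ := two_goodX (k := k) (E0 := E0)
      (fun _ => False) (fun _ => 0) ∅ (fun q _ => rfl) (fun q => ⟨le_rfl, zero_le_one⟩) (by
        rw [Finset.sum_empty, add_zero]
        exact_mod_cast h0)
    exact ⟨fun _ => 0, m, D0, c, c', fun q => Or.inl rfl, h1, h2, h3, h4, h5, h6, h7⟩
  have h0' : canDeg k E0 = 0 := le_antisymm (not_lt.1 h0) (canDeg_nonneg hirr)
  have hU : UB1 E (fun _ : Place k E0 => False) = ∅ := by
    ext q
    simp [UB1]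
  obtain ⟨T, r, hr, hsum⟩ := strict_ineq (E0 := E0) (E := E) ρ hfix hinv (fun _ => False)
    (by rw [hU]; exact Set.finite_empty) (by
      rw [hU, Set.ncard_empty]
      simpa using hpos)
  obtain ⟨q0, hq0⟩ : ∃ q, 2 ≤ r q := by
    by_contra hcon
    push Not at hcon
    rw [h0'] at hsum
    have h1 : ∀ q ∈ T, (1 - 1 / (r q : ℚ)) = 0 := by
      intro q _
      have h2 : r q = 1 := by
        have := (hr q).1
        have := hcon q
        omega
      rw [h2]
      norm_num
    simp only [if_false] at hsum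
    rw [Finset.sum_eq_zero h1] at hsum
    norm_num at hsum
  have hNq : (1 : ℚ) ≤ N := by exact_mod_cast hN
  obtain ⟨δ, hδ⟩ : ∃ δ : Place k E0 → ℚ, ∀ q, δ q = if q = q0 then 1 / (2 * (N : ℚ)) else 0 :=
    ⟨_, fun q => rfl⟩
  have hpos' : (0 : ℚ) < 1 / (2 * N) := by positivity
  have hle : 1 / (2 * (N : ℚ)) ≤ 1 / 2 := by
    apply one_div_le_one_div_of_le (by norm_num)
    linarith
  obtain ⟨m, D0, c, c', h1, h2, h3, h4, h5, h6, h7⟩ := two_goodX (k := k) (E0 := E0)
    (fun _ => False) δ {q0} (fun q hq => by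
      rw [hδ, if_neg (by simpa using hq)]) (fun q => by
      rw [hδ]
      split_ifs
      · exact ⟨hpos'.le, by linarith⟩
      · exact ⟨le_rfl, zero_le_one⟩) (by
      rw [Finset.sum_singleton, hδ, if_pos rfl, h0']
      simpa using hpos')
  refine ⟨δ, m, D0, c, c', fun q => ?_, h1, h2, h3, h4, h5, h6, h7⟩
  rw [hδ]
  split_ifs with hq
  · right
    refine ⟨hpos'.le, hle, ?_, fun w e he => ?_⟩
    · rw [div_mul_eq_mul_div, one_mul, div_le_one (by positivity)]
      linarith
    · rw [hq] at he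
      exact hq0.trans ((hr q0).2 w e he)
  · exact Or.inl rfl

end

section

variable {k : Type} [Field k] [CharZero k] [IsAlgClosed k] {L : Type} [Field L] [Algebra k L]

/-- The forms on the quotient of the curve `C`. -/
theorem curve_forms (C : IntermediateField k L) [hC : IsFF k C] (G : Subgroup (L ≃ₐ[k] L))
    [Finite G] (hstC : ∀ g ∈ G, ∀ z ∈ C, g z ∈ C)
    (hirr : ¬ ∃ t : ↥(C ⊓ fixedField G), k⟮t⟯ = ⊤) :
    0 ≤ canDeg k C ∧ (∃ (m : ℕ) (D0 : Derivation k ↥(C ⊓ fixedField G) ↥(C ⊓ fixedField G))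
      (c : ↥(C ⊓ fixedField G)), 1 ≤ m ∧ D0 ≠ 0 ∧ c ≠ 0 ∧
        GoodX (fun _ => False) (fun _ => 1 - 0) m D0 c) ∧
    (0 < canDeg k C → ∃ (δ : Place k ↥(C ⊓ fixedField G) → ℚ) (m : ℕ)
      (D0 : Derivation k ↥(C ⊓ fixedField G) ↥(C ⊓ fixedField G)) (c c' : ↥(C ⊓ fixedField G)),
      (∀ q, δ q = 0 ∨ (0 ≤ δ q ∧ δ q ≤ 1 / 2 ∧ δ q * Nat.card G ≤ 1 ∧
        ∀ (w : Place k C) (e : ℕ), LiesOver (inf_le_left : C ⊓ fixedField G ≤ C) w q e → 2 ≤ e)) ∧
      1 ≤ m ∧ D0 ≠ 0 ∧ c ≠ 0 ∧ c' ≠ 0 ∧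
      GoodX (fun _ => False) (fun q => 1 - δ q) m D0 c ∧
      GoodX (fun _ => False) (fun q => 1 - δ q) m D0 c' ∧ Transcendental k (c' / c)) := by
  classical
  let _ : Algebra ↥(C ⊓ fixedField G) C :=
    (inclusion (inf_le_left : C ⊓ fixedField G ≤ C)).toRingHom.toAlgebra
  have t1 : IsScalarTower k ↥(C ⊓ fixedField G) C := IsScalarTower.of_algebraMap_eq fun c => rfl
  have f1 : FiniteDimensional ↥(C ⊓ fixedField G) C := inf_finite G C hstC fun z => rfl
  have f2 : IsFF k ↥(C ⊓ fixedField G) := isFF_down (E := C)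
  have hfix : ∀ (g : G) (z : ↥(C ⊓ fixedField G)),
      rho G C hstC g (algebraMap ↥(C ⊓ fixedField G) C z) =
        algebraMap ↥(C ⊓ fixedField G) C z := by
    intro g z
    apply Subtype.ext
    exact z.2.2 g
  have hinv : ∀ z : C, (∀ g, rho G C hstC g z = z) →
      ∃ z0, algebraMap ↥(C ⊓ fixedField G) C z0 = z := by
    intro z hz
    refine ⟨⟨(z : L), z.2, fun g => ?_⟩, rfl⟩
    exact congrArg (Subtype.val : C → L) (hz g)
  refine ⟨canDeg_up (E0 := ↥(C ⊓ fixedField G)) (E := C) hirr, ?_, fun hpos => ?_⟩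
  · obtain ⟨m, D0, c, h1, h2, h3, h4⟩ := one_goodX (k := k) (E0 := ↥(C ⊓ fixedField G))
      (fun _ => False) (fun _ => 0) ∅ (fun q _ => rfl) (fun q => ⟨le_rfl, zero_le_one⟩) (by
        rw [Finset.sum_empty, add_zero]
        exact_mod_cast canDeg_nonneg hirr)
    exact ⟨m, D0, c, h1, h2, h3, h4⟩
  · obtain ⟨δ, m, D0, c, c', h1, h2⟩ := two_forms (E0 := ↥(C ⊓ fixedField G)) (E := C)
      (rho G C hstC) hfix hinv hirr hpos (Nat.card G) Nat.card_pos
    exact ⟨δ, m, D0, c, c', h1, h2⟩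

end

end Pool.Agent.K4H25.GQ

end

section

/-!
The pluricanonical forms on the quotient of `F × C`.
-/

set_option autoImplicit false
set_option linter.overlappingInstances false
set_option linter.unusedSectionVars false
set_option linter.unusedVariables false
set_option linter.unusedSimpArgs false

open Polynomial FF IntermediateField Pool.Agent.W619.PQ Pool.Agent.W619.PL Pool.Agent.W619.TW
  Pool.Agent.W619.X Pool.Agent.W619.Y Pool.Agent.W603.LV Pool.Agent.Y174

namespace Pool.Agent.K4H25.GQ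

section

variable {k : Type} [Field k] [CharZero k] [IsAlgClosed k] {L : Type} [Field L] [Algebra k L]

theorem pluri_det {N : ℕ} (a : L) (Y : Fin N → L) (m : ℕ) :
    IsPluriForm k L N m (fun D => a * (Matrix.of fun i j => D i (Y j)).det ^ m) := by
  intro A D
  have e : (Matrix.of fun a b => (∑ j, A a j • D j) (Y b)) =
      A * Matrix.of fun a b => D a (Y b) := by
    ext a b
    rw [Matrix.of_apply, Matrix.mul_apply, Pool.Agent.W73.PG.PULL.sum_app]
    rfl
  show a * (Matrix.of fun a b => (∑ j, A a j • D j) (Y b)).det ^ m = _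
  rw [e, Matrix.det_mul, mul_pow]
  ring

theorem sup_one {F C : IntermediateField k L} (h : F ⊔ C = ⊤) :
    Algebra.IsAlgebraic ↥(F ⊔ ⨆ _ : Fin 1, C) L := by
  have h1 : F ⊔ ⨆ _ : Fin 1, C = ⊤ := by rw [ciSup_const]; exact h
  rw [h1]
  exact ⟨fun z => isAlgebraic_algebraMap (⟨z, trivial⟩ : (⊤ : IntermediateField k L))⟩

open scoped Classical in
/-- Forms on the quotient. -/
theorem kod_of_forms (F C : IntermediateField k L) [hC : IsFF k C] (G : Subgroup (L ≃ₐ[k] L))
    [Finite G] (hstF : ∀ g ∈ G, ∀ z ∈ F, g z ∈ F) (hstC : ∀ g ∈ G, ∀ z ∈ C, g z ∈ C)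
    (hfF : ∀ g ∈ G, (∀ z ∈ F, g z = z) → g = 1) (hfC : ∀ g ∈ G, (∀ z ∈ C, g z = z) → g = 1)
    {d : ℕ} (hsup : F ⊔ C = ⊤) (hn : Algebra.trdeg k L = (d + 1 : ℕ)) (hd : Algebra.trdeg k F = d)
    (hessF : Algebra.EssFiniteType k F) (hessL : Algebra.EssFiniteType k L)
    (δ : Place k ↥(C ⊓ fixedField G) → ℚ)
    (hδ : ∀ q, δ q = 0 ∨ (0 ≤ δ q ∧ δ q ≤ 1 / 2 ∧ δ q * Nat.card G ≤ 1 ∧
      ∀ (w : Place k C) (e : ℕ), LiesOver (inf_le_left : C ⊓ fixedField G ≤ C) w q e → 2 ≤ e))
    (D0 : Derivation k ↥(C ⊓ fixedField G) ↥(C ⊓ fixedField G)) (hD0 : D0 ≠ 0)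
    {A m1 m2 : ℕ} (hm1 : 1 ≤ m1) (hm2 : 1 ≤ m2)
    (η : Fin (A + 1) → (Fin d → Derivation k F F) → F)
    (hη : ∀ l, PairSec k F d (fun _ => 0) {1} m1 0 (η l))
    (cc : Fin (A + 1) → ↥(C ⊓ fixedField G)) (hcc : ∀ l, cc l ≠ 0)
    (hg : ∀ l, GoodX (fun _ => False) (fun q => 1 - δ q) m2 D0 (cc l))
    (y : Fin d → F) (hy : IsTranscendenceBasis k y) (E : Fin d → Derivation k F F)
    (hE : ∀ i j, E i (y j) = if i = j then 1 else 0) (hne : ∀ l, η l E ≠ 0)
    (hind : AlgebraicIndependent k (fun l : Fin A =>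
      (((η l.succ E : F) : L) ^ m2 * ((cc l.succ : ↥(C ⊓ fixedField G)) : L) ^ m1) /
        (((η 0 E : F) : L) ^ m2 * ((cc 0 : ↥(C ⊓ fixedField G)) : L) ^ m1))) :
    PairKod k (fixedField G) (d + 1) (fun _ => 0) A := by
  let _ : Algebra ↥(C ⊓ fixedField G) C :=
    (inclusion (inf_le_left : C ⊓ fixedField G ≤ C)).toRingHom.toAlgebra
  have t1 : IsScalarTower k ↥(C ⊓ fixedField G) C := IsScalarTower.of_algebraMap_eq fun c => rfl
  have t2 : IsScalarTower ↥(C ⊓ fixedField G) C L := IsScalarTower.of_algebraMap_eq fun c => rfl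
  have f1 : FiniteDimensional ↥(C ⊓ fixedField G) C := inf_finite G C hstC fun z => rfl
  have f2 : IsFF k ↥(C ⊓ fixedField G) := isFF_down (E := C)
  obtain ⟨x, hx⟩ := IsFF.exists_transcendental (k := k) (K := ↥(C ⊓ fixedField G))
  have hDx : D0 x ≠ 0 := der_ne_zero hD0 hx
  have halgK := Pool.Agent.W721.PG.EFF2.alg_fixed G
  -- coordinates
  have hbasis : IsTranscendenceBasis k
      (Fin.append (fun l => (y l : L)) (fun _ : Fin 1 => (x : L)) : Fin (d + 1) → L) := by
    have h := Pool.Agent.W672.PG.basis_mix F (fun _ : Fin 1 => C) (sup_one hsup) hn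
      (Fintype.card_fin d) y hy (fun i => ⟨(x : L), x.2.1⟩)
      (fun i => Pool.Agent.W303.PG.trans_sub C x.2.1 (transcendental_map' hx))
    refine (isTranscendenceBasis_equiv' finSumFinEquiv ?_).1 h
    funext z
    rcases z with z | z <;> simp
  obtain ⟨EL, hEL⟩ := Pool.Agent.W636.PG.exists_duals k L (d + 1) _ hbasis
  -- the places below
  choose e v hv using fun w : Place k L =>
    Pool.Agent.W73.PG.PULL.exists_over' (K := fixedField G) w
  refine Pool.Agent.R885.N.w0_desc hn hessL G (fun _ => 0) (fun w => 1 - (e w : ℝ)) ?_ ?_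
  · intro v' hv' w e' hw
    obtain ⟨h2, h3⟩ := Pool.Agent.R885.N.over_uniq hw (hv w)
    beta_reduce
    rw [h2]
    linarith
  -- the forms
  have hM : 1 ≤ m1 * m2 := Nat.mul_pos hm1 hm2
  obtain ⟨Ω, hΩ⟩ : ∃ Ω : Fin (A + 1) → (Fin (d + 1) → Derivation k L L) → L, Ω = fun l D =>
      (((η l E : F) : L) ^ m2 * ((((cc l) ^ m1 / (D0 x) ^ (m1 * m2) : ↥(C ⊓ fixedField G))) : L)) *
      (Matrix.of fun i j => D i
        ((Fin.append (fun l => (y l : L)) (fun _ : Fin 1 => (x : L)) : Fin (d + 1) → L) j)).det ^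
        (m1 * m2) := ⟨_, rfl⟩
  have hdet : (Matrix.of fun i j => EL i
        ((Fin.append (fun l => (y l : L)) (fun _ : Fin 1 => (x : L)) : Fin (d + 1) → L) j)).det =
      1 := by
    have h1 : (Matrix.of fun i j => EL i
        ((Fin.append (fun l => (y l : L)) (fun _ : Fin 1 => (x : L)) : Fin (d + 1) → L) j)) =
        1 := by
      ext a b
      rw [Matrix.of_apply, Matrix.one_apply]
      exact hEL a b
    rw [h1, Matrix.det_one]
  have hval : ∀ l, Ω l EL = ((η l E : F) : L) ^ m2 *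
      ((((cc l) ^ m1 / (D0 x) ^ (m1 * m2) : ↥(C ⊓ fixedField G))) : L) := by
    intro l
    rw [hΩ]
    beta_reduce
    rw [hdet, one_pow, mul_one]
  have hcoe : ∀ l, ((((cc l) ^ m1 / (D0 x) ^ (m1 * m2) : ↥(C ⊓ fixedField G))) : L) =
      ((cc l : ↥(C ⊓ fixedField G)) : L) ^ m1 / ((D0 x : ↥(C ⊓ fixedField G)) : L) ^ (m1 * m2) := by
    intro l
    push_cast
    rfl
  have hDxL : ((D0 x : ↥(C ⊓ fixedField G)) : L) ≠ 0 := fun h => hDx (Subtype.ext h)
  have hccL : ∀ l, ((cc l : ↥(C ⊓ fixedField G)) : L) ≠ 0 := fun l h => hcc l (Subtype.ext h)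
  have hneL : ∀ l, ((η l E : F) : L) ≠ 0 := fun l h => hne l (Subtype.ext h)
  refine ⟨m1 * m2, hM, Ω, fun l => ⟨?_, ?_⟩, EL, fun l => ?_, ?_⟩
  · rw [hΩ]
    exact pluri_det _ _ _
  · intro w hw D hD
    obtain ⟨Z, z, hz0, hzr, hzF, hZ, hZr⟩ := f_loc F hd hn
      (fun y hy => Pool.Agent.W824.PG.fin_adj hessF y hy) y E hy hE w hw
    have h1 := hZr m1 (η l) (hη l).1 (fun u hu D' hD' => by
      rcases (hη l).2 u hu D' hD' with h2 | ⟨s, hs, hs0, h2⟩
      · exact Or.inl h2
      · right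
        simp only [Nat.cast_zero, zero_mul, mul_zero, sub_zero] at h2
        exact_mod_cast h2)
    have h2 : w.Reg (((η l E : F) : L) ^ m2 * Z.det ^ (m1 * m2)) := by
      have h3 : Ge w (m2 * 0) ((((η l E : F) : L) * Z.det ^ m1) ^ m2) :=
        (show Ge w 0 _ from h1).pow m2
      rw [mul_pow, ← pow_mul, mul_zero] at h3
      exact h3
    have h3 := place_est F C G hstF hstC hfF hfC δ hδ D0 ((cc l) ^ m1) x hD0
      (pow_ne_zero _ (hcc l)) hx ((hg l).pow m1) (fun l => (y l : L)) z Z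
      (((η l E : F) : L) ^ m2) (hv w) hz0 hzr hzF hZ h2 D hD
    rw [hΩ]
    rcases h3 with h3 | h3
    · exact Or.inl h3
    · right
      refine ⟨1, Finset.mem_singleton_self _, one_ne_zero, ?_⟩
      have h4 : (((m1 * m2 : ℕ) : ℤ) * ((e w : ℤ) - 1) : ℤ) ≤ w.ord
        (((η l E : F) : L) ^ m2 * ((((cc l) ^ m1 / (D0 x) ^ (m1 * m2) : ↥(C ⊓ fixedField G))) : L) *
          (Matrix.of fun i j => D i ((Fin.append (fun l => (y l : L)) (fun _ : Fin 1 => (x : L)) :
            Fin (d + 1) → L) j)).det ^ (m1 * m2)) := h3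
      have h5 : ((((m1 * m2 : ℕ) : ℤ) * ((e w : ℤ) - 1) : ℤ) : ℝ) ≤ ((w.ord
        (((η l E : F) : L) ^ m2 * ((((cc l) ^ m1 / (D0 x) ^ (m1 * m2) : ↥(C ⊓ fixedField G))) : L) *
          (Matrix.of fun i j => D i ((Fin.append (fun l => (y l : L)) (fun _ : Fin 1 => (x : L)) :
            Fin (d + 1) → L) j)).det ^ (m1 * m2)) : ℤ) : ℝ) := by exact_mod_cast h4
      push_cast at h5 ⊢
      refine le_trans (le_of_eq ?_) h5
      ring
  · rw [hval, hcoe]
    exact mul_ne_zero (pow_ne_zero _ (hneL l)) (div_ne_zero (pow_ne_zero _ (hccL l))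
      (pow_ne_zero _ hDxL))
  · have h1 : (fun l : Fin A => Ω l.succ EL / Ω 0 EL) = fun l : Fin A =>
      (((η l.succ E : F) : L) ^ m2 * ((cc l.succ : ↥(C ⊓ fixedField G)) : L) ^ m1) /
        (((η 0 E : F) : L) ^ m2 * ((cc 0 : ↥(C ⊓ fixedField G)) : L) ^ m1) := by
      funext l
      rw [hval, hval, hcoe, hcoe]
      have h2 := pow_ne_zero (m1 * m2) hDxL
      have h3 := pow_ne_zero m2 (hneL 0)
      have h4 := pow_ne_zero m1 (hccL 0)
      field_simp
    rw [h1]
    exact hind

end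

end Pool.Agent.K4H25.GQ

end

section

/-!
Kodaira dimension of the quotient of `F × C`: the lower bound.
-/

set_option autoImplicit false
set_option linter.overlappingInstances false
set_option linter.unusedSectionVars false
set_option linter.unusedVariables false
set_option linter.unusedSimpArgs false

open Polynomial FF IntermediateField Pool.Agent.W619.PQ Pool.Agent.W619.PL Pool.Agent.W619.TW
  Pool.Agent.W619.X Pool.Agent.W619.Y Pool.Agent.W603.LV Pool.Agent.Y174

namespace Pool.Agent.K4H25.GQ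

section

variable {k : Type} [Field k] [CharZero k] [IsAlgClosed k] {L : Type} [Field L] [Algebra k L]

theorem indep_pow {ι : Type*} {f : ι → L} (h : AlgebraicIndependent k f) (m : ι → ℕ)
    (hm : ∀ i, 1 ≤ m i) : AlgebraicIndependent k (fun i => f i ^ m i) := by
  have h1 := h.polynomial_aeval_of_transcendental (f := fun i => (Polynomial.X ^ m i : k[X]))
    (fun i => (Polynomial.transcendental_X k).pow (by have := hm i; omega))
  simpa using h1

/-- The lower bound for the Kodaira dimension. -/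
theorem step_kod (F C : IntermediateField k L) [hC : IsFF k C] (G : Subgroup (L ≃ₐ[k] L))
    [Finite G] (hstF : ∀ g ∈ G, ∀ z ∈ F, g z ∈ F) (hstC : ∀ g ∈ G, ∀ z ∈ C, g z ∈ C)
    (hfF : ∀ g ∈ G, (∀ z ∈ F, g z = z) → g = 1) (hfC : ∀ g ∈ G, (∀ z ∈ C, g z = z) → g = 1)
    {d : ℕ} (hsup : F ⊔ C = ⊤) (hn : Algebra.trdeg k L = (d + 1 : ℕ)) (hd : Algebra.trdeg k F = d)
    (hessF : Algebra.EssFiniteType k F) (hessL : Algebra.EssFiniteType k L)
    (hirr : ¬ ∃ t : ↥(C ⊓ fixedField G), k⟮t⟯ = ⊤) {A : ℕ}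
    (hkod : PairKod k F d (fun _ => 0) A) :
    PairKod k (fixedField G) (d + 1) (fun _ => 0) A ∧
      (0 < canDeg k C → PairKod k (fixedField G) (d + 1) (fun _ => 0) (A + 1)) := by
  obtain ⟨m1, hm1, η, hη, D, hD0, hDi⟩ := hkod
  obtain ⟨y, hy⟩ := Pool.Agent.W636.PG.exists_basis k F d hd
  obtain ⟨E, hE⟩ := Pool.Agent.W636.PG.exists_duals k F d y hy
  have hval : ∀ l, η l D = (Matrix.of fun i j => D i (y j)).det ^ m1 * η l E := fun l =>
    Pool.Agent.W636.PG.form_eq k F d m1 y hy E hE (η l) (hη l).1 D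
  have hdet0 : (Matrix.of fun i j => D i (y j)).det ^ m1 ≠ 0 := by
    intro h0
    apply hD0 0
    rw [hval, h0, zero_mul]
  have hE0 : ∀ l, η l E ≠ 0 := by
    intro l h0
    apply hD0 l
    rw [hval, h0, mul_zero]
  have hEi : AlgebraicIndependent k (fun l : Fin A => η l.succ E / η 0 E) := by
    have h1 : (fun l : Fin A => η l.succ D / η 0 D) = fun l : Fin A => η l.succ E / η 0 E := by
      funext l
      rw [hval, hval, mul_div_mul_left _ _ hdet0]
    rwa [h1] at hDi
  have hneL : ∀ l, ((η l E : F) : L) ≠ 0 := fun l h => hE0 l (Subtype.ext h)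
  obtain ⟨hdeg, ⟨m2, D0, c, hm2, hD0', hc, hgc⟩, htwo⟩ := curve_forms C G hstC hirr
  constructor
  · refine kod_of_forms F C G hstF hstC hfF hfC hsup hn hd hessF hessL (fun _ => 0)
      (fun q => Or.inl rfl) D0 hD0' hm1 hm2 η hη (fun _ => c) (fun _ => hc) (fun _ => hgc) y hy E hE
      hE0 ?_
    have hcL : ((c : ↥(C ⊓ fixedField G)) : L) ≠ 0 := fun h => hc (Subtype.ext h)
    have h1 : AlgebraicIndependent k (fun l : Fin A => F.val (η l.succ E / η 0 E)) :=
      (AlgHom.algebraicIndependent_iff F.val (Subtype.val_injective)).2 hEi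
    have h2 := indep_pow h1 (fun _ => m2) (fun _ => hm2)
    convert h2 using 2 with l
    rw [mul_div_mul_right _ _ (pow_ne_zero _ hcL), ← div_pow]
    rfl
  · intro hpos
    obtain ⟨δ, m2, D0, c, c', hδ, hm2, hD0', hc, hc', hgc, hgc', htr⟩ := htwo hpos
    have hcL : ((c : ↥(C ⊓ fixedField G)) : L) ≠ 0 := fun h => hc (Subtype.ext h)
    have hcL' : ((c' : ↥(C ⊓ fixedField G)) : L) ≠ 0 := fun h => hc' (Subtype.ext h)
    let η' : Fin (A + 1 + 1) → (Fin d → Derivation k F F) → F :=
      Fin.snoc (α := fun _ => (Fin d → Derivation k F F) → F) η (η 0)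
    let cc : Fin (A + 1 + 1) → ↥(C ⊓ fixedField G) :=
      Fin.snoc (α := fun _ => ↥(C ⊓ fixedField G)) (fun _ => c) c'
    have e1 : ∀ l : Fin (A + 1), η' l.castSucc = η l := fun l => by
      simp [η']
    have e2 : η' (Fin.last (A + 1)) = η 0 := by simp [η']
    have e3 : ∀ l : Fin (A + 1), cc l.castSucc = c := fun l => by simp [cc]
    have e4 : cc (Fin.last (A + 1)) = c' := by simp [cc]
    have e0 : (0 : Fin (A + 1 + 1)) = Fin.castSucc 0 := rfl
    refine kod_of_forms F C G hstF hstC hfF hfC hsup hn hd hessF hessL δ hδ D0 hD0' hm1 hm2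
      η' ?_ cc ?_ ?_ y hy E hE ?_ ?_
    · intro l
      refine Fin.lastCases ?_ (fun l => ?_) l
      · rw [e2]; exact hη 0
      · rw [e1]; exact hη l
    · intro l
      refine Fin.lastCases ?_ (fun l => ?_) l
      · rw [e4]; exact hc'
      · rw [e3]; exact hc
    · intro l
      refine Fin.lastCases ?_ (fun l => ?_) l
      · rw [e4]; exact hgc'
      · rw [e3]; exact hgc
    · intro l
      refine Fin.lastCases ?_ (fun l => ?_) l
      · rw [e2]; exact hE0 0
      · rw [e1]; exact hE0 l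
    · have h1 := Pool.Agent.W672.PG.indep_mix F (fun _ : Fin 1 => C) (sup_one hsup) hn hd
        (fun l : Fin A => η l.succ E / η 0 E) hEi (fun _ => ⟨((c' / c : ↥(C ⊓ fixedField G)) : L),
          (c' / c : ↥(C ⊓ fixedField G)).2.1⟩)
        (fun i => Pool.Agent.W303.PG.trans_sub C (c' / c : ↥(C ⊓ fixedField G)).2.1
          (transcendental_map' htr))
      have h2 := indep_pow h1 (Sum.elim (fun _ => m2) (fun _ => m1))
        (by rintro (i | i) <;> simp [hm1, hm2])
      have h3 := h2.comp finSumFinEquiv.symm finSumFinEquiv.symm.injective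
      convert h3 using 1
      funext l
      rw [e0, e1, e3]
      have h5 := hneL 0
      refine Fin.addCases (fun l => ?_) (fun l => ?_) l
      · have h4 : (Fin.castAdd 1 l).succ = Fin.castSucc l.succ := rfl
        rw [h4, e1, e3]
        simp only [Function.comp_apply, finSumFinEquiv_symm_apply_castAdd, Sum.elim_inl]
        rw [mul_div_mul_right _ _ (pow_ne_zero _ hcL), ← div_pow]
        rfl
      · have h4 : (Fin.natAdd A l).succ = Fin.last (A + 1) := by
          ext
          simp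
        rw [h4, e2, e4]
        simp only [Function.comp_apply, finSumFinEquiv_symm_apply_natAdd, Sum.elim_inr]
        rw [mul_div_mul_left _ _ (pow_ne_zero _ h5), ← div_pow]
        push_cast
        rfl

end

end Pool.Agent.K4H25.GQ

end

section

/-!
The step: `κ = ν` for the quotient of `F × C` by a group which is faithful on both factors, if the
quotient of the curve `C` is not rational.
-/

set_option autoImplicit false
set_option linter.overlappingInstances false
set_option linter.unusedSectionVars false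
set_option linter.unusedVariables false
set_option linter.unusedSimpArgs false

open Polynomial FF IntermediateField Pool.Agent.W619.PQ Pool.Agent.W619.PL Pool.Agent.W619.TW
  Pool.Agent.W619.X Pool.Agent.W619.Y Pool.Agent.W603.LV Pool.Agent.Y174 Pool.Agent.R885.N

namespace Pool.Agent.K4H25.GQ

theorem neg_zero {k K : Type} [Field k] [Field K] [Algebra k K] {n : ℕ} :
    NegB k K n (fun _ => 0) ↔ NumNeg k K n (fun _ => False) := by
  have h : ∀ (S : Finset K) (m j : ℕ) (ω : (Fin n → Derivation k K K) → K),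
      PairSec k K n (fun _ => 0) S m j ω ↔ IsSec k K n (fun _ => False) S m j ω := by
    intro S m j ω
    constructor
    · rintro ⟨h1, h2⟩
      refine ⟨h1, fun v hv _ D hD => ?_, fun v _ h => h.elim⟩
      rcases h2 v hv D hD with h | ⟨s, hs, hs0, hle⟩
      · exact Or.inl h
      · refine Or.inr ⟨s, hs, hs0, ?_⟩
        simp only [mul_zero, sub_zero] at hle
        exact_mod_cast hle
    · rintro ⟨h1, h2, -⟩
      refine ⟨h1, fun v hv D hD => ?_⟩
      rcases h2 v hv (fun h => h) D hD with h | ⟨s, hs, hs0, hle⟩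
      · exact Or.inl h
      · refine Or.inr ⟨s, hs, hs0, ?_⟩
        simp only [mul_zero, sub_zero]
        exact_mod_cast hle
  constructor
  · intro h1 S
    obtain ⟨M0, hM0⟩ := h1 S
    refine ⟨M0, fun m hm => ?_⟩
    rintro ⟨ω, hω, hω'⟩
    exact hω.ne_zero 0 (hM0 m hm (ω 0) ((h S m 1 _).2 (hω' 0)))
  · intro h1 S
    obtain ⟨M0, hM0⟩ := h1 S
    refine ⟨M0, fun m hm ω hω => ?_⟩
    by_contra h0
    refine hM0 m hm ⟨fun _ => ω, ?_, fun _ => (h S m 1 _).1 hω⟩
    rw [linearIndependent_unique_iff]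
    exact h0

section

variable {k : Type} [Field k] [CharZero k] [IsAlgClosed k] {L : Type} [Field L] [Algebra k L]

/-- **The step.** -/
theorem step (F C : IntermediateField k L) [hC : IsFF k C] (G : Subgroup (L ≃ₐ[k] L))
    [Finite G] (hstF : ∀ g ∈ G, ∀ z ∈ F, g z ∈ F) (hstC : ∀ g ∈ G, ∀ z ∈ C, g z ∈ C)
    (hfF : ∀ g ∈ G, (∀ z ∈ F, g z = z) → g = 1) (hfC : ∀ g ∈ G, (∀ z ∈ C, g z = z) → g = 1)
    {d : ℕ} (hsup : F ⊔ C = ⊤) (hn : Algebra.trdeg k L = (d + 1 : ℕ)) (hd : Algebra.trdeg k F = d)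
    (hessF : Algebra.EssFiniteType k F) (hessL : Algebra.EssFiniteType k L)
    (hirr : ¬ ∃ t : ↥(C ⊓ fixedField G), k⟮t⟯ = ⊤)
    (h : PosB k F d (fun _ => 0) ∨ NegB k F d (fun _ => 0)) :
    PosB k (fixedField G) (d + 1) (fun _ => 0) ∨ NegB k (fixedField G) (d + 1) (fun _ => 0) := by
  classical
  have halgK := Pool.Agent.W721.PG.EFF2.alg_fixed G
  have hfin := fixed_finite G
  obtain ⟨hnK, z, hz⟩ := Pool.Agent.W721.PG.EFF2.exists_basis (fixedField G) (d + 1) hn
  have hessK : Algebra.EssFiniteType k (fixedField G) := Pool.Agent.Y174.ess_down hessL z hz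
  have hbd : ∀ v : Place k (fixedField G), IsDivisorial v (d + 1) → ∀ (w : Place k L) (e : ℕ),
      LiesOn w v e → 1 - (e : ℝ) * (1 - (fun _ : Place k (fixedField G) => (0 : ℝ)) v) ≤
        (fun _ : Place k L => (0 : ℝ)) w := by
    intro v _ w e hw
    have h1 : (1 : ℝ) ≤ e := by exact_mod_cast hw.1
    simp only [sub_zero, mul_one]
    linarith
  have hsup1 : F ⊔ ⨆ _ : Fin 1, C = ⊤ := by rw [ciSup_const]; exact hsup
  obtain ⟨-, hneg, hnum⟩ := pMANY k L d 1 F (fun _ => C) hd hn hsup1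
  rcases h with ⟨A, hA, hkod, hnumF⟩ | hnegF
  · left
    obtain ⟨hk0, hk1⟩ := step_kod F C G hstF hstC hfF hfC hsup hn hd hessF hessL hirr hkod
    obtain ⟨hdeg, -⟩ := curve_forms C G hstC hirr
    have h1 := hnum A (fun _ => hdeg) (pairNum_zero.1 hnumF)
    by_cases h0 : canDeg k C = 0
    · have h2 : {i : Fin 1 | canDeg k C ≠ 0} = ∅ := by
        ext i
        simp [h0]
      rw [h2, Set.ncard_empty, add_zero] at h1
      exact ⟨A, by omega, hk0, w0_num hessK hnK hbd (pairNum_zero.2 h1)⟩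
    · have h2 : {i : Fin 1 | canDeg k C ≠ 0} = Set.univ := by
        ext i
        simp [h0]
      rw [h2, Set.ncard_univ, Nat.card_fin] at h1
      exact ⟨A + 1, by omega, hk1 (by omega), w0_num hessK hnK hbd (pairNum_zero.2 h1)⟩
  · right
    exact neg_pull hessK hnK hbd (neg_zero.2 (hneg (neg_zero.1 hnegF)))

end

end Pool.Agent.K4H25.GQ

end

section

/-!
The quotient of a product `F × C 1 × ... × C q` by a finite group: local tools.
-/

set_option autoImplicit false
set_option linter.overlappingInstances false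
set_option linter.unusedSectionVars false
set_option linter.unusedVariables false
set_option linter.unusedSimpArgs false
set_option maxHeartbeats 4000000
set_option synthInstance.maxHeartbeats 400000

open Polynomial FF IntermediateField Pool.Agent.W619.PQ Pool.Agent.W619.PL Pool.Agent.W619.TW
  Pool.Agent.W619.X Pool.Agent.W619.Y Pool.Agent.W603.LV Pool.Agent.K4H25.GQ

namespace Pool.Agent.K4H25.GW

section

variable {k : Type} [Field k] {L : Type} [Field L] [Algebra k L]

/-- The automorphism `g` rotates the curve with the function field `C` at the place `w` by `θ`: it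
acts on the cotangent line by the factor `θ`. -/
def Rotates (C : IntermediateField k L) (g : L ≃ₐ[k] L) (w : Place k C) (θ : k) : Prop :=
  ∀ t z : C, w.ord t = 1 → g t = z → Ge w 2 (z - algebraMap k C θ * t)

end

section

variable {k : Type} [Field k] [CharZero k] [IsAlgClosed k] {L : Type} [Field L] [Algebra k L]

/-- The inertia group of a place. -/
theorem inertia_at (G : Subgroup (L ≃ₐ[k] L)) [Finite G] {v : Place k (fixedField G)}
    {w : Place k L} {e : ℕ} (h : Over w v e) :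
    ∃ I : Subgroup G, Nat.card I = e ∧ ∀ g ∈ I, Inert w (g : L ≃ₐ[k] L) := by
  obtain ⟨w', e', I, hw', hcard, hI⟩ := exists_inertia G v
  have hee : e = e' := Pool.Agent.R885.N.index_unique h hw'
  obtain ⟨g, hg⟩ := pCONJ k L G v w w' e e' h hw'
  refine ⟨I.map (MulAut.conj g).toMonoidHom, ?_, ?_⟩
  · rw [hee, ← hcard]
    exact (Nat.card_congr (Subgroup.equivMapOfInjective I _ (MulAut.conj g).injective).toEquiv).symm
  · rintro _ ⟨h', hh', rfl⟩ z hz
    have h1 : ((MulAut.conj g).toMonoidHom h' : G) = g * h' * g⁻¹ := rfl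
    rw [h1]
    obtain ⟨y, hy⟩ : ∃ y, y = (g⁻¹ : G).1 z := ⟨_, rfl⟩
    have hgy : (g : L ≃ₐ[k] L) y = z := by
      rw [hy]
      change ((g : L ≃ₐ[k] L) * (g⁻¹ : G).1) z = z
      have : (g : L ≃ₐ[k] L) * (g⁻¹ : G).1 = 1 := congrArg Subtype.val (mul_inv_cancel g)
      rw [this]
      rfl
    have h2 : Ge w' 0 y := by
      rcases hz with hz | hz
      · left
        rw [hy, hz, map_zero]
      · right
        rw [hg y, hgy]
        exact hz
    have h3 := hI h' hh' y h2
    have h4 : ((g * h' * g⁻¹ : G) : L ≃ₐ[k] L) z - z =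
        (g : L ≃ₐ[k] L) ((h' : L ≃ₐ[k] L) y - y) := by
      rw [map_sub, hgy, hy]
      rfl
    rw [h4]
    rcases h3 with h3 | h3
    · left
      rw [h3, map_zero]
    · right
      rw [← hg]
      exact h3

/-- An inert automorphism is trivial on the stable subfields on which the place is trivial. -/
theorem inert_triv {w : Place k L} {g : L ≃ₐ[k] L} (hg : Inert w g) {E : IntermediateField k L}
    (hst : ∀ z ∈ E, g z ∈ E) (htriv : ∀ z ∈ E, w.ord z = 0) : ∀ z ∈ E, g z = z := by
  intro z hz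
  rcases hg z (Or.inr (htriv z hz).ge) with h | h
  · exact sub_eq_zero.1 h
  · have h1 := htriv _ (sub_mem (hst z hz) hz)
    omega

/-- The matrix of the change of coordinates on the product. -/
theorem append_factor' {d q : ℕ} (y z : Fin d → L) (x u r : Fin q → L)
    (Z : Matrix (Fin d) (Fin d) L)
    (hZ : ∀ (D : Derivation k L L) l, D (y l) = ∑ c, Z l c * D (z c))
    (hr : ∀ (D : Derivation k L L) i, D (x i) = r i * D (u i)) :
    ∃ T : Matrix (Fin (d + q)) (Fin (d + q)) L, T.det = Z.det * ∏ i, r i ∧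
      ∀ (D : Derivation k L L) i, D ((Fin.append y x : Fin (d + q) → L) i) =
        ∑ i', T i i' * D ((Fin.append z u : Fin (d + q) → L) i') := by
  classical
  refine ⟨Matrix.reindex finSumFinEquiv finSumFinEquiv
    (Matrix.fromBlocks Z 0 0 (Matrix.diagonal r)), ?_, ?_⟩
  · rw [Matrix.det_reindex_self, Matrix.det_fromBlocks_zero₂₁, Matrix.det_diagonal]
  · intro D i
    rw [← finSumFinEquiv.sum_comp, Fintype.sum_sum_type]
    refine Fin.addCases (fun l => ?_) (fun l => ?_) i
    · simp only [Fin.append_left, Matrix.reindex_apply, Matrix.submatrix_apply,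
        Equiv.symm_apply_apply, finSumFinEquiv_symm_apply_castAdd,
        finSumFinEquiv_symm_apply_natAdd, finSumFinEquiv_apply_left,
        finSumFinEquiv_apply_right, Matrix.fromBlocks_apply₁₁, Matrix.fromBlocks_apply₁₂,
        Fin.append_right, Matrix.zero_apply, zero_mul, Finset.sum_const_zero, add_zero]
      exact hZ D l
    · simp only [Fin.append_left, Matrix.reindex_apply, Matrix.submatrix_apply,
        Equiv.symm_apply_apply, finSumFinEquiv_symm_apply_natAdd,
        finSumFinEquiv_symm_apply_castAdd, finSumFinEquiv_apply_left,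
        finSumFinEquiv_apply_right, Matrix.fromBlocks_apply₂₁, Matrix.fromBlocks_apply₂₂,
        Fin.append_right, Matrix.zero_apply, zero_mul, Finset.sum_const_zero, zero_add]
      rw [Finset.sum_eq_single l]
      · rw [Matrix.diagonal_apply_eq]
        exact hr D l
      · intro b _ hb
        rw [Matrix.diagonal_apply_ne _ (Ne.symm hb), zero_mul]
      · intro h
        exact absurd (Finset.mem_univ l) h

theorem append_ne' {d q : ℕ} {z : Fin d → L} {u : Fin q → L} (hz : ∀ c, z c ≠ 0)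
    (hu : ∀ i, u i ≠ 0) (i : Fin (d + q)) : (Fin.append z u : Fin (d + q) → L) i ≠ 0 := by
  refine Fin.addCases (fun l => ?_) (fun l => ?_) i
  · rw [Fin.append_left]; exact hz l
  · rw [Fin.append_right]; exact hu l

theorem append_reg' {d q : ℕ} {w : Place k L} {z : Fin d → L} {u : Fin q → L}
    (hz : ∀ c, w.Reg (z c)) (hu : ∀ i, w.Reg (u i)) (i : Fin (d + q)) :
    w.Reg ((Fin.append z u : Fin (d + q) → L) i) := by
  refine Fin.addCases (fun l => ?_) (fun l => ?_) i
  · rw [Fin.append_left]; exact hz l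
  · rw [Fin.append_right]; exact hu l

/-- The form on one of the curves at a place. -/
theorem curve_loc (C : IntermediateField k L) [hC : IsFF k C] (G : Subgroup (L ≃ₐ[k] L))
    [Finite G] (hstC : ∀ g ∈ G, ∀ z ∈ C, g z ∈ C) {M : ℕ}
    (δ : Place k ↥(C ⊓ fixedField G) → ℚ)
    (D0 : Derivation k ↥(C ⊓ fixedField G) ↥(C ⊓ fixedField G)) (c x : ↥(C ⊓ fixedField G))
    (hD0 : D0 ≠ 0) (hc : c ≠ 0) (hx : Transcendental k x)
    (hg : GoodX (fun _ => False) (fun q => 1 - δ q) M D0 c) (w : Place k L) :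
    ∃ (u r : L) (N : ℤ), u ≠ 0 ∧ w.Reg u ∧ (∀ D : Derivation k L L, D (x : L) = r * D u) ∧
      Ge w N (((c / (D0 x) ^ M : ↥(C ⊓ fixedField G)) : L) * (r * u) ^ M) ∧
      (((∀ z ∈ C, w.ord z = 0) ∧ w.ord u = 0 ∧ N = 0) ∨
        ∃ (w' : Place k C) (f : ℕ) (p : Place k ↥(C ⊓ fixedField G)) (r' : ℕ),
          Over w w' f ∧ LiesOver (inf_le_left : C ⊓ fixedField G ≤ C) w' p r' ∧
          (M : ℚ) * (f * (r' * (1 - δ p))) ≤ N) := by
  classical
  let _ : Algebra ↥(C ⊓ fixedField G) C :=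
    (inclusion (inf_le_left : C ⊓ fixedField G ≤ C)).toRingHom.toAlgebra
  have t1 : IsScalarTower k ↥(C ⊓ fixedField G) C := IsScalarTower.of_algebraMap_eq fun c => rfl
  have t2 : IsScalarTower ↥(C ⊓ fixedField G) C L := IsScalarTower.of_algebraMap_eq fun c => rfl
  have f1 : FiniteDimensional ↥(C ⊓ fixedField G) C := inf_finite G C hstC fun z => rfl
  have f2 : IsFF k ↥(C ⊓ fixedField G) := isFF_down (E := C)
  have hx0 : x ≠ 0 := by
    intro h0
    rw [h0] at hx
    exact hx (isAlgebraic_zero)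
  have hDx : D0 x ≠ 0 := der_ne_zero hD0 hx
  by_cases htriv : ∀ f : ↥(C ⊓ fixedField G), w.ord (algebraMap ↥(C ⊓ fixedField G) L f) = 0
  · have h1 : ∀ f ∈ C, w.ord f = 0 := fun f hf =>
      ord_eq_zero_of_alg (K0 := ↥(C ⊓ fixedField G)) (K1 := C) (K2 := L) w htriv ⟨f, hf⟩
    refine ⟨(x : L), 1, 0, fun h => hx0 (Subtype.ext h), Or.inr (htriv x).ge,
      fun D => (one_mul _).symm, ?_, Or.inl ⟨h1, htriv x, rfl⟩⟩
    have h2 : ((c / (D0 x) ^ M : ↥(C ⊓ fixedField G)) : L) * (1 * (x : L)) ^ M =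
        algebraMap ↥(C ⊓ fixedField G) L (c / (D0 x) ^ M * x ^ M) := by
      rw [one_mul, map_mul, map_pow]
      rfl
    rw [h2]
    exact Or.inr (htriv _).ge
  push Not at htriv
  obtain ⟨f0, hf0⟩ := htriv
  obtain ⟨f, w', hw'⟩ := exists_over (K := C) w ⟨algebraMap ↥(C ⊓ fixedField G) C f0, by
    rw [← IsScalarTower.algebraMap_apply]
    exact hf0⟩
  obtain ⟨r', p, hp⟩ := exists_over (K := ↥(C ⊓ fixedField G)) w' ⟨f0, by
    intro h
    apply hf0
    rw [IsScalarTower.algebraMap_apply ↥(C ⊓ fixedField G) C L, hw'.2, h, mul_zero]⟩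
  have hwp := over_trans hw' hp
  obtain ⟨u, hu0, hpu⟩ := p.surj
  have hut : Transcendental k u := trans_of_ord p (by omega)
  obtain ⟨r, hr1, hr2⟩ := ratio' (K := L) hut x
  have hDu : D0 u ≠ 0 := der_ne_zero hD0 hut
  have hxr : D0 x = r * D0 u := hr1 D0
  have hr0 : r ≠ 0 := by
    intro h
    rw [h, zero_mul] at hxr
    exact hDx hxr
  have hval : ((c / (D0 x) ^ M : ↥(C ⊓ fixedField G)) : L) * ((r : L) * (u : L)) ^ M =
      algebraMap ↥(C ⊓ fixedField G) L (c * (u / D0 u) ^ M) := by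
    have h3 : c / (D0 x) ^ M * (r * u) ^ M = c * (u / D0 u) ^ M := by
      rw [hxr, div_mul_eq_mul_div, mul_div_assoc, ← div_pow]
      congr 2
      field_simp
    rw [← h3]
    change _ = ((c / (D0 x) ^ M * (r * u) ^ M : ↥(C ⊓ fixedField G)) : L)
    push_cast
    rfl
  have hord : p.ord (c * (u / D0 u) ^ M) = p.ord c + M * (1 - vo p D0) := by
    rw [p.ord_mul hc (pow_ne_zero _ (div_ne_zero hu0 hDu)), p.ord_pow, p.ord_div hu0 hDu, hpu,
      vo_eq p hpu hD0]
  obtain ⟨h5, h6⟩ := hg p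
  have h7 := h6 not_false
  rw [← hord] at h7 h5
  have hwu : w.ord (u : L) = (f * r' : ℕ) := by
    have h8 := hwp.2 u
    rw [hpu, mul_one] at h8
    exact h8
  refine ⟨(u : L), (r : L), (f * r' : ℕ) * p.ord (c * (u / D0 u) ^ M),
    fun h0 => hu0 (Subtype.ext h0), Or.inr (by rw [hwu]; positivity), fun D => hr2 D, ?_, ?_⟩
  · rw [hval]
    exact Or.inr (hwp.2 _).ge
  · refine Or.inr ⟨w', f, p, r', hw', hp, ?_⟩
    push_cast
    have h8 : (0 : ℚ) ≤ f * r' := by positivity
    have h9 := mul_le_mul_of_nonneg_left h7 h8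
    push_cast at h9
    refine le_trans (le_of_eq ?_) h9
    ring

end

end Pool.Agent.K4H25.GW

end

section

/-!
The estimate for the forms on the quotient of a product `F × C 1 × ... × C q` by a finite group.
-/

set_option autoImplicit false
set_option linter.overlappingInstances false
set_option linter.unusedSectionVars false
set_option linter.unusedVariables false
set_option linter.unusedSimpArgs false
set_option maxHeartbeats 4000000
set_option synthInstance.maxHeartbeats 400000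

open Polynomial FF IntermediateField Pool.Agent.W619.PQ Pool.Agent.W619.PL Pool.Agent.W619.TW
  Pool.Agent.W619.X Pool.Agent.W619.Y Pool.Agent.W603.LV Pool.Agent.K4H25.GQ

namespace Pool.Agent.K4H25.GW

section

variable {k : Type} [Field k] {L : Type} [Field L] [Algebra k L]

/-- The weighted criterion: for all `g ≠ 1` in `G` the weighted age is at least one at the fixed
points of `g` on the product of the curves, except for `1 / ord g` if `g` is not trivial on `F`. -/
def WAge {q : ℕ} (F : IntermediateField k L) (C : Fin q → IntermediateField k L)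
    (G : Subgroup (L ≃ₐ[k] L)) (δ : ∀ i, Place k ↥(C i ⊓ fixedField G) → ℚ) : Prop :=
  ∀ g ∈ G, g ≠ 1 → ∀ ζ : k, IsPrimitiveRoot ζ (orderOf g) →
    ∀ (w : ∀ i, Place k (C i)) (p : ∀ i, Place k ↥(C i ⊓ fixedField G)) (r a : Fin q → ℕ),
      (∀ i, LiesOver (inf_le_left : C i ⊓ fixedField G ≤ C i) (w i) (p i) (r i)) →
      (∀ i, a i < orderOf g) → (∀ i, Rotates (C i) g (w i) (ζ ^ a i)) →
      (orderOf g : ℚ) ≤ ∑ i, r i * (1 - δ i (p i)) * a i ∨
        ((∃ z ∈ F, g z ≠ z) ∧ (orderOf g : ℚ) ≤ ∑ i, r i * (1 - δ i (p i)) * a i + 1)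

end

section

variable {k : Type} [Field k] [CharZero k] [IsAlgClosed k] {L : Type} [Field L] [Algebra k L]

open scoped Classical in
/-- The estimate at a place. -/
theorem place_est' {q : ℕ} (F : IntermediateField k L) (C : Fin q → IntermediateField k L)
    [hC : ∀ i, IsFF k (C i)] (G : Subgroup (L ≃ₐ[k] L))
    [Finite G] (hstF : ∀ g ∈ G, ∀ z ∈ F, g z ∈ F) (hstC : ∀ i, ∀ g ∈ G, ∀ z ∈ C i, g z ∈ C i)
    (hfF : ∀ g ∈ G, (∀ i, ∀ z ∈ C i, g z = z) → g = 1)
    {d M : ℕ} (δ : ∀ i, Place k ↥(C i ⊓ fixedField G) → ℚ)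
    (hδ : ∀ i p, 0 ≤ δ i p ∧ δ i p ≤ 1)
    (hbr : ∀ i (w : Place k (C i)) p (r : ℕ),
      LiesOver (inf_le_left : C i ⊓ fixedField G ≤ C i) w p r → 1 ≤ r * (1 - δ i p))
    (hage : WAge F C G δ)
    (D0 : ∀ i, Derivation k ↥(C i ⊓ fixedField G) ↥(C i ⊓ fixedField G))
    (c x : ∀ i, ↥(C i ⊓ fixedField G))
    (hD0 : ∀ i, D0 i ≠ 0) (hc : ∀ i, c i ≠ 0) (hx : ∀ i, Transcendental k (x i))
    (hg : ∀ i, GoodX (fun _ => False) (fun q => 1 - δ i q) M (D0 i) (c i))
    (y z : Fin d → L) (Z : Matrix (Fin d) (Fin d) L) (a : L)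
    {v : Place k (fixedField G)} {w : Place k L} {e : ℕ} (h : Over w v e)
    (hz0 : ∀ c, z c ≠ 0) (hzr : ∀ c, w.Reg (z c))
    (hzF : (∀ f ∈ F, w.ord f = 0) ∨ 1 ≤ ∑ c, w.ord (z c))
    (hZ : ∀ (D : Derivation k L L) l, D (y l) = ∑ c, Z l c * D (z c))
    (ha : w.Reg (a * Z.det ^ M))
    (D : Fin (d + q) → Derivation k L L) (hD : ∀ j, Pres w (D j)) :
    Ge w (M * ((e : ℤ) - 1)) (a * (∏ i, ((c i / (D0 i (x i)) ^ M : ↥(C i ⊓ fixedField G)) : L)) *
      (Matrix.of fun i j => D i
        ((Fin.append y (fun i => ((x i : ↥(C i ⊓ fixedField G)) : L)) :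
          Fin (d + q) → L) j)).det ^ M) := by
  classical
  choose u r N hu0 hur hrx hNge hN using fun i =>
    curve_loc (C i) G (hstC i) (δ i) (D0 i) (c i) (x i) (hD0 i) (hc i) (hx i) (hg i) w
  obtain ⟨T, hT, hT'⟩ := append_factor' y z (fun i => ((x i : ↥(C i ⊓ fixedField G)) : L)) u r Z hZ
    (fun D i => hrx i D)
  have hne : ∀ i, (Fin.append z u : Fin (d + q) → L) i ≠ 0 := append_ne' hz0 hu0
  obtain ⟨I, hIcard, hI⟩ := inertia_at G h
  have hs0 : ∀ c, 0 ≤ w.ord (z c) := fun c => (hzr c).resolve_left (hz0 c)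
  set s : ℤ := ∑ c, w.ord (z c) with hs
  have hs0' : 0 ≤ s := Finset.sum_nonneg fun c _ => hs0 c
  have hlog := det_log w D hD _ hne
  have hprod : Ge w s (∏ c, z c) := Ge.prod _ _ _ fun c _ => Or.inr le_rfl
  -- the form
  obtain ⟨Q, hQ⟩ : ∃ Q, Q = (∏ c, z c) * (Matrix.of fun j i => D j
    ((Fin.append z u : Fin (d + q) → L) i) / (Fin.append z u : Fin (d + q) → L) i).det := ⟨_, rfl⟩
  have hQlog : Ge w (s - 1) Q := by
    rw [hQ]
    have := hprod.mul hlog
    rwa [← sub_eq_add_neg] at this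
  have hdet : (Matrix.of fun i j => D i ((Fin.append z u : Fin (d + q) → L) j)).det =
      Q * ∏ i, u i := by
    rw [det_dlog D _ hne, Fin.prod_univ_add, hQ]
    simp only [Fin.append_left, Fin.append_right]
    ring
  have hform : a * (∏ i, ((c i / (D0 i (x i)) ^ M : ↥(C i ⊓ fixedField G)) : L)) *
      (Matrix.of fun i j => D i
        ((Fin.append y (fun i => ((x i : ↥(C i ⊓ fixedField G)) : L)) :
          Fin (d + q) → L) j)).det ^ M = a * Z.det ^ M *
      (∏ i, (((c i / (D0 i (x i)) ^ M : ↥(C i ⊓ fixedField G)) : L) * (r i * u i) ^ M)) *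
      Q ^ M := by
    rw [det_factor D _ _ T hT', hT, hdet, Finset.prod_mul_distrib, Finset.prod_pow,
      Finset.prod_mul_distrib]
    ring
  rw [hform]
  have hB : Ge w (∑ i, N i)
      (∏ i, (((c i / (D0 i (x i)) ^ M : ↥(C i ⊓ fixedField G)) : L) * (r i * u i) ^ M)) :=
    Ge.prod _ _ _ fun i _ => hNge i
  by_cases hall : ∀ i, ∀ z ∈ C i, w.ord z = 0
  · -- the place is trivial on all curves
    have hI1 : ∀ g ∈ I, g = 1 := by
      intro g hgI
      apply Subtype.ext
      exact hfF _ g.2 fun i => inert_triv (hI g hgI) (hstC i g g.2) (hall i)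
    have he : e = 1 := by
      rw [← hIcard, (Subgroup.eq_bot_iff_forall I).2 hI1, Subgroup.card_bot]
    have hN0 : ∀ i, N i = 0 ∧ w.ord (u i) = 0 := by
      intro i
      rcases hN i with ⟨-, h1, h2⟩ | ⟨w', f, p, r', hw', hp, -⟩
      · exact ⟨h2, h1⟩
      · exfalso
        obtain ⟨t, ht0, ht⟩ := w'.surj
        have h1 := hw'.2 t
        rw [ht, mul_one] at h1
        have h2 := hall i t t.2
        change w.ord (t : L) = f at h1
        have := hw'.1
        omega
    have hQ0 : Ge w 0 Q := by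
      have h1 : Ge w 0 (Q * ∏ i, u i) := by
        rw [← hdet]
        exact ge_det w _ fun i j => hD i _ (append_reg' hzr hur j)
      have h2 : (∏ i, u i) ≠ 0 := Finset.prod_ne_zero_iff.2 fun i _ => hu0 i
      have h3 : w.ord (∏ i, u i) = 0 := by
        rw [(Pool.Agent.R885.N.ord_prod_ne w _ _ fun i _ => hu0 i).2]
        exact Finset.sum_eq_zero fun i _ => (hN0 i).2
      rcases h1 with h1 | h1
      · exact Or.inl ((mul_eq_zero.1 h1).resolve_right h2)
      · by_cases hQ1 : Q = 0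
        · exact Or.inl hQ1
        · right
          rw [w.ord_mul hQ1 h2, h3, add_zero] at h1
          exact h1
    have h5 := ((show Ge w 0 (a * Z.det ^ M) from ha).mul hB).mul (hQ0.pow M)
    refine h5.mono ?_
    rw [he, Finset.sum_eq_zero fun i _ => (hN0 i).1]
    simp
  -- the place is not trivial on all curves
  have h5 := ((show Ge w 0 (a * Z.det ^ M) from ha).mul hB).mul (hQlog.pow M)
  refine h5.mono ?_
  have hMq : (0 : ℚ) ≤ M := by positivity
  -- the weights
  have key : (M : ℚ) * e ≤ ((∑ i, N i : ℤ) : ℚ) + M * (s : ℚ) := by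
    have hNN : ∀ i, ∃ (w' : Place k (C i)) (p : Place k ↥(C i ⊓ fixedField G)) (r' f : ℕ),
        LiesOver (inf_le_left : C i ⊓ fixedField G ≤ C i) w' p r' ∧
        (((∀ z ∈ C i, w.ord z = 0) ∧ f = 0) ∨ Over w w' f) ∧
        (M : ℚ) * (f * (r' * (1 - δ i p))) ≤ N i := by
      intro i
      rcases hN i with ⟨h1, h2, h3⟩ | ⟨w', f, p, r', hw', hp, hle⟩
      · let _ : Algebra ↥(C i ⊓ fixedField G) (C i) :=
          (inclusion (inf_le_left : C i ⊓ fixedField G ≤ C i)).toRingHom.toAlgebra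
        have t1 : IsScalarTower k ↥(C i ⊓ fixedField G) (C i) :=
          IsScalarTower.of_algebraMap_eq fun c => rfl
        have f1 : FiniteDimensional ↥(C i ⊓ fixedField G) (C i) :=
          inf_finite G (C i) (hstC i) fun z => rfl
        have f2 : IsFF k ↥(C i ⊓ fixedField G) := isFF_down (E := C i)
        obtain ⟨w', -⟩ := exists_place (k := k) (K := C i)
        obtain ⟨r', p, hp⟩ := Pool.Agent.W73.PG.PULL.exists_over' (K := ↥(C i ⊓ fixedField G)) w'
        refine ⟨w', p, r', 0, hp, Or.inl ⟨h1, rfl⟩, ?_⟩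
        rw [h3]
        simp
      · exact ⟨w', p, r', f, hp, Or.inr hw', hle⟩
    choose w' p r' f hp hf hle using hNN
    have hwt : ∀ i, 1 ≤ r' i * (1 - δ i (p i)) := fun i => hbr i _ _ _ (hp i)
    have hsum : (M : ℚ) * ∑ i, (f i : ℚ) * (r' i * (1 - δ i (p i))) ≤ ((∑ i, N i : ℤ) : ℚ) := by
      rw [Finset.mul_sum]
      push_cast
      exact Finset.sum_le_sum fun i _ => hle i
    have hmain : (e : ℚ) ≤ ∑ i, (f i : ℚ) * (r' i * (1 - δ i (p i))) + s := by
      have hsq : (0 : ℚ) ≤ s := by exact_mod_cast hs0'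
      by_cases he : e = 1
      · -- unramified
        obtain ⟨i0, hi0⟩ := not_forall.1 hall
        have hf0 : Over w (w' i0) (f i0) := (hf i0).resolve_left fun h1 => hi0 h1.1
        have h1 : (1 : ℚ) ≤ f i0 := by exact_mod_cast hf0.1
        have h2 : (1 : ℚ) ≤ (f i0 : ℚ) * (r' i0 * (1 - δ i0 (p i0))) := by
          have := hwt i0
          nlinarith
        have h3 := Finset.single_le_sum (f := fun i => (f i : ℚ) * (r' i * (1 - δ i (p i))))
          (fun i _ => by
            have := hwt i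
            positivity) (Finset.mem_univ i0)
        rw [he]
        push_cast
        linarith
      · -- ramified
        obtain ⟨g, hgI, hord, ζ, hζ, hrot⟩ := exists_rot_generator w I hI
        rw [hIcard] at hord hζ
        have he1 : 1 ≤ e := h.1
        have hg1 : (g : L ≃ₐ[k] L) ≠ 1 := by
          intro h1
          rw [h1, orderOf_one] at hord
          exact he hord.symm
        have hgin := hI g hgI
        rw [← hord] at hζ
        have hage' := hage g g.2 hg1 ζ hζ w' p r' (fun i => f i % e) hp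
          (fun i => by
            rw [hord]
            exact Nat.mod_lt _ he1) (by
          intro i t z ht hz
          have hcoe : ((z - algebraMap k (C i) (ζ ^ (f i % e)) * t : C i) : L) =
              (g : L ≃ₐ[k] L) t - algebraMap k L (ζ ^ (f i % e)) * t := by
            rw [hz]
            rfl
          have ht0 : (t : L) ≠ 0 := by
            intro h0
            have h1 : t = 0 := Subtype.ext h0
            rw [h1, (w' i).ord_zero] at ht
            omega
          rcases hf i with ⟨h1, h2⟩ | h1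
          · left
            apply Subtype.ext
            rw [hcoe, inert_triv hgin (hstC i g g.2) h1 t t.2, h2, Nat.zero_mod, pow_zero, map_one,
              one_mul, sub_self]
            rfl
          · have h2 : w.ord (t : L) = f i := by
              have := h1.2 t
              rw [ht, mul_one] at this
              exact this
            have h3 := hrot (t : L) ht0
            rw [h2] at h3
            have h4 : ζ ^ (f i : ℤ) = ζ ^ (f i % e) := by
              rw [zpow_natCast]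
              have h5 := Nat.div_add_mod (f i) e
              have h6 : ζ ^ e = 1 := by
                rw [← hord]
                exact hζ.pow_eq_one
              conv_lhs => rw [← h5]
              rw [pow_add, pow_mul, h6, one_pow, one_mul]
            rw [h4, ← hcoe] at h3
            rcases h3 with h3 | h3
            · exact Or.inl (Subtype.ext h3)
            · right
              have h5 := h1.2 (z - algebraMap k (C i) (ζ ^ (f i % e)) * t : C i)
              change w.ord ((z - algebraMap k (C i) (ζ ^ (f i % e)) * t : C i) : L) = _ at h5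
              rw [h5] at h3
              have h6 : (1 : ℤ) ≤ f i := by exact_mod_cast h1.1
              by_contra hcon
              push Not at hcon
              nlinarith)
        have hle' : ∑ i, (r' i : ℚ) * (1 - δ i (p i)) * ((f i % e : ℕ) : ℚ) ≤
            ∑ i, (f i : ℚ) * (r' i * (1 - δ i (p i))) := by
          refine Finset.sum_le_sum fun i _ => ?_
          have h1 : ((f i % e : ℕ) : ℚ) ≤ f i := by exact_mod_cast Nat.mod_le _ _
          have h2 := hwt i
          nlinarith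
        rw [hord] at hage'
        rcases hage' with h1 | ⟨⟨z0, hz0F, hz0⟩, h1⟩
        · linarith
        · have h2 : 1 ≤ s := by
            rcases hzF with h3 | h3
            · exact absurd (inert_triv hgin (hstF g g.2) h3 z0 hz0F) hz0
            · exact h3
          have h3 : (1 : ℚ) ≤ s := by exact_mod_cast h2
          linarith
    have h6 := mul_le_mul_of_nonneg_left hmain hMq
    rw [mul_add] at h6
    linarith
  have key' : (M : ℤ) * e ≤ (∑ i, N i) + M * s := by exact_mod_cast key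
  push_cast
  linarith

end

end Pool.Agent.K4H25.GW

end

section

/-!
The pluricanonical forms on the quotient of `F × C 1 × ... × C q`.
-/

set_option autoImplicit false
set_option linter.overlappingInstances false
set_option linter.unusedSectionVars false
set_option linter.unusedVariables false
set_option linter.unusedSimpArgs false
set_option maxHeartbeats 4000000
set_option synthInstance.maxHeartbeats 400000

open Polynomial FF IntermediateField Pool.Agent.W619.PQ Pool.Agent.W619.PL Pool.Agent.W619.TW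
  Pool.Agent.W619.X Pool.Agent.W619.Y Pool.Agent.W603.LV Pool.Agent.Y174 Pool.Agent.K4H25.GQ

namespace Pool.Agent.K4H25.GW

section

variable {k : Type} [Field k] [CharZero k] [IsAlgClosed k]
  {E0 E : Type} [Field E0] [Field E] [Algebra k E0] [Algebra k E] [Algebra E0 E]
  [IsScalarTower k E0 E] [IsFF k E0] [IsFF k E] [FiniteDimensional E0 E]

/-- A curve is not rational if there is a good form on its quotient. -/
theorem canDeg_of_form {δ : Place k E0 → ℚ}
    (hbr : ∀ (w : Place k E) q (e : ℕ), Over w q e → 1 ≤ e * (1 - δ q))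
    {m : ℕ} (hm : 1 ≤ m) {D0 : Derivation k E0 E0} (hD0 : D0 ≠ 0) {c : E0} (hc : c ≠ 0)
    (hg : GoodX (fun _ => False) (fun q => 1 - δ q) m D0 c) : 0 ≤ canDeg k E := by
  classical
  obtain ⟨D, hDne, hDext⟩ := exists_ext (E := E) D0 hD0
  have hfE : ∀ w : Place k E, m * vo w D ≤ w.ord (algebraMap E0 E c) := by
    intro w
    obtain ⟨e, q, hq⟩ := Pool.Agent.W73.PG.PULL.exists_over' (K := E0) w
    rw [vo_over hq hD0 hDne hDext, hq.2]
    have h1 := (hg q).2 not_false
    have h2 := hbr w q e hq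
    have h3 : (0 : ℚ) ≤ e := by positivity
    have h4 : (m : ℚ) * 1 ≤ m * (e * (1 - δ q)) := mul_le_mul_of_nonneg_left h2 (by positivity)
    have h5 := mul_le_mul_of_nonneg_left h1 h3
    push_cast at h5
    have h6 : (m : ℚ) ≤ e * ((q.ord c : ℚ) + m * (1 - vo q D0)) := by
      push_cast
      linarith
    have h7 : (m : ℤ) ≤ e * (q.ord c + m * (1 - vo q D0)) := by exact_mod_cast h6
    linarith
  set g : E := algebraMap E0 E c with hgdef
  set T : Finset (Place k E) := (finite_support (k := k) g).toFinset ∪ (vo_finite hDne).toFinset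
  have hs1 : ∑ q ∈ T, q.ord g = 0 := sum_ord_finset g T fun q hq =>
    Finset.mem_union_left _ ((finite_support (k := k) g).mem_toFinset.2 hq)
  have hs2 : ∑ q ∈ T, vo q D = - canDeg k E := canDeg_finset hDne T fun q hq =>
    Finset.mem_union_right _ ((vo_finite hDne).mem_toFinset.2 hq)
  have h1 := Finset.sum_le_sum fun q (_ : q ∈ T) => hfE q
  rw [hs1, ← Finset.mul_sum, hs2] at h1
  have h2 : (1 : ℤ) ≤ m := by exact_mod_cast hm
  nlinarith

end

section

variable {k : Type} [Field k] [CharZero k] [IsAlgClosed k] {L : Type} [Field L] [Algebra k L]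

theorem isFF_quo (C : IntermediateField k L) [hC : IsFF k C] (G : Subgroup (L ≃ₐ[k] L))
    [Finite G] (hstC : ∀ g ∈ G, ∀ z ∈ C, g z ∈ C) : IsFF k ↥(C ⊓ fixedField G) := by
  let _ : Algebra ↥(C ⊓ fixedField G) C :=
    (inclusion (inf_le_left : C ⊓ fixedField G ≤ C)).toRingHom.toAlgebra
  have t1 : IsScalarTower k ↥(C ⊓ fixedField G) C := IsScalarTower.of_algebraMap_eq fun c => rfl
  have f1 : FiniteDimensional ↥(C ⊓ fixedField G) C := inf_finite G C hstC fun z => rfl
  exact isFF_down (E := C)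

open scoped Classical in
/-- Forms on the quotient. -/
theorem kod_of_forms' {q : ℕ} (F : IntermediateField k L) (C : Fin q → IntermediateField k L)
    [hC : ∀ i, IsFF k (C i)] (G : Subgroup (L ≃ₐ[k] L))
    [Finite G] (hstF : ∀ g ∈ G, ∀ z ∈ F, g z ∈ F) (hstC : ∀ i, ∀ g ∈ G, ∀ z ∈ C i, g z ∈ C i)
    (hfF : ∀ g ∈ G, (∀ i, ∀ z ∈ C i, g z = z) → g = 1)
    {d : ℕ} (hsup : F ⊔ ⨆ i, C i = ⊤) (hn : Algebra.trdeg k L = (d + q : ℕ))
    (hd : Algebra.trdeg k F = d)
    (hessF : Algebra.EssFiniteType k F) (hessL : Algebra.EssFiniteType k L)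
    (δ : ∀ i, Place k ↥(C i ⊓ fixedField G) → ℚ)
    (hδ : ∀ i p, 0 ≤ δ i p ∧ δ i p ≤ 1)
    (hbr : ∀ i (w : Place k (C i)) p (r : ℕ),
      LiesOver (inf_le_left : C i ⊓ fixedField G ≤ C i) w p r → 1 ≤ r * (1 - δ i p))
    (hage : WAge F C G δ)
    (D0 : ∀ i, Derivation k ↥(C i ⊓ fixedField G) ↥(C i ⊓ fixedField G)) (hD0 : ∀ i, D0 i ≠ 0)
    {A m1 m2 : ℕ} (hm1 : 1 ≤ m1) (hm2 : 1 ≤ m2)
    (η : Fin (A + 1) → (Fin d → Derivation k F F) → F)
    (hη : ∀ l, PairSec k F d (fun _ => 0) {1} m1 0 (η l))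
    (cc : Fin (A + 1) → ∀ i, ↥(C i ⊓ fixedField G)) (hcc : ∀ l i, cc l i ≠ 0)
    (hg : ∀ l i, GoodX (fun _ => False) (fun q => 1 - δ i q) m2 (D0 i) (cc l i))
    (y : Fin d → F) (hy : IsTranscendenceBasis k y) (E : Fin d → Derivation k F F)
    (hE : ∀ i j, E i (y j) = if i = j then 1 else 0) (hne : ∀ l, η l E ≠ 0)
    (hind : AlgebraicIndependent k (fun l : Fin A =>
      (((η l.succ E : F) : L) ^ m2 * ∏ i, ((cc l.succ i : ↥(C i ⊓ fixedField G)) : L) ^ m1) /
        (((η 0 E : F) : L) ^ m2 * ∏ i, ((cc 0 i : ↥(C i ⊓ fixedField G)) : L) ^ m1))) :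
    PairKod k (fixedField G) (d + q) (fun _ => 0) A := by
  have hFFB : ∀ i, IsFF k ↥(C i ⊓ fixedField G) := fun i => isFF_quo (C i) G (hstC i)
  have hx0 : ∀ i, ∃ x : ↥(C i ⊓ fixedField G), Transcendental k x := fun i =>
    IsFF.exists_transcendental (k := k) (K := ↥(C i ⊓ fixedField G))
  choose x hx using hx0
  have hDx : ∀ i, D0 i (x i) ≠ 0 := fun i => der_ne_zero (hD0 i) (hx i)
  have halgK := Pool.Agent.W721.PG.EFF2.alg_fixed G
  have halg : Algebra.IsAlgebraic ↥(F ⊔ ⨆ i, C i) L := by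
    rw [hsup]
    exact ⟨fun z => isAlgebraic_algebraMap (⟨z, trivial⟩ : (⊤ : IntermediateField k L))⟩
  -- coordinates
  have hbasis : IsTranscendenceBasis k
      (Fin.append (fun l => (y l : L)) (fun i => ((x i : ↥(C i ⊓ fixedField G)) : L)) :
        Fin (d + q) → L) := by
    have h := Pool.Agent.W672.PG.basis_mix F C halg hn
      (Fintype.card_fin d) y hy (fun i => ⟨(x i : L), (x i).2.1⟩)
      (fun i => Pool.Agent.W303.PG.trans_sub (C i) (x i).2.1 (transcendental_map' (hx i)))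
    refine (isTranscendenceBasis_equiv' finSumFinEquiv ?_).1 h
    funext z
    rcases z with z | z <;> simp
  obtain ⟨EL, hEL⟩ := Pool.Agent.W636.PG.exists_duals k L (d + q) _ hbasis
  -- the places below
  choose e v hv using fun w : Place k L =>
    Pool.Agent.W73.PG.PULL.exists_over' (K := fixedField G) w
  refine Pool.Agent.R885.N.w0_desc hn hessL G (fun _ => 0) (fun w => 1 - (e w : ℝ)) ?_ ?_
  · intro v' hv' w e' hw
    obtain ⟨h2, h3⟩ := Pool.Agent.R885.N.over_uniq hw (hv w)
    beta_reduce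
    rw [h2]
    linarith
  -- the forms
  have hM : 1 ≤ m1 * m2 := Nat.mul_pos hm1 hm2
  obtain ⟨Ω, hΩ⟩ : ∃ Ω : Fin (A + 1) → (Fin (d + q) → Derivation k L L) → L, Ω = fun l D =>
      (((η l E : F) : L) ^ m2 * (∏ i, ((((cc l i) ^ m1 / (D0 i (x i)) ^ (m1 * m2) :
        ↥(C i ⊓ fixedField G))) : L))) *
      (Matrix.of fun i j => D i
        ((Fin.append (fun l => (y l : L)) (fun i => ((x i : ↥(C i ⊓ fixedField G)) : L)) :
          Fin (d + q) → L) j)).det ^ (m1 * m2) := ⟨_, rfl⟩
  have hdet : (Matrix.of fun i j => EL i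
        ((Fin.append (fun l => (y l : L)) (fun i => ((x i : ↥(C i ⊓ fixedField G)) : L)) :
          Fin (d + q) → L) j)).det = 1 := by
    have h1 : (Matrix.of fun i j => EL i
        ((Fin.append (fun l => (y l : L)) (fun i => ((x i : ↥(C i ⊓ fixedField G)) : L)) :
          Fin (d + q) → L) j)) = 1 := by
      ext a b
      rw [Matrix.of_apply, Matrix.one_apply]
      exact hEL a b
    rw [h1, Matrix.det_one]
  have hcoe : ∀ l i, ((((cc l i) ^ m1 / (D0 i (x i)) ^ (m1 * m2) : ↥(C i ⊓ fixedField G))) : L) =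
      ((cc l i : ↥(C i ⊓ fixedField G)) : L) ^ m1 /
        ((D0 i (x i) : ↥(C i ⊓ fixedField G)) : L) ^ (m1 * m2) := by
    intro l i
    push_cast
    rfl
  have hval : ∀ l, Ω l EL = ((η l E : F) : L) ^ m2 *
      ((∏ i, ((cc l i : ↥(C i ⊓ fixedField G)) : L) ^ m1) /
        ∏ i, ((D0 i (x i) : ↥(C i ⊓ fixedField G)) : L) ^ (m1 * m2)) := by
    intro l
    rw [hΩ]
    beta_reduce
    rw [hdet, one_pow, mul_one, Finset.prod_congr rfl fun i _ => hcoe l i, Finset.prod_div_distrib]
  have hDxL : (∏ i, ((D0 i (x i) : ↥(C i ⊓ fixedField G)) : L) ^ (m1 * m2)) ≠ 0 :=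
    Finset.prod_ne_zero_iff.2 fun i _ => pow_ne_zero _ fun h => hDx i (Subtype.ext h)
  have hccL : ∀ l, (∏ i, ((cc l i : ↥(C i ⊓ fixedField G)) : L) ^ m1) ≠ 0 := fun l =>
    Finset.prod_ne_zero_iff.2 fun i _ => pow_ne_zero _ fun h => hcc l i (Subtype.ext h)
  have hneL : ∀ l, ((η l E : F) : L) ≠ 0 := fun l h => hne l (Subtype.ext h)
  refine ⟨m1 * m2, hM, Ω, fun l => ⟨?_, ?_⟩, EL, fun l => ?_, ?_⟩
  · rw [hΩ]
    exact pluri_det _ _ _
  · intro w hw D hD
    obtain ⟨Z, z, hz0, hzr, hzF, hZ, hZr⟩ := f_loc F hd hn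
      (fun y hy => Pool.Agent.W824.PG.fin_adj hessF y hy) y E hy hE w hw
    have h1 := hZr m1 (η l) (hη l).1 (fun u hu D' hD' => by
      rcases (hη l).2 u hu D' hD' with h2 | ⟨s, hs, hs0, h2⟩
      · exact Or.inl h2
      · right
        simp only [Nat.cast_zero, zero_mul, mul_zero, sub_zero] at h2
        exact_mod_cast h2)
    have h2 : w.Reg (((η l E : F) : L) ^ m2 * Z.det ^ (m1 * m2)) := by
      have h3 : Ge w (m2 * 0) ((((η l E : F) : L) * Z.det ^ m1) ^ m2) :=
        (show Ge w 0 _ from h1).pow m2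
      rw [mul_pow, ← pow_mul, mul_zero] at h3
      exact h3
    have h3 := place_est' F C G hstF hstC hfF δ hδ hbr hage D0 (fun i => (cc l i) ^ m1) x hD0
      (fun i => pow_ne_zero _ (hcc l i)) hx (fun i => (hg l i).pow m1) (fun l => (y l : L)) z Z
      (((η l E : F) : L) ^ m2) (hv w) hz0 hzr hzF hZ h2 D hD
    rw [hΩ]
    rcases h3 with h3 | h3
    · exact Or.inl h3
    · right
      refine ⟨1, Finset.mem_singleton_self _, one_ne_zero, ?_⟩
      have h4 : (((m1 * m2 : ℕ) : ℤ) * ((e w : ℤ) - 1) : ℤ) ≤ w.ord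
        (((η l E : F) : L) ^ m2 * (∏ i, ((((cc l i) ^ m1 / (D0 i (x i)) ^ (m1 * m2) :
          ↥(C i ⊓ fixedField G))) : L)) *
          (Matrix.of fun i j => D i ((Fin.append (fun l => (y l : L))
            (fun i => ((x i : ↥(C i ⊓ fixedField G)) : L)) :
              Fin (d + q) → L) j)).det ^ (m1 * m2)) := h3
      have h5 : ((((m1 * m2 : ℕ) : ℤ) * ((e w : ℤ) - 1) : ℤ) : ℝ) ≤ ((w.ord
        (((η l E : F) : L) ^ m2 * (∏ i, ((((cc l i) ^ m1 / (D0 i (x i)) ^ (m1 * m2) :
          ↥(C i ⊓ fixedField G))) : L)) *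
          (Matrix.of fun i j => D i ((Fin.append (fun l => (y l : L))
            (fun i => ((x i : ↥(C i ⊓ fixedField G)) : L)) :
              Fin (d + q) → L) j)).det ^ (m1 * m2)) : ℤ) : ℝ) := by exact_mod_cast h4
      push_cast at h5 ⊢
      refine le_trans (le_of_eq ?_) h5
      ring
  · rw [hval]
    exact mul_ne_zero (pow_ne_zero _ (hneL l)) (div_ne_zero (hccL l) hDxL)
  · have h1 : (fun l : Fin A => Ω l.succ EL / Ω 0 EL) = fun l : Fin A =>
      (((η l.succ E : F) : L) ^ m2 * ∏ i, ((cc l.succ i : ↥(C i ⊓ fixedField G)) : L) ^ m1) /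
        (((η 0 E : F) : L) ^ m2 * ∏ i, ((cc 0 i : ↥(C i ⊓ fixedField G)) : L) ^ m1) := by
      funext l
      rw [hval, hval]
      have h3 := pow_ne_zero m2 (hneL 0)
      have h4 := hccL 0
      rw [← mul_div_assoc, ← mul_div_assoc, div_div_div_cancel_right₀ hDxL]
    rw [h1]
    exact hind

end

end Pool.Agent.K4H25.GW

end

section

/-!
Kodaira dimension of the quotient of `F × C 1 × ... × C q`: the lower bound.
-/

set_option autoImplicit false
set_option linter.overlappingInstances false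
set_option linter.unusedSectionVars false
set_option linter.unusedVariables false
set_option linter.unusedSimpArgs false
set_option maxHeartbeats 4000000
set_option synthInstance.maxHeartbeats 400000

open Polynomial FF IntermediateField Pool.Agent.W619.PQ Pool.Agent.W619.PL Pool.Agent.W619.TW
  Pool.Agent.W619.X Pool.Agent.W619.Y Pool.Agent.W603.LV Pool.Agent.Y174 Pool.Agent.K4H25.GQ

namespace Pool.Agent.K4H25.GW

section

variable {k : Type} [Field k] [CharZero k] [IsAlgClosed k] {L : Type} [Field L] [Algebra k L]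

/-- The positivity of the divisor `K + δ` on the quotient of the curve `C`: its degree is positive,
or it is nonnegative and `C` is elliptic. -/
def WDeg (C : IntermediateField k L) (G : Subgroup (L ≃ₐ[k] L))
    (δ : Place k ↥(C ⊓ fixedField G) → ℚ) : Prop :=
  ∃ T : Finset (Place k ↥(C ⊓ fixedField G)), (∀ q, q ∉ T → δ q = 0) ∧
    ((0 : ℚ) < canDeg k ↥(C ⊓ fixedField G) + ∑ q ∈ T, δ q ∨
      ((0 : ℚ) ≤ canDeg k ↥(C ⊓ fixedField G) + ∑ q ∈ T, δ q ∧ canDeg k C = 0))

/-- The forms on the quotient of one curve. -/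
theorem data_one (C : IntermediateField k L) [hC : IsFF k C] (G : Subgroup (L ≃ₐ[k] L))
    [Finite G] (hstC : ∀ g ∈ G, ∀ z ∈ C, g z ∈ C)
    (δ : Place k ↥(C ⊓ fixedField G) → ℚ) (hδ : ∀ p, 0 ≤ δ p ∧ δ p ≤ 1)
    (hbr : ∀ (w : Place k C) p (r : ℕ),
      LiesOver (inf_le_left : C ⊓ fixedField G ≤ C) w p r → 1 ≤ r * (1 - δ p))
    (hdeg : WDeg C G δ) :
    0 ≤ canDeg k C ∧ ∃ (m : ℕ) (D0 : Derivation k ↥(C ⊓ fixedField G) ↥(C ⊓ fixedField G))
      (c c' : ↥(C ⊓ fixedField G)), 1 ≤ m ∧ D0 ≠ 0 ∧ c ≠ 0 ∧ c' ≠ 0 ∧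
      GoodX (fun _ => False) (fun q => 1 - δ q) m D0 c ∧
      GoodX (fun _ => False) (fun q => 1 - δ q) m D0 c' ∧
      (canDeg k C ≠ 0 → Transcendental k (c' / c)) := by
  have hFFB : IsFF k ↥(C ⊓ fixedField G) := isFF_quo C G hstC
  let _ : Algebra ↥(C ⊓ fixedField G) C :=
    (inclusion (inf_le_left : C ⊓ fixedField G ≤ C)).toRingHom.toAlgebra
  have t1 : IsScalarTower k ↥(C ⊓ fixedField G) C := IsScalarTower.of_algebraMap_eq fun c => rfl
  have f1 : FiniteDimensional ↥(C ⊓ fixedField G) C := inf_finite G C hstC fun z => rfl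
  obtain ⟨T, hT, hpos⟩ := hdeg
  rcases hpos with hpos | ⟨hpos, hell⟩
  · obtain ⟨m, D0, c, c', h1, h2, h3, h4, h5, h6, h7⟩ := two_goodX (k := k)
      (E0 := ↥(C ⊓ fixedField G)) (fun _ => False) δ T hT hδ hpos
    exact ⟨canDeg_of_form (E := C) hbr h1 h2 h3 h5, m, D0, c, c', h1, h2, h3, h4, h5, h6,
      fun _ => h7⟩
  · obtain ⟨m, D0, c, h1, h2, h3, h4⟩ := one_goodX (k := k)
      (E0 := ↥(C ⊓ fixedField G)) (fun _ => False) δ T hT hδ hpos
    exact ⟨hell.ge, m, D0, c, c, h1, h2, h3, h3, h4, h4, fun h => absurd hell h⟩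

/-- The lower bound for the Kodaira dimension. -/
theorem step_kod' {q : ℕ} (F : IntermediateField k L) (C : Fin q → IntermediateField k L)
    [hC : ∀ i, IsFF k (C i)] (G : Subgroup (L ≃ₐ[k] L))
    [Finite G] (hstF : ∀ g ∈ G, ∀ z ∈ F, g z ∈ F) (hstC : ∀ i, ∀ g ∈ G, ∀ z ∈ C i, g z ∈ C i)
    (hfF : ∀ g ∈ G, (∀ i, ∀ z ∈ C i, g z = z) → g = 1)
    {d : ℕ} (hsup : F ⊔ ⨆ i, C i = ⊤) (hn : Algebra.trdeg k L = (d + q : ℕ))
    (hd : Algebra.trdeg k F = d)
    (hessF : Algebra.EssFiniteType k F) (hessL : Algebra.EssFiniteType k L)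
    (δ : ∀ i, Place k ↥(C i ⊓ fixedField G) → ℚ)
    (hδ : ∀ i p, 0 ≤ δ i p ∧ δ i p ≤ 1)
    (hbr : ∀ i (w : Place k (C i)) p (r : ℕ),
      LiesOver (inf_le_left : C i ⊓ fixedField G ≤ C i) w p r → 1 ≤ r * (1 - δ i p))
    (hage : WAge F C G δ) (hdeg : ∀ i, WDeg (C i) G (δ i)) {A : ℕ}
    (hkod : PairKod k F d (fun _ => 0) A) :
    PairKod k (fixedField G) (d + q) (fun _ => 0) (A + {i | canDeg k (C i) ≠ 0}.ncard) := by
  classical
  obtain ⟨m1, hm1, η, hη, D, hD0, hDi⟩ := hkod
  obtain ⟨y, hy⟩ := Pool.Agent.W636.PG.exists_basis k F d hd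
  obtain ⟨E, hE⟩ := Pool.Agent.W636.PG.exists_duals k F d y hy
  have hval : ∀ l, η l D = (Matrix.of fun i j => D i (y j)).det ^ m1 * η l E := fun l =>
    Pool.Agent.W636.PG.form_eq k F d m1 y hy E hE (η l) (hη l).1 D
  have hdet0 : (Matrix.of fun i j => D i (y j)).det ^ m1 ≠ 0 := by
    intro h0
    apply hD0 0
    rw [hval, h0, zero_mul]
  have hE0 : ∀ l, η l E ≠ 0 := by
    intro l h0
    apply hD0 l
    rw [hval, h0, mul_zero]
  have hEi : AlgebraicIndependent k (fun l : Fin A => η l.succ E / η 0 E) := by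
    have h1 : (fun l : Fin A => η l.succ D / η 0 D) = fun l : Fin A => η l.succ E / η 0 E := by
      funext l
      rw [hval, hval, mul_div_mul_left _ _ hdet0]
    rwa [h1] at hDi
  have hneL : ∀ l, ((η l E : F) : L) ≠ 0 := fun l h => hE0 l (Subtype.ext h)
  have hFFB : ∀ i, IsFF k ↥(C i ⊓ fixedField G) := fun i => isFF_quo (C i) G (hstC i)
  -- the forms on the curves
  choose hcan m D0 c1 c1' hm hD0' hc1 hc1' hg1 hg1' htr1 using fun i =>
    data_one (C i) G (hstC i) (δ i) (hδ i) (hbr i) (hdeg i)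
  obtain ⟨m2, hm2def⟩ : ∃ m2, m2 = ∏ i, m i := ⟨_, rfl⟩
  have hm2 : 1 ≤ m2 := by
    rw [hm2def]
    exact Nat.pos_of_ne_zero (Finset.prod_ne_zero_iff.2 fun i _ => by
      have := hm i
      omega)
  have hn1 : ∀ i, ∃ ν : ℕ, 1 ≤ ν ∧ ν * m i = m2 := by
    intro i
    refine ⟨∏ j ∈ Finset.univ.erase i, m j, Nat.pos_of_ne_zero
      (Finset.prod_ne_zero_iff.2 fun i _ => by
        have := hm i
        omega), ?_⟩
    rw [hm2def, mul_comm]
    exact Finset.mul_prod_erase Finset.univ m (Finset.mem_univ i)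
  choose ν hν hνm using hn1
  obtain ⟨c, hc⟩ : ∃ c : ∀ i, ↥(C i ⊓ fixedField G), c = fun i => c1 i ^ ν i := ⟨_, rfl⟩
  obtain ⟨c', hc'⟩ : ∃ c' : ∀ i, ↥(C i ⊓ fixedField G), c' = fun i => c1' i ^ ν i := ⟨_, rfl⟩
  have hcne : ∀ i, c i ≠ 0 := fun i => by
    rw [hc]
    exact pow_ne_zero _ (hc1 i)
  have hcne' : ∀ i, c' i ≠ 0 := fun i => by
    rw [hc']
    exact pow_ne_zero _ (hc1' i)
  have hgc : ∀ i, GoodX (fun _ => False) (fun q => 1 - δ i q) m2 (D0 i) (c i) := by
    intro i
    have := (hg1 i).pow (ν i)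
    rw [hνm i] at this
    rw [hc]
    exact this
  have hgc' : ∀ i, GoodX (fun _ => False) (fun q => 1 - δ i q) m2 (D0 i) (c' i) := by
    intro i
    have := (hg1' i).pow (ν i)
    rw [hνm i] at this
    rw [hc']
    exact this
  have htr : ∀ i, canDeg k (C i) ≠ 0 → Transcendental k (c' i / c i) := by
    intro i hi
    rw [hc, hc']
    beta_reduce
    rw [← div_pow]
    exact (htr1 i hi).pow (by have := hν i; omega)
  -- the positive curves
  obtain ⟨B, hB⟩ : ∃ B, B = {i : Fin q | canDeg k (C i) ≠ 0}.ncard := ⟨_, rfl⟩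
  rw [← hB]
  obtain ⟨σ, hσinj, hσ⟩ : ∃ σ : Fin B → Fin q, Function.Injective σ ∧
      ∀ b, canDeg k (C (σ b)) ≠ 0 := by
    have h1 : Nat.card {i : Fin q // canDeg k (C i) ≠ 0} = B := by
      rw [hB]
      rfl
    let φ := (Finite.equivFinOfCardEq h1).symm
    exact ⟨fun b => (φ b : Fin q), fun a b h => φ.injective (Subtype.ext h), fun b => (φ b).2⟩
  obtain ⟨η', hη'⟩ : ∃ η' : Fin (A + B + 1) → (Fin d → Derivation k F F) → F,
      η' = Fin.cons (α := fun _ => (Fin d → Derivation k F F) → F) (η 0)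
        (Fin.append (fun a : Fin A => η a.succ) (fun _ : Fin B => η 0)) := ⟨_, rfl⟩
  obtain ⟨cc, hcc⟩ : ∃ cc : Fin (A + B + 1) → ∀ i, ↥(C i ⊓ fixedField G),
      cc = Fin.cons (α := fun _ => ∀ i, ↥(C i ⊓ fixedField G)) c
        (Fin.append (fun _ : Fin A => c)
          (fun b : Fin B => Function.update c (σ b) (c' (σ b)))) := ⟨_, rfl⟩
  have e0 : η' 0 = η 0 ∧ cc 0 = c := by
    rw [hη', hcc]
    exact ⟨rfl, rfl⟩
  have eA : ∀ a : Fin A, η' (Fin.castAdd B a).succ = η a.succ ∧ cc (Fin.castAdd B a).succ = c := by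
    intro a
    rw [hη', hcc, Fin.cons_succ, Fin.cons_succ, Fin.append_left, Fin.append_left]
    exact ⟨rfl, rfl⟩
  have eB : ∀ b : Fin B, η' (Fin.natAdd A b).succ = η 0 ∧
      cc (Fin.natAdd A b).succ = Function.update c (σ b) (c' (σ b)) := by
    intro b
    rw [hη', hcc, Fin.cons_succ, Fin.cons_succ, Fin.append_right, Fin.append_right]
    exact ⟨rfl, rfl⟩
  have hall : ∀ P : ((Fin d → Derivation k F F) → F) → (∀ i, ↥(C i ⊓ fixedField G)) → Prop,
      (∀ a, P (η a) c) → (∀ b, P (η 0) (Function.update c (σ b) (c' (σ b)))) →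
      ∀ l, P (η' l) (cc l) := by
    intro P h1 h2 l
    refine Fin.cases ?_ (fun l => ?_) l
    · rw [e0.1, e0.2]; exact h1 0
    · refine Fin.addCases (fun a => ?_) (fun b => ?_) l
      · rw [(eA a).1, (eA a).2]; exact h1 _
      · rw [(eB b).1, (eB b).2]; exact h2 b
  have hupd : ∀ (P : ∀ i, ↥(C i ⊓ fixedField G) → Prop) (b : Fin B), (∀ i, P i (c i)) →
      (∀ i, P i (c' i)) → ∀ i, P i (Function.update c (σ b) (c' (σ b)) i) := by
    intro P b h1 h2 i
    by_cases hi : i = σ b
    · subst hi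
      rw [Function.update_self]
      exact h2 _
    · rw [Function.update_of_ne hi]
      exact h1 i
  refine kod_of_forms' F C G hstF hstC hfF hsup hn hd hessF hessL δ hδ hbr hage D0 hD0' hm1 hm2
    η' (hall (fun a _ => PairSec k F d (fun _ => 0) {1} m1 0 a) (fun a => hη a) fun b => hη 0)
    cc (hall (fun _ c => ∀ i, c i ≠ 0) (fun _ => hcne) fun b => hupd (fun i z => z ≠ 0) b hcne hcne')
    (hall (fun _ c => ∀ i, GoodX (fun _ => False) (fun q => 1 - δ i q) m2 (D0 i) (c i))
      (fun _ => hgc) fun b => hupd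
        (fun i z => GoodX (fun _ => False) (fun q => 1 - δ i q) m2 (D0 i) z) b hgc hgc')
    y hy E hE (hall (fun a _ => a E ≠ 0) (fun a => hE0 a) fun b => hE0 0) ?_
  -- independence
  have halg : Algebra.IsAlgebraic ↥(F ⊔ ⨆ i, C i) L := by
    rw [hsup]
    exact ⟨fun z => isAlgebraic_algebraMap (⟨z, trivial⟩ : (⊤ : IntermediateField k L))⟩
  have hx : ∀ i, ∃ x : C i, Transcendental k x ∧ (canDeg k (C i) ≠ 0 →
      (x : L) = ((c' i / c i : ↥(C i ⊓ fixedField G)) : L)) := by
    intro i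
    by_cases hi : canDeg k (C i) ≠ 0
    · exact ⟨⟨((c' i / c i : ↥(C i ⊓ fixedField G)) : L), (c' i / c i).2.1⟩,
        Pool.Agent.W303.PG.trans_sub (C i) (c' i / c i).2.1 (transcendental_map' (htr i hi)),
        fun _ => rfl⟩
    · obtain ⟨x, hx⟩ := IsFF.exists_transcendental (k := k) (K := C i)
      exact ⟨x, hx, fun h => absurd h hi⟩
  choose x hx hxc using hx
  have h1 := Pool.Agent.W672.PG.indep_mix F C halg hn hd
    (fun l : Fin A => η l.succ E / η 0 E) hEi x hx
  have h2 := h1.comp (Sum.map id σ) (Function.Injective.sumMap Function.injective_id hσinj)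
  have h3 := indep_pow h2 (Sum.elim (fun _ => m2) (fun _ => m1))
    (by rintro (i | i) <;> simp [hm1, hm2])
  have h4 := h3.comp finSumFinEquiv.symm finSumFinEquiv.symm.injective
  have hccL : (∏ i, ((c i : ↥(C i ⊓ fixedField G)) : L) ^ m1) ≠ 0 :=
    Finset.prod_ne_zero_iff.2 fun i _ => pow_ne_zero _ fun h => hcne i (Subtype.ext h)
  have h5 := pow_ne_zero m2 (hneL 0)
  convert h4 using 1
  funext l
  rw [e0.1, e0.2]
  refine Fin.addCases (fun a => ?_) (fun b => ?_) l
  · rw [(eA a).1, (eA a).2]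
    simp only [Function.comp_apply, finSumFinEquiv_symm_apply_castAdd, Sum.elim_inl, Sum.map_inl,
      id_eq]
    rw [mul_div_mul_right _ _ hccL, ← div_pow]
    rfl
  · rw [(eB b).1, (eB b).2]
    simp only [Function.comp_apply, finSumFinEquiv_symm_apply_natAdd, Sum.elim_inr, Sum.map_inr]
    rw [mul_div_mul_left _ _ h5, hxc (σ b) (hσ b)]
    have h6 : ∏ i, ((Function.update c (σ b) (c' (σ b)) i : ↥(C i ⊓ fixedField G)) : L) ^ m1 =
        ((c' (σ b) : ↥(C (σ b) ⊓ fixedField G)) : L) ^ m1 *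
          ∏ i ∈ Finset.univ.erase (σ b), ((c i : ↥(C i ⊓ fixedField G)) : L) ^ m1 := by
      rw [← Finset.mul_prod_erase Finset.univ _ (Finset.mem_univ (σ b)), Function.update_self]
      congr 1
      refine Finset.prod_congr rfl fun i hi => ?_
      rw [Function.update_of_ne (Finset.ne_of_mem_erase hi)]
    have h7 : ∏ i, ((c i : ↥(C i ⊓ fixedField G)) : L) ^ m1 =
        ((c (σ b) : ↥(C (σ b) ⊓ fixedField G)) : L) ^ m1 *
          ∏ i ∈ Finset.univ.erase (σ b), ((c i : ↥(C i ⊓ fixedField G)) : L) ^ m1 :=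
      (Finset.mul_prod_erase Finset.univ _ (Finset.mem_univ (σ b))).symm
    have h8 : (∏ i ∈ Finset.univ.erase (σ b), ((c i : ↥(C i ⊓ fixedField G)) : L) ^ m1) ≠ 0 :=
      Finset.prod_ne_zero_iff.2 fun i _ => pow_ne_zero _ fun h => hcne i (Subtype.ext h)
    rw [h6, h7, mul_div_mul_right _ _ h8, ← div_pow]
    push_cast
    rfl

end

end Pool.Agent.K4H25.GW

end

section

/-!
The step: `κ = ν` for the quotient of `F × C 1 × ... × C q` by a finite group which satisfies the
weighted criterion.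
-/

set_option autoImplicit false
set_option linter.overlappingInstances false
set_option linter.unusedSectionVars false
set_option linter.unusedVariables false
set_option linter.unusedSimpArgs false
set_option maxHeartbeats 4000000
set_option synthInstance.maxHeartbeats 400000

open Polynomial FF IntermediateField Pool.Agent.W619.PQ Pool.Agent.W619.PL Pool.Agent.W619.TW
  Pool.Agent.W619.X Pool.Agent.W619.Y Pool.Agent.W603.LV Pool.Agent.Y174 Pool.Agent.R885.N
  Pool.Agent.K4H25.GQ

namespace Pool.Agent.K4H25.GW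

section

variable {k : Type} [Field k] [CharZero k] [IsAlgClosed k] {L : Type} [Field L] [Algebra k L]

/-- **The step.** -/
theorem stepW {q : ℕ} (F : IntermediateField k L) (C : Fin q → IntermediateField k L)
    [hC : ∀ i, IsFF k (C i)] (G : Subgroup (L ≃ₐ[k] L))
    [Finite G] (hstF : ∀ g ∈ G, ∀ z ∈ F, g z ∈ F) (hstC : ∀ i, ∀ g ∈ G, ∀ z ∈ C i, g z ∈ C i)
    (hfF : ∀ g ∈ G, (∀ i, ∀ z ∈ C i, g z = z) → g = 1)
    {d : ℕ} (hsup : F ⊔ ⨆ i, C i = ⊤) (hn : Algebra.trdeg k L = (d + q : ℕ))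
    (hd : Algebra.trdeg k F = d)
    (hessF : Algebra.EssFiniteType k F) (hessL : Algebra.EssFiniteType k L)
    (δ : ∀ i, Place k ↥(C i ⊓ fixedField G) → ℚ)
    (hδ : ∀ i p, 0 ≤ δ i p ∧ δ i p ≤ 1)
    (hbr : ∀ i (w : Place k (C i)) p (r : ℕ),
      LiesOver (inf_le_left : C i ⊓ fixedField G ≤ C i) w p r → 1 ≤ r * (1 - δ i p))
    (hage : WAge F C G δ) (hdeg : ∀ i, WDeg (C i) G (δ i))
    (h : PosB k F d (fun _ => 0) ∨ NegB k F d (fun _ => 0)) :
    PosB k (fixedField G) (d + q) (fun _ => 0) ∨ NegB k (fixedField G) (d + q) (fun _ => 0) := by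
  classical
  have halgK := Pool.Agent.W721.PG.EFF2.alg_fixed G
  have hfin := fixed_finite G
  obtain ⟨hnK, z, hz⟩ := Pool.Agent.W721.PG.EFF2.exists_basis (fixedField G) (d + q) hn
  have hessK : Algebra.EssFiniteType k (fixedField G) := Pool.Agent.Y174.ess_down hessL z hz
  have hbd : ∀ v : Place k (fixedField G), IsDivisorial v (d + q) → ∀ (w : Place k L) (e : ℕ),
      LiesOn w v e → 1 - (e : ℝ) * (1 - (fun _ : Place k (fixedField G) => (0 : ℝ)) v) ≤
        (fun _ : Place k L => (0 : ℝ)) w := by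
    intro v _ w e hw
    have h1 : (1 : ℝ) ≤ e := by exact_mod_cast hw.1
    simp only [sub_zero, mul_one]
    linarith
  obtain ⟨-, hneg, hnum⟩ := pMANY k L d q F C hd hn hsup
  rcases h with ⟨A, hA, hkod, hnumF⟩ | hnegF
  · left
    have h0 := step_kod' F C G hstF hstC hfF hsup hn hd hessF hessL δ hδ hbr hage hdeg hkod
    have h1 := hnum A (fun i => (data_one (C i) G (hstC i) (δ i) (hδ i) (hbr i) (hdeg i)).1)
      (pairNum_zero.1 hnumF)
    have h2 : {i | canDeg k (C i) ≠ 0}.ncard ≤ q := by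
      have := Set.ncard_le_ncard (Set.subset_univ {i | canDeg k (C i) ≠ 0})
      rwa [Set.ncard_univ, Nat.card_fin] at this
    exact ⟨A + {i | canDeg k (C i) ≠ 0}.ncard, by omega, h0,
      w0_num hessK hnK hbd (pairNum_zero.2 h1)⟩
  · right
    exact neg_pull hessK hnK hbd (neg_zero.2 (hneg (neg_zero.1 hnegF)))

end

end Pool.Agent.K4H25.GW

end
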