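import Pool.Agent.K4H25.MG.A
import Pool.Agent.K4H25.GQ.Ab2

section

/-!
Tools for the induction: invariants of products, automorphisms which fix the invariants, transport.
-/

set_option autoImplicit false
set_option linter.overlappingInstances false
set_option linter.unusedSectionVars false
set_option linter.unusedVariables false
set_option linter.unusedSimpArgs false

open FF IntermediateField Pool.Agent.W619.PQ Pool.Agent.W619.TW
  Pool.Agent.W603.LV Pool.Agent.Y174 Pool.Agent.R885.N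

namespace Pool.Agent.K4H25.GQ

section

variable {M : Type} [Field M] [Algebra ℂ M]

/-- invariants are quotients of invariants of a stable generating algebra -/
theorem frac_inv (G : Subgroup (M ≃ₐ[ℂ] M)) [Finite G] (S : Set M)
    (hst : ∀ g ∈ G, ∀ z ∈ S, g z ∈ S) (htop : IntermediateField.adjoin ℂ S = ⊤) {x : M}
    (hx : x ∈ fixedField G) : ∃ a b : M, a ∈ Algebra.adjoin ℂ S ∧ b ∈ Algebra.adjoin ℂ S ∧
      a ∈ fixedField G ∧ b ∈ fixedField G ∧ x = a / b := by
  classical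
  have := Fintype.ofFinite G
  have hx' : x ∈ IntermediateField.adjoin ℂ S := by
    rw [htop]
    trivial
  obtain ⟨a, ha, b, hb, hab'⟩ := IntermediateField.mem_adjoin_iff_div.1 hx'
  by_cases hb0 : b = 0
  · rw [hb0, div_zero] at hab'
    exact ⟨0, 0, zero_mem _, zero_mem _, zero_mem _, zero_mem _, by rw [hab', div_zero]⟩
  have hst' : ∀ g ∈ G, ∀ z ∈ Algebra.adjoin ℂ S, g z ∈ Algebra.adjoin ℂ S := by
    intro g hg z hz
    induction hz using Algebra.adjoin_induction with
    | mem z hz => exact Algebra.subset_adjoin (hst g hg z hz)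
    | algebraMap c => rw [AlgEquiv.commutes]; exact Subalgebra.algebraMap_mem _ _
    | add u v _ _ hu hv => rw [map_add]; exact add_mem hu hv
    | mul u v _ _ hu hv => rw [map_mul]; exact mul_mem hu hv
  let N : M := ∏ g : G, (g : M ≃ₐ[ℂ] M) b
  have hN0 : N ≠ 0 := Finset.prod_ne_zero_iff.2 fun g _ => (map_ne_zero _).2 hb0
  have hNA : N ∈ Algebra.adjoin ℂ S := prod_mem fun g _ => hst' g g.2 b hb
  have hNK : N ∈ fixedField G := by
    intro h
    change (h : M ≃ₐ[ℂ] M) (∏ g : G, (g : M ≃ₐ[ℂ] M) b) = _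
    rw [map_prod]
    exact Equiv.prod_comp (Equiv.mulLeft h) (fun g : G => (g : M ≃ₐ[ℂ] M) b)
  have hxN : x * N ∈ Algebra.adjoin ℂ S := by
    have h1 : x * N = a * ∏ g ∈ Finset.univ.erase (1 : G), (g : M ≃ₐ[ℂ] M) b := by
      change x * (∏ g : G, (g : M ≃ₐ[ℂ] M) b) = _
      rw [← Finset.mul_prod_erase Finset.univ _ (Finset.mem_univ (1 : G)), hab']
      change a / b * (b * _) = _
      rw [← mul_assoc, div_mul_cancel₀ _ hb0]
    rw [h1]
    exact mul_mem ha (prod_mem fun g _ => hst' g g.2 b hb)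
  exact ⟨x * N, N, hxN, hNA, mul_mem hx hNK, hNK, by rw [mul_div_cancel_right₀ _ hN0]⟩

/-- the invariants of a product -/
theorem two_inv (G H R : Subgroup (M ≃ₐ[ℂ] M)) [Finite G] (hHG : H ≤ G) (hRG : R ≤ G)
    (A B : IntermediateField ℂ M) (hsup : A ⊔ B = ⊤)
    (hA : ∀ g ∈ G, ∀ z ∈ A, g z ∈ A) (hB : ∀ g ∈ G, ∀ z ∈ B, g z ∈ B)
    (hH : ∀ g ∈ H, ∀ z ∈ B, g z = z) (hR : ∀ g ∈ R, ∀ z ∈ A, g z = z) :
    fixedField G ≤ (A ⊓ fixedField H) ⊔ (B ⊓ fixedField R) := by
  classical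
  intro x hx
  have htop : IntermediateField.adjoin ℂ ((A : Set M) ∪ B) = ⊤ := by
    rw [eq_top_iff, ← hsup]
    exact sup_le (fun z hz => IntermediateField.subset_adjoin _ _ (Or.inl hz))
      (fun z hz => IntermediateField.subset_adjoin _ _ (Or.inr hz))
  obtain ⟨a, b, ha, hb, haK, hbK, rfl⟩ := frac_inv G ((A : Set M) ∪ B) (by
    rintro g hg z (hz | hz)
    · exact Or.inl (hA g hg z hz)
    · exact Or.inr (hB g hg z hz)) htop hx
  have hfH : Finite H := Finite.of_injective (Subgroup.inclusion hHG)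
    (Subgroup.inclusion_injective hHG)
  have hfR : Finite R := Finite.of_injective (Subgroup.inclusion hRG)
    (Subgroup.inclusion_injective hRG)
  have iH := Fintype.ofFinite H
  have iR := Fintype.ofFinite R
  have hspan : ∀ y ∈ Algebra.adjoin ℂ ((A : Set M) ∪ B),
      y ∈ Submodule.span ℂ {z : M | ∃ u ∈ A, ∃ v ∈ B, z = u * v} := by
    intro y hy
    induction hy using Algebra.adjoin_induction with
    | mem x hx =>
      rcases hx with hx | hx
      · exact Submodule.subset_span ⟨x, hx, 1, one_mem _, by rw [mul_one]⟩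
      · exact Submodule.subset_span ⟨1, one_mem _, x, hx, by rw [one_mul]⟩
    | algebraMap c =>
      exact Submodule.subset_span ⟨algebraMap ℂ M c, A.algebraMap_mem c, 1, one_mem _,
        by rw [mul_one]⟩
    | add x y _ _ hx hy => exact Submodule.add_mem _ hx hy
    | mul x y _ _ hx hy =>
      have h1 := Submodule.mul_mem_mul hx hy
      rw [Submodule.span_mul_span] at h1
      refine Submodule.span_mono ?_ h1
      rintro _ ⟨_, ⟨u, hu, v, hv, rfl⟩, _, ⟨u', hu', v', hv', rfl⟩, rfl⟩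
      exact ⟨u * u', mul_mem hu hu', v * v', mul_mem hv hv', by beta_reduce; ring⟩
  have havg : ∀ y ∈ Submodule.span ℂ {z : M | ∃ u ∈ A, ∃ v ∈ B, z = u * v},
      avg R (avg H y) ∈ (A ⊓ fixedField H) ⊔ (B ⊓ fixedField R) := by
    intro y hy
    induction hy using Submodule.span_induction with
    | mem y hy =>
      obtain ⟨u, hu, v, hv, rfl⟩ := hy
      have h1 : avg H (u * v) = avg H u * v := by
        unfold avg
        rw [mul_assoc, Finset.sum_mul]
        congr 1
        refine Finset.sum_congr rfl fun g _ => ?_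
        rw [map_mul, hH g g.2 v hv]
      have huA : avg H u ∈ A :=
        mul_mem (A.algebraMap_mem _) (sum_mem fun g _ => hA g (hHG g.2) u hu)
      have h2' : ∀ w ∈ A, avg R (w * v) = w * avg R v := by
        intro w hw
        unfold avg
        rw [mul_left_comm, Finset.mul_sum (Finset.univ : Finset R) _ w]
        congr 1
        refine Finset.sum_congr rfl fun g _ => ?_
        rw [map_mul, hR g g.2 w hw]
      have h2 : avg R (avg H u * v) = avg H u * avg R v := h2' _ huA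
      have hvB : avg R v ∈ B :=
        mul_mem (B.algebraMap_mem _) (sum_mem fun g _ => hB g (hRG g.2) v hv)
      rw [h1, h2]
      exact mul_mem ((le_sup_left : A ⊓ fixedField H ≤ _) ⟨huA, avg_mem u⟩)
        ((le_sup_right : B ⊓ fixedField R ≤ _) ⟨hvB, avg_mem v⟩)
    | zero => rw [avg_zero, avg_zero]; exact zero_mem _
    | add a b _ _ ha hb => rw [avg_add, avg_add]; exact add_mem ha hb
    | smul c a _ ha =>
      rw [avg_smul, avg_smul, Algebra.smul_def]
      exact mul_mem (IntermediateField.algebraMap_mem _ _) ha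
  have hfix : ∀ y ∈ fixedField G, avg R (avg H y) = y := by
    intro y hy
    rw [avg_fixed (G := H) (z := y) (fun g => hy ⟨g, hHG g.2⟩),
      avg_fixed (G := R) (z := y) (fun g => hy ⟨g, hRG g.2⟩)]
  have h1 := havg a (hspan a ha)
  have h2 := havg b (hspan b hb)
  rw [hfix a haK] at h1
  rw [hfix b hbK] at h2
  exact div_mem h1 h2

end

section

variable {k M : Type} [Field k] [Field M] [Algebra k M]

/-- An automorphism which fixes the invariants of a finite group on a stable subfield is equal to an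
element of the group on the subfield. -/
theorem gal (S : Subgroup (M ≃ₐ[k] M)) [Finite S] (E : IntermediateField k M)
    (hst : ∀ g ∈ S, ∀ z ∈ E, g z ∈ E) (g : M ≃ₐ[k] M) (hg : ∀ z ∈ E, g z ∈ E)
    (hfix : ∀ z ∈ E ⊓ fixedField S, g z = z) : ∃ s ∈ S, ∀ z ∈ E, g z = s z := by
  classical
  let S' : Subgroup (E ≃ₐ[k] E) := (rho S E hst).range
  have hfin : Finite S' := Finite.of_surjective _ (MonoidHom.rangeRestrict_surjective _)
  let P := FixedPoints.subfield S' E
  have hP : ∀ z : P, g ((z : E) : M) = ((z : E) : M) := by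
    intro z
    refine hfix _ ⟨(z : E).2, fun s => ?_⟩
    have h1 := z.2 ⟨rho S E hst s, ⟨s, rfl⟩⟩
    exact congrArg (Subtype.val : E → M) h1
  let φ : E →ₐ[P] E :=
    { toFun := fun z => ⟨g z, hg z z.2⟩
      map_one' := Subtype.ext (map_one g)
      map_mul' := fun a b => Subtype.ext (map_mul g _ _)
      map_zero' := Subtype.ext (map_zero g)
      map_add' := fun a b => Subtype.ext (map_add g _ _)
      commutes' := fun z => Subtype.ext (hP z) }
  obtain ⟨⟨_, s, rfl⟩, hs⟩ := (FixedPoints.toAlgHom_bijective S' E).2 φ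
  refine ⟨s, s.2, fun z hz => ?_⟩
  have h1 := congrArg (fun f : E →ₐ[P] E => ((f ⟨z, hz⟩ : E) : M)) hs
  exact h1.symm

end

end Pool.Agent.K4H25.GQ

end

section

/-!
Tools for the induction: transport along isomorphisms, the case of dimension zero.
-/

set_option autoImplicit false
set_option linter.overlappingInstances false
set_option linter.unusedSectionVars false
set_option linter.unusedVariables false
set_option linter.unusedSimpArgs false

open FF IntermediateField Pool.Agent.W619.PQ Pool.Agent.W619.TW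
  Pool.Agent.W603.LV Pool.Agent.Y174 Pool.Agent.R885.N

namespace Pool.Agent.K4H25.GQ

section

variable {k : Type} [Field k]

theorem rat_iff {M : Type} [Field M] [Algebra k M] (Q : IntermediateField k M) :
    (∃ τ : M, k⟮τ⟯ = Q) ↔ ∃ t : Q, k⟮t⟯ = ⊤ := by
  constructor
  · rintro ⟨τ, hτ⟩
    have hmem : τ ∈ Q := by
      rw [← hτ]
      exact mem_adjoin_simple_self k τ
    refine ⟨⟨τ, hmem⟩, ?_⟩
    apply lift_injective Q
    rw [lift_adjoin_simple, lift_top, hτ]
  · rintro ⟨t, ht⟩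
    refine ⟨(t : M), ?_⟩
    rw [← lift_adjoin_simple, ht, lift_top]

theorem rat_iso {A B : Type} [Field A] [Field B] [Algebra k A] [Algebra k B] (φ : A ≃ₐ[k] B)
    (h : ∃ t : A, k⟮t⟯ = ⊤) : ∃ t : B, k⟮t⟯ = ⊤ := by
  obtain ⟨t, ht⟩ := h
  refine ⟨φ t, ?_⟩
  have h1 : (k⟮t⟯).map (φ : A →ₐ[k] B) = k⟮φ t⟯ := by
    rw [adjoin_map, Set.image_singleton]
    rfl
  rw [← h1, ht, ← AlgHom.fieldRange_eq_map, AlgHom.fieldRange_eq_top]
  exact φ.surjective

theorem isFF_iso {A B : Type} [Field A] [Field B] [Algebra k A] [Algebra k B] (φ : A ≃ₐ[k] B)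
    (h : IsFF k B) : IsFF k A where
  ess := (Algebra.EssFiniteType.iff_of_algEquiv φ).2 h.ess
  trdeg := by rw [← h.trdeg, φ.trdeg_eq]

section

variable [CharZero k] {K K' : Type} [Field K] [Field K'] [Algebra k K] [Algebra k K']

/-- Transport along an isomorphism. -/
theorem good_iso (φ : K ≃ₐ[k] K') (hess : Algebra.EssFiniteType k K) {n : ℕ}
    (hn : Algebra.trdeg k K = n) (h : PosB k K' n (fun _ => 0) ∨ NegB k K' n (fun _ => 0)) :
    PosB k K n (fun _ => 0) ∨ NegB k K n (fun _ => 0) := by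
  classical
  let _ : Algebra K K' := (φ : K →+* K').toAlgebra
  have ht : IsScalarTower k K K' := IsScalarTower.of_algebraMap_eq fun c => (φ.commutes c).symm
  have hsurj : Function.Surjective (algebraMap K K') := φ.surjective
  have hfin : FiniteDimensional K K' :=
    Module.Finite.of_surjective (Algebra.linearMap K K') hsurj
  have he : ∀ (w : Place k K') (v : Place k K) (e : ℕ), LiesOn w v e → e = 1 := by
    intro w v e hw
    obtain ⟨t, ht0, ht⟩ := w.surj
    obtain ⟨s, rfl⟩ := hsurj t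
    rw [hw.2] at ht
    have h1 := Int.isUnit_iff.1 (IsUnit.of_mul_eq_one _ ht)
    rcases h1 with h1 | h1
    · exact_mod_cast h1
    · have := hw.1
      omega
  have hb : ∀ v : Place k K, IsDivisorial v n → ∀ (w : Place k K') (e : ℕ), LiesOn w v e →
      1 - (e : ℝ) * (1 - (fun _ : Place k K => (0 : ℝ)) v) = (fun _ : Place k K' => (0 : ℝ)) w := by
    intro v _ w e hw
    rw [he w v e hw]
    norm_num
  rcases h with ⟨A, hA, h1, h2⟩ | h1
  · left
    refine ⟨A, hA, ?_, ?_⟩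
    · exact fin_down hess hn (fun v hv w e hw => (hb v hv w e hw).ge) h1
    · exact w0_num hess hn (fun v hv w e hw => (hb v hv w e hw).le) h2
  · right
    exact neg_pull hess hn (fun v hv w e hw => (hb v hv w e hw).le) h1

/-- Dimension zero. -/
theorem good_zero [IsAlgClosed k] (hn : Algebra.trdeg k K = 0) : PosB k K 0 (fun _ => 0) := by
  classical
  have halg : Algebra.IsAlgebraic k K := _root_.trdeg_eq_zero_iff.1 hn
  refine ⟨0, le_rfl, ⟨1, le_rfl, fun _ _ => 1, fun _ => ⟨?_, ?_⟩, fun i => i.elim0,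
    fun _ => one_ne_zero, ?_⟩, ?_⟩
  · intro A D
    rw [Matrix.det_isEmpty, one_pow, one_mul]
  · intro v hv D hD
    right
    refine ⟨1, Finset.mem_singleton_self _, one_ne_zero, ?_⟩
    rw [v.ord_one]
    norm_num
  · rw [algebraicIndependent_empty_type_iff]
    exact (algebraMap k K).injective
  · intro S
    refine ⟨1, fun m N hm hI => ?_⟩
    obtain ⟨ω, hω, -⟩ := hI
    have hbij : Function.Bijective (algebraMap k K) :=
      IsAlgClosed.algebraMap_bijective_of_isIntegral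
    have hfin : FiniteDimensional k K :=
      Module.Finite.of_surjective (Algebra.linearMap k K) hbij.2
    have hrank : Module.finrank k K = 1 := by
      rw [← Module.finrank_self k]
      exact (LinearEquiv.finrank_eq (LinearEquiv.ofBijective (Algebra.linearMap k K) hbij)).symm
    let ev : ((Fin 0 → Derivation k K K) → K) →ₗ[k] K :=
      LinearMap.proj (fun i : Fin 0 => i.elim0)
    have hev : LinearMap.ker ev = ⊥ := by
      rw [LinearMap.ker_eq_bot']
      intro f hf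
      funext D
      have h1 : D = fun i : Fin 0 => i.elim0 := Subsingleton.elim _ _
      rw [h1]
      exact hf
    have h1 := (hω.map' ev hev).fintype_card_le_finrank
    rw [Fintype.card_fin, hrank] at h1
    simpa using h1

end

section

variable [CharZero k] [IsAlgClosed k]
  {E0 E : Type} [Field E0] [Field E] [Algebra k E0] [Algebra k E] [Algebra E0 E]
  [IsScalarTower k E0 E] [IsFF k E0] [IsFF k E] [FiniteDimensional E0 E]

theorem irr_up (h : ¬ ∃ t : E0, k⟮t⟯ = ⊤) : ¬ ∃ t : E, k⟮t⟯ = ⊤ := by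
  rintro ⟨t, ht⟩
  have h1 := canDeg_up (E0 := E0) (E := E) h
  rw [canDeg_rational ht] at h1
  norm_num at h1

end

end

end Pool.Agent.K4H25.GQ

end

section

/-!
The inductive step: a product `A × C` and a finite group preserving the factors.
-/

set_option autoImplicit false
set_option linter.overlappingInstances false
set_option linter.unusedSectionVars false
set_option linter.unusedVariables false
set_option linter.unusedSimpArgs false
set_option maxHeartbeats 4000000
set_option synthInstance.maxHeartbeats 400000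

open FF IntermediateField Pool.Agent.W619.PQ Pool.Agent.W619.PL Pool.Agent.W619.TW
  Pool.Agent.W603.LV Pool.Agent.Y174 Pool.Agent.R885.N

namespace Pool.Agent.K4H25.GQ

section

variable {k M : Type} [Field k] [Field M] [Algebra k M]

theorem mem_fixer {E : IntermediateField k M} {g : M ≃ₐ[k] M} :
    g ∈ E.fixingSubgroup ↔ ∀ z ∈ E, g z = z := by
  constructor
  · intro h z hz
    exact h ⟨z, hz⟩
  · rintro h ⟨z, hz⟩
    exact h z hz

/-- the invariants of the kernel are stable -/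
theorem conj_fix {G : Subgroup (M ≃ₐ[k] M)} {E : IntermediateField k M}
    (hst : ∀ g ∈ G, ∀ z ∈ E, g z ∈ E) {g : M ≃ₐ[k] M} (hg : g ∈ G) {z : M}
    (hz : z ∈ fixedField (G ⊓ E.fixingSubgroup)) :
    g z ∈ fixedField (G ⊓ E.fixingSubgroup) := by
  rw [mem_fixedField_iff] at hz ⊢
  rintro h ⟨hh, hh'⟩
  have h1 : g⁻¹ * h * g ∈ G ⊓ E.fixingSubgroup := by
    refine ⟨G.mul_mem (G.mul_mem (G.inv_mem hg) hh) hg, mem_fixer.2 fun c hc => ?_⟩
    change g⁻¹ (h (g c)) = c
    rw [mem_fixer.1 hh' _ (hst g hg c hc)]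
    change (g⁻¹ * g) c = c
    rw [inv_mul_cancel]
    rfl
  have h2 := hz _ h1
  change g⁻¹ (h (g z)) = z at h2
  have h3 : g (g⁻¹ (h (g z))) = g z := congrArg g h2
  change (g * g⁻¹) (h (g z)) = g z at h3
  rw [mul_inv_cancel] at h3
  exact h3

/-- the sup of stable subfields is stable -/
theorem sup_stable {E E' : IntermediateField k M} {g : M ≃ₐ[k] M} (h : ∀ z ∈ E, g z ∈ E)
    (h' : ∀ z ∈ E', g z ∈ E') : ∀ z ∈ E ⊔ E', g z ∈ E ⊔ E' := by
  have h1 : E ⊔ E' ≤ (E ⊔ E').comap (g : M →ₐ[k] M) :=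
    sup_le (fun z hz => (le_sup_left : E ≤ E ⊔ E') (h z hz))
      (fun z hz => (le_sup_right : E' ≤ E ⊔ E') (h' z hz))
  exact fun z hz => h1 hz

theorem iSup_stable {ι : Type*} {E : ι → IntermediateField k M} {g : M ≃ₐ[k] M}
    (h : ∀ i, ∀ z ∈ E i, g z ∈ E i) : ∀ z ∈ ⨆ i, E i, g z ∈ ⨆ i, E i := by
  have h1 : (⨆ i, E i) ≤ (⨆ i, E i).comap (g : M →ₐ[k] M) :=
    iSup_le fun i z hz => (le_iSup E i) (h i z hz)
  exact fun z hz => h1 hz

/-- the fixed field of the image of the group in the automorphisms of a stable subfield -/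
theorem lift_fixed (G : Subgroup (M ≃ₐ[k] M)) (E : IntermediateField k M)
    (hst : ∀ g ∈ G, ∀ z ∈ E, g z ∈ E) :
    lift (fixedField (rho G E hst).range) = E ⊓ fixedField G := by
  ext x
  constructor
  · rintro ⟨y, hy, rfl⟩
    refine ⟨y.2, fun g => ?_⟩
    have h1 := hy ⟨rho G E hst g, ⟨g, rfl⟩⟩
    exact congrArg (Subtype.val : E → M) h1
  · rintro ⟨hx, hx'⟩
    refine ⟨⟨x, hx⟩, ?_, rfl⟩
    rintro ⟨_, g, rfl⟩
    exact Subtype.ext (hx' g)

end

section

variable {k M : Type} [Field k] [CharZero k] [Field M] [Algebra k M]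

theorem trdeg_inf {n : ℕ} (G : Subgroup (M ≃ₐ[k] M)) [Finite G] (E : IntermediateField k M)
    (hst : ∀ g ∈ G, ∀ z ∈ E, g z ∈ E) (hE : Algebra.trdeg k E = n)
    (hess : Algebra.EssFiniteType k E) :
    Algebra.trdeg k ↥(E ⊓ fixedField G) = n ∧ Algebra.EssFiniteType k ↥(E ⊓ fixedField G) := by
  let _ : Algebra ↥(E ⊓ fixedField G) E :=
    (inclusion (inf_le_left : E ⊓ fixedField G ≤ E)).toRingHom.toAlgebra
  have t1 : IsScalarTower k ↥(E ⊓ fixedField G) E := IsScalarTower.of_algebraMap_eq fun c => rfl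
  have f1 : FiniteDimensional ↥(E ⊓ fixedField G) E := inf_finite G E hst fun z => rfl
  refine ⟨?_, Pool.Agent.TH466.QG.ess_below (K := E)⟩
  rw [← hE, ← trdeg_add_eq k ↥(E ⊓ fixedField G) (A := E),
    trdeg_eq_zero (R := ↥(E ⊓ fixedField G)) (A := E), add_zero]

theorem isFF_inf (G : Subgroup (M ≃ₐ[k] M)) [Finite G] (E : IntermediateField k M) [IsFF k E]
    (hst : ∀ g ∈ G, ∀ z ∈ E, g z ∈ E) : IsFF k ↥(E ⊓ fixedField G) := by
  obtain ⟨h1, h2⟩ := trdeg_inf (n := 1) G E hst (by exact_mod_cast IsFF.trdeg (k := k) (K := E))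
    (IsFF.ess (k := k) (K := E))
  exact ⟨h2, by exact_mod_cast h1⟩

end

section

variable {M : Type} [Field M] [Algebra ℂ M]

/-- **The inductive step.** -/
theorem glue {n : ℕ} (hn : Algebra.trdeg ℂ M = (n + 1 : ℕ)) (A C : IntermediateField ℂ M)
    (hA : Algebra.trdeg ℂ A = n) (hessA : Algebra.EssFiniteType ℂ A) [hC : IsFF ℂ C]
    (hsup : A ⊔ C = ⊤) (G : Subgroup (M ≃ₐ[ℂ] M)) [Finite G]
    (hstA : ∀ g ∈ G, ∀ z ∈ A, g z ∈ A) (hstC : ∀ g ∈ G, ∀ z ∈ C, g z ∈ C)
    (hirr : ¬ ∃ t : ↥(C ⊓ fixedField G), ℂ⟮t⟯ = ⊤)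
    (h : PosB ℂ ↥(A ⊓ fixedField (G ⊓ C.fixingSubgroup)) n (fun _ => 0) ∨
      NegB ℂ ↥(A ⊓ fixedField (G ⊓ C.fixingSubgroup)) n (fun _ => 0)) :
    PosB ℂ (fixedField G) (n + 1) (fun _ => 0) ∨ NegB ℂ (fixedField G) (n + 1) (fun _ => 0) := by
  classical
  obtain ⟨H, hH⟩ : ∃ H, H = G ⊓ C.fixingSubgroup := ⟨_, rfl⟩
  obtain ⟨R, hR⟩ : ∃ R, R = G ⊓ A.fixingSubgroup := ⟨_, rfl⟩
  rw [← hH] at h
  have hHG : H ≤ G := by rw [hH]; exact inf_le_left
  have hRG : R ≤ G := by rw [hR]; exact inf_le_left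
  have hfH : Finite H := Finite.of_injective (Subgroup.inclusion hHG)
    (Subgroup.inclusion_injective hHG)
  have hfR : Finite R := Finite.of_injective (Subgroup.inclusion hRG)
    (Subgroup.inclusion_injective hRG)
  have hHC : ∀ g ∈ H, ∀ z ∈ C, g z = z := by
    intro g hg
    rw [hH] at hg
    exact mem_fixer.1 hg.2
  have hRA : ∀ g ∈ R, ∀ z ∈ A, g z = z := by
    intro g hg
    rw [hR] at hg
    exact mem_fixer.1 hg.2
  obtain ⟨F, hF⟩ : ∃ F, F = A ⊓ fixedField H := ⟨_, rfl⟩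
  obtain ⟨Cq, hCq⟩ : ∃ Cq, Cq = C ⊓ fixedField R := ⟨_, rfl⟩
  obtain ⟨L, hL⟩ : ∃ L, L = F ⊔ Cq := ⟨_, rfl⟩
  rw [← hF] at h
  have hFL : F ≤ L := by rw [hL]; exact le_sup_left
  have hCL : Cq ≤ L := by rw [hL]; exact le_sup_right
  have hKL : fixedField G ≤ L := by
    rw [hL, hF, hCq]
    exact two_inv G H R hHG hRG A C hsup hstA hstC hHC hRA
  -- stability
  have hstF : ∀ g ∈ G, ∀ z ∈ F, g z ∈ F := by
    intro g hg z hz
    rw [hF] at hz ⊢
    refine ⟨hstA g hg z hz.1, ?_⟩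
    have h1 := hz.2
    rw [hH] at h1 ⊢
    exact conj_fix hstC hg h1
  have hstCq : ∀ g ∈ G, ∀ z ∈ Cq, g z ∈ Cq := by
    intro g hg z hz
    rw [hCq] at hz ⊢
    refine ⟨hstC g hg z hz.1, ?_⟩
    have h1 := hz.2
    rw [hR] at h1 ⊢
    exact conj_fix hstA hg h1
  have hstL : ∀ g ∈ G, ∀ z ∈ L, g z ∈ L := by
    intro g hg
    rw [hL]
    exact sup_stable (hstF g hg) (hstCq g hg)
  -- numerical data
  obtain ⟨htF, hessF⟩ := trdeg_inf H A (fun g hg => hstA g (hHG hg)) hA hessA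
  rw [← hF] at htF hessF
  have hFFq : IsFF ℂ Cq := by
    rw [hCq]
    exact isFF_inf R C (fun g hg => hstC g (hRG hg))
  have hessL : Algebra.EssFiniteType ℂ L := by
    rw [hL]
    exact essFiniteType_iff.2 (fg_sup (essFiniteType_iff.1 hessF)
      (essFiniteType_iff.1 (IsFF.ess)))
  have halgL : Algebra.IsAlgebraic L M := by
    have h1 := Pool.Agent.W721.PG.EFF2.alg_fixed G
    let _ : Algebra (fixedField G) L := (inclusion hKL).toRingHom.toAlgebra
    have t1 : IsScalarTower (fixedField G) L M := IsScalarTower.of_algebraMap_eq fun c => rfl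
    exact Algebra.IsAlgebraic.tower_top (K := fixedField G) L
  obtain ⟨htL, -⟩ := Pool.Agent.W721.PG.EFF2.exists_basis L (n + 1) hn
  -- the group
  let Γ : Subgroup (L ≃ₐ[ℂ] L) := (rho G L hstL).range
  have hfΓ : Finite Γ := Finite.of_surjective _ (MonoidHom.rangeRestrict_surjective _)
  let F1 : IntermediateField ℂ L := restrict hFL
  let C1 : IntermediateField ℂ L := restrict hCL
  have hfF : ∀ g ∈ Γ, (∀ z ∈ F1, g z = z) → g = 1 := by
    rintro _ ⟨g, rfl⟩ hg
    have hg' : ∀ z ∈ F, (g : M ≃ₐ[ℂ] M) z = z := by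
      intro z hz
      exact congrArg (Subtype.val : L → M) (hg ⟨z, hFL hz⟩ ((mem_restrict hFL _).2 hz))
    obtain ⟨s, hs, hs'⟩ := gal H A (fun g hg => hstA g (hHG hg)) g (hstA g g.2)
      (by rw [← hF]; exact hg')
    have h1 : s⁻¹ * g ∈ R := by
      rw [hR]
      refine ⟨G.mul_mem (G.inv_mem (hHG hs)) g.2, mem_fixer.2 fun z hz => ?_⟩
      change s⁻¹ ((g : M ≃ₐ[ℂ] M) z) = z
      rw [hs' z hz]
      change (s⁻¹ * s) z = z
      rw [inv_mul_cancel]
      rfl
    have h2 : (g : M ≃ₐ[ℂ] M) ∈ L.fixingSubgroup := by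
      rw [hL, fixingSubgroup_sup]
      refine ⟨mem_fixer.2 hg', mem_fixer.2 fun z hz => ?_⟩
      rw [hCq] at hz
      have h3 : (g : M ≃ₐ[ℂ] M) = s * (s⁻¹ * g) := by rw [mul_inv_cancel_left]
      rw [h3]
      change s ((s⁻¹ * (g : M ≃ₐ[ℂ] M)) z) = z
      have h4 : (s⁻¹ * (g : M ≃ₐ[ℂ] M)) z = z := hz.2 ⟨_, h1⟩
      rw [h4]
      exact hHC s hs z hz.1
    apply AlgEquiv.ext
    intro z
    exact Subtype.ext (mem_fixer.1 h2 z z.2)
  have hfC : ∀ g ∈ Γ, (∀ z ∈ C1, g z = z) → g = 1 := by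
    rintro _ ⟨g, rfl⟩ hg
    have hg' : ∀ z ∈ Cq, (g : M ≃ₐ[ℂ] M) z = z := by
      intro z hz
      exact congrArg (Subtype.val : L → M) (hg ⟨z, hCL hz⟩ ((mem_restrict hCL _).2 hz))
    obtain ⟨s, hs, hs'⟩ := gal R C (fun g hg => hstC g (hRG hg)) g (hstC g g.2)
      (by rw [← hCq]; exact hg')
    have h1 : s⁻¹ * g ∈ H := by
      rw [hH]
      refine ⟨G.mul_mem (G.inv_mem (hRG hs)) g.2, mem_fixer.2 fun z hz => ?_⟩
      change s⁻¹ ((g : M ≃ₐ[ℂ] M) z) = z
      rw [hs' z hz]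
      change (s⁻¹ * s) z = z
      rw [inv_mul_cancel]
      rfl
    have h2 : (g : M ≃ₐ[ℂ] M) ∈ L.fixingSubgroup := by
      rw [hL, fixingSubgroup_sup]
      refine ⟨mem_fixer.2 fun z hz => ?_, mem_fixer.2 hg'⟩
      rw [hF] at hz
      have h3 : (g : M ≃ₐ[ℂ] M) = s * (s⁻¹ * g) := by rw [mul_inv_cancel_left]
      rw [h3]
      change s ((s⁻¹ * (g : M ≃ₐ[ℂ] M)) z) = z
      have h4 : (s⁻¹ * (g : M ≃ₐ[ℂ] M)) z = z := hz.2 ⟨_, h1⟩
      rw [h4]
      exact hRA s hs z hz.1
    apply AlgEquiv.ext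
    intro z
    exact Subtype.ext (mem_fixer.1 h2 z z.2)
  have hsup1 : F1 ⊔ C1 = ⊤ := by
    apply lift_injective L
    rw [lift_sup, lift_top, lift_restrict, lift_restrict, hL]
  have hFF1 : IsFF ℂ C1 := isFF_iso (restrictAlgEquiv hCL).symm hFFq
  have hessF1 : Algebra.EssFiniteType ℂ F1 :=
    (Algebra.EssFiniteType.iff_of_algEquiv (restrictAlgEquiv hFL)).1 hessF
  have htF1 : Algebra.trdeg ℂ F1 = n := by
    rw [← htF]
    exact ((restrictAlgEquiv hFL).trdeg_eq).symm
  have hlift : lift (fixedField Γ) = fixedField G := by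
    rw [lift_fixed G L hstL]
    exact inf_eq_right.2 hKL
  have hirr1 : ¬ ∃ t : ↥(C1 ⊓ fixedField Γ), ℂ⟮t⟯ = ⊤ := by
    intro hcon
    apply hirr
    have h1 : lift (C1 ⊓ fixedField Γ) = C ⊓ fixedField G := by
      rw [lift_inf, hlift, lift_restrict, hCq, inf_assoc]
      congr 1
      exact inf_eq_right.2 fun z hz g => hz ⟨g, hRG g.2⟩
    exact rat_iso ((liftAlgEquiv (C1 ⊓ fixedField Γ)).trans (equivOfEq h1)) hcon
  have hmain := step F1 C1 Γ
    (by
      rintro _ ⟨g, rfl⟩ z hz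
      exact (mem_restrict hFL _).2 (hstF g g.2 z ((mem_restrict hFL _).1 hz)))
    (by
      rintro _ ⟨g, rfl⟩ z hz
      exact (mem_restrict hCL _).2 (hstCq g g.2 z ((mem_restrict hCL _).1 hz)))
    hfF hfC hsup1 htL htF1 hessF1 hessL hirr1
    (good_iso (restrictAlgEquiv hFL).symm hessF1 htF1 h)
  have halgG := Pool.Agent.W721.PG.EFF2.alg_fixed G
  obtain ⟨htK, -⟩ := Pool.Agent.W721.PG.EFF2.exists_basis (fixedField G) (n + 1) hn
  have hessM : Algebra.EssFiniteType ℂ M := by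
    have h1 : Algebra.EssFiniteType ℂ ↥(A ⊔ C) := essFiniteType_iff.2
      (fg_sup (essFiniteType_iff.1 hessA) (essFiniteType_iff.1 (IsFF.ess)))
    rw [hsup] at h1
    exact (Algebra.EssFiniteType.iff_of_algEquiv (topEquiv (F := ℂ) (E := M))).1 h1
  have hfin : FiniteDimensional (fixedField G) M := fixed_finite G
  have hessK : Algebra.EssFiniteType ℂ (fixedField G) := Pool.Agent.TH466.QG.ess_below (K := M)
  exact good_iso ((liftAlgEquiv (fixedField Γ)).trans (equivOfEq hlift)).symm hessK htK hmain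

end

end Pool.Agent.K4H25.GQ

end

section

/-!
`κ = ν` for the quotients of products of curves by finite groups.
-/

set_option autoImplicit false
set_option linter.overlappingInstances false
set_option linter.unusedSectionVars false
set_option linter.unusedVariables false
set_option linter.unusedSimpArgs false
set_option maxHeartbeats 4000000
set_option synthInstance.maxHeartbeats 400000

open FF IntermediateField Pool.Agent.W619.PQ Pool.Agent.W619.PL Pool.Agent.W619.TW
  Pool.Agent.W603.LV Pool.Agent.Y174 Pool.Agent.R885.N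

namespace Pool.Agent.K4H25.GQ

section

variable {M : Type} [Field M] [Algebra ℂ M]

/-- If the quotient of a curve by a subgroup is rational, the quotient by the group is rational. -/
theorem rat_down (G H : Subgroup (M ≃ₐ[ℂ] M)) [Finite G] (hHG : H ≤ G)
    (C : IntermediateField ℂ M) [hC : IsFF ℂ C] (hst : ∀ g ∈ G, ∀ z ∈ C, g z ∈ C)
    (h : ∃ τ : M, ℂ⟮τ⟯ = C ⊓ fixedField H) : ∃ τ : M, ℂ⟮τ⟯ = C ⊓ fixedField G := by
  have hfH : Finite H := Finite.of_injective (Subgroup.inclusion hHG)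
    (Subgroup.inclusion_injective hHG)
  rw [rat_iff] at h ⊢
  have hle : C ⊓ fixedField G ≤ C ⊓ fixedField H :=
    inf_le_inf le_rfl fun z hz g => hz ⟨g, hHG g.2⟩
  let _ : Algebra ↥(C ⊓ fixedField G) ↥(C ⊓ fixedField H) := (inclusion hle).toRingHom.toAlgebra
  let _ : Algebra ↥(C ⊓ fixedField G) C :=
    (inclusion (inf_le_left : C ⊓ fixedField G ≤ C)).toRingHom.toAlgebra
  let _ : Algebra ↥(C ⊓ fixedField H) C :=
    (inclusion (inf_le_left : C ⊓ fixedField H ≤ C)).toRingHom.toAlgebra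
  have t1 : IsScalarTower ℂ ↥(C ⊓ fixedField G) ↥(C ⊓ fixedField H) :=
    IsScalarTower.of_algebraMap_eq fun c => rfl
  have t2 : IsScalarTower ↥(C ⊓ fixedField G) ↥(C ⊓ fixedField H) C :=
    IsScalarTower.of_algebraMap_eq fun c => rfl
  have f1 : FiniteDimensional ↥(C ⊓ fixedField G) C := inf_finite G C hst fun z => rfl
  have f2 : FiniteDimensional ↥(C ⊓ fixedField G) ↥(C ⊓ fixedField H) :=
    FiniteDimensional.left ↥(C ⊓ fixedField G) ↥(C ⊓ fixedField H) C
  have i1 : IsFF ℂ ↥(C ⊓ fixedField G) := isFF_inf G C hst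
  have i2 : IsFF ℂ ↥(C ⊓ fixedField H) := isFF_inf H C fun g hg => hst g (hHG hg)
  by_contra hcon
  exact irr_up (E0 := ↥(C ⊓ fixedField G)) (E := ↥(C ⊓ fixedField H)) hcon h

end

/-- **Quotients of products of curves by finite groups.** The elements of `G` which are trivial on
all the curves whose quotient is not rational commute. -/
theorem main_ind (n : ℕ) : ∀ (M : Type) [Field M] [Algebra ℂ M]
    (C : Fin n → IntermediateField ℂ M) [∀ i, IsFF ℂ (C i)] (G : Subgroup (M ≃ₐ[ℂ] M)) [Finite G],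
    Algebra.trdeg ℂ M = (n : ℕ) → ⨆ i, C i = ⊤ →
    (∀ g ∈ G, ∀ i, ∀ z ∈ C i, g z ∈ C i) →
    (∀ g ∈ G, ∀ h ∈ G, (∀ i, (¬ ∃ τ : M, ℂ⟮τ⟯ = C i ⊓ fixedField G) →
      (∀ z ∈ C i, g z = z) ∧ ∀ z ∈ C i, h z = z) → g * h = h * g) →
    PosB ℂ (fixedField G) n (fun _ => 0) ∨ NegB ℂ (fixedField G) n (fun _ => 0) := by
  induction n with
  | zero =>
    intro M _ _ C hC G _ hn hgen hst hab
    left
    have halgG := Pool.Agent.W721.PG.EFF2.alg_fixed G
    obtain ⟨htK, -⟩ := Pool.Agent.W721.PG.EFF2.exists_basis (fixedField G) 0 hn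
    exact good_zero (by rw [htK, Nat.cast_zero])
  | succ n ih =>
    intro M _ _ C hC G _ hn hgen hst hab
    have hessM : Algebra.EssFiniteType ℂ M := by
      have h1 : Algebra.EssFiniteType ℂ ↥(⨆ i, C i) :=
        essFiniteType_iff.2 (fg_iSup fun j => essFiniteType_iff.1 (IsFF.ess))
      rw [hgen] at h1
      exact (Algebra.EssFiniteType.iff_of_algEquiv (topEquiv (F := ℂ) (E := M))).1 h1
    by_cases hall : ∀ i, ∃ τ : M, ℂ⟮τ⟯ = C i ⊓ fixedField G
    · choose τ hτ using hall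
      exact abelian_rational (by omega) hn C hgen G
        (fun g hg h hh => hab g hg h hh fun i hi => absurd ⟨τ i, hτ i⟩ hi) hst τ hτ
    rw [not_forall] at hall
    obtain ⟨i, hi⟩ := hall
    obtain ⟨A, hA⟩ : ∃ A : IntermediateField ℂ M, A = ⨆ j : Fin n, C (i.succAbove j) := ⟨_, rfl⟩
    have hCA : ∀ j : Fin n, C (i.succAbove j) ≤ A := fun j => by
      rw [hA]
      exact le_iSup (fun j : Fin n => C (i.succAbove j)) j
    have hsup : A ⊔ C i = ⊤ := by
      rw [eq_top_iff, ← hgen]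
      refine iSup_le fun l => ?_
      by_cases hl : l = i
      · rw [hl]
        exact le_sup_right
      · obtain ⟨j, rfl⟩ := Fin.exists_succAbove_eq hl
        exact (hCA j).trans le_sup_left
    have hstA : ∀ g ∈ G, ∀ z ∈ A, g z ∈ A := by
      intro g hg
      rw [hA]
      exact iSup_stable fun j => hst g hg (i.succAbove j)
    -- the curves in `A`
    let C' : Fin n → IntermediateField ℂ A := fun j => restrict (hCA j)
    have hC' : ∀ j, IsFF ℂ (C' j) := fun j =>
      isFF_iso (restrictAlgEquiv (hCA j)).symm (hC (i.succAbove j))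
    have hgen' : ⨆ j, C' j = ⊤ := by
      apply lift_injective A
      rw [lift_top]
      have h1 : lift (⨆ j, C' j) = ⨆ j, lift (C' j) := by
        unfold IntermediateField.lift
        rw [IntermediateField.map_iSup]
      rw [h1]
      simp only [C', lift_restrict]
      exact hA.symm
    have hessA : Algebra.EssFiniteType ℂ A := by
      rw [hA]
      exact essFiniteType_iff.2 (fg_iSup fun j => essFiniteType_iff.1 (IsFF.ess))
    have htA : Algebra.trdeg ℂ A = (n : ℕ) := by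
      have hbot : Algebra.trdeg ℂ (⊥ : IntermediateField ℂ A) = (0 : ℕ) := by
        have h1 : Algebra.IsAlgebraic ℂ (⊥ : IntermediateField ℂ A) := ⟨fun x => by
          obtain ⟨c, hc⟩ := IntermediateField.mem_bot.1 x.2
          have h2 : x = algebraMap ℂ _ c := Subtype.ext hc.symm
          rw [h2]
          exact isAlgebraic_algebraMap c⟩
        rw [Nat.cast_zero]
        exact trdeg_eq_zero
      have h1 := Pool.Agent.W824.PG.trdeg_le_of_sup (⊥ : IntermediateField ℂ A) C' hbot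
        (by rw [bot_sup_eq]; exact hgen')
      rw [Nat.zero_add] at h1
      obtain ⟨m, hm⟩ := Cardinal.lt_aleph0.1 (lt_of_le_of_lt h1 Cardinal.natCast_lt_aleph0)
      have h2 := Pool.Agent.W824.PG.trdeg_le_of_sup (d := m) A (fun _ : Fin 1 => C i) hm
        (by rw [ciSup_const]; exact hsup)
      rw [hn] at h2
      rw [hm] at h1 ⊢
      have h3 : m ≤ n := by exact_mod_cast h1
      have h4 : n + 1 ≤ m + 1 := by exact_mod_cast h2
      have h5 : m = n := by omega
      rw [h5]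
    refine glue hn A (C i) htA hessA hsup G hstA (fun g hg => hst g hg i)
      (by rw [← rat_iff]; exact hi) ?_
    -- the induction hypothesis
    obtain ⟨H, hH⟩ : ∃ H, H = G ⊓ (C i).fixingSubgroup := ⟨_, rfl⟩
    rw [← hH]
    have hHG : H ≤ G := by rw [hH]; exact inf_le_left
    have hfH : Finite H := Finite.of_injective (Subgroup.inclusion hHG)
      (Subgroup.inclusion_injective hHG)
    have hHC : ∀ g ∈ H, ∀ z ∈ C i, g z = z := by
      intro g hg
      rw [hH] at hg
      exact mem_fixer.1 hg.2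
    have hstH : ∀ g ∈ H, ∀ z ∈ A, g z ∈ A := fun g hg => hstA g (hHG hg)
    let H1 : Subgroup (A ≃ₐ[ℂ] A) := (rho H A hstH).range
    have hfH1 : Finite H1 := Finite.of_surjective _ (MonoidHom.rangeRestrict_surjective _)
    have hlift : lift (fixedField H1) = A ⊓ fixedField H := lift_fixed H A hstH
    have hmain := ih A C' H1 htA hgen' (by
      rintro _ ⟨g, rfl⟩ j z hz
      exact (mem_restrict (hCA j) _).2
        (hst g (hHG g.2) (i.succAbove j) z ((mem_restrict (hCA j) _).1 hz))) (by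
      rintro _ ⟨g, rfl⟩ _ ⟨h, rfl⟩ hgh
      have h1 : (g : M ≃ₐ[ℂ] M) * h = h * g := by
        refine hab g (hHG g.2) h (hHG h.2) fun l hl => ?_
        by_cases hli : l = i
        · rw [hli]
          exact ⟨hHC g g.2, hHC h h.2⟩
        · obtain ⟨j, rfl⟩ := Fin.exists_succAbove_eq hli
          have h2 : ¬ ∃ τ : A, ℂ⟮τ⟯ = C' j ⊓ fixedField H1 := by
            intro hcon
            apply hl
            apply rat_down G H hHG (C (i.succAbove j)) (fun g hg => hst g hg _)
            rw [rat_iff] at hcon ⊢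
            have h3 : lift (C' j ⊓ fixedField H1) = C (i.succAbove j) ⊓ fixedField H := by
              rw [lift_inf, hlift, lift_restrict, ← inf_assoc]
              congr 1
              exact inf_eq_left.2 (hCA j)
            exact rat_iso ((liftAlgEquiv (C' j ⊓ fixedField H1)).trans (equivOfEq h3)) hcon
          obtain ⟨h3, h4⟩ := hgh j h2
          exact ⟨fun z hz => congrArg (Subtype.val : A → M)
              (h3 ⟨z, hCA j hz⟩ ((mem_restrict (hCA j) _).2 hz)),
            fun z hz => congrArg (Subtype.val : A → M)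
              (h4 ⟨z, hCA j hz⟩ ((mem_restrict (hCA j) _).2 hz))⟩
      rw [← map_mul, ← map_mul]
      congr 1
      exact Subtype.ext h1)
    obtain ⟨h1, h2⟩ := trdeg_inf H A hstH htA hessA
    exact good_iso ((liftAlgEquiv (fixedField H1)).trans (equivOfEq hlift)).symm h2 h1 hmain

end Pool.Agent.K4H25.GQ

end

section

/-!
Transport of places and of the degree of the canonical divisor along isomorphisms.
-/

set_option autoImplicit false
set_option linter.overlappingInstances false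
set_option linter.unusedSectionVars false
set_option linter.unusedVariables false
set_option linter.unusedSimpArgs false
set_option maxHeartbeats 4000000
set_option synthInstance.maxHeartbeats 400000

open FF IntermediateField Pool.Agent.W619.PQ Pool.Agent.W619.PL Pool.Agent.W619.TW
  Pool.Agent.W603.LV Pool.Agent.Y174 Pool.Agent.R885.N Pool.Agent.K4H25.GQ

namespace Pool.Agent.K4H25.GW

section

variable {k : Type} [Field k] {A B : Type} [Field A] [Field B] [Algebra k A] [Algebra k B]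

/-- The place of `A` which corresponds to a place of `B` under an isomorphism. -/
noncomputable def pullP (e : A ≃ₐ[k] B) (w : Place k B) : Place k A where
  ord f := w.ord (e f)
  ord_zero := by rw [map_zero, w.ord_zero]
  ord_mul := by
    intro f g hf hg
    rw [map_mul, w.ord_mul (by simpa using hf) (by simpa using hg)]
  ord_add := by
    intro f g hf hg hfg
    rw [map_add]
    exact w.ord_add (by simpa using hf) (by simpa using hg)
      (by rw [← map_add]; exact (map_ne_zero_iff _ e.injective).2 hfg)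
  ord_const := by intro c hc; rw [AlgEquiv.commutes, w.ord_const hc]
  surj := by
    obtain ⟨t, h0, ht⟩ := w.surj
    exact ⟨e.symm t, by simpa using h0, by simpa using ht⟩

theorem pullP_ord (e : A ≃ₐ[k] B) (w : Place k B) (f : A) : (pullP e w).ord f = w.ord (e f) := rfl

theorem pullP_symm (e : A ≃ₐ[k] B) (w : Place k B) : pullP e.symm (pullP e w) = w := by
  apply Place.ext
  funext f
  rw [pullP_ord, pullP_ord, AlgEquiv.apply_symm_apply]

theorem pullP_symm' (e : A ≃ₐ[k] B) (w : Place k A) : pullP e (pullP e.symm w) = w := by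
  apply Place.ext
  funext f
  rw [pullP_ord, pullP_ord, AlgEquiv.symm_apply_apply]

theorem pullP_inj (e : A ≃ₐ[k] B) : Function.Injective (pullP (k := k) e) := by
  intro a b h
  have := congrArg (pullP e.symm) h
  rwa [pullP_symm, pullP_symm] at this

/-- The derivation of `B` which corresponds to a derivation of `A` under an isomorphism. -/
noncomputable def pushD (e : A ≃ₐ[k] B) (D : Derivation k A A) :
    Derivation k B B :=
  Derivation.mk' ((e.toLinearMap.comp (D : A →ₗ[k] A)).comp e.symm.toLinearMap) (by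
    intro a b
    change e (D (e.symm (a * b))) = a • e (D (e.symm b)) + b • e (D (e.symm a))
    rw [map_mul, D.leibniz, map_add, smul_eq_mul, smul_eq_mul, map_mul, map_mul,
      AlgEquiv.apply_symm_apply, AlgEquiv.apply_symm_apply, smul_eq_mul, smul_eq_mul])

theorem pushD_apply (e : A ≃ₐ[k] B) (D : Derivation k A A) (z : B) :
    pushD e D z = e (D (e.symm z)) := rfl

variable [CharZero k] [IsAlgClosed k] [IsFF k A] [IsFF k B]

theorem canDeg_iso (e : A ≃ₐ[k] B) : canDeg k B = canDeg k A := by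
  classical
  have hD : der k A ≠ 0 := der_ne
  have hD' : pushD e (der k A) ≠ 0 := by
    intro h
    apply hD
    ext z
    have h1 := congrArg (fun D : Derivation k B B => D (e z)) h
    simp only [pushD_apply, AlgEquiv.symm_apply_apply] at h1
    change e (der k A z) = 0 at h1
    rw [map_eq_zero] at h1
    exact h1
  have hvo : ∀ w : Place k B, vo w (pushD e (der k A)) = vo (pullP e w) (der k A) := by
    intro w
    obtain ⟨t, ht0, ht⟩ := w.surj
    rw [← vo_eq w ht hD', pushD_apply]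
    have h1 : (pullP e w).ord (e.symm t) = 1 := by
      rw [pullP_ord, AlgEquiv.apply_symm_apply]
      exact ht
    rw [← vo_eq (pullP e w) h1 hD, pullP_ord]
  have h1 := canDeg_eq (k := k) hD
  have h2 := canDeg_eq (k := k) hD'
  rw [h1, h2]
  congr 1
  refine finsum_eq_of_bijective (pullP e) ⟨pullP_inj e, fun w => ⟨pullP e.symm w, pullP_symm' e w⟩⟩
    hvo

end

end Pool.Agent.K4H25.GW

end

section

/-!
Invariants of products of several fields.
-/

set_option autoImplicit false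
set_option linter.overlappingInstances false
set_option linter.unusedSectionVars false
set_option linter.unusedVariables false
set_option linter.unusedSimpArgs false
set_option maxHeartbeats 4000000
set_option synthInstance.maxHeartbeats 400000

open FF IntermediateField Pool.Agent.W619.PQ Pool.Agent.W619.TW
  Pool.Agent.W603.LV Pool.Agent.Y174 Pool.Agent.R885.N Pool.Agent.K4H25.GQ

namespace Pool.Agent.K4H25.GW

section

variable {M : Type} [Field M] [Algebra ℂ M]

/-- invariants are quotients of invariants of a stable algebra -/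
theorem frac_inv' (G : Subgroup (M ≃ₐ[ℂ] M)) [Finite G] (S : Set M)
    (hst : ∀ g ∈ G, ∀ z ∈ S, g z ∈ S) {x : M} (hxS : x ∈ IntermediateField.adjoin ℂ S)
    (hx : x ∈ fixedField G) : ∃ a b : M, a ∈ Algebra.adjoin ℂ S ∧ b ∈ Algebra.adjoin ℂ S ∧
      a ∈ fixedField G ∧ b ∈ fixedField G ∧ x = a / b := by
  classical
  have := Fintype.ofFinite G
  obtain ⟨a, ha, b, hb, hab'⟩ := IntermediateField.mem_adjoin_iff_div.1 hxS
  by_cases hb0 : b = 0
  · rw [hb0, div_zero] at hab'
    exact ⟨0, 0, zero_mem _, zero_mem _, zero_mem _, zero_mem _, by rw [hab', div_zero]⟩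
  have hst' : ∀ g ∈ G, ∀ z ∈ Algebra.adjoin ℂ S, g z ∈ Algebra.adjoin ℂ S := by
    intro g hg z hz
    induction hz using Algebra.adjoin_induction with
    | mem z hz => exact Algebra.subset_adjoin (hst g hg z hz)
    | algebraMap c => rw [AlgEquiv.commutes]; exact Subalgebra.algebraMap_mem _ _
    | add u v _ _ hu hv => rw [map_add]; exact add_mem hu hv
    | mul u v _ _ hu hv => rw [map_mul]; exact mul_mem hu hv
  let N : M := ∏ g : G, (g : M ≃ₐ[ℂ] M) b
  have hN0 : N ≠ 0 := Finset.prod_ne_zero_iff.2 fun g _ => (map_ne_zero _).2 hb0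
  have hNA : N ∈ Algebra.adjoin ℂ S := prod_mem fun g _ => hst' g g.2 b hb
  have hNK : N ∈ fixedField G := by
    intro h
    change (h : M ≃ₐ[ℂ] M) (∏ g : G, (g : M ≃ₐ[ℂ] M) b) = _
    rw [map_prod]
    exact Equiv.prod_comp (Equiv.mulLeft h) (fun g : G => (g : M ≃ₐ[ℂ] M) b)
  have hxN : x * N ∈ Algebra.adjoin ℂ S := by
    have h1 : x * N = a * ∏ g ∈ Finset.univ.erase (1 : G), (g : M ≃ₐ[ℂ] M) b := by
      change x * (∏ g : G, (g : M ≃ₐ[ℂ] M) b) = _
      rw [← Finset.mul_prod_erase Finset.univ _ (Finset.mem_univ (1 : G)), hab']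
      change a / b * (b * _) = _
      rw [← mul_assoc, div_mul_cancel₀ _ hb0]
    rw [h1]
    exact mul_mem ha (prod_mem fun g _ => hst' g g.2 b hb)
  exact ⟨x * N, N, hxN, hNA, mul_mem hx hNK, hNK, by rw [mul_div_cancel_right₀ _ hN0]⟩

/-- the invariants of a product -/
theorem two_inv' (G H R : Subgroup (M ≃ₐ[ℂ] M)) [Finite G] (hHG : H ≤ G) (hRG : R ≤ G)
    (A B : IntermediateField ℂ M)
    (hA : ∀ g ∈ G, ∀ z ∈ A, g z ∈ A) (hB : ∀ g ∈ G, ∀ z ∈ B, g z ∈ B)
    (hH : ∀ g ∈ H, ∀ z ∈ B, g z = z) (hR : ∀ g ∈ R, ∀ z ∈ A, g z = z) {x : M}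
    (hxS : x ∈ A ⊔ B) (hx : x ∈ fixedField G) :
    x ∈ (A ⊓ fixedField H) ⊔ (B ⊓ fixedField R) := by
  classical
  have htop : IntermediateField.adjoin ℂ ((A : Set M) ∪ B) = A ⊔ B := rfl
  rw [← htop] at hxS
  obtain ⟨a, b, ha, hb, haK, hbK, rfl⟩ := frac_inv' G ((A : Set M) ∪ B) (by
    rintro g hg z (hz | hz)
    · exact Or.inl (hA g hg z hz)
    · exact Or.inr (hB g hg z hz)) hxS hx
  have hfH : Finite H := Finite.of_injective (Subgroup.inclusion hHG)
    (Subgroup.inclusion_injective hHG)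
  have hfR : Finite R := Finite.of_injective (Subgroup.inclusion hRG)
    (Subgroup.inclusion_injective hRG)
  have iH := Fintype.ofFinite H
  have iR := Fintype.ofFinite R
  have hspan : ∀ y ∈ Algebra.adjoin ℂ ((A : Set M) ∪ B),
      y ∈ Submodule.span ℂ {z : M | ∃ u ∈ A, ∃ v ∈ B, z = u * v} := by
    intro y hy
    induction hy using Algebra.adjoin_induction with
    | mem x hx =>
      rcases hx with hx | hx
      · exact Submodule.subset_span ⟨x, hx, 1, one_mem _, by rw [mul_one]⟩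
      · exact Submodule.subset_span ⟨1, one_mem _, x, hx, by rw [one_mul]⟩
    | algebraMap c =>
      exact Submodule.subset_span ⟨algebraMap ℂ M c, A.algebraMap_mem c, 1, one_mem _,
        by rw [mul_one]⟩
    | add x y _ _ hx hy => exact Submodule.add_mem _ hx hy
    | mul x y _ _ hx hy =>
      have h1 := Submodule.mul_mem_mul hx hy
      rw [Submodule.span_mul_span] at h1
      refine Submodule.span_mono ?_ h1
      rintro _ ⟨_, ⟨u, hu, v, hv, rfl⟩, _, ⟨u', hu', v', hv', rfl⟩, rfl⟩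
      exact ⟨u * u', mul_mem hu hu', v * v', mul_mem hv hv', by beta_reduce; ring⟩
  have havg : ∀ y ∈ Submodule.span ℂ {z : M | ∃ u ∈ A, ∃ v ∈ B, z = u * v},
      avg R (avg H y) ∈ (A ⊓ fixedField H) ⊔ (B ⊓ fixedField R) := by
    intro y hy
    induction hy using Submodule.span_induction with
    | mem y hy =>
      obtain ⟨u, hu, v, hv, rfl⟩ := hy
      have h1 : avg H (u * v) = avg H u * v := by
        unfold avg
        rw [mul_assoc, Finset.sum_mul]
        congr 1
        refine Finset.sum_congr rfl fun g _ => ?_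
        rw [map_mul, hH g g.2 v hv]
      have huA : avg H u ∈ A :=
        mul_mem (A.algebraMap_mem _) (sum_mem fun g _ => hA g (hHG g.2) u hu)
      have h2' : ∀ w ∈ A, avg R (w * v) = w * avg R v := by
        intro w hw
        unfold avg
        rw [mul_left_comm, Finset.mul_sum (Finset.univ : Finset R) _ w]
        congr 1
        refine Finset.sum_congr rfl fun g _ => ?_
        rw [map_mul, hR g g.2 w hw]
      have h2 : avg R (avg H u * v) = avg H u * avg R v := h2' _ huA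
      have hvB : avg R v ∈ B :=
        mul_mem (B.algebraMap_mem _) (sum_mem fun g _ => hB g (hRG g.2) v hv)
      rw [h1, h2]
      exact mul_mem ((le_sup_left : A ⊓ fixedField H ≤ _) ⟨huA, avg_mem u⟩)
        ((le_sup_right : B ⊓ fixedField R ≤ _) ⟨hvB, avg_mem v⟩)
    | zero => rw [avg_zero, avg_zero]; exact zero_mem _
    | add a b _ _ ha hb => rw [avg_add, avg_add]; exact add_mem ha hb
    | smul c a _ ha =>
      rw [avg_smul, avg_smul, Algebra.smul_def]
      exact mul_mem (IntermediateField.algebraMap_mem _ _) ha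
  have hfix : ∀ y ∈ fixedField G, avg R (avg H y) = y := by
    intro y hy
    rw [avg_fixed (G := H) (z := y) (fun g => hy ⟨g, hHG g.2⟩),
      avg_fixed (G := R) (z := y) (fun g => hy ⟨g, hRG g.2⟩)]
  have h1 := havg a (hspan a ha)
  have h2 := havg b (hspan b hb)
  rw [hfix a haK] at h1
  rw [hfix b hbK] at h2
  exact div_mem h1 h2

variable {ι : Type} [Fintype ι] [DecidableEq ι]

/-- The group of the elements of `G` which act only on the field `E o`. -/
noncomputable def only (G : Subgroup (M ≃ₐ[ℂ] M)) (E : ι → IntermediateField ℂ M) (o : ι) :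
    Subgroup (M ≃ₐ[ℂ] M) :=
  G ⊓ ⨅ o' : {o' : ι // o' ≠ o}, (E o').fixingSubgroup

omit [Fintype ι] [DecidableEq ι] in
theorem mem_only {G : Subgroup (M ≃ₐ[ℂ] M)} {E : ι → IntermediateField ℂ M} {o : ι}
    {g : M ≃ₐ[ℂ] M} : g ∈ only G E o ↔ g ∈ G ∧ ∀ o', o' ≠ o → ∀ z ∈ E o', g z = z := by
  constructor
  · rintro ⟨h1, h2⟩
    exact ⟨h1, fun o' ho z hz => mem_fixer.1 (Subgroup.mem_iInf.1 h2 ⟨o', ho⟩) z hz⟩
  · rintro ⟨h1, h2⟩
    exact ⟨h1, Subgroup.mem_iInf.2 fun o' => mem_fixer.2 (h2 o' o'.2)⟩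

omit [Fintype ι] [DecidableEq ι] in
theorem only_le (G : Subgroup (M ≃ₐ[ℂ] M)) (E : ι → IntermediateField ℂ M) (o : ι) :
    only G E o ≤ G := inf_le_left

/-- The quotient of the factor by the group of the elements which act only on it. -/
noncomputable def quo (G : Subgroup (M ≃ₐ[ℂ] M)) (E : ι → IntermediateField ℂ M) (o : ι) :
    IntermediateField ℂ M :=
  E o ⊓ fixedField (only G E o)

omit [Fintype ι] in
/-- the invariants of a product of several fields -/
theorem many_inv (G : Subgroup (M ≃ₐ[ℂ] M)) [Finite G] (E : ι → IntermediateField ℂ M)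
    (hst : ∀ o, ∀ g ∈ G, ∀ z ∈ E o, g z ∈ E o) (J : Finset ι) {x : M}
    (hxS : x ∈ ⨆ o ∈ J, E o) (hx : ∀ o ∈ J, ∀ g ∈ only G E o, g x = x) :
    x ∈ ⨆ o ∈ J, quo G E o := by
  classical
  induction J using Finset.induction_on generalizing x with
  | empty => simpa using hxS
  | insert o J ho ih =>
    rw [Finset.iSup_insert] at hxS ⊢
    let H : Subgroup (M ≃ₐ[ℂ] M) := only G E o
    let R : Subgroup (M ≃ₐ[ℂ] M) := ⨆ o' ∈ J, only G E o'
    have hHG : H ≤ G := only_le G E o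
    have hRG : R ≤ G := iSup₂_le fun o' _ => only_le G E o'
    have hG' : H ⊔ R ≤ G := sup_le hHG hRG
    have hfin : Finite ↥(H ⊔ R) := Finite.of_injective (Subgroup.inclusion hG')
      (Subgroup.inclusion_injective hG')
    have hB : ∀ g ∈ G, ∀ z ∈ ⨆ o' ∈ J, E o', g z ∈ ⨆ o' ∈ J, E o' := by
      intro g hg
      have h1 : (⨆ o' ∈ J, E o') ≤ (⨆ o' ∈ J, E o').comap (g : M →ₐ[ℂ] M) :=
        iSup₂_le fun o' ho' z hz =>
          (le_iSup₂ (f := fun o' (_ : o' ∈ J) => E o') o' ho') (hst o' g hg z hz)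
      exact fun z hz => h1 hz
    have hfix : x ∈ fixedField (H ⊔ R) := by
      have h1 : H ⊔ R ≤ MulAction.stabilizer (M ≃ₐ[ℂ] M) x :=
        sup_le (fun g hg => MulAction.mem_stabilizer_iff.2
          (hx o (Finset.mem_insert_self o J) g hg))
          (iSup₂_le fun o' ho' g hg => MulAction.mem_stabilizer_iff.2
            (hx o' (Finset.mem_insert_of_mem ho') g hg))
      intro g
      exact MulAction.mem_stabilizer_iff.1 (h1 g.2)
    have h1 := two_inv' (H ⊔ R) H R le_sup_left le_sup_right (E o) (⨆ o' ∈ J, E o')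
      (fun g hg => hst o g (hG' hg)) (fun g hg => hB g (hG' hg))
      (by
        intro g hg z hz
        have h2 : (⨆ o' ∈ J, E o') ≤ fixedField (Subgroup.zpowers g) :=
          iSup₂_le fun o' ho' z hz => by
            rintro ⟨_, n, rfl⟩
            have h3 : g ∈ MulAction.stabilizer (M ≃ₐ[ℂ] M) z := MulAction.mem_stabilizer_iff.2
              ((mem_only.1 hg).2 o' (fun h => ho (h ▸ ho')) z hz)
            exact MulAction.mem_stabilizer_iff.1
              ((MulAction.stabilizer (M ≃ₐ[ℂ] M) z).zpow_mem h3 n)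
        exact h2 hz ⟨g, Subgroup.mem_zpowers g⟩)
      (by
        intro g hg z hz
        have h2 : R ≤ MulAction.stabilizer (M ≃ₐ[ℂ] M) z := iSup₂_le fun o' ho' g hg =>
          MulAction.mem_stabilizer_iff.2 ((mem_only.1 hg).2 o (fun h => ho (h ▸ ho')) z hz)
        exact MulAction.mem_stabilizer_iff.1 (h2 hg))
      hxS hfix
    refine (sup_le_sup le_rfl ?_ : (E o ⊓ fixedField H) ⊔ ((⨆ o' ∈ J, E o') ⊓ fixedField R) ≤
      quo G E o ⊔ ⨆ o' ∈ J, quo G E o') h1
    intro z hz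
    refine ih hz.1 fun o' ho' g hg => ?_
    exact hz.2 ⟨g, (le_iSup₂ (f := fun o' (_ : o' ∈ J) => only G E o') o' ho') hg⟩

end

end Pool.Agent.K4H25.GW

end

section

/-!
The step for a group acting on `Z × C 1 × ... × C q`.
-/

set_option autoImplicit false
set_option linter.overlappingInstances false
set_option linter.unusedSectionVars false
set_option linter.unusedVariables false
set_option linter.unusedSimpArgs false
set_option maxHeartbeats 4000000
set_option synthInstance.maxHeartbeats 400000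

open FF IntermediateField Pool.Agent.W619.PQ Pool.Agent.W619.PL Pool.Agent.W619.TW
  Pool.Agent.W603.LV Pool.Agent.Y174 Pool.Agent.R885.N Pool.Agent.K4H25.GQ

namespace Pool.Agent.K4H25.GW

section

variable {M : Type} [Field M] [Algebra ℂ M] {ι : Type} [Fintype ι] [DecidableEq ι]

omit [Fintype ι] [DecidableEq ι] in
theorem quo_ge (G : Subgroup (M ≃ₐ[ℂ] M)) (E : ι → IntermediateField ℂ M) (o : ι) :
    E o ⊓ fixedField G ≤ quo G E o :=
  inf_le_inf le_rfl fun z hz g => hz ⟨g, only_le G E o g.2⟩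

omit [Fintype ι] [DecidableEq ι] in
theorem le_fix_zpowers {E : IntermediateField ℂ M} {g : M ≃ₐ[ℂ] M} (h : ∀ z ∈ E, g z = z) :
    E ≤ fixedField (Subgroup.zpowers g) := by
  rintro z hz ⟨_, n, rfl⟩
  have h3 : g ∈ MulAction.stabilizer (M ≃ₐ[ℂ] M) z := MulAction.mem_stabilizer_iff.2 (h z hz)
  exact MulAction.mem_stabilizer_iff.1 ((MulAction.stabilizer (M ≃ₐ[ℂ] M) z).zpow_mem h3 n)

/-- An element which is trivial on all quotients but one is trivial on all of them. -/
theorem faith (G : Subgroup (M ≃ₐ[ℂ] M)) [Finite G] (E : ι → IntermediateField ℂ M)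
    (hst : ∀ o, ∀ g ∈ G, ∀ z ∈ E o, g z ∈ E o) (o0 : ι) {g : M ≃ₐ[ℂ] M} (hgG : g ∈ G)
    (hg : ∀ o, o ≠ o0 → ∀ z ∈ quo G E o, g z = z) : ∀ o, ∀ z ∈ quo G E o, g z = z := by
  classical
  intro o z hz
  by_cases ho : o = o0
  swap
  · exact hg o ho z hz
  subst ho
  obtain ⟨J, hJ⟩ : ∃ J : Finset ι, J = Finset.univ.erase o := ⟨_, rfl⟩
  let S : Subgroup (M ≃ₐ[ℂ] M) := ⨆ o' ∈ J, only G E o'
  have hSG : S ≤ G := iSup₂_le fun o' _ => only_le G E o'
  have hfin : Finite S := Finite.of_injective (Subgroup.inclusion hSG)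
    (Subgroup.inclusion_injective hSG)
  have hstJ : ∀ g ∈ G, ∀ z ∈ ⨆ o' ∈ J, E o', g z ∈ ⨆ o' ∈ J, E o' := by
    intro g hg
    have h1 : (⨆ o' ∈ J, E o') ≤ (⨆ o' ∈ J, E o').comap (g : M →ₐ[ℂ] M) :=
      iSup₂_le fun o' ho' z hz =>
        (le_iSup₂ (f := fun o' (_ : o' ∈ J) => E o') o' ho') (hst o' g hg z hz)
    exact fun z hz => h1 hz
  obtain ⟨s, hs, hs'⟩ := gal S (⨆ o' ∈ J, E o') (fun g hg => hstJ g (hSG hg)) g (hstJ g hgG) (by
    intro x hx
    have h1 : x ∈ ⨆ o' ∈ J, quo G E o' := by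
      refine many_inv G E hst J hx.1 fun o' ho' h hh => ?_
      exact hx.2 ⟨h, (le_iSup₂ (f := fun o' (_ : o' ∈ J) => only G E o') o' ho') hh⟩
    have h2 : (⨆ o' ∈ J, quo G E o') ≤ fixedField (Subgroup.zpowers g) :=
      iSup₂_le fun o' ho' => le_fix_zpowers (hg o' (by
        rw [hJ] at ho'
        exact Finset.ne_of_mem_erase ho'))
    exact h2 h1 ⟨g, Subgroup.mem_zpowers g⟩)
  have h1 : s⁻¹ * g ∈ only G E o := by
    refine mem_only.2 ⟨G.mul_mem (G.inv_mem (hSG hs)) hgG, fun o' ho' x hx => ?_⟩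
    change s⁻¹ (g x) = x
    have h2 : x ∈ ⨆ o' ∈ J, E o' := (le_iSup₂ (f := fun o' (_ : o' ∈ J) => E o') o' (by
      rw [hJ]
      exact Finset.mem_erase.2 ⟨ho', Finset.mem_univ _⟩)) hx
    rw [hs' x h2]
    change (s⁻¹ * s) x = x
    rw [inv_mul_cancel]
    rfl
  have h2 : (s⁻¹ * g) z = z := hz.2 ⟨_, h1⟩
  have h3 : g = s * (s⁻¹ * g) := by rw [mul_inv_cancel_left]
  have h4 : S ≤ MulAction.stabilizer (M ≃ₐ[ℂ] M) z := iSup₂_le fun o' ho' g hg =>
    MulAction.mem_stabilizer_iff.2 ((mem_only.1 hg).2 o (by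
      rw [hJ] at ho'
      exact (Finset.ne_of_mem_erase ho').symm) z hz.1)
  rw [h3]
  change s ((s⁻¹ * g) z) = z
  rw [h2]
  exact MulAction.mem_stabilizer_iff.1 (h4 hs)

end

section

variable {M : Type} [Field M] [Algebra ℂ M] {q : ℕ}

/-- The factors `Z`, `C 1`, ..., `C q`. -/
def fam (Z : IntermediateField ℂ M) (C : Fin q → IntermediateField ℂ M) :
    Option (Fin q) → IntermediateField ℂ M := fun o => o.elim Z C

/-- The quotient of the curve `C i` by the elements which act only on it. -/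
noncomputable def cq (G : Subgroup (M ≃ₐ[ℂ] M)) (Z : IntermediateField ℂ M)
    (C : Fin q → IntermediateField ℂ M) (i : Fin q) : IntermediateField ℂ M :=
  quo G (fam Z C) (some i)

theorem cq_ge (G : Subgroup (M ≃ₐ[ℂ] M)) (Z : IntermediateField ℂ M)
    (C : Fin q → IntermediateField ℂ M) (i : Fin q) : C i ⊓ fixedField G ≤ cq G Z C i :=
  quo_ge G (fam Z C) (some i)

/-- The weighted criterion. -/
def WAgeG (G : Subgroup (M ≃ₐ[ℂ] M)) (Z : IntermediateField ℂ M)
    (C : Fin q → IntermediateField ℂ M) (δ : ∀ i, Place ℂ ↥(C i ⊓ fixedField G) → ℚ) : Prop :=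
  ∀ g ∈ G, ∀ e : ℕ, 1 < e → (∀ m : ℕ, (∀ i, ∀ z ∈ cq G Z C i, (g ^ m) z = z) ↔ e ∣ m) →
    ∀ ζ : ℂ, IsPrimitiveRoot ζ e →
    ∀ (w : ∀ i, Place ℂ (cq G Z C i)) (p : ∀ i, Place ℂ ↥(C i ⊓ fixedField G)) (r a : Fin q → ℕ),
      (∀ i, LiesOver (cq_ge G Z C i) (w i) (p i) (r i)) →
      (∀ i, a i < e) → (∀ i, Rotates (cq G Z C i) g (w i) (ζ ^ a i)) →
      (e : ℚ) ≤ ∑ i, r i * (1 - δ i (p i)) * a i ∨
        ((∃ z ∈ Z, g z ≠ z) ∧ (e : ℚ) ≤ ∑ i, r i * (1 - δ i (p i)) * a i + 1)

open scoped Classical in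
/-- **The step for a group.** -/
theorem glueW {d : ℕ} (hn : Algebra.trdeg ℂ M = (d + q : ℕ)) (Z : IntermediateField ℂ M)
    (C : Fin q → IntermediateField ℂ M) (hZ : Algebra.trdeg ℂ Z = d)
    (hessZ : Algebra.EssFiniteType ℂ Z) [hC : ∀ i, IsFF ℂ (C i)] (hsup : Z ⊔ ⨆ i, C i = ⊤)
    (G : Subgroup (M ≃ₐ[ℂ] M)) [Finite G]
    (hstZ : ∀ g ∈ G, ∀ z ∈ Z, g z ∈ Z) (hstC : ∀ i, ∀ g ∈ G, ∀ z ∈ C i, g z ∈ C i)
    (δ : ∀ i, Place ℂ ↥(C i ⊓ fixedField G) → ℚ) (hδ : ∀ i p, 0 ≤ δ i p ∧ δ i p ≤ 1)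
    (hbr : ∀ i (w : Place ℂ (cq G Z C i)) p (r : ℕ), LiesOver (cq_ge G Z C i) w p r →
      1 ≤ r * (1 - δ i p))
    (hage : WAgeG G Z C δ)
    (hdeg : ∀ i, ∃ T : Finset (Place ℂ ↥(C i ⊓ fixedField G)), (∀ q, q ∉ T → δ i q = 0) ∧
      ((0 : ℚ) < canDeg ℂ ↥(C i ⊓ fixedField G) + ∑ q ∈ T, δ i q ∨
        ((0 : ℚ) ≤ canDeg ℂ ↥(C i ⊓ fixedField G) + ∑ q ∈ T, δ i q ∧
          canDeg ℂ (cq G Z C i) = 0)))
    (h : PosB ℂ ↥(Z ⊓ fixedField (only G (fam Z C) none)) d (fun _ => 0) ∨
      NegB ℂ ↥(Z ⊓ fixedField (only G (fam Z C) none)) d (fun _ => 0)) :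
    PosB ℂ (fixedField G) (d + q) (fun _ => 0) ∨ NegB ℂ (fixedField G) (d + q) (fun _ => 0) := by
  classical
  have hst : ∀ o, ∀ g ∈ G, ∀ z ∈ fam Z C o, g z ∈ fam Z C o := by
    intro o
    cases o with
    | none => exact hstZ
    | some i => exact hstC i
  obtain ⟨H, hH⟩ : ∃ H, H = only G (fam Z C) none := ⟨_, rfl⟩
  rw [← hH] at h
  have hHG : H ≤ G := by rw [hH]; exact only_le _ _ _
  have hfH : Finite H := Finite.of_injective (Subgroup.inclusion hHG)
    (Subgroup.inclusion_injective hHG)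
  obtain ⟨F, hF⟩ : ∃ F, F = quo G (fam Z C) none := ⟨_, rfl⟩
  have hF' : F = Z ⊓ fixedField H := by rw [hF, hH]; rfl
  rw [← hF'] at h
  obtain ⟨L, hL⟩ : ∃ L : IntermediateField ℂ M, L = ⨆ o, quo G (fam Z C) o := ⟨_, rfl⟩
  have hqL : ∀ o, quo G (fam Z C) o ≤ L := fun o => by
    rw [hL]
    exact le_iSup (fun o => quo G (fam Z C) o) o
  have hFL : F ≤ L := by rw [hF]; exact hqL none
  have hCL : ∀ i, cq G Z C i ≤ L := fun i => hqL (some i)
  have hLsup : L = F ⊔ ⨆ i, cq G Z C i := by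
    rw [hL, iSup_option, hF]
    rfl
  have htopE : (⨆ o, fam Z C o) = ⊤ := by
    rw [iSup_option]
    exact hsup
  have hKL : fixedField G ≤ L := by
    intro x hx
    have h1 := many_inv G (fam Z C) hst Finset.univ (x := x)
      (by simp only [Finset.mem_univ, iSup_pos]; rw [htopE]; trivial)
      (fun o _ g hg => hx ⟨g, only_le _ _ _ hg⟩)
    simp only [Finset.mem_univ, iSup_pos] at h1
    rw [hL]
    exact h1
  -- stability
  have hstq : ∀ o, ∀ g ∈ G, ∀ z ∈ quo G (fam Z C) o, g z ∈ quo G (fam Z C) o := by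
    intro o g hg z hz
    refine ⟨hst o g hg z hz.1, ?_⟩
    rintro ⟨s, hs⟩
    obtain ⟨hsG, hs'⟩ := mem_only.1 hs
    have h1 : g⁻¹ * s * g ∈ only G (fam Z C) o := by
      refine mem_only.2 ⟨G.mul_mem (G.mul_mem (G.inv_mem hg) hsG) hg, fun o' ho' x hx => ?_⟩
      change g⁻¹ (s (g x)) = x
      rw [hs' o' ho' _ (hst o' g hg x hx)]
      change (g⁻¹ * g) x = x
      rw [inv_mul_cancel]
      rfl
    have h2 : (g⁻¹ * s * g) z = z := hz.2 ⟨_, h1⟩
    change g⁻¹ (s (g z)) = z at h2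
    have h3 : g (g⁻¹ (s (g z))) = g z := congrArg g h2
    change (g * g⁻¹) (s (g z)) = g z at h3
    rw [mul_inv_cancel] at h3
    exact h3
  have hstL : ∀ g ∈ G, ∀ z ∈ L, g z ∈ L := by
    intro g hg
    rw [hL]
    exact iSup_stable fun o => hstq o g hg
  -- elements which are trivial on the quotients are trivial on `L`
  have htrivL : ∀ g ∈ G, (∀ o, ∀ z ∈ quo G (fam Z C) o, g z = z) → ∀ z ∈ L, g z = z := by
    intro g hg hgz z hz
    rw [hL] at hz
    exact (iSup_le fun o => le_fix_zpowers (hgz o) :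
      (⨆ o, quo G (fam Z C) o) ≤ fixedField (Subgroup.zpowers g)) hz ⟨g, Subgroup.mem_zpowers g⟩
  have hHL : ∀ g ∈ H, ∀ z ∈ L, g z = z := by
    intro g hg
    rw [hH] at hg
    refine htrivL g (only_le _ _ _ hg) fun o z hz => ?_
    by_cases ho : o = none
    · subst ho
      exact hz.2 ⟨g, hg⟩
    · exact (mem_only.1 hg).2 o ho z hz.1
  -- numerical data
  obtain ⟨htF, hessF⟩ := trdeg_inf H Z (fun g hg => hstZ g (hHG hg)) hZ hessZ
  rw [← hF'] at htF hessF
  have hFFq : ∀ i, IsFF ℂ (cq G Z C i) := by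
    intro i
    have hle := only_le G (fam Z C) (some i)
    have hfin : Finite ↥(only G (fam Z C) (some i)) := Finite.of_injective
      (Subgroup.inclusion hle) (Subgroup.inclusion_injective hle)
    exact isFF_inf (only G (fam Z C) (some i)) (C i) (fun g hg => hstC i g (hle hg))
  have hessL : Algebra.EssFiniteType ℂ L := by
    rw [hLsup]
    exact essFiniteType_iff.2 (fg_sup (essFiniteType_iff.1 hessF)
      (fg_iSup fun i => essFiniteType_iff.1 (IsFF.ess)))
  have halgL : Algebra.IsAlgebraic L M := by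
    have h1 := Pool.Agent.W721.PG.EFF2.alg_fixed G
    let _ : Algebra (fixedField G) L := (inclusion hKL).toRingHom.toAlgebra
    have t1 : IsScalarTower (fixedField G) L M := IsScalarTower.of_algebraMap_eq fun c => rfl
    exact Algebra.IsAlgebraic.tower_top (K := fixedField G) L
  obtain ⟨htL, -⟩ := Pool.Agent.W721.PG.EFF2.exists_basis L (d + q) hn
  -- the group
  let Γ : Subgroup (L ≃ₐ[ℂ] L) := (rho G L hstL).range
  have hfΓ : Finite Γ := Finite.of_surjective _ (MonoidHom.rangeRestrict_surjective _)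
  let F1 : IntermediateField ℂ L := restrict hFL
  let C1 : Fin q → IntermediateField ℂ L := fun i => restrict (hCL i)
  have hlift : lift (fixedField Γ) = fixedField G := by
    rw [lift_fixed G L hstL]
    exact inf_eq_right.2 hKL
  have hval : ∀ (g : G) (z : L), ((rho G L hstL g z : L) : M) = (g : M ≃ₐ[ℂ] M) z :=
    fun g z => rfl
  have htriv1 : ∀ g : G, (∀ i, ∀ z ∈ cq G Z C i, (g : M ≃ₐ[ℂ] M) z = z) →
      rho G L hstL g = 1 := by
    intro g hg
    have h1 := faith G (fam Z C) hst none g.2 (by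
      intro o ho z hz
      cases o with
      | none => exact absurd rfl ho
      | some i => exact hg i z hz)
    apply AlgEquiv.ext
    intro z
    exact Subtype.ext (htrivL g g.2 h1 z z.2)
  have htriv2 : ∀ g : G, rho G L hstL g = 1 → ∀ z ∈ L, (g : M ≃ₐ[ℂ] M) z = z := by
    intro g hg z hz
    rw [← hval g ⟨z, hz⟩, hg]
    rfl
  have hfF : ∀ g ∈ Γ, (∀ i, ∀ z ∈ C1 i, g z = z) → g = 1 := by
    rintro _ ⟨g, rfl⟩ hg
    refine htriv1 g fun i z hz => ?_
    exact congrArg (Subtype.val : L → M)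
      (hg i ⟨z, hCL i hz⟩ ((mem_restrict (hCL i) _).2 hz))
  have hsup1 : F1 ⊔ ⨆ i, C1 i = ⊤ := by
    apply lift_injective L
    rw [lift_sup, lift_top]
    have h1 : lift (⨆ j, C1 j) = ⨆ j, lift (C1 j) := by
      unfold IntermediateField.lift
      rw [IntermediateField.map_iSup]
    rw [h1, lift_restrict]
    simp only [C1, lift_restrict]
    exact hLsup.symm
  have hFF1 : ∀ i, IsFF ℂ (C1 i) := fun i => isFF_iso (restrictAlgEquiv (hCL i)).symm (hFFq i)
  have hessF1 : Algebra.EssFiniteType ℂ F1 :=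
    (Algebra.EssFiniteType.iff_of_algEquiv (restrictAlgEquiv hFL)).1 hessF
  have htF1 : Algebra.trdeg ℂ F1 = d := by
    rw [← htF]
    exact ((restrictAlgEquiv hFL).trdeg_eq).symm
  -- the isomorphisms
  let φ : ∀ i, cq G Z C i ≃ₐ[ℂ] C1 i := fun i => restrictAlgEquiv (hCL i)
  have hB : ∀ i, lift (C1 i ⊓ fixedField Γ) = C i ⊓ fixedField G := by
    intro i
    rw [lift_inf, hlift, lift_restrict]
    apply le_antisymm
    · exact le_inf (inf_le_left.trans inf_le_left) inf_le_right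
    · exact le_inf (cq_ge G Z C i) inf_le_right
  let ψ : ∀ i, ↥(C i ⊓ fixedField G) ≃ₐ[ℂ] ↥(C1 i ⊓ fixedField Γ) := fun i =>
    ((liftAlgEquiv (C1 i ⊓ fixedField Γ)).trans (equivOfEq (hB i))).symm
  have hφ : ∀ i (z : cq G Z C i), (((φ i z : C1 i) : L) : M) = z := fun i z => rfl
  have hψ : ∀ i (z : ↥(C i ⊓ fixedField G)),
      (((ψ i z : ↥(C1 i ⊓ fixedField Γ)) : L) : M) = z := by
    intro i z
    have h1 : (ψ i).symm (ψ i z) = z := (ψ i).symm_apply_apply z
    have h2 : ∀ x : ↥(C1 i ⊓ fixedField Γ), (((ψ i).symm x : ↥(C i ⊓ fixedField G)) : M) =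
        ((x : L) : M) := fun x => rfl
    rw [← h2, h1]
  have hFFB : ∀ i, IsFF ℂ ↥(C i ⊓ fixedField G) := fun i => isFF_quo (C i) G (hstC i)
  have hstC1 : ∀ i, ∀ g ∈ Γ, ∀ z ∈ C1 i, g z ∈ C1 i := by
    rintro i _ ⟨g, rfl⟩ z hz
    exact (mem_restrict (hCL i) _).2 (hstq (some i) g g.2 z ((mem_restrict (hCL i) _).1 hz))
  have hFFB1 : ∀ i, IsFF ℂ ↥(C1 i ⊓ fixedField Γ) := fun i => isFF_quo (C1 i) Γ (hstC1 i)
  have hover : ∀ i (w : Place ℂ (C1 i)) (p : Place ℂ ↥(C1 i ⊓ fixedField Γ)) (r : ℕ),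
      LiesOver (inf_le_left : C1 i ⊓ fixedField Γ ≤ C1 i) w p r →
        LiesOver (cq_ge G Z C i) (pullP (φ i) w) (pullP (ψ i) p) r := by
    intro i w p r hw
    refine ⟨hw.1, fun f => ?_⟩
    rw [pullP_ord, pullP_ord, ← hw.2]
    have h1 : φ i (inclusion (cq_ge G Z C i) f) =
        inclusion (inf_le_left : C1 i ⊓ fixedField Γ ≤ C1 i) (ψ i f) :=
      Subtype.ext (Subtype.ext (hψ i f).symm)
    rw [h1]
  have hmain := stepW F1 C1 Γ
    (by
      rintro _ ⟨g, rfl⟩ z hz
      refine (mem_restrict hFL _).2 ?_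
      rw [hF]
      exact hstq none g g.2 z (by
        have := (mem_restrict hFL _).1 hz
        rwa [hF] at this))
    hstC1 hfF hsup1 htL htF1 hessF1 hessL (fun i p => δ i (pullP (ψ i) p)) (fun i p => hδ i _)
    (fun i w p r hw => hbr i _ _ r (hover i w p r hw)) ?_ ?_
    (good_iso (restrictAlgEquiv hFL).symm hessF1 htF1 h)
  · have halgG := Pool.Agent.W721.PG.EFF2.alg_fixed G
    obtain ⟨htK, -⟩ := Pool.Agent.W721.PG.EFF2.exists_basis (fixedField G) (d + q) hn
    have hessM : Algebra.EssFiniteType ℂ M := by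
      have h1 : Algebra.EssFiniteType ℂ ↥(Z ⊔ ⨆ i, C i) := essFiniteType_iff.2
        (fg_sup (essFiniteType_iff.1 hessZ) (fg_iSup fun i => essFiniteType_iff.1 (IsFF.ess)))
      rw [hsup] at h1
      exact (Algebra.EssFiniteType.iff_of_algEquiv (topEquiv (F := ℂ) (E := M))).1 h1
    have hfin : FiniteDimensional (fixedField G) M := fixed_finite G
    have hessK : Algebra.EssFiniteType ℂ (fixedField G) := Pool.Agent.TH466.QG.ess_below (K := M)
    exact good_iso ((liftAlgEquiv (fixedField Γ)).trans (equivOfEq hlift)).symm hessK htK hmain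
  · -- the weighted criterion
    intro g1 hg1 hg1ne ζ hζ w p r a hw ha hrot
    have key : ∀ g : G, rho G L hstL g = g1 →
        (orderOf g1 : ℚ) ≤ ∑ i, r i * (1 - δ i (pullP (ψ i) (p i))) * a i ∨
        ((∃ z ∈ Z, (g : M ≃ₐ[ℂ] M) z ≠ z) ∧
          (orderOf g1 : ℚ) ≤ ∑ i, r i * (1 - δ i (pullP (ψ i) (p i))) * a i + 1) := by
      intro g hgg1
      have hpos : 0 < orderOf g1 := by
        rw [← hgg1]
        exact ((rho G L hstL).isOfFinOrder (isOfFinOrder_of_finite g)).orderOf_pos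
      have hne1 : orderOf g1 ≠ 1 := fun h => hg1ne (orderOf_eq_one_iff.1 h)
      refine hage g g.2 (orderOf g1) (by omega) (fun m => ?_) ζ hζ (fun i => pullP (φ i) (w i))
        (fun i => pullP (ψ i) (p i)) r a (fun i => hover i _ _ _ (hw i)) ha ?_
      · rw [orderOf_dvd_iff_pow_eq_one, ← hgg1, ← map_pow]
        constructor
        · intro h1
          exact htriv1 (g ^ m) h1
        · intro h1 i z hz
          exact htriv2 (g ^ m) h1 z (hCL i hz)
      · intro i t z ht hz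
        have h1 := hrot i (φ i t) (φ i z) ht (by
          apply Subtype.ext
          rw [← hgg1]
          exact hz)
        have h2 : φ i z - algebraMap ℂ (C1 i) (ζ ^ a i) * φ i t =
            φ i (z - algebraMap ℂ (cq G Z C i) (ζ ^ a i) * t) := by
          rw [map_sub, map_mul, AlgEquiv.commutes]
        rw [h2] at h1
        rcases h1 with h1 | h1
        · left
          exact (map_eq_zero _).1 h1
        · right
          exact h1
    obtain ⟨g, hgg1⟩ := hg1
    by_cases hF1 : ∃ z ∈ F1, g1 z ≠ z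
    · rcases key g hgg1 with h1 | ⟨-, h1⟩
      · exact Or.inl h1
      · exact Or.inr ⟨hF1, h1⟩
    · left
      push Not at hF1
      obtain ⟨s, hs, hs'⟩ := gal H Z (fun g hg => hstZ g (hHG hg)) g (hstZ g g.2) (by
        intro z hz
        rw [← hF'] at hz
        have h1 := hF1 ⟨z, hFL hz⟩ ((mem_restrict hFL _).2 hz)
        rw [← hgg1] at h1
        exact congrArg (Subtype.val : L → M) h1)
      have hsG := hHG hs
      have h1 : rho G L hstL (⟨s, hsG⟩⁻¹ * g) = g1 := by
        rw [map_mul, map_inv, hgg1]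
        have h2 : rho G L hstL ⟨s, hsG⟩ = 1 := by
          apply AlgEquiv.ext
          intro z
          exact Subtype.ext (hHL s hs z z.2)
        rw [h2, inv_one, one_mul]
      rcases key _ h1 with h2 | ⟨⟨z, hzZ, hz⟩, -⟩
      · exact h2
      · exfalso
        apply hz
        change s⁻¹ ((g : M ≃ₐ[ℂ] M) z) = z
        rw [hs' z hzZ]
        change (s⁻¹ * s) z = z
        rw [inv_mul_cancel]
        rfl
  · -- the degrees
    intro i
    obtain ⟨T, hT, hT'⟩ := hdeg i
    refine ⟨T.image (pullP (ψ i).symm), fun p hp => ?_, ?_⟩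
    · apply hT
      intro h1
      apply hp
      rw [Finset.mem_image]
      exact ⟨_, h1, pullP_symm (ψ i) p⟩
    · have h1 : ∑ p ∈ T.image (pullP (ψ i).symm), δ i (pullP (ψ i) p) = ∑ p ∈ T, δ i p := by
        rw [Finset.sum_image (fun a _ b _ h => pullP_inj _ h)]
        refine Finset.sum_congr rfl fun p _ => ?_
        rw [pullP_symm' (ψ i) p]
      rw [h1, canDeg_iso (ψ i), canDeg_iso (φ i)]
      exact hT'

end

end Pool.Agent.K4H25.GW

end

section

/-!
`κ = ν` for the quotients of products of curves: the weighted criterion.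
-/

set_option autoImplicit false
set_option linter.overlappingInstances false
set_option linter.unusedSectionVars false
set_option linter.unusedVariables false
set_option linter.unusedSimpArgs false
set_option maxHeartbeats 4000000
set_option synthInstance.maxHeartbeats 400000

open FF IntermediateField Pool.Agent.W619.PQ Pool.Agent.W619.PL Pool.Agent.W619.TW
  Pool.Agent.W603.LV Pool.Agent.Y174 Pool.Agent.R885.N Pool.Agent.K4H25.GQ

namespace Pool.Agent.K4H25.GW

section

variable {M : Type} [Field M] [Algebra ℂ M] {q : ℕ}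

/-- The quotient of the curve `C i` by the group of the elements of `G` which are trivial on `Z` and
on the other curves. -/
noncomputable def red (G : Subgroup (M ≃ₐ[ℂ] M)) (Z : IntermediateField ℂ M)
    (C : Fin q → IntermediateField ℂ M) (i : Fin q) : IntermediateField ℂ M :=
  C i ⊓ fixedField (G ⊓ (Z ⊔ ⨆ j : {j // j ≠ i}, C j).fixingSubgroup)

theorem red_eq (G : Subgroup (M ≃ₐ[ℂ] M)) (Z : IntermediateField ℂ M)
    (C : Fin q → IntermediateField ℂ M) (i : Fin q) : red G Z C i = cq G Z C i := by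
  unfold red cq quo
  congr 2
  ext g
  rw [mem_only]
  constructor
  · rintro ⟨h1, h2⟩
    refine ⟨h1, fun o ho z hz => ?_⟩
    cases o with
    | none => exact mem_fixer.1 h2 z ((le_sup_left : Z ≤ _) hz)
    | some j =>
      have hj : j ≠ i := fun h => ho (by rw [h])
      exact mem_fixer.1 h2 z (((le_iSup (fun j : {j // j ≠ i} => C j) ⟨j, hj⟩).trans
        le_sup_right) hz)
  · rintro ⟨h1, h2⟩
    refine ⟨h1, mem_fixer.2 fun z hz => ?_⟩
    have h3 : Z ⊔ ⨆ j : {j // j ≠ i}, C j ≤ fixedField (Subgroup.zpowers g) :=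
      sup_le (le_fix_zpowers (h2 none (by simp))) (iSup_le fun j =>
        le_fix_zpowers (h2 (some j.1) (by
          intro h
          exact j.2 (Option.some_injective _ h))))
    exact h3 hz ⟨g, Subgroup.mem_zpowers g⟩

theorem red_ge (G : Subgroup (M ≃ₐ[ℂ] M)) (Z : IntermediateField ℂ M)
    (C : Fin q → IntermediateField ℂ M) (i : Fin q) : C i ⊓ fixedField G ≤ red G Z C i :=
  inf_le_inf le_rfl fun z hz g => hz ⟨g, g.2.1⟩

/-- The weighted criterion, for a family of curves `C'` which is equal to the family of the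
quotients by the elements which act only on one curve. -/
def WAgeR (G : Subgroup (M ≃ₐ[ℂ] M)) (Z : IntermediateField ℂ M)
    (C C' : Fin q → IntermediateField ℂ M) (hC' : ∀ i, C i ⊓ fixedField G ≤ C' i)
    (δ : ∀ i, Place ℂ ↥(C i ⊓ fixedField G) → ℚ) : Prop :=
  ∀ g ∈ G, ∀ e : ℕ, 1 < e → (∀ m : ℕ, (∀ i, ∀ z ∈ C' i, (g ^ m) z = z) ↔ e ∣ m) →
    ∀ ζ : ℂ, IsPrimitiveRoot ζ e →
    ∀ (w : ∀ i, Place ℂ (C' i)) (p : ∀ i, Place ℂ ↥(C i ⊓ fixedField G)) (r a : Fin q → ℕ),
      (∀ i, LiesOver (hC' i) (w i) (p i) (r i)) →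
      (∀ i, a i < e) → (∀ i, Rotates (C' i) g (w i) (ζ ^ a i)) →
      (e : ℚ) ≤ ∑ i, r i * (1 - δ i (p i)) * a i ∨
        ((∃ z ∈ Z, g z ≠ z) ∧ (e : ℚ) ≤ ∑ i, r i * (1 - δ i (p i)) * a i + 1)

theorem glueW' {d : ℕ} (hn : Algebra.trdeg ℂ M = (d + q : ℕ)) (Z : IntermediateField ℂ M)
    (C : Fin q → IntermediateField ℂ M) (hZ : Algebra.trdeg ℂ Z = d)
    (hessZ : Algebra.EssFiniteType ℂ Z) [hC : ∀ i, IsFF ℂ (C i)] (hsup : Z ⊔ ⨆ i, C i = ⊤)
    (G : Subgroup (M ≃ₐ[ℂ] M)) [Finite G]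
    (hstZ : ∀ g ∈ G, ∀ z ∈ Z, g z ∈ Z) (hstC : ∀ i, ∀ g ∈ G, ∀ z ∈ C i, g z ∈ C i)
    (C' : Fin q → IntermediateField ℂ M) (hC'eq : ∀ i, C' i = cq G Z C i)
    (hC'ge : ∀ i, C i ⊓ fixedField G ≤ C' i)
    (hC' : ∀ i, IsFF ℂ (C' i))
    (δ : ∀ i, Place ℂ ↥(C i ⊓ fixedField G) → ℚ) (hδ : ∀ i p, 0 ≤ δ i p)
    (hbr : ∀ i (w : Place ℂ (C' i)) p (r : ℕ), LiesOver (hC'ge i) w p r →
      1 ≤ r * (1 - δ i p))
    (hage : WAgeR G Z C C' hC'ge δ)
    (hdeg : ∀ i, ∃ T : Finset (Place ℂ ↥(C i ⊓ fixedField G)), (∀ q, q ∉ T → δ i q = 0) ∧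
      ((0 : ℚ) < canDeg ℂ ↥(C i ⊓ fixedField G) + ∑ q ∈ T, δ i q ∨
        ((0 : ℚ) ≤ canDeg ℂ ↥(C i ⊓ fixedField G) + ∑ q ∈ T, δ i q ∧
          canDeg ℂ (C' i) = 0)))
    (h : PosB ℂ ↥(Z ⊓ fixedField (G ⊓ (⨆ i, C i).fixingSubgroup)) d (fun _ => 0) ∨
      NegB ℂ ↥(Z ⊓ fixedField (G ⊓ (⨆ i, C i).fixingSubgroup)) d (fun _ => 0)) :
    PosB ℂ (fixedField G) (d + q) (fun _ => 0) ∨ NegB ℂ (fixedField G) (d + q) (fun _ => 0) := by
  classical
  have hH : G ⊓ (⨆ i, C i).fixingSubgroup = only G (fam Z C) none := by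
    ext g
    rw [mem_only]
    constructor
    · rintro ⟨h1, h2⟩
      refine ⟨h1, fun o ho z hz => ?_⟩
      cases o with
      | none => exact absurd rfl ho
      | some j => exact mem_fixer.1 h2 z ((le_iSup C j) hz)
    · rintro ⟨h1, h2⟩
      refine ⟨h1, mem_fixer.2 fun z hz => ?_⟩
      have h3 : (⨆ i, C i) ≤ fixedField (Subgroup.zpowers g) :=
        iSup_le fun j => le_fix_zpowers (h2 (some j) (by simp))
      exact h3 hz ⟨g, Subgroup.mem_zpowers g⟩
  rw [hH] at h
  obtain rfl : C' = cq G Z C := funext hC'eq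
  refine glueW hn Z C hZ hessZ hsup G hstZ hstC δ (fun i p => ⟨hδ i p, ?_⟩) hbr hage hdeg h
  -- the coefficients are at most one
  let _ : Algebra ↥(C i ⊓ fixedField G) ↥(cq G Z C i) :=
    (inclusion (cq_ge G Z C i)).toRingHom.toAlgebra
  have t1 : IsScalarTower ℂ ↥(C i ⊓ fixedField G) ↥(cq G Z C i) :=
    IsScalarTower.of_algebraMap_eq fun c => rfl
  let _ : Algebra ↥(C i ⊓ fixedField G) (C i) :=
    (inclusion (inf_le_left : C i ⊓ fixedField G ≤ C i)).toRingHom.toAlgebra
  have t2 : IsScalarTower ℂ ↥(C i ⊓ fixedField G) (C i) :=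
    IsScalarTower.of_algebraMap_eq fun c => rfl
  let _ : Algebra ↥(cq G Z C i) (C i) :=
    (inclusion (inf_le_left : cq G Z C i ≤ C i)).toRingHom.toAlgebra
  have t3 : IsScalarTower ↥(C i ⊓ fixedField G) ↥(cq G Z C i) (C i) :=
    IsScalarTower.of_algebraMap_eq fun c => rfl
  have f1 : FiniteDimensional ↥(C i ⊓ fixedField G) (C i) :=
    inf_finite G (C i) (hstC i) fun z => rfl
  have f3 : FiniteDimensional ↥(C i ⊓ fixedField G) ↥(cq G Z C i) :=
    FiniteDimensional.left ↥(C i ⊓ fixedField G) ↥(cq G Z C i) (C i)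
  have f2 : IsFF ℂ ↥(C i ⊓ fixedField G) := isFF_quo (C i) G (hstC i)
  obtain ⟨e, w, hw⟩ := exists_place_over (E := ↥(cq G Z C i)) p
  have h1 := hbr i w p e hw
  have h2 : (0 : ℚ) < e := by exact_mod_cast hw.1
  by_contra hcon
  push Not at hcon
  nlinarith

/-- **The weighted criterion.** -/
theorem main_W {d : ℕ} (hn : Algebra.trdeg ℂ M = (d + q : ℕ))
    (A : Fin d → IntermediateField ℂ M) (C : Fin q → IntermediateField ℂ M)
    [hA : ∀ i, IsFF ℂ (A i)] [hC : ∀ i, IsFF ℂ (C i)] (hgen : (⨆ i, A i) ⊔ ⨆ i, C i = ⊤)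
    (G : Subgroup (M ≃ₐ[ℂ] M)) [Finite G]
    (hstA : ∀ g ∈ G, ∀ i, ∀ z ∈ A i, g z ∈ A i) (hstC : ∀ g ∈ G, ∀ i, ∀ z ∈ C i, g z ∈ C i)
    (hab : ∀ g ∈ G, ∀ h ∈ G, (∀ i, ∀ z ∈ C i, g z = z ∧ h z = z) →
      (∀ i, (¬ ∃ τ : M, ℂ⟮τ⟯ = A i ⊓ fixedField G) →
      (∀ z ∈ A i, g z = z) ∧ ∀ z ∈ A i, h z = z) → g * h = h * g)
    (C' : Fin q → IntermediateField ℂ M) (hC'eq : ∀ i, C' i = red G (⨆ i, A i) C i)
    (hC'ge : ∀ i, C i ⊓ fixedField G ≤ C' i) (hC' : ∀ i, IsFF ℂ (C' i))
    (δ : ∀ i, Place ℂ ↥(C i ⊓ fixedField G) → ℚ) (hδ : ∀ i p, 0 ≤ δ i p)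
    (hbr : ∀ i (w : Place ℂ (C' i)) p (r : ℕ), LiesOver (hC'ge i) w p r →
      1 ≤ r * (1 - δ i p))
    (hage : WAgeR G (⨆ i, A i) C C' hC'ge δ)
    (hdeg : ∀ i, ∃ T : Finset (Place ℂ ↥(C i ⊓ fixedField G)), (∀ q, q ∉ T → δ i q = 0) ∧
      ((0 : ℚ) < canDeg ℂ ↥(C i ⊓ fixedField G) + ∑ q ∈ T, δ i q ∨
        ((0 : ℚ) ≤ canDeg ℂ ↥(C i ⊓ fixedField G) + ∑ q ∈ T, δ i q ∧
          canDeg ℂ (C' i) = 0))) :
    PosB ℂ (fixedField G) (d + q) (fun _ => 0) ∨ NegB ℂ (fixedField G) (d + q) (fun _ => 0) := by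
  classical
  obtain ⟨Z, hZ⟩ : ∃ Z : IntermediateField ℂ M, Z = ⨆ i, A i := ⟨_, rfl⟩
  have hAZ : ∀ j, A j ≤ Z := fun j => by
    rw [hZ]
    exact le_iSup A j
  have hstZ : ∀ g ∈ G, ∀ z ∈ Z, g z ∈ Z := by
    intro g hg
    rw [hZ]
    exact iSup_stable fun j => hstA g hg j
  rw [← hZ] at hgen hage
  have hessZ : Algebra.EssFiniteType ℂ Z := by
    rw [hZ]
    exact essFiniteType_iff.2 (fg_iSup fun j => essFiniteType_iff.1 (IsFF.ess))
  -- the curves in `Z`
  let A' : Fin d → IntermediateField ℂ Z := fun j => restrict (hAZ j)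
  have hA' : ∀ j, IsFF ℂ (A' j) := fun j => isFF_iso (restrictAlgEquiv (hAZ j)).symm (hA j)
  have hgen' : ⨆ j, A' j = ⊤ := by
    apply lift_injective Z
    rw [lift_top]
    have h1 : lift (⨆ j, A' j) = ⨆ j, lift (A' j) := by
      unfold IntermediateField.lift
      rw [IntermediateField.map_iSup]
    rw [h1]
    simp only [A', lift_restrict]
    exact hZ.symm
  have htZ : Algebra.trdeg ℂ Z = (d : ℕ) := by
    have hbot : Algebra.trdeg ℂ (⊥ : IntermediateField ℂ Z) = (0 : ℕ) := by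
      have h1 : Algebra.IsAlgebraic ℂ (⊥ : IntermediateField ℂ Z) := ⟨fun x => by
        obtain ⟨c, hc⟩ := IntermediateField.mem_bot.1 x.2
        have h2 : x = algebraMap ℂ _ c := Subtype.ext hc.symm
        rw [h2]
        exact isAlgebraic_algebraMap c⟩
      rw [Nat.cast_zero]
      exact trdeg_eq_zero
    have h1 := Pool.Agent.W824.PG.trdeg_le_of_sup (⊥ : IntermediateField ℂ Z) A' hbot
      (by rw [bot_sup_eq]; exact hgen')
    rw [Nat.zero_add] at h1
    obtain ⟨m, hm⟩ := Cardinal.lt_aleph0.1 (lt_of_le_of_lt h1 Cardinal.natCast_lt_aleph0)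
    have h2 := Pool.Agent.W824.PG.trdeg_le_of_sup (d := m) Z C hm hgen
    rw [hn] at h2
    rw [hm] at h1 ⊢
    have h3 : m ≤ d := by exact_mod_cast h1
    have h4 : d + q ≤ m + q := by exact_mod_cast h2
    have h5 : m = d := by omega
    rw [h5]
  refine glueW' hn Z C htZ hessZ hgen G hstZ (fun i g hg => hstC g hg i) C'
    (fun i => by rw [hC'eq, ← hZ, red_eq]) hC'ge hC' δ hδ hbr hage hdeg ?_
  -- the quotient of `Z`
  obtain ⟨H, hH⟩ : ∃ H, H = G ⊓ (⨆ i, C i).fixingSubgroup := ⟨_, rfl⟩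
  rw [← hH]
  have hHG : H ≤ G := by rw [hH]; exact inf_le_left
  have hfH : Finite H := Finite.of_injective (Subgroup.inclusion hHG)
    (Subgroup.inclusion_injective hHG)
  have hHC : ∀ g ∈ H, ∀ i, ∀ z ∈ C i, g z = z := by
    intro g hg i z hz
    rw [hH] at hg
    exact mem_fixer.1 hg.2 z ((le_iSup C i) hz)
  have hstH : ∀ g ∈ H, ∀ z ∈ Z, g z ∈ Z := fun g hg => hstZ g (hHG hg)
  let H1 : Subgroup (Z ≃ₐ[ℂ] Z) := (rho H Z hstH).range
  have hfH1 : Finite H1 := Finite.of_surjective _ (MonoidHom.rangeRestrict_surjective _)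
  have hlift : lift (fixedField H1) = Z ⊓ fixedField H := lift_fixed H Z hstH
  have hmain := main_ind d Z A' H1 htZ hgen' (by
    rintro _ ⟨g, rfl⟩ j z hz
    exact (mem_restrict (hAZ j) _).2
      (hstA g (hHG g.2) j z ((mem_restrict (hAZ j) _).1 hz))) (by
    rintro _ ⟨g, rfl⟩ _ ⟨h, rfl⟩ hgh
    have h1 : (g : M ≃ₐ[ℂ] M) * h = h * g := by
      refine hab g (hHG g.2) h (hHG h.2) (fun i z hz => ⟨hHC g g.2 i z hz, hHC h h.2 i z hz⟩)
        fun j hl => ?_
      have h2 : ¬ ∃ τ : Z, ℂ⟮τ⟯ = A' j ⊓ fixedField H1 := by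
        intro hcon
        apply hl
        apply rat_down G H hHG (A j) (fun g hg => hstA g hg _)
        rw [rat_iff] at hcon ⊢
        have h3 : lift (A' j ⊓ fixedField H1) = A j ⊓ fixedField H := by
          rw [lift_inf, hlift, lift_restrict, ← inf_assoc]
          congr 1
          exact inf_eq_left.2 (hAZ j)
        exact rat_iso ((liftAlgEquiv (A' j ⊓ fixedField H1)).trans (equivOfEq h3)) hcon
      obtain ⟨h3, h4⟩ := hgh j h2
      exact ⟨fun z hz => congrArg (Subtype.val : Z → M)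
          (h3 ⟨z, hAZ j hz⟩ ((mem_restrict (hAZ j) _).2 hz)),
        fun z hz => congrArg (Subtype.val : Z → M)
          (h4 ⟨z, hAZ j hz⟩ ((mem_restrict (hAZ j) _).2 hz))⟩
    rw [← map_mul, ← map_mul]
    congr 1
    exact Subtype.ext h1)
  obtain ⟨h1, h2⟩ := trdeg_inf H Z hstH htZ hessZ
  exact good_iso ((liftAlgEquiv (fixedField H1)).trans (equivOfEq hlift)).symm h2 h1 hmain

end

end Pool.Agent.K4H25.GW

end
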