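import Pool.Agent.K4H25.HY.H1
import Pool.Agent.K4H25.MG.A
import Pool.Agent.W603.PV.Disc
import Pool.Agent.Y221.AH.Sum
import Pool.Agent.W619.PQ.Curve
import Pool.Agent.Y216.Point
import Pool.Agent.Y221.PB.Hgt
import Pool.Agent.R885.W5
import Pool.Agent.K4H25.MG.B

section

/-!
The criterion at the places of a curve.
-/

set_option autoImplicit false
set_option linter.overlappingInstances false
set_option linter.unusedSectionVars false
set_option linter.unusedVariables false
set_option maxHeartbeats 4000000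
set_option synthInstance.maxHeartbeats 400000

open Polynomial FF IntermediateField Pool.Agent.TH466.QG Pool.Agent.W619.PQ Pool.Agent.W619.PL
  Pool.Agent.W619.TW Pool.Agent.W603.LV Pool.Agent.K4H25.GQ Pool.Agent.K4H25.GW

namespace Pool.Agent.K4H25.HY

section

variable {k : Type} [Field k] {A B : Type} [Field A] [Field B] [Algebra k A] [Algebra k B]

/-- The place `w` lies over `v` along the embedding `φ`, with the index `e`. -/
def OverH (φ : A →ₐ[k] B) (w : Place k B) (v : Place k A) (e : ℕ) : Prop :=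
  1 ≤ e ∧ ∀ f, w.ord (φ f) = e * v.ord f

variable [CharZero k] [IsAlgClosed k]

theorem exists_overH [IsFF k A] [IsFF k B] (φ : A →ₐ[k] B) (w : Place k B) :
    ∃ e v, OverH φ w v e := by
  let _ : Algebra A B := φ.toRingHom.toAlgebra
  have t1 : IsScalarTower k A B := IsScalarTower.of_algebraMap_eq fun c => (φ.commutes c).symm
  refine ⟨Pool.Agent.W603.PV.ram A w, Pool.Agent.W603.PV.under A w,
    (Pool.Agent.W603.PV.ram_spec (F := A) w).1, fun f => ?_⟩
  exact Pool.Agent.W603.PV.ord_under w f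

theorem exists_zero_of [IsFF k A] {t : A} (ht : Transcendental k t) :
    ∃ P : Place k A, 0 < P.ord t := by
  classical
  obtain ⟨S, hS, -, hsum⟩ := zeros (k := k) (K := A) ht
  have hpos : 0 < Module.finrank k⟮t⟯ A := by
    have := IsFF.finite (k := k) ht
    exact Module.finrank_pos
  have hne : S.Nonempty := by
    rw [Finset.nonempty_iff_ne_empty]
    rintro rfl
    rw [Finset.sum_empty] at hsum
    omega
  obtain ⟨P, hP⟩ := hne
  exact ⟨P, (hS P).1 hP⟩

theorem infinite_place [IsFF k A] : Infinite (Place k A) := by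
  classical
  obtain ⟨t, ht⟩ := IsFF.exists_transcendental (k := k) (K := A)
  have h1 : ∀ c : k, Transcendental k (t - algebraMap k A c) := by
    intro c halg
    apply ht
    have := halg.add (isAlgebraic_algebraMap (R := k) (A := A) c)
    rwa [sub_add_cancel] at this
  choose P hP using fun c => exists_zero_of (h1 c)
  have hk : Infinite k := inferInstance
  refine Infinite.of_injective P fun a b hab => ?_
  by_contra hne
  have h2 := hP a
  have h3 := hP b
  rw [← hab] at h3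
  have h4 : Ge (P a) 1 (t - algebraMap k A a) := Or.inr (by omega)
  have h5 : Ge (P a) 1 (t - algebraMap k A b) := Or.inr (by omega)
  have h6 := h4.sub h5
  have h7 : t - algebraMap k A a - (t - algebraMap k A b) = algebraMap k A (b - a) := by
    rw [map_sub]
    ring
  rw [h7] at h6
  have h8 : b - a ≠ 0 := sub_ne_zero.2 (Ne.symm hne)
  rcases h6 with h6 | h6
  · exact (_root_.map_ne_zero (algebraMap k A)).2 h8 h6
  · rw [(P a).ord_const h8] at h6
    omega

end

section

variable {k : Type} [Field k] {M : Type} [Field M] [Algebra k M] {n : ℕ}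

/-- The criterion at the fixed points. -/
def HAge (C : Fin n → IntermediateField k M) (G : Subgroup (M ≃ₐ[k] M)) (α : Fin n → ℚ)
    (δ : ∀ i, Place k ↥(C i ⊓ fixedField G) → ℚ) : Prop :=
  ∀ g ∈ G, ∀ ζ : k, IsPrimitiveRoot ζ (orderOf g) →
    ∀ (w : ∀ i, Place k (C i)) (p : ∀ i, Place k ↥(C i ⊓ fixedField G)) (r c : Fin n → ℕ),
      (∀ i, LiesOver (inf_le_left : C i ⊓ fixedField G ≤ C i) (w i) (p i) (r i)) →
      (∀ i, 0 < c i) → (∀ i, Rotates (C i) g (w i) (ζ ^ c i)) →
      (∑ i, α i) * orderOf g ≤ ∑ i, α i * (r i * (1 - δ i (p i)) * c i)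

/-- general places -/
theorem general_place [CharZero k] [IsAlgClosed k] (C : IntermediateField k M) [hC : IsFF k C]
    (G : Subgroup (M ≃ₐ[k] M)) [Finite G]
    (hst : ∀ g ∈ G, ∀ z ∈ C, g z ∈ C) (T : Finset (Place k ↥(C ⊓ fixedField G))) :
    ∃ w p, LiesOver (inf_le_left : C ⊓ fixedField G ≤ C) w p 1 ∧ p ∉ T := by
  classical
  let _ : Algebra ↥(C ⊓ fixedField G) C :=
    (inclusion (inf_le_left : C ⊓ fixedField G ≤ C)).toRingHom.toAlgebra
  have t1 : IsScalarTower k ↥(C ⊓ fixedField G) C := IsScalarTower.of_algebraMap_eq fun c => rfl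
  have f1 : FiniteDimensional ↥(C ⊓ fixedField G) C := inf_finite G C hst fun z => rfl
  have f2 : IsFF k ↥(C ⊓ fixedField G) := isFF_down (E := C)
  have h1 := Pool.Agent.W603.PV.ram_finite (k := k) (F := ↥(C ⊓ fixedField G)) (L := C)
  have h2 := Pool.Agent.W603.PV.finite_over_set (k := k) (L := C) (Finset.finite_toSet T)
  have h3 : Infinite (Place k C) := infinite_place
  obtain ⟨w, hw⟩ := (h1.union h2).exists_notMem
  rw [Set.mem_union, not_or] at hw
  obtain ⟨hw1, hw2⟩ := hw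
  have hw1' : (Pool.Agent.W603.PV.ram ↥(C ⊓ fixedField G) w : ℤ) - 1 = 0 := by
    by_contra hne
    exact hw1 hne
  refine ⟨w, Pool.Agent.W603.PV.under _ w, ⟨one_pos, fun f => ?_⟩, hw2⟩
  have h4 := Pool.Agent.W603.PV.ord_under w f
  have h5 : (Pool.Agent.W603.PV.ram ↥(C ⊓ fixedField G) w : ℤ) = 1 := by omega
  rw [h5, one_mul] at h4
  rw [Nat.cast_one, one_mul]
  exact h4

/-- The criterion for some of the curves. -/
theorem HAge.sub {C : Fin n → IntermediateField k M} {G : Subgroup (M ≃ₐ[k] M)}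
    {α : Fin n → ℚ} {δ : ∀ i, Place k ↥(C i ⊓ fixedField G) → ℚ} (h : HAge C G α δ)
    (hgen : ∀ i, ∃ w p, LiesOver (inf_le_left : C i ⊓ fixedField G ≤ C i) w p 1 ∧ δ i p = 0)
    {g : M ≃ₐ[k] M} (hg : g ∈ G) (I : Finset (Fin n)) (htriv : ∀ i ∉ I, ∀ z ∈ C i, g z = z)
    {ζ : k} (hζ : IsPrimitiveRoot ζ (orderOf g)) (ho : 0 < orderOf g)
    (w : ∀ i : I, Place k (C i)) (p : ∀ i : I, Place k ↥(C i ⊓ fixedField G)) (r c : I → ℕ)
    (hp : ∀ i : I, LiesOver (inf_le_left : C i ⊓ fixedField G ≤ C i) (w i) (p i) (r i))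
    (hc : ∀ i, 0 < c i) (hrot : ∀ i : I, Rotates (C i) g (w i) (ζ ^ c i)) :
    (∑ i ∈ I, α i) * orderOf g ≤ ∑ i : I, α i * (r i * (1 - δ i (p i)) * c i) := by
  classical
  choose w0 p0 hw0 hδ0 using hgen
  obtain ⟨W, hW1, hW2⟩ : ∃ W : ∀ i, Place k (C i), (∀ i : I, W i = w i) ∧ ∀ i ∉ I, W i = w0 i :=
    ⟨fun i => if hi : i ∈ I then w ⟨i, hi⟩ else w0 i, fun i => by simp,
      fun i hi => by simp [hi]⟩
  obtain ⟨P, hP1, hP2⟩ : ∃ P : ∀ i, Place k ↥(C i ⊓ fixedField G), (∀ i : I, P i = p i) ∧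
      ∀ i ∉ I, P i = p0 i :=
    ⟨fun i => if hi : i ∈ I then p ⟨i, hi⟩ else p0 i, fun i => by simp,
      fun i hi => by simp [hi]⟩
  obtain ⟨R, hR1, hR2⟩ : ∃ R : Fin n → ℕ, (∀ i : I, R i = r i) ∧ ∀ i ∉ I, R i = 1 :=
    ⟨fun i => if hi : i ∈ I then r ⟨i, hi⟩ else 1, fun i => by simp, fun i hi => by simp [hi]⟩
  obtain ⟨c', hc1, hc2⟩ : ∃ c' : Fin n → ℕ, (∀ i : I, c' i = c i) ∧ ∀ i ∉ I, c' i = orderOf g :=
    ⟨fun i => if hi : i ∈ I then c ⟨i, hi⟩ else orderOf g, fun i => by simp,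
      fun i hi => by simp [hi]⟩
  have h1 := h g hg ζ hζ W P R c' (fun i => by
      by_cases hi : i ∈ I
      · have := hp ⟨i, hi⟩
        rw [← hW1, ← hP1, ← hR1] at this
        exact this
      · rw [hW2 i hi, hP2 i hi, hR2 i hi]
        exact hw0 i) (fun i => by
      by_cases hi : i ∈ I
      · have := hc ⟨i, hi⟩
        rw [← hc1] at this
        exact this
      · rw [hc2 i hi]
        exact ho) (fun i => by
      by_cases hi : i ∈ I
      · have := hrot ⟨i, hi⟩
        rw [← hW1, ← hc1] at this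
        exact this
      · intro t z _ hz
        left
        rw [hc2 i hi, hζ.pow_eq_one, map_one, one_mul, sub_eq_zero]
        apply Subtype.ext
        rw [← hz, htriv i hi t t.2])
  rw [← Finset.sum_add_sum_compl I, ← Finset.sum_add_sum_compl I] at h1
  have h2 : ∑ i ∈ Iᶜ, α i * ((R i : ℚ) * (1 - δ i (P i)) * c' i) =
      (∑ i ∈ Iᶜ, α i) * orderOf g := by
    rw [Finset.sum_mul]
    refine Finset.sum_congr rfl fun i hi => ?_
    have hi' := Finset.mem_compl.1 hi
    rw [hR2 i hi', hP2 i hi', hc2 i hi', hδ0]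
    norm_num
  have h4 : ∑ i ∈ I, α i * ((R i : ℚ) * (1 - δ i (P i)) * c' i) =
      ∑ i : I, α i * (r i * (1 - δ i (p i)) * c i) := by
    rw [← Finset.sum_coe_sort]
    refine Finset.sum_congr rfl fun i _ => ?_
    rw [hR1, hP1, hc1]
  rw [h2, h4] at h1
  linarith

end

section

variable {k : Type} [Field k] [CharZero k] [IsAlgClosed k] {N : Type} [Field N] [Algebra k N]

/-- the powers of a rotation -/
theorem rot_pow {w : Place k N} {σ : N ≃ₐ[k] N} {ζ : k}
    (hrot : ∀ z : N, z ≠ 0 → Ge w (w.ord z + 1) (σ z - algebraMap k N (ζ ^ w.ord z) * z))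
    (hζ : ζ ≠ 0) (z : N) (hz : z ≠ 0) (m : ℕ) :
    Ge w (w.ord z + 1) ((σ ^ m) z - algebraMap k N ((ζ ^ w.ord z) ^ m) * z) := by
  have hpres : ∀ (a : ℤ) (x : N), Ge w a x → Ge w a (σ x) := by
    intro a x hx
    by_cases hx0 : x = 0
    · left
      rw [hx0, map_zero]
    have h1 := hx.resolve_left hx0
    have h2 := (hrot x hx0).mono (show a ≤ w.ord x + 1 by omega)
    have h3 : Ge w a (algebraMap k N (ζ ^ w.ord x) * x) := by
      have h4 := (Ge.const (P := w) (ζ ^ w.ord x)).mul hx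
      exact h4.mono (by simp)
    have h5 := h2.add h3
    rwa [sub_add_cancel] at h5
  induction m with
  | zero =>
    left
    rw [pow_zero, pow_zero, map_one, one_mul]
    exact sub_self z
  | succ m ih =>
    have h1 : (σ ^ (m + 1)) z - algebraMap k N ((ζ ^ w.ord z) ^ (m + 1)) * z =
        σ ((σ ^ m) z - algebraMap k N ((ζ ^ w.ord z) ^ m) * z) +
        algebraMap k N ((ζ ^ w.ord z) ^ m) * (σ z - algebraMap k N (ζ ^ w.ord z) * z) := by
      rw [map_sub, map_mul, AlgEquiv.commutes, pow_succ' σ m, pow_succ, map_mul (algebraMap k N)]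
      change σ ((σ ^ m) z) - _ = _
      ring
    rw [h1]
    refine (hpres _ _ ih).add ?_
    have h2 := (Ge.const (P := w) ((ζ ^ w.ord z) ^ m)).mul (hrot z hz)
    exact h2.mono (by simp)

variable {M : Type} [Field M] [Algebra k M] {n : ℕ}

/-- **The criterion at a place of a curve.** -/
theorem local_ineq (Γ : Subgroup (N ≃ₐ[k] N)) [Finite Γ]
    {C : Fin n → IntermediateField k M} {G : Subgroup (M ≃ₐ[k] M)} [Finite G]
    {α : Fin n → ℚ} {δ : ∀ i, Place k ↥(C i ⊓ fixedField G) → ℚ} (h : HAge C G α δ)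
    (hgen : ∀ i, ∃ w p, LiesOver (inf_le_left : C i ⊓ fixedField G ≤ C i) w p 1 ∧ δ i p = 0)
    (I : Finset (Fin n)) (ι : ∀ i : I, C i →ₐ[k] N)
    (hσ : ∀ σ ∈ Γ, ∃ g ∈ G, (∀ i ∉ I, ∀ z ∈ C i, g z = z) ∧
      (∀ (i : I) (z z' : C i), (z' : M) = g z → ι i z' = σ (ι i z)) ∧ orderOf g ∣ orderOf σ)
    (hst : ∀ g ∈ G, ∀ i, ∀ z ∈ C i, g z ∈ C i)
    {w : Place k N} {v : Place k (fixedField Γ)} {e : ℕ} (hv : Over w v e)
    (ww : ∀ i : I, Place k (C i)) (f : I → ℕ) (hf : ∀ i, OverH (ι i) w (ww i) (f i))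
    (p : ∀ i : I, Place k ↥(C i ⊓ fixedField G)) (r : I → ℕ)
    (hp : ∀ i : I, LiesOver (inf_le_left : C i ⊓ fixedField G ≤ C i) (ww i) (p i) (r i)) :
    (∑ i ∈ I, α i) * e ≤ ∑ i : I, α i * (r i * (1 - δ i (p i)) * f i) := by
  classical
  obtain ⟨J, hJcard, hJ⟩ := inertia_at Γ hv
  obtain ⟨σ, hσJ, hord, ζ, hζ, hrot⟩ := exists_rot_generator w J hJ
  rw [hJcard] at hord hζ
  have he := hv.1
  have hζ0 : ζ ≠ 0 := hζ.ne_zero (by omega)
  obtain ⟨g, hg, htriv, hcomp, hdvd⟩ := hσ σ σ.2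
  rw [hord] at hdvd
  obtain ⟨t, ht⟩ := hdvd
  have hgo : 0 < orderOf g := by
    rcases Nat.eq_zero_or_pos (orderOf g) with h0 | h0
    · rw [h0, zero_mul] at ht
      omega
    · exact h0
  have ht0 : 0 < t := by
    rcases Nat.eq_zero_or_pos t with h0 | h0
    · rw [h0, mul_zero] at ht
      omega
    · exact h0
  -- powers
  have hpow : ∀ (i : I) (z : C i) (m : ℕ), ∃ z' : C i, (z' : M) = (g ^ m) z ∧
      ι i z' = ((σ : N ≃ₐ[k] N) ^ m) (ι i z) := by
    intro i z m
    induction m with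
    | zero => exact ⟨z, rfl, rfl⟩
    | succ m ih =>
      obtain ⟨z', h1, h2⟩ := ih
      refine ⟨⟨g z', hst g hg i z' z'.2⟩, ?_, ?_⟩
      · change g (z' : M) = _
        rw [h1, pow_succ']
        rfl
      · rw [hcomp i z' _ rfl, h2, pow_succ']
        rfl
  have hfd : ∀ i : I, t ∣ f i := by
    intro i
    obtain ⟨t0, ht00, ht01⟩ := (ww i).surj
    have h1 : w.ord (ι i t0) = f i := by
      have := (hf i).2 t0
      rw [ht01, mul_one] at this
      exact this
    have h2 : ι i t0 ≠ 0 := (_root_.map_ne_zero _).2 ht00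
    have h3 := rot_pow hrot hζ0 (ι i t0) h2 (orderOf g)
    obtain ⟨z', h4, h5⟩ := hpow i t0 (orderOf g)
    rw [pow_orderOf_eq_one] at h4
    have h6 : z' = t0 := Subtype.ext h4
    rw [h6] at h5
    rw [← h5, h1] at h3
    have h7 : ι i t0 - algebraMap k N ((ζ ^ (f i : ℤ)) ^ orderOf g) * ι i t0 =
        algebraMap k N (1 - (ζ ^ (f i : ℤ)) ^ orderOf g) * ι i t0 := by
      rw [map_sub, map_one]
      ring
    rw [h7] at h3
    have h8 : (ζ ^ (f i : ℤ)) ^ orderOf g = 1 := by
      by_contra hne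
      have h9 : (1 : k) - (ζ ^ (f i : ℤ)) ^ orderOf g ≠ 0 := sub_ne_zero.2 (Ne.symm hne)
      have h10 : algebraMap k N (1 - (ζ ^ (f i : ℤ)) ^ orderOf g) ≠ 0 := (_root_.map_ne_zero _).2 h9
      rcases h3 with h3 | h3
      · exact mul_ne_zero h10 h2 h3
      · rw [w.ord_mul h10 h2, w.ord_const h9, h1] at h3
        omega
    rw [zpow_natCast, ← pow_mul] at h8
    have h9 := (hζ.pow_eq_one_iff_dvd _).1 h8
    rw [ht, mul_comm] at h9
    exact Nat.dvd_of_mul_dvd_mul_right hgo h9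
  choose c hc using hfd
  have hc0 : ∀ i, 0 < c i := by
    intro i
    rcases Nat.eq_zero_or_pos (c i) with h0 | h0
    · have h1 := (hf i).1
      rw [hc, h0, mul_zero] at h1
      omega
    · exact h0
  have hζt : IsPrimitiveRoot (ζ ^ t) (orderOf g) := hζ.pow (by omega) (by rw [ht, mul_comm])
  have h1 := h.sub hgen hg I htriv hζt hgo ww p r c hp hc0 (by
    intro i t0 z ht01 hz
    have ht00 : t0 ≠ 0 := by
      rintro rfl
      rw [(ww i).ord_zero] at ht01
      omega
    have h1 : w.ord (ι i t0) = f i := by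
      have := (hf i).2 t0
      rw [ht01, mul_one] at this
      exact this
    have h2 : ι i t0 ≠ 0 := (_root_.map_ne_zero _).2 ht00
    have h3 := hrot (ι i t0) h2
    rw [h1, zpow_natCast, ← hcomp i t0 z hz.symm] at h3
    have h4 : (ζ ^ t) ^ c i = ζ ^ f i := by rw [← pow_mul, ← hc]
    rw [h4]
    have h5 : ι i z - algebraMap k N (ζ ^ f i) * ι i t0 =
        ι i (z - algebraMap k (C i) (ζ ^ f i) * t0) := by
      rw [map_sub, map_mul, AlgHom.commutes]
    rw [h5] at h3
    rcases h3 with h3 | h3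
    · left
      exact (map_eq_zero (ι i)).1 h3
    · right
      rw [(hf i).2] at h3
      have h6 : (1 : ℤ) ≤ f i := by exact_mod_cast (hf i).1
      by_contra hcon
      push Not at hcon
      nlinarith)
  have h2 : (∑ i ∈ I, α i) * (e : ℚ) = t * ((∑ i ∈ I, α i) * orderOf g) := by
    rw [ht]
    push_cast
    ring
  rw [h2]
  have h3 := mul_le_mul_of_nonneg_left h1 (show (0 : ℚ) ≤ t by positivity)
  refine h3.trans (le_of_eq ?_)
  rw [Finset.mul_sum]
  refine Finset.sum_congr rfl fun i _ => ?_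
  rw [hc]
  push_cast
  ring

end

end Pool.Agent.K4H25.HY

end

section

/-!
The formula of Riemann and Hurwitz for a map to a curve with weights.
-/

set_option autoImplicit false
set_option linter.overlappingInstances false
set_option linter.unusedSectionVars false
set_option linter.unusedVariables false
set_option maxHeartbeats 4000000
set_option synthInstance.maxHeartbeats 400000

open Polynomial FF IntermediateField Pool.Agent.TH466.QG Pool.Agent.W619.PQ Pool.Agent.W619.PL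
  Pool.Agent.W619.TW Pool.Agent.W603.LV Pool.Agent.K4H25.GQ Pool.Agent.K4H25.GW

namespace Pool.Agent.K4H25.HY

open Pool.Agent.W603.PV (ram under ord_under ram_spec ram_finite finite_over_set exists_ext_der
  vo_under)

theorem finite_of_ff (k : Type) [Field k] [CharZero k] {B E : Type} [Field B] [Field E]
    [Algebra k B] [Algebra k E] [Algebra B E] [IsScalarTower k B E] [IsFF k B] [IsFF k E] :
    FiniteDimensional B E := by
  obtain ⟨t, ht⟩ := IsFF.exists_transcendental (k := k) (K := B)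
  have ht' : Transcendental k (algebraMap B E t) :=
    (transcendental_algebraMap_iff (algebraMap B E).injective).2 ht
  have h1 : FiniteDimensional k⟮algebraMap B E t⟯ E := IsFF.finite ht'
  rw [← Pool.Agent.W603.PV.adjoin_algebraMap] at h1
  have h2 : Module.Finite k⟮t⟯ E := by
    refine Module.Finite.of_equiv_equiv
      (IntermediateField.equivMap (k⟮t⟯) (IsScalarTower.toAlgHom k B E)).toRingEquiv.symm
      (RingEquiv.refl E) ?_
    ext x
    obtain ⟨y, rfl⟩ := (IntermediateField.equivMap (k⟮t⟯)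
      (IsScalarTower.toAlgHom k B E)).toRingEquiv.surjective x
    simp only [RingHom.comp_apply, RingEquiv.coe_toRingHom, RingEquiv.symm_apply_apply]
    rfl
  exact Module.Finite.of_restrictScalars_finite k⟮t⟯ B E

section

variable {k : Type} [Field k] [CharZero k] [IsAlgClosed k] {B E : Type} [Field B] [Field E]
  [Algebra k B] [Algebra k E] [Algebra B E] [IsScalarTower k B E] [IsFF k B] [IsFF k E]
  [FiniteDimensional B E]

theorem sum_pull (φ : Place k B → ℚ) (T0 : Finset (Place k B)) (hT0 : ∀ q ∉ T0, φ q = 0)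
    (T : Finset (Place k E)) (hT : ∀ z, under B z ∈ T0 → z ∈ T) :
    ∑ z ∈ T, (ram B z : ℚ) * φ (under B z) = Module.finrank B E * ∑ q ∈ T0, φ q := by
  classical
  have h1 : ∑ z ∈ T, (ram B z : ℚ) * φ (under B z) =
      ∑ z ∈ T.filter (fun z => under B z ∈ T0), (ram B z : ℚ) * φ (under B z) := by
    symm
    refine Finset.sum_filter_of_ne fun z _ hz => ?_
    by_contra hcon
    exact hz (by rw [hT0 _ hcon, mul_zero])
  rw [h1, ← Finset.sum_fiberwise_of_maps_to (t := T0) (g := fun z => under B z)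
    (fun z hz => (Finset.mem_filter.1 hz).2), Finset.mul_sum]
  refine Finset.sum_congr rfl fun q hq => ?_
  obtain ⟨S, hS, hsum⟩ := Pool.Agent.Y221.AH.sum_ram (k := k) (L := E) q
  have h2 : (T.filter (fun z => under B z ∈ T0)).filter (fun z => under B z = q) = S := by
    ext z
    rw [Finset.mem_filter, Finset.mem_filter, hS]
    constructor
    · rintro ⟨-, h⟩
      exact h
    · intro h
      have h3 : under B z ∈ T0 := by rw [h]; exact hq
      exact ⟨⟨hT z h3, h3⟩, h⟩
  rw [h2]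
  have h3 : ∑ z ∈ S, (ram B z : ℚ) * φ (under B z) = (∑ z ∈ S, (ram B z : ℚ)) * φ q := by
    rw [Finset.sum_mul]
    refine Finset.sum_congr rfl fun z hz => ?_
    rw [(hS z).1 hz]
  rw [h3]
  have h4 : ∑ z ∈ S, (ram B z : ℚ) = Module.finrank B E := by exact_mod_cast hsum
  rw [h4]

/-- **The formula of Riemann and Hurwitz.** -/
theorem rh (φ : Place k B → ℚ) (T0 : Finset (Place k B)) (hT0 : ∀ q ∉ T0, φ q = 0) :
    ∃ T1 : Finset (Place k E), ∀ T : Finset (Place k E), T1 ⊆ T →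
      (Module.finrank B E : ℚ) * (canDeg k B + ∑ q ∈ T0, φ q) =
        canDeg k E + ∑ z ∈ T, (1 - (ram B z : ℚ) * (1 - φ (under B z))) := by
  classical
  obtain ⟨D, hD⟩ := exists_der (k := k) (K := B)
  have hcB : CharZero B := charZero_of_injective_algebraMap (algebraMap k B).injective
  obtain ⟨D', hDD'⟩ := exists_ext_der (k := k) (L := E) D
  have hD' : D' ≠ 0 := by
    rintro rfl
    apply hD
    ext x
    have := hDD' x
    rw [Derivation.coe_zero, Pi.zero_apply, eq_comm, map_eq_zero] at this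
    rw [this]; rfl
  refine ⟨(vo_finite hD').toFinset ∪ (finite_over_set (L := E) (vo_finite hD)).toFinset ∪
    (finite_over_set (k := k) (L := E) (Finset.finite_toSet T0)).toFinset, fun T hT => ?_⟩
  have h1 : ∀ P, vo P D' ≠ 0 → P ∈ T := fun P hP => hT (by simp [hP])
  have h2 : ∀ P : Place k E, vo (under B P) D ≠ 0 → P ∈ T := fun P hP => hT (by
    simp only [Finset.mem_union, Set.Finite.mem_toFinset]
    exact Or.inl (Or.inr hP))
  have h3 : ∀ P : Place k E, under B P ∈ T0 → P ∈ T := fun P hP => hT (by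
    simp only [Finset.mem_union, Set.Finite.mem_toFinset]
    exact Or.inr hP)
  have h4 : ∑ P ∈ T, vo P D' = - canDeg k E := canDeg_finset hD' T h1
  have h5 := sum_pull φ T0 hT0 T h3
  have h6 := sum_pull (fun q => (vo q D : ℚ)) (vo_finite hD).toFinset (fun q hq => by
    have : ¬ (vo q D ≠ 0) := fun h => hq ((Set.Finite.mem_toFinset _).2 h)
    push Not at this
    rw [this, Int.cast_zero]) T (fun z hz => h2 z ((Set.Finite.mem_toFinset _).1 hz))
  have h7 : ∑ q ∈ (vo_finite hD).toFinset, (vo q D : ℚ) = -(canDeg k B : ℚ) := by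
    have := canDeg_finset hD (vo_finite hD).toFinset fun P hP => (Set.Finite.mem_toFinset _).2 hP
    exact_mod_cast this
  have h8 : ∑ P ∈ T, (vo P D' : ℚ) = -(canDeg k E : ℚ) := by exact_mod_cast h4
  have h9 : ∑ z ∈ T, (1 - (ram B z : ℚ) * (1 - φ (under B z))) =
      ∑ z ∈ T, (vo z D' : ℚ) - ∑ z ∈ T, (ram B z : ℚ) * (vo (under B z) D : ℚ) +
        ∑ z ∈ T, (ram B z : ℚ) * φ (under B z) := by
    rw [← Finset.sum_sub_distrib, ← Finset.sum_add_distrib]
    refine Finset.sum_congr rfl fun z _ => ?_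
    rw [vo_under hD hD' hDD' z]
    push_cast
    ring
  rw [h9, h8, h6, h5, h7]
  ring

end

end Pool.Agent.K4H25.HY

end

section

/-!
The criterion for a curve.
-/

set_option autoImplicit false
set_option linter.overlappingInstances false
set_option linter.unusedSectionVars false
set_option linter.unusedVariables false
set_option maxHeartbeats 4000000
set_option synthInstance.maxHeartbeats 400000

open Polynomial FF IntermediateField Pool.Agent.TH466.QG Pool.Agent.W619.PQ Pool.Agent.W619.PL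
  Pool.Agent.W619.TW Pool.Agent.W603.LV Pool.Agent.K4H25.GQ Pool.Agent.K4H25.GW

namespace Pool.Agent.K4H25.HY

open Pool.Agent.W603.PV (ram under ord_under ram_spec)

section

variable {k : Type} [Field k] {A B : Type} [Field A] [Field B] [Algebra k A] [Algebra k B]

/-- The degree of a covering. -/
noncomputable def degH (φ : A →ₐ[k] B) : ℕ :=
  @Module.finrank A B _ _ φ.toRingHom.toAlgebra.toModule

theorem ord_uniq {p q : Place k A} {a b : ℕ} (ha : 1 ≤ a) (hb : 1 ≤ b)
    (h : ∀ f, (a : ℤ) * p.ord f = b * q.ord f) : a = b ∧ p = q := by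
  have hab : a = b := by
    apply Nat.dvd_antisymm
    · obtain ⟨f, -, hf⟩ := q.surj
      have h1 := h f
      rw [hf, mul_one] at h1
      exact Int.natCast_dvd_natCast.1 ⟨_, h1.symm⟩
    · obtain ⟨f, -, hf⟩ := p.surj
      have h1 := h f
      rw [hf, mul_one] at h1
      exact Int.natCast_dvd_natCast.1 ⟨_, h1⟩
  refine ⟨hab, Place.ext (funext fun f => ?_)⟩
  have h1 := h f
  rw [hab] at h1
  exact mul_left_cancel₀ (by exact_mod_cast (show b ≠ 0 by omega)) h1

variable [CharZero k] [IsAlgClosed k]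

theorem rhH [IsFF k A] [IsFF k B] (κ : A →ₐ[k] B) (φ : Place k A → ℚ) (T0 : Finset (Place k A))
    (hT0 : ∀ q ∉ T0, φ q = 0) : ∃ (pz : Place k B → Place k A) (kz : Place k B → ℕ),
      (∀ z, OverH κ z (pz z) (kz z)) ∧ ∃ T1 : Finset (Place k B), ∀ T, T1 ⊆ T →
        (degH κ : ℚ) * (canDeg k A + ∑ q ∈ T0, φ q) =
          canDeg k B + ∑ z ∈ T, (1 - (kz z : ℚ) * (1 - φ (pz z))) := by
  let _ : Algebra A B := κ.toRingHom.toAlgebra
  have t1 : IsScalarTower k A B := IsScalarTower.of_algebraMap_eq fun c => (κ.commutes c).symm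
  have f1 : FiniteDimensional A B := finite_of_ff k
  exact ⟨fun z => under A z, fun z => ram A z, fun z => ⟨(ram_spec (F := A) z).1, fun f =>
    ord_under z f⟩, rh φ T0 hT0⟩

end

section

variable {k : Type} [Field k] [CharZero k] [IsAlgClosed k] {N : Type} [Field N] [Algebra k N]
  {M : Type} [Field M] [Algebra k M] {n : ℕ}

/-- **The criterion for a curve.** -/
theorem global_ineq (Γ : Subgroup (N ≃ₐ[k] N)) [Finite Γ] [IsFF k N]
    {C : Fin n → IntermediateField k M} [hC : ∀ i, IsFF k (C i)]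
    {G : Subgroup (M ≃ₐ[k] M)} [Finite G]
    {α : Fin n → ℚ} {δ : ∀ i, Place k ↥(C i ⊓ fixedField G) → ℚ} (h : HAge C G α δ)
    (hst : ∀ g ∈ G, ∀ i, ∀ z ∈ C i, g z ∈ C i)
    (T0 : ∀ i, Finset (Place k ↥(C i ⊓ fixedField G))) (hT0 : ∀ i, ∀ q ∉ T0 i, δ i q = 0)
    (I : Finset (Fin n)) (ι : ∀ i : I, C i →ₐ[k] N)
    (hσ : ∀ σ ∈ Γ, ∃ g ∈ G, (∀ i ∉ I, ∀ z ∈ C i, g z = z) ∧
      (∀ (i : I) (z z' : C i), (z' : M) = g z → ι i z' = σ (ι i z)) ∧ orderOf g ∣ orderOf σ)
    (κ : ∀ i : I, ↥(C i ⊓ fixedField G) →ₐ[k] fixedField Γ)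
    (hκ : ∀ (i : I) (b : ↥(C i ⊓ fixedField G)), ((κ i b : fixedField Γ) : N) =
      ι i (inclusion (inf_le_left : C i ⊓ fixedField G ≤ C i) b)) :
    ∑ i : I, α i * ((degH (κ i) : ℚ) *
      (canDeg k ↥(C i ⊓ fixedField G) + ∑ q ∈ T0 i, δ i q)) ≤
      (∑ i ∈ I, α i) * canDeg k (fixedField Γ) := by
  classical
  have hFFB : ∀ i, IsFF k ↥(C i ⊓ fixedField G) := fun i => isFF_quo (C i) G
    (fun g hg => hst g hg i)
  have hfd : FiniteDimensional (fixedField Γ) N := fixed_finite Γ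
  have hFFE : IsFF k (fixedField Γ) := isFF_down (E := N)
  have hgen : ∀ i, ∃ w p, LiesOver (inf_le_left : C i ⊓ fixedField G ≤ C i) w p 1 ∧
      δ i p = 0 := by
    intro i
    obtain ⟨w, p, h1, h2⟩ := general_place (C i) G (fun g hg => hst g hg i) (T0 i)
    exact ⟨w, p, h1, hT0 i p h2⟩
  choose pz kz hz T1 hT1 using fun i : I => rhH (κ i) (δ i) (T0 i) (hT0 i)
  obtain ⟨T, hT⟩ : ∃ T : Finset (Place k (fixedField Γ)), ∀ i, T1 i ⊆ T :=
    ⟨Finset.univ.biUnion T1, fun i => Finset.subset_biUnion_of_mem T1 (Finset.mem_univ i)⟩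
  have h1 : ∑ i : I, α i * ((degH (κ i) : ℚ) *
      (canDeg k ↥(C i ⊓ fixedField G) + ∑ q ∈ T0 i, δ i q)) =
      ∑ i : I, (α i * (canDeg k (fixedField Γ) : ℚ) +
        ∑ z ∈ T, α i * (1 - (kz i z : ℚ) * (1 - δ i (pz i z)))) := by
    refine Finset.sum_congr rfl fun i _ => ?_
    rw [hT1 i T (hT i), mul_add, Finset.mul_sum]
  rw [h1, Finset.sum_add_distrib, Finset.sum_comm, ← Finset.sum_mul,
    Finset.sum_coe_sort I (fun i : Fin n => α i)]
  have h2 : ∑ z ∈ T, ∑ i : I, α i * (1 - (kz i z : ℚ) * (1 - δ i (pz i z))) ≤ 0 := by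
    refine Finset.sum_nonpos fun z _ => ?_
    obtain ⟨e, w, hw⟩ := exists_place_over (E := N) z
    choose f ww hf using fun i : I => exists_overH (ι i) w
    choose r p hp using fun i : I => exists_overH
      (inclusion (inf_le_left : C i ⊓ fixedField G ≤ C i)) (ww i)
    have h3 := local_ineq Γ h hgen I ι hσ hst hw ww f hf p r hp
    have h4 : ∀ i, f i * r i = e * kz i z ∧ p i = pz i z := by
      intro i
      refine ord_uniq (Nat.mul_pos (hf i).1 (hp i).1) (Nat.mul_pos hw.1 (hz i z).1) fun b => ?_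
      have h5 := (hf i).2 (inclusion (inf_le_left : C i ⊓ fixedField G ≤ C i) b)
      rw [← hκ, (hp i).2] at h5
      have h6 := hw.2 (κ i b)
      change w.ord ((κ i b : fixedField Γ) : N) = _ at h6
      rw [h6, (hz i z).2] at h5
      push_cast
      linarith
    have h5 : ∑ i : I, α i * ((r i : ℚ) * (1 - δ i (p i)) * f i) =
        e * ∑ i : I, α i * ((kz i z : ℚ) * (1 - δ i (pz i z))) := by
      rw [Finset.mul_sum]
      refine Finset.sum_congr rfl fun i _ => ?_
      obtain ⟨h6, h7⟩ := h4 i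
      rw [h7]
      have h8 : (f i : ℚ) * r i = e * kz i z := by exact_mod_cast h6
      linear_combination α i * (1 - δ i (pz i z)) * h8
    rw [h5] at h3
    have he : (0 : ℚ) < e := by exact_mod_cast hw.1
    have h6 : ∑ i ∈ I, α i ≤ ∑ i : I, α i * ((kz i z : ℚ) * (1 - δ i (pz i z))) := by
      by_contra hcon
      push Not at hcon
      nlinarith
    have h7 : ∑ i : I, α i * (1 - (kz i z : ℚ) * (1 - δ i (pz i z))) =
        ∑ i ∈ I, α i - ∑ i : I, α i * ((kz i z : ℚ) * (1 - δ i (pz i z))) := by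
      rw [← Finset.sum_coe_sort I (fun i : Fin n => α i), ← Finset.sum_sub_distrib]
      refine Finset.sum_congr rfl fun i _ => ?_
      ring
    rw [h7]
    linarith
  linarith

end

end Pool.Agent.K4H25.HY

end

section

/-!
The heights of the specializations of the functions on the curves.
-/

set_option autoImplicit false
set_option linter.overlappingInstances false
set_option linter.unusedSectionVars false
set_option linter.unusedVariables false
set_option maxHeartbeats 4000000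
set_option synthInstance.maxHeartbeats 400000

open Polynomial FF IntermediateField Pool.Agent.TH466.QG Pool.Agent.W619.PQ Pool.Agent.W619.PL
  Pool.Agent.W619.TW Pool.Agent.W603.LV Pool.Agent.K4H25.GQ Pool.Agent.K4H25.GW

namespace Pool.Agent.K4H25.HY

section

variable {k : Type} [Field k] {A B D : Type} [Field A] [Field B] [Field D] [Algebra k A]
  [Algebra k B] [Algebra k D]

theorem degH_comp (φ : A →ₐ[k] B) (ψ : B →ₐ[k] D) : degH (ψ.comp φ) = degH φ * degH ψ := by
  let _ : Algebra A B := φ.toRingHom.toAlgebra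
  let _ : Algebra B D := ψ.toRingHom.toAlgebra
  let _ : Algebra A D := (ψ.comp φ).toRingHom.toAlgebra
  have t1 : IsScalarTower A B D := IsScalarTower.of_algebraMap_eq fun c => rfl
  exact (Module.finrank_mul_finrank A B D).symm

theorem degH_pos [CharZero k] [IsFF k A] [IsFF k B] (φ : A →ₐ[k] B) : 0 < degH φ := by
  let _ : Algebra A B := φ.toRingHom.toAlgebra
  have t1 : IsScalarTower k A B := IsScalarTower.of_algebraMap_eq fun c => (φ.commutes c).symm
  have f1 : FiniteDimensional A B := finite_of_ff k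
  exact Module.finrank_pos

theorem hgt_degH [CharZero k] [IsAlgClosed k] [IsFF k A] [IsFF k B] (φ : A →ₐ[k] B) (c : A) :
    hgt k (φ c) = degH φ * hgt k c := by
  let _ : Algebra A B := φ.toRingHom.toAlgebra
  have t1 : IsScalarTower k A B := IsScalarTower.of_algebraMap_eq fun c => (φ.commutes c).symm
  exact Pool.Agent.W603.PV.hgt_algebraMap (k := k) (L := B) c

end

section

variable {k : Type} [Field k] [CharZero k] [IsAlgClosed k] {M : Type} [Field M] [Algebra k M]
  {n : ℕ}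

omit [CharZero k] [IsAlgClosed k] in
/-- an automorphism which fixes generators -/
theorem fix_adjoin {g : M ≃ₐ[k] M} {Y : Set M} {C : IntermediateField k M}
    (hY : IntermediateField.adjoin k Y = C) (h : ∀ y ∈ Y, g y = y) : ∀ z ∈ C, g z = z := by
  have h1 : C ≤ fixedField (Subgroup.zpowers g) := by
    rw [← hY, IntermediateField.adjoin_le_iff]
    intro y hy
    have h2 : Subgroup.zpowers g ≤ MulAction.stabilizer (M ≃ₐ[k] M) y :=
      (Subgroup.zpowers_le).2 (MulAction.mem_stabilizer_iff.2 (h y hy))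
    intro u
    exact MulAction.mem_stabilizer_iff.1 (h2 u.2)
  intro z hz
  exact h1 hz ⟨g, Subgroup.mem_zpowers g⟩

/-- **The heights of the specializations of the functions on the curves.** -/
theorem curve_hgt (C : Fin n → IntermediateField k M) [hC : ∀ i, IsFF k (C i)]
    (hsup : ⨆ i, C i = ⊤) (G : Subgroup (M ≃ₐ[k] M)) [Finite G]
    (hst : ∀ g ∈ G, ∀ i, ∀ z ∈ C i, g z ∈ C i)
    {α : Fin n → ℚ} (hα : ∀ i, 0 < α i)
    {δ : ∀ i, Place k ↥(C i ⊓ fixedField G) → ℚ} (h : HAge C G α δ)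
    (T0 : ∀ i, Finset (Place k ↥(C i ⊓ fixedField G))) (hT0 : ∀ i, ∀ q ∉ T0 i, δ i q = 0)
    (hdeg : ∀ i, (0 : ℚ) < canDeg k ↥(C i ⊓ fixedField G) + ∑ q ∈ T0 i, δ i q)
    (Y : ∀ i, Finset (C i))
    (hY : ∀ i, IntermediateField.adjoin k ((fun z : C i => (z : M)) '' (Y i : Set (C i))) = C i) :
    ∃ (Θ0 Θ1 : Set M) (A : ℕ), Θ0.Finite ∧ Θ1.Finite ∧ (∀ z ∈ Θ0, z ∈ fixedField G) ∧
      (∀ i, ∀ y ∈ Y i, (y : M) ∈ Θ1) ∧
      ∀ (N : Type) [Field N] [Algebra k N] [IsFF k N] (Γ : Subgroup (N ≃ₐ[k] N)) [Finite Γ]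
        (S : Sp k M N), (∀ ϑ ∈ Θ0, ∃ t ∈ fixedField Γ, S.T ϑ t) → (∀ ϑ ∈ Θ1, ∃ t, S.T ϑ t) →
        ∀ i, ∀ y ∈ Y i, ∀ y', S.T (y : M) y' → hgt k y' ≤
          A * ((Module.finrank (fixedField Γ) N : ℤ) * max (canDeg k (fixedField Γ)) 0) := by
  classical
  have iG := Fintype.ofFinite G
  have hFFB : ∀ i, IsFF k ↥(C i ⊓ fixedField G) := fun i => isFF_quo (C i) G
    (fun g hg => hst g hg i)
  -- the orbits of the generators
  obtain ⟨Z, hZ⟩ : ∃ Z : Set M, Z = ⋃ i, ⋃ g : G,
      (fun z : C i => (g : M ≃ₐ[k] M) (z : M)) '' (Y i : Set (C i)) := ⟨_, rfl⟩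
  have hZfin : Z.Finite := by
    rw [hZ]
    exact Set.finite_iUnion fun i => Set.finite_iUnion fun g => (Finset.finite_toSet _).image _
  have hZmem : ∀ i, ∀ y ∈ Y i, ∀ g ∈ G, g (y : M) ∈ Z := by
    intro i y hy g hg
    rw [hZ]
    exact Set.mem_iUnion.2 ⟨i, Set.mem_iUnion.2 ⟨⟨g, hg⟩, y, hy, rfl⟩⟩
  have hZst : ∀ z ∈ Z, ∀ g ∈ G, g z ∈ Z := by
    intro z hz g hg
    rw [hZ] at hz
    obtain ⟨i, hz⟩ := Set.mem_iUnion.1 hz
    obtain ⟨g', hz⟩ := Set.mem_iUnion.1 hz
    obtain ⟨y, hy, rfl⟩ := hz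
    exact hZmem i y hy (g * g') (G.mul_mem hg g'.2)
  have hYZ : ∀ i, ∀ y ∈ Y i, (y : M) ∈ Z := fun i y hy => hZmem i y hy 1 G.one_mem
  obtain ⟨Θ0, Θ1, h0fin, h1fin, h0G, hgal⟩ := galois_spec (k := k) G hZfin
  obtain ⟨Θ2, hΘ2⟩ : ∃ Θ2 : Set M, Θ2 = ⋃ g : G, (fun z : M => ((g : M ≃ₐ[k] M) z - z)⁻¹) '' Z :=
    ⟨_, rfl⟩
  have h2fin : Θ2.Finite := by
    rw [hΘ2]
    exact Set.finite_iUnion fun g => hZfin.image _
  have h2mem : ∀ z ∈ Z, ∀ g ∈ G, (g z - z)⁻¹ ∈ Θ2 := by
    intro z hz g hg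
    rw [hΘ2]
    exact Set.mem_iUnion.2 ⟨⟨g, hg⟩, z, hz, rfl⟩
  -- the constants
  obtain ⟨d, hd⟩ : ∃ d : Fin n → ℚ, d = fun i =>
      (canDeg k ↥(C i ⊓ fixedField G) : ℚ) + ∑ q ∈ T0 i, δ i q := ⟨_, rfl⟩
  have hd0 : ∀ i, 0 < d i := fun i => by rw [hd]; exact hdeg i
  obtain ⟨a, ha⟩ : ∃ a : Fin n → ℕ, ∀ i, (∑ j, α j) / (α i * d i) ≤ a i :=
    ⟨fun i => ⌈(∑ j, α j) / (α i * d i)⌉₊, fun i => Nat.le_ceil _⟩
  obtain ⟨b, hb⟩ : ∃ b : Fin n → ℕ, ∀ i, ∀ y ∈ Y i, hgt k y ≤ b i := by
    refine ⟨fun i => ∑ y ∈ Y i, (hgt k y).toNat, fun i y hy => ?_⟩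
    have h1 := Finset.single_le_sum (f := fun y : C i => (hgt k y).toNat)
      (fun _ _ => Nat.zero_le _) hy
    have h2 := Int.self_le_toNat (hgt k y)
    refine h2.trans ?_
    exact_mod_cast h1
  refine ⟨Θ0, Θ1 ∪ (Θ2 ∪ Z), ∑ i, a i * b i, h0fin, h1fin.union (h2fin.union hZfin), h0G,
    fun i y hy => Or.inr (Or.inr (hYZ i y hy)), ?_⟩
  intro N _ _ _ Γ _ S hS0 hS1
  have hfdN : FiniteDimensional (fixedField Γ) N := fixed_finite Γ
  have hFFE : IsFF k (fixedField Γ) := isFF_down (E := N)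
  have hZS : ∀ z ∈ Z, ∃ t, S.T z t := fun z hz => hS1 z (Or.inr (Or.inr hz))
  have hback : ∀ z ∈ Z, ∀ g ∈ G, ∀ z' : N, S.T (g z) z' → S.T z z' → g z = z := by
    intro z hz g hg z' h1 h2
    have h3 := S.sub h1 h2
    rw [sub_self] at h3
    exact sub_eq_zero.1 (S.back h3 (hS1 _ (Or.inr (Or.inl (h2mem z hz g hg)))) rfl)
  have hact : ∀ σ ∈ Γ, ∃ g ∈ G, ∀ y ∈ Z, ∀ y', S.T y y' → S.T (g y) (σ y') := by
    intro σ hσ
    refine hgal N S σ (fun ϑ hϑ => ?_) (fun ϑ hϑ => hS1 ϑ (Or.inl hϑ))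
    obtain ⟨t, ht, hst⟩ := hS0 ϑ hϑ
    exact ⟨t, hst, ht ⟨σ, hσ⟩⟩
  -- the curves on which the specialization is not constant
  obtain ⟨I, hI⟩ : ∃ I : Finset (Fin n), ∀ i, i ∈ I ↔
      ∃ y ∈ Y i, ∃ y', S.T (y : M) y' ∧ Transcendental k y' :=
    ⟨Finset.univ.filter fun i => ∃ y ∈ Y i, ∃ y', S.T (y : M) y' ∧ Transcendental k y',
      fun i => by simp⟩
  have halg : ∀ i ∉ I, ∀ y ∈ Y i, ∀ y', S.T (y : M) y' → IsAlgebraic k y' := by
    intro i hi y hy y' hyy'
    by_contra hcon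
    exact hi ((hI i).2 ⟨y, hy, y', hyy', hcon⟩)
  have hex : ∀ i : I, ∃ ι : C i →ₐ[k] N, ∀ (z : C i) (z' : N), S.T (z : M) z' → ι z = z' := by
    intro i
    obtain ⟨y, hy, y', hyy', htr⟩ := (hI i).1 i.2
    refine exists_embed S (C i) (hY i) ?_ y.2 hyy' htr
    rintro _ ⟨z, hz, rfl⟩
    exact hZS _ (hYZ i z hz)
  choose ι hι using hex
  have hσ : ∀ σ ∈ Γ, ∃ g ∈ G, (∀ i ∉ I, ∀ z ∈ C i, g z = z) ∧
      (∀ (i : I) (z z' : C i), (z' : M) = g z → ι i z' = σ (ι i z)) ∧
        orderOf g ∣ orderOf σ := by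
    intro σ hσΓ
    obtain ⟨g, hg, hgS⟩ := hact σ hσΓ
    refine ⟨g, hg, ?_, ?_, ?_⟩
    · intro i hi
      refine fix_adjoin (hY i) ?_
      rintro _ ⟨y, hy, rfl⟩
      obtain ⟨y', hy'⟩ := hZS _ (hYZ i y hy)
      have h1 := halg i hi y hy y' hy'
      obtain ⟨c, rfl⟩ := minpoly.mem_range_of_degree_eq_one k y'
        (IsAlgClosed.degree_eq_one_of_irreducible k (minpoly.irreducible h1.isIntegral))
      have h2 := hgS _ (hYZ i y hy) _ hy'
      rw [AlgEquiv.commutes] at h2
      exact hback _ (hYZ i y hy) g hg _ h2 hy'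
    · intro i z z' hz'
      have h1 : (ι i).comp ((rho G (C i) (fun g hg => hst g hg i) ⟨g, hg⟩ :
          C i ≃ₐ[k] C i) : C i →ₐ[k] C i) = (σ : N →ₐ[k] N).comp (ι i) := by
        refine algHom_ext_of_eq_adjoin k (hY i).symm ?_
        rintro _ ⟨y, hy, rfl⟩
        obtain ⟨y', hy'⟩ := hZS _ (hYZ i y hy)
        have h2 := hgS _ (hYZ i y hy) _ hy'
        have h3 := hι i y y' hy'
        have h4 := hι i (rho G (C i) (fun g hg => hst g hg i) ⟨g, hg⟩ y) (σ y') h2
        change ι i (rho G (C i) (fun g hg => hst g hg i) ⟨g, hg⟩ y) = σ (ι i y)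
        rw [h3, h4]
      have h2 := congrArg (fun φ : C i →ₐ[k] N => φ z) h1
      have h3 : z' = rho G (C i) (fun g hg => hst g hg i) ⟨g, hg⟩ z := Subtype.ext hz'
      rw [h3]
      exact h2
    · apply orderOf_dvd_of_pow_eq_one
      have h1 : ∀ m : ℕ, ∀ y ∈ Z, ∀ y', S.T y y' → S.T ((g ^ m) y) ((σ ^ m) y') := by
        intro m
        induction m with
        | zero =>
          intro y _ y' hyy'
          exact hyy'
        | succ m ih =>
          intro y hy y' hyy'
          rw [pow_succ', pow_succ']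
          exact hgS _ (hZst y hy _ (G.pow_mem hg m)) _ (ih y hy y' hyy')
      have h2 : ∀ i, ∀ z ∈ C i, (g ^ orderOf σ) z = z := by
        intro i
        refine fix_adjoin (hY i) ?_
        rintro _ ⟨y, hy, rfl⟩
        obtain ⟨y', hy'⟩ := hZS _ (hYZ i y hy)
        have h3 := h1 (orderOf σ) _ (hYZ i y hy) y' hy'
        rw [pow_orderOf_eq_one] at h3
        exact hback _ (hYZ i y hy) _ (G.pow_mem hg _) _ h3 hy'
      have h3 : (⨆ i, C i) ≤ fixedField (Subgroup.zpowers (g ^ orderOf σ)) := by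
        refine iSup_le fun i z hz => ?_
        have h4 : Subgroup.zpowers (g ^ orderOf σ) ≤ MulAction.stabilizer (M ≃ₐ[k] M) z :=
          (Subgroup.zpowers_le).2 (MulAction.mem_stabilizer_iff.2 (h2 i z hz))
        intro u
        exact MulAction.mem_stabilizer_iff.1 (h4 u.2)
      apply AlgEquiv.ext
      intro z
      have h4 : z ∈ fixedField (Subgroup.zpowers (g ^ orderOf σ)) := by
        apply h3
        rw [hsup]
        exact IntermediateField.mem_top
      exact h4 ⟨_, Subgroup.mem_zpowers _⟩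
  -- the quotients of the curves
  have hfix : ∀ (i : I) (c : ↥(C i ⊓ fixedField G)),
      ι i (inclusion (inf_le_left : C i ⊓ fixedField G ≤ C i) c) ∈ fixedField Γ := by
    rintro i c ⟨σ, hσΓ⟩
    obtain ⟨g, hg, -, h2, -⟩ := hσ σ hσΓ
    have h3 : ((inclusion (inf_le_left : C i ⊓ fixedField G ≤ C i) c : C i) : M) =
        g ((inclusion (inf_le_left : C i ⊓ fixedField G ≤ C i) c : C i) : M) :=
      (c.2.2 ⟨g, hg⟩).symm
    exact (h2 i _ _ h3).symm
  obtain ⟨κ, hκ⟩ : ∃ κ : ∀ i : I, ↥(C i ⊓ fixedField G) →ₐ[k] fixedField Γ,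
      ∀ (i : I) (b : ↥(C i ⊓ fixedField G)), ((κ i b : fixedField Γ) : N) =
        ι i (inclusion (inf_le_left : C i ⊓ fixedField G ≤ C i) b) :=
    ⟨fun i => ((ι i).comp (inclusion (inf_le_left : C i ⊓ fixedField G ≤ C i))).codRestrict
      (fixedField Γ).toSubalgebra (hfix i),
      fun i b => rfl⟩
  have hmain := global_ineq Γ h hst T0 hT0 I ι hσ κ hκ
  obtain ⟨χ, hχ⟩ : ∃ χ : ℤ, χ = max (canDeg k (fixedField Γ)) 0 := ⟨_, rfl⟩
  have hχ0 : 0 ≤ χ := by rw [hχ]; exact le_max_right _ _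
  have hχ1 : canDeg k (fixedField Γ) ≤ χ := by rw [hχ]; exact le_max_left _ _
  have hdegκ : ∀ i : I, (degH (κ i) : ℚ) ≤ a i * χ := by
    intro i
    have h1 : α i * ((degH (κ i) : ℚ) * d i) ≤ (∑ j, α j) * χ := by
      have h2 : α i * ((degH (κ i) : ℚ) * d i) ≤ ∑ j : I, α j * ((degH (κ j) : ℚ) * d j) :=
        Finset.single_le_sum (f := fun j : I => α j * ((degH (κ j) : ℚ) * d j))
          (fun j _ => mul_nonneg (hα j).le (mul_nonneg (Nat.cast_nonneg _) (hd0 j).le))
          (Finset.mem_univ i)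
      have h3 : ∑ j : I, α j * ((degH (κ j) : ℚ) * d j) ≤
          (∑ j ∈ I, α j) * canDeg k (fixedField Γ) := by
        rw [hd]
        exact hmain
      have h4 : ∑ j ∈ I, α j ≤ ∑ j, α j :=
        Finset.sum_le_sum_of_subset_of_nonneg (Finset.subset_univ I) fun j _ _ => (hα j).le
      have h5 : (canDeg k (fixedField Γ) : ℚ) ≤ χ := by exact_mod_cast hχ1
      have h6 : (0 : ℚ) ≤ χ := by exact_mod_cast hχ0
      have h7 : (0 : ℚ) ≤ ∑ j ∈ I, α j := Finset.sum_nonneg fun j _ => (hα j).le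
      nlinarith
    have h2 : 0 < α i * d i := mul_pos (hα i) (hd0 i)
    have h3 : (degH (κ i) : ℚ) ≤ (∑ j, α j) / (α i * d i) * χ := by
      rw [div_mul_eq_mul_div, le_div_iff₀ h2]
      linarith
    have h6 : (0 : ℚ) ≤ χ := by exact_mod_cast hχ0
    exact h3.trans (mul_le_mul_of_nonneg_right (ha i) h6)
  intro i y hy y' hyy'
  rw [← hχ]
  have hfr : (0 : ℤ) < Module.finrank (fixedField Γ) N := by exact_mod_cast Module.finrank_pos
  by_cases hi : i ∈ I
  · have h1 : ι ⟨i, hi⟩ y = y' := hι ⟨i, hi⟩ y y' hyy'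
    have h2 : hgt k y' = degH (ι ⟨i, hi⟩) * hgt k y := by
      rw [← h1]
      exact hgt_degH (A := C i) (ι ⟨i, hi⟩) y
    have h3 : degH ((ι ⟨i, hi⟩).comp (inclusion (inf_le_left : C i ⊓ fixedField G ≤ C i))) =
        degH ((fixedField Γ).val.comp (κ ⟨i, hi⟩)) := by
      congr 1
      apply AlgHom.ext
      intro c
      exact (hκ ⟨i, hi⟩ c).symm
    rw [degH_comp, degH_comp] at h3
    have h4 : degH (fixedField Γ).val = Module.finrank (fixedField Γ) N := rfl
    rw [h4] at h3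
    have h5 : 0 < degH (inclusion (inf_le_left : C i ⊓ fixedField G ≤ C i)) :=
      degH_pos (A := ↥(C i ⊓ fixedField G)) (B := C i) _
    have h6 : degH (ι ⟨i, hi⟩) ≤ degH (κ ⟨i, hi⟩) * Module.finrank (fixedField Γ) N := by
      rw [← h3]
      exact Nat.le_mul_of_pos_left _ h5
    have h7 : (degH (κ ⟨i, hi⟩) : ℤ) ≤ a i * χ := by exact_mod_cast hdegκ ⟨i, hi⟩
    have h8 : (degH (ι ⟨i, hi⟩) : ℤ) ≤ a i * (Module.finrank (fixedField Γ) N * χ) := by
      have h9 : (degH (ι ⟨i, hi⟩) : ℤ) ≤ degH (κ ⟨i, hi⟩) * Module.finrank (fixedField Γ) N := by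
        exact_mod_cast h6
      nlinarith
    have h9 : (0 : ℤ) ≤ Module.finrank (fixedField Γ) N * χ := mul_nonneg hfr.le hχ0
    have h10 := hb i y hy
    have h11 : 0 ≤ hgt k y := hgt_nonneg _
    have h12 : (a i * b i : ℕ) ≤ ∑ j, a j * b j :=
      Finset.single_le_sum (f := fun j => a j * b j) (fun _ _ => Nat.zero_le _)
        (Finset.mem_univ i)
    have h13 : ((a i * b i : ℕ) : ℤ) ≤ ((∑ j, a j * b j : ℕ) : ℤ) := by exact_mod_cast h12
    rw [h2]
    calc (degH (ι ⟨i, hi⟩) : ℤ) * hgt k y ≤ (a i * (Module.finrank (fixedField Γ) N * χ)) * b i :=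
          mul_le_mul h8 h10 h11 (by positivity)
      _ = ((a i * b i : ℕ) : ℤ) * (Module.finrank (fixedField Γ) N * χ) := by push_cast; ring
      _ ≤ _ := mul_le_mul_of_nonneg_right h13 h9
  · have h1 : hgt k y' = 0 := Pool.Agent.W603.PV.hgt_algebraic (halg i hi y hy y' hyy')
    rw [h1]
    positivity

end

end Pool.Agent.K4H25.HY

end

section

/-!
The bound for the degrees of the curves.
-/

set_option autoImplicit false
set_option linter.overlappingInstances false
set_option linter.unusedSectionVars false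
set_option linter.unusedVariables false
set_option maxHeartbeats 4000000
set_option synthInstance.maxHeartbeats 400000

open FF IntermediateField Pool.Agent.TH466.QG Pool.Agent.W619.PQ Pool.Agent.W619.PL
  Pool.Agent.W619.TW Pool.Agent.W603.LV Pool.Agent.K4H25.GQ Pool.Agent.K4H25.GW
open scoped TensorProduct

namespace Pool.Agent.K4H25.HY

open Pool.Agent.W602.GT (val IsForm coords)
open Pool.Agent.W603.PV (pht pht_le isFF_of_finite hgt_algebraMap)
open Pool.Agent.Y216 (OnVar CurveBound)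
open Pool.Agent.Y221.PB (alg_hgt)

/-- The compositum. -/
theorem exists_comp (k : Type) {F L M : Type} [Field k] [Field F] [Field L] [Field M] [Algebra k F]
    [Algebra k L] [Algebra k M] [Algebra F L] [Algebra F M] [IsScalarTower k F L]
    [IsScalarTower k F M] [FiniteDimensional F L] [FiniteDimensional F M] :
    ∃ (K' : Type) (_ : Field K') (_ : Algebra k K') (_ : Algebra L K') (_ : Algebra M K')
      (_ : IsScalarTower k L K') (_ : IsScalarTower k M K'),
      FiniteDimensional L K' ∧ FiniteDimensional M K' ∧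
      ∀ f : F, algebraMap L K' (algebraMap F L f) = algebraMap M K' (algebraMap F M f) := by
  obtain ⟨m, hm⟩ := Ideal.exists_maximal (L ⊗[F] M)
  obtain ⟨K', iK, q, hq⟩ : ∃ (K' : Type) (_ : Field K') (q : (L ⊗[F] M) →+* K'),
      Function.Surjective q :=
    ⟨_, Ideal.Quotient.field m, Ideal.Quotient.mk m, Ideal.Quotient.mk_surjective⟩
  let jL : L →+* K' := q.comp (Algebra.TensorProduct.includeLeft : L →ₐ[F] L ⊗[F] M).toRingHom
  let jM : M →+* K' := q.comp (Algebra.TensorProduct.includeRight : M →ₐ[F] L ⊗[F] M).toRingHom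
  let jF : F →+* K' := q.comp (algebraMap F (L ⊗[F] M))
  let _ : Algebra L K' := jL.toAlgebra
  let _ : Algebra M K' := jM.toAlgebra
  let _ : Algebra F K' := jF.toAlgebra
  let _ : Algebra k K' := (jF.comp (algebraMap k F)).toAlgebra
  have hL : ∀ f : F, jL (algebraMap F L f) = jF f := fun f =>
    congrArg q ((Algebra.TensorProduct.includeLeft : L →ₐ[F] L ⊗[F] M).commutes f)
  have hM : ∀ f : F, jM (algebraMap F M f) = jF f := fun f =>
    congrArg q ((Algebra.TensorProduct.includeRight : M →ₐ[F] L ⊗[F] M).commutes f)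
  have t1 : IsScalarTower F L K' := IsScalarTower.of_algebraMap_eq fun f => (hL f).symm
  have t2 : IsScalarTower F M K' := IsScalarTower.of_algebraMap_eq fun f => (hM f).symm
  have t3 : IsScalarTower k L K' := IsScalarTower.of_algebraMap_eq fun c => by
    rw [IsScalarTower.algebraMap_apply k F L]
    exact (hL _).symm
  have t4 : IsScalarTower k M K' := IsScalarTower.of_algebraMap_eq fun c => by
    rw [IsScalarTower.algebraMap_apply k F M]
    exact (hM _).symm
  let q' : (L ⊗[F] M) →ₗ[F] K' :=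
    { toFun := q
      map_add' := fun a b => map_add _ _ _
      map_smul' := fun c z => by
        rw [Algebra.smul_def, map_mul]
        rfl }
  have hfin : Module.Finite F (L ⊗[F] M) := inferInstance
  have f1 : Module.Finite F K' := Module.Finite.of_surjective q' hq
  exact ⟨K', iK, inferInstance, inferInstance, inferInstance, t3, t4,
    Module.Finite.of_restrictScalars_finite F L K', Module.Finite.of_restrictScalars_finite F M K',
    fun f => (hL f).trans (hM f).symm⟩

/-- The Galois closure of a covering of a curve. -/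
theorem exists_galois {k E K'' : Type} [Field k] [CharZero k] [IsAlgClosed k] [Field E]
    [Field K''] [Algebra k E] [Algebra k K''] [Algebra E K''] [IsScalarTower k E K'']
    [FiniteDimensional E K''] [IsFF k E] :
    ∃ (N : Type) (_ : Field N) (_ : Algebra k N) (_ : IsFF k N) (φ : K'' →ₐ[k] N)
      (Γ : Subgroup (N ≃ₐ[k] N)) (_ : Finite Γ), (∀ e : E, φ (algebraMap E K'' e) ∈ fixedField Γ) ∧
      canDeg k (fixedField Γ) = canDeg k E ∧
      (∀ e : E, hgt k (φ (algebraMap E K'' e)) = Module.finrank (fixedField Γ) N * hgt k e) ∧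
      0 < Module.finrank (fixedField Γ) N := by
  obtain ⟨N, iN, ikN, iEN, iKN, s1, s2, s3, hfin, Γ, hΓ, ia, s4, hfin2, hφ, hsurj⟩ :=
    Pool.Agent.R885.N.exists_closure (k := k) (K := E) (L := K'')
  have hff : IsFF k N := isFF_of_finite (F := E)
  have hfd : FiniteDimensional (fixedField Γ) N := fixed_finite Γ
  have hFFE' : IsFF k (fixedField Γ) := isFF_down (E := N)
  have hcomp : ∀ e : E, (IsScalarTower.toAlgHom k K'' N) (algebraMap E K'' e) =
      algebraMap E N e := fun e => (IsScalarTower.algebraMap_apply E K'' N e).symm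
  have hbij : Function.Bijective (algebraMap (fixedField Γ) E) :=
    ⟨(algebraMap (fixedField Γ) E).injective, hsurj⟩
  refine ⟨N, iN, ikN, hff, IsScalarTower.toAlgHom k K'' N, Γ, hΓ, fun e => ?_, ?_, fun e => ?_,
    Module.finrank_pos⟩
  · rw [hcomp]
    obtain ⟨f, rfl⟩ := hsurj e
    rw [hφ]
    exact f.2
  · exact (canDeg_iso (AlgEquiv.ofBijective (IsScalarTower.toAlgHom k (fixedField Γ) E)
      hbij)).symm
  · have hrank : Module.finrank (fixedField Γ) N = Module.finrank E N := by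
      refine Algebra.finrank_eq_of_equiv_equiv (RingEquiv.ofBijective
        (algebraMap (fixedField Γ) E) hbij) (RingEquiv.refl N) ?_
      ext f
      exact hφ f
    rw [hcomp, hgt_algebraMap (k := k), hrank]

section

variable {k : Type} [Field k] [CharZero k] [IsAlgClosed k] {M : Type} [Field M] [Algebra k M]
  {n : ℕ}

/-- **The bound for the degrees of the curves.** -/
theorem curve_bound (C : Fin n → IntermediateField k M) [hC : ∀ i, IsFF k (C i)]
    (hsup : ⨆ i, C i = ⊤) (G : Subgroup (M ≃ₐ[k] M)) [Finite G]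
    (hst : ∀ g ∈ G, ∀ i, ∀ z ∈ C i, g z ∈ C i)
    {α : Fin n → ℚ} (hα : ∀ i, 0 < α i)
    {δ : ∀ i, Place k ↥(C i ⊓ fixedField G) → ℚ} (h : HAge C G α δ)
    (T0 : ∀ i, Finset (Place k ↥(C i ⊓ fixedField G))) (hT0 : ∀ i, ∀ q ∉ T0 i, δ i q = 0)
    (hdeg : ∀ i, (0 : ℚ) < canDeg k ↥(C i ⊓ fixedField G) + ∑ q ∈ T0 i, δ i q)
    {L : Type} [Field L] [Algebra k L] [Algebra (fixedField G) L]
    [IsScalarTower k (fixedField G) L] [FiniteDimensional (fixedField G) L] {m : ℕ}
    {x : Fin (m + 1) → L} (hx : x ≠ 0) (hgenx : coords k x = ⊤) : CurveBound k x := by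
  classical
  have hfdM : FiniteDimensional (fixedField G) M := fixed_finite G
  obtain ⟨i1, hi1'⟩ := Function.ne_iff.1 hx
  have hi1 : x i1 ≠ 0 := hi1'
  -- generators of the curves
  have hex : ∀ i, ∃ Y : Finset (C i),
      IntermediateField.adjoin k ((fun z : C i => (z : M)) '' (Y : Set (C i))) = C i := by
    intro i
    obtain ⟨s, hs⟩ : (C i).FG := essFiniteType_iff.1 (IsFF.ess (k := k) (K := C i))
    have hsC : ∀ z ∈ s, z ∈ C i := fun z hz => by
      rw [← hs]
      exact IntermediateField.subset_adjoin k _ hz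
    refine ⟨s.subtype (· ∈ C i), ?_⟩
    have h1 : (fun z : C i => (z : M)) '' ((s.subtype (· ∈ C i) : Finset (C i)) : Set (C i)) =
        (s : Set M) := by
      ext z
      constructor
      · rintro ⟨y, hy, rfl⟩
        exact Finset.mem_subtype.1 hy
      · intro hz
        exact ⟨⟨z, hsC z hz⟩, Finset.mem_subtype.2 hz, rfl⟩
    rw [h1]
    exact hs
  choose Y hY using hex
  -- the generic point of the product
  obtain ⟨r, yy, hyy1, hyy2⟩ : ∃ (r : ℕ) (yy : Fin r → M), (∀ j, ∃ i, ∃ y ∈ Y i, (y : M) = yy j) ∧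
      ∀ i, ∀ y ∈ Y i, ∃ j, yy j = (y : M) := by
    obtain ⟨Z, hZ1, hZ2⟩ : ∃ Z : Finset M, (∀ z ∈ Z, ∃ i, ∃ y ∈ Y i, (y : M) = z) ∧
        ∀ i, ∀ y ∈ Y i, (y : M) ∈ Z := by
      refine ⟨Finset.univ.biUnion fun i => (Y i).image fun z : C i => (z : M), fun z hz => ?_,
        fun i y hy => ?_⟩
      · obtain ⟨i, -, h1⟩ := Finset.mem_biUnion.1 hz
        obtain ⟨y, hy, h1⟩ := Finset.mem_image.1 h1
        exact ⟨i, y, hy, h1⟩
      · exact Finset.mem_biUnion.2 ⟨i, Finset.mem_univ i, Finset.mem_image_of_mem _ hy⟩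
    refine ⟨Z.card, fun j => (Z.equivFin.symm j : M), fun j => hZ1 _ (Z.equivFin.symm j).2,
      fun i y hy => ⟨Z.equivFin ⟨_, hZ2 i y hy⟩, ?_⟩⟩
    change ((Z.equivFin.symm (Z.equivFin ⟨_, hZ2 i y hy⟩) : Z) : M) = y
    rw [Equiv.symm_apply_apply]
  obtain ⟨y, hy0, hyS⟩ : ∃ y : Fin (r + 1) → M, y 0 = 1 ∧ ∀ j : Fin r, y j.succ = yy j :=
    ⟨Fin.cons 1 yy, rfl, fun j => rfl⟩
  have hy0' : y 0 ≠ 0 := by rw [hy0]; exact one_ne_zero
  have hgeny : coords k y = ⊤ := by
    have h1 : ∀ j, y j ∈ coords k y := fun j =>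
      IntermediateField.subset_adjoin k _ ⟨j, 0, hy0', by rw [hy0, div_one]⟩
    rw [eq_top_iff, ← hsup]
    refine iSup_le fun i => ?_
    rw [← hY i, IntermediateField.adjoin_le_iff]
    rintro _ ⟨z, hz, rfl⟩
    obtain ⟨j, hj⟩ := hyy2 i z hz
    have h2 := h1 j.succ
    rw [hyS, hj] at h2
    exact h2
  obtain ⟨K', iK, ikK, iLK, iMK, t1, t2, f1, f2, hcomp⟩ := exists_comp k (F := fixedField G)
    (L := L) (M := M)
  obtain ⟨Θ0, Θ1, A, h0fin, h1fin, h0G, hY1, hcurve⟩ := curve_hgt C hsup G hst hα h T0 hT0 hdeg Y hY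
  obtain ⟨Θ2, Cst, hΘ2, halgs⟩ := alg_hgt (K' := K') hgeny hy0'
    (fun m => algebraMap L K' (x m / x i1))
  -- the coefficients
  obtain ⟨c0, hc0⟩ : ∃ c0 : M → L, ∀ ϑ ∈ Θ0, algebraMap L K' (c0 ϑ) = algebraMap M K' ϑ := by
    refine ⟨fun ϑ => if hϑ : ϑ ∈ fixedField G then algebraMap (fixedField G) L ⟨ϑ, hϑ⟩ else 0,
      fun ϑ hϑ => ?_⟩
    beta_reduce
    rw [dif_pos (h0G ϑ hϑ)]
    exact hcomp _
  obtain ⟨H1, hH1, hH1G⟩ := Pool.Agent.TH466.QG.exists_den (adjoin_norm hgenx hi1) (h0fin.image c0)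
  obtain ⟨H, hH, hspread⟩ := spread (K' := K') (adjoin_norm hgenx hi1)
    (Θ := algebraMap M K' '' (Θ0 ∪ (Θ1 ∪ Θ2))) ((h0fin.union (h1fin.union hΘ2)).image _)
  refine ⟨MvPolynomial.X i1 * hz i1 (H * H1), ?_, ?_, (m + 1) * (Cst * ((r + 1) * A)), ?_⟩
  · obtain ⟨d, hd⟩ := hz_form i1 (H * H1)
    exact ⟨1 + d, (MvPolynomial.isHomogeneous_X k i1).mul hd⟩
  · change MvPolynomial.aeval x _ ≠ 0
    rw [map_mul, MvPolynomial.aeval_X]
    refine mul_ne_zero hi1 ?_
    change val x _ ≠ 0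
    rw [val_hz _ hi1, map_mul]
    exact mul_ne_zero (pow_ne_zero _ hi1) (mul_ne_zero hH hH1)
  intro E _ _ _ z hz hzR
  change MvPolynomial.aeval z _ ≠ 0 at hzR
  rw [map_mul, MvPolynomial.aeval_X] at hzR
  have hz1 : z i1 ≠ 0 := left_ne_zero_of_mul hzR
  have hzHH : MvPolynomial.aeval (fun i => z i / z i1) (H * H1) ≠ 0 := by
    have h1 : val z (Pool.Agent.TH466.QG.hz i1 (H * H1)) ≠ 0 := right_ne_zero_of_mul hzR
    rw [val_hz _ hz1] at h1
    exact right_ne_zero_of_mul h1
  rw [map_mul] at hzHH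
  have hzH := left_ne_zero_of_mul hzHH
  have hzH1 := right_ne_zero_of_mul hzHH
  have hsp : ∀ G : MvPolynomial (Fin (m + 1)) k,
      MvPolynomial.aeval (fun i => x i / x i1) G = 0 →
      MvPolynomial.aeval (fun i => z i / z i1) G = 0 := by
    intro G hG
    have h1 : val x (Pool.Agent.TH466.QG.hz i1 G) = 0 := by
      rw [val_hz G hi1, hG, mul_zero]
    have h2 := hz.2 _ (hz_form i1 G) h1
    rw [val_hz G hz1] at h2
    exact (mul_eq_zero.1 h2).resolve_left (pow_ne_zero _ hz1)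
  obtain ⟨K'', i1', i2', i3', i4', i5', hrk, S0, hSx0, hSΘ0⟩ := hspread E
    (fun i => z i / z i1) hsp hzH
  obtain ⟨N, iN, ikN, hff, φ, Γ, hΓ, hEfix, hcan, hgtE, hrk0⟩ :=
    exists_galois (k := k) (E := E) (K'' := K'')
  obtain ⟨S, hS⟩ : ∃ S : Sp k K' N, S = mapSp S0 φ := ⟨_, rfl⟩
  have hSx : ∀ i, S.T (algebraMap L K' (x i / x i1)) (φ (algebraMap E K'' (z i / z i1))) := by
    intro i
    rw [hS]
    exact ⟨_, hSx0 i, rfl⟩
  have hSΘ : ∀ ϑ ∈ Θ0 ∪ (Θ1 ∪ Θ2), ∃ t, S.T (algebraMap M K' ϑ) t := by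
    intro ϑ hϑ
    obtain ⟨t, ht⟩ := hSΘ0 _ ⟨ϑ, hϑ, rfl⟩
    rw [hS]
    exact ⟨_, t, ht, rfl⟩
  obtain ⟨SM, hSM⟩ : ∃ SM : Sp k M N, ∀ a b, SM.T a b ↔ S.T (algebraMap M K' a) b :=
    ⟨S.res (K0 := M), fun a b => Iff.rfl⟩
  -- the coefficients are in `E`
  have hS0 : ∀ ϑ ∈ Θ0, ∃ t ∈ fixedField Γ, SM.T ϑ t := by
    intro ϑ hϑ
    obtain ⟨t, ht⟩ := hSΘ ϑ (Or.inl hϑ)
    refine ⟨t, ?_, (hSM _ _).2 ht⟩
    obtain ⟨G1, hG1⟩ := hH1G _ ⟨ϑ, hϑ, rfl⟩
    have hval : ∀ P : MvPolynomial (Fin (m + 1)) k,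
        S.T (algebraMap L K' (MvPolynomial.aeval (fun i => x i / x i1) P))
          (φ (algebraMap E K'' (MvPolynomial.aeval (fun i => z i / z i1) P))) := by
      intro P
      have h1 := S.val hSx P
      have h2 : val (fun i => algebraMap L K' (x i / x i1)) P =
          algebraMap L K' (MvPolynomial.aeval (fun i => x i / x i1) P) :=
        MvPolynomial.aeval_algebraMap_apply K' (fun i => x i / x i1) P
      have h3 : val (fun i => φ (algebraMap E K'' (z i / z i1))) P =
          φ (algebraMap E K'' (MvPolynomial.aeval (fun i => z i / z i1) P)) := by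
        have h4 : MvPolynomial.aeval (fun i => algebraMap E K'' (z i / z i1)) P =
            algebraMap E K'' (MvPolynomial.aeval (fun i => z i / z i1) P) :=
          MvPolynomial.aeval_algebraMap_apply K'' (fun i => z i / z i1) P
        rw [← h4]
        exact (MvPolynomial.comp_aeval_apply (fun i => algebraMap E K'' (z i / z i1)) φ P).symm
      rw [h2, h3] at h1
      exact h1
    have h1 := hval G1
    have h2 := S.mul ht (hval H1)
    rw [← hc0 ϑ hϑ, ← map_mul, hG1] at h2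
    have h3 := S.ext h1 h2
    have h4 : t = φ (algebraMap E K'' (MvPolynomial.aeval (fun i => z i / z i1) G1 /
        MvPolynomial.aeval (fun i => z i / z i1) H1)) := by
      have h5 : φ (algebraMap E K'' (MvPolynomial.aeval (fun i => z i / z i1) H1)) ≠ 0 :=
        (_root_.map_ne_zero φ).2 ((_root_.map_ne_zero _).2 hzH1)
      rw [map_div₀, map_div₀, h3, mul_div_cancel_right₀ _ h5]
    rw [h4]
    exact hEfix _
  have hS1 : ∀ ϑ ∈ Θ1, ∃ t, SM.T ϑ t := fun ϑ hϑ => by
    obtain ⟨t, ht⟩ := hSΘ ϑ (Or.inr (Or.inl hϑ))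
    exact ⟨t, (hSM _ _).2 ht⟩
  have hhgt := hcurve N Γ SM hS0 hS1
  rw [hcan] at hhgt
  obtain ⟨χ, hχ⟩ : ∃ χ : ℤ, χ = max (canDeg k E) 0 := ⟨_, rfl⟩
  have hχ0 : 0 ≤ χ := by rw [hχ]; exact le_max_right _ _
  rw [← hχ] at hhgt ⊢
  obtain ⟨ρ, hρ⟩ : ∃ ρ : ℤ, ρ = Module.finrank (fixedField Γ) N := ⟨_, rfl⟩
  have hρ0 : 0 < ρ := by rw [hρ]; exact_mod_cast hrk0
  rw [← hρ] at hhgt hgtE
  -- the specialization of the generic point
  have hSy : ∀ j, ∃ t, SM.T (y j) t := by
    intro j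
    refine Fin.cases ?_ (fun j => ?_) j
    · rw [hy0]
      exact ⟨1, SM.one⟩
    · rw [hyS]
      obtain ⟨i, u, hu, hu'⟩ := hyy1 j
      rw [← hu']
      exact hS1 _ (hY1 i u hu)
  choose y' hy' using hSy
  have hy'0 : y' 0 = 1 := SM.ext (by rw [← hy0]; exact hy' 0) SM.one
  have hb : ∀ j, hgt k (y' j / y' 0) ≤ A * (ρ * χ) := by
    intro j
    rw [hy'0, div_one]
    refine Fin.cases ?_ (fun j => ?_) j
    · rw [hy'0, hgt_one]
      positivity
    · obtain ⟨i, u, hu, hu'⟩ := hyy1 j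
      refine hhgt i u hu _ ?_
      rw [hu', ← hyS]
      exact hy' _
  have hpy : pht k y' ≤ (r + 1) * (A * (ρ * χ)) := by
    refine (pht_le y' (l := 0) (by rw [hy'0]; exact one_ne_zero)).trans ?_
    refine (Finset.sum_le_sum fun j _ => hb j).trans (le_of_eq ?_)
    rw [Finset.sum_const, nsmul_eq_mul, Finset.card_univ, Fintype.card_fin]
    push_cast
    ring
  have h2 : ∀ m', hgt k (φ (algebraMap E K'' (z m' / z i1))) ≤ Cst * pht k y' := fun m' =>
    halgs N S (fun ϑ hϑ => hSΘ _ (Or.inr (Or.inr hϑ))) y' (fun j => (hSM _ _).1 (hy' j)) _ hSx m'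
  have h3 : ∀ m', hgt k (z m' / z i1) ≤ Cst * ((r + 1) * (A * χ)) := by
    intro m'
    have h4 := h2 m'
    rw [hgtE] at h4
    have h5 : (Cst : ℤ) * pht k y' ≤ Cst * ((r + 1) * (A * (ρ * χ))) :=
      mul_le_mul_of_nonneg_left hpy (Nat.cast_nonneg _)
    have h6 : ρ * hgt k (z m' / z i1) ≤ ρ * (Cst * ((r + 1) * (A * χ))) := by
      refine (h4.trans h5).trans (le_of_eq ?_)
      ring
    exact le_of_mul_le_mul_left h6 hρ0
  refine (pht_le z hz1).trans ?_
  refine (Finset.sum_le_sum fun j _ => h3 j).trans (le_of_eq ?_)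
  rw [Finset.sum_const, nsmul_eq_mul, Finset.card_univ, Fintype.card_fin]
  push_cast
  ring

end

end Pool.Agent.K4H25.HY

end

section

/-!
Rotations of curves.
-/

set_option autoImplicit false
set_option linter.overlappingInstances false
set_option linter.unusedSectionVars false
set_option linter.unusedVariables false
set_option maxHeartbeats 4000000
set_option synthInstance.maxHeartbeats 400000

open FF IntermediateField Pool.Agent.W619.PQ Pool.Agent.W619.PL
  Pool.Agent.W619.TW Pool.Agent.W603.LV Pool.Agent.K4H25.GQ Pool.Agent.K4H25.GW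

namespace Pool.Agent.K4H25.HY

section

variable {k : Type} [Field k] [IsAlgClosed k] [CharZero k] {F : Type} [Field F] [Algebra k F]
  [IsFF k F]

/-- The automorphism acts on the cotangent line at the place as `θ`. -/
def RotF (g : F ≃ₐ[k] F) (w : Place k F) (θ : k) : Prop :=
  ∀ t, w.ord t = 1 → Ge w 2 (g t - algebraMap k F θ * t)

variable {g : F ≃ₐ[k] F} {w : Place k F} {θ : k}

theorem RotF.ge (h : RotF g w θ) {s : F} (hs : Ge w 1 s) :
    Ge w 2 (g s - algebraMap k F θ * s) := by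
  by_cases hs0 : s = 0
  · left
    rw [hs0, map_zero, mul_zero, sub_zero]
  have h1 := hs.resolve_left hs0
  by_cases h2 : w.ord s = 1
  · exact h s h2
  obtain ⟨t, ht0, ht⟩ := w.surj
  have h3 := w.ord_add_eq (f := t) ht0 hs0 (by omega)
  have h4 := h (t + s) (by rw [h3.2, ht])
  have h5 := h t ht
  have h6 := h4.sub h5
  have h7 : g (t + s) - algebraMap k F θ * (t + s) - (g t - algebraMap k F θ * t) =
      g s - algebraMap k F θ * s := by
    rw [map_add]
    ring
  rwa [h7] at h6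

theorem RotF.inert (h : RotF g w θ) : Inert w g := by
  intro z hz
  obtain ⟨c, hc⟩ := exists_const w hz
  have h1 : g z - z = (g (z - algebraMap k F c) - algebraMap k F θ * (z - algebraMap k F c)) +
      algebraMap k F θ * (z - algebraMap k F c) - (z - algebraMap k F c) := by
    rw [map_sub, AlgEquiv.commutes]
    ring
  rw [h1]
  have hc1 : Ge w 1 (z - algebraMap k F c) := hc
  have h2 : Ge w 1 (algebraMap k F θ * (z - algebraMap k F c)) := by
    have := (Ge.const (P := w) θ).mul hc1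
    exact this.mono (by norm_num)
  exact (((h.ge hc1).mono (by norm_num)).add h2).sub hc1

theorem const_one {c : k} (h : Ge w 1 (algebraMap k F c)) : c = 0 := by
  by_contra hc
  rcases h with h | h
  · exact (_root_.map_ne_zero (algebraMap k F)).2 hc h
  · rw [w.ord_const hc] at h
    omega

/-- invariant functions -/
theorem RotF.pow_eq_one (h : RotF g w θ) {z : F} (hz : g z = z) (hz0 : z ≠ 0) {r : ℕ}
    (hr : w.ord z = r) : θ ^ r = 1 := by
  obtain ⟨t, ht0, ht⟩ := w.surj
  have hgt0 : g t ≠ 0 := (_root_.map_ne_zero g).2 ht0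
  obtain ⟨a, ha⟩ : ∃ a, a = g t / t := ⟨_, rfl⟩
  obtain ⟨u, hu⟩ : ∃ u, u = z / t ^ r := ⟨_, rfl⟩
  have hu0 : u ≠ 0 := by
    rw [hu]
    exact div_ne_zero hz0 (pow_ne_zero _ ht0)
  have huo : w.ord u = 0 := by
    rw [hu, w.ord_div hz0 (pow_ne_zero _ ht0), w.ord_pow, hr, ht]
    ring
  have ha1 : Ge w 1 (a - algebraMap k F θ) := by
    have h1 := h t ht
    have h2 : a - algebraMap k F θ = (g t - algebraMap k F θ * t) * t⁻¹ := by
      rw [ha]
      field_simp
    rw [h2]
    have h3 : Ge w (-1) t⁻¹ := Or.inr (by rw [w.ord_inv, ht])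
    exact (h1.mul h3).mono (by norm_num)
  have ha0 : Ge w 0 a := by
    have h1 := (ha1.mono (show (0 : ℤ) ≤ 1 by norm_num)).add (Ge.const (P := w) θ)
    rwa [sub_add_cancel] at h1
  have hpow : ∀ m : ℕ, Ge w 1 (a ^ m - algebraMap k F (θ ^ m)) := by
    intro m
    induction m with
    | zero =>
      left
      rw [pow_zero, pow_zero, map_one, sub_self]
    | succ m ih =>
      have h1 : a ^ (m + 1) - algebraMap k F (θ ^ (m + 1)) =
          a ^ m * (a - algebraMap k F θ) + algebraMap k F θ * (a ^ m - algebraMap k F (θ ^ m)) := by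
        rw [pow_succ, pow_succ, map_mul]
        ring
      rw [h1]
      have h2 := (ha0.pow m).mul ha1
      have h3 := (Ge.const (P := w) θ).mul ih
      exact (h2.mono (by simp)).add (h3.mono (by simp))
  have hb : Ge w 1 (g u / u - 1) := by
    have h1 := h.inert u (Or.inr huo.ge)
    have h2 : g u / u - 1 = (g u - u) * u⁻¹ := by
      field_simp
    rw [h2]
    have h3 : Ge w 0 u⁻¹ := Or.inr (by rw [w.ord_inv, huo]; simp)
    exact (h1.mul h3).mono (by norm_num)
  have h1 : g u / u * a ^ r = 1 := by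
    rw [ha, hu, map_div₀, map_pow, hz]
    have h2 : t ^ r ≠ 0 := pow_ne_zero _ ht0
    have h3 : g t ^ r ≠ 0 := pow_ne_zero _ hgt0
    rw [div_pow]
    field_simp
  have h2 : algebraMap k F (1 - θ ^ r) =
      (g u / u - 1) * a ^ r + (a ^ r - algebraMap k F (θ ^ r)) := by
    rw [map_sub, map_one]
    linear_combination -h1
  have h3 : Ge w 1 (algebraMap k F (1 - θ ^ r)) := by
    rw [h2]
    exact ((hb.mul (ha0.pow r)).mono (by simp)).add (hpow r)
  exact (sub_eq_zero.1 (const_one h3)).symm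

/-- an automorphism of finite order which is the identity to first order -/
theorem RotF.eq_one (h : RotF g w 1) (hfin : IsOfFinOrder g) : g = 1 := by
  classical
  have hpow : ∀ m : ℕ, RotF (g ^ m) w 1 := by
    intro m
    induction m with
    | zero =>
      intro t _
      left
      rw [pow_zero, map_one, one_mul]
      exact sub_self t
    | succ m ih =>
      intro t ht
      have h1 := ih t ht
      rw [map_one, one_mul] at h1 ⊢
      have h2 := h.ge (h1.mono (by norm_num))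
      rw [map_one, one_mul] at h2
      have h3 := h t ht
      rw [map_one, one_mul] at h3
      have h4 : (g ^ (m + 1)) t - t = (g ((g ^ m) t - t) - ((g ^ m) t - t)) +
          ((g ^ m) t - t) + (g t - t) := by
        rw [pow_succ', map_sub]
        change g ((g ^ m) t) - t = _
        ring
      rw [h4]
      exact (h2.add h1).add h3
  have hΓ : Finite (Subgroup.zpowers g) := (finite_zpowers.2 hfin).to_subtype
  obtain ⟨g0, -, -, ζ, hζ, hrot⟩ := exists_rot_generator w (⊤ : Subgroup (Subgroup.zpowers g)) (by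
    rintro ⟨u, hu⟩ -
    obtain ⟨m, rfl⟩ := Submonoid.mem_powers_iff _ _ |>.1 (hfin.mem_powers_iff_mem_zpowers.2 hu)
    exact (hpow m).inert)
  obtain ⟨m, hm⟩ := Submonoid.mem_powers_iff _ _ |>.1 (hfin.mem_powers_iff_mem_zpowers.2 g0.2)
  obtain ⟨t, ht0, ht⟩ := w.surj
  have h1 := hrot t ht0
  have h2 := hpow m t ht
  rw [hm, map_one, one_mul] at h2
  rw [ht, zpow_one] at h1
  have h3 := h2.sub h1
  have h4 : (g0 : F ≃ₐ[k] F) t - t - ((g0 : F ≃ₐ[k] F) t - algebraMap k F ζ * t) =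
      algebraMap k F (ζ - 1) * t := by
    rw [map_sub, map_one]
    ring
  rw [h4] at h3
  have h5 : ζ - 1 = 0 := by
    by_contra hne
    rcases h3 with h3 | h3
    · exact mul_ne_zero ((_root_.map_ne_zero (algebraMap k F)).2 hne) ht0 h3
    · rw [w.ord_mul ((_root_.map_ne_zero (algebraMap k F)).2 hne) ht0, w.ord_const hne, ht] at h3
      omega
  have h6 : ζ = 1 := sub_eq_zero.1 h5
  rw [h6] at hζ
  have h7 : Nat.card (⊤ : Subgroup (Subgroup.zpowers g)) = 1 := by
    have := hζ.eq_orderOf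
    rw [orderOf_one] at this
    exact this
  rw [Subgroup.card_top, Nat.card_zpowers] at h7
  exact orderOf_eq_one_iff.1 h7

end

end Pool.Agent.K4H25.HY

end

section

/-!
The varieties which satisfy the criterion are of general type.
-/

set_option autoImplicit false
set_option linter.overlappingInstances false
set_option linter.unusedSectionVars false
set_option linter.unusedVariables false
set_option maxHeartbeats 4000000
set_option synthInstance.maxHeartbeats 400000

open FF IntermediateField Pool.Agent.W619.PQ Pool.Agent.W619.PL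
  Pool.Agent.W619.TW Pool.Agent.W603.LV Pool.Agent.K4H25.GQ Pool.Agent.K4H25.GW Pool.Agent.Y174

namespace Pool.Agent.K4H25.HY

section

variable {k : Type} [Field k] [CharZero k] [IsAlgClosed k] {M : Type} [Field M] [Algebra k M]
  {n : ℕ}

/-- The condition for the ramification indices. -/
theorem hage_branch {C : Fin n → IntermediateField k M} {G : Subgroup (M ≃ₐ[k] M)}
    {α : Fin n → ℚ} (hα : ∀ i, 0 < α i)
    {δ : ∀ i, Place k ↥(C i ⊓ fixedField G) → ℚ} (h : HAge C G α δ)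
    (hgen : ∀ i, ∃ w p, LiesOver (inf_le_left : C i ⊓ fixedField G ≤ C i) w p 1 ∧ δ i p = 0)
    {i : Fin n} {w : Place k (C i)} {p : Place k ↥(C i ⊓ fixedField G)} {r : ℕ}
    (hp : LiesOver (inf_le_left : C i ⊓ fixedField G ≤ C i) w p r) : 1 ≤ r * (1 - δ i p) := by
  classical
  choose w0 p0 hw0 hδ0 using hgen
  have h1 := h.sub (fun i => ⟨w0 i, p0 i, hw0 i, hδ0 i⟩) G.one_mem {i} (fun _ _ _ _ => rfl)
    (ζ := 1) (by rw [orderOf_one]; exact IsPrimitiveRoot.one) (by rw [orderOf_one]; exact one_pos)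
    (fun j => Function.update w0 i w j) (fun j => Function.update p0 i p j) (fun _ => r)
    (fun _ => 1) (by
      rintro ⟨j, hj⟩
      have hj' := Finset.mem_singleton.1 hj
      subst hj'
      rw [Function.update_self, Function.update_self]
      exact hp) (fun _ => one_pos) (by
      intro j t z _ hz
      left
      rw [pow_one, map_one, one_mul, sub_eq_zero]
      exact Subtype.ext hz.symm)
  rw [orderOf_one, Finset.sum_singleton,
    Finset.sum_coe_sort ({i} : Finset (Fin n)) (fun j : Fin n => α j *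
      ((r : ℚ) * (1 - δ j (Function.update p0 i p j)) * ((1 : ℕ) : ℚ))), Finset.sum_singleton,
    Function.update_self] at h1
  push_cast at h1
  rw [mul_one, mul_one] at h1
  have h2 := hα i
  by_contra hcon
  push Not at hcon
  nlinarith

/-- The weighted criterion of Reid and Tai. -/
theorem wage_of_hage (C : Fin n → IntermediateField k M) [hC : ∀ i, IsFF k (C i)]
    (hsup : ⨆ i, C i = ⊤) (G : Subgroup (M ≃ₐ[k] M)) [Finite G]
    (hst : ∀ g ∈ G, ∀ i, ∀ z ∈ C i, g z ∈ C i)
    {α : Fin n → ℚ} (hα : ∀ i, 0 < α i)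
    {δ : ∀ i, Place k ↥(C i ⊓ fixedField G) → ℚ} (h : HAge C G α δ)
    (hgen : ∀ i, ∃ w p, LiesOver (inf_le_left : C i ⊓ fixedField G ≤ C i) w p 1 ∧ δ i p = 0) :
    WAge (⊥ : IntermediateField k M) C G (fun i p => max (δ i p) 0) := by
  classical
  intro g hg hg1 ζ hζ w p r a hp ha hrot
  left
  have ho : 0 < orderOf g := by
    have h1 : 0 < orderOf (⟨g, hg⟩ : G) := orderOf_pos _
    rwa [Subgroup.orderOf_mk] at h1
  have hfo : IsOfFinOrder g := orderOf_pos_iff.1 ho
  have hrotF : ∀ i, RotF (rho G (C i) (fun g hg => hst g hg i) ⟨g, hg⟩) (w i) (ζ ^ a i) :=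
    fun i t ht => hrot i t _ ht rfl
  obtain ⟨I, hI⟩ : ∃ I : Finset (Fin n), ∀ i, i ∈ I ↔ ∃ z ∈ C i, g z ≠ z :=
    ⟨Finset.univ.filter fun i => ∃ z ∈ C i, g z ≠ z, fun i => by simp⟩
  have htriv : ∀ i ∉ I, ∀ z ∈ C i, g z = z := by
    intro i hi z hz
    by_contra hne
    exact hi ((hI i).2 ⟨z, hz, hne⟩)
  have ha0 : ∀ i ∈ I, 0 < a i := by
    intro i hi
    rcases Nat.eq_zero_or_pos (a i) with h0 | h0
    · exfalso
      have h1 := hrotF i
      rw [h0, pow_zero] at h1
      have h2 : IsOfFinOrder (rho G (C i) (fun g hg => hst g hg i) ⟨g, hg⟩) :=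
        MonoidHom.isOfFinOrder _ (isOfFinOrder_of_finite _)
      have h3 := h1.eq_one h2
      obtain ⟨z, hz, hne⟩ := (hI i).1 hi
      apply hne
      have h4 := congrArg (fun φ : C i ≃ₐ[k] C i => ((φ ⟨z, hz⟩ : C i) : M)) h3
      exact h4
    · exact h0
  have hne : I.Nonempty := by
    by_contra hcon
    rw [Finset.not_nonempty_iff_eq_empty] at hcon
    apply hg1
    have h3 : (⨆ i, C i) ≤ fixedField (Subgroup.zpowers g) := by
      refine iSup_le fun i z hz => ?_
      have h4 : Subgroup.zpowers g ≤ MulAction.stabilizer (M ≃ₐ[k] M) z :=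
        (Subgroup.zpowers_le).2 (MulAction.mem_stabilizer_iff.2
          (htriv i (by rw [hcon]; exact Finset.notMem_empty i) z hz))
      intro u
      exact MulAction.mem_stabilizer_iff.1 (h4 u.2)
    apply AlgEquiv.ext
    intro z
    have h4 : z ∈ fixedField (Subgroup.zpowers g) := by
      apply h3
      rw [hsup]
      exact IntermediateField.mem_top
    exact h4 ⟨_, Subgroup.mem_zpowers _⟩
  have hra : ∀ i ∈ I, (orderOf g : ℚ) ≤ r i * a i := by
    intro i hi
    obtain ⟨t, ht0, ht⟩ := (p i).surj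
    have h1 : (w i).ord (inclusion (inf_le_left : C i ⊓ fixedField G ≤ C i) t) = (r i : ℕ) := by
      rw [(hp i).2, ht, mul_one]
    have h2 := (hrotF i).pow_eq_one (z := inclusion (inf_le_left : C i ⊓ fixedField G ≤ C i) t)
      (Subtype.ext (t.2.2 ⟨g, hg⟩)) ((_root_.map_ne_zero _).2 ht0) h1
    rw [← pow_mul] at h2
    have h3 := Nat.le_of_dvd (Nat.mul_pos (ha0 i hi) (hp i).1) ((hζ.pow_eq_one_iff_dvd _).1 h2)
    have h4 : (orderOf g : ℚ) ≤ ((a i * r i : ℕ) : ℚ) := by exact_mod_cast h3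
    push_cast at h4
    linarith
  have hbr : ∀ i, 1 ≤ (r i : ℚ) * (1 - max (δ i (p i)) 0) := by
    intro i
    rcases le_total (δ i (p i)) 0 with h0 | h0
    · rw [max_eq_right h0]
      have := (hp i).1
      have h1 : (1 : ℚ) ≤ r i := by exact_mod_cast this
      linarith
    · rw [max_eq_left h0]
      exact hage_branch hα h hgen (hp i)
  have hterm : ∀ i, 0 ≤ (r i : ℚ) * (1 - max (δ i (p i)) 0) * a i := by
    intro i
    have h1 := hbr i
    have h2 : (0 : ℚ) ≤ a i := Nat.cast_nonneg _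
    nlinarith
  by_cases hcase : ∃ i ∈ I, δ i (p i) ≤ 0
  · obtain ⟨i, hi, h0⟩ := hcase
    have h1 := Finset.single_le_sum (f := fun i => (r i : ℚ) * (1 - max (δ i (p i)) 0) * a i)
      (fun i _ => hterm i) (Finset.mem_univ i)
    refine le_trans ?_ h1
    rw [max_eq_right h0, sub_zero, mul_one]
    exact hra i hi
  · push Not at hcase
    have h1 := h.sub hgen hg I htriv hζ ho (fun i => w i) (fun i => p i) (fun i => r i)
      (fun i => a i) (fun i => hp i) (fun i => ha0 i i.2) (fun i => hrot i)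
    have h2 : ∃ i ∈ I, (orderOf g : ℚ) ≤ r i * (1 - δ i (p i)) * a i := by
      by_contra hcon
      push Not at hcon
      rw [Finset.sum_coe_sort I (fun i : Fin n => α i * ((r i : ℚ) * (1 - δ i (p i)) * a i)),
        Finset.sum_mul] at h1
      refine absurd h1 (not_le.2 (Finset.sum_lt_sum_of_nonempty hne fun i hi => ?_))
      exact mul_lt_mul_of_pos_left (hcon i hi) (hα i)
    obtain ⟨i, hi, h2⟩ := h2
    have h3 := Finset.single_le_sum (f := fun i => (r i : ℚ) * (1 - max (δ i (p i)) 0) * a i)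
      (fun i _ => hterm i) (Finset.mem_univ i)
    refine le_trans ?_ h3
    rw [max_eq_left (hcase i hi).le]
    exact h2

/-- **General type.** -/
theorem kod_of_hage (C : Fin n → IntermediateField k M) [hC : ∀ i, IsFF k (C i)]
    (hn : Algebra.trdeg k M = n)
    (hsup : ⨆ i, C i = ⊤) (G : Subgroup (M ≃ₐ[k] M)) [Finite G]
    (hst : ∀ g ∈ G, ∀ i, ∀ z ∈ C i, g z ∈ C i)
    {α : Fin n → ℚ} (hα : ∀ i, 0 < α i)
    {δ : ∀ i, Place k ↥(C i ⊓ fixedField G) → ℚ} (h : HAge C G α δ)
    (T0 : ∀ i, Finset (Place k ↥(C i ⊓ fixedField G))) (hT0 : ∀ i, ∀ q ∉ T0 i, δ i q = 0)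
    (hdeg : ∀ i, (0 : ℚ) < canDeg k ↥(C i ⊓ fixedField G) + ∑ q ∈ T0 i, δ i q) :
    PairKod k (fixedField G) n (fun _ => 0) n := by
  classical
  have hgen : ∀ i, ∃ w p, LiesOver (inf_le_left : C i ⊓ fixedField G ≤ C i) w p 1 ∧
      δ i p = 0 := by
    intro i
    obtain ⟨w, p, h1, h2⟩ := general_place (C i) G (fun g hg => hst g hg i) (T0 i)
    exact ⟨w, p, h1, hT0 i p h2⟩
  obtain ⟨ε, hε⟩ : ∃ ε : ∀ i, Place k ↥(C i ⊓ fixedField G) → ℚ,
      ε = fun i p => max (δ i p) 0 := ⟨_, rfl⟩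
  have hbr : ∀ i (w : Place k (C i)) p (r : ℕ),
      LiesOver (inf_le_left : C i ⊓ fixedField G ≤ C i) w p r → 1 ≤ r * (1 - ε i p) := by
    intro i w p r hp
    rw [hε]
    beta_reduce
    rcases le_total (δ i p) 0 with h0 | h0
    · rw [max_eq_right h0]
      have h1 : (1 : ℚ) ≤ r := by exact_mod_cast hp.1
      linarith
    · rw [max_eq_left h0]
      exact hage_branch hα h hgen hp
  have hT0' : ∀ i, ∀ q ∉ T0 i, ε i q = 0 := by
    intro i q hq
    rw [hε]
    beta_reduce
    rw [hT0 i q hq, max_self]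
  have hdeg' : ∀ i, (0 : ℚ) < canDeg k ↥(C i ⊓ fixedField G) + ∑ q ∈ T0 i, ε i q := by
    intro i
    refine lt_of_lt_of_le (hdeg i) ?_
    have h1 : ∑ q ∈ T0 i, δ i q ≤ ∑ q ∈ T0 i, ε i q := by
      refine Finset.sum_le_sum fun q _ => ?_
      rw [hε]
      exact le_max_left _ _
    linarith
  have hFFB : ∀ i, IsFF k ↥(C i ⊓ fixedField G) := fun i => isFF_quo (C i) G
    (fun g hg => hst g hg i)
  have hε01 : ∀ i p, 0 ≤ ε i p ∧ ε i p ≤ 1 := by
    intro i p
    refine ⟨by rw [hε]; exact le_max_right _ _, ?_⟩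
    let _ : Algebra ↥(C i ⊓ fixedField G) (C i) :=
      (inclusion (inf_le_left : C i ⊓ fixedField G ≤ C i)).toRingHom.toAlgebra
    have t1 : IsScalarTower k ↥(C i ⊓ fixedField G) (C i) :=
      IsScalarTower.of_algebraMap_eq fun c => rfl
    have f1 : FiniteDimensional ↥(C i ⊓ fixedField G) (C i) :=
      inf_finite G (C i) (fun g hg => hst g hg i) fun z => rfl
    obtain ⟨e, w, hw⟩ := exists_place_over (E := C i) p
    have h1 := hbr i w p e hw
    have h2 : (0 : ℚ) ≤ e := Nat.cast_nonneg _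
    by_contra hcon
    push Not at hcon
    nlinarith
  -- the curves `C i` are of general type
  have hcan : ∀ i, canDeg k (C i) ≠ 0 := by
    intro i hi0
    let _ : Algebra ↥(C i ⊓ fixedField G) (C i) :=
      (inclusion (inf_le_left : C i ⊓ fixedField G ≤ C i)).toRingHom.toAlgebra
    have t1 : IsScalarTower k ↥(C i ⊓ fixedField G) (C i) :=
      IsScalarTower.of_algebraMap_eq fun c => rfl
    have f1 : FiniteDimensional ↥(C i ⊓ fixedField G) (C i) :=
      inf_finite G (C i) (fun g hg => hst g hg i) fun z => rfl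
    obtain ⟨T, hT⟩ := rh (k := k) (E := C i) (ε i) (T0 i) (hT0' i)
    have h1 := hT T (Finset.Subset.refl T)
    have h2 : ∑ z ∈ T, (1 - (Pool.Agent.W603.PV.ram ↥(C i ⊓ fixedField G) z : ℚ) *
        (1 - ε i (Pool.Agent.W603.PV.under ↥(C i ⊓ fixedField G) z))) ≤ 0 := by
      refine Finset.sum_nonpos fun z _ => ?_
      have h3 := hbr i z (Pool.Agent.W603.PV.under ↥(C i ⊓ fixedField G) z)
        (Pool.Agent.W603.PV.ram ↥(C i ⊓ fixedField G) z)
        ⟨(Pool.Agent.W603.PV.ram_spec (F := ↥(C i ⊓ fixedField G)) z).1, fun f =>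
          Pool.Agent.W603.PV.ord_under z f⟩
      linarith
    have h4 : (0 : ℚ) < Module.finrank ↥(C i ⊓ fixedField G) (C i) := by
      exact_mod_cast Module.finrank_pos
    have h5 := mul_pos h4 (hdeg' i)
    rw [h1, hi0] at h5
    push_cast at h5
    linarith
  have hset : {i | canDeg k (C i) ≠ 0}.ncard = n := by
    have h1 : {i : Fin n | canDeg k (C i) ≠ 0} = Set.univ := by
      ext i
      simp [hcan i]
    rw [h1, Set.ncard_univ, Nat.card_fin]
  have hessM : Algebra.EssFiniteType k M := by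
    have h1 : Algebra.EssFiniteType k ↥(⨆ i, C i) := essFiniteType_iff.2
      (fg_iSup fun i => essFiniteType_iff.1 (IsFF.ess))
    rw [hsup] at h1
    exact (Algebra.EssFiniteType.iff_of_algEquiv (topEquiv (F := k) (E := M))).1 h1
  have ht0 : Algebra.trdeg k (⊥ : IntermediateField k M) = (0 : ℕ) := by
    have h1 : Algebra.trdeg k (⊥ : IntermediateField k M) = 0 := by
      rw [trdeg_eq_zero_iff]
      infer_instance
    rw [h1, Nat.cast_zero]
  obtain ⟨d, hd, hkod0, -⟩ := good_zero (k := k) (K := (⊥ : IntermediateField k M))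
    (by rw [ht0, Nat.cast_zero])
  have hd0 : d = 0 := by omega
  rw [hd0] at hkod0
  have hage : WAge (⊥ : IntermediateField k M) C G ε := by
    rw [hε]
    exact wage_of_hage C hsup G hst hα h hgen
  have h1 := step_kod' (⊥ : IntermediateField k M) C G (by
      intro g hg z hz
      obtain ⟨c, rfl⟩ := IntermediateField.mem_bot.1 hz
      rw [AlgEquiv.commutes]
      exact hz) (fun i g hg => hst g hg i) (by
      intro g hg hfix
      have h3 : (⨆ i, C i) ≤ fixedField (Subgroup.zpowers g) := by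
        refine iSup_le fun i z hz => ?_
        have h4 : Subgroup.zpowers g ≤ MulAction.stabilizer (M ≃ₐ[k] M) z :=
          (Subgroup.zpowers_le).2 (MulAction.mem_stabilizer_iff.2 (hfix i z hz))
        intro u
        exact MulAction.mem_stabilizer_iff.1 (h4 u.2)
      apply AlgEquiv.ext
      intro z
      have h4 : z ∈ fixedField (Subgroup.zpowers g) := by
        apply h3
        rw [hsup]
        exact IntermediateField.mem_top
      exact h4 ⟨_, Subgroup.mem_zpowers _⟩) (d := 0) (by rw [bot_sup_eq, hsup])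
    (by rw [hn, Nat.zero_add]) ht0 inferInstance hessM ε hε01 hbr hage
    (fun i => ⟨T0 i, hT0' i, Or.inl (hdeg' i)⟩) hkod0
  rw [hset, Nat.zero_add] at h1
  exact h1

end

end Pool.Agent.K4H25.HY

end

section

/-!
General type of the varieties which dominate a product-quotient variety.
-/

set_option autoImplicit false
set_option linter.overlappingInstances false
set_option linter.unusedSectionVars false
set_option linter.unusedVariables false
set_option maxHeartbeats 4000000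
set_option synthInstance.maxHeartbeats 400000

open FF IntermediateField Pool.Agent.W619.PQ Pool.Agent.W619.PL
  Pool.Agent.W619.TW Pool.Agent.W603.LV Pool.Agent.K4H25.GQ Pool.Agent.K4H25.GW Pool.Agent.Y174

namespace Pool.Agent.K4H25.HY

open Pool.Agent.W602.GT (GeneralType)

theorem general_of_pair {k L : Type} [Field k] [Field L] [Algebra k L] {n : ℕ}
    (hn : Algebra.trdeg k L = n) (h : PairKod k L n (fun _ => 0) n) : GeneralType k L n := by
  obtain ⟨m, hm, ω, hω, D, hD, hind⟩ := h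
  refine ⟨hn, m, hm, ω, fun j => (hω j).1, fun P hP j E hE => ?_, D, hD 0, hind⟩
  rcases (hω j).2 P hP E hE with h1 | ⟨s, hs, hs0, h1⟩
  · exact Or.inl h1
  · right
    simp only [Nat.cast_zero, zero_mul, mul_zero, sub_zero] at h1
    exact_mod_cast h1

section

variable {k : Type} [Field k] [CharZero k] [IsAlgClosed k] {M : Type} [Field M] [Algebra k M]
  {n : ℕ}

/-- **General type.** -/
theorem general_of_hage (C : Fin n → IntermediateField k M) [hC : ∀ i, IsFF k (C i)]
    (hn : Algebra.trdeg k M = n)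
    (hsup : ⨆ i, C i = ⊤) (G : Subgroup (M ≃ₐ[k] M)) [Finite G]
    (hst : ∀ g ∈ G, ∀ i, ∀ z ∈ C i, g z ∈ C i)
    {α : Fin n → ℚ} (hα : ∀ i, 0 < α i)
    {δ : ∀ i, Place k ↥(C i ⊓ fixedField G) → ℚ} (h : HAge C G α δ)
    (T0 : ∀ i, Finset (Place k ↥(C i ⊓ fixedField G))) (hT0 : ∀ i, ∀ q ∉ T0 i, δ i q = 0)
    (hdeg : ∀ i, (0 : ℚ) < canDeg k ↥(C i ⊓ fixedField G) + ∑ q ∈ T0 i, δ i q)
    {L : Type} [Field L] [Algebra k L] [Algebra (fixedField G) L]
    [IsScalarTower k (fixedField G) L] [FiniteDimensional (fixedField G) L] :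
    GeneralType k L n := by
  have hessM : Algebra.EssFiniteType k M := by
    have h1 : Algebra.EssFiniteType k ↥(⨆ i, C i) := essFiniteType_iff.2
      (fg_iSup fun i => essFiniteType_iff.1 (IsFF.ess))
    rw [hsup] at h1
    exact (Algebra.EssFiniteType.iff_of_algEquiv (topEquiv (F := k) (E := M))).1 h1
  have halgG := Pool.Agent.W721.PG.EFF2.alg_fixed G
  have hfinG : FiniteDimensional (fixedField G) M := fixed_finite G
  obtain ⟨htG, -⟩ := Pool.Agent.W721.PG.EFF2.exists_basis (fixedField G) n hn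
  have hessG : Algebra.EssFiniteType k (fixedField G) := Pool.Agent.TH466.QG.ess_below (K := M)
  have h1 := kod_of_hage C hn hsup G hst hα h T0 hT0 hdeg
  have htL : Algebra.trdeg k L = n := by
    rw [← trdeg_add_eq k (fixedField G) (A := L), htG]
    have h2 : Algebra.trdeg (fixedField G) L = 0 := trdeg_eq_zero
    rw [h2, add_zero]
  exact general_of_pair htL (pairKod_zero.2 (kod_up (K := fixedField G) hessG htG
    (pairKod_zero.1 h1)))

end

end Pool.Agent.K4H25.HY

end
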