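import Pool.Agent.K4H25.MG.Kod

/-!
Images of varieties which are birational to a subvariety of a product of projective spaces.
-/

set_option autoImplicit false
set_option linter.unusedSectionVars false
set_option linter.overlappingInstances false

open FF Module Pool.Agent Pool.Agent.W602.GT Pool.Agent.W603.LV
open Pool.Agent.R882.LT (TraceNe)

namespace Pool.Agent.K4H25.MG

variable {K : Type} [Field K] [Algebra ℂ K] {n : ℕ}

/-- The trace to the variety itself. -/
theorem traceNe_top {ω : (Fin n → Derivation ℂ K K) → K} (h0 : ∃ D, ω D ≠ 0)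
    {F : IntermediateField ℂ K} (hF : F = ⊤) : TraceNe ω F := by
  subst hF
  obtain ⟨D', hD'⟩ := h0
  refine ⟨fun i =>
    { toFun := fun f => ⟨D' i f, IntermediateField.mem_top⟩
      map_add' := fun f g => Subtype.ext (map_add _ _ _)
      map_smul' := fun c f => Subtype.ext (by
        exact (D' i).map_smul c f)
      map_one_eq_zero' := Subtype.ext (D' i).map_one_eq_zero
      leibniz' := fun f g => Subtype.ext ((D' i).leibniz f g) }, D', fun i f => rfl, ?_⟩
  have h1 : ω D' = algebraMap (⊤ : IntermediateField ℂ K) K ⟨ω D', IntermediateField.mem_top⟩ :=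
    rfl
  have h2 : finrank (⊤ : IntermediateField ℂ K) K = 1 := IntermediateField.finrank_top
  rw [h1, Algebra.trace_algebraMap, h2, one_smul]
  intro h3
  exact hD' (congrArg Subtype.val h3)

/-- **Images of subvarieties of products of projective spaces.** -/
theorem main_full {N q : ℕ} {β : Fin N → Fin q} {M : Fin q → ℕ}
    (hK : Algebra.trdeg ℂ K = n) {t : Fin N → K}
    (hgen : IntermediateField.adjoin ℂ (Set.range t) = ⊤)
    {ω : (Fin n → Derivation ℂ K K) → K} (hω : TwistedBox n β M t ω) (h0 : ∃ D, ω D ≠ 0)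
    (L : Type) [Field L] [Algebra ℂ L] [Algebra L K] [IsScalarTower ℂ L K]
    [FiniteDimensional L K]
    (hs : ∀ Λ : Finset (Fin q), Λ.Nonempty → fdeg L β t Λ ≤ ∑ b ∈ Λ, M b + 1) :
    (∃ η : (Fin n → Derivation ℂ L L) → L, IsPluri 1 η ∧
      (∀ P : Place ℂ L, Divisorial n P → RegAt P η) ∧ ∃ D, η D ≠ 0) ∧
    ∀ r : ℕ, r ≤ n →
      (∀ Λ : Finset (Fin q), Λ.Nonempty →
        Algebra.trdeg ℂ (IntermediateField.adjoin ℂ (t '' {j | β j ∉ Λ})) < (r : ℕ) →
        2 * fdeg L β t Λ ≤ ∑ b ∈ Λ, M b + 1) →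
      KodGe ℂ L n (fun _ => False) r := by
  classical
  have hess : Algebra.EssFiniteType ℂ K := by
    rw [← IntermediateField.fg_top_iff, ← hgen]
    exact ⟨Finset.univ.image t, by rw [Finset.coe_image, Finset.coe_univ, Set.image_univ]⟩
  have hd : Algebra.trdeg ℂ (IntermediateField.adjoin ℂ (Set.range t)) = (n : ℕ) := by
    rw [hgen, ← hK]
    exact IntermediateField.topEquiv.trdeg_eq
  have htop : (IntermediateField.adjoin L (Set.range t)).restrictScalars ℂ = ⊤ := by
    rw [eq_top_iff, ← hgen, IntermediateField.adjoin_le_iff]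
    exact IntermediateField.subset_adjoin L _
  obtain ⟨h1, h2⟩ := core_box hK hd hω (traceNe_top h0 htop) hs
  exact ⟨h1, fun r hr hk => Pool.Agent.R882.KR.kodGe_of_tr (h2 r hr hk)⟩

end Pool.Agent.K4H25.MG
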