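import Pool.Agent.K4H25.MG.Kod

/-!
Nondegenerate hypersurfaces fibred by curves: twists in several directions.
-/

set_option autoImplicit false
set_option linter.unusedSectionVars false
set_option linter.overlappingInstances false
set_option maxHeartbeats 4000000
set_option synthInstance.maxHeartbeats 400000

open FF Module Pool.Agent Pool.Agent.W602.GT Pool.Agent.R885
open Pool.Agent.W619.PQ (IsUniruled)

namespace Pool.Agent.K4H25.MG

theorem fdeg_le {K : Type} [Field K] {N q : ℕ} {L : Type} [Field L] [Algebra L K]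
    [FiniteDimensional L K] {β : Fin N → Fin q} {t : Fin N → K} (Λ : Finset (Fin q)) :
    fdeg L β t Λ ≤ finrank L (IntermediateField.adjoin L (Set.range t)) := by
  refine Nat.le_of_dvd finrank_pos ?_
  exact IntermediateField.relfinrank_dvd_finrank_bot _ _

/-- **Nondegenerate hypersurfaces fibred by curves.** -/
theorem main_tor {n q a s b : ℕ} {β : Fin n → Fin q} {M : Fin q → ℕ} {f : (Fin (n + 2) → ℤ) →₀ ℂ}
    (hf : ∀ v : Fin (n + 2) → ℤ, ∀ c : Fin (n + 2) → ℂ, (∀ i, c i ≠ 0) → ev c (ini v f) = 0 →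
      ∃ i, gr c (ini v f) i ≠ 0)
    (hT : ∀ m ∈ f.support, 0 ≤ m (Fin.last n).castSucc ∧
      m (Fin.last n).castSucc ≤ a + s * (b - m (Fin.last (n + 1))) ∧
      0 ≤ m (Fin.last (n + 1)) ∧ m (Fin.last (n + 1)) ≤ b) {K : Type} [Field K] [Algebra ℂ K]
    {z : Fin (n + 2) → K} (hz : ∀ i, z i ≠ 0) (hfz : ev z f = 0)
    (hgen : IntermediateField.adjoin ℂ (Set.range z) = ⊤) (hK : Algebra.trdeg ℂ K = (n + 1 : ℕ))
    (hind : AlgebraicIndependent ℂ fun i : Fin (n + 1) => z i.castSucc)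
    {t : Fin n → K} (ht : ∀ l, t l = z l.castSucc.castSucc)
    (hcl : ∀ g : K, IsAlgebraic (IntermediateField.adjoin ℂ (Set.range t)) g →
      g ∈ IntermediateField.adjoin ℂ (Set.range t))
    {u : ℕ → ℕ → Fin (n + 2) → ℤ}
    (hu : ∀ i j, (1 ≤ i ∧ 1 ≤ j ∧ j + 1 ≤ b ∧ i + 1 ≤ a + s * (b - j)) →
      u i j (Fin.last n).castSucc = i ∧ u i j (Fin.last (n + 1)) = j ∧
      ∀ c : Fin n → ℕ, (∀ p, ∑ l with β l = p, c l ≤ M p) → ∀ v : Fin (n + 2) → ℤ, v ≠ 0 →
        1 + mn v f ≤ (u i j + ∑ l, (c l : ℤ) • Pi.single l.castSucc.castSucc 1) ⬝ᵥ v)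
    (L : Type) [Field L] [Algebra ℂ L] [Algebra L K] [IsScalarTower ℂ L K]
    [FiniteDimensional L K]
    (hs : ∀ Λ : Finset (Fin q), Λ.Nonempty → fdeg L β t Λ ≤ ∑ p ∈ Λ, M p + 1) :
    [∀ ω : (Fin (n + 1) → Derivation ℂ L L) → L, IsPluri 1 ω →
      (∀ P : Place ℂ L, Divisorial (n + 1) P → RegAt P ω) → ∀ D, ω D = 0,
      ¬ KodGe ℂ L (n + 1) (fun _ => False) 0,
      ¬ Psef ℂ L (n + 1) (fun _ => False), IsUniruled ℂ L (n + 1)].TFAE ∧
    ∀ r : ℕ, r ≤ n →
      (∀ Λ : Finset (Fin q), Λ.Nonempty → (Finset.univ.filter fun l => β l ∉ Λ).card < r →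
        2 * fdeg L β t Λ ≤ ∑ p ∈ Λ, M p + 1) →
      IsUniruled ℂ L (n + 1) ∨ KodGe ℂ L (n + 1) (fun _ => False) r := by
  classical
  obtain ⟨f', hf'⟩ : ∃ f' : Fin 1 → (Fin (n + 1 + 1) → ℤ) →₀ ℂ, f' = fun _ => f := ⟨_, rfl⟩
  have hess : Algebra.EssFiniteType ℂ K := by
    rw [← IntermediateField.fg_top_iff, ← hgen]
    exact ⟨Finset.univ.image z, by rw [Finset.coe_image, Finset.coe_univ, Set.image_univ]⟩
  have hnd : ∀ v, NonDeg ℂ f' v := by
    intro v c hc hev
    subst hf'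
    obtain ⟨i, hi⟩ := hf v c hc (hev 0)
    exact LinearIndependent.of_subsingleton (0 : Fin 1) fun h => hi (congrFun h i)
  have hevf : ∀ l, ev z (f' l) = 0 := fun l => by rw [hf']; exact hfz
  obtain ⟨C0, h0, hreg0, hne⟩ := Pool.Agent.R882.LT.exists_res hK hz hgen
    (Pool.Agent.R882.KR.ee n) hevf hnd
  have htE : t = fun l : Fin n => z l.castSucc.castSucc := funext ht
  have hd' : Algebra.trdeg ℂ (IntermediateField.adjoin ℂ (Set.range t)) = (n : ℕ) := by
    rw [htE]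
    exact Pool.Agent.R882.KR.trdeg_first hind
  have hX := Pool.Agent.R882.KR.not_alg_first hind
  rw [← htE] at hX
  -- the forms
  obtain ⟨ω, hωdef⟩ : ∃ ω : {p : ℕ × ℕ // Pool.Agent.R882.KR.Inner a s b p.1 p.2} →
      (Fin (n + 1) → Derivation ℂ K K) → K, ω = fun p D => R885.mono z (u p.1.1 p.1.2) *
        Om (Pool.Agent.R882.KR.ee n) z f' C0 D := ⟨_, rfl⟩
  have hω : ∀ p, TwistedBox (n + 1) β M t (ω p) := by
    intro p
    obtain ⟨-, -, hu1⟩ := hu p.1.1 p.1.2 p.2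
    rw [hωdef]
    refine ⟨?_, ?_⟩
    · intro B D
      have h1 := om_pluri (Pool.Agent.R882.KR.ee n) z f' C0 1 B D
      change Om (Pool.Agent.R882.KR.ee n) z f' C0 (fun i => ∑ j, B i j • D j) ^ 1 =
        B.det ^ 1 * Om (Pool.Agent.R882.KR.ee n) z f' C0 D ^ 1 at h1
      change R885.mono z _ * Om (Pool.Agent.R882.KR.ee n) z f' C0 (fun i => ∑ j, B i j • D j) =
        B.det ^ 1 * (R885.mono z _ * Om (Pool.Agent.R882.KR.ee n) z f' C0 D)
      rw [pow_one, pow_one, pow_one] at h1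
      rw [h1]
      ring
    · intro c hc P _ D hD
      have h1 := hreg0 (u p.1.1 p.1.2 + ∑ l : Fin n, (c l : ℤ) •
        (Pi.single l.castSucc.castSucc 1 : Fin (n + 1 + 1) → ℤ)) (fun v hv => by
          rw [Fin.sum_univ_one, hf']
          exact hu1 c hc v hv) P D hD
      change P.Reg ((∏ j, t j ^ c j) * (R885.mono z (u p.1.1 p.1.2) *
        Om (Pool.Agent.R882.KR.ee n) z f' C0 D))
      have h2 : ∏ j, t j ^ c j = R885.mono z (∑ l : Fin n, (c l : ℤ) •
          (Pi.single l.castSucc.castSucc 1 : Fin (n + 1 + 1) → ℤ)) := by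
        rw [← Pool.Agent.R882.LT.mono_comb hz]
        refine Finset.prod_congr rfl fun l _ => ?_
        rw [R885.mono_single, ht]
      rw [h2, ← mul_assoc, mul_comm (R885.mono z _) (R885.mono z (u p.1.1 p.1.2)),
        ← R885.mono_add hz]
      exact h1
  have hspan : Pool.Agent.R882.GL.SpanFib (IntermediateField.adjoin ℂ (Set.range t)) ω := by
    rw [hωdef]
    refine Pool.Agent.R882.KR.span_curve hz hgen hevf h0 hne (a := a) (s := s) (b := b) ?_
      (Pool.Agent.R882.KR.basis_first hK hind) (fun l => ?_) hX fun i j hij => ?_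
    · rw [hf']
      exact hT
    · rw [← ht]
      exact IntermediateField.subset_adjoin _ _ ⟨l, rfl⟩
    · obtain ⟨h1, h2, -⟩ := hu i j hij
      exact ⟨h1, h2⟩
  have hfinJ := Pool.Agent.R882.KR.finite_inner a s b
  obtain ⟨h1, h2⟩ := main_box hK hd' hcl hω hspan L hs
  refine ⟨h1, fun r hr hk => h2 r hr fun Λ hΛ hlt => hk Λ hΛ ?_⟩
  -- the coordinates outside `Λ` are algebraically independent
  have htind : AlgebraicIndependent ℂ t := by
    have h3 := hind.comp (fun l : Fin n => l.castSucc) (Fin.castSucc_injective n)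
    rw [htE]
    exact h3
  have h3 : AlgebraicIndependent ℂ (fun l : {l : Fin n // β l ∉ Λ} =>
      (⟨t l, IntermediateField.subset_adjoin _ _ ⟨l, l.2, rfl⟩⟩ :
        IntermediateField.adjoin ℂ (t '' {j | β j ∉ Λ}))) := by
    refine AlgebraicIndependent.of_comp (IntermediateField.adjoin ℂ (t '' {j | β j ∉ Λ})).val ?_
    exact htind.comp (fun l : {l : Fin n // β l ∉ Λ} => (l : Fin n)) Subtype.val_injective
  have h4 := h3.cardinalMk_le_trdeg.trans_lt hlt
  rw [Cardinal.mk_fintype] at h4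
  have h5 : Fintype.card {l : Fin n // β l ∉ Λ} < r := by exact_mod_cast h4
  rw [Fintype.card_subtype] at h5
  exact h5

end Pool.Agent.K4H25.MG
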