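import Pool.Agent.K4H25.MG.Box
import Pool.Agent.K4H25.AB.Main

/-!
Kodaira dimension from traces, for functions whose degree in each variable is bounded.
-/

set_option autoImplicit false
set_option linter.unusedSectionVars false
set_option linter.overlappingInstances false

open FF Module Pool.Agent Pool.Agent.W602.GT Pool.Agent.W603.LV
open Pool.Agent.W619.PQ (IsUniruled)
open Pool.Agent.R882.LT (SecAt trForm_sec)
open Pool.Agent.Y184.NT (trForm trForm_pluri)
open Pool.Agent.R882.LT (IsTwisted TraceNe secAt_of)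

namespace Pool.Agent.K4H25.MG

/-- The forms `t ^ a ω`, where the degree of `t ^ a` in the variables of the block `b` is at most
`M b`, are regular at all prime divisors. -/
def TwistedBox {K : Type} [Field K] [Algebra ℂ K] {N q : ℕ} (n : ℕ) (β : Fin N → Fin q)
    (M : Fin q → ℕ) (t : Fin N → K) (ω : (Fin n → Derivation ℂ K K) → K) : Prop :=
  IsPluri 1 ω ∧ ∀ a : Fin N → ℕ, (∀ b, ∑ j with β j = b, a j ≤ M b) → ∀ P : Place ℂ K,
    Divisorial n P → RegAt P (fun D => (∏ j, t j ^ a j) * ω D)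

/-- The degree of the image in `W × V'` over its projection which forgets the coordinates in the
blocks of `Λ`. -/
noncomputable def fdeg {K : Type} [Field K] {N q : ℕ} (L : Type) [Field L] [Algebra L K]
    (β : Fin N → Fin q) (t : Fin N → K) (Λ : Finset (Fin q)) : ℕ :=
  (IntermediateField.adjoin L (t '' {j | β j ∉ Λ})).relfinrank
    (IntermediateField.adjoin L (Set.range t))

theorem fdeg_eq {K : Type} [Field K] {N q : ℕ} {L : Type} [Field L] [Algebra L K]
    {β : Fin N → Fin q} {t : Fin N → K} {x : Fin N → IntermediateField.adjoin L (Set.range t)}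
    (hx : ∀ j, (x j : K) = t j) (Λ : Finset (Fin q)) :
    finrank (IntermediateField.adjoin L (x '' {j | β j ∉ Λ}))
      (IntermediateField.adjoin L (Set.range t)) = fdeg L β t Λ := by
  have h1 : (IntermediateField.adjoin L (x '' {j | β j ∉ Λ})).map
      (IntermediateField.adjoin L (Set.range t)).val =
      IntermediateField.adjoin L (t '' {j | β j ∉ Λ}) := by
    rw [IntermediateField.adjoin_map]
    congr 1
    ext z
    constructor
    · rintro ⟨_, ⟨j, hj, rfl⟩, rfl⟩
      exact ⟨j, hj, (hx j).symm⟩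
    · rintro ⟨j, hj, rfl⟩
      exact ⟨x j, ⟨j, hj, rfl⟩, hx j⟩
  have h2 : (⊤ : IntermediateField L (IntermediateField.adjoin L (Set.range t))).map
      (IntermediateField.adjoin L (Set.range t)).val =
      IntermediateField.adjoin L (Set.range t) := by
    rw [← AlgHom.fieldRange_eq_map, IntermediateField.fieldRange_val]
  rw [← IntermediateField.relfinrank_top_right,
    ← IntermediateField.relfinrank_map_map _ _ (IntermediateField.adjoin L (Set.range t)).val,
    h1, h2]
  rfl

/-- transport of the transcendence degree -/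
theorem trdeg_map {L K : Type} [Field L] [Field K] [Algebra ℂ L] [Algebra ℂ K] [Algebra L K]
    [IsScalarTower ℂ L K] {N : ℕ} {t : Fin N → K}
    {x : Fin N → IntermediateField.adjoin L (Set.range t)} (hx : ∀ j, (x j : K) = t j)
    (J : Set (Fin N)) :
    Algebra.trdeg ℂ (IntermediateField.adjoin ℂ (x '' J)) =
      Algebra.trdeg ℂ (IntermediateField.adjoin ℂ (t '' J)) := by
  have hTow : IsScalarTower ℂ (IntermediateField.adjoin L (Set.range t)) K :=
    IsScalarTower.of_algebraMap_eq fun r => rfl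
  let φ : IntermediateField.adjoin L (Set.range t) →ₐ[ℂ] K :=
    IsScalarTower.toAlgHom ℂ (IntermediateField.adjoin L (Set.range t)) K
  have h1 : (IntermediateField.adjoin ℂ (x '' J)).map φ =
      IntermediateField.adjoin ℂ (t '' J) := by
    rw [IntermediateField.adjoin_map]
    congr 1
    ext z
    constructor
    · rintro ⟨_, ⟨j, hj, rfl⟩, rfl⟩
      exact ⟨j, hj, (hx j).symm⟩
    · rintro ⟨j, hj, rfl⟩
      exact ⟨x j, ⟨j, hj, rfl⟩, hx j⟩
  have h2 := (IntermediateField.equivMap (IntermediateField.adjoin ℂ (x '' J)) φ)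
  rw [h1] at h2
  exact h2.trdeg_eq

section

variable {K : Type} [Field K] [Algebra ℂ K] {n N q d : ℕ} {β : Fin N → Fin q} {M : Fin q → ℕ}

/-- **The core.** -/
theorem core_box [Algebra.EssFiniteType ℂ K] (htr : Algebra.trdeg ℂ K = n) {t : Fin N → K}
    (hd : Algebra.trdeg ℂ (IntermediateField.adjoin ℂ (Set.range t)) = (d : ℕ))
    {L : Type} [Field L] [Algebra ℂ L] [Algebra L K] [IsScalarTower ℂ L K]
    [FiniteDimensional L K] {ω : (Fin n → Derivation ℂ K K) → K} (hω : TwistedBox n β M t ω)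
    (htn : TraceNe ω ((IntermediateField.adjoin L (Set.range t)).restrictScalars ℂ))
    (hm : ∀ Λ : Finset (Fin q), Λ.Nonempty → fdeg L β t Λ ≤ ∑ b ∈ Λ, M b + 1) :
    (∃ η : (Fin n → Derivation ℂ L L) → L, IsPluri 1 η ∧
      (∀ P : Place ℂ L, Divisorial n P → RegAt P η) ∧ ∃ D, η D ≠ 0) ∧
    ∀ r : ℕ, r ≤ d →
      (∀ Λ : Finset (Fin q), Λ.Nonempty →
        Algebra.trdeg ℂ (IntermediateField.adjoin ℂ (t '' {j | β j ∉ Λ})) < (r : ℕ) →
        2 * fdeg L β t Λ ≤ ∑ b ∈ Λ, M b + 1) →
      Pool.Agent.W619.Y.KodTrB ℂ L n (fun _ => False) r := by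
  classical
  have hessL : Algebra.EssFiniteType ℂ L := Pool.Agent.TH466.QG.ess_below (K := K)
  have hL : Algebra.trdeg ℂ L = n := Pool.Agent.Y184.NT.trdeg_below (K := K) htr
  have hcL : CharZero L := charZero_of_injective_algebraMap (algebraMap ℂ L).injective
  have hω0 : IsTwisted n 0 t ω := by
    refine ⟨hω.1, fun a ha P hP => hω.2 a (fun b => ?_) P hP⟩
    have h1 : ∑ j with β j = b, a j ≤ ∑ j, a j :=
      Finset.sum_le_sum_of_subset (Finset.filter_subset _ _)
    omega
  obtain ⟨x, y, E, E', -, -, hadj, -, hy, hE, hE', hne, -⟩ :=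
    Pool.Agent.K4H25.AB.core_red htr hω0 htn
  rw [hadj] at hne
  obtain ⟨x', hx'⟩ : ∃ x' : Fin N → IntermediateField.adjoin L (Set.range t),
    ∀ j, (x' j : K) = t j :=
    ⟨fun j => ⟨t j, IntermediateField.subset_adjoin L _ ⟨j, rfl⟩⟩, fun _ => rfl⟩
  obtain ⟨W, hWdef⟩ : ∃ W : (Fin N → ℕ) → (Fin n → Derivation ℂ K K) → K,
    W = fun a D => (∏ j, t j ^ a j) * ω D := ⟨_, rfl⟩
  have hWp : ∀ a, IsPluri 1 (W a) := by
    intro a A D
    rw [hWdef]
    change (∏ j, t j ^ a j) * ω (fun i => ∑ j, A i j • D j) = _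
    rw [hω.1 A D]
    ring
  have hWr : ∀ a : Fin N → ℕ, (∀ b, ∑ j with β j = b, a j ≤ M b) →
      ∀ (P : Place ℂ K), Divisorial n P →
      SecAt (fun _ => False) P (W a) := by
    intro a ha P hP
    rw [hWdef]
    exact secAt_of (hω.2 a ha P hP)
  obtain ⟨T, hTdef⟩ : ∃ T : (Fin N → ℕ) → L, ∀ a, T a = Algebra.trace L K (W a E') :=
    ⟨_, fun _ => rfl⟩
  have hT : ∀ a, T a = Algebra.trace L (IntermediateField.adjoin L (Set.range t))
      ((∏ j, x' j ^ a j) *
        Algebra.trace (IntermediateField.adjoin L (Set.range t)) K (ω E')) := by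
    intro a
    have h2 : W a E' = (∏ j, x' j ^ a j) • ω E' := by
      rw [hWdef, Algebra.smul_def]
      change (∏ j, t j ^ a j) * ω E' = _
      congr 1
      rw [map_prod]
      refine Finset.prod_congr rfl fun j _ => ?_
      rw [map_pow]
      congr 1
      exact (hx' j).symm
    rw [hTdef, h2, ← Algebra.trace_trace (S := IntermediateField.adjoin L (Set.range t)),
      map_smul, smul_eq_mul]
  have hθr : ∀ a : Fin N → ℕ, (∀ b, ∑ j with β j = b, a j ≤ M b) →
      ∀ (P : Place ℂ L), Divisorial n P →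
      SecAt (fun _ => False) P (trForm y (T a)) := by
    intro a ha P hP
    rw [hTdef]
    exact trForm_sec hL hy hE hE' (W a) (hWp a) (fun _ _ _ _ h => h) (hWr a ha) P hP
  have hθE : ∀ c, trForm y c E = c := by
    intro c
    have h1 : (Matrix.of fun i j => E i (y j) : Matrix (Fin n) (Fin n) L) = 1 := by
      ext i j
      rw [Matrix.of_apply, hE, Matrix.one_apply]
    rw [trForm, h1, Matrix.det_one, one_mul]
  have hgen : IntermediateField.adjoin L (Set.range x') = ⊤ :=
    Pool.Agent.R882.WR.gen_self x' hx'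
  have hd' : Algebra.trdeg ℂ (IntermediateField.adjoin ℂ (Set.range x')) = (d : ℕ) := by
    have h1 := trdeg_map hx' Set.univ
    rw [Set.image_univ, Set.image_univ] at h1
    rw [h1]
    exact hd
  have hm' : ∀ Λ : Finset (Fin q), Λ.Nonempty →
      finrank (IntermediateField.adjoin L (x' '' {j | β j ∉ Λ}))
        (IntermediateField.adjoin L (Set.range t)) ≤ ∑ b ∈ Λ, M b + 1 := by
    intro Λ hΛ
    rw [fdeg_eq hx']
    exact hm Λ hΛ
  refine ⟨?_, fun r hr hk => ?_⟩
  · obtain ⟨a, ha, hTa⟩ := exists_ne_box hgen hm' hne hT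
    refine ⟨trForm y (T a), trForm_pluri y _, fun P hP => (hθr a ha P hP).2 fun h => h, E, ?_⟩
    rw [hθE]
    exact hTa
  · obtain ⟨s, hsM, hs0, hs⟩ := ratios_box hL hgen hd' hm' hr (fun Λ hΛ hΛr => by
      rw [trdeg_map hx'] at hΛr
      rw [fdeg_eq hx']
      exact hk Λ hΛ hΛr) hne hT
    exact Pool.Agent.K4H25.AB.kod_ratios
      (ι := {a : Fin N → ℕ // ∀ b, ∑ j with β j = b, a j ≤ M b})
      (T := fun a => T a.1) (s := fun i => ⟨s i, hsM i⟩) hE
      (fun a P hP => hθr a.1 a.2 P hP) hs0 hs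

end

section

variable {n N q : ℕ} {β : Fin N → Fin q} {M : Fin q → ℕ} {K : Type} [Field K] [Algebra ℂ K]
  [Algebra.EssFiniteType ℂ K] {t : Fin N → K} {J : Type} [Finite J]
  {ω : J → (Fin (n + 1) → Derivation ℂ K K) → K}

/-- **Fibrations by curves.** -/
theorem main_box (hK : Algebra.trdeg ℂ K = (n + 1 : ℕ))
    (hd : Algebra.trdeg ℂ (IntermediateField.adjoin ℂ (Set.range t)) = (n : ℕ))
    (hcl : ∀ g : K, IsAlgebraic (IntermediateField.adjoin ℂ (Set.range t)) g →
      g ∈ IntermediateField.adjoin ℂ (Set.range t))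
    (hω : ∀ j, TwistedBox (n + 1) β M t (ω j))
    (hspan : Pool.Agent.R882.GL.SpanFib (IntermediateField.adjoin ℂ (Set.range t)) ω)
    (L : Type) [Field L] [Algebra ℂ L] [Algebra L K] [IsScalarTower ℂ L K]
    [FiniteDimensional L K]
    (hs : ∀ Λ : Finset (Fin q), Λ.Nonempty → fdeg L β t Λ ≤ ∑ b ∈ Λ, M b + 1) :
    [∀ ω : (Fin (n + 1) → Derivation ℂ L L) → L, IsPluri 1 ω →
      (∀ P : Place ℂ L, Divisorial (n + 1) P → RegAt P ω) → ∀ D, ω D = 0,
      ¬ KodGe ℂ L (n + 1) (fun _ => False) 0,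
      ¬ Psef ℂ L (n + 1) (fun _ => False), IsUniruled ℂ L (n + 1)].TFAE ∧
    ∀ r : ℕ, r ≤ n →
      (∀ Λ : Finset (Fin q), Λ.Nonempty →
        Algebra.trdeg ℂ (IntermediateField.adjoin ℂ (t '' {j | β j ∉ Λ})) < (r : ℕ) →
        2 * fdeg L β t Λ ≤ ∑ b ∈ Λ, M b + 1) →
      IsUniruled ℂ L (n + 1) ∨ KodGe ℂ L (n + 1) (fun _ => False) r := by
  classical
  have hL : Algebra.trdeg ℂ L = (n + 1 : ℕ) := Pool.Agent.Y184.NT.trdeg_below (K := K) hK
  have hessL : Algebra.EssFiniteType ℂ L := Pool.Agent.TH466.QG.ess_below (K := K)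
  have hreg : ∀ j (P : Place ℂ K), Divisorial (n + 1) P → RegAt P (ω j) := by
    intro j P hP D hD
    have h1 := (hω j).2 0 (by simp) P hP D hD
    simpa using h1
  have huni := Pool.Agent.K4H25.AB.uniruled_of hK hd hcl (fun j => (hω j).1) hreg hspan L
  refine ⟨Pool.Agent.K4H25.AB.tfae_of hL fun hg => huni fun p htr => ?_,
    fun r hr hk => ?_⟩
  · obtain ⟨η, hη, hηr, D, hD⟩ := (core_box (L := L) hK hd (hω p) htr hs).1
    exact hD (hg η hη hηr D)
  · by_cases htr : ∃ p, TraceNe (ω p)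
      ((IntermediateField.adjoin L (Set.range t)).restrictScalars ℂ)
    · right
      obtain ⟨p, htr⟩ := htr
      exact Pool.Agent.R882.KR.kodGe_of_tr
        ((core_box (L := L) hK hd (hω p) htr hs).2 r hr hk)
    · push Not at htr
      exact Or.inl (huni htr)

end

end Pool.Agent.K4H25.MG
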