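import Pool.Agent.R882.TRat

/-!
Two independent generic points of the fibres of a map.
-/

set_option autoImplicit false
set_option linter.unusedSectionVars false
set_option linter.overlappingInstances false

open Module

namespace Pool.Agent.K4H25.MG

/-- The embeddings over a given embedding of the base field. -/
theorem exists_embs {L F Ω : Type} [Field L] [Field F] [Field Ω] [Algebra L F]
    [FiniteDimensional L F] [CharZero L] [IsAlgClosed Ω] (τ : L →+* Ω) {N : ℕ} (x : Fin N → F)
    (hgen : IntermediateField.adjoin L (Set.range x) = ⊤) :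
    ∃ σ : Fin (finrank L F) → (F →+* Ω), (∀ i z, σ i (algebraMap L F z) = τ z) ∧
      (∀ z, τ (Algebra.trace L F z) = ∑ i, σ i z) ∧
      ∀ i i', i ≠ i' → ∃ j, σ i (x j) ≠ σ i' (x j) := by
  classical
  let _ := τ.toAlgebra
  have hcard : Fintype.card (F →ₐ[L] Ω) = finrank L F := AlgHom.card L F Ω
  let e : Fin (finrank L F) ≃ (F →ₐ[L] Ω) := (Fintype.equivFinOfCardEq hcard).symm
  refine ⟨fun i => (e i).toRingHom, fun i z => (e i).commutes z, fun z => ?_, fun i i' hne => ?_⟩
  · have h1 := trace_eq_sum_embeddings (K := L) (L := F) Ω (x := z)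
    change algebraMap L Ω _ = _
    rw [h1]
    exact (Equiv.sum_comp e (fun σ : F →ₐ[L] Ω => σ z)).symm
  · by_contra hcon
    push Not at hcon
    apply hne
    apply e.injective
    apply Pool.Agent.Y614.NT.emb_ext x hgen
    intro j
    exact hcon j

/-- The number of the embeddings which agree with a given one on a subfield. -/
theorem card_agree {L F Ω : Type} [Field L] [Field F] [Field Ω] [Algebra L F]
    [FiniteDimensional L F] [CharZero L] [IsAlgClosed Ω] {τ : L →+* Ω} {N m : ℕ} {x : Fin N → F}
    {σ : Fin m → (F →+* Ω)} (hσ : ∀ i z, σ i (algebraMap L F z) = τ z)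
    (hinj : Function.Injective σ) (ρ : F →+* Ω) (hρ : ∀ z, ρ (algebraMap L F z) = τ z)
    (J : Set (Fin N)) [DecidablePred fun i : Fin m => ∀ j ∈ J, σ i (x j) = ρ (x j)] :
    (Finset.univ.filter fun i : Fin m => ∀ j ∈ J, σ i (x j) = ρ (x j)).card ≤
      finrank (IntermediateField.adjoin L (x '' J)) F := by
  classical
  obtain ⟨A, hA⟩ : ∃ A : IntermediateField L F,
    A = IntermediateField.adjoin L (x '' J) := ⟨_, rfl⟩
  rw [← hA]
  have hagree : ∀ i, (∀ j ∈ J, σ i (x j) = ρ (x j)) → ∀ z ∈ A, σ i z = ρ z := by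
    intro i hi z hz
    rw [hA] at hz
    induction hz using IntermediateField.adjoin_induction with
    | mem w hw =>
      obtain ⟨j, hj, rfl⟩ := hw
      exact hi j hj
    | algebraMap c => rw [hσ, hρ]
    | add y w _ _ hy hw => rw [map_add, map_add, hy, hw]
    | inv y _ hy => rw [map_inv₀, map_inv₀, hy]
    | mul y w _ _ hy hw => rw [map_mul, map_mul, hy, hw]
  let _ : Algebra A Ω := (ρ.comp (algebraMap A F)).toAlgebra
  have hcA : CharZero A := charZero_of_injective_algebraMap (algebraMap L A).injective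
  have hcard : Fintype.card (F →ₐ[A] Ω) = finrank A F := AlgHom.card A F Ω
  rw [← hcard, ← Fintype.card_coe]
  refine Fintype.card_le_of_injective (fun i => ({ (σ i.1) with
    commutes' := fun c => hagree i.1 (Finset.mem_filter.1 i.2).2 c c.2 } : F →ₐ[A] Ω))
    fun i i' hii => ?_
  apply Subtype.ext
  apply hinj
  ext z
  exact congrArg (fun f : F →ₐ[A] Ω => f z) hii

/-- Exchange: a transcendental element can replace one of the elements of a transcendence basis. -/
theorem exists_exch {E F : Type} [Field E] [Field F] [Algebra E F] {ι : Type} {b : ι → F}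
    (hb : IsTranscendenceBasis E b) {z : F} (hz : Transcendental E z) :
    ∃ l0 : ι, IsAlgebraic (Algebra.adjoin E (insert z (b '' {l | l ≠ l0}))) (b l0) := by
  classical
  by_cases hzb : z ∈ Set.range b
  · obtain ⟨l0, rfl⟩ := hzb
    exact ⟨l0, isAlgebraic_algebraMap (A := F)
      (⟨b l0, Algebra.subset_adjoin (Set.mem_insert _ _)⟩ :
        Algebra.adjoin E (insert (b l0) (b '' {l | l ≠ l0})))⟩
  have h1 : AlgebraicIndepOn E id ({z} : Set F) := by
    rw [AlgebraicIndepOn, algebraicIndependent_singleton_iff (⟨z, rfl⟩ : ({z} : Set F))]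
    exact hz
  have h2 : Algebra.IsAlgebraic (Algebra.adjoin E (Set.range b)) F := hb.isAlgebraic
  have h3 : Algebra.IsAlgebraic (Algebra.adjoin E (insert z (Set.range b))) F := by
    constructor
    intro w
    exact (h2.isAlgebraic w).adjoin_of_forall_isAlgebraic fun y hy =>
      isAlgebraic_algebraMap (A := F) (⟨y, Algebra.subset_adjoin (Set.mem_insert_of_mem _ hy.1)⟩ :
        Algebra.adjoin E (insert z (Set.range b)))
  obtain ⟨u, hzu, hu, hbu⟩ := exists_isTranscendenceBasis_between (R := E) {z}
    (insert z (Set.range b)) (by simp) h1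
  obtain ⟨l0, hl0⟩ : ∃ l0, b l0 ∉ u := by
    by_contra hcon
    push Not at hcon
    apply hzb
    have h4 : Set.range b ⊆ u := by
      rintro _ ⟨l, rfl⟩
      exact hcon l
    have h5 : Set.range b = u := hb.2 u hbu.1 h4
    rw [h5]
    exact hzu rfl
  refine ⟨l0, ?_⟩
  have h4 : Algebra.IsAlgebraic (Algebra.adjoin E (Set.range ((↑) : u → F))) F := hbu.isAlgebraic
  rw [Subtype.range_coe] at h4
  have h5 := h4.isAlgebraic (b l0)
  have h6 : u ⊆ insert z (b '' {l | l ≠ l0}) := by
    intro w hw
    rcases hu hw with h7 | ⟨l, rfl⟩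
    · exact Or.inl h7
    · exact Or.inr ⟨l, fun e => hl0 (e ▸ hw), rfl⟩
  exact h5.adjoin_of_forall_isAlgebraic fun y hy =>
      isAlgebraic_algebraMap (A := F) (⟨y, Algebra.subset_adjoin (h6 hy.1)⟩ :
        Algebra.adjoin E (insert z (b '' {l | l ≠ l0})))

/-- **Two independent generic points.** There are two embeddings `τ`, `τ'` of `L` in an algebraically
closed field over `E`, such that the elements of algebraic extensions of `L` which have the same
image under extensions of `τ` and `τ'` are algebraic over `E`. -/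
theorem exists_generic (E L : Type) [Field E] [Field L] [Algebra E L] :
    ∃ (Ω : Type) (_ : Field Ω) (_ : IsAlgClosed Ω) (τ τ' : L →+* Ω),
      (∀ c : E, τ (algebraMap E L c) = τ' (algebraMap E L c)) ∧
      ∀ (F : Type) [Field F] [Algebra L F] [Algebra E F] [IsScalarTower E L F]
        [Algebra.IsAlgebraic L F] (σ σ' : F →+* Ω), (∀ z, σ (algebraMap L F z) = τ z) →
        (∀ z, σ' (algebraMap L F z) = τ' z) → ∀ z, σ z = σ' z → IsAlgebraic E z := by
  classical
  obtain ⟨ι, b, hb⟩ := exists_isTranscendenceBasis' E L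
  obtain ⟨Ω, iΩ, hΩ, iLΩ, Y, hY⟩ : ∃ (Ω : Type) (_ : Field Ω) (_ : IsAlgClosed Ω)
      (_ : Algebra L Ω) (Y : ι → Ω), AlgebraicIndependent L Y := by
    refine ⟨AlgebraicClosure (FractionRing (MvPolynomial ι L)), inferInstance, inferInstance,
      inferInstance, fun l => algebraMap (FractionRing (MvPolynomial ι L)) _
        (algebraMap (MvPolynomial ι L) _ (MvPolynomial.X l)), ?_⟩
    have h1 := MvPolynomial.algebraicIndependent_X ι L
    have h2 := h1.map' (f := IsScalarTower.toAlgHom L (MvPolynomial ι L)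
      (FractionRing (MvPolynomial ι L))) (IsFractionRing.injective _ _)
    exact h2.map' (f := IsScalarTower.toAlgHom L (FractionRing (MvPolynomial ι L))
      (AlgebraicClosure (FractionRing (MvPolynomial ι L)))) (RingHom.injective _)
  let iEΩ : Algebra E Ω := ((algebraMap L Ω).comp (algebraMap E L)).toAlgebra
  have hT : IsScalarTower E L Ω := IsScalarTower.of_algebraMap_eq fun _ => rfl
  have hYE : AlgebraicIndependent E Y := hY.restrictScalars (algebraMap E L).injective
  -- the second embedding
  obtain ⟨τ', hτ'E, hτ'b⟩ : ∃ τ' : L →+* Ω, (∀ c : E, τ' (algebraMap E L c) =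
      algebraMap L Ω (algebraMap E L c)) ∧ ∀ l, τ' (b l) = Y l := by
    let a1 : Algebra (MvPolynomial ι E) L := (MvPolynomial.aeval b).toRingHom.toAlgebra
    let a2 : Algebra (MvPolynomial ι E) Ω := (MvPolynomial.aeval Y).toRingHom.toAlgebra
    have f1 : FaithfulSMul (MvPolynomial ι E) L :=
      (faithfulSMul_iff_algebraMap_injective _ _).2 hb.1
    have f2 : FaithfulSMul (MvPolynomial ι E) Ω :=
      (faithfulSMul_iff_algebraMap_injective _ _).2 hYE
    have halg : Algebra.IsAlgebraic (MvPolynomial ι E) L := by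
      constructor
      intro z
      obtain ⟨p, hp0, hp⟩ := hb.isAlgebraic.isAlgebraic z
      let ψ := (hb.1.aevalEquiv.symm : Algebra.adjoin E (Set.range b) ≃ₐ[E] MvPolynomial ι E)
      refine ⟨p.map (ψ : Algebra.adjoin E (Set.range b) →+* MvPolynomial ι E),
        (Polynomial.map_ne_zero_iff ψ.injective).2 hp0, ?_⟩
      rw [Polynomial.aeval_def, Polynomial.eval₂_map]
      have h1 : (algebraMap (MvPolynomial ι E) L).comp
          (ψ : Algebra.adjoin E (Set.range b) →+* MvPolynomial ι E) =
          algebraMap (Algebra.adjoin E (Set.range b)) L := by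
        ext c
        change MvPolynomial.aeval b (hb.1.aevalEquiv.symm c) = (c : L)
        have h2 := hb.1.algebraMap_aevalEquiv (hb.1.aevalEquiv.symm c)
        rw [AlgEquiv.apply_symm_apply] at h2
        exact h2.symm
      rw [h1]
      exact hp
    let χ : L →ₐ[MvPolynomial ι E] Ω := IsAlgClosed.lift
    refine ⟨χ.toRingHom, fun c => ?_, fun l => ?_⟩
    · have h1 := χ.commutes (MvPolynomial.C c)
      have h2 : algebraMap (MvPolynomial ι E) L (MvPolynomial.C c) = algebraMap E L c :=
        MvPolynomial.aeval_C b c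
      have h3 : algebraMap (MvPolynomial ι E) Ω (MvPolynomial.C c) = algebraMap E Ω c :=
        MvPolynomial.aeval_C Y c
      rw [h2, h3] at h1
      exact h1
    · have h1 := χ.commutes (MvPolynomial.X l)
      have h2 : algebraMap (MvPolynomial ι E) L (MvPolynomial.X l) = b l :=
        MvPolynomial.aeval_X b l
      have h3 : algebraMap (MvPolynomial ι E) Ω (MvPolynomial.X l) = Y l :=
        MvPolynomial.aeval_X Y l
      rw [h2, h3] at h1
      exact h1
  refine ⟨Ω, iΩ, hΩ, algebraMap L Ω, τ', fun c => (hτ'E c).symm, ?_⟩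
  intro F _ _ _ _ _ σ σ' hσ hσ' z hzz
  by_contra hz
  have hbF : IsTranscendenceBasis E (fun l => algebraMap L F (b l)) := hb.algebraMap_comp
  obtain ⟨l0, hl0⟩ := exists_exch hbF hz
  -- the algebraic closure of `L(Y l : l ≠ l0)`
  let A : IntermediateField L Ω := IntermediateField.adjoin L (Y '' {l | l ≠ l0})
  have hmemA : ∀ w ∈ A, IsAlgebraic A w := fun w hw =>
    isAlgebraic_algebraMap (A := Ω) (⟨w, hw⟩ : A)
  let C : IntermediateField A Ω := algebraicClosure A Ω
  have hC : ∀ w, w ∈ C ↔ IsAlgebraic A w := fun w => mem_algebraicClosure_iff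
  have hzC : σ' z ∈ C := by
    rw [← hzz, hC]
    have h1 : IsAlgebraic L z := Algebra.IsAlgebraic.isAlgebraic z
    obtain ⟨p, hp0, hp⟩ := h1
    refine ⟨p.map (algebraMap L A), (Polynomial.map_ne_zero_iff (algebraMap L A).injective).2 hp0,
      ?_⟩
    rw [Polynomial.aeval_def, Polynomial.eval₂_map]
    have h2 : (algebraMap A Ω).comp (algebraMap L A) = σ.comp (algebraMap L F) := by
      ext c
      exact (hσ c).symm
    have h3 := congrArg σ hp
    rw [map_zero, Polynomial.aeval_def, Polynomial.hom_eval₂] at h3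
    rw [h2]
    exact h3
  have hbC : ∀ l, l ≠ l0 → σ' (algebraMap L F (b l)) ∈ C := by
    intro l hl
    rw [hσ', hτ'b, hC]
    exact hmemA _ (IntermediateField.subset_adjoin _ _ ⟨l, hl, rfl⟩)
  have hEC : ∀ c : E, σ' (algebraMap E F c) ∈ C := by
    intro c
    rw [IsScalarTower.algebraMap_apply E L F, hσ', hτ'E, hC]
    exact hmemA _ (A.algebraMap_mem _)
  have hadj : ∀ w ∈ Algebra.adjoin E (insert z ((fun l => algebraMap L F (b l)) ''
      {l | l ≠ l0})), σ' w ∈ C := by
    intro w hw
    induction hw using Algebra.adjoin_induction with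
    | mem w hw =>
      rcases hw with rfl | ⟨l, hl, rfl⟩
      · exact hzC
      · exact hbC l hl
    | algebraMap c => exact hEC c
    | add x y _ _ hx hy =>
      rw [map_add]
      exact add_mem hx hy
    | mul x y _ _ hx hy =>
      rw [map_mul]
      exact mul_mem hx hy
  have hY0 : Y l0 ∈ C := by
    obtain ⟨p, hp0, hp⟩ := hl0
    let ψ : Algebra.adjoin E (insert z ((fun l => algebraMap L F (b l)) '' {l | l ≠ l0})) →+* C :=
      { toFun := fun w => ⟨σ' w, hadj w w.2⟩
        map_one' := Subtype.ext (map_one σ')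
        map_mul' := fun x y => Subtype.ext (map_mul σ' _ _)
        map_zero' := Subtype.ext (map_zero σ')
        map_add' := fun x y => Subtype.ext (map_add σ' _ _) }
    have hψ : Function.Injective ψ := by
      intro x y hxy
      have h1 : σ' (x : F) = σ' (y : F) := congrArg Subtype.val hxy
      exact Subtype.ext (σ'.injective h1)
    have h1 : IsAlgebraic C (Y l0) := by
      refine ⟨p.map ψ, (Polynomial.map_ne_zero_iff hψ).2 hp0, ?_⟩
      rw [Polynomial.aeval_def, Polynomial.eval₂_map]
      have h3 := congrArg σ' hp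
      rw [map_zero, Polynomial.aeval_def, Polynomial.hom_eval₂, hσ', hτ'b] at h3
      exact h3
    rw [hC]
    have h2 : Algebra.IsAlgebraic A C := inferInstance
    exact h1.restrictScalars A
  rw [hC] at hY0
  have h1 : IsAlgebraic (Algebra.adjoin L (Y '' {l | l ≠ l0})) (Y l0) := by
    open scoped IntermediateField.algebraAdjoinAdjoin in
    exact (IsFractionRing.isAlgebraic_iff (Algebra.adjoin L (Y '' {l | l ≠ l0}))
      (IntermediateField.adjoin L (Y '' {l | l ≠ l0})) Ω).2 hY0
  exact hY.transcendental_adjoin (s := {l | l ≠ l0}) (i := l0) (by simp) h1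

end Pool.Agent.K4H25.MG
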