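import Pool.Agent.K4H25.MG.Comb
import Pool.Agent.K4H25.MG.Gen
import Pool.Agent.R885.MB

/-!
Ratios of traces, for functions whose degrees in the variables of blocks are bounded.
-/

set_option autoImplicit false
set_option linter.unusedSectionVars false
set_option linter.overlappingInstances false

open Module

namespace Pool.Agent.K4H25.MG

/-- Elements which are algebraic over a subfield. -/
theorem trdeg_le_of_alg {E F : Type} [Field E] [Field F] [Algebra ℂ E] [Algebra ℂ F]
    [Algebra E F] [IsScalarTower ℂ E F] {G : Set F} (halg : ∀ z ∈ G, IsAlgebraic E z) :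
    Algebra.trdeg ℂ (IntermediateField.adjoin ℂ G) ≤ Algebra.trdeg ℂ E := by
  let H : IntermediateField E F := algebraicClosure E F
  have hT : IsScalarTower ℂ E H := IsScalarTower.of_algebraMap_eq fun c => Subtype.ext
    (IsScalarTower.algebraMap_apply ℂ E F c)
  have h3 : Algebra.trdeg ℂ H = Algebra.trdeg ℂ E := by
    rw [← trdeg_add_eq ℂ E (A := H), trdeg_eq_zero (R := E) (A := H), add_zero]
  have hle : IntermediateField.adjoin ℂ G ≤ H.restrictScalars ℂ := by
    rw [IntermediateField.adjoin_le_iff]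
    exact fun z hz => mem_algebraicClosure_iff.2 (halg z hz)
  have h4 := trdeg_le_of_injective (IntermediateField.inclusion hle)
    (IntermediateField.inclusion_injective hle)
  exact h4.trans h3.le

section

variable {L F : Type} [Field L] [Field F] [Algebra ℂ L] [Algebra ℂ F] [Algebra L F]
  [IsScalarTower ℂ L F] [FiniteDimensional L F] {N q : ℕ} {β : Fin N → Fin q} {M : Fin q → ℕ}
  {x : Fin N → F}

/-- One of the traces is not zero. -/
theorem exists_ne_box (hgen : IntermediateField.adjoin L (Set.range x) = ⊤)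
    (hm : ∀ Λ : Finset (Fin q), Λ.Nonempty →
      finrank (IntermediateField.adjoin L (x '' {j | β j ∉ Λ})) F ≤ ∑ b ∈ Λ, M b + 1)
    {h : F} (hh : h ≠ 0) {T : (Fin N → ℕ) → L}
    (hT : ∀ a, T a = Algebra.trace L F ((∏ j, x j ^ a j) * h)) :
    ∃ a : Fin N → ℕ, (∀ b, ∑ j with β j = b, a j ≤ M b) ∧ T a ≠ 0 := by
  classical
  by_contra hcon
  push Not at hcon
  have hcL : CharZero L := charZero_of_injective_algebraMap (algebraMap ℂ L).injective
  obtain ⟨σ, hσ, htr, hne⟩ := exists_embs (algebraMap L (AlgebraicClosure L)) x hgen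
  have hinj : Function.Injective σ := by
    intro i i' hii
    by_contra h1
    obtain ⟨j, hj⟩ := hne i i' h1
    exact hj (by rw [hii])
  have hpos : 0 < finrank L F := finrank_pos
  obtain ⟨i0⟩ : Nonempty (Fin (finrank L F)) := ⟨⟨0, hpos⟩⟩
  obtain ⟨D, hDdef⟩ : ∃ D : Fin (finrank L F) → Finset (Fin q),
    ∀ i, D i = (Finset.univ.filter fun j : Fin N => σ i (x j) ≠ σ i0 (x j)).image β :=
    ⟨_, fun _ => rfl⟩
  have hmemD : ∀ i b, b ∈ D i ↔ ∃ j, σ i (x j) ≠ σ i0 (x j) ∧ β j = b := fun i b => by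
    rw [hDdef, Finset.mem_image]
    simp
  obtain ⟨l, hl, hc⟩ := exists_assign D M (Finset.univ.erase i0) (fun i hi => by
      obtain ⟨j, hj⟩ := hne i i0 (Finset.ne_of_mem_erase hi)
      exact ⟨β j, (hmemD _ _).2 ⟨j, hj, rfl⟩⟩) (fun Λ hΛ => by
      have h1 := card_agree (x := x) hσ hinj (σ i0) (hσ i0) {j | β j ∉ Λ}
      have h2 := hm Λ hΛ
      have h3 : ((Finset.univ.erase i0).filter fun i : Fin (finrank L F) => D i ⊆ Λ).card + 1 ≤
          (Finset.univ.filter fun i : Fin (finrank L F) =>
            ∀ j ∈ {j | β j ∉ Λ}, σ i (x j) = σ i0 (x j)).card := by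
        rw [← Finset.card_insert_of_notMem (a := i0)
          (fun hi => Finset.notMem_erase i0 _ (Finset.mem_filter.1 hi).1)]
        refine Finset.card_le_card fun i hi => ?_
        rcases Finset.mem_insert.1 hi with rfl | hi
        · exact Finset.mem_filter.2 ⟨Finset.mem_univ _, fun _ _ => rfl⟩
        · refine Finset.mem_filter.2 ⟨Finset.mem_univ _, fun j hj => ?_⟩
          by_contra h4
          exact hj ((Finset.mem_filter.1 hi).2 ((hmemD _ _).2 ⟨j, h4, rfl⟩))
      omega)
  have hl' : ∀ s : {s // s ∈ Finset.univ.erase i0}, ∃ j, σ s (x j) ≠ σ i0 (x j) ∧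
      β j = l s := fun s => (hmemD _ _).1 (hl s)
  choose l' hl1 hl2 using hl'
  have h1 := coeff_zero (β := β) (M := M) Finset.univ (fun i => σ i h) (fun i j => σ i (x j))
    (fun a ha => by
      have h2 := htr ((∏ j, x j ^ a j) * h)
      rw [← hT, hcon a ha, map_zero] at h2
      rw [h2]
      refine Finset.sum_congr rfl fun i _ => ?_
      rw [map_mul, map_prod, mul_comm]
      congr 1
      exact Finset.prod_congr rfl fun j _ => (map_pow _ _ _).symm)
    (Finset.mem_univ i0) l' hl1 (fun b => by simpa only [hl2] using hc b)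
  exact hh ((map_eq_zero (σ i0)).1 h1)

/-- **Ratios of traces.** -/
theorem ratios_box {n d r : ℕ} (hL : Algebra.trdeg ℂ L = n)
    (hgen : IntermediateField.adjoin L (Set.range x) = ⊤)
    (hd : Algebra.trdeg ℂ (IntermediateField.adjoin ℂ (Set.range x)) = (d : ℕ))
    (hm : ∀ Λ : Finset (Fin q), Λ.Nonempty →
      finrank (IntermediateField.adjoin L (x '' {j | β j ∉ Λ})) F ≤ ∑ b ∈ Λ, M b + 1)
    (hr : r ≤ d) (hk : ∀ Λ : Finset (Fin q), Λ.Nonempty →
      Algebra.trdeg ℂ (IntermediateField.adjoin ℂ (x '' {j | β j ∉ Λ})) < (r : ℕ) →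
      2 * finrank (IntermediateField.adjoin L (x '' {j | β j ∉ Λ})) F ≤ ∑ b ∈ Λ, M b + 1)
    {h : F} (hh : h ≠ 0) {T : (Fin N → ℕ) → L}
    (hT : ∀ a, T a = Algebra.trace L F ((∏ j, x j ^ a j) * h)) :
    ∃ s : Fin (r + 1) → Fin N → ℕ, (∀ i b, ∑ j with β j = b, s i j ≤ M b) ∧ T (s 0) ≠ 0 ∧
      AlgebraicIndependent ℂ (fun i : Fin r => T (s i.succ) / T (s 0)) := by
  classical
  have hcL : CharZero L := charZero_of_injective_algebraMap (algebraMap ℂ L).injective
  obtain ⟨a0, ha0, hTa0⟩ := exists_ne_box hgen hm hh hT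
  obtain ⟨R, hR⟩ : ∃ R : Set L, R = {z | ∃ a : Fin N → ℕ,
    (∀ b, ∑ j with β j = b, a j ≤ M b) ∧ z = T a / T a0} := ⟨_, rfl⟩
  obtain ⟨E, hE⟩ : ∃ E : IntermediateField ℂ L, E = IntermediateField.adjoin ℂ R := ⟨_, rfl⟩
  obtain ⟨e, he⟩ : ∃ e : ℕ, Algebra.trdeg ℂ E = e := by
    have h1 : Algebra.trdeg ℂ E ≤ n := by
      rw [← hL]
      exact trdeg_le_of_injective E.val E.val.toRingHom.injective
    obtain ⟨e, h2⟩ := Cardinal.lt_aleph0.1 (h1.trans_lt Cardinal.natCast_lt_aleph0)
    exact ⟨e, h2⟩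
  have hTE : IsScalarTower ℂ E F := IsScalarTower.of_algebraMap_eq fun c => by
    rw [IsScalarTower.algebraMap_apply ℂ L F, IsScalarTower.algebraMap_apply E L F]
    rfl
  have hre : r ≤ e := by
    by_contra hlt
    obtain ⟨Ω, iΩ, hΩ, τ, τ', hττ, hgeneric⟩ := exists_generic E L
    have hgen' := hgeneric F
    obtain ⟨σ, hσ, htr, hne⟩ := exists_embs τ x hgen
    obtain ⟨σ', hσ', htr', hne'⟩ := exists_embs τ' x hgen
    have hinj : Function.Injective σ := by
      intro i i' hii
      by_contra h1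
      obtain ⟨j, hj⟩ := hne i i' h1
      exact hj (by rw [hii])
    have hinj' : Function.Injective σ' := by
      intro i i' hii
      by_contra h1
      obtain ⟨j, hj⟩ := hne' i i' h1
      exact hj (by rw [hii])
    have hpos : 0 < finrank L F := finrank_pos
    obtain ⟨i0⟩ : Nonempty (Fin (finrank L F)) := ⟨⟨0, hpos⟩⟩
    obtain ⟨v, hv⟩ : ∃ v : Fin (finrank L F) ⊕ Fin (finrank L F) → Fin N → Ω,
      v = Sum.elim (fun i j => σ i (x j)) (fun i j => σ' i (x j)) := ⟨_, rfl⟩
    have hvl : ∀ i j, v (Sum.inl i) j = σ i (x j) := fun i j => by rw [hv]; rfl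
    have hvr : ∀ i j, v (Sum.inr i) j = σ' i (x j) := fun i j => by rw [hv]; rfl
    obtain ⟨D, hDdef⟩ : ∃ D : Fin (finrank L F) ⊕ Fin (finrank L F) → Finset (Fin q),
      ∀ s, D s = (Finset.univ.filter fun j : Fin N => v s j ≠ v (Sum.inl i0) j).image β :=
      ⟨_, fun _ => rfl⟩
    have hmemD : ∀ s b, b ∈ D s ↔ ∃ j, v s j ≠ v (Sum.inl i0) j ∧ β j = b := fun s b => by
      rw [hDdef, Finset.mem_image]
      simp
    have hagree : ∀ s j (Λ : Finset (Fin q)), D s ⊆ Λ → β j ∉ Λ → v s j = v (Sum.inl i0) j := by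
      intro s j Λ hs hj
      by_contra h4
      exact hj (hs ((hmemD _ _).2 ⟨j, h4, rfl⟩))
    -- the coordinates in which the two families agree
    have hB : ∀ i (Λ : Finset (Fin q)), D (Sum.inr i) ⊆ Λ →
        Algebra.trdeg ℂ (IntermediateField.adjoin ℂ (x '' {j | β j ∉ Λ})) < (r : ℕ) := by
      intro i Λ hi
      have h1 : ∀ z ∈ x '' {j | β j ∉ Λ}, IsAlgebraic E z := by
        rintro _ ⟨j, hj, rfl⟩
        have h2 := hagree _ j Λ hi hj
        rw [hvl, hvr] at h2
        exact hgen' (σ i0) (σ' i) (hσ i0) (hσ' i) (x j) h2.symm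
      refine lt_of_le_of_lt (trdeg_le_of_alg (E := E) h1) ?_
      rw [he]
      exact_mod_cast not_le.1 hlt
    -- the differences of the family of `σ'`
    have hcr : ∀ Λ : Finset (Fin q), (Finset.univ.filter fun i : Fin (finrank L F) =>
        D (Sum.inr i) ⊆ Λ).card ≤
          finrank (IntermediateField.adjoin L (x '' {j | β j ∉ Λ})) F := by
      intro Λ
      rcases (Finset.univ.filter fun i : Fin (finrank L F) => D (Sum.inr i) ⊆ Λ).eq_empty_or_nonempty
        with h0 | ⟨i1, hi1⟩
      · rw [h0, Finset.card_empty]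
        exact Nat.zero_le _
      · refine le_trans (Finset.card_le_card fun i hi => ?_) (card_agree hσ' hinj' (σ' i1)
          (hσ' i1) {j | β j ∉ Λ})
        refine Finset.mem_filter.2 ⟨Finset.mem_univ _, fun j hj => ?_⟩
        have h1 := hagree _ j Λ (Finset.mem_filter.1 hi).2 hj
        rw [← hagree _ j Λ (Finset.mem_filter.1 hi1).2 hj, hvr, hvr] at h1
        exact h1
    have hcl : ∀ Λ : Finset (Fin q), ((Finset.univ.erase i0).filter fun i : Fin (finrank L F) =>
        D (Sum.inl i) ⊆ Λ).card + 1 ≤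
          finrank (IntermediateField.adjoin L (x '' {j | β j ∉ Λ})) F := by
      intro Λ
      refine le_trans ?_ (card_agree hσ hinj (σ i0) (hσ i0) {j | β j ∉ Λ})
      rw [← Finset.card_insert_of_notMem (a := i0)
        (fun hi => Finset.notMem_erase i0 _ (Finset.mem_filter.1 hi).1)]
      refine Finset.card_le_card fun i hi => ?_
      rcases Finset.mem_insert.1 hi with rfl | hi
      · exact Finset.mem_filter.2 ⟨Finset.mem_univ _, fun _ _ => rfl⟩
      · refine Finset.mem_filter.2 ⟨Finset.mem_univ _, fun j hj => ?_⟩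
        have h1 := hagree _ j Λ (Finset.mem_filter.1 hi).2 hj
        rw [hvl, hvl] at h1
        exact h1
    obtain ⟨l, hl, hc⟩ := exists_assign D M (Finset.univ.erase (Sum.inl i0)) (fun s hs => by
        rcases s with i | i
        · obtain ⟨j, hj⟩ := hne i i0 fun e => Finset.ne_of_mem_erase hs (by rw [e])
          refine ⟨β j, (hmemD _ _).2 ⟨j, ?_, rfl⟩⟩
          rw [hvl, hvl]
          exact hj
        · by_contra hcon
          rw [Finset.not_nonempty_iff_eq_empty] at hcon
          have h1 := hB i ∅ (by rw [hcon])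
          have h2 : x '' {j | β j ∉ (∅ : Finset (Fin q))} = Set.range x := by
            rw [← Set.image_univ]
            congr 1
            ext j
            simp
          rw [h2, hd] at h1
          have h3 : d < r := by exact_mod_cast h1
          omega) (fun Λ hΛ => by
      have h1 : ((Finset.univ.erase (Sum.inl i0 : Fin (finrank L F) ⊕ Fin (finrank L F))).filter
          fun s => D s ⊆ Λ) ⊆
          ((Finset.univ.erase i0).filter fun i : Fin (finrank L F) =>
            D (Sum.inl i) ⊆ Λ).map Function.Embedding.inl ∪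
          (Finset.univ.filter fun i : Fin (finrank L F) =>
            D (Sum.inr i) ⊆ Λ).map Function.Embedding.inr := by
        intro s hs
        obtain ⟨hs1, hs2⟩ := Finset.mem_filter.1 hs
        rw [Finset.mem_union]
        rcases s with i | i
        · left
          exact Finset.mem_map.2 ⟨i, Finset.mem_filter.2 ⟨Finset.mem_erase.2
            ⟨fun e => Finset.ne_of_mem_erase hs1 (by rw [e]), Finset.mem_univ _⟩, hs2⟩, rfl⟩
        · right
          exact Finset.mem_map.2 ⟨i, Finset.mem_filter.2 ⟨Finset.mem_univ _, hs2⟩, rfl⟩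
      have h2 := (Finset.card_le_card h1).trans (Finset.card_union_le _ _)
      rw [Finset.card_map, Finset.card_map] at h2
      have h3 := hcl Λ
      have h4 := hcr Λ
      rcases (Finset.univ.filter fun i : Fin (finrank L F) =>
          D (Sum.inr i) ⊆ Λ).eq_empty_or_nonempty with h0 | ⟨i1, hi1⟩
      · rw [h0, Finset.card_empty] at h2
        have h6 := hm Λ hΛ
        omega
      · have h5 := hk Λ hΛ (hB i1 Λ (Finset.mem_filter.1 hi1).2)
        omega)
    have hl' : ∀ s : {s // s ∈ Finset.univ.erase (Sum.inl i0 : Fin (finrank L F) ⊕ _)},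
        ∃ j, v s j ≠ v (Sum.inl i0) j ∧ β j = l s := fun s => (hmemD _ _).1 (hl s)
    choose l' hl1 hl2 using hl'
    have h1 := coeff_zero (β := β) (M := M) Finset.univ
      (Sum.elim (fun i => τ' (T a0) * σ i h) (fun i => -(τ (T a0) * σ' i h))) v
      (fun a ha => by
        have h2 := htr ((∏ j, x j ^ a j) * h)
        have h3 := htr' ((∏ j, x j ^ a j) * h)
        rw [← hT] at h2 h3
        have hmem : T a / T a0 ∈ E := by
          rw [hE]
          exact IntermediateField.subset_adjoin _ _ (by rw [hR]; exact ⟨a, ha, rfl⟩)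
        have h4 : τ (T a / T a0) = τ' (T a / T a0) := hττ ⟨_, hmem⟩
        have hτ0 : τ (T a0) ≠ 0 := (_root_.map_ne_zero τ).2 hTa0
        have hτ0' : τ' (T a0) ≠ 0 := (_root_.map_ne_zero τ').2 hTa0
        rw [map_div₀, map_div₀, div_eq_div_iff hτ0 hτ0'] at h4
        rw [Fintype.sum_sum_type]
        simp only [Sum.elim_inl, Sum.elim_inr, hvl, hvr]
        have h5 : ∑ i, τ' (T a0) * σ i h * ∏ j, σ i (x j) ^ a j = τ' (T a0) * τ (T a) := by
          rw [h2, Finset.mul_sum]
          refine Finset.sum_congr rfl fun i _ => ?_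
          rw [map_mul, map_prod, mul_assoc, mul_comm (σ i h)]
          congr 2
          exact Finset.prod_congr rfl fun j _ => (map_pow _ _ _).symm
        have h6 : ∑ i, -(τ (T a0) * σ' i h) * ∏ j, σ' i (x j) ^ a j =
            -(τ (T a0) * τ' (T a)) := by
          rw [h3, Finset.mul_sum, ← Finset.sum_neg_distrib]
          refine Finset.sum_congr rfl fun i _ => ?_
          rw [map_mul, map_prod, neg_mul, mul_assoc, mul_comm (σ' i h)]
          congr 3
          exact Finset.prod_congr rfl fun j _ => (map_pow _ _ _).symm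
        rw [h5, h6]
        linear_combination h4)
      (Finset.mem_univ (Sum.inl i0)) l' hl1 (fun b => by simpa only [hl2] using hc b)
    rw [Sum.elim_inl] at h1
    rcases mul_eq_zero.1 h1 with h2 | h2
    · exact hTa0 ((map_eq_zero τ').1 h2)
    · exact hh ((map_eq_zero (σ i0)).1 h2)
  -- extract the ratios
  obtain ⟨tt, htt, hind, -⟩ := Pool.Agent.R885.exists_mono_basis (k := ℂ) (K := L) (G := R)
    (d := e) (by rw [← hE]; exact he)
  have htt' : ∀ i : Fin e, ∃ a : Fin N → ℕ, (∀ b, ∑ j with β j = b, a j ≤ M b) ∧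
      tt i = T a / T a0 := by
    intro i
    have h1 := htt i
    rw [hR] at h1
    exact h1
  choose a ha hta using htt'
  refine ⟨Fin.cons a0 fun i => a (Fin.castLE hre i), fun i => ?_, ?_, ?_⟩
  · refine Fin.cases ?_ (fun i => ?_) i
    · rw [Fin.cons_zero]
      exact ha0
    · rw [Fin.cons_succ]
      exact ha _
  · rw [Fin.cons_zero]
    exact hTa0
  · have h1 : AlgebraicIndependent ℂ fun i : Fin r => tt (Fin.castLE hre i) :=
      hind.comp _ (Fin.castLE_injective hre)
    convert h1 using 1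
    funext i
    rw [Fin.cons_succ, Fin.cons_zero, hta]

end

end Pool.Agent.K4H25.MG
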