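import Pool.Agent.K4H25.MG.A
import Pool.Agent.W125.PG.FibJ
import Pool.Agent.W735.PG.DESCJ
import Pool.Agent.W381.PG.GAUSS
import Pool.Agent.K4H25.MG.B

section

/-!
Regular forms on the product of a variety and a curve.
-/

set_option autoImplicit false
set_option linter.overlappingInstances false
set_option linter.unusedSectionVars false
set_option linter.unusedVariables false
set_option linter.unusedSimpArgs false
set_option maxHeartbeats 4000000
set_option synthInstance.maxHeartbeats 400000

open Polynomial FF IntermediateField Pool.Agent.W619.PQ Pool.Agent.W619.PL Pool.Agent.W619.TW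
  Pool.Agent.W603.LV Pool.Agent.W479.PG Pool.Agent.W125.PG.FibJ

namespace Pool.Agent.K4H25.GW

section

variable {k L : Type} [Field k] [Field L] [Algebra k L] [CharZero k] [IsAlgClosed k]

theorem isSec_one {K : Type} [Field K] [Algebra k K] {n m : ℕ} {S : Finset K}
    {ω : (Fin n → Derivation k K K) → K} (h : IsSec k K n (fun _ => False) S m 0 ω) :
    IsSec k K n (fun _ => False) {1} m 0 ω := by
  refine ⟨h.1, fun v hv hB D hD => ?_, fun v hv hB => hB.elim⟩
  rcases h.2.1 v hv hB D hD with h1 | ⟨s, hs, hs0, h1⟩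
  · exact Or.inl h1
  · refine Or.inr ⟨1, Finset.mem_singleton_self _, one_ne_zero, ?_⟩
    simp only [Nat.cast_zero, zero_mul] at h1 ⊢
    exact h1

theorem kun_step (M F : IntermediateField k L) [hF : IsFF k F] {d : ℕ}
    (hM : Algebra.trdeg k M = d) (hL : Algebra.trdeg k L = (d + 1 : ℕ)) (hsup : M ⊔ F = ⊤)
    (y : Fin d → M) (hy : IsTranscendenceBasis k y) (t : F) (ht : Transcendental k t)
    (δ : Derivation k F F) (hδt : δ t = 1)
    (E : Fin (d + 1) → Derivation k L L) (hE0 : ∀ μ : M, E 0 (μ : L) = 0)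
    (hEt : E 0 (t : L) = 1) (hEF : ∀ l : Fin d, ∀ β : F, E l.succ (β : L) = 0)
    (hEy : ∀ l j : Fin d, E l.succ (y j : L) = if l = j then 1 else 0)
    {m : ℕ} {ω : (Fin (d + 1) → Derivation k L L) → L}
    (hω : IsSec k L (d + 1) (fun _ => False) {1} m 0 ω) :
    ∃ (r : ℕ) (β : Fin r → F) (μ : Fin r → M),
      (∀ i, β i = 0 ∨ ∀ q : Place k F, m * vo q δ ≤ q.ord (β i)) ∧
      ω E = ∑ i, (β i : L) * (μ i : L) ∧
      ∀ i, IsSec k M d (fun _ => False) {1} m 0
        (fun D => μ i * (Matrix.of fun a b => D a (y b)).det ^ m) := by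
  classical
  have hcur : Cur M F := cur_of hM hL hsup
  have hδ : δ ≠ 0 := by
    intro h
    rw [h] at hδt
    exact zero_ne_one hδt
  have hEδ : ∀ β : F, E 0 (β : L) = (δ β : L) := by
    intro β
    obtain ⟨r, hr1, hr2⟩ := ratio' (K := L) ht β
    have h1 := hr1 δ
    rw [hδt, mul_one] at h1
    have h2 := hr2 (E 0)
    change E 0 (β : L) = (r : L) * E 0 (t : L) at h2
    rw [hEt, mul_one] at h2
    rw [h2, h1]
  choose dM hdM using fun l => exists_dual y hy l
  have hEM : ∀ l (z : M), E (Fin.succ l) (z : L) = (dM l z : L) := by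
    intro l z
    refine der_comp (dM l) (E l.succ) y hy (fun j => ?_) z
    change E l.succ (y j : L) = ((dM l (y j) : M) : L)
    rw [hEy, hdM]
    by_cases h : j = l
    · subst h; simp
    · rw [if_neg h, if_neg (fun h' => h h'.symm)]; simp
  obtain ⟨C, hC, hCdeg⟩ := exists_C1 hδ
  set D : Place k F →₀ ℤ := m • C with hD
  have hDq : ∀ q, D q = - (m * vo q δ) := by
    intro q
    rw [hD, Finsupp.smul_apply, nsmul_eq_mul, hC]
    ring
  obtain ⟨s, β, hs, hβ⟩ := hcur.mem_span D (ω E)
    (fun w hw => by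
      rcases local1J hcur hy.1 hEM hEF hE0 hEδ hδ hω w 0 (Or.inl ⟨hw, rfl⟩) with
        h | ⟨s, hs, hs0, h⟩
      · exact Or.inl h
      · right
        simpa using h)
    (fun w q hw => by
      rcases local1J hcur hy.1 hEM hEF hE0 hEδ hδ hω w (vo q δ) (Or.inr ⟨q, hw, rfl⟩) with
        h | ⟨s, hs, hs0, h⟩
      · exact Or.inl h
      · right
        rw [hDq, neg_neg]
        simpa using h)
  -- a basis of the space
  obtain ⟨r, b, hb⟩ : ∃ (r : ℕ) (b : Module.Basis (Fin r) k (LL D)), True :=
    ⟨Module.finrank k (LL D), Module.finBasis k (LL D), trivial⟩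
  let β' : Fin r → F := fun j => (b j : F)
  have hβ'ind : LinearIndependent k β' := by
    have h1 := b.linearIndependent.map' (LL D).subtype (Submodule.ker_subtype _)
    exact h1
  let c : Module.Basis.ofVectorSpaceIndex k M → Fin r → k := fun i j =>
    if h : β i ∈ LL D then b.repr ⟨β i, h⟩ j else 0
  have hβc : ∀ i ∈ s, β i = ∑ j, c i j • β' j := by
    intro i hi
    have h1 := b.sum_repr ⟨β i, hβ i hi⟩
    have h2 := congrArg (Subtype.val : LL D → F) h1
    refine h2.symm.trans ?_
    change (LL D).subtype (∑ j, b.repr ⟨β i, hβ i hi⟩ j • b j) = _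
    rw [map_sum]
    refine Finset.sum_congr rfl fun j _ => ?_
    simp only [c, dif_pos (hβ i hi), β']
    rfl
  let μ' : Fin r → M := fun j => ∑ i ∈ s, c i j • (Module.Basis.ofVectorSpace k M i : M)
  have hsum : ω E = ∑ j, (β' j : L) * (μ' j : L) := by
    rw [hs]
    have h1 : ∀ i ∈ s, ((Module.Basis.ofVectorSpace k M i : M) : L) * (β i : L) =
        ∑ j, (β' j : L) * (c i j • ((Module.Basis.ofVectorSpace k M i : M) : L)) := by
      intro i hi
      rw [hβc i hi]
      push_cast
      rw [Finset.mul_sum]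
      refine Finset.sum_congr rfl fun j _ => ?_
      simp only [Algebra.smul_def]
      ring
    rw [Finset.sum_congr rfl h1, Finset.sum_comm]
    refine Finset.sum_congr rfl fun j _ => ?_
    rw [← Finset.mul_sum]
    congr 1
    simp only [μ']
    push_cast
    rfl
  obtain ⟨S', hS'⟩ := Pool.Agent.W735.PG.DESCJ.main Pool.Agent.W381.PG.main k L M F d hM hL hsup y
    hy t ht E hE0 hEt hEF hEy {1} 1 one_ne_zero
  refine ⟨r, β', μ', fun j => ?_, hsum, fun j => ?_⟩
  · rcases (b j).2 with h | h
    · exact Or.inl h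
    · right
      intro q
      have := h q
      rw [hDq, neg_neg] at this
      exact this
  · exact isSec_one (hS' m 0 ω hω r β' μ' hβ'ind (by rw [pow_zero, one_mul]; exact hsum) j)

end

end Pool.Agent.K4H25.GW

end

section

/-!
Regular forms on products of curves are combinations of products of regular forms.
-/

set_option autoImplicit false
set_option linter.overlappingInstances false
set_option linter.unusedSectionVars false
set_option linter.unusedVariables false
set_option linter.unusedSimpArgs false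
set_option maxHeartbeats 4000000
set_option synthInstance.maxHeartbeats 400000

open Polynomial FF IntermediateField Pool.Agent.W619.PQ Pool.Agent.W619.PL Pool.Agent.W619.TW
  Pool.Agent.W603.LV Pool.Agent.K4H25.GQ

namespace Pool.Agent.K4H25.GW

section

variable {k : Type} [Field k] {A B : Type} [Field A] [Field B] [Algebra k A] [Algebra k B]
variable [CharZero k] [IsAlgClosed k] [IsFF k A] [IsFF k B]

theorem pushD_ne (e : A ≃ₐ[k] B) {D : Derivation k A A} (hD : D ≠ 0) : pushD e D ≠ 0 := by
  intro h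
  apply hD
  ext z
  have h1 := congrArg (fun D : Derivation k B B => D (e z)) h
  simp only [pushD_apply, AlgEquiv.symm_apply_apply] at h1
  change e (D z) = 0 at h1
  rw [map_eq_zero] at h1
  exact h1

theorem vo_push (e : A ≃ₐ[k] B) {D : Derivation k A A} (hD : D ≠ 0) (w : Place k B) :
    vo w (pushD e D) = vo (pullP e w) D := by
  obtain ⟨t, ht0, ht⟩ := w.surj
  rw [← vo_eq w ht (pushD_ne e hD), pushD_apply]
  have h1 : (pullP e w).ord (e.symm t) = 1 := by
    rw [pullP_ord, AlgEquiv.apply_symm_apply]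
    exact ht
  rw [← vo_eq (pullP e w) h1 hD, pullP_ord]

end

section

variable {k : Type} [Field k] [CharZero k] [IsAlgClosed k]

theorem trdeg_bot (M : Type) [Field M] [Algebra k M] :
    Algebra.trdeg k (⊥ : IntermediateField k M) = (0 : ℕ) := by
  have h1 : Algebra.IsAlgebraic k (⊥ : IntermediateField k M) := ⟨fun x => by
    obtain ⟨c, hc⟩ := IntermediateField.mem_bot.1 x.2
    have h2 : x = algebraMap k _ c := Subtype.ext hc.symm
    rw [h2]
    exact isAlgebraic_algebraMap c⟩
  rw [Nat.cast_zero]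
  exact trdeg_eq_zero

/-- functions on the curves form a transcendence basis -/
theorem basis_curves {n : ℕ} {M : Type} [Field M] [Algebra k M] (A : Fin n → IntermediateField k M)
    [∀ i, IsFF k (A i)] (hn : Algebra.trdeg k M = n) (hgen : ⨆ i, A i = ⊤) (x : ∀ i, A i)
    (hx : ∀ i, Transcendental k (x i)) : IsTranscendenceBasis k (fun i => (x i : M)) := by
  have hbot := trdeg_bot (k := k) M
  obtain ⟨y, hy⟩ := Pool.Agent.W636.PG.exists_basis k (⊥ : IntermediateField k M) 0 hbot
  have halg : Algebra.IsAlgebraic ↥((⊥ : IntermediateField k M) ⊔ ⨆ i, A i) M := by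
    rw [hgen, bot_sup_eq]
    exact ⟨fun z => isAlgebraic_algebraMap (⟨z, trivial⟩ : (⊤ : IntermediateField k M))⟩
  have h := Pool.Agent.W672.PG.basis_mix (⊥ : IntermediateField k M) A halg
    (by rw [hn, Nat.zero_add]) (Fintype.card_fin 0) y hy x hx
  refine (isTranscendenceBasis_equiv' (Equiv.emptySum (Fin 0) (Fin n)) ?_).1 h
  funext z
  rcases z with z | z
  · exact z.elim0
  · rfl

/-- the transcendence degree of the other factors -/
theorem trdeg_tail {n : ℕ} {M : Type} [Field M] [Algebra k M]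
    (A : Fin (n + 1) → IntermediateField k M)
    [∀ i, IsFF k (A i)] (hn : Algebra.trdeg k M = (n + 1 : ℕ)) (hgen : ⨆ i, A i = ⊤) :
    Algebra.trdeg k ↥(⨆ j : Fin n, A j.succ) = (n : ℕ) ∧
      (⨆ j : Fin n, A j.succ) ⊔ A 0 = ⊤ := by
  obtain ⟨Z, hZ⟩ : ∃ Z : IntermediateField k M, Z = ⨆ j : Fin n, A j.succ := ⟨_, rfl⟩
  rw [← hZ]
  have hAZ : ∀ j : Fin n, A j.succ ≤ Z := fun j => by
    rw [hZ]
    exact le_iSup (fun j : Fin n => A j.succ) j
  have hsup : Z ⊔ A 0 = ⊤ := by
    rw [eq_top_iff, ← hgen]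
    refine iSup_le fun l => ?_
    refine Fin.cases le_sup_right (fun j => ?_) l
    exact (hAZ j).trans le_sup_left
  refine ⟨?_, hsup⟩
  let A' : Fin n → IntermediateField k Z := fun j => restrict (hAZ j)
  have hA' : ∀ j, IsFF k (A' j) := fun j => isFF_iso (restrictAlgEquiv (hAZ j)).symm inferInstance
  have hgen' : ⨆ j, A' j = ⊤ := by
    apply lift_injective Z
    rw [lift_top]
    have h1 : lift (⨆ j, A' j) = ⨆ j, lift (A' j) := by
      unfold IntermediateField.lift
      rw [IntermediateField.map_iSup]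
    rw [h1]
    simp only [A', lift_restrict]
    exact hZ.symm
  have h1 := Pool.Agent.W824.PG.trdeg_le_of_sup (⊥ : IntermediateField k Z) A' (trdeg_bot Z)
    (by rw [bot_sup_eq]; exact hgen')
  rw [Nat.zero_add] at h1
  obtain ⟨m, hm⟩ := Cardinal.lt_aleph0.1 (lt_of_le_of_lt h1 Cardinal.natCast_lt_aleph0)
  have h2 := Pool.Agent.W824.PG.trdeg_le_of_sup (d := m) Z (fun _ : Fin 1 => A 0) hm
    (by rw [ciSup_const]; exact hsup)
  rw [hn] at h2
  rw [hm] at h1 ⊢
  have h3 : m ≤ n := by exact_mod_cast h1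
  have h4 : n + 1 ≤ m + 1 := by exact_mod_cast h2
  have h5 : m = n := by omega
  rw [h5]

/-- **Künneth.** -/
theorem kun (n : ℕ) : ∀ (M : Type) [Field M] [Algebra k M] (A : Fin n → IntermediateField k M)
    [∀ i, IsFF k (A i)], Algebra.trdeg k M = (n : ℕ) → ⨆ i, A i = ⊤ →
    ∀ (x : ∀ i, A i), (∀ i, Transcendental k (x i)) →
    ∀ (δ : ∀ i, Derivation k (A i) (A i)), (∀ i, δ i (x i) = 1) →
    ∀ (E : Fin n → Derivation k M M), (∀ i j, E i (x j : M) = if i = j then 1 else 0) →
    ∀ (m : ℕ) (ω : (Fin n → Derivation k M M) → M), IsSec k M n (fun _ => False) {1} m 0 ω →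
    ω E ∈ Submodule.span k {z : M | ∃ β : ∀ i, A i,
      (∀ i, β i = 0 ∨ ∀ q : Place k (A i), m * vo q (δ i) ≤ q.ord (β i)) ∧
        z = ∏ i, (β i : M)} := by
  induction n with
  | zero =>
    intro M _ _ A _ hn hgen x hx δ hδ E hE m ω hω
    have halg : Algebra.IsAlgebraic k M := _root_.trdeg_eq_zero_iff.1 (by rw [hn, Nat.cast_zero])
    have hbij : Function.Bijective (algebraMap k M) :=
      IsAlgClosed.algebraMap_bijective_of_isIntegral
    obtain ⟨c, hc⟩ := hbij.2 (ω E)
    rw [← hc, ← mul_one (algebraMap k M c), ← Algebra.smul_def]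
    refine Submodule.smul_mem _ _ (Submodule.subset_span ⟨fun i => i.elim0, fun i => i.elim0, ?_⟩)
    rw [Finset.univ_eq_empty, Finset.prod_empty]
  | succ n ih =>
    intro M _ _ A _ hn hgen x hx δ hδ E hE m ω hω
    obtain ⟨htZ, hsup⟩ := trdeg_tail A hn hgen
    obtain ⟨Z, hZ⟩ : ∃ Z : IntermediateField k M, Z = ⨆ j : Fin n, A j.succ := ⟨_, rfl⟩
    rw [← hZ] at htZ hsup
    have hAZ : ∀ j : Fin n, A j.succ ≤ Z := fun j => by
      rw [hZ]
      exact le_iSup (fun j : Fin n => A j.succ) j
    let A' : Fin n → IntermediateField k Z := fun j => restrict (hAZ j)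
    have hA' : ∀ j, IsFF k (A' j) := fun j =>
      isFF_iso (restrictAlgEquiv (hAZ j)).symm inferInstance
    have hgen' : ⨆ j, A' j = ⊤ := by
      apply lift_injective Z
      rw [lift_top]
      have h1 : lift (⨆ j, A' j) = ⨆ j, lift (A' j) := by
        unfold IntermediateField.lift
        rw [IntermediateField.map_iSup]
      rw [h1]
      simp only [A', lift_restrict]
      exact hZ.symm
    let φ : ∀ j, A j.succ ≃ₐ[k] A' j := fun j => restrictAlgEquiv (hAZ j)
    have hφ : ∀ j (z : A j.succ), (((φ j z : A' j) : Z) : M) = z := fun j z => rfl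
    let x' : ∀ j, A' j := fun j => φ j (x j.succ)
    have hx' : ∀ j, Transcendental k (x' j) := fun j h =>
      hx j.succ ((isAlgebraic_algHom_iff (φ j : A j.succ →ₐ[k] A' j) (φ j).injective).1 h)
    let y : Fin n → Z := fun j => (x' j : Z)
    have hyM : ∀ j, (y j : M) = (x j.succ : M) := fun j => rfl
    have hy : IsTranscendenceBasis k y := basis_curves A' htZ hgen' x' hx'
    have hE0 : ∀ μ : Z, E 0 (μ : M) = 0 := by
      intro μ
      have h1 := der_comp (0 : Derivation k Z Z) (E 0) y hy (fun j => by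
        change E 0 (x j.succ : M) = ((0 : Z) : M)
        rw [hE, if_neg (Fin.succ_ne_zero j).symm]
        rfl) μ
      exact h1
    have hEF : ∀ l : Fin n, ∀ β : A 0, E l.succ (β : M) = 0 := by
      intro l β
      obtain ⟨r, -, hr2⟩ := ratio' (K := M) (hx 0) β
      have h2 := hr2 (E l.succ)
      change E l.succ (β : M) = (r : M) * E l.succ (x 0 : M) at h2
      rw [h2, hE, if_neg (Fin.succ_ne_zero l), mul_zero]
    obtain ⟨r, β, μ, hβ, hsum, hμ⟩ := kun_step Z (A 0) htZ hn hsup y hy (x 0) (hx 0) (δ 0) (hδ 0) E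
      hE0 (by rw [hE, if_pos rfl]) hEF (fun l j => by
        rw [hyM, hE]
        simp only [Fin.succ_inj]) hω
    choose dZ hdZ using fun l => exists_dual y hy l
    have hδne : ∀ i, δ i ≠ 0 := fun i h => by
      have h1 := hδ i
      rw [h] at h1
      exact zero_ne_one h1
    rw [hsum]
    refine Submodule.sum_mem _ fun i _ => ?_
    have h1 := ih Z A' htZ hgen' x' hx' (fun j => pushD (φ j) (δ j.succ)) (fun j => by
      rw [pushD_apply]
      change φ j (δ j.succ ((φ j).symm (φ j (x j.succ)))) = 1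
      rw [AlgEquiv.symm_apply_apply, hδ, map_one]) dZ (fun l j => by
      change dZ l (y j) = _
      rw [hdZ]
      by_cases h : j = l
      · rw [if_pos h, if_pos h.symm]
      · rw [if_neg h, if_neg (Ne.symm h)]) m _ (hμ i)
    have h2 : (Matrix.of fun a b => dZ a (y b)).det = 1 := by
      have h3 : (Matrix.of fun a b => dZ a (y b)) = 1 := by
        ext a b
        rw [Matrix.of_apply, Matrix.one_apply, hdZ]
        by_cases h : b = a
        · rw [if_pos h, if_pos h.symm]
        · rw [if_neg h, if_neg (Ne.symm h)]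
      rw [h3, Matrix.det_one]
    rw [h2, one_pow, mul_one] at h1
    -- back to `M`
    have h4 : ∀ z ∈ Submodule.span k {z : Z | ∃ β : ∀ j, A' j,
        (∀ j, β j = 0 ∨ ∀ q : Place k (A' j),
          m * vo q (pushD (φ j) (δ j.succ)) ≤ q.ord (β j)) ∧ z = ∏ j, (β j : Z)},
        ((β i : A 0) : M) * (z : M) ∈ Submodule.span k {z : M | ∃ β : ∀ i, A i,
      (∀ i, β i = 0 ∨ ∀ q : Place k (A i), m * vo q (δ i) ≤ q.ord (β i)) ∧
        z = ∏ i, (β i : M)} := by
      intro z hz
      induction hz using Submodule.span_induction with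
      | mem z hz =>
        obtain ⟨b, hb, rfl⟩ := hz
        refine Submodule.subset_span ⟨Fin.cons (β i) fun j => (φ j).symm (b j), fun l => ?_, ?_⟩
        · refine Fin.cases (hβ i) (fun j => ?_) l
          rw [Fin.cons_succ]
          rcases hb j with h | h
          · left
            rw [h, map_zero]
          · right
            intro q
            have h5 := h (pullP (φ j).symm q)
            rw [vo_push _ (hδne _), pullP_symm' (φ j) q] at h5
            exact h5
        · rw [Fin.prod_univ_succ, Fin.cons_zero]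
          congr 1
          push_cast
          refine Finset.prod_congr rfl fun j _ => ?_
          rw [Fin.cons_succ, ← hφ, AlgEquiv.apply_symm_apply]
      | zero =>
        rw [ZeroMemClass.coe_zero, mul_zero]
        exact Submodule.zero_mem _
      | add a b _ _ ha hb =>
        push_cast
        rw [mul_add]
        exact Submodule.add_mem _ ha hb
      | smul c a _ ha =>
        have h5 : ((c • a : Z) : M) = c • (a : M) := rfl
        rw [h5, mul_smul_comm]
        exact Submodule.smul_mem _ _ ha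
    exact h4 _ h1

end

end Pool.Agent.K4H25.GW

end

section

/-!
The orders of the regular forms on products of curves.
-/

set_option autoImplicit false
set_option linter.overlappingInstances false
set_option linter.unusedSectionVars false
set_option linter.unusedVariables false
set_option linter.unusedSimpArgs false
set_option maxHeartbeats 4000000
set_option synthInstance.maxHeartbeats 400000

open Polynomial FF IntermediateField Pool.Agent.W619.PQ Pool.Agent.W619.PL Pool.Agent.W619.TW
  Pool.Agent.W603.LV Pool.Agent.K4H25.GQ Pool.Agent.W619.X Pool.Agent.W619.Y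

namespace Pool.Agent.K4H25.GW

section

variable {k : Type} [Field k] [CharZero k] [IsAlgClosed k] {M : Type} [Field M] [Algebra k M]

/-- a curve at a place -/
theorem curve_loc2 (A : IntermediateField k M) [hA : IsFF k A] (x : A) (hx : Transcendental k x)
    (δ : Derivation k A A) (hδ : δ x = 1) (w : Place k M) :
    ∃ (t r : A) (f : ℕ), t ≠ 0 ∧ w.ord (t : M) = f ∧
      (∀ D : Derivation k M M, D (x : M) = (r : M) * D (t : M)) ∧
      (∀ (m : ℕ) (β : A), (β = 0 ∨ ∀ q : Place k A, m * vo q δ ≤ q.ord β) →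
        Ge w 0 ((β : M) * (r : M) ^ m)) ∧
      (((∀ z ∈ A, w.ord z = 0) ∧ f = 0) ∨ ∃ w' : Place k A, Over w w' f) := by
  have hδ0 : δ ≠ 0 := by
    intro h
    rw [h] at hδ
    exact zero_ne_one hδ
  have hx0 : x ≠ 0 := by
    intro h0
    rw [h0] at hx
    exact hx (isAlgebraic_zero)
  by_cases htriv : ∀ f : A, w.ord (algebraMap A M f) = 0
  · refine ⟨x, 1, 0, hx0, htriv x, fun D => ?_, fun m β _ => ?_,
      Or.inl ⟨fun z hz => htriv ⟨z, hz⟩, rfl⟩⟩
    · rw [OneMemClass.coe_one, one_mul]
    · rw [OneMemClass.coe_one, one_pow, mul_one]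
      exact Or.inr (htriv β).ge
  push Not at htriv
  obtain ⟨f, w', hw'⟩ := exists_over (K := A) w htriv
  obtain ⟨t, ht0, ht⟩ := w'.surj
  have htt : Transcendental k t := trans_of_ord w' (by omega)
  obtain ⟨r, hr1, hr2⟩ := ratio' (K := M) htt x
  have hδt : δ t ≠ 0 := der_ne_zero hδ0 htt
  have hrt : r * δ t = 1 := by rw [← hr1 δ, hδ]
  have hr0 : r ≠ 0 := left_ne_zero_of_mul_eq_one hrt
  have hrord : w'.ord r = - vo w' δ := by
    have h1 := w'.ord_mul hr0 hδt
    rw [hrt, w'.ord_one, vo_eq w' ht hδ0] at h1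
    omega
  refine ⟨t, r, f, ht0, ?_, fun D => hr2 D, fun m β hβ => ?_, Or.inr ⟨w', hw'⟩⟩
  · have h1 := hw'.2 t
    rw [ht, mul_one] at h1
    exact h1
  · have h1 : ((β : M) * (r : M) ^ m) = algebraMap A M (β * r ^ m) := by
      rw [map_mul, map_pow]
      rfl
    rw [h1]
    rcases hβ with h | h
    · left
      rw [h, zero_mul, map_zero]
    · by_cases hβ0 : β = 0
      · left
        rw [hβ0, zero_mul, map_zero]
      right
      rw [hw'.2, w'.ord_mul hβ0 (pow_ne_zero _ hr0), w'.ord_pow, hrord]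
      have h2 := h w'
      have h3 : (0 : ℤ) ≤ f := by positivity
      have h4 : 0 ≤ w'.ord β + m * -vo w' δ := by linarith
      exact mul_nonneg h3 h4

open scoped Classical in
/-- **The orders of the regular forms.** -/
theorem age_est {n : ℕ} (A : Fin n → IntermediateField k M)
    [hA : ∀ i, IsFF k (A i)] (hn : Algebra.trdeg k M = (n : ℕ)) (hgen : ⨆ i, A i = ⊤)
    (w : Place k M) : ∃ f : Fin n → ℕ,
      (∀ i, ((∀ z ∈ A i, w.ord z = 0) ∧ f i = 0) ∨ ∃ w' : Place k (A i), Over w w' (f i)) ∧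
      ∀ (m : ℕ) (ω : (Fin n → Derivation k M M) → M), IsSec k M n (fun _ => False) {1} m 0 ω →
        ∀ D : Fin n → Derivation k M M, (∀ j, Pres w (D j)) →
          Ge w (m * (((∑ i, f i : ℕ) : ℤ) - 1)) (ω D) := by
  classical
  choose x hx using fun i => IsFF.exists_transcendental (k := k) (K := A i)
  choose δ hδ0 hδ using fun i => exists_ddx (hx i)
  choose t r f ht0 hft hrx hβ hf using fun i => curve_loc2 (A i) (x i) (hx i) (δ i) (hδ i) w
  refine ⟨f, hf, fun m ω hω D hD => ?_⟩
  have hbasis := basis_curves A hn hgen x hx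
  obtain ⟨E, hE⟩ := Pool.Agent.W636.PG.exists_duals k M n _ hbasis
  have h1 := kun n M A hn hgen x hx δ hδ E (fun i j => hE i j) m ω hω
  have h2 := Pool.Agent.W636.PG.form_eq k M n m _ hbasis E hE ω hω.1 D
  have htM : ∀ i, (t i : M) ≠ 0 := fun i h => ht0 i (Subtype.ext h)
  have h3 : (Matrix.of fun i j => D i ((x j : A j) : M)).det =
      (∏ i, (r i : M)) * (Matrix.of fun i j => D i ((t j : A j) : M)).det := by
    rw [det_factor D _ (fun j => ((t j : A j) : M)) (Matrix.diagonal fun i => (r i : M)) (by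
      intro D i
      rw [Finset.sum_eq_single i]
      · rw [Matrix.diagonal_apply_eq]
        exact hrx i D
      · intro b _ hb
        rw [Matrix.diagonal_apply_ne _ (Ne.symm hb), zero_mul]
      · intro h
        exact absurd (Finset.mem_univ i) h), Matrix.det_diagonal]
  have h4 : (Matrix.of fun i j => D i ((t j : A j) : M)).det =
      (∏ i, (t i : M)) * (Matrix.of fun i j => D i ((t j : A j) : M) / (t j : M)).det :=
    det_dlog D _ htM
  have h5 := det_log w D hD (fun j => ((t j : A j) : M)) htM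
  have h6 : Ge w (∑ i, w.ord (t i : M)) (∏ i, (t i : M)) :=
    Ge.prod _ _ _ fun c _ => Or.inr le_rfl
  have h7 : Ge w (((∑ i, f i : ℕ) : ℤ) - 1) (Matrix.of fun i j => D i ((t j : A j) : M)).det := by
    rw [h4]
    refine (h6.mul h5).mono ?_
    rw [Finset.sum_congr rfl fun i _ => hft i]
    push_cast
    linarith
  -- the coefficient
  have h8 : ∀ z ∈ Submodule.span k {z : M | ∃ β : ∀ i, A i,
      (∀ i, β i = 0 ∨ ∀ q : Place k (A i), m * vo q (δ i) ≤ q.ord (β i)) ∧
        z = ∏ i, (β i : M)}, Ge w 0 (z * (∏ i, (r i : M)) ^ m) := by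
    intro z hz
    induction hz using Submodule.span_induction with
    | mem z hz =>
      obtain ⟨b, hb, rfl⟩ := hz
      rw [← Finset.prod_pow, ← Finset.prod_mul_distrib]
      have h9 := Ge.prod (P := w) Finset.univ (fun i => (b i : M) * (r i : M) ^ m) (fun _ => (0 : ℤ))
        fun i _ => hβ i m (b i) (hb i)
      simpa using h9
    | zero =>
      left
      rw [zero_mul]
    | add a b _ _ ha hb =>
      rw [add_mul]
      exact ha.add hb
    | smul c a _ ha =>
      rw [smul_mul_assoc, Algebra.smul_def]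
      have h9 : Ge w 0 (algebraMap k M c) := by
        by_cases hc : c = 0
        · left
          rw [hc, map_zero]
        · right
          rw [w.ord_const hc]
      have := h9.mul ha
      simpa using this
  have h9 := (h8 _ h1).mul (h7.pow m)
  rw [h2, h3]
  refine (show Ge w _ _ from ?_)
  have e1 : ((∏ i, (r i : M)) * (Matrix.of fun i j => D i ((t j : A j) : M)).det) ^ m * ω E =
      ω E * (∏ i, (r i : M)) ^ m * (Matrix.of fun i j => D i ((t j : A j) : M)).det ^ m := by
    ring
  rw [e1]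
  refine h9.mono ?_
  rw [zero_add]

end

end Pool.Agent.K4H25.GW

end

section

/-!
The reduction to the subgroup generated by the junior elements.
-/

set_option autoImplicit false
set_option linter.overlappingInstances false
set_option linter.unusedSectionVars false
set_option linter.unusedVariables false
set_option linter.unusedSimpArgs false
set_option maxHeartbeats 4000000
set_option synthInstance.maxHeartbeats 400000

open Polynomial FF IntermediateField Pool.Agent.W619.PQ Pool.Agent.W619.PL Pool.Agent.W619.TW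
  Pool.Agent.W603.LV Pool.Agent.K4H25.GQ Pool.Agent.Y174 Pool.Agent.R885.N

namespace Pool.Agent.K4H25.GW

section

variable {M : Type} [Field M] [Algebra ℂ M] {n : ℕ}

/-- The automorphism `g ≠ 1` of order `N` is junior: for some primitive `N`-th root of unity `ζ` it
acts on the curves at some places as the rotations by `ζ ^ a i` with `0 ≤ a i < N` and
`∑ a i < N`. -/
def Junior (C : Fin n → IntermediateField ℂ M) (g : M ≃ₐ[ℂ] M) : Prop :=
  g ≠ 1 ∧ ∃ (ζ : ℂ) (w : ∀ i, Place ℂ (C i)) (a : Fin n → ℕ), IsPrimitiveRoot ζ (orderOf g) ∧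
    (∀ i, Rotates (C i) g (w i) (ζ ^ a i)) ∧ ∑ i, a i < orderOf g

/-- At a place where the ramification index is larger than the age the generator of the inertia
group is junior. -/
theorem junior_at (C : Fin n → IntermediateField ℂ M) [hC : ∀ i, IsFF ℂ (C i)]
    (G : Subgroup (M ≃ₐ[ℂ] M)) [Finite G] (hst : ∀ g ∈ G, ∀ i, ∀ z ∈ C i, g z ∈ C i)
    (J : Subgroup (M ≃ₐ[ℂ] M)) [Finite J] (hJ : ∀ g ∈ G, Junior C g → g ∈ J)
    {w : Place ℂ M} {v : Place ℂ (fixedField G)} {u : Place ℂ (fixedField J)} {e e' : ℕ}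
    (hv : Over w v e) (hu : Over w u e') {f : Fin n → ℕ}
    (hf : ∀ i, ((∀ z ∈ C i, w.ord z = 0) ∧ f i = 0) ∨ ∃ w' : Place ℂ (C i), Over w w' (f i))
    (hlt : ∑ i, f i < e) : e ≤ e' := by
  classical
  by_cases he : e = 1
  · rw [he]
    exact hu.1
  obtain ⟨I, hIcard, hI⟩ := inertia_at G hv
  obtain ⟨g, hgI, hord, ζ, hζ, hrot⟩ := exists_rot_generator w I hI
  rw [hIcard] at hord hζ
  have hgin := hI g hgI
  have hg1 : (g : M ≃ₐ[ℂ] M) ≠ 1 := by
    intro h1
    rw [h1, orderOf_one] at hord
    exact he hord.symm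
  have hjun : Junior C (g : M ≃ₐ[ℂ] M) := by
    have hw : ∀ i, ∃ w' : Place ℂ (C i), Rotates (C i) (g : M ≃ₐ[ℂ] M) w' (ζ ^ f i) := by
      intro i
      rcases hf i with ⟨h1, h2⟩ | ⟨w', h1⟩
      · obtain ⟨w', -⟩ := exists_place (k := ℂ) (K := C i)
        refine ⟨w', fun t z ht hz => Or.inl ?_⟩
        apply Subtype.ext
        have hcoe : ((z - algebraMap ℂ (C i) (ζ ^ f i) * t : C i) : M) =
            (g : M ≃ₐ[ℂ] M) t - algebraMap ℂ M (ζ ^ f i) * t := by
          rw [hz]
          rfl
        rw [hcoe, inert_triv hgin (hst g g.2 i) h1 t t.2, h2, pow_zero, map_one, one_mul, sub_self]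
        rfl
      · refine ⟨w', fun t z ht hz => ?_⟩
        have hcoe : ((z - algebraMap ℂ (C i) (ζ ^ f i) * t : C i) : M) =
            (g : M ≃ₐ[ℂ] M) t - algebraMap ℂ M (ζ ^ f i) * t := by
          rw [hz]
          rfl
        have ht0 : (t : M) ≠ 0 := by
          intro h0
          have h1 : t = 0 := Subtype.ext h0
          rw [h1, w'.ord_zero] at ht
          omega
        have h2 : w.ord (t : M) = f i := by
          have := h1.2 t
          rw [ht, mul_one] at this
          exact this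
        have h3 := hrot (t : M) ht0
        rw [h2, zpow_natCast, ← hcoe] at h3
        rcases h3 with h3 | h3
        · exact Or.inl (Subtype.ext h3)
        · right
          have h5 := h1.2 (z - algebraMap ℂ (C i) (ζ ^ f i) * t : C i)
          change w.ord ((z - algebraMap ℂ (C i) (ζ ^ f i) * t : C i) : M) = _ at h5
          rw [h5] at h3
          have h6 : (1 : ℤ) ≤ f i := by exact_mod_cast h1.1
          by_contra hcon
          push Not at hcon
          nlinarith
    choose w' hw' using hw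
    refine ⟨hg1, ζ, w', f, by rw [hord]; exact hζ, hw', ?_⟩
    rw [hord]
    exact hlt
  have hgJ := hJ g g.2 hjun
  obtain ⟨z, hz0, hz⟩ := u.surj
  have hzM : (z : M) ≠ 0 := fun h => hz0 (Subtype.ext h)
  have h1 : w.ord (z : M) = e' := by
    have := hu.2 z
    rw [hz, mul_one] at this
    exact this
  have h2 := hrot (z : M) hzM
  have h3 : (g : M ≃ₐ[ℂ] M) (z : M) = z := z.2 ⟨_, hgJ⟩
  rw [h3, h1, zpow_natCast] at h2
  have h4 : (z : M) - algebraMap ℂ M (ζ ^ e') * z = algebraMap ℂ M (1 - ζ ^ e') * z := by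
    rw [map_sub, map_one]
    ring
  rw [h4] at h2
  have h5 : ζ ^ e' = 1 := by
    by_contra hne
    have h6 : (1 : ℂ) - ζ ^ e' ≠ 0 := sub_ne_zero.2 (Ne.symm hne)
    have h7 : algebraMap ℂ M (1 - ζ ^ e') ≠ 0 := (_root_.map_ne_zero _).2 h6
    rcases h2 with h2 | h2
    · exact mul_ne_zero h7 hzM h2
    · rw [w.ord_mul h7 hzM, w.ord_const h6, h1] at h2
      omega
  exact Nat.le_of_dvd hu.1 ((hζ.pow_eq_one_iff_dvd _).1 h5)

/-- **The reduction to the subgroup generated by the junior elements.** -/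
theorem junior_red (C : Fin n → IntermediateField ℂ M) [hC : ∀ i, IsFF ℂ (C i)]
    (hn : Algebra.trdeg ℂ M = (n : ℕ)) (hgen : ⨆ i, C i = ⊤)
    (G : Subgroup (M ≃ₐ[ℂ] M)) [Finite G] (hst : ∀ g ∈ G, ∀ i, ∀ z ∈ C i, g z ∈ C i)
    (J : Subgroup (M ≃ₐ[ℂ] M)) (hJG : J ≤ G) (hJ : ∀ g ∈ G, Junior C g → g ∈ J)
    (h : PosB ℂ (fixedField J) n (fun _ => 0) ∨ NegB ℂ (fixedField J) n (fun _ => 0)) :
    PosB ℂ (fixedField G) n (fun _ => 0) ∨ NegB ℂ (fixedField G) n (fun _ => 0) := by
  classical
  have hfJ : Finite J := Finite.of_injective (Subgroup.inclusion hJG)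
    (Subgroup.inclusion_injective hJG)
  have hGJ : fixedField G ≤ fixedField J := fun z hz g => hz ⟨g, hJG g.2⟩
  have hessM : Algebra.EssFiniteType ℂ M := by
    have h1 : Algebra.EssFiniteType ℂ ↥(⨆ i, C i) := essFiniteType_iff.2
      (fg_iSup fun i => essFiniteType_iff.1 (IsFF.ess))
    rw [hgen] at h1
    exact (Algebra.EssFiniteType.iff_of_algEquiv (topEquiv (F := ℂ) (E := M))).1 h1
  have halgG := Pool.Agent.W721.PG.EFF2.alg_fixed G
  have halgJ := Pool.Agent.W721.PG.EFF2.alg_fixed J
  have hfinG : FiniteDimensional (fixedField G) M := fixed_finite G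
  have hfinJ : FiniteDimensional (fixedField J) M := fixed_finite J
  obtain ⟨htG, -⟩ := Pool.Agent.W721.PG.EFF2.exists_basis (fixedField G) n hn
  obtain ⟨htJ, -⟩ := Pool.Agent.W721.PG.EFF2.exists_basis (fixedField J) n hn
  have hessG : Algebra.EssFiniteType ℂ (fixedField G) := Pool.Agent.TH466.QG.ess_below (K := M)
  have hessJ : Algebra.EssFiniteType ℂ (fixedField J) := Pool.Agent.TH466.QG.ess_below (K := M)
  let _ : Algebra (fixedField G) (fixedField J) := (inclusion hGJ).toRingHom.toAlgebra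
  have t1 : IsScalarTower ℂ (fixedField G) (fixedField J) :=
    IsScalarTower.of_algebraMap_eq fun c => rfl
  have t2 : IsScalarTower (fixedField G) (fixedField J) M :=
    IsScalarTower.of_algebraMap_eq fun c => rfl
  have hfin : FiniteDimensional (fixedField G) (fixedField J) :=
    FiniteDimensional.left (fixedField G) (fixedField J) M
  have hb : ∀ v : Place ℂ (fixedField G), IsDivisorial v n →
      ∀ (w : Place ℂ (fixedField J)) (e : ℕ), LiesOn w v e →
      1 - (e : ℝ) * (1 - (fun _ : Place ℂ (fixedField G) => (0 : ℝ)) v) ≤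
        (fun _ : Place ℂ (fixedField J) => (0 : ℝ)) w := by
    intro v _ w e hw
    have h1 : (1 : ℝ) ≤ e := by exact_mod_cast hw.1
    beta_reduce
    linarith
  rcases h with ⟨d, hd, h1, h2⟩ | h1
  swap
  · exact Or.inr (neg_pull hessG htG hb h1)
  refine Or.inl ⟨d, hd, ?_, w0_num hessG htG hb h2⟩
  -- the ramification indices
  choose eG vG hG using fun w : Place ℂ M =>
    Pool.Agent.W73.PG.PULL.exists_over' (K := fixedField G) w
  choose eJ vJ hJ' using fun w : Place ℂ M =>
    Pool.Agent.W73.PG.PULL.exists_over' (K := fixedField J) w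
  have h3 : PairKod ℂ M n (fun w => 1 - (eJ w : ℝ)) d := by
    refine ((fin_all (K := fixedField J) (L := M) hessJ htJ
      (δ := fun _ => 0) (δ' := fun w => 1 - (eJ w : ℝ)) ?_).1 d).2 h1
    intro v _ w e hw
    obtain ⟨h4, -⟩ := over_uniq hw (hJ' w)
    rw [h4]
    ring
  refine w0_desc hn hessM G (fun _ => 0) (fun w => 1 - (eG w : ℝ)) ?_ ?_
  · intro v _ w e hw
    obtain ⟨h4, -⟩ := over_uniq hw (hG w)
    rw [h4]
    apply le_of_eq
    ring
  obtain ⟨m, hm, ω, hω, D, hD, hind⟩ := h3
  refine ⟨m, hm, ω, fun l => ⟨(hω l).1, fun w hw E hE => ?_⟩, D, hD, hind⟩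
  -- orders
  have hJ1 : ∀ w, 1 ≤ eJ w := fun w => (hJ' w).1
  have hsec : ∀ w, IsDivisorial w n → ∀ E : Fin n → Derivation ℂ M M,
      (∀ l, ∀ f, w.Reg f → w.Reg (E l f)) → ω l E = 0 ∨ (m : ℤ) * (eJ w - 1) ≤ w.ord (ω l E) := by
    intro w hw E hE
    rcases (hω l).2 w hw E hE with h4 | ⟨s, hs, hs0, h4⟩
    · exact Or.inl h4
    · right
      simp only [Nat.cast_zero, zero_mul, zero_sub] at h4
      have h5 : (((m : ℤ) * (eJ w - 1) : ℤ) : ℝ) ≤ ((w.ord (ω l E) : ℤ) : ℝ) := by
        push_cast
        linarith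
      exact_mod_cast h5
  have hreg : IsSec ℂ M n (fun _ => False) {1} m 0 (ω l) := by
    refine ⟨(hω l).1, fun w hw _ E hE => ?_, fun _ _ hF => hF.elim⟩
    rcases hsec w hw E hE with h4 | h4
    · exact Or.inl h4
    · refine Or.inr ⟨1, Finset.mem_singleton_self _, one_ne_zero, ?_⟩
      have h5 : (1 : ℤ) ≤ eJ w := by exact_mod_cast hJ1 w
      have h6 : (0 : ℤ) ≤ m := by positivity
      have h7 : (0 : ℤ) ≤ (m : ℤ) * (eJ w - 1) := mul_nonneg h6 (by omega)
      simp only [Nat.cast_zero, zero_mul]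
      omega
  have hmain : ω l E = 0 ∨ (m : ℤ) * (eG w - 1) ≤ w.ord (ω l E) := by
    obtain ⟨f, hf, hage⟩ := age_est C hn hgen w
    have h4 := hage m (ω l) hreg E hE
    have h6 : (0 : ℤ) ≤ m := by positivity
    by_cases hlt : ∑ i, f i < eG w
    · have h5 := junior_at C G hst J hJ (hG w) (hJ' w) hf hlt
      rcases hsec w hw E hE with h7 | h7
      · exact Or.inl h7
      · right
        have h8 : (eG w : ℤ) ≤ eJ w := by exact_mod_cast h5
        nlinarith
    · rcases h4 with h7 | h7
      · exact Or.inl h7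
      · right
        have h8 : (eG w : ℤ) ≤ ((∑ i, f i : ℕ) : ℤ) := by exact_mod_cast not_lt.1 hlt
        nlinarith
  rcases hmain with h4 | h4
  · exact Or.inl h4
  · refine Or.inr ⟨1, Finset.mem_singleton_self _, one_ne_zero, ?_⟩
    have h5 : (((m : ℤ) * (eG w - 1) : ℤ) : ℝ) ≤ ((w.ord (ω l E) : ℤ) : ℝ) := by exact_mod_cast h4
    push_cast at h5
    simp only [Nat.cast_zero, zero_mul, zero_sub]
    linarith

end

end Pool.Agent.K4H25.GW

end

section

/-!
Local parameters of the curves at a place.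
-/

set_option autoImplicit false
set_option linter.overlappingInstances false
set_option linter.unusedSectionVars false
set_option linter.unusedVariables false
set_option linter.unusedSimpArgs false
set_option maxHeartbeats 4000000
set_option synthInstance.maxHeartbeats 400000

open Polynomial FF IntermediateField Pool.Agent.W619.PQ Pool.Agent.W619.PL Pool.Agent.W619.TW
  Pool.Agent.W603.LV Pool.Agent.K4H25.GQ Pool.Agent.W619.X Pool.Agent.W619.Y

namespace Pool.Agent.K4H25.GW

section

variable {k : Type} [Field k] {M : Type} [Field M] [Algebra k M]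

/-- `t` is a local parameter at `w` of the curve with the function field `A`. -/
def Par (w : Place k M) (A : IntermediateField k M) (t : M) : Prop :=
  t ∈ A ∧ t ≠ 0 ∧ (((∀ z ∈ A, w.ord z = 0) ∧ Transcendental k t) ∨
    ∃ (w' : Place k A) (f : ℕ), Over w w' f ∧ w.ord t = f)

theorem Par.nonneg {w : Place k M} {A : IntermediateField k M} {t : M} (h : Par w A t) :
    0 ≤ w.ord t := by
  obtain ⟨h1, h2, ⟨h3, -⟩ | ⟨w', f, h3, h4⟩⟩ := h
  · rw [h3 t h1]
  · rw [h4]
    positivity

end

section

variable {k : Type} [Field k] [CharZero k] [IsAlgClosed k] {M : Type} [Field M] [Algebra k M]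

theorem exists_par (A : IntermediateField k M) [hA : IsFF k A] (w : Place k M) :
    ∃ t, Par w A t := by
  obtain ⟨x, hx⟩ := IsFF.exists_transcendental (k := k) (K := A)
  have hx' : Transcendental k (x : M) := fun h =>
    hx ((isAlgebraic_algebraMap_iff (algebraMap A M).injective).1 h)
  by_cases htriv : ∀ f : A, w.ord (algebraMap A M f) = 0
  · exact ⟨x, x.2, fun h => hx' (h ▸ isAlgebraic_zero),
      Or.inl ⟨fun z hz => htriv ⟨z, hz⟩, hx'⟩⟩
  · push Not at htriv
    obtain ⟨f, w', hw'⟩ := exists_over (K := A) w htriv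
    obtain ⟨t, ht0, ht⟩ := w'.surj
    refine ⟨t, t.2, fun h => ht0 (Subtype.ext h), Or.inr ⟨w', f, hw', ?_⟩⟩
    have h1 := hw'.2 t
    rw [ht, mul_one] at h1
    exact h1

/-- the form on one of the curves -/
theorem par_loc (A : IntermediateField k M) [hA : IsFF k A] (x : A)
    (δ : Derivation k A A) (hδ : δ x = 1) (w : Place k M) {t : M} (ht : Par w A t) :
    ∃ r : A, (∀ D : Derivation k M M, D (x : M) = (r : M) * D t) ∧
      ∀ (m : ℕ) (β : A), (β = 0 ∨ ∀ q : Place k A, m * vo q δ ≤ q.ord β) →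
        Ge w 0 ((β : M) * (r : M) ^ m) := by
  have hδ0 : δ ≠ 0 := by
    intro h
    rw [h] at hδ
    exact zero_ne_one hδ
  obtain ⟨htA, ht0, ht⟩ := ht
  obtain ⟨s, hs⟩ : ∃ s : A, (s : M) = t := ⟨⟨t, htA⟩, rfl⟩
  subst hs
  rcases ht with ⟨htriv, htr⟩ | ⟨w', f, hw', hf⟩
  · have hst : Transcendental k s := fun h => htr (h.algebraMap)
    obtain ⟨r, hr1, hr2⟩ := ratio' (K := M) hst x
    refine ⟨r, fun D => hr2 D, fun m β _ => Or.inr ?_⟩
    have h1 : ((β : M) * (r : M) ^ m) ∈ A := mul_mem β.2 (pow_mem r.2 m)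
    rw [htriv _ h1]
  · have hs1 : w'.ord s = 1 := by
      have h1 := hw'.2 s
      change w.ord (s : M) = _ at h1
      rw [hf] at h1
      have h2 : (0 : ℤ) < f := by exact_mod_cast hw'.1
      have h3 : (f : ℤ) * (w'.ord s - 1) = 0 := by rw [mul_sub, ← h1]; ring
      rcases mul_eq_zero.1 h3 with h4 | h4
      · omega
      · omega
    have hs0 : s ≠ 0 := fun h => ht0 (congrArg Subtype.val h)
    have hst : Transcendental k s := trans_of_ord w' (by omega)
    obtain ⟨r, hr1, hr2⟩ := ratio' (K := M) hst x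
    have hδt : δ s ≠ 0 := der_ne_zero hδ0 hst
    have hrt : r * δ s = 1 := by rw [← hr1 δ, hδ]
    have hr0 : r ≠ 0 := left_ne_zero_of_mul_eq_one hrt
    have hrord : w'.ord r = - vo w' δ := by
      have h1 := w'.ord_mul hr0 hδt
      rw [hrt, w'.ord_one, vo_eq w' hs1 hδ0] at h1
      omega
    refine ⟨r, fun D => hr2 D, fun m β hβ => ?_⟩
    have h1 : ((β : M) * (r : M) ^ m) = algebraMap A M (β * r ^ m) := by
      rw [map_mul, map_pow]
      rfl
    rw [h1]
    rcases hβ with h | h
    · left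
      rw [h, zero_mul, map_zero]
    · by_cases hβ0 : β = 0
      · left
        rw [hβ0, zero_mul, map_zero]
      right
      rw [hw'.2, w'.ord_mul hβ0 (pow_ne_zero _ hr0), w'.ord_pow, hrord]
      have h2 := h w'
      have h3 : (0 : ℤ) ≤ f := by positivity
      have h4 : 0 ≤ w'.ord β + m * -vo w' δ := by linarith
      exact mul_nonneg h3 h4

/-- **The orders of the regular forms**, in terms of arbitrary local parameters. -/
theorem par_est {n : ℕ} (A : Fin n → IntermediateField k M)
    [hA : ∀ i, IsFF k (A i)] (hn : Algebra.trdeg k M = (n : ℕ)) (hgen : ⨆ i, A i = ⊤)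
    (w : Place k M) (t : Fin n → M) (ht : ∀ i, Par w (A i) (t i)) (N : ℤ)
    (D : Fin n → Derivation k M M)
    (hN : Ge w N (Matrix.of fun i j => D i (t j)).det) (m : ℕ)
    (ω : (Fin n → Derivation k M M) → M) (hω : IsSec k M n (fun _ => False) {1} m 0 ω) :
    Ge w (m * N) (ω D) := by
  classical
  choose x hx using fun i => IsFF.exists_transcendental (k := k) (K := A i)
  choose δ hδ0 hδ using fun i => exists_ddx (hx i)
  choose r hrx hβ using fun i => par_loc (A i) (x i) (δ i) (hδ i) w (ht i)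
  have hbasis := basis_curves A hn hgen x hx
  obtain ⟨E, hE⟩ := Pool.Agent.W636.PG.exists_duals k M n _ hbasis
  have h1 := kun n M A hn hgen x hx δ hδ E (fun i j => hE i j) m ω hω
  have h2 := Pool.Agent.W636.PG.form_eq k M n m _ hbasis E hE ω hω.1 D
  have h3 : (Matrix.of fun i j => D i ((x j : A j) : M)).det =
      (∏ i, (r i : M)) * (Matrix.of fun i j => D i (t j)).det := by
    rw [det_factor D _ t (Matrix.diagonal fun i => (r i : M)) (by
      intro D i
      rw [Finset.sum_eq_single i]
      · rw [Matrix.diagonal_apply_eq]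
        exact hrx i D
      · intro b _ hb
        rw [Matrix.diagonal_apply_ne _ (Ne.symm hb), zero_mul]
      · intro h
        exact absurd (Finset.mem_univ i) h), Matrix.det_diagonal]
  -- the coefficient
  have h8 : ∀ z ∈ Submodule.span k {z : M | ∃ β : ∀ i, A i,
      (∀ i, β i = 0 ∨ ∀ q : Place k (A i), m * vo q (δ i) ≤ q.ord (β i)) ∧
        z = ∏ i, (β i : M)}, Ge w 0 (z * (∏ i, (r i : M)) ^ m) := by
    intro z hz
    induction hz using Submodule.span_induction with
    | mem z hz =>
      obtain ⟨b, hb, rfl⟩ := hz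
      rw [← Finset.prod_pow, ← Finset.prod_mul_distrib]
      have h9 := Ge.prod (P := w) Finset.univ (fun i => (b i : M) * (r i : M) ^ m) (fun _ => (0 : ℤ))
        fun i _ => hβ i m (b i) (hb i)
      simpa using h9
    | zero =>
      left
      rw [zero_mul]
    | add a b _ _ ha hb =>
      rw [add_mul]
      exact ha.add hb
    | smul c a _ ha =>
      rw [smul_mul_assoc, Algebra.smul_def]
      have h9 : Ge w 0 (algebraMap k M c) := by
        by_cases hc : c = 0
        · left
          rw [hc, map_zero]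
        · right
          rw [w.ord_const hc]
      have := h9.mul ha
      simpa using this
  have h9 := (h8 _ h1).mul (hN.pow m)
  rw [h2, h3]
  refine (show Ge w _ _ from ?_)
  have e1 : ((∏ i, (r i : M)) * (Matrix.of fun i j => D i (t j)).det) ^ m * ω E =
      ω E * (∏ i, (r i : M)) ^ m * (Matrix.of fun i j => D i (t j)).det ^ m := by
    ring
  rw [e1]
  refine h9.mono ?_
  rw [zero_add]

/-- the image of a local parameter -/
theorem Par.map (A B : IntermediateField k M) [hA : IsFF k A] [hB : IsFF k B] {w : Place k M}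
    {g : M ≃ₐ[k] M} (hw : ∀ z, w.ord (g z) = w.ord z) (hAB : ∀ z ∈ A, g z ∈ B)
    (hBA : ∀ z ∈ B, g.symm z ∈ A) {t : M} (ht : Par w A t) : Par w B (g t) := by
  obtain ⟨htA, ht0, ht⟩ := ht
  refine ⟨hAB t htA, (_root_.map_ne_zero g).2 ht0, ?_⟩
  rcases ht with ⟨htriv, htr⟩ | ⟨w', f, hw', hf⟩
  · left
    refine ⟨fun z hz => ?_, fun h => htr ?_⟩
    · have h1 := hw (g.symm z)
      rw [AlgEquiv.apply_symm_apply] at h1
      rw [h1]
      exact htriv _ (hBA z hz)
    · exact (isAlgebraic_algHom_iff (g : M →ₐ[k] M) g.injective).1 h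
  · right
    have hB0 : ∃ z : B, w.ord (algebraMap B M z) ≠ 0 := by
      refine ⟨⟨g t, hAB t htA⟩, ?_⟩
      change w.ord (g t) ≠ 0
      rw [hw, hf]
      have := hw'.1
      omega
    obtain ⟨f', w'', hw''⟩ := exists_over (K := B) w hB0
    refine ⟨w'', f', hw'', ?_⟩
    rw [hw, hf]
    -- both indices divide each other
    have h1 : (f' : ℤ) ∣ f := by
      have h2 := hw''.2 ⟨g t, hAB t htA⟩
      change w.ord (g t) = _ at h2
      rw [hw, hf] at h2
      exact ⟨_, h2⟩
    have h2 : (f : ℤ) ∣ f' := by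
      obtain ⟨s, hs0, hs⟩ := w''.surj
      have h3 := hw''.2 s
      rw [hs, mul_one] at h3
      change w.ord (s : M) = _ at h3
      have h4 := hw (g.symm (s : M))
      rw [AlgEquiv.apply_symm_apply, h3] at h4
      have h5 := hw'.2 ⟨g.symm (s : M), hBA _ s.2⟩
      change w.ord (g.symm (s : M)) = _ at h5
      rw [← h4] at h5
      exact ⟨_, h5⟩
    have h3 : (f : ℤ).natAbs = (f' : ℤ).natAbs :=
      Nat.dvd_antisymm (Int.natAbs_dvd_natAbs.2 h2) (Int.natAbs_dvd_natAbs.2 h1)
    simpa using h3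

end

end Pool.Agent.K4H25.GW

end

section

/-!
Determinants: replacing two coordinates.
-/

set_option autoImplicit false
set_option linter.overlappingInstances false
set_option linter.unusedSectionVars false
set_option linter.unusedVariables false
set_option linter.unusedSimpArgs false
set_option maxHeartbeats 4000000
set_option synthInstance.maxHeartbeats 400000

open Polynomial FF IntermediateField Pool.Agent.W619.PQ Pool.Agent.W619.PL Pool.Agent.W619.TW
  Pool.Agent.W603.LV Pool.Agent.K4H25.GQ Pool.Agent.W619.X Pool.Agent.W619.Y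

namespace Pool.Agent.K4H25.GW

section

variable {k : Type} [Field k] [CharZero k] [IsAlgClosed k] {M : Type} [Field M] [Algebra k M]

theorem ge_const (w : Place k M) (c : k) : Ge w 0 (algebraMap k M c) := by
  by_cases hc : c = 0
  · left
    rw [hc, map_zero]
  · right
    rw [w.ord_const hc]

theorem ge_smul {w : Place k M} {N : ℤ} {z : M} (c : k) (h : Ge w N z) :
    Ge w N (algebraMap k M c * z) := by
  have := (ge_const w c).mul h
  rwa [zero_add] at this

theorem det_ge {n : ℕ} (w : Place k M) (D : Fin n → Derivation k M M)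
    (hD : ∀ j, Pres w (D j)) (Y : Fin n → M) (N : Fin n → ℤ) (hY : ∀ l, Ge w (N l) (Y l)) :
    Ge w (∑ l, N l - 1) (Matrix.of fun i j => D i (Y j)).det := by
  classical
  by_cases h0 : ∀ l, Y l ≠ 0
  · rw [det_dlog D Y h0]
    have h1 := det_log w D hD Y h0
    have h2 := Ge.prod (P := w) Finset.univ Y N fun l _ => hY l
    have h3 := h2.mul h1
    rwa [← sub_eq_add_neg] at h3
  · push Not at h0
    obtain ⟨l, hl⟩ := h0
    left
    refine Matrix.det_eq_zero_of_column_eq_zero l fun i => ?_
    rw [Matrix.of_apply, hl, map_zero]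

/-- replacing one coordinate -/
theorem one_col {n : ℕ} (D : Fin n → Derivation k M M) (t : Fin n → M) (p : Fin n)
    (c : Fin n → k) :
    (Matrix.of fun i j => D i (Function.update t p (∑ l, algebraMap k M (c l) * t l) j)).det =
      algebraMap k M (c p) * (Matrix.of fun i j => D i (t j)).det := by
  classical
  have h1 : ((1 : Matrix (Fin n) (Fin n) M).updateRow p
      (∑ l, (algebraMap k M (c l)) • (1 : Matrix (Fin n) (Fin n) M) l)).det =
      algebraMap k M (c p) := by
    rw [Matrix.det_updateRow_sum, Matrix.det_one, smul_eq_mul, mul_one]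
  rw [← h1]
  refine det_factor D _ t _ fun D i => ?_
  by_cases hi : i = p
  · subst hi
    rw [Function.update_self, Matrix.updateRow_self, map_sum]
    refine Finset.sum_congr rfl fun l _ => ?_
    rw [Derivation.leibniz, Derivation.map_algebraMap, smul_zero, add_zero, smul_eq_mul]
    congr 1
    rw [Finset.sum_apply, Finset.sum_eq_single l]
    · rw [Pi.smul_apply, Matrix.one_apply_eq, smul_eq_mul, mul_one]
    · intro b _ hb
      rw [Pi.smul_apply, Matrix.one_apply_ne hb, smul_zero]
    · intro h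
      exact absurd (Finset.mem_univ l) h
  · rw [Function.update_of_ne hi, Matrix.updateRow_ne hi, Finset.sum_eq_single i]
    · rw [Matrix.one_apply_eq, one_mul]
    · intro b _ hb
      rw [Matrix.one_apply_ne (Ne.symm hb), zero_mul]
    · intro h
      exact absurd (Finset.mem_univ i) h

/-- **Replacing two coordinates.** -/
theorem two_cols {n : ℕ} (w : Place k M) (D : Fin n → Derivation k M M)
    (hD : ∀ j, Pres w (D j)) (t : Fin n → M) {p q : Fin n} (hpq : p ≠ q) (c c' : Fin n → k)
    (hcp : c p = 1) (hne : c' q - c' p * c q ≠ 0) {a b : ℤ}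
    (ha : Ge w a (∑ l, algebraMap k M (c l) * t l))
    (hb : Ge w b (∑ l, algebraMap k M (c' l) * t l)) :
    Ge w (a + b + ∑ l ∈ (Finset.univ.erase p).erase q, w.ord (t l) - 1)
      (Matrix.of fun i j => D i (t j)).det := by
  classical
  obtain ⟨u, hu⟩ : ∃ u, u = ∑ l, algebraMap k M (c l) * t l := ⟨_, rfl⟩
  obtain ⟨u', hu'⟩ : ∃ u', u' = ∑ l, algebraMap k M (c' l) * t l := ⟨_, rfl⟩
  rw [← hu] at ha
  rw [← hu'] at hb
  obtain ⟨t', ht'⟩ : ∃ t', t' = Function.update t p u := ⟨_, rfl⟩
  obtain ⟨d, hd⟩ : ∃ d : Fin n → k, d = fun l => if l = p then c' p else c' l - c' p * c l :=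
    ⟨_, rfl⟩
  have h1 : ∑ l, algebraMap k M (d l) * t' l = u' := by
    have h2 : ∀ l, algebraMap k M (d l) * t' l = algebraMap k M (c' l) * t l +
        (if l = p then algebraMap k M (c' p) * u else 0) -
        algebraMap k M (c' p) * (algebraMap k M (c l) * t l) := by
      intro l
      rw [hd, ht']
      beta_reduce
      by_cases hl : l = p
      · subst hl
        rw [if_pos rfl, if_pos rfl, Function.update_self, hcp, map_one]
        ring
      · rw [if_neg hl, if_neg hl, Function.update_of_ne hl, map_sub, map_mul]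
        ring
    rw [Finset.sum_congr rfl fun l _ => h2 l, Finset.sum_sub_distrib, Finset.sum_add_distrib,
      ← hu', Finset.sum_ite_eq' Finset.univ p, if_pos (Finset.mem_univ p), ← Finset.mul_sum, ← hu]
    ring
  have h3 := one_col D t p c
  rw [← hu, ← ht', hcp, map_one, one_mul] at h3
  have h4 := one_col D t' q d
  rw [h1, h3] at h4
  have hdq : d q = c' q - c' p * c q := by
    rw [hd]
    beta_reduce
    rw [if_neg (Ne.symm hpq)]
  rw [hdq] at h4
  have h5 : (Matrix.of fun i j => D i (t j)).det =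
      algebraMap k M (c' q - c' p * c q)⁻¹ *
        (Matrix.of fun i j => D i (Function.update t' q u' j)).det := by
    rw [h4, ← mul_assoc, ← map_mul, inv_mul_cancel₀ hne, map_one, one_mul]
  rw [h5]
  refine ge_smul _ ?_
  have h6 := det_ge w D hD (Function.update t' q u')
    (Function.update (Function.update (fun l => w.ord (t l)) p a) q b) (by
    intro l
    by_cases hl : l = q
    · subst hl
      rw [Function.update_self, Function.update_self]
      exact hb
    · rw [Function.update_of_ne hl, Function.update_of_ne hl, ht']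
      by_cases hl' : l = p
      · subst hl'
        rw [Function.update_self, Function.update_self]
        exact ha
      · rw [Function.update_of_ne hl', Function.update_of_ne hl']
        exact Or.inr le_rfl)
  refine h6.mono (le_of_eq ?_)
  congr 1
  rw [← Finset.add_sum_erase Finset.univ _ (Finset.mem_univ p),
    ← Finset.add_sum_erase (Finset.univ.erase p) _ (Finset.mem_erase.2
      ⟨Ne.symm hpq, Finset.mem_univ q⟩), Function.update_of_ne hpq, Function.update_self,
    Function.update_self, add_assoc]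
  congr 2
  refine Finset.sum_congr rfl fun l hl => ?_
  obtain ⟨h7, h8⟩ := Finset.mem_erase.1 hl
  rw [Function.update_of_ne h7, Function.update_of_ne (Finset.ne_of_mem_erase h8)]

end

end Pool.Agent.K4H25.GW

end

section

/-!
Eigenfunctions of the generator of the inertia group.
-/

set_option autoImplicit false
set_option linter.overlappingInstances false
set_option linter.unusedSectionVars false
set_option linter.unusedVariables false
set_option linter.unusedSimpArgs false
set_option maxHeartbeats 4000000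
set_option synthInstance.maxHeartbeats 400000

open Polynomial FF IntermediateField Pool.Agent.W619.PQ Pool.Agent.W619.PL Pool.Agent.W619.TW
  Pool.Agent.W603.LV Pool.Agent.K4H25.GQ Pool.Agent.W619.X Pool.Agent.W619.Y

namespace Pool.Agent.K4H25.GW

section

variable {k : Type} [Field k] [CharZero k] [IsAlgClosed k] {M : Type} [Field M] [Algebra k M]

/-- The automorphism `g` acts as a rotation by `ζ` at the place `w`. -/
structure Rot (w : Place k M) (g : M ≃ₐ[k] M) (e : ℕ) (ζ : k) : Prop where
  prim : IsPrimitiveRoot ζ e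
  pos : 0 < e
  pow : g ^ e = 1
  inv : ∀ z, w.ord (g z) = w.ord z
  rot : ∀ z : M, z ≠ 0 → Ge w (w.ord z + 1) (g z - algebraMap k M (ζ ^ w.ord z) * z)

variable {w : Place k M} {g : M ≃ₐ[k] M} {e : ℕ} {ζ : k}

theorem Rot.ne (h : Rot w g e ζ) : ζ ≠ 0 := h.prim.ne_zero h.pos.ne'

theorem Rot.ordp (h : Rot w g e ζ) (j : ℕ) (z : M) : w.ord ((g ^ j) z) = w.ord z := by
  induction j with
  | zero => rfl
  | succ j ih =>
    rw [pow_succ']
    change w.ord (g ((g ^ j) z)) = _
    rw [h.inv, ih]

theorem Rot.ge (h : Rot w g e ζ) {N : ℤ} {z : M} (hz : Ge w N z) (j : ℕ) :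
    Ge w N ((g ^ j) z) := by
  rcases hz with hz | hz
  · left
    rw [hz, map_zero]
  · right
    rw [h.ordp]
    exact hz

theorem Rot.rot_pow (h : Rot w g e ζ) {z : M} (hz : z ≠ 0) (j : ℕ) :
    Ge w (w.ord z + 1) ((g ^ j) z - algebraMap k M ((ζ ^ w.ord z) ^ j) * z) := by
  induction j with
  | zero =>
    left
    rw [pow_zero, pow_zero, map_one, one_mul]
    exact sub_self z
  | succ j ih =>
    have h1 : (g ^ (j + 1)) z - algebraMap k M ((ζ ^ w.ord z) ^ (j + 1)) * z =
        (g ^ 1) ((g ^ j) z - algebraMap k M ((ζ ^ w.ord z) ^ j) * z) +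
        algebraMap k M ((ζ ^ w.ord z) ^ j) * (g z - algebraMap k M (ζ ^ w.ord z) * z) := by
      rw [pow_one, map_sub, map_mul, AlgEquiv.commutes, pow_succ' g, pow_succ (ζ ^ w.ord z),
        map_mul]
      change g ((g ^ j) z) - _ = _
      ring
    rw [h1]
    exact (h.ge ih 1).add (ge_smul _ (h.rot z hz))

theorem Rot.eig (h : Rot w g e ζ) {u : M} (b : ℕ) (hb : b < e)
    (hu : g u = algebraMap k M (ζ ^ b) * u) (h0 : Ge w 0 u) : Ge w b u := by
  by_cases hu0 : u = 0
  · exact Or.inl hu0
  right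
  have h1 := h0.resolve_left hu0
  obtain ⟨m, hm⟩ := Int.eq_ofNat_of_zero_le h1
  have h2 := h.rot u hu0
  rw [hu, ← sub_mul, ← map_sub, hm] at h2
  have h3 : ζ ^ b = ζ ^ m := by
    by_contra hne
    have h4 : ζ ^ b - ζ ^ (m : ℤ) ≠ 0 := by
      rw [zpow_natCast]
      exact sub_ne_zero.2 hne
    rcases h2 with h2 | h2
    · exact mul_ne_zero ((_root_.map_ne_zero _).2 h4) hu0 h2
    · rw [w.ord_mul ((_root_.map_ne_zero _).2 h4) hu0, w.ord_const h4, hm] at h2
      omega
  rw [hm]
  by_contra hcon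
  push Not at hcon
  have h5 : m < b := by exact_mod_cast hcon
  have h6 := h.prim.pow_inj hb (h5.trans hb) h3
  omega

/-- an eigenfunction on a curve -/
theorem Rot.param (h : Rot w g e ζ) (A : IntermediateField k M) [hA : IsFF k A] {d e' : ℕ}
    (hde : d * e' = e) (hst : ∀ z ∈ A, (g ^ d) z ∈ A) {t : M} (ht : Par w A t) :
    ∃ T, Par w A T ∧ w.ord T = w.ord t ∧
      (g ^ d) T = algebraMap k M ((ζ ^ w.ord t) ^ d) * T := by
  have he' : 0 < e' := by
    rcases Nat.eq_zero_or_pos e' with h0 | h0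
    · rw [h0, mul_zero] at hde
      have := h.pos
      omega
    · exact h0
  obtain ⟨htA, ht0, htp⟩ := ht
  obtain ⟨c, hc⟩ : ∃ c, c = ((ζ ^ w.ord t) ^ d)⁻¹ := ⟨_, rfl⟩
  have hc0 : (ζ ^ w.ord t) ^ d ≠ 0 := pow_ne_zero _ (zpow_ne_zero _ h.ne)
  have hce : c ^ e' = 1 := by
    rw [hc, inv_pow, ← pow_mul, hde, ← zpow_natCast, ← zpow_mul, mul_comm, zpow_mul, zpow_natCast,
      h.prim.pow_eq_one, one_zpow, inv_one]
  have hge : (g ^ d) ^ e' = 1 := by rw [← pow_mul, hde, h.pow]
  obtain ⟨T, hT⟩ : ∃ T, T = ∑ j ∈ Finset.range e', algebraMap k M (c ^ j) * ((g ^ d) ^ j) t :=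
    ⟨_, rfl⟩
  have hTA : T ∈ A := by
    rw [hT]
    have hj : ∀ j : ℕ, ((g ^ d) ^ j) t ∈ A := by
      intro j
      induction j with
      | zero => exact htA
      | succ j ih =>
        rw [pow_succ']
        exact hst _ ih
    exact sum_mem fun j _ => mul_mem (A.algebraMap_mem _) (hj j)
  have hlead : Ge w (w.ord t + 1) (T - (e' : M) * t) := by
    have h1 : T - (e' : M) * t = ∑ j ∈ Finset.range e',
        algebraMap k M (c ^ j) * (((g ^ d) ^ j) t - algebraMap k M (((ζ ^ w.ord t) ^ d) ^ j) * t) := by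
      simp only [mul_sub, Finset.sum_sub_distrib]
      rw [← hT]
      congr 1
      have h2 : ∀ j ∈ Finset.range e', algebraMap k M (c ^ j) *
          (algebraMap k M (((ζ ^ w.ord t) ^ d) ^ j) * t) = t := by
        intro j _
        rw [← mul_assoc, ← map_mul, ← mul_pow, hc, inv_mul_cancel₀ hc0, one_pow, map_one, one_mul]
      rw [Finset.sum_congr rfl h2, Finset.sum_const, Finset.card_range, nsmul_eq_mul]
    rw [h1]
    refine Ge.sum _ _ fun j _ => ge_smul _ ?_
    have h3 := h.rot_pow ht0 (d * j)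
    rw [pow_mul, pow_mul] at h3
    exact h3
  have hM0 : (e' : M) = algebraMap k M (e' : k) := by rw [map_natCast]
  have hk0 : (e' : k) ≠ 0 := by exact_mod_cast he'.ne'
  have hord : w.ord ((e' : M) * t) = w.ord t := by
    rw [hM0, w.ord_mul ((_root_.map_ne_zero _).2 hk0) ht0, w.ord_const hk0, zero_add]
  have he0 : (e' : M) * t ≠ 0 := by
    rw [hM0]
    exact mul_ne_zero ((_root_.map_ne_zero _).2 hk0) ht0
  have hT0 : T ≠ 0 := by
    intro h0
    rw [h0, zero_sub] at hlead
    rcases hlead with h1 | h1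
    · exact he0 (neg_eq_zero.1 h1)
    · rw [w.ord_neg, hord] at h1
      omega
  have hTord : w.ord T = w.ord t := by
    have h1 : Ge w (w.ord t) T := by
      have h2 : T = (T - (e' : M) * t) + (e' : M) * t := by ring
      rw [h2]
      refine (hlead.mono (by omega)).add (Or.inr ?_)
      rw [hord]
    have h2 := h1.resolve_left hT0
    by_contra hne
    have h3 : Ge w (w.ord t + 1) ((e' : M) * t) := by
      have h4 : (e' : M) * t = T - (T - (e' : M) * t) := by ring
      rw [h4]
      refine Ge.sub (P := w) (Or.inr ?_) hlead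
      omega
    rcases h3 with h3 | h3
    · exact he0 h3
    · rw [hord] at h3
      omega
  refine ⟨T, ⟨hTA, hT0, ?_⟩, hTord, ?_⟩
  · rcases htp with ⟨h1, h2⟩ | ⟨w', f, h1, h2⟩
    · left
      refine ⟨h1, fun hT1 => h2 ?_⟩
      have h3 : T - (e' : M) * t = 0 := by
        rcases hlead with h3 | h3
        · exact h3
        · exfalso
          have h4 : T - (e' : M) * t ∈ A := sub_mem hTA (mul_mem (by
            rw [hM0]
            exact A.algebraMap_mem _) htA)
          rw [h1 _ h4, h1 t htA] at h3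
          omega
      have h4 : t = algebraMap k M (e' : k)⁻¹ * T := by
        rw [sub_eq_zero.1 h3, hM0, ← mul_assoc, ← map_mul, inv_mul_cancel₀ hk0, map_one, one_mul]
      rw [h4]
      exact (isAlgebraic_algebraMap _).mul hT1
    · right
      exact ⟨w', f, h1, by rw [hTord, h2]⟩
  · have h1 : (g ^ d) T = ∑ j ∈ Finset.range e', algebraMap k M (c ^ j) *
        ((g ^ d) ^ (j + 1)) t := by
      rw [hT, map_sum]
      refine Finset.sum_congr rfl fun j _ => ?_
      rw [map_mul, AlgEquiv.commutes, pow_succ' (g ^ d)]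
      rfl
    have h2 : ∀ j, algebraMap k M (c ^ j) * ((g ^ d) ^ (j + 1)) t =
        algebraMap k M ((ζ ^ w.ord t) ^ d) *
          (algebraMap k M (c ^ (j + 1)) * ((g ^ d) ^ (j + 1)) t) := by
      intro j
      rw [← mul_assoc, ← map_mul, pow_succ' c, ← mul_assoc, hc, mul_inv_cancel₀ hc0, one_mul]
    rw [h1, Finset.sum_congr rfl fun j _ => h2 j, ← Finset.mul_sum]
    congr 1
    rw [hT, ← sub_eq_zero, ← Finset.sum_sub_distrib,
      Finset.sum_range_sub (fun j => algebraMap k M (c ^ j) * ((g ^ d) ^ j) t), hge, hce, pow_zero,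
      pow_zero, sub_self]

/-- the eigenfunctions given by an orbit -/
theorem Rot.orbit (h : Rot w g e ζ) {d e' : ℕ} (hde : d * e' = e) {T : M} (hT : Ge w 0 T)
    (hTd : (g ^ d) T = algebraMap k M ((ζ ^ w.ord T) ^ d) * T) {f : ℕ} (hf : w.ord T = f)
    (s : ℕ) (hs : s < d) :
    Ge w ((f % e' + s * e' : ℕ) : ℤ) (∑ j ∈ Finset.range d,
      algebraMap k M (((ζ ^ (f % e' + s * e'))⁻¹) ^ j) * (g ^ j) T) := by
  have he' : 0 < e' := by
    rcases Nat.eq_zero_or_pos e' with h0 | h0
    · rw [h0, mul_zero] at hde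
      have := h.pos
      omega
    · exact h0
  obtain ⟨b, hb⟩ : ∃ b, b = f % e' + s * e' := ⟨_, rfl⟩
  rw [← hb]
  have hbe : b < e := by
    have h1 := Nat.mod_lt f he'
    have h2 : (s + 1) * e' ≤ d * e' := Nat.mul_le_mul_right _ hs
    rw [hb, ← hde]
    rw [Nat.add_mul, one_mul] at h2
    omega
  have hb0 : ζ ^ b ≠ 0 := pow_ne_zero _ h.ne
  refine h.eig b hbe ?_ ?_
  · rw [map_sum]
    have h2 : ∀ j, g (algebraMap k M (((ζ ^ b)⁻¹) ^ j) * (g ^ j) T) = algebraMap k M (ζ ^ b) *
        (algebraMap k M (((ζ ^ b)⁻¹) ^ (j + 1)) * (g ^ (j + 1)) T) := by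
      intro j
      rw [map_mul, AlgEquiv.commutes, ← mul_assoc, ← map_mul, pow_succ' ((ζ ^ b)⁻¹), ← mul_assoc,
        mul_inv_cancel₀ hb0, one_mul, pow_succ' g]
      rfl
    rw [Finset.sum_congr rfl fun j _ => h2 j, ← Finset.mul_sum]
    congr 1
    rw [← sub_eq_zero, ← Finset.sum_sub_distrib,
      Finset.sum_range_sub (fun j => algebraMap k M (((ζ ^ b)⁻¹) ^ j) * (g ^ j) T), hTd, pow_zero,
      pow_zero, map_one, one_mul, ← mul_assoc, ← map_mul, hf, zpow_natCast]
    have h3 : ((ζ ^ b)⁻¹) ^ d * (ζ ^ f) ^ d = 1 := by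
      have h4 : (ζ ^ b) ^ d = (ζ ^ f) ^ d := by
        rw [← pow_mul, ← pow_mul]
        have h5 := Nat.div_add_mod f e'
        have h6 : b * d + (f / e') * e = f * d + s * e := by
          rw [hb, ← hde]
          conv_rhs => rw [← h5]
          ring
        have h7 : ζ ^ (b * d) * ζ ^ ((f / e') * e) = ζ ^ (f * d) * ζ ^ (s * e) := by
          rw [← pow_add, ← pow_add, h6]
        rw [mul_comm (f / e') e, mul_comm s e, pow_mul ζ e, pow_mul ζ e, h.prim.pow_eq_one, one_pow,
          one_pow, mul_one, mul_one] at h7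
        exact h7
      rw [inv_pow, h4, inv_mul_cancel₀ (pow_ne_zero _ (pow_ne_zero _ h.ne))]
    rw [h3, map_one, one_mul]
    change T - T = 0
    rw [sub_self]
  · exact Ge.sum _ _ fun j _ => ge_smul _ (h.ge hT j)

end

end Pool.Agent.K4H25.GW

end

section

/-!
Automorphisms which permute the curves: local parameters adapted to an orbit.
-/

set_option autoImplicit false
set_option linter.overlappingInstances false
set_option linter.unusedSectionVars false
set_option linter.unusedVariables false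
set_option linter.unusedSimpArgs false
set_option maxHeartbeats 4000000
set_option synthInstance.maxHeartbeats 400000

open Polynomial FF IntermediateField Pool.Agent.W619.PQ Pool.Agent.W619.PL Pool.Agent.W619.TW
  Pool.Agent.W603.LV Pool.Agent.K4H25.GQ Pool.Agent.W619.X Pool.Agent.W619.Y

namespace Pool.Agent.K4H25.GW

section

variable {k : Type} [Field k] [CharZero k] [IsAlgClosed k] {M : Type} [Field M] [Algebra k M]
  {n : ℕ} {w : Place k M} {g : M ≃ₐ[k] M} {e : ℕ} {ζ : k}

theorem iter_mem {C : Fin n → IntermediateField k M} {σ : Fin n → Fin n}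
    (hσ : ∀ i z, z ∈ C i ↔ g z ∈ C (σ i)) (j : ℕ) (i : Fin n) (z : M) :
    z ∈ C i ↔ (g ^ j) z ∈ C (σ^[j] i) := by
  induction j with
  | zero => exact Iff.rfl
  | succ j ih =>
    rw [ih, hσ, Function.iterate_succ_apply', pow_succ']
    exact Iff.rfl

theorem iter_per {C : Fin n → IntermediateField k M} (hC : Function.Injective C)
    {σ : Fin n → Fin n} (hσ : ∀ i z, z ∈ C i ↔ g z ∈ C (σ i)) (hge : g ^ e = 1) (i : Fin n) :
    σ^[e] i = i := by
  apply hC
  apply SetLike.ext
  intro z
  rw [iter_mem hσ e i z, hge]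
  exact Iff.rfl

theorem orb_symm {σ : Fin n → Fin n} (he : 0 < e) (hper : ∀ i, σ^[e] i = i) {i i' l : Fin n}
    (h : ∃ j, σ^[j] i = l) (h' : ∃ j, σ^[j] i' = l) : ∃ j, σ^[j] i = i' := by
  obtain ⟨j, hj⟩ := h
  obtain ⟨j', hj'⟩ := h'
  have h1 : ∀ N, σ^[e * N] i' = i' := by
    intro N
    induction N with
    | zero => rfl
    | succ N ih => rw [Nat.mul_succ, Function.iterate_add_apply, hper, ih]
  refine ⟨(e * j' - j') + j, ?_⟩
  rw [Function.iterate_add_apply, hj, ← hj', ← Function.iterate_add_apply]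
  have h2 : e * j' - j' + j' = e * j' := by
    have : j' ≤ e * j' := Nat.le_mul_of_pos_left _ he
    omega
  rw [h2, h1]

open scoped Classical in
/-- **Local parameters adapted to an orbit.** -/
theorem Rot.cyc (h : Rot w g e ζ) {C : Fin n → IntermediateField k M} [∀ i, IsFF k (C i)]
    (hC : Function.Injective C) {σ : Fin n → Fin n} (hσ : ∀ i z, z ∈ C i ↔ g z ∈ C (σ i))
    {t : Fin n → M} (ht : ∀ l, Par w (C l) (t l)) (i : Fin n) :
    ∃ t' : Fin n → M, (∀ l, Par w (C l) (t' l)) ∧
      (∀ l, (¬ ∃ j, σ^[j] i = l) → t' l = t l) ∧ ∃ e' f : ℕ, 0 < e' ∧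
        Function.minimalPeriod σ i * e' = e ∧ w.ord (t i) = f ∧
        ∀ s < Function.minimalPeriod σ i, ∃ c : Fin n → k,
          (∀ l, (¬ ∃ j, σ^[j] i = l) → c l = 0) ∧ c i = 1 ∧
          (2 ≤ Function.minimalPeriod σ i → c (σ i) = (ζ ^ (f % e' + s * e'))⁻¹) ∧
          Ge w ((f % e' + s * e' : ℕ) : ℤ) (∑ l, algebraMap k M (c l) * t' l) := by
  have hper := iter_per hC hσ h.pow
  obtain ⟨d, hd⟩ : ∃ d, d = Function.minimalPeriod σ i := ⟨_, rfl⟩
  have hdvd : d ∣ e := by
    rw [hd]
    exact Function.IsPeriodicPt.minimalPeriod_dvd (hper i)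
  have hd0 : 0 < d := Nat.pos_of_dvd_of_pos hdvd h.pos
  obtain ⟨e', he'⟩ := hdvd
  have he'0 : 0 < e' := by
    rcases Nat.eq_zero_or_pos e' with h0 | h0
    · rw [h0, mul_zero] at he'
      have := h.pos
      omega
    · exact h0
  have hdi : σ^[d] i = i := by
    rw [hd]
    exact Function.iterate_minimalPeriod
  obtain ⟨T, hT1, hT2, hT3⟩ := h.param (C i) he'.symm (fun z hz => by
    have h1 := (iter_mem hσ d i z).1 hz
    rwa [hdi] at h1) (ht i)
  obtain ⟨f, hf⟩ := Int.eq_ofNat_of_zero_le (ht i).nonneg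
  have hparj : ∀ j : ℕ, Par w (C (σ^[j] i)) ((g ^ j) T) := by
    intro j
    induction j with
    | zero => exact hT1
    | succ j ih =>
      rw [Function.iterate_succ_apply', pow_succ']
      refine Par.map (C (σ^[j] i)) (C (σ (σ^[j] i))) h.inv (fun z hz => (hσ _ _).1 hz)
        (fun z hz => (hσ _ _).2 ?_) ih
      rw [AlgEquiv.apply_symm_apply]
      exact hz
  -- positions
  let pos : Fin n → ℕ := fun l => if h : ∃ j, σ^[j] i = l then Nat.find h else 0
  have hpos1 : ∀ l, (∃ j, σ^[j] i = l) → σ^[pos l] i = l ∧ pos l < d := by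
    intro l hl
    have h1 : pos l = Nat.find hl := dif_pos hl
    refine ⟨by rw [h1]; exact Nat.find_spec hl, ?_⟩
    rw [h1]
    obtain ⟨j, hj⟩ := hl
    refine lt_of_le_of_lt (Nat.find_min' ⟨j, hj⟩ (m := j % d) ?_) (Nat.mod_lt _ hd0)
    rw [hd, Function.iterate_mod_minimalPeriod_eq]
    exact hj
  have hpos2 : ∀ j, j < d → pos (σ^[j] i) = j := by
    intro j hj
    obtain ⟨h1, h2⟩ := hpos1 _ ⟨j, rfl⟩
    rw [hd] at h2 hj
    exact Function.iterate_injOn_Iio_minimalPeriod h2 hj h1
  refine ⟨fun l => if ∃ j, σ^[j] i = l then (g ^ pos l) T else t l, fun l => ?_, fun l hl => ?_,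
    e', f, he'0, by rw [← hd]; exact he'.symm, hf, fun s hs => ?_⟩
  · beta_reduce
    split_ifs with hl
    · have h1 := hparj (pos l)
      rw [(hpos1 l hl).1] at h1
      exact h1
    · exact ht l
  · beta_reduce
    rw [if_neg hl]
  · rw [← hd] at hs
    refine ⟨fun l => if ∃ j, σ^[j] i = l then ((ζ ^ (f % e' + s * e'))⁻¹) ^ pos l else 0,
      fun l hl => if_neg hl, ?_, fun h2 => ?_, ?_⟩
    · beta_reduce
      have h1 := hpos2 0 hd0
      rw [Function.iterate_zero_apply] at h1
      rw [if_pos ⟨0, rfl⟩, h1, pow_zero]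
    · beta_reduce
      rw [← hd] at h2
      have h1 := hpos2 1 (by omega)
      rw [Function.iterate_one] at h1
      rw [if_pos ⟨1, rfl⟩, h1, pow_one]
    · have h1 := h.orbit he'.symm (T := T) (Or.inr hT1.nonneg) (by rw [hT3, hT2]) (f := f)
        (by rw [hT2, hf]) s hs
      have h2 : ∑ l, algebraMap k M ((fun l => if ∃ j, σ^[j] i = l then
          ((ζ ^ (f % e' + s * e'))⁻¹) ^ pos l else 0) l) *
          (if ∃ j, σ^[j] i = l then (g ^ pos l) T else t l) = ∑ j ∈ Finset.range d,
          algebraMap k M (((ζ ^ (f % e' + s * e'))⁻¹) ^ j) * (g ^ j) T := by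
        rw [← Finset.sum_filter_add_sum_filter_not Finset.univ (fun l => ∃ j, σ^[j] i = l)]
        rw [Finset.sum_eq_zero (s := Finset.univ.filter fun l => ¬ ∃ j, σ^[j] i = l) (by
          intro l hl
          rw [Finset.mem_filter] at hl
          beta_reduce
          rw [if_neg hl.2, map_zero, zero_mul]), add_zero]
        refine Finset.sum_nbij' pos (fun j => σ^[j] i) ?_ ?_ ?_ ?_ ?_
        · intro l hl
          rw [Finset.mem_range]
          exact (hpos1 l (Finset.mem_filter.1 hl).2).2
        · intro j _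
          exact Finset.mem_filter.2 ⟨Finset.mem_univ _, j, rfl⟩
        · intro l hl
          exact (hpos1 l (Finset.mem_filter.1 hl).2).1
        · intro j hj
          exact hpos2 j (Finset.mem_range.1 hj)
        · intro l hl
          have h3 := (Finset.mem_filter.1 hl).2
          beta_reduce
          rw [if_pos h3, if_pos h3]
      beta_reduce at h2 ⊢
      rw [h2]
      exact h1

end

end Pool.Agent.K4H25.GW

end

section

/-!
Automorphisms which permute the curves: the orders of the regular forms.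
-/

set_option autoImplicit false
set_option linter.overlappingInstances false
set_option linter.unusedSectionVars false
set_option linter.unusedVariables false
set_option linter.unusedSimpArgs false
set_option maxHeartbeats 4000000
set_option synthInstance.maxHeartbeats 400000

open Polynomial FF IntermediateField Pool.Agent.W619.PQ Pool.Agent.W619.PL Pool.Agent.W619.TW
  Pool.Agent.W603.LV Pool.Agent.K4H25.GQ Pool.Agent.W619.X Pool.Agent.W619.Y

namespace Pool.Agent.K4H25.GW

section

variable {k : Type} [Field k] [CharZero k] [IsAlgClosed k] {M : Type} [Field M] [Algebra k M]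
  {n : ℕ} {w : Place k M} {g : M ≃ₐ[k] M} {e : ℕ} {ζ : k}

theorem period_ge {σ : Fin n → Fin n} (he : 0 < e) (hper : ∀ i, σ^[e] i = i) {i : Fin n}
    (hi : σ i ≠ i) : 2 ≤ Function.minimalPeriod σ i := by
  have h0 : Function.minimalPeriod σ i ≠ 0 :=
    (Function.minimalPeriod_pos_of_mem_periodicPts ⟨e, he, hper i⟩).ne'
  have h1 : Function.minimalPeriod σ i ≠ 1 := fun h =>
    hi (Function.minimalPeriod_eq_one_iff_isFixedPt.1 h)
  omega

theorem Rot.pow_ne (h : Rot w g e ζ) {b b' : ℕ} (hb : b < e) (hb' : b' < e) (hne : b ≠ b') :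
    (ζ ^ b)⁻¹ ≠ (ζ ^ b')⁻¹ := fun h1 => hne (h.prim.pow_inj hb hb' (inv_injective h1))

theorem bound_lt {d e' f s : ℕ} (he' : 0 < e') (hs : s < d) : f % e' + s * e' < d * e' := by
  have h1 := Nat.mod_lt f he'
  have h2 : (s + 1) * e' ≤ d * e' := Nat.mul_le_mul_right _ hs
  rw [Nat.add_mul, one_mul] at h2
  omega

/-- **The determinant**, if the permutation is not the identity and not a transposition. -/
theorem Rot.perm_det (h : Rot w g e ζ) {C : Fin n → IntermediateField k M} [∀ i, IsFF k (C i)]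
    (hC : Function.Injective C) {σ : Fin n → Fin n} (hσ : ∀ i z, z ∈ C i ↔ g z ∈ C (σ i))
    {i : Fin n} (hi : σ i ≠ i)
    (htr : ¬ (σ (σ i) = i ∧ ∀ l, l ≠ i → l ≠ σ i → σ l = l)) :
    ∃ t : Fin n → M, (∀ l, Par w (C l) (t l)) ∧ ∀ D : Fin n → Derivation k M M,
      (∀ j, Pres w (D j)) → Ge w ((e : ℤ) - 1) (Matrix.of fun i j => D i (t j)).det := by
  classical
  have hper := iter_per hC hσ h.pow
  choose t0 ht0 using fun l => exists_par (C l) w
  by_cases hA : ∃ i, 3 ≤ Function.minimalPeriod σ i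
  · -- a cycle of length at least three
    obtain ⟨i, hi3⟩ := hA
    have hii : i ≠ σ i := by
      intro h1
      have h2 := Function.minimalPeriod_eq_one_iff_isFixedPt.2 (show Function.IsFixedPt σ i from
        h1.symm)
      omega
    obtain ⟨t, ht, -, e', f, he', hde, hf, hc⟩ := h.cyc hC hσ ht0 i
    obtain ⟨d, hd⟩ : ∃ d, d = Function.minimalPeriod σ i := ⟨_, rfl⟩
    rw [← hd] at hi3 hde hc
    obtain ⟨c, -, hc1, hc2, hc3⟩ := hc (d - 1) (by omega)
    obtain ⟨c', -, hc1', hc2', hc3'⟩ := hc (d - 2) (by omega)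
    refine ⟨t, ht, fun D hD => ?_⟩
    have h1 := two_cols w D hD t hii c c' hc1 (by
      rw [hc2 (by omega), hc2' (by omega), hc1', one_mul]
      refine sub_ne_zero.2 (h.pow_ne ?_ ?_ ?_)
      · rw [← hde]
        exact bound_lt he' (by omega)
      · rw [← hde]
        exact bound_lt he' (by omega)
      · intro h2
        have h3 : (d - 2) * e' = (d - 1) * e' := by omega
        have h4 := Nat.eq_of_mul_eq_mul_right he' h3
        omega) hc3 hc3'
    refine h1.mono ?_
    have h2 : 0 ≤ ∑ l ∈ (Finset.univ.erase i).erase (σ i), w.ord (t l) :=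
      Finset.sum_nonneg fun l _ => (ht l).nonneg
    obtain ⟨d', rfl⟩ : ∃ d', d = d' + 3 := ⟨d - 3, by omega⟩
    have h3 : e ≤ (f % e' + (d' + 3 - 1) * e') + (f % e' + (d' + 3 - 2) * e') := by
      have e1 : d' + 3 - 1 = d' + 2 := by omega
      have e2 : d' + 3 - 2 = d' + 1 := by omega
      rw [e1, e2, ← hde]
      have e3 : (d' + 2) * e' + (d' + 1) * e' = (d' + 3) * e' + d' * e' := by ring
      have e4 : 0 ≤ d' * e' := Nat.zero_le _
      omega
    have h4 : (e : ℤ) ≤ ((f % e' + (d' + 3 - 1) * e' : ℕ) : ℤ) +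
        ((f % e' + (d' + 3 - 2) * e' : ℕ) : ℤ) := by exact_mod_cast h3
    omega
  · -- two cycles of length two
    push Not at hA
    have hp2 : ∀ l, σ l ≠ l → Function.minimalPeriod σ l = 2 := fun l hl => by
      have h1 := period_ge h.pos hper hl
      have h2 := hA l
      omega
    have hσ2 : ∀ l, σ l ≠ l → σ (σ l) = l := by
      intro l hl
      have h1 := Function.iterate_minimalPeriod (f := σ) (x := l)
      rw [hp2 l hl] at h1
      exact h1
    have hi' : ∃ i', i' ≠ i ∧ i' ≠ σ i ∧ σ i' ≠ i' := by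
      by_contra hcon
      push Not at hcon
      exact htr ⟨hσ2 i hi, fun l h1 h2 => hcon l h1 h2⟩
    obtain ⟨i', hi1, hi2, hi3⟩ := hi'
    have horb : ∀ j, σ^[j] i = i ∨ σ^[j] i = σ i := by
      intro j
      induction j with
      | zero => exact Or.inl rfl
      | succ j ih =>
        rw [Function.iterate_succ_apply']
        rcases ih with h1 | h1
        · exact Or.inr (by rw [h1])
        · exact Or.inl (by rw [h1, hσ2 i hi])
    have hnot : ¬ ∃ j, σ^[j] i = i' := by
      rintro ⟨j, hj⟩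
      rcases horb j with h1 | h1
      · exact hi1 (by rw [← hj, h1])
      · exact hi2 (by rw [← hj, h1])
    obtain ⟨t, ht, -, e1, f1, he1, hde1, hf1, hc⟩ := h.cyc hC hσ ht0 i
    obtain ⟨t', ht', htt, e2, f2, he2, hde2, hf2, hc'⟩ := h.cyc hC hσ ht i'
    rw [hp2 i hi] at hde1 hc
    rw [hp2 i' hi3] at hde2 hc'
    obtain ⟨c, hcz, hc1, -, hc3⟩ := hc 1 (by omega)
    obtain ⟨c', hcz', hc1', -, hc3'⟩ := hc' 1 (by omega)
    have hnot' : ¬ ∃ j, σ^[j] i' = i := fun h1 => hnot (orb_symm h.pos hper ⟨0, rfl⟩ h1)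
    have hsame : ∑ l, algebraMap k M (c l) * t l = ∑ l, algebraMap k M (c l) * t' l := by
      refine Finset.sum_congr rfl fun l _ => ?_
      by_cases hl : ∃ j, σ^[j] i = l
      · rw [htt l fun h1 => hnot (orb_symm h.pos hper hl h1)]
      · rw [hcz l hl, map_zero, zero_mul, zero_mul]
    rw [hsame] at hc3
    refine ⟨t', ht', fun D hD => ?_⟩
    have h1 := two_cols w D hD t' (Ne.symm hi1) c c' hc1 (by
      rw [hc1', hcz' i hnot', zero_mul, sub_zero]
      exact one_ne_zero) hc3 hc3'
    refine h1.mono ?_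
    have h2 : 0 ≤ ∑ l ∈ (Finset.univ.erase i).erase i', w.ord (t' l) :=
      Finset.sum_nonneg fun l _ => (ht' l).nonneg
    have h3 : e ≤ (f1 % e1 + 1 * e1) + (f2 % e2 + 1 * e2) := by omega
    have h4 : (e : ℤ) ≤ ((f1 % e1 + 1 * e1 : ℕ) : ℤ) + ((f2 % e2 + 1 * e2 : ℕ) : ℤ) := by
      exact_mod_cast h3
    omega

/-- **The determinant**, if the automorphism swaps two curves. -/
theorem Rot.swap_det (h : Rot w g e ζ) {C : Fin n → IntermediateField k M} [∀ i, IsFF k (C i)]
    (hC : Function.Injective C) {σ : Fin n → Fin n} (hσ : ∀ i z, z ∈ C i ↔ g z ∈ C (σ i))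
    {i : Fin n} (hi : σ i ≠ i) (hi2 : σ (σ i) = i) {t0 : Fin n → M}
    (ht0 : ∀ l, Par w (C l) (t0 l)) :
    ∃ (t : Fin n → M) (e' f : ℕ), (∀ l, Par w (C l) (t l)) ∧ 0 < e' ∧ 2 * e' = e ∧
      w.ord (t0 i) = f ∧ ∀ D : Fin n → Derivation k M M,
      (∀ j, Pres w (D j)) → Ge w (2 * ((f % e' : ℕ) : ℤ) + e' +
        ∑ l ∈ (Finset.univ.erase i).erase (σ i), w.ord (t0 l) - 1)
          (Matrix.of fun i j => D i (t j)).det := by
  classical
  have hper := iter_per hC hσ h.pow
  have hp2 : Function.minimalPeriod σ i = 2 := by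
    have h1 := period_ge h.pos hper hi
    have h2 : Function.minimalPeriod σ i ∣ 2 :=
      Function.IsPeriodicPt.minimalPeriod_dvd (show Function.IsPeriodicPt σ 2 i from hi2)
    have h3 := Nat.le_of_dvd (by norm_num) h2
    omega
  have horb : ∀ j, σ^[j] i = i ∨ σ^[j] i = σ i := by
    intro j
    induction j with
    | zero => exact Or.inl rfl
    | succ j ih =>
      rw [Function.iterate_succ_apply']
      rcases ih with h1 | h1
      · exact Or.inr (by rw [h1])
      · exact Or.inl (by rw [h1, hi2])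
  obtain ⟨t, ht, htt, e', f, he', hde, hf, hc⟩ := h.cyc hC hσ ht0 i
  rw [hp2] at hde hc
  obtain ⟨c, -, hc1, hc2, hc3⟩ := hc 1 (by omega)
  obtain ⟨c', -, hc1', hc2', hc3'⟩ := hc 0 (by omega)
  refine ⟨t, e', f, ht, he', hde, hf, fun D hD => ?_⟩
  have h1 := two_cols w D hD t (Ne.symm hi) c c' hc1 (by
    rw [hc2 le_rfl, hc2' le_rfl, hc1', one_mul]
    refine sub_ne_zero.2 (h.pow_ne ?_ ?_ ?_)
    · rw [← hde]
      exact bound_lt he' (by omega)
    · rw [← hde]
      exact bound_lt he' (by omega)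
    · omega) hc3 hc3'
  refine h1.mono (le_of_eq ?_)
  have h2 : ∑ l ∈ (Finset.univ.erase i).erase (σ i), w.ord (t l) =
      ∑ l ∈ (Finset.univ.erase i).erase (σ i), w.ord (t0 l) := by
    refine Finset.sum_congr rfl fun l hl => ?_
    rw [Finset.mem_erase, Finset.mem_erase] at hl
    rw [htt l]
    rintro ⟨j, hj⟩
    rcases horb j with h3 | h3
    · exact hl.2.1 (by rw [← hj, h3])
    · exact hl.1 (by rw [← hj, h3])
  rw [h2]
  push_cast
  ring

/-- rotations of the curves -/
theorem Rot.rotates (h : Rot w g e ζ) (A : IntermediateField k M) [hA : IsFF k A] (j : ℕ)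
    (hst : ∀ z ∈ A, (g ^ j) z ∈ A) {t : M} (ht : Par w A t) {f : ℕ} (hf : w.ord t = f) :
    ∃ w' : Place k A, Rotates A (g ^ j) w' (ζ ^ (f * j)) := by
  obtain ⟨htA, ht0, ⟨h1, -⟩ | ⟨w', f', h1, h2⟩⟩ := ht
  · obtain ⟨w', -⟩ := exists_place (k := k) (K := A)
    have hf0 : f = 0 := by
      rw [h1 t htA] at hf
      exact_mod_cast hf.symm
    refine ⟨w', fun s z hs hz => Or.inl ?_⟩
    rw [hf0, zero_mul, pow_zero, map_one, one_mul]
    by_cases hs0 : (s : M) = 0
    · have h3 : s = 0 := Subtype.ext hs0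
      rw [h3, w'.ord_zero] at hs
      omega
    have h3 := h.rot_pow hs0 j
    rw [h1 s s.2, zpow_zero, one_pow, map_one, one_mul, hz] at h3
    rcases h3 with h3 | h3
    · exact Subtype.ext h3
    · have h4 := h1 ((z - s : A) : M) (z - s).2
      change w.ord ((z : M) - s) = 0 at h4
      omega
  · have hff : f = f' := by
      rw [hf] at h2
      exact_mod_cast h2
    subst hff
    refine ⟨w', fun s z hs hz => ?_⟩
    have hcoe : ((z - algebraMap k A (ζ ^ (f * j)) * s : A) : M) =
        (g ^ j) s - algebraMap k M ((ζ ^ (f : ℤ)) ^ j) * s := by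
      rw [hz, zpow_natCast, ← pow_mul]
      rfl
    have hs0 : (s : M) ≠ 0 := by
      intro h0
      have h3 : s = 0 := Subtype.ext h0
      rw [h3, w'.ord_zero] at hs
      omega
    have h3 : w.ord (s : M) = f := by
      have := h1.2 s
      rw [hs, mul_one] at this
      exact this
    have h4 := h.rot_pow hs0 j
    rw [h3, ← hcoe] at h4
    rcases h4 with h4 | h4
    · exact Or.inl (Subtype.ext h4)
    · right
      have h5 := h1.2 (z - algebraMap k A (ζ ^ (f * j)) * s : A)
      change w.ord ((z - algebraMap k A (ζ ^ (f * j)) * s : A) : M) = _ at h5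
      rw [h5] at h4
      have h6 : (1 : ℤ) ≤ f := by exact_mod_cast h1.1
      by_contra hcon
      push Not at hcon
      nlinarith

end

end Pool.Agent.K4H25.GW

end

section

/-!
The reduction to the subgroup generated by the junior elements, for groups which permute the curves.
-/

set_option autoImplicit false
set_option linter.overlappingInstances false
set_option linter.unusedSectionVars false
set_option linter.unusedVariables false
set_option linter.unusedSimpArgs false
set_option maxHeartbeats 4000000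
set_option synthInstance.maxHeartbeats 400000

open Polynomial FF IntermediateField Pool.Agent.W619.PQ Pool.Agent.W619.PL Pool.Agent.W619.TW
  Pool.Agent.W603.LV Pool.Agent.K4H25.GQ Pool.Agent.Y174 Pool.Agent.R885.N

namespace Pool.Agent.K4H25.GW

section

variable {M : Type} [Field M] [Algebra ℂ M] {n : ℕ}

/-- The automorphism `g`, of order `N`, swaps the curves `i` and `j`, preserves the others, and is
junior: for some primitive `N`-th root of unity `ζ` it acts on the other curves at some places as the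
rotations by `ζ ^ a l`, and `g ^ 2` acts on the curve `i` at some place as the rotation by
`ζ ^ (2 a i)` (so `g` acts on the product of the two curves with the eigenvalues `± ζ ^ a i`), with
`∑_{l ≠ i, j} a l + 2 a i + N / 2 < N`. -/
def JuniorSwap (C : Fin n → IntermediateField ℂ M) (g : M ≃ₐ[ℂ] M) : Prop :=
  ∃ i j, i ≠ j ∧ (∀ z ∈ C i, g z ∈ C j) ∧ (∀ z ∈ C j, g z ∈ C i) ∧
    (∀ l, l ≠ i → l ≠ j → ∀ z ∈ C l, g z ∈ C l) ∧
    ∃ (ζ : ℂ) (w : ∀ l, Place ℂ (C l)) (a : Fin n → ℕ), IsPrimitiveRoot ζ (orderOf g) ∧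
      (∀ l, l ≠ i → l ≠ j → Rotates (C l) g (w l) (ζ ^ a l)) ∧
      Rotates (C i) (g ^ 2) (w i) (ζ ^ (2 * a i)) ∧
      2 * ∑ l ∈ (Finset.univ.erase i).erase j, a l + 4 * a i < orderOf g

/-- the curves are different -/
theorem curves_inj (C : Fin n → IntermediateField ℂ M) [hC : ∀ i, IsFF ℂ (C i)]
    (hn : Algebra.trdeg ℂ M = (n : ℕ)) (hgen : ⨆ i, C i = ⊤) : Function.Injective C := by
  classical
  intro i j hij
  by_contra hne
  choose x hx using fun i => IsFF.exists_transcendental (k := ℂ) (K := C i)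
  let x' : ∀ l, C l := fun l => if h : l = j then ⟨x i, by rw [h, ← hij]; exact (x i).2⟩ else x l
  have hx' : ∀ l, Transcendental ℂ (x' l) := by
    intro l
    have h1 : Transcendental ℂ ((x' l : C l) : M) := by
      by_cases h : l = j
      · have h2 : ((x' l : C l) : M) = x i := by
          simp only [x', dif_pos h]
        rw [h2]
        exact fun h3 => hx i ((isAlgebraic_algebraMap_iff (algebraMap (C i) M).injective).1 h3)
      · have h2 : ((x' l : C l) : M) = x l := by
          simp only [x', dif_neg h]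
        rw [h2]
        exact fun h3 => hx l ((isAlgebraic_algebraMap_iff (algebraMap (C l) M).injective).1 h3)
    exact fun h2 => h1 h2.algebraMap
  have h1 := basis_curves C hn hgen x' hx'
  have h2 := h1.1.injective
  apply hne
  apply h2
  have e1 : ((x' i : C i) : M) = x i := by
    simp only [x', dif_neg hne]
  have e2 : ((x' j : C j) : M) = x i := by
    simp only [x', dif_pos]
  exact e1.trans e2.symm

/-- **The main estimate.** -/
theorem perm_est (C : Fin n → IntermediateField ℂ M) [hC : ∀ i, IsFF ℂ (C i)]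
    (hn : Algebra.trdeg ℂ M = (n : ℕ)) (hgen : ⨆ i, C i = ⊤)
    (G : Subgroup (M ≃ₐ[ℂ] M)) [Finite G]
    (hperm : ∀ g ∈ G, ∀ i, ∃ j, (C i).map (g : M →ₐ[ℂ] M) = C j)
    (J : Subgroup (M ≃ₐ[ℂ] M)) [Finite J]
    (hJ : ∀ g ∈ G, (∀ i, ∀ z ∈ C i, g z ∈ C i) → Junior C g → g ∈ J)
    (hswap : ∀ g ∈ G, ¬ JuniorSwap C g)
    {w : Place ℂ M} {v : Place ℂ (fixedField G)} {u : Place ℂ (fixedField J)} {e e' : ℕ}
    (hv : Over w v e) (hu : Over w u e') (m : ℕ)
    (ω : (Fin n → Derivation ℂ M M) → M) (hω : IsSec ℂ M n (fun _ => False) {1} m 0 ω)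
    (D : Fin n → Derivation ℂ M M) (hD : ∀ j, Pres w (D j)) :
    Ge w (m * ((e : ℤ) - 1)) (ω D) ∨ e ≤ e' := by
  classical
  by_cases he : e = 1
  · right
    rw [he]
    exact hu.1
  obtain ⟨I, hIcard, hI⟩ := inertia_at G hv
  obtain ⟨g, hgI, hord, ζ, hζ, hrot⟩ := exists_rot_generator w I hI
  rw [hIcard] at hord hζ
  have hgin := hI g hgI
  have hR : Rot w (g : M ≃ₐ[ℂ] M) e ζ := by
    refine ⟨hζ, hv.1, ?_, hgin.ord_eq, hrot⟩
    rw [← hord]
    exact pow_orderOf_eq_one _
  have hg1 : (g : M ≃ₐ[ℂ] M) ≠ 1 := by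
    intro h1
    rw [h1, orderOf_one] at hord
    exact he hord.symm
  have hCi := curves_inj C hn hgen
  choose σ hσ' using hperm g g.2
  have hσ : ∀ i z, z ∈ C i ↔ (g : M ≃ₐ[ℂ] M) z ∈ C (σ i) := by
    intro i z
    rw [← hσ' i, IntermediateField.mem_map]
    constructor
    · intro h1
      exact ⟨z, h1, rfl⟩
    · rintro ⟨y, hy, h1⟩
      have h2 : (g : M ≃ₐ[ℂ] M) y = (g : M ≃ₐ[ℂ] M) z := h1
      rw [← (g : M ≃ₐ[ℂ] M).injective h2]
      exact hy
  choose t ht using fun l => exists_par (C l) w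
  choose f hf using fun l => Int.eq_ofNat_of_zero_le (ht l).nonneg
  by_cases hid : ∀ i, σ i = i
  · -- the curves are preserved
    have hst : ∀ i, ∀ z ∈ C i, (g : M ≃ₐ[ℂ] M) z ∈ C i := by
      intro i z hz
      have h1 := (hσ i z).1 hz
      rwa [hid] at h1
    by_cases hlt : ∑ i, f i < e
    · right
      have hjun : Junior C (g : M ≃ₐ[ℂ] M) := by
        choose w' hw' using fun i => hR.rotates (C i) 1 (by
          rw [pow_one]
          exact hst i) (ht i) (hf i)
        refine ⟨hg1, ζ, w', f, by rw [hord]; exact hζ, fun i => ?_, ?_⟩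
        · have h1 := hw' i
          rwa [pow_one, mul_one] at h1
        · rw [hord]
          exact hlt
      have hgJ := hJ g g.2 hst hjun
      obtain ⟨z, hz0, hz⟩ := u.surj
      have hzM : (z : M) ≠ 0 := fun h => hz0 (Subtype.ext h)
      have h1 : w.ord (z : M) = e' := by
        have := hu.2 z
        rw [hz, mul_one] at this
        exact this
      have h2 := hrot (z : M) hzM
      have h3 : (g : M ≃ₐ[ℂ] M) (z : M) = z := z.2 ⟨_, hgJ⟩
      rw [h3, h1, zpow_natCast] at h2
      have h4 : (z : M) - algebraMap ℂ M (ζ ^ e') * z = algebraMap ℂ M (1 - ζ ^ e') * z := by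
        rw [map_sub, map_one]
        ring
      rw [h4] at h2
      have h5 : ζ ^ e' = 1 := by
        by_contra hne
        have h6 : (1 : ℂ) - ζ ^ e' ≠ 0 := sub_ne_zero.2 (Ne.symm hne)
        have h7 : algebraMap ℂ M (1 - ζ ^ e') ≠ 0 := (_root_.map_ne_zero _).2 h6
        rcases h2 with h2 | h2
        · exact mul_ne_zero h7 hzM h2
        · rw [w.ord_mul h7 hzM, w.ord_const h6, h1] at h2
          omega
      exact Nat.le_of_dvd hu.1 ((hζ.pow_eq_one_iff_dvd _).1 h5)
    · left
      have h1 := det_ge w D hD t (fun l => w.ord (t l)) fun l => Or.inr le_rfl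
      refine par_est C hn hgen w t ht _ D (h1.mono ?_) m ω hω
      have h2 : (e : ℤ) ≤ ∑ l, w.ord (t l) := by
        rw [Finset.sum_congr rfl fun l _ => hf l]
        exact_mod_cast not_lt.1 hlt
      omega
  · left
    push Not at hid
    obtain ⟨i, hi⟩ := hid
    by_cases htr : σ (σ i) = i ∧ ∀ l, l ≠ i → l ≠ σ i → σ l = l
    · -- a transposition
      obtain ⟨hi2, hil⟩ := htr
      obtain ⟨t', e1, f', ht', he1, hde, hf', hdet⟩ := hR.swap_det hCi hσ hi hi2 ht
      have hff : f' = f i := by
        rw [hf i] at hf'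
        exact_mod_cast hf'.symm
      subst hff
      refine par_est C hn hgen w t' ht' _ D ((hdet D hD).mono ?_) m ω hω
      by_contra hcon
      push Not at hcon
      refine hswap g g.2 ⟨i, σ i, Ne.symm hi, fun z hz => (hσ i z).1 hz, fun z hz => ?_,
        fun l h1 h2 z hz => ?_, ?_⟩
      · have h1 := (hσ (σ i) z).1 hz
        rwa [hi2] at h1
      · have h3 := (hσ l z).1 hz
        rwa [hil l h1 h2] at h3
      · have hR1 : ∀ l, ∃ w' : Place ℂ (C l), (l ≠ i → l ≠ σ i →
            Rotates (C l) (g : M ≃ₐ[ℂ] M) w' (ζ ^ f l)) ∧ (l = i →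
            Rotates (C l) ((g : M ≃ₐ[ℂ] M) ^ 2) w' (ζ ^ (f l * 2))) := by
          intro l
          by_cases hl : l = i
          · obtain ⟨w', hw'⟩ := hR.rotates (C l) 2 (by
              intro z hz
              have h1 := (iter_mem hσ 2 l z).1 hz
              rw [hl] at h1 ⊢
              have h2 : σ^[2] i = i := hi2
              rwa [h2] at h1) (ht l) (hf l)
            exact ⟨w', fun h => absurd hl h, fun _ => hw'⟩
          · by_cases hl' : l = σ i
            · obtain ⟨w', -⟩ := exists_place (k := ℂ) (K := C l)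
              exact ⟨w', fun _ h => absurd hl' h, fun h => absurd h hl⟩
            · obtain ⟨w', hw'⟩ := hR.rotates (C l) 1 (by
                intro z hz
                rw [pow_one]
                have h1 := (hσ l z).1 hz
                rwa [hil l hl hl'] at h1) (ht l) (hf l)
              refine ⟨w', fun _ _ => ?_, fun h => absurd h hl⟩
              rwa [pow_one, mul_one] at hw'
        choose w' hw1 hw2 using hR1
        obtain ⟨a, ha⟩ : ∃ a : Fin n → ℕ, a = Function.update f i (f i % e1) := ⟨_, rfl⟩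
        have hai : a i = f i % e1 := by rw [ha, Function.update_self]
        have hal : ∀ l, l ≠ i → a l = f l := fun l hl => by rw [ha, Function.update_of_ne hl]
        refine ⟨ζ, w', a, by rw [hord]; exact hζ, fun l h1 h2 => ?_, ?_, ?_⟩
        · rw [hal l h1]
          exact hw1 l h1 h2
        · have h1 := hw2 i rfl
          have h2 : ζ ^ (f i * 2) = ζ ^ (2 * a i) := by
            have h3 := Nat.div_add_mod (f i) e1
            have h4 : f i * 2 = e * (f i / e1) + 2 * a i := by
              rw [hai, ← hde]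
              conv_lhs => rw [← h3]
              ring
            rw [h4, pow_add, pow_mul, hζ.pow_eq_one, one_pow, one_mul]
          rwa [h2] at h1
        · have h1 : ∑ l ∈ (Finset.univ.erase i).erase (σ i), w.ord (t l) =
              ((∑ l ∈ (Finset.univ.erase i).erase (σ i), a l : ℕ) : ℤ) := by
            push_cast
            refine Finset.sum_congr rfl fun l hl => ?_
            rw [Finset.mem_erase, Finset.mem_erase] at hl
            rw [hf l, hal l hl.2.1]
          rw [h1, ← hai] at hcon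
          rw [hord]
          have h2 : (e : ℤ) = 2 * e1 := by exact_mod_cast hde.symm
          omega
    · obtain ⟨t', ht', hdet⟩ := hR.perm_det hCi hσ hi htr
      exact par_est C hn hgen w t' ht' _ D (hdet D hD) m ω hω

/-- **The reduction to the subgroup generated by the junior elements**, for groups which permute the
curves. -/
theorem junior_red' (C : Fin n → IntermediateField ℂ M) [hC : ∀ i, IsFF ℂ (C i)]
    (hn : Algebra.trdeg ℂ M = (n : ℕ)) (hgen : ⨆ i, C i = ⊤)
    (G : Subgroup (M ≃ₐ[ℂ] M)) [Finite G]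
    (hperm : ∀ g ∈ G, ∀ i, ∃ j, (C i).map (g : M →ₐ[ℂ] M) = C j)
    (J : Subgroup (M ≃ₐ[ℂ] M)) (hJG : J ≤ G)
    (hJ : ∀ g ∈ G, (∀ i, ∀ z ∈ C i, g z ∈ C i) → Junior C g → g ∈ J)
    (hswap : ∀ g ∈ G, ¬ JuniorSwap C g)
    (h : PosB ℂ (fixedField J) n (fun _ => 0) ∨ NegB ℂ (fixedField J) n (fun _ => 0)) :
    PosB ℂ (fixedField G) n (fun _ => 0) ∨ NegB ℂ (fixedField G) n (fun _ => 0) := by
  classical
  have hfJ : Finite J := Finite.of_injective (Subgroup.inclusion hJG)
    (Subgroup.inclusion_injective hJG)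
  have hGJ : fixedField G ≤ fixedField J := fun z hz g => hz ⟨g, hJG g.2⟩
  have hessM : Algebra.EssFiniteType ℂ M := by
    have h1 : Algebra.EssFiniteType ℂ ↥(⨆ i, C i) := essFiniteType_iff.2
      (fg_iSup fun i => essFiniteType_iff.1 (IsFF.ess))
    rw [hgen] at h1
    exact (Algebra.EssFiniteType.iff_of_algEquiv (topEquiv (F := ℂ) (E := M))).1 h1
  have halgG := Pool.Agent.W721.PG.EFF2.alg_fixed G
  have halgJ := Pool.Agent.W721.PG.EFF2.alg_fixed J
  have hfinG : FiniteDimensional (fixedField G) M := fixed_finite G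
  have hfinJ : FiniteDimensional (fixedField J) M := fixed_finite J
  obtain ⟨htG, -⟩ := Pool.Agent.W721.PG.EFF2.exists_basis (fixedField G) n hn
  obtain ⟨htJ, -⟩ := Pool.Agent.W721.PG.EFF2.exists_basis (fixedField J) n hn
  have hessG : Algebra.EssFiniteType ℂ (fixedField G) := Pool.Agent.TH466.QG.ess_below (K := M)
  have hessJ : Algebra.EssFiniteType ℂ (fixedField J) := Pool.Agent.TH466.QG.ess_below (K := M)
  let _ : Algebra (fixedField G) (fixedField J) := (inclusion hGJ).toRingHom.toAlgebra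
  have t1 : IsScalarTower ℂ (fixedField G) (fixedField J) :=
    IsScalarTower.of_algebraMap_eq fun c => rfl
  have t2 : IsScalarTower (fixedField G) (fixedField J) M :=
    IsScalarTower.of_algebraMap_eq fun c => rfl
  have hfin : FiniteDimensional (fixedField G) (fixedField J) :=
    FiniteDimensional.left (fixedField G) (fixedField J) M
  have hb : ∀ v : Place ℂ (fixedField G), IsDivisorial v n →
      ∀ (w : Place ℂ (fixedField J)) (e : ℕ), LiesOn w v e →
      1 - (e : ℝ) * (1 - (fun _ : Place ℂ (fixedField G) => (0 : ℝ)) v) ≤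
        (fun _ : Place ℂ (fixedField J) => (0 : ℝ)) w := by
    intro v _ w e hw
    have h1 : (1 : ℝ) ≤ e := by exact_mod_cast hw.1
    beta_reduce
    linarith
  rcases h with ⟨d, hd, h1, h2⟩ | h1
  swap
  · exact Or.inr (neg_pull hessG htG hb h1)
  refine Or.inl ⟨d, hd, ?_, w0_num hessG htG hb h2⟩
  -- the ramification indices
  choose eG vG hG using fun w : Place ℂ M =>
    Pool.Agent.W73.PG.PULL.exists_over' (K := fixedField G) w
  choose eJ vJ hJ' using fun w : Place ℂ M =>
    Pool.Agent.W73.PG.PULL.exists_over' (K := fixedField J) w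
  have h3 : PairKod ℂ M n (fun w => 1 - (eJ w : ℝ)) d := by
    refine ((fin_all (K := fixedField J) (L := M) hessJ htJ
      (δ := fun _ => 0) (δ' := fun w => 1 - (eJ w : ℝ)) ?_).1 d).2 h1
    intro v _ w e hw
    obtain ⟨h4, -⟩ := over_uniq hw (hJ' w)
    rw [h4]
    ring
  refine w0_desc hn hessM G (fun _ => 0) (fun w => 1 - (eG w : ℝ)) ?_ ?_
  · intro v _ w e hw
    obtain ⟨h4, -⟩ := over_uniq hw (hG w)
    rw [h4]
    apply le_of_eq
    ring
  obtain ⟨m, hm, ω, hω, D, hD, hind⟩ := h3
  refine ⟨m, hm, ω, fun l => ⟨(hω l).1, fun w hw E hE => ?_⟩, D, hD, hind⟩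
  -- orders
  have hJ1 : ∀ w, 1 ≤ eJ w := fun w => (hJ' w).1
  have hsec : ∀ w, IsDivisorial w n → ∀ E : Fin n → Derivation ℂ M M,
      (∀ l, ∀ f, w.Reg f → w.Reg (E l f)) → ω l E = 0 ∨ (m : ℤ) * (eJ w - 1) ≤ w.ord (ω l E) := by
    intro w hw E hE
    rcases (hω l).2 w hw E hE with h4 | ⟨s, hs, hs0, h4⟩
    · exact Or.inl h4
    · right
      simp only [Nat.cast_zero, zero_mul, zero_sub] at h4
      have h5 : (((m : ℤ) * (eJ w - 1) : ℤ) : ℝ) ≤ ((w.ord (ω l E) : ℤ) : ℝ) := by
        push_cast
        linarith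
      exact_mod_cast h5
  have hreg : IsSec ℂ M n (fun _ => False) {1} m 0 (ω l) := by
    refine ⟨(hω l).1, fun w hw _ E hE => ?_, fun _ _ hF => hF.elim⟩
    rcases hsec w hw E hE with h4 | h4
    · exact Or.inl h4
    · refine Or.inr ⟨1, Finset.mem_singleton_self _, one_ne_zero, ?_⟩
      have h5 : (1 : ℤ) ≤ eJ w := by exact_mod_cast hJ1 w
      have h6 : (0 : ℤ) ≤ m := by positivity
      have h7 : (0 : ℤ) ≤ (m : ℤ) * (eJ w - 1) := mul_nonneg h6 (by omega)
      simp only [Nat.cast_zero, zero_mul]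
      omega
  have hmain : ω l E = 0 ∨ (m : ℤ) * (eG w - 1) ≤ w.ord (ω l E) := by
    rcases perm_est C hn hgen G hperm J hJ hswap (hG w) (hJ' w) m (ω l) hreg E hE with h4 | h5
    · exact h4
    · rcases hsec w hw E hE with h7 | h7
      · exact Or.inl h7
      · right
        have h6 : (0 : ℤ) ≤ m := by positivity
        have h8 : (eG w : ℤ) ≤ eJ w := by exact_mod_cast h5
        nlinarith
  rcases hmain with h4 | h4
  · exact Or.inl h4
  · refine Or.inr ⟨1, Finset.mem_singleton_self _, one_ne_zero, ?_⟩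
    have h5 : (((m : ℤ) * (eG w - 1) : ℤ) : ℝ) ≤ ((w.ord (ω l E) : ℤ) : ℝ) := by exact_mod_cast h4
    push_cast at h5
    simp only [Nat.cast_zero, zero_mul, zero_sub]
    linarith

end

end Pool.Agent.K4H25.GW

end
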