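import Mathlib

/-!
Points in a product of lines: the functions whose degree in the variable `j` is at most `M j`
separate a point from other points, if coordinates can be assigned to the other points.
-/

set_option autoImplicit false

namespace Pool.Agent.K4H25.MG

/-- Assignment of coordinates, by the marriage theorem: the coordinate `j` can be used `M j`
times. -/
theorem exists_assign {ι κ : Type} [DecidableEq ι] [DecidableEq κ]
    (D : ι → Finset κ) (M : κ → ℕ) (S : Finset ι) (hne : ∀ s ∈ S, (D s).Nonempty)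
    (hS : ∀ Λ : Finset κ, Λ.Nonempty → (S.filter fun s => D s ⊆ Λ).card ≤ ∑ j ∈ Λ, M j) :
    ∃ l : {s // s ∈ S} → κ, (∀ s : {s // s ∈ S}, l s ∈ D s) ∧
      ∀ j, (Finset.univ.filter fun s : {s // s ∈ S} => l s = j).card ≤ M j := by
  classical
  obtain ⟨f, hf, hfD⟩ := (Finset.all_card_le_biUnion_card_iff_exists_injective
    (fun s : {s // s ∈ S} => (D s).sigma fun j => (Finset.univ : Finset (Fin (M j))))).1 (by
      intro S'
      rcases S'.eq_empty_or_nonempty with h0 | ⟨s1, hs1⟩
      · rw [h0, Finset.card_empty]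
        exact Nat.zero_le _
      · have h1 : S'.biUnion (fun s : {s // s ∈ S} => (D s).sigma fun j =>
            (Finset.univ : Finset (Fin (M j)))) =
            (S'.biUnion fun s : {s // s ∈ S} => D s).sigma fun j => (Finset.univ : Finset (Fin (M j))) := by
          ext ⟨j, i⟩
          simp only [Finset.mem_biUnion, Finset.mem_sigma, Finset.mem_univ, and_true]
        rw [h1, Finset.card_sigma]
        simp only [Finset.card_univ, Fintype.card_fin]
        refine le_trans ?_ (hS (S'.biUnion fun s : {s // s ∈ S} => D s) ?_)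
        · rw [← Finset.card_map (Function.Embedding.subtype _)]
          refine Finset.card_le_card fun s hs => ?_
          obtain ⟨s', hs', rfl⟩ := Finset.mem_map.1 hs
          exact Finset.mem_filter.2 ⟨s'.2, Finset.subset_biUnion_of_mem (fun s : {s // s ∈ S} => D s) hs'⟩
        · obtain ⟨j, hj⟩ := hne s1 s1.2
          exact ⟨j, Finset.mem_biUnion.2 ⟨s1, hs1, hj⟩⟩)
  refine ⟨fun s => (f s).1, fun s => (Finset.mem_sigma.1 (hfD s)).1, fun j => ?_⟩
  have h1 : ∀ s ∈ Finset.univ.filter fun s : {s // s ∈ S} => (f s).1 = j, (f s) ∈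
      ({j} : Finset κ).sigma fun j => (Finset.univ : Finset (Fin (M j))) := by
    intro s hs
    rw [Finset.mem_sigma]
    exact ⟨Finset.mem_singleton.2 (Finset.mem_filter.1 hs).2, Finset.mem_univ _⟩
  have h2 := Finset.card_le_card_of_injOn f h1 hf.injOn
  rw [Finset.card_sigma, Finset.sum_singleton, Finset.card_univ, Fintype.card_fin] at h2
  exact h2

/-- A relation between the values of the monomials whose degree in the variables of the block `b` is
at most `M b` is a relation between the values of the products of polynomials in one variable. -/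
theorem rel_prod {Ω ι : Type} [Field Ω] {N q : ℕ} {β : Fin N → Fin q} {M : Fin q → ℕ}
    (S : Finset ι) (c : ι → Ω) (v : ι → Fin N → Ω)
    (hrel : ∀ a : Fin N → ℕ, (∀ b, ∑ j with β j = b, a j ≤ M b) →
      ∑ s ∈ S, c s * ∏ j, v s j ^ a j = 0)
    (p : Fin N → Polynomial Ω) (hp : ∀ b, ∑ j with β j = b, (p j).natDegree ≤ M b) :
    ∑ s ∈ S, c s * ∏ j, (p j).eval (v s j) = 0 := by
  classical
  have h1 : ∀ s, ∏ j, (p j).eval (v s j) =
      ∑ a ∈ Fintype.piFinset fun j : Fin N => Finset.range ((p j).natDegree + 1),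
        (∏ j, (p j).coeff (a j)) * ∏ j, v s j ^ a j := by
    intro s
    have h2 : ∀ j, (p j).eval (v s j) =
        ∑ i ∈ Finset.range ((p j).natDegree + 1), (p j).coeff i * v s j ^ i := fun j =>
      Polynomial.eval_eq_sum_range' (Nat.lt_succ_self _) _
    rw [Finset.prod_congr rfl fun j _ => h2 j, Finset.prod_univ_sum]
    refine Finset.sum_congr rfl fun a _ => ?_
    rw [Finset.prod_mul_distrib]
  rw [Finset.sum_congr rfl fun s _ => by rw [h1 s, Finset.mul_sum], Finset.sum_comm]
  refine Finset.sum_eq_zero fun a ha => ?_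
  have h3 : ∀ s ∈ S, c s * ((∏ j, (p j).coeff (a j)) * ∏ j, v s j ^ a j) =
      (∏ j, (p j).coeff (a j)) * (c s * ∏ j, v s j ^ a j) := fun s _ => by ring
  rw [Finset.sum_congr rfl h3, ← Finset.mul_sum, hrel a, mul_zero]
  intro b
  refine le_trans (Finset.sum_le_sum fun j _ => ?_) (hp b)
  have h4 := Fintype.mem_piFinset.1 ha j
  rw [Finset.mem_range] at h4
  omega

/-- There is no relation if coordinates can be assigned to the other points. -/
theorem coeff_zero {Ω ι : Type} [Field Ω] [DecidableEq ι] {N q : ℕ} {β : Fin N → Fin q}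
    {M : Fin q → ℕ} (S : Finset ι) (c : ι → Ω) (v : ι → Fin N → Ω)
    (hrel : ∀ a : Fin N → ℕ, (∀ b, ∑ j with β j = b, a j ≤ M b) →
      ∑ s ∈ S, c s * ∏ j, v s j ^ a j = 0)
    {s0 : ι} (hs0 : s0 ∈ S) (l : {s // s ∈ S.erase s0} → Fin N)
    (hl : ∀ s : {s // s ∈ S.erase s0}, v s (l s) ≠ v s0 (l s))
    (hM : ∀ b, (Finset.univ.filter fun s : {s // s ∈ S.erase s0} => β (l s) = b).card ≤ M b) :
    c s0 = 0 := by
  classical
  have h1 := rel_prod (β := β) (M := M) S c v hrel
    (fun j => ∏ s ∈ Finset.univ.filter fun s : {s // s ∈ S.erase s0} => l s = j,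
      (Polynomial.X - Polynomial.C (v s j)))
    fun b => by
      refine le_trans ?_ (hM b)
      have h2 : ∀ j ∈ Finset.univ.filter fun j : Fin N => β j = b,
          (∏ s ∈ Finset.univ.filter fun s : {s // s ∈ S.erase s0} => l s = j,
            (Polynomial.X - Polynomial.C (v s j))).natDegree ≤
          ((Finset.univ.filter fun s : {s // s ∈ S.erase s0} => β (l s) = b).filter
            fun s => l s = j).card := by
        intro j hj
        refine (Polynomial.natDegree_prod_le _ _).trans ?_
        simp only [Polynomial.natDegree_X_sub_C, Finset.sum_const, smul_eq_mul, mul_one]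
        refine Finset.card_le_card fun s hs => ?_
        rw [Finset.mem_filter] at hs hj ⊢
        exact ⟨Finset.mem_filter.2 ⟨Finset.mem_univ _, by rw [hs.2]; exact hj.2⟩, hs.2⟩
      refine (Finset.sum_le_sum h2).trans ?_
      rw [← Finset.card_eq_sum_card_fiberwise]
      intro s hs
      have h3 := (Finset.mem_filter.1 (Finset.mem_coe.1 hs)).2
      exact Finset.mem_coe.2 (Finset.mem_filter.2 ⟨Finset.mem_univ _, h3⟩)
  rw [← Finset.add_sum_erase S _ hs0, Finset.sum_eq_zero, add_zero] at h1
  · refine (mul_eq_zero.1 h1).resolve_right ?_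
    rw [Finset.prod_eq_zero_iff]
    push Not
    intro j _
    rw [Polynomial.eval_prod, Finset.prod_ne_zero_iff]
    intro s hs
    rw [Finset.mem_filter] at hs
    rw [Polynomial.eval_sub, Polynomial.eval_X, Polynomial.eval_C, sub_ne_zero]
    have h2 := hl s
    rw [hs.2] at h2
    exact h2.symm
  · intro s hs
    apply mul_eq_zero_of_right
    refine Finset.prod_eq_zero (Finset.mem_univ (l ⟨s, hs⟩)) ?_
    rw [Polynomial.eval_prod]
    refine Finset.prod_eq_zero (Finset.mem_filter.2 ⟨Finset.mem_univ ⟨s, hs⟩, rfl⟩) ?_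
    rw [Polynomial.eval_sub, Polynomial.eval_X, Polynomial.eval_C, sub_self]

end Pool.Agent.K4H25.MG
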