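import Pool.Agent.K4H25.MG.C

section

/-!
`κ = ν` for the quotients of products of curves: the general theorem.
-/

set_option autoImplicit false
set_option linter.overlappingInstances false
set_option linter.unusedSectionVars false
set_option linter.unusedVariables false
set_option linter.unusedSimpArgs false
set_option maxHeartbeats 4000000
set_option synthInstance.maxHeartbeats 400000

open FF IntermediateField Pool.Agent.W619.PQ Pool.Agent.W619.PL Pool.Agent.W619.TW
  Pool.Agent.W603.LV Pool.Agent.K4H25.GQ Pool.Agent.Y174 Pool.Agent.R885.N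

namespace Pool.Agent.K4H25.GW

section

variable {M : Type} [Field M] [Algebra ℂ M] {q : ℕ}

/-- **The weighted criterion of Reid and Tai** for a group `J` which acts on the product of a variety
with the function field `Z` and of the curves `C i`: there are weights `δ i p ≥ 0` at the points `p`
of the curves `C i / J` (almost all of them zero) such that
* `r (1 - δ i p) ≥ 1` for the ramification indices `r` at the points over `p` of the curve
  `C' i` (`red`), the quotient of `C i` by the elements of `J` which are trivial on all the other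
  factors;
* if `g ∈ J` has the order `e > 1` on the product of the `C' i` and acts at the points `w i` of the
  `C' i`, over `p i` with the ramification index `r i`, as the rotation by `ζ ^ a i`,
  `0 ≤ a i < e`, `ζ` a primitive `e`-th root of unity, then `∑ i, r i (1 - δ i (p i)) a i ≥ e`;
  it suffices that this sum is at least `e - 1` if `g` is not trivial on `Z`;
* the degree of `K + ∑ p, δ i p · p` on `C i / J` is positive, or it is zero and `C' i` is
  elliptic. -/
structure WeightedCriterion (J : Subgroup (M ≃ₐ[ℂ] M)) (Z : IntermediateField ℂ M)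
    (C : Fin q → IntermediateField ℂ M) (δ : ∀ i, Place ℂ ↥(C i ⊓ fixedField J) → ℚ) : Prop where
  nonneg : ∀ i p, 0 ≤ δ i p
  branch : ∀ i (w : Place ℂ (red J Z C i)) (p : Place ℂ ↥(C i ⊓ fixedField J)) (r : ℕ),
    LiesOver (red_ge J Z C i) w p r → 1 ≤ r * (1 - δ i p)
  age : ∀ g ∈ J, ∀ e : ℕ, 1 < e → (∀ m : ℕ, (∀ i, ∀ z ∈ red J Z C i, (g ^ m) z = z) ↔ e ∣ m) →
    ∀ ζ : ℂ, IsPrimitiveRoot ζ e →
    ∀ (w : ∀ i, Place ℂ (red J Z C i)) (p : ∀ i, Place ℂ ↥(C i ⊓ fixedField J))
      (r a : Fin q → ℕ), (∀ i, LiesOver (red_ge J Z C i) (w i) (p i) (r i)) →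
      (∀ i, a i < e) → (∀ i, Rotates (red J Z C i) g (w i) (ζ ^ a i)) →
      (e : ℚ) ≤ ∑ i, r i * (1 - δ i (p i)) * a i ∨
        ((∃ z ∈ Z, g z ≠ z) ∧ (e : ℚ) ≤ ∑ i, r i * (1 - δ i (p i)) * a i + 1)
  degree : ∀ i, ∃ T : Finset (Place ℂ ↥(C i ⊓ fixedField J)), (∀ q, q ∉ T → δ i q = 0) ∧
    ((0 : ℚ) < canDeg ℂ ↥(C i ⊓ fixedField J) + ∑ q ∈ T, δ i q ∨
      ((0 : ℚ) ≤ canDeg ℂ ↥(C i ⊓ fixedField J) + ∑ q ∈ T, δ i q ∧
        canDeg ℂ (red J Z C i) = 0))

theorem iSup_append {d q : ℕ} (A : Fin d → IntermediateField ℂ M)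
    (C : Fin q → IntermediateField ℂ M) :
    (⨆ i, (Fin.append A C : Fin (d + q) → IntermediateField ℂ M) i) = (⨆ i, A i) ⊔ ⨆ i, C i := by
  apply le_antisymm
  · refine iSup_le fun i => ?_
    refine Fin.addCases (fun l => ?_) (fun l => ?_) i
    · rw [Fin.append_left]
      exact (le_iSup A l).trans le_sup_left
    · rw [Fin.append_right]
      exact (le_iSup C l).trans le_sup_right
  · refine sup_le (iSup_le fun l => ?_) (iSup_le fun l => ?_)
    · have h1 := le_iSup (fun i => (Fin.append A C : Fin (d + q) → IntermediateField ℂ M) i)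
        (Fin.castAdd q l)
      rwa [Fin.append_left] at h1
    · have h1 := le_iSup (fun i => (Fin.append A C : Fin (d + q) → IntermediateField ℂ M) i)
        (Fin.natAdd d l)
      rwa [Fin.append_right] at h1

/-- **The general theorem.** -/
theorem main_full {d : ℕ} (hn : Algebra.trdeg ℂ M = (d + q : ℕ))
    (A : Fin d → IntermediateField ℂ M) (C : Fin q → IntermediateField ℂ M)
    (hA : ∀ i, IsFF ℂ (A i)) (hC : ∀ i, IsFF ℂ (C i)) (hgen : (⨆ i, A i) ⊔ ⨆ i, C i = ⊤)
    (G : Subgroup (M ≃ₐ[ℂ] M)) [Finite G]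
    (hG : ∀ g ∈ G, ∀ i, ∃ j, ((Fin.append A C : Fin (d + q) → IntermediateField ℂ M) i).map
      (g : M →ₐ[ℂ] M) = (Fin.append A C : Fin (d + q) → IntermediateField ℂ M) j)
    (J : Subgroup (M ≃ₐ[ℂ] M)) (hJG : J ≤ G)
    (hJ : ∀ g ∈ J, ∀ i, ∀ z ∈ (Fin.append A C : Fin (d + q) → IntermediateField ℂ M) i,
      g z ∈ (Fin.append A C : Fin (d + q) → IntermediateField ℂ M) i)
    (hjun : ∀ g ∈ G, (∀ i, ∀ z ∈ (Fin.append A C : Fin (d + q) → IntermediateField ℂ M) i,
      g z ∈ (Fin.append A C : Fin (d + q) → IntermediateField ℂ M) i) →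
      Junior (Fin.append A C : Fin (d + q) → IntermediateField ℂ M) g → g ∈ J)
    (hswap : ∀ g ∈ G, ¬ JuniorSwap (Fin.append A C : Fin (d + q) → IntermediateField ℂ M) g)
    (hab : ∀ g ∈ J, ∀ h ∈ J, (∀ i, ∀ z ∈ C i, g z = z ∧ h z = z) →
      (∀ i, (¬ ∃ τ : M, ℂ⟮τ⟯ = A i ⊓ fixedField J) →
      (∀ z ∈ A i, g z = z) ∧ ∀ z ∈ A i, h z = z) → g * h = h * g)
    (δ : ∀ i, Place ℂ ↥(C i ⊓ fixedField J) → ℚ)
    (hcrit : WeightedCriterion J (⨆ i, A i) C δ) :
    PosB ℂ (fixedField G) (d + q) (fun _ => 0) ∨ NegB ℂ (fixedField G) (d + q) (fun _ => 0) := by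
  classical
  have hfJ : Finite J := Finite.of_injective (Subgroup.inclusion hJG)
    (Subgroup.inclusion_injective hJG)
  have hstA : ∀ g ∈ J, ∀ i, ∀ z ∈ A i, g z ∈ A i := by
    intro g hg i
    have h1 := hJ g hg (Fin.castAdd q i)
    rwa [Fin.append_left] at h1
  have hstC : ∀ g ∈ J, ∀ i, ∀ z ∈ C i, g z ∈ C i := by
    intro g hg i
    have h1 := hJ g hg (Fin.natAdd d i)
    rwa [Fin.append_right] at h1
  have hred : ∀ i, IsFF ℂ (red J (⨆ i, A i) C i) := by
    intro i
    have hle : J ⊓ ((⨆ i, A i) ⊔ ⨆ j : {j // j ≠ i}, C j).fixingSubgroup ≤ J := inf_le_left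
    have hfin : Finite ↥(J ⊓ ((⨆ i, A i) ⊔ ⨆ j : {j // j ≠ i}, C j).fixingSubgroup) :=
      Finite.of_injective (Subgroup.inclusion hle) (Subgroup.inclusion_injective hle)
    have := hC i
    exact isFF_inf (J ⊓ ((⨆ i, A i) ⊔ ⨆ j : {j // j ≠ i}, C j).fixingSubgroup) (C i)
      (fun g hg => hstC g (hle hg) i)
  have h1 := main_W hn A C hgen J hstA hstC hab (fun i => red J (⨆ i, A i) C i) (fun i => rfl)
    (fun i => red_ge J (⨆ i, A i) C i) hred δ hcrit.nonneg hcrit.branch hcrit.age hcrit.degree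
  have hFF : ∀ i, IsFF ℂ ((Fin.append A C : Fin (d + q) → IntermediateField ℂ M) i) := by
    intro i
    refine Fin.addCases (fun l => ?_) (fun l => ?_) i
    · rw [Fin.append_left]
      exact hA l
    · rw [Fin.append_right]
      exact hC l
  exact junior_red' (Fin.append A C : Fin (d + q) → IntermediateField ℂ M) hn
    (by rw [iSup_append]; exact hgen) G hG J hJG hjun hswap h1

end

end Pool.Agent.K4H25.GW

end

section

/-!
`κ = ν` for the quotients of products of curves by groups with commuting junior elements.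
-/

set_option autoImplicit false
set_option linter.overlappingInstances false
set_option linter.unusedSectionVars false
set_option linter.unusedVariables false
set_option linter.unusedSimpArgs false
set_option maxHeartbeats 4000000
set_option synthInstance.maxHeartbeats 400000

open FF IntermediateField Pool.Agent.W619.PQ Pool.Agent.W619.PL Pool.Agent.W619.TW
  Pool.Agent.W603.LV Pool.Agent.K4H25.GQ Pool.Agent.Y174 Pool.Agent.R885.N

namespace Pool.Agent.K4H25.GW

section

variable {M : Type} [Field M] [Algebra ℂ M]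

/-- rotations of a curve in a stable subfield -/
theorem rotates_lift {Z E : IntermediateField ℂ M} (hE : E ≤ Z) [IsFF ℂ E]
    (H : Subgroup (M ≃ₐ[ℂ] M)) (hstZ : ∀ g ∈ H, ∀ z ∈ Z, g z ∈ Z) (g : H)
    (w : Place ℂ ↥(restrict hE)) (θ : ℂ) (h : Rotates (restrict hE) (rho H Z hstZ g) w θ) :
    Rotates E (g : M ≃ₐ[ℂ] M) (pullP (restrictAlgEquiv hE) w) θ := by
  intro t z ht hz
  have h1 := h (restrictAlgEquiv hE t) (restrictAlgEquiv hE z) ht (by
    apply Subtype.ext
    exact hz)
  have h2 : restrictAlgEquiv hE z - algebraMap ℂ ↥(restrict hE) θ * restrictAlgEquiv hE t =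
      restrictAlgEquiv hE (z - algebraMap ℂ E θ * t) := by
    rw [map_sub, map_mul, AlgEquiv.commutes]
  rw [h2] at h1
  rcases h1 with h1 | h1
  · left
    exact (map_eq_zero _).1 h1
  · right
    exact h1

/-- An element which is junior on some of the curves and trivial on the others is junior. -/
theorem junior_lift {n d : ℕ} (C : Fin n → IntermediateField ℂ M) [∀ l, IsFF ℂ (C l)]
    (hgen : ⨆ l, C l = ⊤) {Z : IntermediateField ℂ M} (s : Fin d → Fin n)
    (hs : Function.Injective s) (hCZ : ∀ j, C (s j) ≤ Z) (H : Subgroup (M ≃ₐ[ℂ] M))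
    (hstZ : ∀ g ∈ H, ∀ z ∈ Z, g z ∈ Z) (g : H)
    (htriv : ∀ l, (¬ ∃ j, s j = l) → ∀ z ∈ C l, (g : M ≃ₐ[ℂ] M) z = z)
    (h : Junior (fun j => restrict (hCZ j)) (rho H Z hstZ g)) :
    Junior C (g : M ≃ₐ[ℂ] M) := by
  classical
  obtain ⟨hne, ζ, w, a, hζ, hrot, hsum⟩ := h
  have hpow : ∀ m : ℕ, (rho H Z hstZ g) ^ m = 1 ↔ (g : M ≃ₐ[ℂ] M) ^ m = 1 := by
    intro m
    rw [← map_pow]
    constructor
    · intro h1
      have h2 : ∀ l, ∀ z ∈ C l, ((g : M ≃ₐ[ℂ] M) ^ m) z = z := by
        intro l z hz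
        by_cases hl : ∃ j, s j = l
        · obtain ⟨j, rfl⟩ := hl
          have h3 : ((rho H Z hstZ (g ^ m) ⟨z, hCZ j hz⟩ : Z) : M) = z := by
            rw [h1]
            rfl
          exact h3
        · have h3 := htriv l hl
          clear h1
          induction m with
          | zero => rfl
          | succ m ih =>
            rw [pow_succ']
            change (g : M ≃ₐ[ℂ] M) (((g : M ≃ₐ[ℂ] M) ^ m) z) = z
            rw [ih, h3 z hz]
      have h3 : (⨆ l, C l) ≤ fixedField (Subgroup.zpowers ((g : M ≃ₐ[ℂ] M) ^ m)) :=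
        iSup_le fun l => le_fix_zpowers (h2 l)
      apply AlgEquiv.ext
      intro z
      have h4 : z ∈ ⨆ l, C l := by
        rw [hgen]
        trivial
      exact h3 h4 ⟨_, Subgroup.mem_zpowers _⟩
    · intro h1
      apply AlgEquiv.ext
      intro z
      apply Subtype.ext
      change ((g : M ≃ₐ[ℂ] M) ^ m) z = z
      rw [h1]
      rfl
  have hord : orderOf (g : M ≃ₐ[ℂ] M) = orderOf (rho H Z hstZ g) :=
    (orderOf_eq_orderOf_iff.2 hpow).symm
  have hex : ∀ l, ∃ (w' : Place ℂ (C l)) (a' : ℕ), Rotates (C l) (g : M ≃ₐ[ℂ] M) w' (ζ ^ a') ∧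
      (∀ j, s j = l → a' = a j) ∧ ((¬ ∃ j, s j = l) → a' = 0) := by
    intro l
    by_cases hl : ∃ j, s j = l
    · obtain ⟨j, rfl⟩ := hl
      refine ⟨_, a j, rotates_lift (hCZ j) H hstZ g (w j) _ (hrot j), fun j' hj' => ?_,
        fun h => absurd ⟨j, rfl⟩ h⟩
      rw [hs hj']
    · obtain ⟨w', -⟩ := exists_place (k := ℂ) (K := C l)
      refine ⟨w', 0, fun t z ht hz => Or.inl ?_, fun j hj => absurd ⟨j, hj⟩ hl, fun _ => rfl⟩
      apply Subtype.ext
      rw [pow_zero, map_one, one_mul]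
      have h1 := htriv l hl t t.2
      rw [hz] at h1
      change (z : M) - t = 0
      rw [h1, sub_self]
  choose w' a' hw' ha' ha0 using hex
  refine ⟨fun h1 => hne ?_, ζ, w', a', by rw [hord]; exact hζ, hw', ?_⟩
  · have h2 := (hpow 1).2 (by rw [pow_one]; exact h1)
    rwa [pow_one] at h2
  · rw [hord, ← Fintype.sum_of_injective s hs a a' (fun l hl => ha0 l fun h => hl h)
      (fun j => (ha' (s j) j rfl).symm)]
    exact hsum

end

/-- **Quotients of products of curves by finite groups.** The junior elements of `G` which are trivial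
on all the curves whose quotient is not rational commute. -/
theorem main_jun (n : ℕ) : ∀ (M : Type) [Field M] [Algebra ℂ M]
    (C : Fin n → IntermediateField ℂ M) [∀ i, IsFF ℂ (C i)] (G : Subgroup (M ≃ₐ[ℂ] M)) [Finite G],
    Algebra.trdeg ℂ M = (n : ℕ) → ⨆ i, C i = ⊤ →
    (∀ g ∈ G, ∀ i, ∀ z ∈ C i, g z ∈ C i) →
    (∀ g ∈ G, ∀ h ∈ G, Junior C g → Junior C h →
      (∀ i, (¬ ∃ τ : M, ℂ⟮τ⟯ = C i ⊓ fixedField G) →
      (∀ z ∈ C i, g z = z) ∧ ∀ z ∈ C i, h z = z) → g * h = h * g) →
    PosB ℂ (fixedField G) n (fun _ => 0) ∨ NegB ℂ (fixedField G) n (fun _ => 0) := by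
  induction n with
  | zero =>
    intro M _ _ C hC G _ hn hgen hst hab
    left
    have halgG := Pool.Agent.W721.PG.EFF2.alg_fixed G
    obtain ⟨htK, -⟩ := Pool.Agent.W721.PG.EFF2.exists_basis (fixedField G) 0 hn
    exact good_zero (by rw [htK, Nat.cast_zero])
  | succ n ih =>
    intro M _ _ C hC G _ hn hgen hst hab
    have hessM : Algebra.EssFiniteType ℂ M := by
      have h1 : Algebra.EssFiniteType ℂ ↥(⨆ i, C i) :=
        essFiniteType_iff.2 (fg_iSup fun j => essFiniteType_iff.1 (IsFF.ess))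
      rw [hgen] at h1
      exact (Algebra.EssFiniteType.iff_of_algEquiv (topEquiv (F := ℂ) (E := M))).1 h1
    by_cases hall : ∀ i, ∃ τ : M, ℂ⟮τ⟯ = C i ⊓ fixedField G
    · -- the subgroup generated by the junior elements
      let J : Subgroup (M ≃ₐ[ℂ] M) := Subgroup.closure {g | g ∈ G ∧ Junior C g}
      have hJG : J ≤ G := (Subgroup.closure_le G).2 fun g hg => hg.1
      have hfJ : Finite J := Finite.of_injective (Subgroup.inclusion hJG)
        (Subgroup.inclusion_injective hJG)
      refine junior_red C hn hgen G hst J hJG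
        (fun g hg hj => Subgroup.subset_closure ⟨hg, hj⟩) ?_
      have hcomm : ∀ g ∈ J, ∀ h ∈ J, g * h = h * g := by
        intro g hg h hh
        have h1 : J ≤ Subgroup.centralizer {g | g ∈ G ∧ Junior C g} := by
          refine (Subgroup.closure_le _).2 fun x hx => ?_
          rw [SetLike.mem_coe, Subgroup.mem_centralizer_iff]
          intro y hy
          exact hab y hy.1 x hx.1 hy.2 hx.2 fun i hi => absurd (hall i) hi
        have h2 : J ≤ Subgroup.centralizer (J : Set (M ≃ₐ[ℂ] M)) := by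
          have h3 := Subgroup.closure_le_centralizer_centralizer {g | g ∈ G ∧ Junior C g}
          exact h3.trans (Subgroup.centralizer_le h1)
        exact ((Subgroup.mem_centralizer_iff.1 (h2 hh)) g hg)
      have hallJ : ∀ i, ∃ τ : M, ℂ⟮τ⟯ = C i ⊓ fixedField G := hall
      exact main_ind (n + 1) M C J hn hgen (fun g hg => hst g (hJG hg))
        fun g hg h hh _ => hcomm g hg h hh
    rw [not_forall] at hall
    obtain ⟨i, hi⟩ := hall
    obtain ⟨A, hA⟩ : ∃ A : IntermediateField ℂ M, A = ⨆ j : Fin n, C (i.succAbove j) := ⟨_, rfl⟩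
    have hCA : ∀ j : Fin n, C (i.succAbove j) ≤ A := fun j => by
      rw [hA]
      exact le_iSup (fun j : Fin n => C (i.succAbove j)) j
    have hsup : A ⊔ C i = ⊤ := by
      rw [eq_top_iff, ← hgen]
      refine iSup_le fun l => ?_
      by_cases hl : l = i
      · rw [hl]
        exact le_sup_right
      · obtain ⟨j, rfl⟩ := Fin.exists_succAbove_eq hl
        exact (hCA j).trans le_sup_left
    have hstA : ∀ g ∈ G, ∀ z ∈ A, g z ∈ A := by
      intro g hg
      rw [hA]
      exact iSup_stable fun j => hst g hg (i.succAbove j)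
    -- the curves in `A`
    let C' : Fin n → IntermediateField ℂ A := fun j => restrict (hCA j)
    have hC' : ∀ j, IsFF ℂ (C' j) := fun j =>
      isFF_iso (restrictAlgEquiv (hCA j)).symm (hC (i.succAbove j))
    have hgen' : ⨆ j, C' j = ⊤ := by
      apply lift_injective A
      rw [lift_top]
      have h1 : lift (⨆ j, C' j) = ⨆ j, lift (C' j) := by
        unfold IntermediateField.lift
        rw [IntermediateField.map_iSup]
      rw [h1]
      simp only [C', lift_restrict]
      exact hA.symm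
    have hessA : Algebra.EssFiniteType ℂ A := by
      rw [hA]
      exact essFiniteType_iff.2 (fg_iSup fun j => essFiniteType_iff.1 (IsFF.ess))
    have htA : Algebra.trdeg ℂ A = (n : ℕ) := by
      have h1 := Pool.Agent.W824.PG.trdeg_le_of_sup (⊥ : IntermediateField ℂ A) C' (trdeg_bot A)
        (by rw [bot_sup_eq]; exact hgen')
      rw [Nat.zero_add] at h1
      obtain ⟨m, hm⟩ := Cardinal.lt_aleph0.1 (lt_of_le_of_lt h1 Cardinal.natCast_lt_aleph0)
      have h2 := Pool.Agent.W824.PG.trdeg_le_of_sup (d := m) A (fun _ : Fin 1 => C i) hm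
        (by rw [ciSup_const]; exact hsup)
      rw [hn] at h2
      rw [hm] at h1 ⊢
      have h3 : m ≤ n := by exact_mod_cast h1
      have h4 : n + 1 ≤ m + 1 := by exact_mod_cast h2
      have h5 : m = n := by omega
      rw [h5]
    refine glue hn A (C i) htA hessA hsup G hstA (fun g hg => hst g hg i)
      (by rw [← rat_iff]; exact hi) ?_
    -- the induction hypothesis
    obtain ⟨H, hH⟩ : ∃ H, H = G ⊓ (C i).fixingSubgroup := ⟨_, rfl⟩
    rw [← hH]
    have hHG : H ≤ G := by rw [hH]; exact inf_le_left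
    have hfH : Finite H := Finite.of_injective (Subgroup.inclusion hHG)
      (Subgroup.inclusion_injective hHG)
    have hHC : ∀ g ∈ H, ∀ z ∈ C i, g z = z := by
      intro g hg
      rw [hH] at hg
      exact mem_fixer.1 hg.2
    have hstH : ∀ g ∈ H, ∀ z ∈ A, g z ∈ A := fun g hg => hstA g (hHG hg)
    let H1 : Subgroup (A ≃ₐ[ℂ] A) := (rho H A hstH).range
    have hfH1 : Finite H1 := Finite.of_surjective _ (MonoidHom.rangeRestrict_surjective _)
    have hlift : lift (fixedField H1) = A ⊓ fixedField H := lift_fixed H A hstH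
    have hjl : ∀ g : H, Junior C' (rho H A hstH g) → Junior C (g : M ≃ₐ[ℂ] M) := by
      intro g hg
      refine junior_lift C hgen (fun j => i.succAbove j) Fin.succAbove_right_injective hCA H hstH g
        (fun l hl => ?_) hg
      have hli : l = i := by
        by_contra hne
        exact hl (Fin.exists_succAbove_eq hne)
      rw [hli]
      exact hHC g g.2
    have hmain := ih A C' H1 htA hgen' (by
      rintro _ ⟨g, rfl⟩ j z hz
      exact (mem_restrict (hCA j) _).2
        (hst g (hHG g.2) (i.succAbove j) z ((mem_restrict (hCA j) _).1 hz))) (by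
      rintro _ ⟨g, rfl⟩ _ ⟨h, rfl⟩ hjg hjh hgh
      have h1 : (g : M ≃ₐ[ℂ] M) * h = h * g := by
        refine hab g (hHG g.2) h (hHG h.2) (hjl g hjg) (hjl h hjh) fun l hl => ?_
        by_cases hli : l = i
        · rw [hli]
          exact ⟨hHC g g.2, hHC h h.2⟩
        · obtain ⟨j, rfl⟩ := Fin.exists_succAbove_eq hli
          have h2 : ¬ ∃ τ : A, ℂ⟮τ⟯ = C' j ⊓ fixedField H1 := by
            intro hcon
            apply hl
            apply rat_down G H hHG (C (i.succAbove j)) (fun g hg => hst g hg _)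
            rw [rat_iff] at hcon ⊢
            have h3 : lift (C' j ⊓ fixedField H1) = C (i.succAbove j) ⊓ fixedField H := by
              rw [lift_inf, hlift, lift_restrict, ← inf_assoc]
              congr 1
              exact inf_eq_left.2 (hCA j)
            exact rat_iso ((liftAlgEquiv (C' j ⊓ fixedField H1)).trans (equivOfEq h3)) hcon
          obtain ⟨h3, h4⟩ := hgh j h2
          exact ⟨fun z hz => congrArg (Subtype.val : A → M)
              (h3 ⟨z, hCA j hz⟩ ((mem_restrict (hCA j) _).2 hz)),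
            fun z hz => congrArg (Subtype.val : A → M)
              (h4 ⟨z, hCA j hz⟩ ((mem_restrict (hCA j) _).2 hz))⟩
      rw [← map_mul, ← map_mul]
      congr 1
      exact Subtype.ext h1)
    obtain ⟨h1, h2⟩ := trdeg_inf H A hstH htA hessA
    exact good_iso ((liftAlgEquiv (fixedField H1)).trans (equivOfEq hlift)).symm h2 h1 hmain

end Pool.Agent.K4H25.GW

end

section

/-!
`κ = ν` for the quotients of products of curves by groups without nonabelian subgroups which are
generated by junior elements and have rational quotients.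
-/

set_option autoImplicit false
set_option linter.overlappingInstances false
set_option linter.unusedSectionVars false
set_option linter.unusedVariables false
set_option linter.unusedSimpArgs false
set_option maxHeartbeats 4000000
set_option synthInstance.maxHeartbeats 400000

open FF IntermediateField Pool.Agent.W619.PQ Pool.Agent.W619.PL Pool.Agent.W619.TW
  Pool.Agent.W603.LV Pool.Agent.K4H25.GQ Pool.Agent.Y174 Pool.Agent.R885.N

namespace Pool.Agent.K4H25.GW

section

variable {M : Type} [Field M] [Algebra ℂ M]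

/-- The subgroup `H` is generated by junior elements, and for every `i` it is trivial on the curve
`C i` or the curve `C i / H` is rational. -/
structure Small {n : ℕ} (C : Fin n → IntermediateField ℂ M) (H : Subgroup (M ≃ₐ[ℂ] M)) :
    Prop where
  junior : Subgroup.closure {g | g ∈ H ∧ Junior C g} = H
  rational : ∀ i, (∀ g ∈ H, ∀ z ∈ C i, g z = z) ∨ ∃ τ : M, ℂ⟮τ⟯ = C i ⊓ fixedField H

/-- Subgroups of the image in the automorphisms of a stable subfield. -/
theorem small_lift {n d : ℕ} (C : Fin n → IntermediateField ℂ M) [∀ l, IsFF ℂ (C l)]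
    (hgen : ⨆ l, C l = ⊤) {Z : IntermediateField ℂ M} (s : Fin d → Fin n)
    (hs : Function.Injective s) (hCZ : ∀ j, C (s j) ≤ Z) (H : Subgroup (M ≃ₐ[ℂ] M))
    (hstZ : ∀ g ∈ H, ∀ z ∈ Z, g z ∈ Z)
    (htriv : ∀ g ∈ H, ∀ l, (¬ ∃ j, s j = l) → ∀ z ∈ C l, g z = z)
    (hB : ∀ H' ≤ H, Small C H' → ∀ g ∈ H', ∀ h ∈ H', g * h = h * g)
    (K : Subgroup (Z ≃ₐ[ℂ] Z)) (hK : K ≤ (rho H Z hstZ).range)
    (hsm : Small (fun j => restrict (hCZ j)) K) :
    ∀ g ∈ K, ∀ h ∈ K, g * h = h * g := by
  classical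
  -- the preimage
  obtain ⟨S, hS⟩ : ∃ S : Set (M ≃ₐ[ℂ] M), S = {g | ∃ hg : g ∈ H, rho H Z hstZ ⟨g, hg⟩ ∈ K ∧
    Junior (fun j => restrict (hCZ j)) (rho H Z hstZ ⟨g, hg⟩)} := ⟨_, rfl⟩
  obtain ⟨H', hH'⟩ : ∃ H', H' = Subgroup.closure S := ⟨_, rfl⟩
  have hSH : S ⊆ H := by
    rw [hS]
    rintro g ⟨hg, -⟩
    exact hg
  have hH'H : H' ≤ H := by
    rw [hH']
    exact (Subgroup.closure_le H).2 hSH
  have hSH' : S ⊆ H' := by
    rw [hH']
    exact Subgroup.subset_closure
  -- the image of `H'` is `K`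
  have himg : ∀ (g : M ≃ₐ[ℂ] M) (hg : g ∈ H'), rho H Z hstZ ⟨g, hH'H hg⟩ ∈ K := by
    intro g hg
    have h1 : H' ≤ (K.comap (rho H Z hstZ)).map H.subtype := by
      rw [hH']
      refine (Subgroup.closure_le _).2 fun x hx => ?_
      rw [hS] at hx
      obtain ⟨hx1, hx2, -⟩ := hx
      exact ⟨⟨x, hx1⟩, hx2, rfl⟩
    obtain ⟨y, hy, hyg⟩ := h1 hg
    have h2 : y = ⟨g, hH'H hg⟩ := Subtype.ext hyg
    rw [← h2]
    exact hy
  have hsurj : ∀ x ∈ K, ∃ g, ∃ hg : g ∈ H', rho H Z hstZ ⟨g, hH'H hg⟩ = x := by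
    intro x hx
    rw [← hsm.junior] at hx
    induction hx using Subgroup.closure_induction with
    | mem x hx =>
      obtain ⟨⟨g, hg⟩, rfl⟩ := hK hx.1
      have h1 : g ∈ S := by
        rw [hS]
        exact ⟨hg, hx.1, hx.2⟩
      exact ⟨g, hSH' h1, rfl⟩
    | one => exact ⟨1, one_mem _, map_one _⟩
    | mul x y _ _ hx hy =>
      obtain ⟨g, hg, rfl⟩ := hx
      obtain ⟨g', hg', rfl⟩ := hy
      refine ⟨g * g', mul_mem hg hg', ?_⟩
      rw [← map_mul]
      rfl
    | inv x _ hx =>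
      obtain ⟨g, hg, rfl⟩ := hx
      refine ⟨g⁻¹, inv_mem hg, ?_⟩
      rw [← map_inv]
      rfl
  have hsmall : Small C H' := by
    refine ⟨?_, fun l => ?_⟩
    · apply le_antisymm
      · exact (Subgroup.closure_le _).2 fun g hg => hg.1
      · conv_lhs => rw [hH']
        refine Subgroup.closure_mono fun g hg => ⟨hSH' hg, ?_⟩
        rw [hS] at hg
        obtain ⟨hg1, hg2, hg3⟩ := hg
        exact junior_lift C hgen s hs hCZ H hstZ ⟨g, hg1⟩ (htriv g hg1) hg3
    · by_cases hl : ∃ j, s j = l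
      swap
      · exact Or.inl fun g hg => htriv g (hH'H hg) l hl
      obtain ⟨j, rfl⟩ := hl
      rcases hsm.rational j with h1 | h1
      · left
        intro g hg z hz
        have h2 := h1 _ (himg g hg) ⟨z, hCZ j hz⟩ ((mem_restrict (hCZ j) _).2 hz)
        exact congrArg (Subtype.val : Z → M) h2
      · right
        rw [rat_iff] at h1 ⊢
        have h3 : lift (restrict (hCZ j) ⊓ fixedField K) = C (s j) ⊓ fixedField H' := by
          ext z
          constructor
          · rintro ⟨y, ⟨hy1, hy2⟩, rfl⟩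
            refine ⟨(mem_restrict (hCZ j) _).1 hy1, ?_⟩
            rintro ⟨g, hg⟩
            exact congrArg (Subtype.val : Z → M) (hy2 ⟨_, himg g hg⟩)
          · rintro ⟨hz1, hz2⟩
            refine ⟨⟨z, hCZ j hz1⟩, ⟨(mem_restrict (hCZ j) _).2 hz1, ?_⟩, rfl⟩
            rintro ⟨x, hx⟩
            obtain ⟨g, hg, rfl⟩ := hsurj x hx
            exact Subtype.ext (hz2 ⟨g, hg⟩)
        exact rat_iso ((liftAlgEquiv (restrict (hCZ j) ⊓ fixedField K)).trans
          (equivOfEq h3)) h1
  intro x hx y hy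
  obtain ⟨g, hg, rfl⟩ := hsurj x hx
  obtain ⟨h, hh, rfl⟩ := hsurj y hy
  rw [← map_mul, ← map_mul]
  congr 1
  exact Subtype.ext (hB H' hH'H hsmall g hg h hh)

end

/-- **Quotients of products of curves by finite groups.** All `Small` subgroups are abelian. -/
theorem main_B (n : ℕ) : ∀ (M : Type) [Field M] [Algebra ℂ M]
    (C : Fin n → IntermediateField ℂ M) [∀ i, IsFF ℂ (C i)] (G : Subgroup (M ≃ₐ[ℂ] M)) [Finite G],
    Algebra.trdeg ℂ M = (n : ℕ) → ⨆ i, C i = ⊤ →
    (∀ g ∈ G, ∀ i, ∀ z ∈ C i, g z ∈ C i) →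
    (∀ H ≤ G, Small C H → ∀ g ∈ H, ∀ h ∈ H, g * h = h * g) →
    PosB ℂ (fixedField G) n (fun _ => 0) ∨ NegB ℂ (fixedField G) n (fun _ => 0) := by
  induction n with
  | zero =>
    intro M _ _ C hC G _ hn hgen hst hab
    left
    have halgG := Pool.Agent.W721.PG.EFF2.alg_fixed G
    obtain ⟨htK, -⟩ := Pool.Agent.W721.PG.EFF2.exists_basis (fixedField G) 0 hn
    exact good_zero (by rw [htK, Nat.cast_zero])
  | succ n ih =>
    intro M _ _ C hC G _ hn hgen hst hab
    have hessM : Algebra.EssFiniteType ℂ M := by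
      have h1 : Algebra.EssFiniteType ℂ ↥(⨆ i, C i) :=
        essFiniteType_iff.2 (fg_iSup fun j => essFiniteType_iff.1 (IsFF.ess))
      rw [hgen] at h1
      exact (Algebra.EssFiniteType.iff_of_algEquiv (topEquiv (F := ℂ) (E := M))).1 h1
    -- the subgroup generated by the junior elements
    obtain ⟨J, hJ⟩ : ∃ J : Subgroup (M ≃ₐ[ℂ] M), J = Subgroup.closure {g | g ∈ G ∧ Junior C g} :=
      ⟨_, rfl⟩
    have hJG : J ≤ G := by
      rw [hJ]
      exact (Subgroup.closure_le G).2 fun g hg => hg.1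
    have hfJ : Finite J := Finite.of_injective (Subgroup.inclusion hJG)
      (Subgroup.inclusion_injective hJG)
    have hstJ : ∀ g ∈ J, ∀ i, ∀ z ∈ C i, g z ∈ C i := fun g hg => hst g (hJG hg)
    refine junior_red C hn hgen G hst J hJG
      (fun g hg hj => by rw [hJ]; exact Subgroup.subset_closure ⟨hg, hj⟩) ?_
    by_cases hall : ∀ i, ∃ τ : M, ℂ⟮τ⟯ = C i ⊓ fixedField J
    · have hsmall : Small C J := by
        refine ⟨?_, fun i => Or.inr (hall i)⟩
        apply le_antisymm
        · exact (Subgroup.closure_le _).2 fun g hg => hg.1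
        · conv_lhs => rw [hJ]
          refine Subgroup.closure_mono fun g hg => ⟨?_, hg.2⟩
          rw [hJ]
          exact Subgroup.subset_closure hg
      exact main_ind (n + 1) M C J hn hgen hstJ fun g hg h hh _ => hab J hJG hsmall g hg h hh
    rw [not_forall] at hall
    obtain ⟨i, hi⟩ := hall
    obtain ⟨A, hA⟩ : ∃ A : IntermediateField ℂ M, A = ⨆ j : Fin n, C (i.succAbove j) := ⟨_, rfl⟩
    have hCA : ∀ j : Fin n, C (i.succAbove j) ≤ A := fun j => by
      rw [hA]
      exact le_iSup (fun j : Fin n => C (i.succAbove j)) j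
    have hsup : A ⊔ C i = ⊤ := by
      rw [eq_top_iff, ← hgen]
      refine iSup_le fun l => ?_
      by_cases hl : l = i
      · rw [hl]
        exact le_sup_right
      · obtain ⟨j, rfl⟩ := Fin.exists_succAbove_eq hl
        exact (hCA j).trans le_sup_left
    have hstA : ∀ g ∈ J, ∀ z ∈ A, g z ∈ A := by
      intro g hg
      rw [hA]
      exact iSup_stable fun j => hstJ g hg (i.succAbove j)
    -- the curves in `A`
    let C' : Fin n → IntermediateField ℂ A := fun j => restrict (hCA j)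
    have hC' : ∀ j, IsFF ℂ (C' j) := fun j =>
      isFF_iso (restrictAlgEquiv (hCA j)).symm (hC (i.succAbove j))
    have hgen' : ⨆ j, C' j = ⊤ := by
      apply lift_injective A
      rw [lift_top]
      have h1 : lift (⨆ j, C' j) = ⨆ j, lift (C' j) := by
        unfold IntermediateField.lift
        rw [IntermediateField.map_iSup]
      rw [h1]
      simp only [C', lift_restrict]
      exact hA.symm
    have hessA : Algebra.EssFiniteType ℂ A := by
      rw [hA]
      exact essFiniteType_iff.2 (fg_iSup fun j => essFiniteType_iff.1 (IsFF.ess))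
    have htA : Algebra.trdeg ℂ A = (n : ℕ) := by
      have h1 := Pool.Agent.W824.PG.trdeg_le_of_sup (⊥ : IntermediateField ℂ A) C' (trdeg_bot A)
        (by rw [bot_sup_eq]; exact hgen')
      rw [Nat.zero_add] at h1
      obtain ⟨m, hm⟩ := Cardinal.lt_aleph0.1 (lt_of_le_of_lt h1 Cardinal.natCast_lt_aleph0)
      have h2 := Pool.Agent.W824.PG.trdeg_le_of_sup (d := m) A (fun _ : Fin 1 => C i) hm
        (by rw [ciSup_const]; exact hsup)
      rw [hn] at h2
      rw [hm] at h1 ⊢
      have h3 : m ≤ n := by exact_mod_cast h1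
      have h4 : n + 1 ≤ m + 1 := by exact_mod_cast h2
      have h5 : m = n := by omega
      rw [h5]
    refine glue hn A (C i) htA hessA hsup J hstA (fun g hg => hstJ g hg i)
      (by rw [← rat_iff]; exact hi) ?_
    -- the induction hypothesis
    obtain ⟨H, hH⟩ : ∃ H, H = J ⊓ (C i).fixingSubgroup := ⟨_, rfl⟩
    rw [← hH]
    have hHJ : H ≤ J := by rw [hH]; exact inf_le_left
    have hfH : Finite H := Finite.of_injective (Subgroup.inclusion hHJ)
      (Subgroup.inclusion_injective hHJ)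
    have hHC : ∀ g ∈ H, ∀ z ∈ C i, g z = z := by
      intro g hg
      rw [hH] at hg
      exact mem_fixer.1 hg.2
    have hstH : ∀ g ∈ H, ∀ z ∈ A, g z ∈ A := fun g hg => hstA g (hHJ hg)
    let H1 : Subgroup (A ≃ₐ[ℂ] A) := (rho H A hstH).range
    have hfH1 : Finite H1 := Finite.of_surjective _ (MonoidHom.rangeRestrict_surjective _)
    have hlift : lift (fixedField H1) = A ⊓ fixedField H := lift_fixed H A hstH
    have hmain := ih A C' H1 htA hgen' (by
      rintro _ ⟨g, rfl⟩ j z hz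
      exact (mem_restrict (hCA j) _).2
        (hstJ g (hHJ g.2) (i.succAbove j) z ((mem_restrict (hCA j) _).1 hz)))
      (fun K hK hsm => small_lift C hgen (fun j => i.succAbove j)
        Fin.succAbove_right_injective hCA H hstH (fun g hg l hl => by
          have hli : l = i := by
            by_contra hne
            exact hl (Fin.exists_succAbove_eq hne)
          rw [hli]
          exact hHC g hg) (fun H' hH' hs' => hab H' ((hH'.trans hHJ).trans hJG) hs') K hK hsm)
    obtain ⟨h1, h2⟩ := trdeg_inf H A hstH htA hessA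
    exact good_iso ((liftAlgEquiv (fixedField H1)).trans (equivOfEq hlift)).symm h2 h1 hmain

end Pool.Agent.K4H25.GW

end

section

/-!
`κ = ν` for the quotients of products of curves: the general theorem.
-/

set_option autoImplicit false
set_option linter.overlappingInstances false
set_option linter.unusedSectionVars false
set_option linter.unusedVariables false
set_option linter.unusedSimpArgs false
set_option maxHeartbeats 4000000
set_option synthInstance.maxHeartbeats 400000

open FF IntermediateField Pool.Agent.W619.PQ Pool.Agent.W619.PL Pool.Agent.W619.TW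
  Pool.Agent.W603.LV Pool.Agent.K4H25.GQ Pool.Agent.Y174 Pool.Agent.R885.N

namespace Pool.Agent.K4H25.GW

section

variable {M : Type} [Field M] [Algebra ℂ M] {d q : ℕ}

theorem iSup_split (C : Fin (d + q) → IntermediateField ℂ M) :
    (⨆ j : Fin d, C (Fin.castAdd q j)) ⊔ ⨆ i : Fin q, C (Fin.natAdd d i) = ⨆ i, C i := by
  apply le_antisymm
  · exact sup_le (iSup_le fun j => le_iSup C _) (iSup_le fun i => le_iSup C _)
  · refine iSup_le fun i => ?_
    refine Fin.addCases (fun l => ?_) (fun l => ?_) i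
    · exact (le_iSup (fun j : Fin d => C (Fin.castAdd q j)) l).trans le_sup_left
    · exact (le_iSup (fun i : Fin q => C (Fin.natAdd d i)) l).trans le_sup_right

theorem glueWC (hn : Algebra.trdeg ℂ M = (d + q : ℕ)) (Z : IntermediateField ℂ M)
    (C : Fin q → IntermediateField ℂ M) (hZ : Algebra.trdeg ℂ Z = d)
    (hessZ : Algebra.EssFiniteType ℂ Z) (hC : ∀ i, IsFF ℂ (C i)) (hsup : Z ⊔ ⨆ i, C i = ⊤)
    (G : Subgroup (M ≃ₐ[ℂ] M)) [Finite G]
    (hstZ : ∀ g ∈ G, ∀ z ∈ Z, g z ∈ Z) (hstC : ∀ i, ∀ g ∈ G, ∀ z ∈ C i, g z ∈ C i)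
    (δ : ∀ i, Place ℂ ↥(C i ⊓ fixedField G) → ℚ) (hcrit : WeightedCriterion G Z C δ)
    (h : PosB ℂ ↥(Z ⊓ fixedField (G ⊓ (⨆ i, C i).fixingSubgroup)) d (fun _ => 0) ∨
      NegB ℂ ↥(Z ⊓ fixedField (G ⊓ (⨆ i, C i).fixingSubgroup)) d (fun _ => 0)) :
    PosB ℂ (fixedField G) (d + q) (fun _ => 0) ∨ NegB ℂ (fixedField G) (d + q) (fun _ => 0) := by
  have hred : ∀ i : Fin q, IsFF ℂ (red G Z C i) := by
    intro i
    have hle : G ⊓ (Z ⊔ ⨆ j : {j // j ≠ i}, C j).fixingSubgroup ≤ G := inf_le_left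
    have hfin : Finite ↥(G ⊓ (Z ⊔ ⨆ j : {j // j ≠ i}, C j).fixingSubgroup) :=
      Finite.of_injective (Subgroup.inclusion hle) (Subgroup.inclusion_injective hle)
    have := hC i
    exact isFF_inf (G ⊓ (Z ⊔ ⨆ j : {j // j ≠ i}, C j).fixingSubgroup)
      (C i) (fun g hg => hstC i g (hle hg))
  exact glueW' hn Z C hZ hessZ hsup G hstZ hstC (fun i => red G Z C i)
    (fun i => red_eq G Z _ i) (fun i => red_ge G Z _ i) hred δ hcrit.nonneg hcrit.branch
    hcrit.age hcrit.degree h

/-- **The weighted criterion**, with the condition on the `Small` subgroups. -/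
theorem main_WB (hn : Algebra.trdeg ℂ M = (d + q : ℕ))
    (C : Fin (d + q) → IntermediateField ℂ M) (hC : ∀ i, IsFF ℂ (C i)) (hgen : ⨆ i, C i = ⊤)
    (G : Subgroup (M ≃ₐ[ℂ] M)) [Finite G] (hst : ∀ g ∈ G, ∀ i, ∀ z ∈ C i, g z ∈ C i)
    (hB : ∀ H ≤ G, (∀ g ∈ H, ∀ i : Fin q, ∀ z ∈ C (Fin.natAdd d i), g z = z) → Small C H →
      ∀ g ∈ H, ∀ h ∈ H, g * h = h * g)
    (δ : ∀ i : Fin q, Place ℂ ↥(C (Fin.natAdd d i) ⊓ fixedField G) → ℚ)
    (hcrit : WeightedCriterion G (⨆ j : Fin d, C (Fin.castAdd q j))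
      (fun i : Fin q => C (Fin.natAdd d i)) δ) :
    PosB ℂ (fixedField G) (d + q) (fun _ => 0) ∨ NegB ℂ (fixedField G) (d + q) (fun _ => 0) := by
  classical
  obtain ⟨Z, hZ⟩ : ∃ Z : IntermediateField ℂ M, Z = ⨆ j : Fin d, C (Fin.castAdd q j) := ⟨_, rfl⟩
  have hAZ : ∀ j : Fin d, C (Fin.castAdd q j) ≤ Z := fun j => by
    rw [hZ]
    exact le_iSup (fun j : Fin d => C (Fin.castAdd q j)) j
  have hstZ : ∀ g ∈ G, ∀ z ∈ Z, g z ∈ Z := by
    intro g hg
    rw [hZ]
    exact iSup_stable fun j => hst g hg _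
  have hgen2 : Z ⊔ ⨆ i : Fin q, C (Fin.natAdd d i) = ⊤ := by
    rw [hZ, iSup_split, hgen]
  rw [← hZ] at hcrit
  have hessZ : Algebra.EssFiniteType ℂ Z := by
    rw [hZ]
    exact essFiniteType_iff.2 (fg_iSup fun j => essFiniteType_iff.1 (IsFF.ess))
  -- the curves in `Z`
  let A' : Fin d → IntermediateField ℂ Z := fun j => restrict (hAZ j)
  have hA' : ∀ j, IsFF ℂ (A' j) := fun j => isFF_iso (restrictAlgEquiv (hAZ j)).symm (hC _)
  have hgen' : ⨆ j, A' j = ⊤ := by
    apply lift_injective Z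
    rw [lift_top]
    have h1 : lift (⨆ j, A' j) = ⨆ j, lift (A' j) := by
      unfold IntermediateField.lift
      rw [IntermediateField.map_iSup]
    rw [h1]
    simp only [A', lift_restrict]
    exact hZ.symm
  have htZ : Algebra.trdeg ℂ Z = (d : ℕ) := by
    have h1 := Pool.Agent.W824.PG.trdeg_le_of_sup (⊥ : IntermediateField ℂ Z) A' (trdeg_bot Z)
      (by rw [bot_sup_eq]; exact hgen')
    rw [Nat.zero_add] at h1
    obtain ⟨m, hm⟩ := Cardinal.lt_aleph0.1 (lt_of_le_of_lt h1 Cardinal.natCast_lt_aleph0)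
    have h2 := Pool.Agent.W824.PG.trdeg_le_of_sup (d := m) Z
      (fun i : Fin q => C (Fin.natAdd d i)) hm hgen2
    rw [hn] at h2
    rw [hm] at h1 ⊢
    have h3 : m ≤ d := by exact_mod_cast h1
    have h4 : d + q ≤ m + q := by exact_mod_cast h2
    have h5 : m = d := by omega
    rw [h5]
  refine glueWC hn Z (fun i : Fin q => C (Fin.natAdd d i)) htZ hessZ (fun i => hC _) hgen2 G hstZ
    (fun i g hg => hst g hg _) δ hcrit ?_
  -- the quotient of `Z`
  obtain ⟨H, hH⟩ : ∃ H, H = G ⊓ (⨆ i : Fin q, C (Fin.natAdd d i)).fixingSubgroup := ⟨_, rfl⟩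
  rw [← hH]
  have hHG : H ≤ G := by rw [hH]; exact inf_le_left
  have hfH : Finite H := Finite.of_injective (Subgroup.inclusion hHG)
    (Subgroup.inclusion_injective hHG)
  have hHC : ∀ g ∈ H, ∀ i : Fin q, ∀ z ∈ C (Fin.natAdd d i), g z = z := by
    intro g hg i z hz
    rw [hH] at hg
    exact mem_fixer.1 hg.2 z ((le_iSup (fun i : Fin q => C (Fin.natAdd d i)) i) hz)
  have hstH : ∀ g ∈ H, ∀ z ∈ Z, g z ∈ Z := fun g hg => hstZ g (hHG hg)
  let H1 : Subgroup (Z ≃ₐ[ℂ] Z) := (rho H Z hstH).range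
  have hfH1 : Finite H1 := Finite.of_surjective _ (MonoidHom.rangeRestrict_surjective _)
  have hlift : lift (fixedField H1) = Z ⊓ fixedField H := lift_fixed H Z hstH
  have hmain := main_B d Z A' H1 htZ hgen' (by
    rintro _ ⟨g, rfl⟩ j z hz
    exact (mem_restrict (hAZ j) _).2
      (hst g (hHG g.2) _ z ((mem_restrict (hAZ j) _).1 hz)))
    (fun K hK hsm => small_lift C hgen (fun j : Fin d => Fin.castAdd q j)
      (Fin.castAdd_injective d q) hAZ H hstH (fun g hg l => by
        refine Fin.addCases (fun j hl => ?_) (fun i hl => ?_) l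
        · exact absurd ⟨j, rfl⟩ hl
        · exact hHC g hg i)
      (fun H' hH' hs' => hB H' (hH'.trans hHG) (fun g hg i => hHC g (hH' hg) i) hs') K hK hsm)
  obtain ⟨h1, h2⟩ := trdeg_inf H Z hstH htZ hessZ
  exact good_iso ((liftAlgEquiv (fixedField H1)).trans (equivOfEq hlift)).symm h2 h1 hmain

/-- **The general theorem.** -/
theorem main_full' (hn : Algebra.trdeg ℂ M = (d + q : ℕ))
    (C : Fin (d + q) → IntermediateField ℂ M) (hC : ∀ i, IsFF ℂ (C i)) (hgen : ⨆ i, C i = ⊤)
    (G : Subgroup (M ≃ₐ[ℂ] M)) [Finite G]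
    (hG : ∀ g ∈ G, ∀ i, ∃ j, (C i).map (g : M →ₐ[ℂ] M) = C j)
    (J : Subgroup (M ≃ₐ[ℂ] M)) (hJG : J ≤ G) (hJ : ∀ g ∈ J, ∀ i, ∀ z ∈ C i, g z ∈ C i)
    (hjun : ∀ g ∈ G, (∀ i, ∀ z ∈ C i, g z ∈ C i) → Junior C g → g ∈ J)
    (hswap : ∀ g ∈ G, ¬ JuniorSwap C g)
    (hB : ∀ H ≤ J, (∀ g ∈ H, ∀ i : Fin q, ∀ z ∈ C (Fin.natAdd d i), g z = z) → Small C H →
      ∀ g ∈ H, ∀ h ∈ H, g * h = h * g)
    (δ : ∀ i : Fin q, Place ℂ ↥(C (Fin.natAdd d i) ⊓ fixedField J) → ℚ)
    (hcrit : WeightedCriterion J (⨆ j : Fin d, C (Fin.castAdd q j))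
      (fun i : Fin q => C (Fin.natAdd d i)) δ) :
    PosB ℂ (fixedField G) (d + q) (fun _ => 0) ∨ NegB ℂ (fixedField G) (d + q) (fun _ => 0) := by
  have hfJ : Finite J := Finite.of_injective (Subgroup.inclusion hJG)
    (Subgroup.inclusion_injective hJG)
  exact junior_red' C hn hgen G hG J hJG hjun hswap (main_WB hn C hC hgen J hJ hB δ hcrit)

end

end Pool.Agent.K4H25.GW

end
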