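import Pool.Agent.K4H25.MG.E
import Pool.Agent.K4H65.DM.LogMain
import Pool.Agent.W602.GT.Loc

section

/-!
The criterion for open curves, at the places of a curve.
-/

set_option autoImplicit false
set_option linter.overlappingInstances false
set_option linter.unusedSectionVars false
set_option linter.unusedVariables false
set_option maxHeartbeats 4000000
set_option synthInstance.maxHeartbeats 400000

open Polynomial FF IntermediateField Pool.Agent.TH466.QG Pool.Agent.W619.PQ Pool.Agent.W619.PL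
  Pool.Agent.W619.TW Pool.Agent.W603.LV Pool.Agent.K4H25.GQ Pool.Agent.K4H25.GW
  Pool.Agent.K4H25.HY

namespace Pool.Agent.K4H25.LG

section

variable {k : Type} [Field k] {M : Type} [Field M] [Algebra k M] {n : ℕ}

/-- The criterion at the fixed points in the complement of the fibres at infinity. -/
def LAge (C : Fin n → IntermediateField k M) (G : Subgroup (M ≃ₐ[k] M))
    (B : ∀ i, Finset (Place k ↥(C i ⊓ fixedField G))) (α : Fin n → ℚ)
    (δ : ∀ i, Place k ↥(C i ⊓ fixedField G) → ℚ) : Prop :=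
  ∀ g ∈ G, ∀ ζ : k, IsPrimitiveRoot ζ (orderOf g) →
    ∀ (w : ∀ i, Place k (C i)) (p : ∀ i, Place k ↥(C i ⊓ fixedField G)) (r c : Fin n → ℕ),
      (∀ i, LiesOver (inf_le_left : C i ⊓ fixedField G ≤ C i) (w i) (p i) (r i)) →
      (∀ i, p i ∉ B i) →
      (∀ i, 0 < c i) → (∀ i, Rotates (C i) g (w i) (ζ ^ c i)) →
      (∑ i, α i) * orderOf g ≤ ∑ i, α i * (r i * (1 - δ i (p i)) * c i)

/-- The criterion for some of the curves. -/
theorem LAge.sub {C : Fin n → IntermediateField k M} {G : Subgroup (M ≃ₐ[k] M)}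
    {B : ∀ i, Finset (Place k ↥(C i ⊓ fixedField G))}
    {α : Fin n → ℚ} {δ : ∀ i, Place k ↥(C i ⊓ fixedField G) → ℚ} (h : LAge C G B α δ)
    (hgen : ∀ i, ∃ w p, LiesOver (inf_le_left : C i ⊓ fixedField G ≤ C i) w p 1 ∧ δ i p = 0 ∧
      p ∉ B i)
    {g : M ≃ₐ[k] M} (hg : g ∈ G) (I : Finset (Fin n)) (htriv : ∀ i ∉ I, ∀ z ∈ C i, g z = z)
    {ζ : k} (hζ : IsPrimitiveRoot ζ (orderOf g)) (ho : 0 < orderOf g)
    (w : ∀ i : I, Place k (C i)) (p : ∀ i : I, Place k ↥(C i ⊓ fixedField G)) (r c : I → ℕ)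
    (hp : ∀ i : I, LiesOver (inf_le_left : C i ⊓ fixedField G ≤ C i) (w i) (p i) (r i))
    (hB : ∀ i : I, p i ∉ B i)
    (hc : ∀ i, 0 < c i) (hrot : ∀ i : I, Rotates (C i) g (w i) (ζ ^ c i)) :
    (∑ i ∈ I, α i) * orderOf g ≤ ∑ i : I, α i * (r i * (1 - δ i (p i)) * c i) := by
  classical
  choose w0 p0 hw0 hδ0 hB0 using hgen
  obtain ⟨W, hW1, hW2⟩ : ∃ W : ∀ i, Place k (C i), (∀ i : I, W i = w i) ∧ ∀ i ∉ I, W i = w0 i :=
    ⟨fun i => if hi : i ∈ I then w ⟨i, hi⟩ else w0 i, fun i => by simp,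
      fun i hi => by simp [hi]⟩
  obtain ⟨P, hP1, hP2⟩ : ∃ P : ∀ i, Place k ↥(C i ⊓ fixedField G), (∀ i : I, P i = p i) ∧
      ∀ i ∉ I, P i = p0 i :=
    ⟨fun i => if hi : i ∈ I then p ⟨i, hi⟩ else p0 i, fun i => by simp,
      fun i hi => by simp [hi]⟩
  obtain ⟨R, hR1, hR2⟩ : ∃ R : Fin n → ℕ, (∀ i : I, R i = r i) ∧ ∀ i ∉ I, R i = 1 :=
    ⟨fun i => if hi : i ∈ I then r ⟨i, hi⟩ else 1, fun i => by simp, fun i hi => by simp [hi]⟩
  obtain ⟨c', hc1, hc2⟩ : ∃ c' : Fin n → ℕ, (∀ i : I, c' i = c i) ∧ ∀ i ∉ I, c' i = orderOf g :=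
    ⟨fun i => if hi : i ∈ I then c ⟨i, hi⟩ else orderOf g, fun i => by simp,
      fun i hi => by simp [hi]⟩
  have h1 := h g hg ζ hζ W P R c' (fun i => by
      by_cases hi : i ∈ I
      · have := hp ⟨i, hi⟩
        rw [← hW1, ← hP1, ← hR1] at this
        exact this
      · rw [hW2 i hi, hP2 i hi, hR2 i hi]
        exact hw0 i) (fun i => by
      by_cases hi : i ∈ I
      · have := hB ⟨i, hi⟩
        rw [← hP1] at this
        exact this
      · rw [hP2 i hi]
        exact hB0 i) (fun i => by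
      by_cases hi : i ∈ I
      · have := hc ⟨i, hi⟩
        rw [← hc1] at this
        exact this
      · rw [hc2 i hi]
        exact ho) (fun i => by
      by_cases hi : i ∈ I
      · have := hrot ⟨i, hi⟩
        rw [← hW1, ← hc1] at this
        exact this
      · intro t z _ hz
        left
        rw [hc2 i hi, hζ.pow_eq_one, map_one, one_mul, sub_eq_zero]
        apply Subtype.ext
        rw [← hz, htriv i hi t t.2])
  rw [← Finset.sum_add_sum_compl I, ← Finset.sum_add_sum_compl I] at h1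
  have h2 : ∑ i ∈ Iᶜ, α i * ((R i : ℚ) * (1 - δ i (P i)) * c' i) =
      (∑ i ∈ Iᶜ, α i) * orderOf g := by
    rw [Finset.sum_mul]
    refine Finset.sum_congr rfl fun i hi => ?_
    have hi' := Finset.mem_compl.1 hi
    rw [hR2 i hi', hP2 i hi', hc2 i hi', hδ0]
    norm_num
  have h4 : ∑ i ∈ I, α i * ((R i : ℚ) * (1 - δ i (P i)) * c' i) =
      ∑ i : I, α i * (r i * (1 - δ i (p i)) * c i) := by
    rw [← Finset.sum_coe_sort]
    refine Finset.sum_congr rfl fun i _ => ?_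
    rw [hR1, hP1, hc1]
  rw [h2, h4] at h1
  linarith

end

section

variable {k : Type} [Field k] [CharZero k] [IsAlgClosed k] {N : Type} [Field N] [Algebra k N]

variable {M : Type} [Field M] [Algebra k M] {n : ℕ}

/-- **The criterion at a place of a curve.** -/
theorem local_ineq (Γ : Subgroup (N ≃ₐ[k] N)) [Finite Γ]
    {C : Fin n → IntermediateField k M} {G : Subgroup (M ≃ₐ[k] M)} [Finite G]
    {B : ∀ i, Finset (Place k ↥(C i ⊓ fixedField G))}
    {α : Fin n → ℚ} {δ : ∀ i, Place k ↥(C i ⊓ fixedField G) → ℚ} (h : LAge C G B α δ)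
    (hgen : ∀ i, ∃ w p, LiesOver (inf_le_left : C i ⊓ fixedField G ≤ C i) w p 1 ∧ δ i p = 0 ∧
      p ∉ B i)
    (I : Finset (Fin n)) (ι : ∀ i : I, C i →ₐ[k] N)
    (hst : ∀ g ∈ G, ∀ i, ∀ z ∈ C i, g z ∈ C i)
    {w : Place k N} {v : Place k (fixedField Γ)} {e : ℕ} (hv : Over w v e)
    (hσ : ∀ σ ∈ Γ, Inert w σ → ∃ g ∈ G, (∀ i ∉ I, ∀ z ∈ C i, g z = z) ∧
      (∀ (i : I) (z z' : C i), (z' : M) = g z → ι i z' = σ (ι i z)) ∧ orderOf g ∣ orderOf σ)
    (ww : ∀ i : I, Place k (C i)) (f : I → ℕ) (hf : ∀ i, OverH (ι i) w (ww i) (f i))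
    (p : ∀ i : I, Place k ↥(C i ⊓ fixedField G)) (r : I → ℕ)
    (hp : ∀ i : I, LiesOver (inf_le_left : C i ⊓ fixedField G ≤ C i) (ww i) (p i) (r i))
    (hB : ∀ i : I, p i ∉ B i) :
    (∑ i ∈ I, α i) * e ≤ ∑ i : I, α i * (r i * (1 - δ i (p i)) * f i) := by
  classical
  obtain ⟨J, hJcard, hJ⟩ := inertia_at Γ hv
  obtain ⟨σ, hσJ, hord, ζ, hζ, hrot⟩ := exists_rot_generator w J hJ
  rw [hJcard] at hord hζ
  have he := hv.1
  have hζ0 : ζ ≠ 0 := hζ.ne_zero (by omega)
  obtain ⟨g, hg, htriv, hcomp, hdvd⟩ := hσ σ σ.2 (hJ σ hσJ)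
  rw [hord] at hdvd
  obtain ⟨t, ht⟩ := hdvd
  have hgo : 0 < orderOf g := by
    rcases Nat.eq_zero_or_pos (orderOf g) with h0 | h0
    · rw [h0, zero_mul] at ht
      omega
    · exact h0
  have ht0 : 0 < t := by
    rcases Nat.eq_zero_or_pos t with h0 | h0
    · rw [h0, mul_zero] at ht
      omega
    · exact h0
  -- powers
  have hpow : ∀ (i : I) (z : C i) (m : ℕ), ∃ z' : C i, (z' : M) = (g ^ m) z ∧
      ι i z' = ((σ : N ≃ₐ[k] N) ^ m) (ι i z) := by
    intro i z m
    induction m with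
    | zero => exact ⟨z, rfl, rfl⟩
    | succ m ih =>
      obtain ⟨z', h1, h2⟩ := ih
      refine ⟨⟨g z', hst g hg i z' z'.2⟩, ?_, ?_⟩
      · change g (z' : M) = _
        rw [h1, pow_succ']
        rfl
      · rw [hcomp i z' _ rfl, h2, pow_succ']
        rfl
  have hfd : ∀ i : I, t ∣ f i := by
    intro i
    obtain ⟨t0, ht00, ht01⟩ := (ww i).surj
    have h1 : w.ord (ι i t0) = f i := by
      have := (hf i).2 t0
      rw [ht01, mul_one] at this
      exact this
    have h2 : ι i t0 ≠ 0 := (_root_.map_ne_zero _).2 ht00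
    have h3 := rot_pow hrot hζ0 (ι i t0) h2 (orderOf g)
    obtain ⟨z', h4, h5⟩ := hpow i t0 (orderOf g)
    rw [pow_orderOf_eq_one] at h4
    have h6 : z' = t0 := Subtype.ext h4
    rw [h6] at h5
    rw [← h5, h1] at h3
    have h7 : ι i t0 - algebraMap k N ((ζ ^ (f i : ℤ)) ^ orderOf g) * ι i t0 =
        algebraMap k N (1 - (ζ ^ (f i : ℤ)) ^ orderOf g) * ι i t0 := by
      rw [map_sub, map_one]
      ring
    rw [h7] at h3
    have h8 : (ζ ^ (f i : ℤ)) ^ orderOf g = 1 := by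
      by_contra hne
      have h9 : (1 : k) - (ζ ^ (f i : ℤ)) ^ orderOf g ≠ 0 := sub_ne_zero.2 (Ne.symm hne)
      have h10 : algebraMap k N (1 - (ζ ^ (f i : ℤ)) ^ orderOf g) ≠ 0 := (_root_.map_ne_zero _).2 h9
      rcases h3 with h3 | h3
      · exact mul_ne_zero h10 h2 h3
      · rw [w.ord_mul h10 h2, w.ord_const h9, h1] at h3
        omega
    rw [zpow_natCast, ← pow_mul] at h8
    have h9 := (hζ.pow_eq_one_iff_dvd _).1 h8
    rw [ht, mul_comm] at h9
    exact Nat.dvd_of_mul_dvd_mul_right hgo h9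
  choose c hc using hfd
  have hc0 : ∀ i, 0 < c i := by
    intro i
    rcases Nat.eq_zero_or_pos (c i) with h0 | h0
    · have h1 := (hf i).1
      rw [hc, h0, mul_zero] at h1
      omega
    · exact h0
  have hζt : IsPrimitiveRoot (ζ ^ t) (orderOf g) := hζ.pow (by omega) (by rw [ht, mul_comm])
  have h1 := h.sub hgen hg I htriv hζt hgo ww p r c hp hB hc0 (by
    intro i t0 z ht01 hz
    have ht00 : t0 ≠ 0 := by
      rintro rfl
      rw [(ww i).ord_zero] at ht01
      omega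
    have h1 : w.ord (ι i t0) = f i := by
      have := (hf i).2 t0
      rw [ht01, mul_one] at this
      exact this
    have h2 : ι i t0 ≠ 0 := (_root_.map_ne_zero _).2 ht00
    have h3 := hrot (ι i t0) h2
    rw [h1, zpow_natCast, ← hcomp i t0 z hz.symm] at h3
    have h4 : (ζ ^ t) ^ c i = ζ ^ f i := by rw [← pow_mul, ← hc]
    rw [h4]
    have h5 : ι i z - algebraMap k N (ζ ^ f i) * ι i t0 =
        ι i (z - algebraMap k (C i) (ζ ^ f i) * t0) := by
      rw [map_sub, map_mul, AlgHom.commutes]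
    rw [h5] at h3
    rcases h3 with h3 | h3
    · left
      exact (map_eq_zero (ι i)).1 h3
    · right
      rw [(hf i).2] at h3
      have h6 : (1 : ℤ) ≤ f i := by exact_mod_cast (hf i).1
      by_contra hcon
      push Not at hcon
      nlinarith)
  have h2 : (∑ i ∈ I, α i) * (e : ℚ) = t * ((∑ i ∈ I, α i) * orderOf g) := by
    rw [ht]
    push_cast
    ring
  rw [h2]
  have h3 := mul_le_mul_of_nonneg_left h1 (show (0 : ℚ) ≤ t by positivity)
  refine h3.trans (le_of_eq ?_)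
  rw [Finset.mul_sum]
  refine Finset.sum_congr rfl fun i _ => ?_
  rw [hc]
  push_cast
  ring

end

end Pool.Agent.K4H25.LG

end

section

/-!
The criterion for open curves: the inequality for the degrees.
-/

set_option autoImplicit false
set_option linter.overlappingInstances false
set_option linter.unusedSectionVars false
set_option linter.unusedVariables false
set_option maxHeartbeats 4000000
set_option synthInstance.maxHeartbeats 400000

open Polynomial FF IntermediateField Pool.Agent.TH466.QG Pool.Agent.W619.PQ Pool.Agent.W619.PL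
  Pool.Agent.W619.TW Pool.Agent.W603.LV Pool.Agent.K4H25.GQ Pool.Agent.K4H25.GW
  Pool.Agent.K4H25.HY

namespace Pool.Agent.K4H25.LG

section

variable {k : Type} [Field k] [CharZero k] [IsAlgClosed k] {N : Type} [Field N] [Algebra k N]
  {M : Type} [Field M] [Algebra k M] {n : ℕ}

/-- general places -/
theorem gen_places {C : Fin n → IntermediateField k M} [hC : ∀ i, IsFF k (C i)]
    {G : Subgroup (M ≃ₐ[k] M)} [Finite G] (B : ∀ i, Finset (Place k ↥(C i ⊓ fixedField G)))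
    {δ : ∀ i, Place k ↥(C i ⊓ fixedField G) → ℚ}
    (hst : ∀ g ∈ G, ∀ i, ∀ z ∈ C i, g z ∈ C i)
    (T0 : ∀ i, Finset (Place k ↥(C i ⊓ fixedField G))) (hT0 : ∀ i, ∀ q ∉ T0 i, δ i q = 0) :
    ∀ i, ∃ w p, LiesOver (inf_le_left : C i ⊓ fixedField G ≤ C i) w p 1 ∧
      δ i p = 0 ∧ p ∉ B i := by
  classical
  intro i
  obtain ⟨w, p, h1, h2⟩ := general_place (C i) G (fun g hg => hst g hg i) (T0 i ∪ B i)
  rw [Finset.mem_union, not_or] at h2
  exact ⟨w, p, h1, hT0 i p h2.1, h2.2⟩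

/-- **The criterion for a curve.** -/
theorem global_ineq (Γ : Subgroup (N ≃ₐ[k] N)) [Finite Γ] [IsFF k N]
    {C : Fin n → IntermediateField k M} [hC : ∀ i, IsFF k (C i)]
    {G : Subgroup (M ≃ₐ[k] M)} [Finite G] {B : ∀ i, Finset (Place k ↥(C i ⊓ fixedField G))}
    {α : Fin n → ℚ} (hα : ∀ i, 0 < α i)
    {δ : ∀ i, Place k ↥(C i ⊓ fixedField G) → ℚ} (hδ : ∀ i p, δ i p ≤ 1) (h : LAge C G B α δ)
    (hst : ∀ g ∈ G, ∀ i, ∀ z ∈ C i, g z ∈ C i)
    (T0 : ∀ i, Finset (Place k ↥(C i ⊓ fixedField G))) (hT0 : ∀ i, ∀ q ∉ T0 i, δ i q = 0)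
    (I : Finset (Fin n)) (ι : ∀ i : I, C i →ₐ[k] N)
    (hσ : ∀ σ ∈ Γ, ∃ g ∈ G, (∀ i ∉ I, ∀ z ∈ C i, g z = z) ∧
      (∀ (i : I) (z z' : C i), (z' : M) = g z → ι i z' = σ (ι i z)) ∧ orderOf g ∣ orderOf σ)
    (κ : ∀ i : I, ↥(C i ⊓ fixedField G) →ₐ[k] fixedField Γ)
    (hκ : ∀ (i : I) (b : ↥(C i ⊓ fixedField G)), ((κ i b : fixedField Γ) : N) =
      ι i (inclusion (inf_le_left : C i ⊓ fixedField G ≤ C i) b))
    (S : Finset (Place k (fixedField Γ)))
    (hS : ∀ P ∉ S, ∀ (i : I) (p : Place k ↥(C i ⊓ fixedField G)) (e : ℕ), OverH (κ i) P p e →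
      p ∉ B i) :
    ∑ i : I, α i * ((degH (κ i) : ℚ) *
      (canDeg k ↥(C i ⊓ fixedField G) + ∑ q ∈ T0 i, δ i q)) ≤
      (∑ i ∈ I, α i) * (canDeg k (fixedField Γ) + S.card) := by
  classical
  have hFFB : ∀ i, IsFF k ↥(C i ⊓ fixedField G) := fun i => isFF_quo (C i) G
    (fun g hg => hst g hg i)
  have hfd : FiniteDimensional (fixedField Γ) N := fixed_finite Γ
  have hFFE : IsFF k (fixedField Γ) := isFF_down (E := N)
  have hgen := gen_places (δ := δ) B hst T0 hT0
  choose pz kz hz T1 hT1 using fun i : I => rhH (κ i) (δ i) (T0 i) (hT0 i)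
  obtain ⟨T, hT⟩ : ∃ T : Finset (Place k (fixedField Γ)), T = Finset.univ.biUnion T1 ∪ S :=
    ⟨_, rfl⟩
  have hT' : ∀ i, T1 i ⊆ T := fun i => by
    rw [hT]
    exact (Finset.subset_biUnion_of_mem T1 (Finset.mem_univ i)).trans Finset.subset_union_left
  have hST : S ⊆ T := by
    rw [hT]
    exact Finset.subset_union_right
  have hα0 : 0 ≤ ∑ i ∈ I, α i := Finset.sum_nonneg fun i _ => (hα i).le
  have h1 : ∑ i : I, α i * ((degH (κ i) : ℚ) *
      (canDeg k ↥(C i ⊓ fixedField G) + ∑ q ∈ T0 i, δ i q)) =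
      ∑ i : I, (α i * (canDeg k (fixedField Γ) : ℚ) +
        ∑ z ∈ T, α i * (1 - (kz i z : ℚ) * (1 - δ i (pz i z)))) := by
    refine Finset.sum_congr rfl fun i _ => ?_
    rw [hT1 i T (hT' i), mul_add, Finset.mul_sum]
  rw [h1, Finset.sum_add_distrib, Finset.sum_comm, ← Finset.sum_mul,
    Finset.sum_coe_sort I (fun i : Fin n => α i)]
  have h2 : ∑ z ∈ T, ∑ i : I, α i * (1 - (kz i z : ℚ) * (1 - δ i (pz i z))) ≤
      (∑ i ∈ I, α i) * S.card := by
    have h2a : ∀ z ∈ T, ∑ i : I, α i * (1 - (kz i z : ℚ) * (1 - δ i (pz i z))) ≤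
        if z ∈ S then ∑ i ∈ I, α i else 0 := by
      intro z _
      split_ifs with hzS
      · rw [← Finset.sum_coe_sort I (fun i : Fin n => α i)]
        refine Finset.sum_le_sum fun i _ => ?_
        have h3 := hδ i (pz i z)
        have h4 : (0 : ℚ) ≤ kz i z := Nat.cast_nonneg _
        have h5 := hα i
        nlinarith [mul_nonneg h4 (sub_nonneg.2 h3)]
      obtain ⟨e, w, hw⟩ := exists_place_over (E := N) z
      choose f ww hf using fun i : I => exists_overH (ι i) w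
      choose r p hp using fun i : I => exists_overH
        (inclusion (inf_le_left : C i ⊓ fixedField G ≤ C i)) (ww i)
      have h4 : ∀ i, f i * r i = e * kz i z ∧ p i = pz i z := by
        intro i
        refine ord_uniq (Nat.mul_pos (hf i).1 (hp i).1) (Nat.mul_pos hw.1 (hz i z).1) fun b => ?_
        have h5 := (hf i).2 (inclusion (inf_le_left : C i ⊓ fixedField G ≤ C i) b)
        rw [← hκ, (hp i).2] at h5
        have h6 := hw.2 (κ i b)
        change w.ord ((κ i b : fixedField Γ) : N) = _ at h6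
        rw [h6, (hz i z).2] at h5
        push_cast
        linarith
      have h3 := local_ineq Γ h hgen I ι hst hw (fun σ h1 _ => hσ σ h1) ww f hf p r hp
        (fun i => by
          rw [(h4 i).2]
          exact hS z hzS i _ _ (hz i z))
      have h5 : ∑ i : I, α i * ((r i : ℚ) * (1 - δ i (p i)) * f i) =
          e * ∑ i : I, α i * ((kz i z : ℚ) * (1 - δ i (pz i z))) := by
        rw [Finset.mul_sum]
        refine Finset.sum_congr rfl fun i _ => ?_
        obtain ⟨h6, h7⟩ := h4 i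
        rw [h7]
        have h8 : (f i : ℚ) * r i = e * kz i z := by exact_mod_cast h6
        linear_combination α i * (1 - δ i (pz i z)) * h8
      rw [h5] at h3
      have he : (0 : ℚ) < e := by exact_mod_cast hw.1
      have h6 : ∑ i ∈ I, α i ≤ ∑ i : I, α i * ((kz i z : ℚ) * (1 - δ i (pz i z))) := by
        by_contra hcon
        push Not at hcon
        nlinarith
      have h7 : ∑ i : I, α i * (1 - (kz i z : ℚ) * (1 - δ i (pz i z))) =
          ∑ i ∈ I, α i - ∑ i : I, α i * ((kz i z : ℚ) * (1 - δ i (pz i z))) := by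
        rw [← Finset.sum_coe_sort I (fun i : Fin n => α i), ← Finset.sum_sub_distrib]
        refine Finset.sum_congr rfl fun i _ => ?_
        ring
      rw [h7]
      linarith
    refine (Finset.sum_le_sum h2a).trans (le_of_eq ?_)
    rw [Finset.sum_ite_mem, Finset.inter_eq_right.2 hST, Finset.sum_const, nsmul_eq_mul, mul_comm]
  rw [mul_add]
  linarith

end

end Pool.Agent.K4H25.LG

end

section

/-!
The heights of the specializations of the functions on the curves.
-/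

set_option autoImplicit false
set_option linter.overlappingInstances false
set_option linter.unusedSectionVars false
set_option linter.unusedVariables false
set_option maxHeartbeats 4000000
set_option synthInstance.maxHeartbeats 400000

open Polynomial FF IntermediateField Pool.Agent.TH466.QG Pool.Agent.W619.PQ Pool.Agent.W619.PL
  Pool.Agent.W619.TW Pool.Agent.W603.LV Pool.Agent.K4H25.GQ Pool.Agent.K4H25.GW
  Pool.Agent.K4H25.HY

namespace Pool.Agent.K4H25.LG

section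

variable {k : Type} [Field k] [CharZero k] [IsAlgClosed k] {M : Type} [Field M] [Algebra k M]
  {n : ℕ}

/-- **The heights of the specializations of the functions on the curves.** -/
theorem curve_hgt (C : Fin n → IntermediateField k M) [hC : ∀ i, IsFF k (C i)]
    (hsup : ⨆ i, C i = ⊤) (G : Subgroup (M ≃ₐ[k] M)) [Finite G]
    (hst : ∀ g ∈ G, ∀ i, ∀ z ∈ C i, g z ∈ C i)
    {α : Fin n → ℚ} (hα : ∀ i, 0 < α i)
    {B : ∀ i, Finset (Place k ↥(C i ⊓ fixedField G))}
    {δ : ∀ i, Place k ↥(C i ⊓ fixedField G) → ℚ} (hδ : ∀ i p, δ i p ≤ 1) (h : LAge C G B α δ)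
    (T0 : ∀ i, Finset (Place k ↥(C i ⊓ fixedField G))) (hT0 : ∀ i, ∀ q ∉ T0 i, δ i q = 0)
    (hdeg : ∀ i, (0 : ℚ) < canDeg k ↥(C i ⊓ fixedField G) + ∑ q ∈ T0 i, δ i q)
    (Y : ∀ i, Finset (C i))
    (hY : ∀ i, IntermediateField.adjoin k ((fun z : C i => (z : M)) '' (Y i : Set (C i))) = C i)
    (Z0 : ∀ i, Finset ↥(C i ⊓ fixedField G)) (hZ0 : ∀ i, ∀ p ∈ B i, ∃ z ∈ Z0 i, p.ord z < 0) :
    ∃ (Θ0 Θ1 : Set M) (A : ℕ), Θ0.Finite ∧ Θ1.Finite ∧ (∀ z ∈ Θ0, z ∈ fixedField G) ∧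
      (∀ i, ∀ y ∈ Y i, (y : M) ∈ Θ1) ∧
      ∀ (N : Type) [Field N] [Algebra k N] [IsFF k N] (Γ : Subgroup (N ≃ₐ[k] N)) [Finite Γ]
        (S : Sp k M N) (R : Finset (Place k (fixedField Γ))),
        (∀ ϑ ∈ Θ0, ∃ t ∈ fixedField Γ, S.T ϑ t) → (∀ ϑ ∈ Θ1, ∃ t, S.T ϑ t) →
        (∀ i, ∀ z ∈ Z0 i, ∃ t : fixedField Γ, S.T ((z : ↥(C i ⊓ fixedField G)) : M) (t : N) ∧
          ∀ P ∉ R, P.Reg t) →
        ∀ i, ∀ y ∈ Y i, ∀ y', S.T (y : M) y' → hgt k y' ≤
          A * ((Module.finrank (fixedField Γ) N : ℤ) *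
            max (canDeg k (fixedField Γ) + R.card) 0) := by
  classical
  have iG := Fintype.ofFinite G
  have hFFB : ∀ i, IsFF k ↥(C i ⊓ fixedField G) := fun i => isFF_quo (C i) G
    (fun g hg => hst g hg i)
  -- the orbits of the generators
  obtain ⟨Z, hZ⟩ : ∃ Z : Set M, Z = ⋃ i, ⋃ g : G,
      (fun z : C i => (g : M ≃ₐ[k] M) (z : M)) '' (Y i : Set (C i)) := ⟨_, rfl⟩
  have hZfin : Z.Finite := by
    rw [hZ]
    exact Set.finite_iUnion fun i => Set.finite_iUnion fun g => (Finset.finite_toSet _).image _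
  have hZmem : ∀ i, ∀ y ∈ Y i, ∀ g ∈ G, g (y : M) ∈ Z := by
    intro i y hy g hg
    rw [hZ]
    exact Set.mem_iUnion.2 ⟨i, Set.mem_iUnion.2 ⟨⟨g, hg⟩, y, hy, rfl⟩⟩
  have hZst : ∀ z ∈ Z, ∀ g ∈ G, g z ∈ Z := by
    intro z hz g hg
    rw [hZ] at hz
    obtain ⟨i, hz⟩ := Set.mem_iUnion.1 hz
    obtain ⟨g', hz⟩ := Set.mem_iUnion.1 hz
    obtain ⟨y, hy, rfl⟩ := hz
    exact hZmem i y hy (g * g') (G.mul_mem hg g'.2)
  have hYZ : ∀ i, ∀ y ∈ Y i, (y : M) ∈ Z := fun i y hy => hZmem i y hy 1 G.one_mem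
  obtain ⟨Θ0, Θ1, h0fin, h1fin, h0G, hgal⟩ := galois_spec (k := k) G hZfin
  obtain ⟨Θ2, hΘ2⟩ : ∃ Θ2 : Set M, Θ2 = ⋃ g : G, (fun z : M => ((g : M ≃ₐ[k] M) z - z)⁻¹) '' Z :=
    ⟨_, rfl⟩
  have h2fin : Θ2.Finite := by
    rw [hΘ2]
    exact Set.finite_iUnion fun g => hZfin.image _
  have h2mem : ∀ z ∈ Z, ∀ g ∈ G, (g z - z)⁻¹ ∈ Θ2 := by
    intro z hz g hg
    rw [hΘ2]
    exact Set.mem_iUnion.2 ⟨⟨g, hg⟩, z, hz, rfl⟩
  -- the constants
  obtain ⟨d, hd⟩ : ∃ d : Fin n → ℚ, d = fun i =>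
      (canDeg k ↥(C i ⊓ fixedField G) : ℚ) + ∑ q ∈ T0 i, δ i q := ⟨_, rfl⟩
  have hd0 : ∀ i, 0 < d i := fun i => by rw [hd]; exact hdeg i
  obtain ⟨a, ha⟩ : ∃ a : Fin n → ℕ, ∀ i, (∑ j, α j) / (α i * d i) ≤ a i :=
    ⟨fun i => ⌈(∑ j, α j) / (α i * d i)⌉₊, fun i => Nat.le_ceil _⟩
  obtain ⟨b, hb⟩ : ∃ b : Fin n → ℕ, ∀ i, ∀ y ∈ Y i, hgt k y ≤ b i := by
    refine ⟨fun i => ∑ y ∈ Y i, (hgt k y).toNat, fun i y hy => ?_⟩
    have h1 := Finset.single_le_sum (f := fun y : C i => (hgt k y).toNat)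
      (fun _ _ => Nat.zero_le _) hy
    have h2 := Int.self_le_toNat (hgt k y)
    refine h2.trans ?_
    exact_mod_cast h1
  refine ⟨Θ0, Θ1 ∪ (Θ2 ∪ Z), ∑ i, a i * b i, h0fin, h1fin.union (h2fin.union hZfin), h0G,
    fun i y hy => Or.inr (Or.inr (hYZ i y hy)), ?_⟩
  intro N _ _ _ Γ _ S R hS0 hS1 hSR
  have hfdN : FiniteDimensional (fixedField Γ) N := fixed_finite Γ
  have hFFE : IsFF k (fixedField Γ) := isFF_down (E := N)
  have hZS : ∀ z ∈ Z, ∃ t, S.T z t := fun z hz => hS1 z (Or.inr (Or.inr hz))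
  have hback : ∀ z ∈ Z, ∀ g ∈ G, ∀ z' : N, S.T (g z) z' → S.T z z' → g z = z := by
    intro z hz g hg z' h1 h2
    have h3 := S.sub h1 h2
    rw [sub_self] at h3
    exact sub_eq_zero.1 (S.back h3 (hS1 _ (Or.inr (Or.inl (h2mem z hz g hg)))) rfl)
  have hact : ∀ σ ∈ Γ, ∃ g ∈ G, ∀ y ∈ Z, ∀ y', S.T y y' → S.T (g y) (σ y') := by
    intro σ hσ
    refine hgal N S σ (fun ϑ hϑ => ?_) (fun ϑ hϑ => hS1 ϑ (Or.inl hϑ))
    obtain ⟨t, ht, hst⟩ := hS0 ϑ hϑ
    exact ⟨t, hst, ht ⟨σ, hσ⟩⟩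
  -- the curves on which the specialization is not constant
  obtain ⟨I, hI⟩ : ∃ I : Finset (Fin n), ∀ i, i ∈ I ↔
      ∃ y ∈ Y i, ∃ y', S.T (y : M) y' ∧ Transcendental k y' :=
    ⟨Finset.univ.filter fun i => ∃ y ∈ Y i, ∃ y', S.T (y : M) y' ∧ Transcendental k y',
      fun i => by simp⟩
  have halg : ∀ i ∉ I, ∀ y ∈ Y i, ∀ y', S.T (y : M) y' → IsAlgebraic k y' := by
    intro i hi y hy y' hyy'
    by_contra hcon
    exact hi ((hI i).2 ⟨y, hy, y', hyy', hcon⟩)
  have hex : ∀ i : I, ∃ ι : C i →ₐ[k] N, ∀ (z : C i) (z' : N), S.T (z : M) z' → ι z = z' := by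
    intro i
    obtain ⟨y, hy, y', hyy', htr⟩ := (hI i).1 i.2
    refine exists_embed S (C i) (hY i) ?_ y.2 hyy' htr
    rintro _ ⟨z, hz, rfl⟩
    exact hZS _ (hYZ i z hz)
  choose ι hι using hex
  have hσ : ∀ σ ∈ Γ, ∃ g ∈ G, (∀ i ∉ I, ∀ z ∈ C i, g z = z) ∧
      (∀ (i : I) (z z' : C i), (z' : M) = g z → ι i z' = σ (ι i z)) ∧
        orderOf g ∣ orderOf σ := by
    intro σ hσΓ
    obtain ⟨g, hg, hgS⟩ := hact σ hσΓ
    refine ⟨g, hg, ?_, ?_, ?_⟩
    · intro i hi
      refine fix_adjoin (hY i) ?_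
      rintro _ ⟨y, hy, rfl⟩
      obtain ⟨y', hy'⟩ := hZS _ (hYZ i y hy)
      have h1 := halg i hi y hy y' hy'
      obtain ⟨c, rfl⟩ := minpoly.mem_range_of_degree_eq_one k y'
        (IsAlgClosed.degree_eq_one_of_irreducible k (minpoly.irreducible h1.isIntegral))
      have h2 := hgS _ (hYZ i y hy) _ hy'
      rw [AlgEquiv.commutes] at h2
      exact hback _ (hYZ i y hy) g hg _ h2 hy'
    · intro i z z' hz'
      have h1 : (ι i).comp ((rho G (C i) (fun g hg => hst g hg i) ⟨g, hg⟩ :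
          C i ≃ₐ[k] C i) : C i →ₐ[k] C i) = (σ : N →ₐ[k] N).comp (ι i) := by
        refine algHom_ext_of_eq_adjoin k (hY i).symm ?_
        rintro _ ⟨y, hy, rfl⟩
        obtain ⟨y', hy'⟩ := hZS _ (hYZ i y hy)
        have h2 := hgS _ (hYZ i y hy) _ hy'
        have h3 := hι i y y' hy'
        have h4 := hι i (rho G (C i) (fun g hg => hst g hg i) ⟨g, hg⟩ y) (σ y') h2
        change ι i (rho G (C i) (fun g hg => hst g hg i) ⟨g, hg⟩ y) = σ (ι i y)
        rw [h3, h4]
      have h2 := congrArg (fun φ : C i →ₐ[k] N => φ z) h1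
      have h3 : z' = rho G (C i) (fun g hg => hst g hg i) ⟨g, hg⟩ z := Subtype.ext hz'
      rw [h3]
      exact h2
    · apply orderOf_dvd_of_pow_eq_one
      have h1 : ∀ m : ℕ, ∀ y ∈ Z, ∀ y', S.T y y' → S.T ((g ^ m) y) ((σ ^ m) y') := by
        intro m
        induction m with
        | zero =>
          intro y _ y' hyy'
          exact hyy'
        | succ m ih =>
          intro y hy y' hyy'
          rw [pow_succ', pow_succ']
          exact hgS _ (hZst y hy _ (G.pow_mem hg m)) _ (ih y hy y' hyy')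
      have h2 : ∀ i, ∀ z ∈ C i, (g ^ orderOf σ) z = z := by
        intro i
        refine fix_adjoin (hY i) ?_
        rintro _ ⟨y, hy, rfl⟩
        obtain ⟨y', hy'⟩ := hZS _ (hYZ i y hy)
        have h3 := h1 (orderOf σ) _ (hYZ i y hy) y' hy'
        rw [pow_orderOf_eq_one] at h3
        exact hback _ (hYZ i y hy) _ (G.pow_mem hg _) _ h3 hy'
      have h3 : (⨆ i, C i) ≤ fixedField (Subgroup.zpowers (g ^ orderOf σ)) := by
        refine iSup_le fun i z hz => ?_
        have h4 : Subgroup.zpowers (g ^ orderOf σ) ≤ MulAction.stabilizer (M ≃ₐ[k] M) z :=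
          (Subgroup.zpowers_le).2 (MulAction.mem_stabilizer_iff.2 (h2 i z hz))
        intro u
        exact MulAction.mem_stabilizer_iff.1 (h4 u.2)
      apply AlgEquiv.ext
      intro z
      have h4 : z ∈ fixedField (Subgroup.zpowers (g ^ orderOf σ)) := by
        apply h3
        rw [hsup]
        exact IntermediateField.mem_top
      exact h4 ⟨_, Subgroup.mem_zpowers _⟩
  -- the quotients of the curves
  have hfix : ∀ (i : I) (c : ↥(C i ⊓ fixedField G)),
      ι i (inclusion (inf_le_left : C i ⊓ fixedField G ≤ C i) c) ∈ fixedField Γ := by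
    rintro i c ⟨σ, hσΓ⟩
    obtain ⟨g, hg, -, h2, -⟩ := hσ σ hσΓ
    have h3 : ((inclusion (inf_le_left : C i ⊓ fixedField G ≤ C i) c : C i) : M) =
        g ((inclusion (inf_le_left : C i ⊓ fixedField G ≤ C i) c : C i) : M) :=
      (c.2.2 ⟨g, hg⟩).symm
    exact (h2 i _ _ h3).symm
  obtain ⟨κ, hκ⟩ : ∃ κ : ∀ i : I, ↥(C i ⊓ fixedField G) →ₐ[k] fixedField Γ,
      ∀ (i : I) (b : ↥(C i ⊓ fixedField G)), ((κ i b : fixedField Γ) : N) =
        ι i (inclusion (inf_le_left : C i ⊓ fixedField G ≤ C i) b) :=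
    ⟨fun i => ((ι i).comp (inclusion (inf_le_left : C i ⊓ fixedField G ≤ C i))).codRestrict
      (fixedField Γ).toSubalgebra (hfix i),
      fun i b => rfl⟩
  have hR : ∀ P ∉ R, ∀ (i : I) (p : Place k ↥(C i ⊓ fixedField G)) (e : ℕ),
      OverH (κ i) P p e → p ∉ B i := by
    intro P hP i p e hp hpB
    obtain ⟨z, hz, hzp⟩ := hZ0 i p hpB
    obtain ⟨t, ht, hreg⟩ := hSR i z hz
    have h1 : κ i z = t := by
      apply Subtype.ext
      rw [hκ]
      exact hι i _ _ ht
    have h2 := hp.2 z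
    rw [h1] at h2
    have h3 := hreg P hP
    have h4 : (t : fixedField Γ) ≠ 0 := by
      rw [← h1]
      intro h5
      rw [map_eq_zero] at h5
      rw [h5, p.ord_zero] at hzp
      exact lt_irrefl _ hzp
    have h5 := h3.resolve_left h4
    rw [h2] at h5
    have h6 : (1 : ℤ) ≤ e := by exact_mod_cast hp.1
    nlinarith
  have hmain := global_ineq Γ hα hδ h hst T0 hT0 I ι hσ κ hκ R hR
  obtain ⟨χ, hχ⟩ : ∃ χ : ℤ, χ = max (canDeg k (fixedField Γ) + R.card) 0 := ⟨_, rfl⟩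
  have hχ0 : 0 ≤ χ := by rw [hχ]; exact le_max_right _ _
  have hχ1 : canDeg k (fixedField Γ) + R.card ≤ χ := by rw [hχ]; exact le_max_left _ _
  have hdegκ : ∀ i : I, (degH (κ i) : ℚ) ≤ a i * χ := by
    intro i
    have h1 : α i * ((degH (κ i) : ℚ) * d i) ≤ (∑ j, α j) * χ := by
      have h2 : α i * ((degH (κ i) : ℚ) * d i) ≤ ∑ j : I, α j * ((degH (κ j) : ℚ) * d j) :=
        Finset.single_le_sum (f := fun j : I => α j * ((degH (κ j) : ℚ) * d j))
          (fun j _ => mul_nonneg (hα j).le (mul_nonneg (Nat.cast_nonneg _) (hd0 j).le))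
          (Finset.mem_univ i)
      have h3 : ∑ j : I, α j * ((degH (κ j) : ℚ) * d j) ≤
          (∑ j ∈ I, α j) * (canDeg k (fixedField Γ) + R.card) := by
        rw [hd]
        exact hmain
      have h4 : ∑ j ∈ I, α j ≤ ∑ j, α j :=
        Finset.sum_le_sum_of_subset_of_nonneg (Finset.subset_univ I) fun j _ _ => (hα j).le
      have h5 : (canDeg k (fixedField Γ) : ℚ) + R.card ≤ χ := by exact_mod_cast hχ1
      have h6 : (0 : ℚ) ≤ χ := by exact_mod_cast hχ0
      have h7 : (0 : ℚ) ≤ ∑ j ∈ I, α j := Finset.sum_nonneg fun j _ => (hα j).le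
      nlinarith
    have h2 : 0 < α i * d i := mul_pos (hα i) (hd0 i)
    have h3 : (degH (κ i) : ℚ) ≤ (∑ j, α j) / (α i * d i) * χ := by
      rw [div_mul_eq_mul_div, le_div_iff₀ h2]
      linarith
    have h6 : (0 : ℚ) ≤ χ := by exact_mod_cast hχ0
    exact h3.trans (mul_le_mul_of_nonneg_right (ha i) h6)
  intro i y hy y' hyy'
  rw [← hχ]
  have hfr : (0 : ℤ) < Module.finrank (fixedField Γ) N := by exact_mod_cast Module.finrank_pos
  by_cases hi : i ∈ I
  · have h1 : ι ⟨i, hi⟩ y = y' := hι ⟨i, hi⟩ y y' hyy'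
    have h2 : hgt k y' = degH (ι ⟨i, hi⟩) * hgt k y := by
      rw [← h1]
      exact hgt_degH (A := C i) (ι ⟨i, hi⟩) y
    have h3 : degH ((ι ⟨i, hi⟩).comp (inclusion (inf_le_left : C i ⊓ fixedField G ≤ C i))) =
        degH ((fixedField Γ).val.comp (κ ⟨i, hi⟩)) := by
      congr 1
      apply AlgHom.ext
      intro c
      exact (hκ ⟨i, hi⟩ c).symm
    rw [degH_comp, degH_comp] at h3
    have h4 : degH (fixedField Γ).val = Module.finrank (fixedField Γ) N := rfl
    rw [h4] at h3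
    have h5 : 0 < degH (inclusion (inf_le_left : C i ⊓ fixedField G ≤ C i)) :=
      degH_pos (A := ↥(C i ⊓ fixedField G)) (B := C i) _
    have h6 : degH (ι ⟨i, hi⟩) ≤ degH (κ ⟨i, hi⟩) * Module.finrank (fixedField Γ) N := by
      rw [← h3]
      exact Nat.le_mul_of_pos_left _ h5
    have h7 : (degH (κ ⟨i, hi⟩) : ℤ) ≤ a i * χ := by exact_mod_cast hdegκ ⟨i, hi⟩
    have h8 : (degH (ι ⟨i, hi⟩) : ℤ) ≤ a i * (Module.finrank (fixedField Γ) N * χ) := by
      have h9 : (degH (ι ⟨i, hi⟩) : ℤ) ≤ degH (κ ⟨i, hi⟩) * Module.finrank (fixedField Γ) N := by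
        exact_mod_cast h6
      nlinarith
    have h9 : (0 : ℤ) ≤ Module.finrank (fixedField Γ) N * χ := mul_nonneg hfr.le hχ0
    have h10 := hb i y hy
    have h11 : 0 ≤ hgt k y := hgt_nonneg _
    have h12 : (a i * b i : ℕ) ≤ ∑ j, a j * b j :=
      Finset.single_le_sum (f := fun j => a j * b j) (fun _ _ => Nat.zero_le _)
        (Finset.mem_univ i)
    have h13 : ((a i * b i : ℕ) : ℤ) ≤ ((∑ j, a j * b j : ℕ) : ℤ) := by exact_mod_cast h12
    rw [h2]
    calc (degH (ι ⟨i, hi⟩) : ℤ) * hgt k y ≤ (a i * (Module.finrank (fixedField Γ) N * χ)) * b i :=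
          mul_le_mul h8 h10 h11 (by positivity)
      _ = ((a i * b i : ℕ) : ℤ) * (Module.finrank (fixedField Γ) N * χ) := by push_cast; ring
      _ ≤ _ := mul_le_mul_of_nonneg_right h13 h9
  · have h1 : hgt k y' = 0 := Pool.Agent.W603.PV.hgt_algebraic (halg i hi y hy y' hyy')
    rw [h1]
    positivity

end

end Pool.Agent.K4H25.LG

end

section

/-!
The bound for the degrees of the affine curves.
-/

set_option autoImplicit false
set_option linter.overlappingInstances false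
set_option linter.unusedSectionVars false
set_option linter.unusedVariables false
set_option maxHeartbeats 4000000
set_option synthInstance.maxHeartbeats 400000

open FF IntermediateField Pool.Agent.TH466.QG Pool.Agent.W619.PQ Pool.Agent.W619.PL
  Pool.Agent.W619.TW Pool.Agent.W603.LV Pool.Agent.K4H25.GQ Pool.Agent.K4H25.GW
  Pool.Agent.K4H25.HY

namespace Pool.Agent.K4H25.LG

open Pool.Agent.W602.GT (val IsForm coords)
open Pool.Agent.W603.PV (pht pht_le isFF_of_finite hgt_algebraMap)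
open Pool.Agent.Y221.PB (alg_hgt)
open Pool.Agent.K4H65.DM (LangVojtaBound sp_integral pht_cons_le)

/-- A function with exactly one pole. -/
theorem exists_pole_at {k B : Type} [Field k] [CharZero k] [IsAlgClosed k] [Field B] [Algebra k B]
    [IsFF k B] (p : Place k B) : ∃ z : B, p.ord z < 0 ∧ ∀ q, q ≠ p → q.Reg z := by
  classical
  obtain ⟨γ, N', hrr, -⟩ := riemann (k := k) (K := B)
  obtain ⟨a, ha⟩ : ∃ a : ℕ, γ + 2 ≤ a := ⟨(γ + 2).toNat, Int.self_le_toNat _⟩
  have h1 := hrr (Finsupp.single p (a : ℤ))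
  have h2 : ddeg (Finsupp.single p (a : ℤ)) = a := by
    unfold ddeg
    rw [Finsupp.sum_single_index (by simp), deg_one]
    simp
  rw [h2] at h1
  obtain ⟨f, hf, f', hf', hf0, hf0', htr⟩ := exists_two (Finsupp.single p (a : ℤ)) (by omega)
  have hreg : ∀ g ∈ LL (Finsupp.single p (a : ℤ)), ∀ q, q ≠ p → q.Reg g := by
    intro g hg q hq
    by_cases hg0 : g = 0
    · exact Or.inl hg0
    · have h3 := (mem_LL.1 hg).resolve_left hg0 q
      rw [Finsupp.single_eq_of_ne hq] at h3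
      exact Or.inr (by omega)
  by_cases h3 : p.ord f < 0
  · exact ⟨f, h3, hreg f hf⟩
  by_cases h4 : p.ord f' < 0
  · exact ⟨f', h4, hreg f' hf'⟩
  exfalso
  have hc : ∀ g ∈ LL (Finsupp.single p (a : ℤ)), ¬ p.ord g < 0 → IsAlgebraic k g := by
    intro g hg hgp
    by_contra htr
    obtain ⟨T, hT, hT2⟩ := poles (k := k) (K := B) htr
    have hfin := IsFF.finite (k := k) (K := B) htr
    have hpos : 0 < Module.finrank k⟮g⟯ B := Module.finrank_pos
    have hT0 : T = ∅ := by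
      rw [Finset.eq_empty_iff_forall_notMem]
      intro w hw
      have h5 := (hT w).1 hw
      by_cases hwp : w = p
      · rw [hwp] at h5
        exact hgp h5
      · rcases hreg g hg w hwp with h6 | h6
        · rw [h6, w.ord_zero] at h5
          omega
        · omega
    rw [hT0, Finset.sum_empty] at hT2
    omega
  apply htr
  rw [div_eq_mul_inv]
  exact (hc f' hf' h4).mul (hc f hf h3).inv

/-- The Galois closure of a covering of a curve. -/
theorem exists_galois' {k E K'' : Type} [Field k] [CharZero k] [IsAlgClosed k] [Field E]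
    [Field K''] [Algebra k E] [Algebra k K''] [Algebra E K''] [IsScalarTower k E K'']
    [FiniteDimensional E K''] [IsFF k E] :
    ∃ (N : Type) (_ : Field N) (_ : Algebra k N) (_ : IsFF k N) (φ : K'' →ₐ[k] N)
      (Γ : Subgroup (N ≃ₐ[k] N)) (_ : Finite Γ) (θ : E ≃ₐ[k] fixedField Γ),
      (∀ e : E, ((θ e : fixedField Γ) : N) = φ (algebraMap E K'' e)) ∧
      canDeg k (fixedField Γ) = canDeg k E ∧
      (∀ e : E, hgt k (φ (algebraMap E K'' e)) = Module.finrank (fixedField Γ) N * hgt k e) ∧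
      0 < Module.finrank (fixedField Γ) N := by
  obtain ⟨N, iN, ikN, iEN, iKN, s1, s2, s3, hfin, Γ, hΓ, ia, s4, hfin2, hφ, hsurj⟩ :=
    Pool.Agent.R885.N.exists_closure (k := k) (K := E) (L := K'')
  have hff : IsFF k N := isFF_of_finite (F := E)
  have hfd : FiniteDimensional (fixedField Γ) N := fixed_finite Γ
  have hFFE' : IsFF k (fixedField Γ) := isFF_down (E := N)
  have hcomp : ∀ e : E, (IsScalarTower.toAlgHom k K'' N) (algebraMap E K'' e) =
      algebraMap E N e := fun e => (IsScalarTower.algebraMap_apply E K'' N e).symm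
  have hbij : Function.Bijective (algebraMap (fixedField Γ) E) :=
    ⟨(algebraMap (fixedField Γ) E).injective, hsurj⟩
  refine ⟨N, iN, ikN, hff, IsScalarTower.toAlgHom k K'' N, Γ, hΓ,
    (AlgEquiv.ofBijective (IsScalarTower.toAlgHom k (fixedField Γ) E) hbij).symm, fun e => ?_, ?_,
    fun e => ?_, Module.finrank_pos⟩
  · rw [hcomp]
    obtain ⟨f, rfl⟩ := hsurj e
    rw [hφ]
    congr 1
    exact (AlgEquiv.ofBijective (IsScalarTower.toAlgHom k (fixedField Γ) E) hbij).symm_apply_apply f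
  · exact (canDeg_iso (AlgEquiv.ofBijective (IsScalarTower.toAlgHom k (fixedField Γ) E)
      hbij)).symm
  · have hrank : Module.finrank (fixedField Γ) N = Module.finrank E N := by
      refine Algebra.finrank_eq_of_equiv_equiv (RingEquiv.ofBijective
        (algebraMap (fixedField Γ) E) hbij) (RingEquiv.refl N) ?_
      ext f
      exact hφ f
    rw [hcomp, hgt_algebraMap (k := k), hrank]

section

variable {k : Type} [Field k] [CharZero k] [IsAlgClosed k] {M : Type} [Field M] [Algebra k M]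
  {n : ℕ}

/-- **The bound for the degrees of the affine curves.** -/
theorem lang_vojta (C : Fin n → IntermediateField k M) [hC : ∀ i, IsFF k (C i)]
    (hsup : ⨆ i, C i = ⊤) (G : Subgroup (M ≃ₐ[k] M)) [Finite G]
    (hst : ∀ g ∈ G, ∀ i, ∀ z ∈ C i, g z ∈ C i)
    {α : Fin n → ℚ} (hα : ∀ i, 0 < α i)
    {B : ∀ i, Finset (Place k ↥(C i ⊓ fixedField G))}
    {δ : ∀ i, Place k ↥(C i ⊓ fixedField G) → ℚ} (hδ : ∀ i p, δ i p ≤ 1) (h : LAge C G B α δ)
    (T0 : ∀ i, Finset (Place k ↥(C i ⊓ fixedField G))) (hT0 : ∀ i, ∀ q ∉ T0 i, δ i q = 0)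
    (hdeg : ∀ i, (0 : ℚ) < canDeg k ↥(C i ⊓ fixedField G) + ∑ q ∈ T0 i, δ i q)
    {L : Type} [Field L] [Algebra k L] [Algebra (fixedField G) L]
    [IsScalarTower k (fixedField G) L] [FiniteDimensional (fixedField G) L] {m : ℕ}
    {x : Fin m → L} (hgenx : IntermediateField.adjoin k (Set.range x) = ⊤)
    (hint : ∀ i, ∀ z : ↥(C i ⊓ fixedField G), (∀ p ∉ B i, p.Reg z) →
      IsIntegral (Algebra.adjoin k (Set.range x)) (algebraMap (fixedField G) L ⟨z, z.2.2⟩)) :
    LangVojtaBound k x := by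
  classical
  have hfdM : FiniteDimensional (fixedField G) M := fixed_finite G
  have hFFB : ∀ i, IsFF k ↥(C i ⊓ fixedField G) := fun i => isFF_quo (C i) G
    (fun g hg => hst g hg i)
  -- the functions with poles at infinity
  obtain ⟨Z0, hZ01, hZ02⟩ : ∃ Z0 : ∀ i, Finset ↥(C i ⊓ fixedField G),
      (∀ i, ∀ p ∈ B i, ∃ z ∈ Z0 i, p.ord z < 0) ∧
      ∀ i, ∀ z ∈ Z0 i, ∀ p ∉ B i, p.Reg z := by
    choose zz h1 h2 using fun (i : Fin n) (p : Place k ↥(C i ⊓ fixedField G)) => exists_pole_at p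
    refine ⟨fun i => (B i).image (zz i), fun i p hp => ⟨zz i p, Finset.mem_image_of_mem _ hp,
      h1 i p⟩, fun i z hz p hp => ?_⟩
    obtain ⟨q, hq, rfl⟩ := Finset.mem_image.1 hz
    refine h2 i q p ?_
    rintro rfl
    exact hp hq
  obtain ⟨Θ3, hΘ3⟩ : ∃ Θ3 : Set M, Θ3 = ⋃ i, (fun z : ↥(C i ⊓ fixedField G) => (z : M)) ''
    (Z0 i : Set ↥(C i ⊓ fixedField G)) := ⟨_, rfl⟩
  have h3fin : Θ3.Finite := by
    rw [hΘ3]
    exact Set.finite_iUnion fun i => (Finset.finite_toSet _).image _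
  have h3mem : ∀ i, ∀ z ∈ Z0 i, ((z : ↥(C i ⊓ fixedField G)) : M) ∈ Θ3 := by
    intro i z hz
    rw [hΘ3]
    exact Set.mem_iUnion.2 ⟨i, z, hz, rfl⟩
  have h3G : ∀ z ∈ Θ3, z ∈ fixedField G := by
    intro z hz
    rw [hΘ3] at hz
    obtain ⟨i, z, -, rfl⟩ := Set.mem_iUnion.1 hz
    exact z.2.2
  -- generators of the curves
  have hex : ∀ i, ∃ Y : Finset (C i),
      IntermediateField.adjoin k ((fun z : C i => (z : M)) '' (Y : Set (C i))) = C i := by
    intro i
    obtain ⟨s, hs⟩ : (C i).FG := essFiniteType_iff.1 (IsFF.ess (k := k) (K := C i))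
    have hsC : ∀ z ∈ s, z ∈ C i := fun z hz => by
      rw [← hs]
      exact IntermediateField.subset_adjoin k _ hz
    refine ⟨s.subtype (· ∈ C i), ?_⟩
    have h1 : (fun z : C i => (z : M)) '' ((s.subtype (· ∈ C i) : Finset (C i)) : Set (C i)) =
        (s : Set M) := by
      ext z
      constructor
      · rintro ⟨y, hy, rfl⟩
        exact Finset.mem_subtype.1 hy
      · intro hz
        exact ⟨⟨z, hsC z hz⟩, Finset.mem_subtype.2 hz, rfl⟩
    rw [h1]
    exact hs
  choose Y hY using hex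
  -- the generic point of the product
  obtain ⟨r, yy, hyy1, hyy2⟩ : ∃ (r : ℕ) (yy : Fin r → M), (∀ j, ∃ i, ∃ y ∈ Y i, (y : M) = yy j) ∧
      ∀ i, ∀ y ∈ Y i, ∃ j, yy j = (y : M) := by
    obtain ⟨Z, hZ1, hZ2⟩ : ∃ Z : Finset M, (∀ z ∈ Z, ∃ i, ∃ y ∈ Y i, (y : M) = z) ∧
        ∀ i, ∀ y ∈ Y i, (y : M) ∈ Z := by
      refine ⟨Finset.univ.biUnion fun i => (Y i).image fun z : C i => (z : M), fun z hz => ?_,
        fun i y hy => ?_⟩
      · obtain ⟨i, -, h1⟩ := Finset.mem_biUnion.1 hz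
        obtain ⟨y, hy, h1⟩ := Finset.mem_image.1 h1
        exact ⟨i, y, hy, h1⟩
      · exact Finset.mem_biUnion.2 ⟨i, Finset.mem_univ i, Finset.mem_image_of_mem _ hy⟩
    refine ⟨Z.card, fun j => (Z.equivFin.symm j : M), fun j => hZ1 _ (Z.equivFin.symm j).2,
      fun i y hy => ⟨Z.equivFin ⟨_, hZ2 i y hy⟩, ?_⟩⟩
    change ((Z.equivFin.symm (Z.equivFin ⟨_, hZ2 i y hy⟩) : Z) : M) = y
    rw [Equiv.symm_apply_apply]
  obtain ⟨y, hy0, hyS⟩ : ∃ y : Fin (r + 1) → M, y 0 = 1 ∧ ∀ j : Fin r, y j.succ = yy j :=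
    ⟨Fin.cons 1 yy, rfl, fun j => rfl⟩
  have hy0' : y 0 ≠ 0 := by rw [hy0]; exact one_ne_zero
  have hgeny : coords k y = ⊤ := by
    have h1 : ∀ j, y j ∈ coords k y := fun j =>
      IntermediateField.subset_adjoin k _ ⟨j, 0, hy0', by rw [hy0, div_one]⟩
    rw [eq_top_iff, ← hsup]
    refine iSup_le fun i => ?_
    rw [← hY i, IntermediateField.adjoin_le_iff]
    rintro _ ⟨z, hz, rfl⟩
    obtain ⟨j, hj⟩ := hyy2 i z hz
    have h2 := h1 j.succ
    rw [hyS, hj] at h2
    exact h2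
  obtain ⟨K', iK, ikK, iLK, iMK, t1, t2, f1, f2, hcomp⟩ := exists_comp k (F := fixedField G)
    (L := L) (M := M)
  obtain ⟨Θ0', Θ1, A, h0fin', h1fin, h0G', hY1, hcurve⟩ :=
    curve_hgt C hsup G hst hα hδ h T0 hT0 hdeg Y hY Z0 hZ01
  obtain ⟨Θ0, hΘ0⟩ : ∃ Θ0 : Set M, Θ0 = Θ0' ∪ Θ3 := ⟨_, rfl⟩
  have h0fin : Θ0.Finite := by
    rw [hΘ0]
    exact h0fin'.union h3fin
  have h0G : ∀ z ∈ Θ0, z ∈ fixedField G := by
    intro z hz
    rw [hΘ0] at hz
    exact hz.elim (h0G' z) (h3G z)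
  obtain ⟨Θ2, Cst, hΘ2, halgs⟩ := alg_hgt (K' := K') hgeny hy0'
    (fun m => algebraMap L K' (x m))
  -- the coefficients
  obtain ⟨c0, hc0⟩ : ∃ c0 : M → L, ∀ ϑ ∈ Θ0, algebraMap L K' (c0 ϑ) = algebraMap M K' ϑ := by
    refine ⟨fun ϑ => if hϑ : ϑ ∈ fixedField G then algebraMap (fixedField G) L ⟨ϑ, hϑ⟩ else 0,
      fun ϑ hϑ => ?_⟩
    beta_reduce
    rw [dif_pos (h0G ϑ hϑ)]
    exact hcomp _
  obtain ⟨H1, hH1, hH1G⟩ := Pool.Agent.TH466.QG.exists_den hgenx (h0fin.image c0)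
  obtain ⟨H, hH, hspread⟩ := spread (K' := K') hgenx
    (Θ := algebraMap M K' '' (Θ0 ∪ (Θ1 ∪ Θ2))) ((h0fin.union (h1fin.union hΘ2)).image _)
  refine ⟨H * H1, ?_, m * (Cst * ((r + 1) * A)), ?_⟩
  · rw [map_mul]
    exact mul_ne_zero hH hH1
  intro E _ _ _ Sg z hsp hreg hzHH
  rw [map_mul] at hzHH
  have hzH := left_ne_zero_of_mul hzHH
  have hzH1 := right_ne_zero_of_mul hzHH
  obtain ⟨K'', i1', i2', i3', i4', i5', hrk, S0, hSx0, hSΘ0⟩ := hspread E z hsp hzH
  obtain ⟨N, iN, ikN, hff, φ, Γ, hΓ, θ, hθ, hcan, hgtE, hrk0⟩ :=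
    exists_galois' (k := k) (E := E) (K'' := K'')
  have hfdN : FiniteDimensional (fixedField Γ) N := fixed_finite Γ
  have hFFE : IsFF k (fixedField Γ) := isFF_down (E := N)
  obtain ⟨S, hS⟩ : ∃ S : Sp k K' N, S = mapSp S0 φ := ⟨_, rfl⟩
  have hSx : ∀ i, S.T (algebraMap L K' (x i)) (φ (algebraMap E K'' (z i))) := by
    intro i
    rw [hS]
    exact ⟨_, hSx0 i, rfl⟩
  have hSΘ : ∀ ϑ ∈ Θ0 ∪ (Θ1 ∪ Θ2), ∃ t, S.T (algebraMap M K' ϑ) t := by
    intro ϑ hϑ
    obtain ⟨t, ht⟩ := hSΘ0 _ ⟨ϑ, hϑ, rfl⟩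
    rw [hS]
    exact ⟨_, t, ht, rfl⟩
  obtain ⟨SM, hSM⟩ : ∃ SM : Sp k M N, ∀ a b, SM.T a b ↔ S.T (algebraMap M K' a) b :=
    ⟨S.res (K0 := M), fun a b => Iff.rfl⟩
  -- the coefficients are in `E`
  have hS0 : ∀ ϑ ∈ Θ0, ∃ t ∈ fixedField Γ, SM.T ϑ t := by
    intro ϑ hϑ
    obtain ⟨t, ht⟩ := hSΘ ϑ (Or.inl hϑ)
    refine ⟨t, ?_, (hSM _ _).2 ht⟩
    obtain ⟨G1, hG1⟩ := hH1G _ ⟨ϑ, hϑ, rfl⟩
    have hval : ∀ P : MvPolynomial (Fin m) k,
        S.T (algebraMap L K' (MvPolynomial.aeval x P))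
          (φ (algebraMap E K'' (MvPolynomial.aeval z P))) := by
      intro P
      have h1 := Pool.Agent.K4H65.DM.sp_aeval S hSx P
      have h2 : MvPolynomial.aeval (fun i => algebraMap L K' (x i)) P =
          algebraMap L K' (MvPolynomial.aeval x P) :=
        MvPolynomial.aeval_algebraMap_apply K' x P
      have h3 : MvPolynomial.aeval (fun i => φ (algebraMap E K'' (z i))) P =
          φ (algebraMap E K'' (MvPolynomial.aeval z P)) := by
        have h4 : MvPolynomial.aeval (fun i => algebraMap E K'' (z i)) P =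
            algebraMap E K'' (MvPolynomial.aeval z P) :=
          MvPolynomial.aeval_algebraMap_apply K'' z P
        rw [← h4]
        exact (MvPolynomial.comp_aeval_apply (fun i => algebraMap E K'' (z i)) φ P).symm
      rw [h2, h3] at h1
      exact h1
    have h1 := hval G1
    have h2 := S.mul ht (hval H1)
    rw [← hc0 ϑ hϑ, ← map_mul, hG1] at h2
    have h3 := S.ext h1 h2
    have h4 : t = φ (algebraMap E K'' (MvPolynomial.aeval z G1 / MvPolynomial.aeval z H1)) := by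
      have h5 : φ (algebraMap E K'' (MvPolynomial.aeval z H1)) ≠ 0 :=
        (_root_.map_ne_zero φ).2 ((_root_.map_ne_zero _).2 hzH1)
      rw [map_div₀, map_div₀, h3, mul_div_cancel_right₀ _ h5]
    rw [h4, ← hθ]
    exact (θ _).2
  have hS1 : ∀ ϑ ∈ Θ1, ∃ t, SM.T ϑ t := fun ϑ hϑ => by
    obtain ⟨t, ht⟩ := hSΘ ϑ (Or.inr (Or.inl hϑ))
    exact ⟨t, (hSM _ _).2 ht⟩
  -- the points at infinity
  obtain ⟨R, hR⟩ : ∃ R : Finset (Place k (fixedField Γ)), R = Sg.image (pullP θ.symm) := ⟨_, rfl⟩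
  have hRcard : R.card ≤ Sg.card := by
    rw [hR]
    exact Finset.card_image_le
  have hSR : ∀ i, ∀ u ∈ Z0 i, ∃ t : fixedField Γ, SM.T ((u : ↥(C i ⊓ fixedField G)) : M) (t : N) ∧
      ∀ P ∉ R, P.Reg t := by
    intro i u hu
    have hu0 : ((u : ↥(C i ⊓ fixedField G)) : M) ∈ Θ0 := by
      rw [hΘ0]
      exact Or.inr (h3mem i u hu)
    obtain ⟨t, htΓ, ht⟩ := hS0 _ hu0
    refine ⟨⟨t, htΓ⟩, ht, fun P hP => ?_⟩
    obtain ⟨e, Q, hQ⟩ := exists_place_over (E := N) P
    have hP' : pullP θ P ∉ Sg := by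
      intro hcon
      apply hP
      rw [hR]
      exact Finset.mem_image.2 ⟨_, hcon, pullP_symm θ P⟩
    have hQreg : ∀ j, Q.Reg (φ (algebraMap E K'' (z j))) := by
      intro j
      rcases hreg _ hP' j with h1 | h1
      · left
        rw [h1, map_zero, map_zero]
      · right
        rw [← hθ]
        have h2 := hQ.2 (θ (z j))
        change Q.ord ((θ (z j) : fixedField Γ) : N) = _ at h2
        rw [h2]
        rw [pullP_ord] at h1
        positivity
    have hi := hint i u (hZ02 i u hu)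
    have hi' : IsIntegral (Algebra.adjoin k (Set.range fun j => algebraMap L K' (x j)))
        (algebraMap M K' ((u : ↥(C i ⊓ fixedField G)) : M)) := by
      have h1 : algebraMap M K' ((u : ↥(C i ⊓ fixedField G)) : M) =
          algebraMap L K' (algebraMap (fixedField G) L ⟨u, u.2.2⟩) := (hcomp ⟨u, u.2.2⟩).symm
      rw [h1]
      have h2 : (Algebra.adjoin k (Set.range x)).map (IsScalarTower.toAlgHom k L K') =
          Algebra.adjoin k (Set.range fun j => algebraMap L K' (x j)) := by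
        rw [AlgHom.map_adjoin, ← Set.range_comp]
        rfl
      rw [← h2]
      obtain ⟨p, hp, hev⟩ := hi
      let ψ : Algebra.adjoin k (Set.range x) →+*
          (Algebra.adjoin k (Set.range x)).map (IsScalarTower.toAlgHom k L K') :=
        ((IsScalarTower.toAlgHom k L K').domRestrict (Algebra.adjoin k (Set.range x))).toRingHom.codRestrict
          _ (fun a => ⟨a, a.2, rfl⟩)
      refine ⟨p.map ψ, hp.map ψ, ?_⟩
      rw [Polynomial.eval₂_map]
      have h3 := congrArg (algebraMap L K') hev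
      rw [Polynomial.hom_eval₂, map_zero] at h3
      rw [← h3]
      rfl
    have h1 := sp_integral S (x := fun j => algebraMap L K' (x j)) hSx hi' ((hSM _ _).1 ht) Q hQreg
    rcases h1 with h1 | h1
    · left
      exact Subtype.ext h1
    · right
      have h2 := hQ.2 (⟨t, htΓ⟩ : fixedField Γ)
      change Q.ord t = _ at h2
      rw [h2] at h1
      have h3 : (1 : ℤ) ≤ e := by exact_mod_cast hQ.1
      by_contra hcon
      push Not at hcon
      nlinarith
  have hhgt := hcurve N Γ SM R (fun ϑ hϑ => hS0 ϑ (by rw [hΘ0]; exact Or.inl hϑ)) hS1 hSR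
  rw [hcan] at hhgt
  obtain ⟨χ, hχ⟩ : ∃ χ : ℤ, χ = max (canDeg k E + Sg.card) 0 := ⟨_, rfl⟩
  have hχ0 : 0 ≤ χ := by rw [hχ]; exact le_max_right _ _
  have hχR : max (canDeg k E + (R.card : ℤ)) 0 ≤ χ := by
    rw [hχ]
    have : (R.card : ℤ) ≤ Sg.card := by exact_mod_cast hRcard
    exact max_le_max (by omega) le_rfl
  rw [← hχ]
  obtain ⟨ρ, hρ⟩ : ∃ ρ : ℤ, ρ = Module.finrank (fixedField Γ) N := ⟨_, rfl⟩
  have hρ0 : 0 < ρ := by rw [hρ]; exact_mod_cast hrk0
  rw [← hρ] at hhgt hgtE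
  have hhgt' : ∀ i, ∀ y ∈ Y i, ∀ y', SM.T (y : M) y' → hgt k y' ≤ A * (ρ * χ) := by
    intro i y hy y' hyy'
    refine (hhgt i y hy y' hyy').trans ?_
    exact mul_le_mul_of_nonneg_left (mul_le_mul_of_nonneg_left hχR hρ0.le) (by positivity)
  -- the specialization of the generic point
  have hSy : ∀ j, ∃ t, SM.T (y j) t := by
    intro j
    refine Fin.cases ?_ (fun j => ?_) j
    · rw [hy0]
      exact ⟨1, SM.one⟩
    · rw [hyS]
      obtain ⟨i, u, hu, hu'⟩ := hyy1 j
      rw [← hu']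
      exact hS1 _ (hY1 i u hu)
  choose y' hy' using hSy
  have hy'0 : y' 0 = 1 := SM.ext (by rw [← hy0]; exact hy' 0) SM.one
  have hb : ∀ j, hgt k (y' j / y' 0) ≤ A * (ρ * χ) := by
    intro j
    rw [hy'0, div_one]
    refine Fin.cases ?_ (fun j => ?_) j
    · rw [hy'0, hgt_one]
      positivity
    · obtain ⟨i, u, hu, hu'⟩ := hyy1 j
      refine hhgt' i u hu _ ?_
      rw [hu', ← hyS]
      exact hy' _
  have hpy : pht k y' ≤ (r + 1) * (A * (ρ * χ)) := by
    refine (pht_le y' (l := 0) (by rw [hy'0]; exact one_ne_zero)).trans ?_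
    refine (Finset.sum_le_sum fun j _ => hb j).trans (le_of_eq ?_)
    rw [Finset.sum_const, nsmul_eq_mul, Finset.card_univ, Fintype.card_fin]
    push_cast
    ring
  have h2 : ∀ m', hgt k (φ (algebraMap E K'' (z m'))) ≤ Cst * pht k y' := fun m' =>
    halgs N S (fun ϑ hϑ => hSΘ _ (Or.inr (Or.inr hϑ))) y' (fun j => (hSM _ _).1 (hy' j)) _ hSx m'
  have h3 : ∀ m', hgt k (z m') ≤ Cst * ((r + 1) * (A * χ)) := by
    intro m'
    have h4 := h2 m'
    rw [hgtE] at h4
    have h5 : (Cst : ℤ) * pht k y' ≤ Cst * ((r + 1) * (A * (ρ * χ))) :=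
      mul_le_mul_of_nonneg_left hpy (Nat.cast_nonneg _)
    have h6 : ρ * hgt k (z m') ≤ ρ * (Cst * ((r + 1) * (A * χ))) := by
      refine (h4.trans h5).trans (le_of_eq ?_)
      ring
    exact le_of_mul_le_mul_left h6 hρ0
  refine (pht_cons_le z).trans ((Finset.sum_le_sum fun j _ => h3 j).trans (le_of_eq ?_))
  rw [Finset.sum_const, nsmul_eq_mul, Finset.card_univ, Fintype.card_fin]
  push_cast
  ring

end

end Pool.Agent.K4H25.LG

end

section

/-!
Logarithmic pluricanonical forms on varieties with maps to curves.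
-/

set_option autoImplicit false
set_option linter.overlappingInstances false
set_option linter.unusedSectionVars false
set_option linter.unusedVariables false
set_option linter.unusedSimpArgs false
set_option maxHeartbeats 4000000
set_option synthInstance.maxHeartbeats 400000

open FF IntermediateField Pool.Agent.W619.PQ Pool.Agent.W619.PL
  Pool.Agent.W619.TW Pool.Agent.W603.LV Pool.Agent.K4H25.GQ Pool.Agent.K4H25.GW
  Pool.Agent.K4H25.HY Pool.Agent.W619.X Pool.Agent.W619.Y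

namespace Pool.Agent.K4H25.LG

open Pool.Agent.W602.GT (Divisorial DerReg DerLog LogGeneralType det_log)

section

variable {k : Type} [Field k] [CharZero k] [IsAlgClosed k] {L : Type} [Field L] [Algebra k L]

/-- The form on a curve at a place. -/
theorem fib_loc {E : Type} [Field E] [Algebra k E] [IsFF k E] (φ : E →ₐ[k] L) {m : ℕ}
    (δ : Place k E → ℚ) (D0 : Derivation k E E) (c x : E)
    (hD0 : D0 ≠ 0) (hc : c ≠ 0) (hx : Transcendental k x)
    (hg : GoodX (fun _ => False) (fun q => 1 - δ q) m D0 c) (w : Place k L) :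
    ∃ (u r : L) (N : ℤ), u ≠ 0 ∧ w.Reg u ∧ (∀ D : Derivation k L L, D (φ x) = r * D u) ∧
      Ge w N (φ (c / (D0 x) ^ m) * (r * u) ^ m) ∧
      (((∀ z, w.ord (φ z) = 0) ∧ w.ord u = 0 ∧ N = 0) ∨
        ∃ (p : Place k E) (e : ℕ), OverH φ w p e ∧ (m : ℚ) * (e * (1 - δ p)) ≤ N) := by
  classical
  let _ : Algebra E L := φ.toRingHom.toAlgebra
  have t1 : IsScalarTower k E L := IsScalarTower.of_algebraMap_eq fun c => (φ.commutes c).symm
  have hφ : ∀ z, algebraMap E L z = φ z := fun z => rfl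
  have hx0 : x ≠ 0 := by
    intro h0
    rw [h0] at hx
    exact hx (isAlgebraic_zero)
  have hDx : D0 x ≠ 0 := der_ne_zero hD0 hx
  by_cases htriv : ∀ f : E, w.ord (algebraMap E L f) = 0
  · refine ⟨φ x, 1, 0, (_root_.map_ne_zero φ).2 hx0, Or.inr (htriv x).ge,
      fun D => (one_mul _).symm, ?_, Or.inl ⟨htriv, htriv x, rfl⟩⟩
    have h2 : φ (c / (D0 x) ^ m) * (1 * φ x) ^ m = φ (c / (D0 x) ^ m * x ^ m) := by
      rw [one_mul, map_mul, map_pow]
    rw [h2]
    exact Or.inr (htriv _).ge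
  push Not at htriv
  obtain ⟨f0, hf0⟩ := htriv
  obtain ⟨e, p, hp⟩ := exists_over (K := E) w ⟨f0, hf0⟩
  obtain ⟨u, hu0, hpu⟩ := p.surj
  have hut : Transcendental k u := trans_of_ord p (by omega)
  obtain ⟨r, hr1, hr2⟩ := ratio' (K := L) hut x
  have hDu : D0 u ≠ 0 := der_ne_zero hD0 hut
  have hxr : D0 x = r * D0 u := hr1 D0
  have hr0 : r ≠ 0 := by
    intro h
    rw [h, zero_mul] at hxr
    exact hDx hxr
  have hval : φ (c / (D0 x) ^ m) * (φ r * φ u) ^ m = φ (c * (u / D0 u) ^ m) := by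
    have h3 : c / (D0 x) ^ m * (r * u) ^ m = c * (u / D0 u) ^ m := by
      rw [hxr, div_mul_eq_mul_div, mul_div_assoc, ← div_pow]
      congr 2
      field_simp
    rw [← h3, map_mul, map_pow, map_mul]
  have hord : p.ord (c * (u / D0 u) ^ m) = p.ord c + m * (1 - vo p D0) := by
    rw [p.ord_mul hc (pow_ne_zero _ (div_ne_zero hu0 hDu)), p.ord_pow, p.ord_div hu0 hDu, hpu,
      vo_eq p hpu hD0]
  obtain ⟨h5, h6⟩ := hg p
  have h7 := h6 not_false
  rw [← hord] at h7 h5
  have hwu : w.ord (φ u) = (e : ℕ) := by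
    have h8 := hp.2 u
    rw [hpu, mul_one] at h8
    exact h8
  refine ⟨φ u, φ r, (e : ℕ) * p.ord (c * (u / D0 u) ^ m),
    (_root_.map_ne_zero φ).2 hu0, Or.inr (by rw [hwu]; positivity), fun D => hr2 D, ?_, ?_⟩
  · rw [hval]
    exact Or.inr (hp.2 _).ge
  · refine Or.inr ⟨p, e, ⟨hp.1, hp.2⟩, ?_⟩
    push_cast
    have h8 : (0 : ℚ) ≤ e := by positivity
    have h9 := mul_le_mul_of_nonneg_left h7 h8
    push_cast at h9
    refine le_trans (le_of_eq ?_) h9
    ring

/-- **Logarithmic general type.** -/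
theorem log_general {n : ℕ} {E : Fin n → Type} [∀ i, Field (E i)] [∀ i, Algebra k (E i)]
    [∀ i, IsFF k (E i)] (φ : ∀ i, E i →ₐ[k] L) (htr : Algebra.trdeg k L = n)
    (hind : ∀ x : ∀ i, E i, (∀ i, Transcendental k (x i)) →
      AlgebraicIndependent k (fun i => φ i (x i)))
    (ε : ∀ i, Place k (E i) → ℚ) (hε : ∀ i p, 0 ≤ ε i p ∧ ε i p ≤ 1)
    (T0 : ∀ i, Finset (Place k (E i))) (hT0 : ∀ i, ∀ q ∉ T0 i, ε i q = 0)
    (hdeg : ∀ i, (0 : ℚ) < canDeg k (E i) + ∑ q ∈ T0 i, ε i q) (Bd : Place k L → Prop)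
    (hloc : ∀ w : Place k L, ¬ Bd w → (∀ i z, w.ord (φ i z) = 0) ∨
      ∃ i p e, OverH (φ i) w p e ∧ (1 : ℚ) ≤ e * (1 - ε i p)) :
    LogGeneralType k L n Bd := by
  classical
  choose m D0 c1 c1' hm hD0 hc1 hc1' hg1 hg1' htr1 using fun i =>
    two_goodX (k := k) (E0 := E i) (fun _ => False) (ε i) (T0 i) (hT0 i) (hε i) (hdeg i)
  have hx0 : ∀ i, ∃ x : E i, Transcendental k x := fun i =>
    IsFF.exists_transcendental (k := k) (K := E i)
  choose x hx using hx0
  have hDx : ∀ i, D0 i (x i) ≠ 0 := fun i => der_ne_zero (hD0 i) (hx i)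
  obtain ⟨N, hNdef⟩ : ∃ N, N = ∏ i, m i := ⟨_, rfl⟩
  have hN : 1 ≤ N := by
    rw [hNdef]
    exact Nat.pos_of_ne_zero (Finset.prod_ne_zero_iff.2 fun i _ => by
      have := hm i
      omega)
  have hn1 : ∀ i, ∃ ν : ℕ, 1 ≤ ν ∧ ν * m i = N := by
    intro i
    refine ⟨∏ j ∈ Finset.univ.erase i, m j, Nat.pos_of_ne_zero
      (Finset.prod_ne_zero_iff.2 fun i _ => by
        have := hm i
        omega), ?_⟩
    rw [hNdef, mul_comm]
    exact Finset.mul_prod_erase Finset.univ m (Finset.mem_univ i)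
  choose ν hν hνm using hn1
  obtain ⟨c, hc⟩ : ∃ c : ∀ i, E i, c = fun i => c1 i ^ ν i := ⟨_, rfl⟩
  obtain ⟨c', hc'⟩ : ∃ c' : ∀ i, E i, c' = fun i => c1' i ^ ν i := ⟨_, rfl⟩
  have hcne : ∀ i, c i ≠ 0 := fun i => by
    rw [hc]
    exact pow_ne_zero _ (hc1 i)
  have hcne' : ∀ i, c' i ≠ 0 := fun i => by
    rw [hc']
    exact pow_ne_zero _ (hc1' i)
  have hgc : ∀ i, GoodX (fun _ => False) (fun q => 1 - ε i q) N (D0 i) (c i) := by
    intro i
    have := (hg1 i).pow (ν i)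
    rw [hνm i] at this
    rw [hc]
    exact this
  have hgc' : ∀ i, GoodX (fun _ => False) (fun q => 1 - ε i q) N (D0 i) (c' i) := by
    intro i
    have := (hg1' i).pow (ν i)
    rw [hνm i] at this
    rw [hc']
    exact this
  have htr' : ∀ i, Transcendental k (c' i / c i) := by
    intro i
    rw [hc, hc']
    beta_reduce
    rw [← div_pow]
    exact (htr1 i).pow (by have := hν i; omega)
  obtain ⟨cc, hcc⟩ : ∃ cc : Fin (n + 1) → ∀ i, E i,
      cc = Fin.cons (α := fun _ => ∀ i, E i) c (fun b : Fin n => Function.update c b (c' b)) :=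
    ⟨_, rfl⟩
  have hall : ∀ P : ∀ i, E i → Prop, (∀ i, P i (c i)) → (∀ i, P i (c' i)) →
      ∀ l i, P i (cc l i) := by
    intro P h1 h2 l i
    rw [hcc]
    refine Fin.cases ?_ (fun b => ?_) l
    · exact h1 i
    · rw [Fin.cons_succ]
      by_cases hi : i = b
      · subst hi
        rw [Function.update_self]
        exact h2 _
      · rw [Function.update_of_ne hi]
        exact h1 i
  have hccne := hall (fun i z => z ≠ 0) hcne hcne'
  have hccg := hall (fun i z => GoodX (fun _ => False) (fun q => 1 - ε i q) N (D0 i) z) hgc hgc'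
  -- the forms
  obtain ⟨Ω, hΩ⟩ : ∃ Ω : Fin (n + 1) → (Fin n → Derivation k L L) → L, Ω = fun l D =>
      (∏ i, φ i (cc l i / (D0 i (x i)) ^ N)) *
        (Matrix.of fun i j => D i (φ j (x j))).det ^ N := ⟨_, rfl⟩
  have hbasis : IsTranscendenceBasis k (fun i => φ i (x i)) :=
    (hind x hx).isTranscendenceBasis_of_trdeg_le_of_finite (by
      rw [htr, Cardinal.mk_fintype, Fintype.card_fin])
  obtain ⟨EL, hEL⟩ := Pool.Agent.W636.PG.exists_duals k L n _ hbasis
  have hdet : (Matrix.of fun i j => EL i (φ j (x j))).det = 1 := by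
    have h1 : (Matrix.of fun i j => EL i (φ j (x j))) = 1 := by
      ext a b
      rw [Matrix.of_apply, Matrix.one_apply]
      exact hEL a b
    rw [h1, Matrix.det_one]
  have hval : ∀ l, Ω l EL = ∏ i, φ i (cc l i / (D0 i (x i)) ^ N) := by
    intro l
    rw [hΩ]
    beta_reduce
    rw [hdet, one_pow, mul_one]
  have hfne : ∀ l i, φ i (cc l i / (D0 i (x i)) ^ N) ≠ 0 := fun l i =>
    (_root_.map_ne_zero (φ i)).2 (div_ne_zero (hccne l i) (pow_ne_zero _ (hDx i)))
  have hest : ∀ (w : Place k L) (l : Fin (n + 1)) (D : Fin n → Derivation k L L),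
      ∃ (Q : L) (s : ℤ) (u : Fin n → L), (∀ i, u i ≠ 0) ∧
        Q = (Matrix.of fun j i => D j (u i) / u i).det ∧ 0 ≤ s ∧
        (¬ Bd w → (∀ i, w.ord (u i) = 0) ∨ (N : ℤ) ≤ s) ∧
        ∀ a : ℤ, Ge w a Q → Ge w (s + N * a) (Ω l D) := by
    intro w l D
    choose u r K hu0 hur hrx hKge hK using fun i =>
      fib_loc (φ i) (ε i) (D0 i) (cc l i) (x i) (hD0 i) (hccne l i) (hx i) (hccg l i) w
    have hK0 : ∀ i, 0 ≤ K i := by
      intro i
      rcases hK i with ⟨-, -, h1⟩ | ⟨p, e, -, h1⟩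
      · exact h1.ge
      · have h2 : (0 : ℚ) ≤ (N : ℚ) * (e * (1 - ε i p)) := by
          have h3 : 0 ≤ 1 - ε i p := sub_nonneg.2 (hε i p).2
          positivity
        exact_mod_cast h2.trans h1
    refine ⟨_, ∑ i, K i, u, hu0, rfl, Finset.sum_nonneg fun i _ => hK0 i, fun hB => ?_,
      fun a ha => ?_⟩
    · rcases hloc w hB with h0 | ⟨i, p, e, hpe, h1⟩
      · left
        intro i
        rcases hK i with ⟨-, h3, -⟩ | ⟨p', e', hpe', -⟩
        · exact h3
        · exfalso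
          obtain ⟨t, ht0, ht⟩ := p'.surj
          have h4 := hpe'.2 t
          rw [ht, mul_one, h0] at h4
          have := hpe'.1
          omega
      right
      have h2 : (N : ℤ) ≤ K i := by
        rcases hK i with ⟨h3, -, -⟩ | ⟨p', e', hpe', h3⟩
        · exfalso
          obtain ⟨t, ht0, ht⟩ := p.surj
          have h4 := hpe.2 t
          rw [ht, mul_one, h3] at h4
          have := hpe.1
          omega
        · obtain ⟨h4, h5⟩ := ord_uniq (p := p') (q := p) hpe'.1 hpe.1 fun f => by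
            rw [← hpe'.2, ← hpe.2]
          rw [h4, h5] at h3
          have h6 : (N : ℚ) * 1 ≤ N * (e * (1 - ε i p)) := mul_le_mul_of_nonneg_left h1 (by positivity)
          rw [mul_one] at h6
          exact_mod_cast h6.trans h3
      exact h2.trans (Finset.single_le_sum (f := fun i => K i) (fun i _ => hK0 i)
        (Finset.mem_univ i))
    · have hT : ∀ (D : Derivation k L L) i, D (φ i (x i)) =
          ∑ i', (Matrix.diagonal r : Matrix (Fin n) (Fin n) L) i i' * D (u i') := by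
        intro D i
        rw [Finset.sum_eq_single i]
        · rw [Matrix.diagonal_apply_eq]
          exact hrx i D
        · intro b _ hb
          rw [Matrix.diagonal_apply_ne _ (Ne.symm hb), zero_mul]
        · intro h
          exact absurd (Finset.mem_univ i) h
      have h1 : Ω l D = (∏ i, (φ i (cc l i / (D0 i (x i)) ^ N) * (r i * u i) ^ N)) *
          (Matrix.of fun j i => D j (u i) / u i).det ^ N := by
        rw [hΩ]
        beta_reduce
        rw [det_factor D (fun i => φ i (x i)) u (Matrix.diagonal r) hT, Matrix.det_diagonal,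
          det_dlog D u hu0, Finset.prod_mul_distrib, Finset.prod_pow, Finset.prod_mul_distrib]
        ring
      rw [h1]
      exact (Ge.prod _ _ _ fun i _ => hKge i).mul (ha.pow N)
  refine ⟨htr, N, hN, Ω, fun l => ?_, fun w _ l D hD => ?_, fun w _ hB l D hD => ?_, EL, ?_, ?_⟩
  · rw [hΩ]
    exact Pool.Agent.K4H25.GQ.pluri_det _ _ _
  · obtain ⟨Q, s, u, hu0, hQ, hs0, -, hge⟩ := hest w l D
    have h1 : Ge w 0 Q := by
      rw [hQ]
      exact ge_det w _ fun i j => hD i (u j)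
    have h2 := hge 0 h1
    exact h2.mono (by simpa using hs0)
  · obtain ⟨Q, s, u, hu0, hQ, hs0, hsN, hge⟩ := hest w l D
    rcases hsN hB with h0 | h3
    · have h1 : Ge w 0 Q := by
        rw [hQ]
        exact ge_det w _ fun i j => Pool.Agent.W602.GT.ge_logder_reg (hD i) (hu0 j) (h0 j)
      have h2 := hge 0 h1
      exact h2.mono (by simpa using hs0)
    have h1 : Ge w (-1) Q := by
      rw [hQ]
      exact det_log D hD u hu0
    have h2 := hge (-1) h1
    exact h2.mono (by linarith)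
  · rw [hval]
    exact Finset.prod_ne_zero_iff.2 fun i _ => hfne 0 i
  · have h1 : (fun b : Fin n => Ω b.succ EL / Ω 0 EL) = fun b : Fin n => φ b (c' b / c b) := by
      funext b
      rw [hval, hval, ← Finset.prod_div_distrib]
      rw [← Finset.mul_prod_erase Finset.univ _ (Finset.mem_univ b)]
      have h2 : ∏ i ∈ Finset.univ.erase b, φ i (cc b.succ i / (D0 i (x i)) ^ N) /
          φ i (cc 0 i / (D0 i (x i)) ^ N) = 1 := by
        refine Finset.prod_eq_one fun i hi => ?_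
        have h3 : cc b.succ i = cc 0 i := by
          rw [hcc, Fin.cons_succ, Fin.cons_zero,
            Function.update_of_ne (Finset.ne_of_mem_erase hi)]
        rw [h3]
        exact div_self (hfne 0 i)
      rw [h2, mul_one, ← map_div₀]
      have h3 : cc b.succ b = c' b := by
        rw [hcc, Fin.cons_succ, Function.update_self]
      have h4 : cc 0 b = c b := by
        rw [hcc, Fin.cons_zero]
      rw [h3, h4, div_div_div_cancel_right₀ (pow_ne_zero _ (hDx b))]
    rw [h1]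
    exact hind _ htr'

end

end Pool.Agent.K4H25.LG

end

section

/-!
The criterion at the places of the quotient.
-/

set_option autoImplicit false
set_option linter.overlappingInstances false
set_option linter.unusedSectionVars false
set_option linter.unusedVariables false
set_option linter.unusedSimpArgs false
set_option maxHeartbeats 4000000
set_option synthInstance.maxHeartbeats 400000

open FF IntermediateField Pool.Agent.W619.PQ Pool.Agent.W619.PL
  Pool.Agent.W619.TW Pool.Agent.W603.LV Pool.Agent.K4H25.GQ Pool.Agent.K4H25.GW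
  Pool.Agent.K4H25.HY Pool.Agent.W619.X Pool.Agent.W619.Y

namespace Pool.Agent.K4H25.LG

open Pool.Agent.W602.GT (Divisorial DerReg DerLog LogGeneralType)

section

variable {k : Type} [Field k] [CharZero k] [IsAlgClosed k] {M : Type} [Field M] [Algebra k M]
  {n : ℕ}

/-- **The criterion at a place of the quotient.** -/
theorem place_crit (C : Fin n → IntermediateField k M) [hC : ∀ i, IsFF k (C i)]
    (G : Subgroup (M ≃ₐ[k] M)) [Finite G]
    (hst : ∀ g ∈ G, ∀ i, ∀ z ∈ C i, g z ∈ C i)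
    {α : Fin n → ℚ} (hα : ∀ i, 0 < α i)
    {B : ∀ i, Finset (Place k ↥(C i ⊓ fixedField G))}
    {δ : ∀ i, Place k ↥(C i ⊓ fixedField G) → ℚ} (h : LAge C G B α δ)
    (T0 : ∀ i, Finset (Place k ↥(C i ⊓ fixedField G))) (hT0 : ∀ i, ∀ q ∉ T0 i, δ i q = 0)
    (v : Place k (fixedField G))
    (hB : ∀ i p e, OverH (inclusion (inf_le_right : C i ⊓ fixedField G ≤ fixedField G)) v p e →
      p ∉ B i) :
    (∀ i (z : ↥(C i ⊓ fixedField G)),
      v.ord (inclusion (inf_le_right : C i ⊓ fixedField G ≤ fixedField G) z) = 0) ∨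
    ∃ i p e, OverH (inclusion (inf_le_right : C i ⊓ fixedField G ≤ fixedField G)) v p e ∧
      (1 : ℚ) ≤ e * (1 - max (δ i p) 0) := by
  classical
  have hFFB : ∀ i, IsFF k ↥(C i ⊓ fixedField G) := fun i => isFF_quo (C i) G
    (fun g hg => hst g hg i)
  obtain ⟨w, e, I0, hw, -, -⟩ := exists_inertia G v
  obtain ⟨J, hJ⟩ : ∃ J : Finset (Fin n), ∀ i, i ∈ J ↔ ∃ z ∈ C i, w.ord z ≠ 0 :=
    ⟨Finset.univ.filter fun i => ∃ z ∈ C i, w.ord z ≠ 0, fun i => by simp⟩
  have hJ' : ∀ i ∉ J, ∀ z ∈ C i, w.ord z = 0 := by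
    intro i hi z hz
    by_contra hcon
    exact hi ((hJ i).2 ⟨z, hz, hcon⟩)
  have hwv : ∀ i (z : ↥(C i ⊓ fixedField G)), w.ord (z : M) =
      e * v.ord (inclusion (inf_le_right : C i ⊓ fixedField G ≤ fixedField G) z) := fun i z =>
    hw.2 (inclusion (inf_le_right : C i ⊓ fixedField G ≤ fixedField G) z)
  have he0 : (0 : ℤ) < e := by exact_mod_cast hw.1
  rcases J.eq_empty_or_nonempty with hJe | hJne
  · left
    intro i z
    have h1 := hwv i z
    rw [hJ' i (by rw [hJe]; exact Finset.notMem_empty i) z z.2.1] at h1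
    have h2 := (mul_eq_zero.1 h1.symm).resolve_left (by omega)
    exact h2
  right
  have hex : ∀ i : J, ∃ (f : ℕ) (ww : Place k (C i)), OverH (C i).val w ww f := by
    intro i
    obtain ⟨z, hz, hz0⟩ := (hJ i).1 i.2
    obtain ⟨f, ww, hww⟩ := exists_over (K := C i) w ⟨⟨z, hz⟩, hz0⟩
    exact ⟨f, ww, hww.1, hww.2⟩
  choose f ww hf using hex
  choose r p hp using fun i : J => exists_overH
    (inclusion (inf_le_left : C i ⊓ fixedField G ≤ C i)) (ww i)
  have hfr : ∀ (i : J) (z : ↥(C i ⊓ fixedField G)), (f i * r i : ℕ) * (p i).ord z =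
      e * v.ord (inclusion (inf_le_right : C i ⊓ fixedField G ≤ fixedField G) z) := by
    intro i z
    rw [← hwv]
    have h1 := (hf i).2 (inclusion (inf_le_left : C i ⊓ fixedField G ≤ C i) z)
    change w.ord (z : M) = _ at h1
    rw [h1, (hp i).2]
    push_cast
    ring
  have hκ : ∀ i : J, ∃ κ : ℕ,
      OverH (inclusion (inf_le_right : C i ⊓ fixedField G ≤ fixedField G)) v (p i) κ ∧
        f i * r i = e * κ := by
    intro i
    let _ : Algebra ↥(C i ⊓ fixedField G) (fixedField G) :=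
      (inclusion (inf_le_right : C i ⊓ fixedField G ≤ fixedField G)).toRingHom.toAlgebra
    have t1 : IsScalarTower k ↥(C i ⊓ fixedField G) (fixedField G) :=
      IsScalarTower.of_algebraMap_eq fun c => rfl
    obtain ⟨t, ht0, ht⟩ := (p i).surj
    obtain ⟨κ, q, hq⟩ := exists_over (K := ↥(C i ⊓ fixedField G)) v ⟨t, by
      intro h0
      change v.ord (inclusion (inf_le_right : C i ⊓ fixedField G ≤ fixedField G) t) = 0 at h0
      have h1 := hfr i t
      rw [h0, ht, mul_one, mul_zero] at h1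
      have h2 := Nat.mul_pos (hf i).1 (hp i).1
      omega⟩
    have hq2 : ∀ z, v.ord (inclusion (inf_le_right : C i ⊓ fixedField G ≤ fixedField G) z) =
        κ * q.ord z := hq.2
    obtain ⟨h1, h2⟩ := ord_uniq (p := p i) (q := q) (a := f i * r i) (b := e * κ)
      (Nat.mul_pos (hf i).1 (hp i).1) (Nat.mul_pos hw.1 hq.1) (fun z => by
        rw [hfr i z, hq2]
        push_cast
        ring)
    refine ⟨κ, ⟨hq.1, fun z => ?_⟩, h1⟩
    rw [h2]
    exact hq2 z
  choose κ hκ1 hκ2 using hκ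
  have hgen := gen_places (δ := δ) B hst T0 hT0
  have h1 := local_ineq G h hgen J (fun i => (C i).val) hst hw (fun σ hσ hin =>
    ⟨σ, hσ, fun i hi => inert_triv hin (fun z hz => hst σ hσ i z hz) (hJ' i hi),
      fun i z z' hz' => hz', dvd_rfl⟩) ww f hf p r hp (fun i => hB i _ _ (hκ1 i))
  have h2 : ∑ i : J, α i * ((r i : ℚ) * (1 - δ i (p i)) * f i) =
      e * ∑ i : J, α i * ((κ i : ℚ) * (1 - δ i (p i))) := by
    rw [Finset.mul_sum]
    refine Finset.sum_congr rfl fun i _ => ?_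
    have h3 : (f i : ℚ) * r i = e * κ i := by exact_mod_cast hκ2 i
    linear_combination α i * (1 - δ i (p i)) * h3
  rw [h2] at h1
  have he : (0 : ℚ) < e := by exact_mod_cast hw.1
  have h3 : ∑ i : J, α i ≤ ∑ i : J, α i * ((κ i : ℚ) * (1 - δ i (p i))) := by
    rw [Finset.sum_coe_sort J (fun i : Fin n => α i)]
    by_contra hcon
    push Not at hcon
    nlinarith
  have h4 : ∃ i : J, (1 : ℚ) ≤ κ i * (1 - δ i (p i)) := by
    by_contra hcon
    push Not at hcon
    have hne : (Finset.univ : Finset J).Nonempty := by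
      obtain ⟨i, hi⟩ := hJne
      exact ⟨⟨i, hi⟩, Finset.mem_univ _⟩
    refine absurd h3 (not_le.2 (Finset.sum_lt_sum_of_nonempty hne fun i _ => ?_))
    have h5 := mul_lt_mul_of_pos_left (hcon i) (hα i)
    rwa [mul_one] at h5
  obtain ⟨i, hi⟩ := h4
  refine ⟨i, p i, κ i, hκ1 i, ?_⟩
  rcases le_total (δ i (p i)) 0 with h0 | h0
  · rw [max_eq_right h0, sub_zero, mul_one]
    exact_mod_cast (hκ1 i).1
  · rw [max_eq_left h0]
    exact hi

/-- **Logarithmic general type.** -/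
theorem log_general_quo (C : Fin n → IntermediateField k M) [hC : ∀ i, IsFF k (C i)]
    (hn : Algebra.trdeg k M = n)
    (hsup : ⨆ i, C i = ⊤) (G : Subgroup (M ≃ₐ[k] M)) [Finite G]
    (hst : ∀ g ∈ G, ∀ i, ∀ z ∈ C i, g z ∈ C i)
    {α : Fin n → ℚ} (hα : ∀ i, 0 < α i)
    {B : ∀ i, Finset (Place k ↥(C i ⊓ fixedField G))}
    {δ : ∀ i, Place k ↥(C i ⊓ fixedField G) → ℚ} (hδ : ∀ i p, δ i p ≤ 1) (h : LAge C G B α δ)
    (T0 : ∀ i, Finset (Place k ↥(C i ⊓ fixedField G))) (hT0 : ∀ i, ∀ q ∉ T0 i, δ i q = 0)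
    (hdeg : ∀ i, (0 : ℚ) < canDeg k ↥(C i ⊓ fixedField G) + ∑ q ∈ T0 i, δ i q)
    {L : Type} [Field L] [Algebra k L] [Algebra (fixedField G) L]
    [IsScalarTower k (fixedField G) L] [FiniteDimensional (fixedField G) L]
    (Bd : Place k L → Prop)
    (hBd : ∀ w : Place k L, ¬ Bd w → ∀ i, ∀ z : ↥(C i ⊓ fixedField G), (∀ p ∉ B i, p.Reg z) →
      w.Reg (algebraMap (fixedField G) L ⟨z, z.2.2⟩)) :
    LogGeneralType k L n Bd := by
  classical
  have hFFB : ∀ i, IsFF k ↥(C i ⊓ fixedField G) := fun i => isFF_quo (C i) G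
    (fun g hg => hst g hg i)
  have halgG := Pool.Agent.W721.PG.EFF2.alg_fixed G
  have hfinG : FiniteDimensional (fixedField G) M := fixed_finite G
  have htG : Algebra.trdeg k (fixedField G) = n :=
    (Pool.Agent.W721.PG.EFF2.exists_basis (fixedField G) n hn).1
  have htL : Algebra.trdeg k L = n := by
    rw [← trdeg_add_eq k (fixedField G) (A := L), htG]
    have h2 : Algebra.trdeg (fixedField G) L = 0 := trdeg_eq_zero
    rw [h2, add_zero]
  have halg : Algebra.IsAlgebraic ↥((⊥ : IntermediateField k M) ⊔ ⨆ i, C i) M := by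
    rw [hsup, sup_top_eq]
    exact ⟨fun z => isAlgebraic_algebraMap (⟨z, trivial⟩ : (⊤ : IntermediateField k M))⟩
  obtain ⟨φ, hφ⟩ : ∃ φ : ∀ i, ↥(C i ⊓ fixedField G) →ₐ[k] L, φ = fun i =>
      (IsScalarTower.toAlgHom k (fixedField G) L).comp
        (inclusion (inf_le_right : C i ⊓ fixedField G ≤ fixedField G)) := ⟨_, rfl⟩
  refine log_general φ htL ?_ (fun i p => max (δ i p) 0) (fun i p => ⟨le_max_right _ _,
    max_le (hδ i p) zero_le_one⟩) T0 (fun i q hq => by
      beta_reduce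
      rw [hT0 i q hq, max_self]) (fun i => ?_) Bd ?_
  · intro x hx
    have ht0 : Algebra.trdeg k (⊥ : IntermediateField k M) = (0 : ℕ) := by
      have h1 : Algebra.trdeg k (⊥ : IntermediateField k M) = 0 := by
        rw [trdeg_eq_zero_iff]
        infer_instance
      rw [h1, Nat.cast_zero]
    have h1 := Pool.Agent.W672.PG.indep_mix (n := n) (d := 0) (A := 0)
      (⊥ : IntermediateField k M) C halg (by rw [hn, Nat.zero_add]) ht0 Fin.elim0
      (by
        have : IsEmpty (Fin 0) := inferInstance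
        exact algebraicIndependent_empty_type) (fun i => ⟨(x i : M), (x i).2.1⟩)
      (fun i => Pool.Agent.W303.PG.trans_sub (C i) (x i).2.1 (transcendental_map' (hx i)))
    have h2 := h1.comp Sum.inr Sum.inr_injective
    have h3 : AlgebraicIndependent k (fun i =>
        inclusion (inf_le_right : C i ⊓ fixedField G ≤ fixedField G) (x i)) := by
      refine AlgebraicIndependent.of_comp (fixedField G).val ?_
      exact h2
    have h4 := h3.map' (f := IsScalarTower.toAlgHom k (fixedField G) L)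
      (algebraMap (fixedField G) L).injective
    rw [hφ]
    exact h4
  · refine lt_of_lt_of_le (hdeg i) ?_
    have h1 : ∑ q ∈ T0 i, δ i q ≤ ∑ q ∈ T0 i, max (δ i q) 0 :=
      Finset.sum_le_sum fun q _ => le_max_left _ _
    linarith
  · intro w hw
    obtain ⟨e, v, hv⟩ := Pool.Agent.W73.PG.PULL.exists_over' (K := fixedField G) w
    have hord : ∀ i z, w.ord (φ i z) = e * v.ord
        (inclusion (inf_le_right : C i ⊓ fixedField G ≤ fixedField G) z) := by
      intro i z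
      rw [hφ]
      exact hv.2 _
    have he : (1 : ℤ) ≤ e := by exact_mod_cast hv.1
    rcases place_crit C G hst hα h T0 hT0 v (fun i p e' hp hpB => by
      obtain ⟨z, hz1, hz2⟩ := exists_pole_at p
      have h1 := hBd w hw i z (fun q hq => hz2 q (by
        rintro rfl
        exact hq hpB))
      have h2 := hord i z
      rw [hp.2] at h2
      have h3 : φ i z ≠ 0 := by
        rw [_root_.map_ne_zero]
        rintro rfl
        rw [p.ord_zero] at hz1
        exact lt_irrefl _ hz1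
      have h4 : w.Reg (φ i z) := by
        rw [hφ]
        exact h1
      have h5 := h4.resolve_left h3
      rw [h2] at h5
      have h6 : (1 : ℤ) ≤ e' := by exact_mod_cast hp.1
      have h7 : (e' : ℤ) * p.ord z < 0 := mul_neg_of_pos_of_neg (by omega) hz1
      nlinarith) with h1 | ⟨i, p, e', h1, h2⟩
    · left
      intro i z
      rw [hord, h1 i z, mul_zero]
    · right
      refine ⟨i, p, e * e', ⟨Nat.mul_pos hv.1 h1.1, fun z => ?_⟩, ?_⟩
      · rw [hord, h1.2]
        push_cast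
        ring
      · have h3 : (0 : ℚ) ≤ e' * (1 - max (δ i p) 0) := zero_le_one.trans h2
        have h4 : (1 : ℚ) ≤ e := by exact_mod_cast hv.1
        push_cast
        rw [mul_assoc]
        nlinarith

end

end Pool.Agent.K4H25.LG

end
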