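import Pool.Agent.K4H25.MG.F
import Pool.Agent.K4H25.PC.Plc
import Pool.Agent.K4H65.DM.Ent
import Pool.Agent.W602.NC.Wr
import Pool.Agent.W602.TL.Contra
import Pool.Agent.W602.TL.Geo

section

/-!
Pluricanonical forms on a curve and logarithmic derivatives: algebraic preparations.
-/

set_option autoImplicit false
set_option linter.overlappingInstances false
set_option linter.unusedSectionVars false
set_option linter.unusedVariables false
set_option maxHeartbeats 4000000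
set_option synthInstance.maxHeartbeats 400000

open FF IntermediateField Pool.Agent.W619.PQ Pool.Agent.W619.PL
  Pool.Agent.W619.TW Pool.Agent.W603.LV Pool.Agent.K4H25.GQ Pool.Agent.K4H25.GW
  Pool.Agent.K4H25.HY Pool.Agent.W619.X Pool.Agent.W619.Y

namespace Pool.Agent.K4H25.EN

section

variable {k : Type} [Field k] [CharZero k] [IsAlgClosed k] {B : Type} [Field B] [Algebra k B]
  [IsFF k B]

/-- Functions which do not vanish simultaneously at any place generate the unit ideal. -/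
theorem cert {r : ℕ} (w : Fin r → B) (h : ∀ P : Place k B, ∃ j, w j ≠ 0 ∧ P.ord (w j) ≤ 0) :
    ∃ A : Fin r → MvPolynomial (Fin r) k, ∑ j, MvPolynomial.aeval w (A j) * w j = 1 := by
  classical
  by_cases hx : ∃ x, Transcendental k (w x)
  · obtain ⟨x, hx⟩ := hx
    let A0 : Subring B := (Algebra.adjoin k (Set.range w)).toSubring
    have hmem : ∀ j, w j ∈ A0 := fun j => Algebra.subset_adjoin ⟨j, rfl⟩
    let v : Fin r → A0 := fun j => ⟨w j, hmem j⟩
    have hI : Ideal.span (Set.range v) = ⊤ := by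
      by_contra hI
      obtain ⟨P, hP⟩ := Pool.Agent.K4H25.PC.exists_place_ideal A0
        (fun c => (Algebra.adjoin k (Set.range w)).algebraMap_mem c) _ hI (x := v x)
        (Ideal.subset_span ⟨x, rfl⟩) hx
      obtain ⟨j, hj0, hj⟩ := h P
      rcases hP (v j) (Ideal.subset_span ⟨j, rfl⟩) with h1 | h1
      · exact hj0 h1
      · change 1 ≤ P.ord (w j) at h1
        omega
    have h1 : (1 : A0) ∈ Ideal.span (Set.range v) := by
      rw [hI]
      trivial
    obtain ⟨c, hc⟩ := Ideal.mem_span_range_iff_exists_fun.1 h1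
    have hA : ∀ j, ∃ A : MvPolynomial (Fin r) k, MvPolynomial.aeval w A = (c j : B) := by
      intro j
      have h2 : (c j : B) ∈ Algebra.adjoin k (Set.range w) := (c j).2
      rw [Algebra.adjoin_range_eq_range_aeval] at h2
      exact h2
    choose A hA using hA
    refine ⟨A, ?_⟩
    have h2 : ((∑ j, c j * v j : A0) : B) = 1 := congrArg (fun z : A0 => (z : B)) hc
    rw [AddSubmonoidClass.coe_finset_sum] at h2
    refine Eq.trans ?_ h2
    refine Finset.sum_congr rfl fun j _ => ?_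
    rw [hA]
    rfl
  · push Not at hx
    have hne : Nonempty (Place k B) := by
      have := infinite_place (k := k) (A := B)
      exact inferInstance
    obtain ⟨P⟩ := hne
    obtain ⟨j, hj0, -⟩ := h P
    have halg : IsAlgebraic k (w j) := by
      by_contra hcon
      exact hx j hcon
    obtain ⟨c, hc⟩ := minpoly.mem_range_of_degree_eq_one k (w j)
      (IsAlgClosed.degree_eq_one_of_irreducible k (minpoly.irreducible halg.isIntegral))
    have hc0 : c ≠ 0 := by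
      rintro rfl
      rw [map_zero] at hc
      exact hj0 hc.symm
    refine ⟨fun i => if i = j then MvPolynomial.C c⁻¹ else 0, ?_⟩
    rw [Finset.sum_eq_single j]
    · beta_reduce
      rw [if_pos rfl, MvPolynomial.aeval_C, ← hc, ← map_mul, inv_mul_cancel₀ hc0, map_one]
    · intro i _ hi
      beta_reduce
      rw [if_neg hi, map_zero, zero_mul]
    · intro hj
      exact absurd (Finset.mem_univ j) hj

/-- Functions with logarithmic derivatives without common zeros. -/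
theorem exists_family (D0 : Derivation k B B) (hD0 : D0 ≠ 0) (T : Finset (Place k B)) :
    ∃ (r : ℕ) (y : Fin (r + 1) → B), y 0 = 1 ∧ (∀ j, y j ≠ 0) ∧ (∃ j, Transcendental k (y j)) ∧
      ∀ P, ∃ j, D0 (y j) ≠ 0 ∧ P.ord (D0 (y j) / y j) ≤ vo P D0 ∧
        (P ∈ T → P.ord (D0 (y j) / y j) ≤ vo P D0 - 1) := by
  classical
  obtain ⟨t, ht⟩ := IsFF.exists_transcendental (k := k) (K := B)
  have ht0 : t ≠ 0 := by
    rintro rfl
    exact ht isAlgebraic_zero
  have hDt : D0 t ≠ 0 := der_ne_zero hD0 ht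
  obtain ⟨F, hF⟩ : ∃ F : Finset (Place k B), F = T ∪ ((finite_support (k := k) (D0 t)).toFinset ∪
    ((vo_finite hD0).toFinset ∪ (finite_support (k := k) t).toFinset)) := ⟨_, rfl⟩
  choose π hπ0 hπ using fun P : Place k B => P.surj
  obtain ⟨Y, hY⟩ : ∃ Y : Finset B, Y = insert t (F.image π) := ⟨_, rfl⟩
  have hYne : ∀ z ∈ Y, z ≠ 0 := by
    intro z hz
    rw [hY, Finset.mem_insert, Finset.mem_image] at hz
    rcases hz with rfl | ⟨P, -, rfl⟩
    · exact ht0
    · exact hπ0 P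
  obtain ⟨y, hy0, hyS⟩ : ∃ y : Fin (Y.card + 1) → B, y 0 = 1 ∧
      ∀ j : Fin Y.card, y j.succ = (Y.equivFin.symm j : B) :=
    ⟨Fin.cons 1 fun j => (Y.equivFin.symm j : B), rfl, fun j => rfl⟩
  have hyY : ∀ z ∈ Y, ∃ j, y j = z := by
    intro z hz
    refine ⟨(Y.equivFin ⟨z, hz⟩).succ, ?_⟩
    rw [hyS, Equiv.symm_apply_apply]
  refine ⟨Y.card, y, hy0, ?_, ?_, ?_⟩
  · intro j
    refine Fin.cases ?_ (fun j => ?_) j
    · rw [hy0]
      exact one_ne_zero
    · rw [hyS]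
      exact hYne _ (Y.equivFin.symm j).2
  · obtain ⟨j, hj⟩ := hyY t (by rw [hY]; exact Finset.mem_insert_self _ _)
    exact ⟨j, by rw [hj]; exact ht⟩
  · intro P
    by_cases hP : P ∈ F
    · obtain ⟨j, hj⟩ := hyY (π P) (by
        rw [hY]
        exact Finset.mem_insert_of_mem (Finset.mem_image_of_mem _ hP))
      have h1 : P.ord (D0 (π P)) = vo P D0 := vo_eq P (hπ P) hD0
      have h2 : D0 (π P) ≠ 0 := der_ne_zero hD0 (trans_of_ord P (by rw [hπ]; exact one_ne_zero))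
      have h3 : P.ord (D0 (π P) / π P) = vo P D0 - 1 := by
        rw [P.ord_div h2 (hπ0 P), h1, hπ]
      refine ⟨j, by rw [hj]; exact h2, ?_, fun _ => ?_⟩
      · rw [hj, h3]
        omega
      · rw [hj, h3]
    · rw [hF] at hP
      simp only [Finset.mem_union, Set.Finite.mem_toFinset, not_or] at hP
      obtain ⟨hPT, hP1, hP2, hP3⟩ := hP
      have e1 : P.ord (D0 t) = 0 := by
        by_contra hcon
        exact hP1 hcon
      have e2 : vo P D0 = 0 := by
        by_contra hcon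
        exact hP2 hcon
      have e3 : P.ord t = 0 := by
        by_contra hcon
        exact hP3 hcon
      obtain ⟨j, hj⟩ := hyY t (by rw [hY]; exact Finset.mem_insert_self _ _)
      refine ⟨j, by rw [hj]; exact hDt, ?_, fun h => absurd h hPT⟩
      rw [hj, P.ord_div hDt ht0, e1, e2, e3]
      norm_num

/-- Pluricanonical forms with many zeros. -/
theorem exists_form (D0 : Derivation k B B) (hD0 : D0 ≠ 0) (δ : Place k B → ℚ)
    (T : Finset (Place k B)) (hT : ∀ q ∉ T, δ q = 0)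
    (hdeg : (0 : ℚ) < canDeg k B + ∑ q ∈ T, δ q) {r : ℕ} (y : Fin (r + 1) → B)
    (hy : ∀ j, y j ≠ 0) :
    ∃ m0 : ℕ, 1 ≤ m0 ∧ ∀ q : ℕ, 1 ≤ q → ∃ c : B, c ≠ 0 ∧ ∀ P l,
      ((q * m0 : ℕ) : ℚ) * (vo P D0 - δ P) ≤ P.ord (c * y l) := by
  classical
  obtain ⟨γ, N', hrr, -⟩ := riemann (k := k) (K := B)
  obtain ⟨m1, hm1, hm⟩ := exists_denom T δ
  choose! z hz using hm
  -- the poles of the functions
  obtain ⟨b, hb⟩ : ∃ b : Place k B → ℤ, b = fun P => ∑ l, |P.ord (y l)| := ⟨_, rfl⟩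
  obtain ⟨F, hF⟩ : ∃ F : Finset (Place k B), ∀ P ∉ F, ∀ l, P.ord (y l) = 0 := by
    refine ⟨Finset.univ.biUnion fun l => (finite_support (k := k) (y l)).toFinset, fun P hP l => ?_⟩
    by_contra hcon
    exact hP (Finset.mem_biUnion.2 ⟨l, Finset.mem_univ l,
      (finite_support (k := k) (y l)).mem_toFinset.2 hcon⟩)
  obtain ⟨β, hβ⟩ : ∃ β : ℤ, β = ∑ P ∈ F, b P := ⟨_, rfl⟩
  -- the degree
  obtain ⟨ε, hε⟩ : ∃ ε : ℤ, (m1 : ℚ) * (canDeg k B + ∑ q ∈ T, δ q) = ε := by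
    refine ⟨m1 * canDeg k B + ∑ q ∈ T, z q, ?_⟩
    rw [mul_add, Finset.mul_sum, Finset.sum_congr rfl hz]
    push_cast
    ring
  have hε1 : 1 ≤ ε := by
    have h1 : (0 : ℚ) < m1 := by exact_mod_cast hm1
    have h2 := mul_pos h1 hdeg
    rw [hε] at h2
    exact_mod_cast h2
  obtain ⟨a, ha⟩ : ∃ a : ℕ, γ + β + 1 ≤ a ∧ 1 ≤ a :=
    ⟨(γ + β + 1).toNat + 1, by have := Int.self_le_toNat (γ + β + 1); push_cast; omega, by omega⟩
  refine ⟨a * m1, Nat.mul_pos ha.2 hm1, fun q hq => ?_⟩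
  obtain ⟨m, hmdef⟩ : ∃ m : ℕ, m = q * a := ⟨_, rfl⟩
  obtain ⟨S, hS⟩ : ∃ S : Finset (Place k B), S = (vo_finite hD0).toFinset ∪ (T ∪ F) := ⟨_, rfl⟩
  have hST : T ⊆ S := by
    rw [hS]
    exact Finset.subset_union_left.trans Finset.subset_union_right
  have hSF : F ⊆ S := by
    rw [hS]
    exact Finset.subset_union_right.trans Finset.subset_union_right
  have hSv : ∀ P ∉ S, vo P D0 = 0 := by
    intro P hP
    by_contra hcon
    apply hP
    rw [hS]
    exact Finset.mem_union_left _ ((vo_finite hD0).mem_toFinset.2 hcon)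
  have hb0 : ∀ P ∉ F, b P = 0 := by
    intro P hP
    rw [hb]
    exact Finset.sum_eq_zero fun l _ => by rw [hF P hP l, abs_zero]
  have hsupp : ∀ P, (- ((m * m1 : ℕ) : ℤ) * vo P D0 + (if P ∈ T then m * z P else 0) - b P) ≠ 0 →
      P ∈ S := by
    intro P hP
    by_contra hPS
    apply hP
    rw [hSv P hPS, if_neg (fun h => hPS (hST h)), hb0 P (fun h => hPS (hSF h))]
    ring
  let C : Place k B →₀ ℤ := Finsupp.ofSupportFinite
    (fun P => - ((m * m1 : ℕ) : ℤ) * vo P D0 + (if P ∈ T then m * z P else 0) - b P)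
    (S.finite_toSet.subset fun P hP => hsupp P hP)
  have hCq : ∀ P, C P = - ((m * m1 : ℕ) : ℤ) * vo P D0 + (if P ∈ T then m * z P else 0) - b P :=
    fun P => rfl
  have hdegC : ddeg C = (m * m1 : ℕ) * canDeg k B + ∑ P ∈ T, m * z P - β := by
    unfold ddeg
    rw [Finsupp.sum_of_support_subset (s := S) _ (fun q hq => hsupp q (by
      rw [← hCq]; exact Finsupp.mem_support_iff.1 hq)) _ (by intros; simp)]
    have h1 : ∀ P ∈ S, C P * (P.deg : ℤ) =
        - ((m * m1 : ℕ) : ℤ) * vo P D0 + (if P ∈ T then m * z P else 0) - b P := by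
      intro P _
      rw [deg_one, hCq]; simp
    rw [Finset.sum_congr rfl h1, Finset.sum_sub_distrib, Finset.sum_add_distrib, ← Finset.mul_sum,
      canDeg_finset hD0 S fun P hP => by
        by_contra hcon
        exact hP (hSv P hcon), Finset.sum_ite_mem, Finset.inter_eq_right.2 hST]
    have h2 : ∑ P ∈ S, b P = β := by
      rw [hβ]
      symm
      exact Finset.sum_subset hSF fun P _ hP => hb0 P hP
    rw [h2]
    ring
  have hdeg2 : ddeg C = m * ε - β := by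
    have h1 : ((ddeg C : ℤ) : ℚ) = m * ε - β := by
      rw [hdegC, ← hε]
      push_cast
      rw [Finset.sum_congr rfl (fun P hP => by rw [← hz P hP]), ← Finset.mul_sum, ← Finset.mul_sum]
      ring
    exact_mod_cast h1
  have hell : 1 ≤ ell C := by
    have h1 := hrr C
    have h2 : (m : ℤ) * 1 ≤ m * ε := mul_le_mul_of_nonneg_left hε1 (by positivity)
    have h3 : (a : ℤ) ≤ m := by
      rw [hmdef]
      push_cast
      have : (1 : ℤ) ≤ q := by exact_mod_cast hq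
      nlinarith [ha.2]
    rw [hdeg2] at h1
    have := ha.1
    omega
  obtain ⟨c, hc, hc0⟩ := exists_ne_zero_of_ell_pos (D := C) (by omega)
  refine ⟨c, hc0, fun P l => ?_⟩
  have h1 := (mem_LL.1 hc).resolve_left hc0 P
  rw [hCq] at h1
  rw [P.ord_mul hc0 (hy l)]
  have h2 : -b P ≤ P.ord (y l) := by
    have h3 := Finset.single_le_sum (f := fun l => |P.ord (y l)|) (fun l _ => abs_nonneg _)
      (Finset.mem_univ l)
    have h4 := neg_abs_le (P.ord (y l))
    rw [hb]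
    beta_reduce
    beta_reduce at h3
    linarith
  have h3 : ((m * m1 : ℕ) : ℤ) * vo P D0 - (if P ∈ T then m * z P else 0) ≤
      P.ord c + P.ord (y l) := by linarith
  have h4 : (((m * m1 : ℕ) : ℤ) * vo P D0 - (if P ∈ T then m * z P else 0) : ℤ) =
      (((q * (a * m1) : ℕ) : ℚ) * (vo P D0 - δ P) : ℚ) := by
    by_cases hPT : P ∈ T
    · rw [if_pos hPT, hmdef]
      push_cast
      rw [← hz P hPT]
      ring
    · rw [if_neg hPT, hT P hPT, hmdef]
      push_cast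
      ring
  rw [← h4]
  exact_mod_cast h3

end

end Pool.Agent.K4H25.EN

end

section

/-!
The pull-back of pluricanonical forms by a nonconstant meromorphic map from the plane to a curve.
-/

set_option autoImplicit false
set_option linter.overlappingInstances false
set_option linter.unusedSectionVars false
set_option linter.unusedVariables false
set_option maxHeartbeats 4000000
set_option synthInstance.maxHeartbeats 400000

open FF IntermediateField Filter Topology Pool.Agent.W619.PQ Pool.Agent.W619.PL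
  Pool.Agent.W619.TW Pool.Agent.W603.LV Pool.Agent.K4H25.GQ Pool.Agent.K4H25.GW
  Pool.Agent.K4H25.HY Pool.Agent.TH143.EL Pool.Agent.Y221.AB

namespace Pool.Agent.K4H25.EN

open Pool.Agent.K4H65.DM (plc plc_ord)
open Pool.Agent.Y216 (MDer_const)

theorem exists_overH_of {k : Type} [Field k] {A B : Type} [Field A] [Field B] [Algebra k A]
    [Algebra k B] (φ : A →ₐ[k] B) (w : Place k B) {f : A} (h : w.ord (φ f) ≠ 0) :
    ∃ v e, OverH φ w v e := by
  let _ : Algebra A B := φ.toRingHom.toAlgebra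
  have t1 : IsScalarTower k A B := IsScalarTower.of_algebraMap_eq fun c => (φ.commutes c).symm
  obtain ⟨e, v, hv⟩ := exists_over (K := A) w ⟨f, h⟩
  exact ⟨v, e, hv.1, fun f => hv.2 f⟩

section

variable {B : Type} [Field B] [Algebra ℂ B] [IsFF ℂ B]

theorem plc_zero_iff {x : MK} (hx : x ≠ 0) (z : ℂ) : (plc z).ord x = 0 ↔ Fn x z ≠ 0 := by
  rw [plc_ord, ← odr_zero_iff]
  obtain ⟨a, ha⟩ := WithTop.ne_top_iff_exists.1 (odr_ne_top hx z)
  rw [← ha]
  simp

theorem plc_reg {x : MK} (z : ℂ) : (plc z).Reg x ↔ Reg x z := by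
  rw [reg_iff]
  by_cases hx : x = 0
  · rw [hx, Pool.Agent.K4H65.DM.odr_zero]
    exact ⟨fun _ => le_top, fun _ => Or.inl rfl⟩
  · obtain ⟨a, ha⟩ := WithTop.ne_top_iff_exists.1 (odr_ne_top hx z)
    rw [(plc z).reg_iff hx, plc_ord, ← ha]
    simp

theorem exists_value (κ : B →ₐ[ℂ] MK) (z : ℂ) : ∃ f : B, (plc z).ord (κ f) ≠ 0 := by
  obtain ⟨t, ht⟩ := IsFF.exists_transcendental (k := ℂ) (K := B)
  by_cases h : (plc z).ord (κ t) = 0
  · obtain ⟨c, hc⟩ : ∃ c, c = Fn (κ t) z := ⟨_, rfl⟩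
    have hr : Reg (κ t) z := by
      rw [← plc_reg]
      exact Or.inr h.ge
    have hne : κ (t - algebraMap ℂ B c) ≠ 0 := by
      intro h0
      have h1 := (map_eq_zero κ).1 h0
      rw [sub_eq_zero] at h1
      exact ht (h1 ▸ isAlgebraic_algebraMap c)
    refine ⟨t - algebraMap ℂ B c, fun h1 => ?_⟩
    rw [plc_zero_iff hne] at h1
    apply h1
    have h2 := evO_apply ((⟨κ t, hr⟩ : Oz z) - algebraMap ℂ (Oz z) c)
    rw [map_sub, AlgHom.commutes] at h2
    have h3 : (((⟨κ t, hr⟩ : Oz z) - algebraMap ℂ (Oz z) c : Oz z) : MK) =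
        κ (t - algebraMap ℂ B c) := by
      rw [map_sub, AlgHom.commutes]
      rfl
    rw [h3] at h2
    rw [← h2, evO_apply, hc]
    exact sub_self _
  · exact ⟨t, h⟩

theorem exists_overH_plc (κ : B →ₐ[ℂ] MK) (z : ℂ) : ∃ p e, OverH κ (plc z) p e := by
  obtain ⟨f, hf⟩ := exists_value κ z
  exact exists_overH_of κ _ hf

theorem exists_rho (κ : B →ₐ[ℂ] MK) (D0 : Derivation ℂ B B) (hD0 : D0 ≠ 0) :
    ∃ ρ : MK, ρ ≠ 0 ∧ ∀ b, MDer (κ b) = ρ * κ (D0 b) := by
  let _ : Algebra B MK := κ.toRingHom.toAlgebra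
  have t1 : IsScalarTower ℂ B MK := IsScalarTower.of_algebraMap_eq fun c => (κ.commutes c).symm
  obtain ⟨t, ht⟩ := IsFF.exists_transcendental (k := ℂ) (K := B)
  have hDt : D0 t ≠ 0 := der_ne_zero hD0 ht
  have hκ : κ (D0 t) ≠ 0 := (_root_.map_ne_zero κ).2 hDt
  refine ⟨MDer (κ t) / κ (D0 t), div_ne_zero ?_ hκ, fun b => ?_⟩
  · intro h0
    obtain ⟨c, hc⟩ := MDer_const _ h0
    rw [← κ.commutes] at hc
    have h1 : t = algebraMap ℂ B c := κ.toRingHom.injective hc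
    exact ht (h1 ▸ isAlgebraic_algebraMap c)
  · obtain ⟨r, h1, h2⟩ := ratio' (K := MK) ht b
    have h3 := h1 D0
    have h4 := h2 MDer
    change MDer (κ b) = κ r * MDer (κ t) at h4
    rw [h4, h3, map_mul]
    field_simp

/-- the order of a derivative -/
theorem ord_MDer {x : MK} {z : ℂ} {e : ℕ} (h : (plc z).ord x = e) (he : 1 ≤ e)
    (hx : MDer x ≠ 0) : (e : ℤ) - 1 ≤ (plc z).ord (MDer x) := by
  have hx0 : x ≠ 0 := by
    rintro rfl
    exact hx (map_zero _)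
  have hr : Reg x z := (plc_reg z).1 (Or.inr (by rw [h]; positivity))
  have h1 : odr x z = ((e : ℤ) : WithTop ℤ) := by
    obtain ⟨a, ha⟩ := WithTop.ne_top_iff_exists.1 (odr_ne_top hx0 z)
    rw [plc_ord, ← ha] at h
    rw [← ha, ← h]
    rfl
  have ha : AnalyticAt ℂ (Fn x) z := hr
  have h2 : odr x z = (analyticOrderAt (Fn x) z).map (↑) := ha.meromorphicOrderAt_eq
  have h3 : odr (MDer x) z = (analyticOrderAt (deriv (Fn x)) z).map (↑) := by
    rw [MDer_apply]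
    unfold odr
    rw [meromorphicOrderAt_congr ((Fn_MD hr).filter_mono nhdsWithin_le_nhds)]
    exact ha.deriv.meromorphicOrderAt_eq
  have h4 := Pool.Agent.W602.NC.ord_deriv ha
  obtain ⟨a, ha'⟩ := WithTop.ne_top_iff_exists.1 (odr_ne_top hx z)
  rw [plc_ord, ← ha']
  rw [← ha'] at h3
  rw [h1] at h2
  cases hA : analyticOrderAt (Fn x) z with
  | top => rw [hA] at h2; simp at h2
  | coe n =>
    cases hB : analyticOrderAt (deriv (Fn x)) z with
    | top => rw [hB] at h3; simp at h3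
    | coe n' =>
      rw [hA] at h2 h4
      rw [hB] at h3 h4
      have h5 : (e : ℤ) = n := WithTop.coe_injective h2
      have h6 : a = n' := WithTop.coe_injective h3
      have h7 : n ≤ n' + 1 := by exact_mod_cast h4
      change (e : ℤ) - 1 ≤ a
      omega

theorem ord_rho (κ : B →ₐ[ℂ] MK) {D0 : Derivation ℂ B B} (hD0 : D0 ≠ 0) {ρ : MK} (hρ0 : ρ ≠ 0)
    (hρ : ∀ b, MDer (κ b) = ρ * κ (D0 b)) {z : ℂ} {p : Place ℂ B} {e : ℕ}
    (h : OverH κ (plc z) p e) : (e : ℤ) - 1 - e * vo p D0 ≤ (plc z).ord ρ := by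
  obtain ⟨t, ht0, ht⟩ := p.surj
  have h1 := vo_eq p ht hD0
  have h2 : D0 t ≠ 0 := der_ne_zero hD0 (Pool.Agent.W619.Y.trans_of_ord p (by rw [ht]; exact one_ne_zero))
  have h3 : κ (D0 t) ≠ 0 := (_root_.map_ne_zero κ).2 h2
  have h4 : (plc z).ord (κ t) = e := by rw [h.2, ht, mul_one]
  have h5 : MDer (κ t) ≠ 0 := by
    rw [hρ]
    exact mul_ne_zero hρ0 h3
  have h6 := ord_MDer h4 h.1 h5
  rw [hρ, (plc z).ord_mul hρ0 h3, h.2, h1] at h6
  linarith

theorem lower_bound {r : ℕ} (A : Fin r → MvPolynomial (Fin r) ℂ) : ∃ c0 : ℝ, 0 < c0 ∧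
    ∀ v : Fin r → ℂ, ∑ j, MvPolynomial.eval v (A j) * v j = 1 → ∃ j, c0 ≤ ‖v j‖ := by
  have hc : Continuous fun v : Fin r → ℂ => ∑ j, MvPolynomial.eval v (A j) * v j :=
    continuous_finsetSum _ fun j _ => (MvPolynomial.continuous_eval (A j)).mul (continuous_apply j)
  have h0 : (∑ j, MvPolynomial.eval (0 : Fin r → ℂ) (A j) * (0 : Fin r → ℂ) j) ≠ 1 := by
    simp
  have h1 : ∀ᶠ v in 𝓝 (0 : Fin r → ℂ), ∑ j, MvPolynomial.eval v (A j) * v j ≠ 1 :=
    hc.continuousAt.eventually_ne h0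
  obtain ⟨ε, hε, hb⟩ := Metric.eventually_nhds_iff.1 h1
  refine ⟨ε, hε, fun v hv => ?_⟩
  by_contra hcon
  push Not at hcon
  refine hb (y := v) ?_ hv
  rw [dist_zero_right, pi_norm_lt_iff hε]
  exact hcon

/-- **The pointwise estimate.** -/
theorem point_bound {r : ℕ} (κ : B →ₐ[ℂ] MK) {D0 : Derivation ℂ B B} {ρ : MK}
    (hρ0 : ρ ≠ 0) (hρ : ∀ b, MDer (κ b) = ρ * κ (D0 b)) {y : Fin r → B} (hy : ∀ j, y j ≠ 0)
    {d : B} (hd : d ≠ 0) (m : ℕ)
    (hW : ∀ P : Place ℂ B, ∃ j, D0 (y j) ≠ 0 ∧ P.ord ((D0 (y j) / y j) ^ m / d) ≤ 0) :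
    ∃ C : ℝ, 0 < C ∧ ∀ᶠ z in codiscrete ℂ, ∀ E : ℝ,
      (∀ j, ‖Fn (MDer (κ (y j)) / κ (y j)) z‖ ≤ E) → ‖Fn (κ d * ρ ^ m) z‖ ≤ C * E ^ m := by
  classical
  obtain ⟨A, hA⟩ := cert (fun j => (D0 (y j) / y j) ^ m / d) (fun P => by
    obtain ⟨j, hj, h⟩ := hW P
    exact ⟨j, div_ne_zero (pow_ne_zero _ (div_ne_zero hj (hy j))) hd, h⟩)
  obtain ⟨c0, hc0, hlow⟩ := lower_bound A
  refine ⟨1 / c0, by positivity, ?_⟩
  have e1 : ∀ᶠ z in codiscrete ℂ, ∀ j, Reg (κ ((D0 (y j) / y j) ^ m / d)) z :=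
    eventually_all.2 fun j => mero_an (Fn_mero _)
  have e2 : ∀ᶠ z in codiscrete ℂ, ∀ j, Reg (MDer (κ (y j)) / κ (y j)) z :=
    eventually_all.2 fun j => mero_an (Fn_mero _)
  have e3 : ∀ᶠ z in codiscrete ℂ, Reg (κ d * ρ ^ m) z := mero_an (Fn_mero _)
  filter_upwards [e1, e2, e3] with z h1 h2 h3 E hE
  obtain ⟨W, hWd⟩ : ∃ W : Fin r → Oz z, ∀ j, (W j : MK) = κ ((D0 (y j) / y j) ^ m / d) :=
    ⟨fun j => ⟨_, h1 j⟩, fun j => rfl⟩
  obtain ⟨Y, hYd⟩ : ∃ Y : Fin r → Oz z, ∀ j, (Y j : MK) = MDer (κ (y j)) / κ (y j) :=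
    ⟨fun j => ⟨_, h2 j⟩, fun j => rfl⟩
  obtain ⟨F, hF⟩ : ∃ F : Oz z, (F : MK) = κ d * ρ ^ m := ⟨⟨_, h3⟩, rfl⟩
  have k1 : ∑ j, MvPolynomial.aeval W (A j) * W j = 1 := by
    apply Subtype.ext
    have k2 := congrArg κ hA
    rw [map_sum, map_one] at k2
    have k3 : ((∑ j, MvPolynomial.aeval W (A j) * W j : Oz z) : MK) =
        ∑ j, κ (MvPolynomial.aeval (fun j => (D0 (y j) / y j) ^ m / d) (A j) *
          ((D0 (y j) / y j) ^ m / d)) := by
      rw [AddSubmonoidClass.coe_finsetSum]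
      refine Finset.sum_congr rfl fun j _ => ?_
      rw [map_mul, ← hWd]
      change ((MvPolynomial.aeval W (A j) : Oz z) : MK) * (W j : MK) = _
      congr 1
      have k4 := MvPolynomial.comp_aeval_apply W (Oz z).val (A j)
      have k5 := MvPolynomial.comp_aeval_apply (fun j => (D0 (y j) / y j) ^ m / d) κ (A j)
      rw [k5]
      refine k4.trans ?_
      congr 2
      funext j
      exact hWd j
    rw [k3, k2]
    rfl
  have k2 : ∀ j, W j * F = Y j ^ m := by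
    intro j
    apply Subtype.ext
    change (W j : MK) * (F : MK) = (Y j : MK) ^ m
    rw [hWd, hF, hYd, hρ, map_div₀, map_pow, map_div₀]
    have h4 : κ d ≠ 0 := (_root_.map_ne_zero κ).2 hd
    have h5 : κ (y j) ≠ 0 := (_root_.map_ne_zero κ).2 (hy j)
    have h6 : (κ (D0 (y j)) / κ (y j)) ^ m / κ d * (κ d * ρ ^ m) =
        (κ (D0 (y j)) / κ (y j)) ^ m * ρ ^ m := by
      field_simp
    rw [h6, ← mul_pow]
    congr 1
    ring
  have k3 : ∑ j, MvPolynomial.eval (fun j => evO z (W j)) (A j) * evO z (W j) = 1 := by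
    have k4 := congrArg (evO z) k1
    rw [map_sum, map_one] at k4
    rw [← k4]
    refine Finset.sum_congr rfl fun j _ => ?_
    rw [map_mul, MvPolynomial.comp_aeval_apply, MvPolynomial.aeval_eq_eval]
  obtain ⟨j, hj⟩ := hlow _ k3
  have k4 := congrArg (evO z) (k2 j)
  rw [map_mul, map_pow] at k4
  have k5 := congrArg norm k4
  rw [norm_mul, norm_pow] at k5
  have k6 : ‖evO z (Y j)‖ ≤ E := by
    rw [evO_apply, hYd]
    exact hE j
  have k7 : ‖evO z (Y j)‖ ^ m ≤ E ^ m := pow_le_pow_left₀ (norm_nonneg _) k6 m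
  have k8 : ‖Fn (κ d * ρ ^ m) z‖ = ‖evO z F‖ := by rw [evO_apply, hF]
  rw [k8, one_div, inv_mul_eq_div, le_div_iff₀ hc0]
  calc ‖evO z F‖ * c0 ≤ ‖evO z F‖ * ‖evO z (W j)‖ :=
        mul_le_mul_of_nonneg_left hj (norm_nonneg _)
    _ = ‖evO z (Y j)‖ ^ m := by rw [← k5]; ring
    _ ≤ E ^ m := k7

/-- **The pull-back of the pluricanonical forms.** -/
theorem curve_pull (κ : B →ₐ[ℂ] MK) (δ : Place ℂ B → ℚ) (hδ : ∀ p, δ p ≤ 1)
    (T : Finset (Place ℂ B)) (hT : ∀ q ∉ T, δ q = 0)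
    (hdeg : (0 : ℚ) < canDeg ℂ B + ∑ q ∈ T, δ q) :
    ∃ (r : ℕ) (u : Fin (r + 1) → MK), u 0 = 1 ∧ (∀ j, u j ≠ 0) ∧
      (∃ j, ∀ c : ℂ, u j ≠ algebraMap ℂ MK c) ∧
      ∃ m0 : ℕ, 1 ≤ m0 ∧ ∀ q : ℕ, 1 ≤ q → ∃ h : MK, h ≠ 0 ∧
        (∀ (z : ℂ) (p : Place ℂ B) (e : ℕ), OverH κ (plc z) p e → ∀ l,
          ((q * m0 : ℕ) : ℚ) * (e * (1 - δ p) - 1) ≤ (plc z).ord (h * u l)) ∧
        ∀ l, ∃ C : ℝ, 0 < C ∧ ∀ᶠ z in codiscrete ℂ, ∀ E : ℝ,
          (∀ j, ‖Fn (MDer (u j) / u j) z‖ ≤ E) → ‖Fn (h * u l) z‖ ≤ C * E ^ (q * m0) := by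
  classical
  obtain ⟨D0, hD0⟩ := exists_der (k := ℂ) (K := B)
  obtain ⟨ρ, hρ0, hρ⟩ := exists_rho κ D0 hD0
  obtain ⟨r, y, hy0, hyne, ⟨j1, hj1⟩, hyP⟩ := exists_family D0 hD0 T
  obtain ⟨m0, hm0, hform⟩ := exists_form D0 hD0 δ T hT hdeg y hyne
  refine ⟨r, fun j => κ (y j), by
    beta_reduce
    rw [hy0, map_one], fun j => (_root_.map_ne_zero κ).2 (hyne j),
    ⟨j1, fun c hc => ?_⟩, m0, hm0, fun q hq => ?_⟩
  · rw [← κ.commutes] at hc
    have h1 : y j1 = algebraMap ℂ B c := κ.toRingHom.injective hc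
    exact hj1 (h1 ▸ isAlgebraic_algebraMap c)
  obtain ⟨c, hc0, hc⟩ := hform q hq
  obtain ⟨m, hm⟩ : ∃ m, m = q * m0 := ⟨_, rfl⟩
  rw [← hm] at hc ⊢
  have hκc : κ c ≠ 0 := (_root_.map_ne_zero κ).2 hc0
  have hrel : ∀ l, κ c * ρ ^ m * κ (y l) = κ (c * y l) * ρ ^ m := by
    intro l
    rw [map_mul]
    ring
  refine ⟨κ c * ρ ^ m, mul_ne_zero hκc (pow_ne_zero _ hρ0), ?_, ?_⟩
  · intro z p e hp l
    beta_reduce
    have h1 : κ (c * y l) ≠ 0 := (_root_.map_ne_zero κ).2 (mul_ne_zero hc0 (hyne l))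
    have h2 := hc p l
    have h3 := ord_rho κ hD0 hρ0 hρ hp
    rw [hrel, (plc z).ord_mul h1 (pow_ne_zero _ hρ0), (plc z).ord_pow, hp.2]
    have h4 : ((e : ℤ) : ℚ) - 1 - e * (vo p D0 : ℚ) ≤ (((plc z).ord ρ : ℤ) : ℚ) := by
      exact_mod_cast h3
    have he : (0 : ℚ) ≤ e := Nat.cast_nonneg _
    have hm' : (0 : ℚ) ≤ m := Nat.cast_nonneg _
    have h5 := mul_le_mul_of_nonneg_left h2 he
    have h6 := mul_le_mul_of_nonneg_left h4 hm'
    push_cast at h5 h6 ⊢
    linarith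
  · intro l
    have h1 := point_bound κ hρ0 hρ hyne (mul_ne_zero hc0 (hyne l)) m (fun P => by
      obtain ⟨j, h1, h2, h3⟩ := hyP P
      refine ⟨j, h1, ?_⟩
      rw [P.ord_div (pow_ne_zero _ (div_ne_zero h1 (hyne j))) (mul_ne_zero hc0 (hyne l)),
        P.ord_pow]
      have h4 := hc P l
      have h5 : ((P.ord (D0 (y j) / y j) : ℤ) : ℚ) ≤ vo P D0 - δ P := by
        by_cases hP : P ∈ T
        · have h6 : ((P.ord (D0 (y j) / y j) : ℤ) : ℚ) ≤ vo P D0 - 1 := by exact_mod_cast h3 hP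
          have h7 := hδ P
          linarith
        · rw [hT P hP, sub_zero]
          exact_mod_cast h2
      have h6 := mul_le_mul_of_nonneg_left h5 (Nat.cast_nonneg (α := ℚ) m)
      have h7 : ((m * P.ord (D0 (y j) / y j) - P.ord (c * y l) : ℤ) : ℚ) ≤ 0 := by
        push_cast
        linarith
      exact_mod_cast h7)
    obtain ⟨C, hC, h2⟩ := h1
    refine ⟨C, hC, ?_⟩
    filter_upwards [h2] with z hz E hE
    rw [hrel]
    exact hz E hE

end

end Pool.Agent.K4H25.EN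

end

section

/-!
Meromorphic maps from the plane to products of curves: the logarithmic derivatives.
-/

set_option autoImplicit false
set_option linter.overlappingInstances false
set_option linter.unusedSectionVars false
set_option linter.unusedVariables false
set_option maxHeartbeats 4000000
set_option synthInstance.maxHeartbeats 400000

open FF Filter Topology Metric Pool.Agent.TH143.EL Pool.Agent.Y221.AB

namespace Pool.Agent.K4H25.EN

open Pool.Agent.K4H65.DM (plc plc_ord)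
open Pool.Agent.W602.TL (GoodAt ex ex_diff ex_deriv ex_ne contra circle wr_pair)
open Pool.Agent.W602.NC (sup sup_attained le_sup tau)

theorem Reg_prod {S : Type} (s : Finset S) {x : S → MK} {z : ℂ} (h : ∀ i ∈ s, Reg (x i) z) :
    Reg (∏ i ∈ s, x i) z := by
  have h1 : (∏ i ∈ s, x i) ∈ Oz z := Subalgebra.prod_mem _ fun i hi => mem_Oz.2 (h i hi)
  exact mem_Oz.1 h1

theorem Fn_prod {S : Type} (s : Finset S) {x : S → MK} {z : ℂ} (h : ∀ i, Reg (x i) z) :
    Fn (∏ i ∈ s, x i) z = ∏ i ∈ s, Fn (x i) z := by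
  have h1 := map_prod (evO z) (fun i => (⟨x i, h i⟩ : Oz z)) s
  have h2 : ((∏ i ∈ s, (⟨x i, h i⟩ : Oz z) : Oz z) : MK) = ∏ i ∈ s, x i := by
    rw [SubmonoidClass.coe_finsetProd]
  rw [evO_apply, h2] at h1
  exact h1

theorem Fn_mul_at {x y : MK} {z : ℂ} (hx : Reg x z) (hy : Reg y z) :
    Fn (x * y) z = Fn x z * Fn y z := (Fn_mul hx hy).self_of_nhds

/-- the logarithmic derivative of a quotient -/
theorem Fn_logder {a b u : MK} (ha : a ≠ 0) (hb : b ≠ 0) (hu : u ≠ 0) (hbu : b = u * a)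
    {z : ℂ} (hra : Reg a z) (hrb : Reg b z) (ha0 : Fn a z ≠ 0) (hb0 : Fn b z ≠ 0) :
    Fn (MDer u / u) z = deriv (Fn b) z / Fn b z - deriv (Fn a) z / Fn a z := by
  have h1 : MDer u / u = MDer b * b⁻¹ + algebraMap ℂ MK (-1) * (MDer a * a⁻¹) := by
    have h2 : MDer b = u * MDer a + a * MDer u := by
      rw [hbu, Derivation.leibniz]
      rfl
    rw [h2, hbu, map_neg, map_one]
    field_simp
    ring
  have r1 : Reg (MDer b) z := hrb.MD
  have r2 : Reg (MDer a) z := hra.MD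
  have r3 : Reg b⁻¹ z := hrb.inv hb0
  have r4 : Reg a⁻¹ z := hra.inv ha0
  have r5 : Reg (algebraMap ℂ MK (-1)) z := reg_const _ z
  have e1 : Fn (MDer b) z = deriv (Fn b) z := (Fn_MD hrb).self_of_nhds
  have e2 : Fn (MDer a) z = deriv (Fn a) z := (Fn_MD hra).self_of_nhds
  have e3 : Fn b⁻¹ z = (Fn b z)⁻¹ := (Fn_inv hrb hb0).self_of_nhds
  have e4 : Fn a⁻¹ z = (Fn a z)⁻¹ := (Fn_inv hra ha0).self_of_nhds
  have e5 : Fn (algebraMap ℂ MK (-1)) z = -1 := (Fn_const _ z).self_of_nhds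
  have e6 : Fn (MDer b * b⁻¹ + algebraMap ℂ MK (-1) * (MDer a * a⁻¹)) z =
      Fn (MDer b * b⁻¹) z + Fn (algebraMap ℂ MK (-1) * (MDer a * a⁻¹)) z :=
    (Fn_add (r1.mul r3) (r5.mul (r2.mul r4))).self_of_nhds
  rw [h1, e6, Fn_mul_at r1 r3,
    Fn_mul_at r5 (r2.mul r4), Fn_mul_at r2 r4, e1, e2, e3, e4, e5]
  ring

/-- **No maps with enough ramification.** -/
theorem no_maps {S : Type} [Fintype S] [Nonempty S] (r : S → ℕ) (u : ∀ s, Fin (r s + 1) → MK)
    (h : S → MK) (m : ℕ) (hu0 : ∀ s, u s 0 = 1) (hune : ∀ s j, u s j ≠ 0)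
    (htr : ∃ s j, ∀ c : ℂ, u s j ≠ algebraMap ℂ MK c) (hh : ∀ s, h s ≠ 0)
    (hord : ∀ z, ∀ l : ∀ s, Fin (r s + 1), 0 ≤ ∑ s, (plc z).ord (h s * u s (l s)))
    (hpt : ∀ s l, ∃ C : ℝ, 0 < C ∧ ∀ᶠ z in codiscrete ℂ, ∀ E : ℝ,
      (∀ j, ‖Fn (MDer (u s j) / u s j) z‖ ≤ E) → ‖Fn (h s * u s l) z‖ ≤ C * E ^ m) : False := by
  classical
  choose e U hN using fun s => exists_nrm (u s) (hu0 s)
  -- the products
  obtain ⟨X, hX⟩ : ∃ X : (∀ s, Fin (r s + 1)) → MK, ∀ a, X a = ∏ s, e s * u s (a s) :=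
    ⟨_, fun a => rfl⟩
  have hXne : ∀ a, X a ≠ 0 := fun a => by
    rw [hX]
    exact Finset.prod_ne_zero_iff.2 fun s _ => mul_ne_zero (hN s).ne (hune s _)
  have hXreg : ∀ a z, Reg (X a) z := fun a z => by
    rw [hX]
    exact Reg_prod _ fun s _ => (hN s).reg _ z
  obtain ⟨K, hK⟩ : ∃ K : MK, K = ∏ s, h s / e s := ⟨_, rfl⟩
  have hKne : K ≠ 0 := by
    rw [hK]
    exact Finset.prod_ne_zero_iff.2 fun s _ => div_ne_zero (hh s) (hN s).ne
  have hKX : ∀ a, K * X a = ∏ s, h s * u s (a s) := by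
    intro a
    rw [hK, hX, ← Finset.prod_mul_distrib]
    refine Finset.prod_congr rfl fun s _ => ?_
    have := (hN s).ne
    field_simp
  have hKreg : ∀ z, Reg K z := by
    intro z
    choose a ha using fun s => (hN s).nz z
    have h1 := hord z a
    have h2 : ∀ s, (plc z).ord (e s * u s (a s)) = 0 := by
      intro s
      rw [plc_zero_iff (mul_ne_zero (hN s).ne (hune s _)), ← (hN s).eq]
      exact ha s
    have h3 : ∀ t : Finset S, (plc z).ord (∏ s ∈ t, h s / e s) =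
        ∑ s ∈ t, (plc z).ord (h s * u s (a s)) := by
      intro t
      induction t using Finset.induction_on with
      | empty =>
        rw [Finset.prod_empty, Finset.sum_empty]
        exact Place.ord_one _
      | insert s t hs ih =>
        rw [Finset.prod_insert hs, Finset.sum_insert hs, (plc z).ord_mul
          (div_ne_zero (hh s) (hN s).ne)
          (Finset.prod_ne_zero_iff.2 fun s _ => div_ne_zero (hh s) (hN s).ne), ih]
        congr 1
        have h4 : h s / e s * (e s * u s (a s)) = h s * u s (a s) := by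
          have := (hN s).ne
          field_simp
        rw [← h4, (plc z).ord_mul (div_ne_zero (hh s) (hN s).ne)
          (mul_ne_zero (hN s).ne (hune s _)), h2, add_zero]
    rw [← plc_reg]
    right
    rw [hK, h3]
    exact h1
  -- the indices
  obtain ⟨p, hp⟩ : ∃ p, Fintype.card (∀ s, Fin (r s + 1)) = p + 1 := by
    have h1 : 0 < Fintype.card (∀ s, Fin (r s + 1)) := Fintype.card_pos
    exact ⟨_, (Nat.succ_pred_eq_of_pos h1).symm⟩
  obtain ⟨f, hf⟩ : ∃ f : Fin (p + 1) ≃ (∀ s, Fin (r s + 1)), f 0 = fun s => 0 := by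
    let f0 : Fin (p + 1) ≃ (∀ s, Fin (r s + 1)) := (Fintype.equivFinOfCardEq hp).symm
    exact ⟨f0.trans (Equiv.swap (f0 0) fun s => 0), by
      rw [Equiv.trans_apply, Equiv.swap_apply_left]⟩
  have hXd : ∀ a, Differentiable ℂ (Fn (X a)) := fun a z => (hXreg a z).differentiableAt
  have hKd : Differentiable ℂ (Fn K) := fun z => (hKreg z).differentiableAt
  obtain ⟨b, hb⟩ : ∃ b : ∀ s, Fin (r s + 1) → ∀ s, Fin (r s + 1),
      ∀ s j, b s j = Function.update (fun s => (0 : Fin (r s + 1))) s j := ⟨_, fun s j => rfl⟩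
  have hbX : ∀ s j, X (b s j) = u s j * X (fun s => 0) := by
    intro s j
    rw [hX, hX, hb, ← Finset.mul_prod_erase _ _ (Finset.mem_univ s),
      ← Finset.mul_prod_erase _ (fun s => e s * u s 0) (Finset.mem_univ s),
      Function.update_self, hu0]
    have h1 : ∏ x ∈ Finset.univ.erase s, e x * u x (Function.update (fun s => (0 : Fin (r s + 1))) s j x) =
        ∏ x ∈ Finset.univ.erase s, e x * u x 0 := by
      refine Finset.prod_congr rfl fun x hx => ?_
      rw [Function.update_of_ne (Finset.ne_of_mem_erase hx)]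
    rw [h1]
    ring
  -- the estimate
  choose C hC0 hC using hpt
  obtain ⟨N, hNd⟩ : ∃ N : ℕ, N = ∑ s, (r s + 1) := ⟨_, rfl⟩
  obtain ⟨CC, hCC⟩ : ∃ CC : ℝ, CC = ∑ i, ∏ s, C s (f i s) := ⟨_, rfl⟩
  have hCi : ∀ i, ∏ s, C s (f i s) ≤ CC := by
    intro i
    rw [hCC]
    exact Finset.single_le_sum (f := fun i => ∏ s, C s (f i s))
      (fun i _ => Finset.prod_nonneg fun s _ => (hC0 s _).le) (Finset.mem_univ i)
  have hCC0 : 0 ≤ CC := by
    rw [hCC]
    exact Finset.sum_nonneg fun i _ => Finset.prod_nonneg fun s _ => (hC0 s _).le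
  obtain ⟨s1, j1, hs1⟩ := htr
  refine contra (p := p) (fun i => Fn (X (f i))) (fun i => hXd _)
    (fun i => (Fn_ne_codis (hXne _)).exists) (f.symm (b s1 j1)) ?_ hKd (Fn_ne_codis hKne).exists ?_
  · intro c
    by_contra hcon
    push Not at hcon
    apply hs1 c
    have h1 : X (b s1 j1) = algebraMap ℂ MK c * X (fun s => 0) := by
      rw [← cl_Fn (X (b s1 j1)), ← cl_Fn (algebraMap ℂ MK c * X fun s => 0), cl_eq]
      refine Eventually.of_forall fun z => ?_
      have h2 := hcon z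
      rw [Equiv.apply_symm_apply, hf, sub_eq_zero] at h2
      rw [h2, Fn_mul_at (reg_const c z) (hXreg _ z)]
      congr 1
      exact (Fn_const c z).self_of_nhds.symm
    rw [hbX] at h1
    exact mul_right_cancel₀ (hXne _) h1
  intro z0 hz0 hKz0
  obtain ⟨G, hG⟩ : ∃ G : Fin (p + 1) → ℂ → ℂ, G = fun i z => Fn (X (f i)) (ex z0 z) := ⟨_, rfl⟩
  rw [← hG]
  have hGd : ∀ i, Differentiable ℂ (G i) := fun i => by
    rw [hG]
    exact (hXd _).comp (ex_diff z0)
  obtain ⟨d, hd⟩ : ∃ d : ℕ, d = m * Fintype.card S := ⟨_, rfl⟩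
  obtain ⟨P, hP⟩ : ∃ P : ℂ → ℂ, P = fun z => Fn K (ex z0 z) * ex z0 z ^ d := ⟨_, rfl⟩
  have hPd : Differentiable ℂ P := by
    rw [hP]
    exact (hKd.comp (ex_diff z0)).mul ((ex_diff z0).pow d)
  refine circle (c := 0) (d := d) (κ := 1) one_pos (C := max 1 (CC * (N * Real.exp 1) ^ d))
    (le_max_left _ _) hGd (fun i => by rw [hG]; exact hz0 i) hPd (by
      rw [hP]
      exact mul_ne_zero hKz0 (pow_ne_zero _ (ex_ne _ _))) (fun z => by
      simp only [pow_zero, Finset.prod_const_one]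
      have : analyticOrderAt (fun _ : ℂ => (1 : ℂ)) z = 0 :=
        (analyticAt_const.analyticOrderAt_eq_zero).2 one_ne_zero
      rw [this]
      exact zero_le) ?_
  intro z ε hε hε1 hgood
  simp only [pow_zero, Finset.prod_const_one, mul_one, pow_one]
  obtain ⟨i, hi⟩ := sup_attained G z
  rw [hi]
  -- the logarithmic derivatives
  obtain ⟨Lf, hLf⟩ : ∃ Lf : (Σ s, Fin (r s + 1)) → ℂ → ℂ, ∀ x w, Lf x w =
      deriv (G (f.symm (b x.1 x.2))) w / G (f.symm (b x.1 x.2)) w - deriv (G 0) w / G 0 w :=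
    ⟨_, fun x w => rfl⟩
  have hGz : ∀ i, G i z ≠ 0 := fun i => hgood.1 i z (mem_closedBall_self hε.le)
  have hLc : ∀ x, ContinuousAt (Lf x) z := by
    intro x
    have h1 : Lf x = fun w => deriv (G (f.symm (b x.1 x.2))) w / G (f.symm (b x.1 x.2)) w -
        deriv (G 0) w / G 0 w := funext fun w => hLf x w
    rw [h1]
    exact (((hGd _).deriv.continuous.continuousAt).div (hGd _).continuous.continuousAt
      (hGz _)).sub (((hGd _).deriv.continuous.continuousAt).div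
        (hGd _).continuous.continuousAt (hGz _))
  have hLz : ∀ x, ‖Lf x z‖ ≤ Real.exp 1 * (1 / ε) := by
    intro x
    have h1 := wr_pair (hGd 0) (hGd (f.symm (b x.1 x.2))) hε (hgood.1 0) (hgood.2 0 _)
    have h2 : Lf x z = (G 0 z * deriv (G (f.symm (b x.1 x.2))) z -
        deriv (G 0) z * G (f.symm (b x.1 x.2)) z) / (G 0 z * G (f.symm (b x.1 x.2)) z) := by
      rw [hLf]
      have h3 := hGz 0
      have h4 := hGz (f.symm (b x.1 x.2))
      field_simp
    rw [h2, norm_div, norm_mul, div_le_iff₀ (mul_pos (norm_pos_iff.2 (hGz _))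
      (norm_pos_iff.2 (hGz _)))]
    exact h1
  -- the estimate at the points nearby
  have hev : ∀ᶠ w in 𝓝[≠] z, ‖P w‖ * ‖G i w‖ ≤ CC * (∑ x, ‖Lf x w‖) ^ d := by
    have hex : Tendsto (ex z0) (𝓝[≠] z) (𝓝[≠] (ex z0 z)) :=
      (ex_diff z0 z).hasDerivAt.tendsto_nhdsNE (by rw [ex_deriv]; exact ex_ne _ _)
    have h1 : ∀ᶠ w in 𝓝[≠] z, ∀ s, Reg (h s * u s (f i s)) (ex z0 w) ∧ ∀ E : ℝ,
        (∀ j, ‖Fn (MDer (u s j) / u s j) (ex z0 w)‖ ≤ E) →
          ‖Fn (h s * u s (f i s)) (ex z0 w)‖ ≤ C s (f i s) * E ^ m := by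
      rw [eventually_all]
      intro s
      have h2 : ∀ᶠ ζ in codiscrete ℂ, Reg (h s * u s (f i s)) ζ := mero_an (Fn_mero _)
      exact hex.eventually ((codis_ev h2 _).and (codis_ev (hC s (f i s)) _))
    have h2 : ∀ᶠ w in 𝓝[≠] z, ∀ i, G i w ≠ 0 := by
      rw [eventually_all]
      intro i
      exact ((hGd i).continuous.continuousAt.eventually_ne (hGz i)).filter_mono
        nhdsWithin_le_nhds
    filter_upwards [h1, h2] with w hw hGw
    have hexw : 0 < ‖ex z0 w‖ := norm_pos_iff.2 (ex_ne _ _)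
    obtain ⟨SL, hSL⟩ : ∃ SL : ℝ, SL = ∑ x, ‖Lf x w‖ := ⟨_, rfl⟩
    have hlog : ∀ s j, ‖Fn (MDer (u s j) / u s j) (ex z0 w)‖ ≤ SL / ‖ex z0 w‖ := by
      intro s j
      have h3 : ∀ a, f.symm a = f.symm a := fun a => rfl
      have hG0 : ∀ a w, G (f.symm a) w = Fn (X a) (ex z0 w) := by
        intro a w
        rw [hG]
        beta_reduce
        rw [Equiv.apply_symm_apply]
      have h00 : f.symm (fun s => 0) = 0 := by rw [← hf, Equiv.symm_apply_apply]
      have hG00 : ∀ w, G 0 w = Fn (X fun s => 0) (ex z0 w) := by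
        intro w
        rw [← h00, hG0]
      have hder : ∀ a, deriv (fun w => Fn (X a) (ex z0 w)) w =
          deriv (Fn (X a)) (ex z0 w) * ex z0 w := by
        intro a
        have h5 := ((hXd a (ex z0 w)).hasDerivAt.comp w (ex_diff z0 w).hasDerivAt).deriv
        rw [ex_deriv] at h5
        exact h5
      have h4 := Fn_logder (hXne (fun s => 0)) (hXne (b s j)) (hune s j) (hbX s j)
        (hXreg _ (ex z0 w)) (hXreg _ (ex z0 w)) (by rw [← hG00]; exact hGw 0)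
        (by rw [← hG0]; exact hGw _)
      have h5 : Lf ⟨s, j⟩ w = Fn (MDer (u s j) / u s j) (ex z0 w) * ex z0 w := by
        rw [hLf, h4]
        have e1 : deriv (G (f.symm (b s j))) w = deriv (Fn (X (b s j))) (ex z0 w) * ex z0 w := by
          rw [← hder]
          congr 1
          exact funext fun w => hG0 _ w
        have e2 : deriv (G 0) w = deriv (Fn (X fun s => 0)) (ex z0 w) * ex z0 w := by
          rw [← hder]
          congr 1
          exact funext fun w => hG00 w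
        change deriv (G (f.symm (b s j))) w / G (f.symm (b s j)) w - deriv (G 0) w / G 0 w = _
        rw [e1, e2, hG0, hG00]
        ring
      have h6 : ‖Lf ⟨s, j⟩ w‖ ≤ SL := by
        rw [hSL]
        exact Finset.single_le_sum (f := fun x => ‖Lf x w‖) (fun x _ => norm_nonneg _)
          (Finset.mem_univ _)
      rw [h5, norm_mul] at h6
      rwa [le_div_iff₀ hexw]
    have h7 : ‖Fn K (ex z0 w)‖ * ‖G i w‖ = ∏ s, ‖Fn (h s * u s (f i s)) (ex z0 w)‖ := by
      have h8 : Fn (K * X (f i)) (ex z0 w) = ∏ s, Fn (h s * u s (f i s)) (ex z0 w) := by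
        rw [hKX, Fn_prod _ fun s => (hw s).1]
      rw [Fn_mul_at (hKreg _) (hXreg _ _)] at h8
      rw [← norm_prod, ← h8, norm_mul, hG]
    have h9 : ∏ s, ‖Fn (h s * u s (f i s)) (ex z0 w)‖ ≤
        ∏ s, C s (f i s) * (SL / ‖ex z0 w‖) ^ m :=
      Finset.prod_le_prod (fun s _ => norm_nonneg _) fun s _ => (hw s).2 _ (hlog s)
    have hSLn : 0 ≤ SL := by
      rw [hSL]
      exact Finset.sum_nonneg fun x _ => norm_nonneg _
    have h10 : ∏ s, C s (f i s) * (SL / ‖ex z0 w‖) ^ m =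
        (∏ s, C s (f i s)) * (SL / ‖ex z0 w‖) ^ d := by
      rw [Finset.prod_mul_distrib, Finset.prod_const, Finset.card_univ, ← pow_mul, hd]
    have h11 : ‖P w‖ = ‖Fn K (ex z0 w)‖ * ‖ex z0 w‖ ^ d := by
      rw [hP, norm_mul, norm_pow]
    rw [h10] at h9
    rw [h11, ← hSL]
    calc ‖Fn K (ex z0 w)‖ * ‖ex z0 w‖ ^ d * ‖G i w‖ =
          (‖Fn K (ex z0 w)‖ * ‖G i w‖) * ‖ex z0 w‖ ^ d := by ring
      _ ≤ ((∏ s, C s (f i s)) * (SL / ‖ex z0 w‖) ^ d) * ‖ex z0 w‖ ^ d := by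
          rw [h7]
          exact mul_le_mul_of_nonneg_right h9 (by positivity)
      _ = (∏ s, C s (f i s)) * SL ^ d := by
          rw [div_pow]
          field_simp
      _ ≤ CC * SL ^ d := mul_le_mul_of_nonneg_right (hCi i) (by positivity)
  have hlim : ‖P z‖ * ‖G i z‖ ≤ CC * (∑ x, ‖Lf x z‖) ^ d := by
    have c1 : Tendsto (fun w => ‖P w‖ * ‖G i w‖) (𝓝[≠] z) (𝓝 (‖P z‖ * ‖G i z‖)) :=
      ((hPd.continuous.norm.mul (hGd i).continuous.norm).continuousAt).tendsto.mono_left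
        nhdsWithin_le_nhds
    have c2 : ContinuousAt (fun w => CC * (∑ x, ‖Lf x w‖) ^ d) z :=
      continuousAt_const.mul ((tendsto_finsetSum _ fun x _ => (hLc x).norm).pow d)
    exact le_of_tendsto_of_tendsto c1 (c2.tendsto.mono_left nhdsWithin_le_nhds) hev
  refine hlim.trans ?_
  have h1 : ∑ x, ‖Lf x z‖ ≤ N * (Real.exp 1 * (1 / ε)) := by
    refine (Finset.sum_le_sum fun x _ => hLz x).trans (le_of_eq ?_)
    rw [Finset.sum_const, Finset.card_univ, Fintype.card_sigma, nsmul_eq_mul, hNd]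
    simp
  have h2 : (∑ x, ‖Lf x z‖) ^ d ≤ (N * (Real.exp 1 * (1 / ε))) ^ d :=
    pow_le_pow_left₀ (Finset.sum_nonneg fun x _ => norm_nonneg _) h1 d
  calc CC * (∑ x, ‖Lf x z‖) ^ d ≤ CC * (N * (Real.exp 1 * (1 / ε))) ^ d :=
        mul_le_mul_of_nonneg_left h2 hCC0
    _ = CC * (N * Real.exp 1) ^ d * (1 / ε) ^ d := by
        rw [← mul_assoc (N : ℝ), mul_pow (N * Real.exp 1)]
        ring
    _ ≤ max 1 (CC * (N * Real.exp 1) ^ d) * (1 / ε) ^ d :=
        mul_le_mul_of_nonneg_right (le_max_right _ _) (by positivity)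

end Pool.Agent.K4H25.EN

end

section

/-!
Entire curves in product-quotients.
-/

set_option autoImplicit false
set_option linter.overlappingInstances false
set_option linter.unusedSectionVars false
set_option linter.unusedVariables false
set_option maxHeartbeats 4000000
set_option synthInstance.maxHeartbeats 400000

open FF IntermediateField Filter Topology Pool.Agent.TH466.QG Pool.Agent.W619.PQ
  Pool.Agent.W619.PL Pool.Agent.W619.TW Pool.Agent.W603.LV Pool.Agent.K4H25.GQ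
  Pool.Agent.K4H25.GW Pool.Agent.K4H25.HY
open Pool.Agent.TH143.EL (MK cl MDer)
open Pool.Agent.K4H65.DM (plc plc_ord)

namespace Pool.Agent.K4H25.EN

section

variable {k : Type} [Field k] [CharZero k] [IsAlgClosed k] {M : Type} [Field M] [Algebra k M]
  {n : ℕ}

/-- the weights are at most one -/
theorem le_one {C : Fin n → IntermediateField k M} [hC : ∀ i, IsFF k (C i)]
    {G : Subgroup (M ≃ₐ[k] M)} [Finite G] (hst : ∀ g ∈ G, ∀ i, ∀ z ∈ C i, g z ∈ C i)
    {α : Fin n → ℚ} (hα : ∀ i, 0 < α i)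
    {δ : ∀ i, Place k ↥(C i ⊓ fixedField G) → ℚ} (h : HAge C G α δ)
    (hgen : ∀ i, ∃ w p, LiesOver (inf_le_left : C i ⊓ fixedField G ≤ C i) w p 1 ∧ δ i p = 0)
    (i : Fin n) (p : Place k ↥(C i ⊓ fixedField G)) : δ i p ≤ 1 := by
  classical
  let _ : Algebra ↥(C i ⊓ fixedField G) (C i) :=
    (inclusion (inf_le_left : C i ⊓ fixedField G ≤ C i)).toRingHom.toAlgebra
  have t1 : IsScalarTower k ↥(C i ⊓ fixedField G) (C i) :=
    IsScalarTower.of_algebraMap_eq fun c => rfl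
  have f1 : FiniteDimensional ↥(C i ⊓ fixedField G) (C i) :=
    inf_finite G (C i) (fun g hg => hst g hg i) fun z => rfl
  have f2 : IsFF k ↥(C i ⊓ fixedField G) := isFF_down (E := C i)
  obtain ⟨e, w, hw⟩ := exists_place_over (E := C i) p
  have hl : LiesOver (inf_le_left : C i ⊓ fixedField G ≤ C i) w p e := ⟨hw.1, fun f => hw.2 f⟩
  choose w0 p0 hw0 hδ0 using hgen
  have h1 := h 1 G.one_mem 1 (by
    rw [orderOf_one]
    exact IsPrimitiveRoot.one) (Function.update w0 i w) (Function.update p0 i p)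
    (Function.update (fun _ => 1) i e) (fun _ => 1) (fun j => by
      by_cases hj : j = i
      · subst hj
        rw [Function.update_self, Function.update_self, Function.update_self]
        exact hl
      · rw [Function.update_of_ne hj, Function.update_of_ne hj, Function.update_of_ne hj]
        exact hw0 j) (fun _ => one_pos) (fun j t z _ hz => by
      left
      rw [pow_one, map_one, one_mul, sub_eq_zero]
      exact Subtype.ext hz.symm)
  rw [orderOf_one, ← Finset.add_sum_erase _ _ (Finset.mem_univ i),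
    ← Finset.add_sum_erase _ (fun j => α j * (((Function.update (fun _ => 1) i e : Fin n → ℕ) j : ℚ) *
      (1 - δ j (Function.update p0 i p j)) * ((1 : ℕ) : ℚ))) (Finset.mem_univ i)] at h1
  rw [Function.update_self, Function.update_self] at h1
  have h4 : ∑ x ∈ Finset.univ.erase i, α x * (((Function.update (fun _ => 1) i e : Fin n → ℕ) x : ℚ) *
      (1 - δ x (Function.update p0 i p x)) * ((1 : ℕ) : ℚ)) = ∑ x ∈ Finset.univ.erase i, α x := by
    refine Finset.sum_congr rfl fun x hx => ?_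
    have hxi := Finset.ne_of_mem_erase hx
    rw [Function.update_of_ne hxi, Function.update_of_ne hxi, hδ0]
    norm_num
  rw [h4] at h1
  push_cast at h1
  rw [mul_one, mul_one] at h1
  have h2 : 1 ≤ (e : ℚ) * (1 - δ i p) := by
    have h3 := hα i
    by_contra hcon
    push Not at hcon
    nlinarith
  have h3 : (0 : ℚ) < e := by exact_mod_cast hw.1
  by_contra hcon
  push Not at hcon
  nlinarith

end

section

variable {M : Type} [Field M] [Algebra ℂ M] {n : ℕ}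

/-- The criterion at the points of the plane. -/
theorem plane_ineq {N : Type} [Field N] [Algebra ℂ N] (Γ : Subgroup (N ≃ₐ[ℂ] N)) [Finite Γ]
    {C : Fin n → IntermediateField ℂ M} [hC : ∀ i, IsFF ℂ (C i)]
    {G : Subgroup (M ≃ₐ[ℂ] M)} [Finite G]
    {α : Fin n → ℚ} {δ : ∀ i, Place ℂ ↥(C i ⊓ fixedField G) → ℚ} (h : HAge C G α δ)
    (hst : ∀ g ∈ G, ∀ i, ∀ z ∈ C i, g z ∈ C i)
    (hgen : ∀ i, ∃ w p, LiesOver (inf_le_left : C i ⊓ fixedField G ≤ C i) w p 1 ∧ δ i p = 0)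
    (I : Finset (Fin n)) (ι : ∀ i : I, C i →ₐ[ℂ] N)
    (hσ : ∀ σ ∈ Γ, ∃ g ∈ G, (∀ i ∉ I, ∀ z ∈ C i, g z = z) ∧
      (∀ (i : I) (z z' : C i), (z' : M) = g z → ι i z' = σ (ι i z)) ∧ orderOf g ∣ orderOf σ)
    (θ : MK ≃ₐ[ℂ] fixedField Γ) (κ : ∀ i : I, ↥(C i ⊓ fixedField G) →ₐ[ℂ] MK)
    (hκ : ∀ (i : I) (b : ↥(C i ⊓ fixedField G)), ((θ (κ i b) : fixedField Γ) : N) =
      ι i (inclusion (inf_le_left : C i ⊓ fixedField G ≤ C i) b))
    (z : ℂ) (pz : ∀ i : I, Place ℂ ↥(C i ⊓ fixedField G)) (kz : I → ℕ)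
    (hz : ∀ i, OverH (κ i) (plc z) (pz i) (kz i)) :
    ∑ i ∈ I, α i ≤ ∑ i : I, α i * ((kz i : ℚ) * (1 - δ i (pz i))) := by
  classical
  have hFFB : ∀ i, IsFF ℂ ↥(C i ⊓ fixedField G) := fun i => isFF_quo (C i) G
    (fun g hg => hst g hg i)
  have hfd : FiniteDimensional (fixedField Γ) N := fixed_finite Γ
  obtain ⟨v, hv⟩ : ∃ v : Place ℂ (fixedField Γ), v = pullP θ.symm (plc z) := ⟨_, rfl⟩
  obtain ⟨e, w, hw⟩ : ∃ (e : ℕ) (w : Place ℂ N), Over w v e := by
    obtain ⟨S, T, -, hT, hsum⟩ := exists_places_over (K' := N) v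
    have hpos : 0 < Module.finrank (fixedField Γ) N := Module.finrank_pos
    obtain ⟨w, hw⟩ : S.Nonempty := by
      rw [Finset.nonempty_iff_ne_empty]
      rintro rfl
      rw [Finset.sum_empty] at hsum
      omega
    obtain ⟨e, h, -⟩ := hT w hw
    exact ⟨e, w, h⟩
  have hwo : ∀ (i : I) (b : ↥(C i ⊓ fixedField G)),
      w.ord (ι i (inclusion (inf_le_left : C i ⊓ fixedField G ≤ C i) b)) =
        e * (plc z).ord (κ i b) := by
    intro i b
    rw [← hκ]
    have h1 := hw.2 (θ (κ i b))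
    change w.ord ((θ (κ i b) : fixedField Γ) : N) = _ at h1
    rw [h1, hv, pullP_ord, AlgEquiv.symm_apply_apply]
  have he : (1 : ℤ) ≤ e := by exact_mod_cast hw.1
  have hexw : ∀ i : I, ∃ v e, OverH (ι i) w v e := by
    intro i
    obtain ⟨b, hb⟩ := exists_value (κ i) z
    exact exists_overH_of (ι i) w
      (f := inclusion (inf_le_left : C i ⊓ fixedField G ≤ C i) b) (by
        rw [hwo]
        exact mul_ne_zero (by omega) hb)
  choose ww f hf using hexw
  choose r p hp using fun i : I => exists_overH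
    (inclusion (inf_le_left : C i ⊓ fixedField G ≤ C i)) (ww i)
  have h3 := local_ineq Γ h hgen I ι hσ hst hw ww f hf p r hp
  have h4 : ∀ i, f i * r i = e * kz i ∧ p i = pz i := by
    intro i
    refine ord_uniq (Nat.mul_pos (hf i).1 (hp i).1) (Nat.mul_pos hw.1 (hz i).1) fun b => ?_
    have h5 := (hf i).2 (inclusion (inf_le_left : C i ⊓ fixedField G ≤ C i) b)
    rw [hwo, (hp i).2, (hz i).2] at h5
    push_cast
    linarith
  have h5 : ∑ i : I, α i * ((r i : ℚ) * (1 - δ i (p i)) * f i) =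
      e * ∑ i : I, α i * ((kz i : ℚ) * (1 - δ i (pz i))) := by
    rw [Finset.mul_sum]
    refine Finset.sum_congr rfl fun i _ => ?_
    obtain ⟨h6, h7⟩ := h4 i
    rw [h7]
    have h8 : (f i : ℚ) * r i = e * kz i := by exact_mod_cast h6
    linear_combination α i * (1 - δ i (pz i)) * h8
  rw [h5] at h3
  have he : (0 : ℚ) < e := by exact_mod_cast hw.1
  by_contra hcon
  push Not at hcon
  nlinarith

/-- **The specializations over the meromorphic functions are constant on the curves.** -/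
theorem curve_const (C : Fin n → IntermediateField ℂ M) [hC : ∀ i, IsFF ℂ (C i)]
    (hsup : ⨆ i, C i = ⊤) (G : Subgroup (M ≃ₐ[ℂ] M)) [Finite G]
    (hst : ∀ g ∈ G, ∀ i, ∀ z ∈ C i, g z ∈ C i)
    {α : Fin n → ℚ} (hα : ∀ i, 0 < α i)
    {δ : ∀ i, Place ℂ ↥(C i ⊓ fixedField G) → ℚ} (h : HAge C G α δ)
    (T0 : ∀ i, Finset (Place ℂ ↥(C i ⊓ fixedField G))) (hT0 : ∀ i, ∀ q ∉ T0 i, δ i q = 0)
    (hdeg : ∀ i, (0 : ℚ) < canDeg ℂ ↥(C i ⊓ fixedField G) + ∑ q ∈ T0 i, δ i q)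
    (Y : ∀ i, Finset (C i))
    (hY : ∀ i, IntermediateField.adjoin ℂ ((fun z : C i => (z : M)) '' (Y i : Set (C i))) = C i) :
    ∃ (Θ0 Θ1 : Set M), Θ0.Finite ∧ Θ1.Finite ∧ (∀ z ∈ Θ0, z ∈ fixedField G) ∧
      (∀ i, ∀ y ∈ Y i, (y : M) ∈ Θ1) ∧
      ∀ (N : Type) [Field N] [Algebra ℂ N] (Γ : Subgroup (N ≃ₐ[ℂ] N)) [Finite Γ]
        (θ : MK ≃ₐ[ℂ] fixedField Γ) (S : Sp ℂ M N),
        (∀ ϑ ∈ Θ0, ∃ t ∈ fixedField Γ, S.T ϑ t) → (∀ ϑ ∈ Θ1, ∃ t, S.T ϑ t) →
        ∀ i, ∀ y ∈ Y i, ∀ y', S.T (y : M) y' → IsAlgebraic ℂ y' := by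
  classical
  have iG := Fintype.ofFinite G
  have hFFB : ∀ i, IsFF ℂ ↥(C i ⊓ fixedField G) := fun i => isFF_quo (C i) G
    (fun g hg => hst g hg i)
  -- the orbits of the generators
  obtain ⟨Z, hZ⟩ : ∃ Z : Set M, Z = ⋃ i, ⋃ g : G,
      (fun z : C i => (g : M ≃ₐ[ℂ] M) (z : M)) '' (Y i : Set (C i)) := ⟨_, rfl⟩
  have hZfin : Z.Finite := by
    rw [hZ]
    exact Set.finite_iUnion fun i => Set.finite_iUnion fun g => (Finset.finite_toSet _).image _
  have hZmem : ∀ i, ∀ y ∈ Y i, ∀ g ∈ G, g (y : M) ∈ Z := by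
    intro i y hy g hg
    rw [hZ]
    exact Set.mem_iUnion.2 ⟨i, Set.mem_iUnion.2 ⟨⟨g, hg⟩, y, hy, rfl⟩⟩
  have hZst : ∀ z ∈ Z, ∀ g ∈ G, g z ∈ Z := by
    intro z hz g hg
    rw [hZ] at hz
    obtain ⟨i, hz⟩ := Set.mem_iUnion.1 hz
    obtain ⟨g', hz⟩ := Set.mem_iUnion.1 hz
    obtain ⟨y, hy, rfl⟩ := hz
    exact hZmem i y hy (g * g') (G.mul_mem hg g'.2)
  have hYZ : ∀ i, ∀ y ∈ Y i, (y : M) ∈ Z := fun i y hy => hZmem i y hy 1 G.one_mem
  obtain ⟨Θ0, Θ1, h0fin, h1fin, h0G, hgal⟩ := galois_spec (k := ℂ) G hZfin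
  obtain ⟨Θ2, hΘ2⟩ : ∃ Θ2 : Set M, Θ2 = ⋃ g : G, (fun z : M => ((g : M ≃ₐ[ℂ] M) z - z)⁻¹) '' Z :=
    ⟨_, rfl⟩
  have h2fin : Θ2.Finite := by
    rw [hΘ2]
    exact Set.finite_iUnion fun g => hZfin.image _
  have h2mem : ∀ z ∈ Z, ∀ g ∈ G, (g z - z)⁻¹ ∈ Θ2 := by
    intro z hz g hg
    rw [hΘ2]
    exact Set.mem_iUnion.2 ⟨⟨g, hg⟩, z, hz, rfl⟩
  refine ⟨Θ0, Θ1 ∪ (Θ2 ∪ Z), h0fin, h1fin.union (h2fin.union hZfin), h0G,
    fun i y hy => Or.inr (Or.inr (hYZ i y hy)), ?_⟩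
  intro N _ _ Γ _ θ S hS0 hS1
  have hfdN : FiniteDimensional (fixedField Γ) N := fixed_finite Γ
  have hZS : ∀ z ∈ Z, ∃ t, S.T z t := fun z hz => hS1 z (Or.inr (Or.inr hz))
  have hback : ∀ z ∈ Z, ∀ g ∈ G, ∀ z' : N, S.T (g z) z' → S.T z z' → g z = z := by
    intro z hz g hg z' h1 h2
    have h3 := S.sub h1 h2
    rw [sub_self] at h3
    exact sub_eq_zero.1 (S.back h3 (hS1 _ (Or.inr (Or.inl (h2mem z hz g hg)))) rfl)
  have hact : ∀ σ ∈ Γ, ∃ g ∈ G, ∀ y ∈ Z, ∀ y', S.T y y' → S.T (g y) (σ y') := by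
    intro σ hσ
    refine hgal N S σ (fun ϑ hϑ => ?_) (fun ϑ hϑ => hS1 ϑ (Or.inl hϑ))
    obtain ⟨t, ht, hst⟩ := hS0 ϑ hϑ
    exact ⟨t, hst, ht ⟨σ, hσ⟩⟩
  -- the curves on which the specialization is not constant
  obtain ⟨I, hI⟩ : ∃ I : Finset (Fin n), ∀ i, i ∈ I ↔
      ∃ y ∈ Y i, ∃ y', S.T (y : M) y' ∧ Transcendental ℂ y' :=
    ⟨Finset.univ.filter fun i => ∃ y ∈ Y i, ∃ y', S.T (y : M) y' ∧ Transcendental ℂ y',
      fun i => by simp⟩
  have halg : ∀ i ∉ I, ∀ y ∈ Y i, ∀ y', S.T (y : M) y' → IsAlgebraic ℂ y' := by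
    intro i hi y hy y' hyy'
    by_contra hcon
    exact hi ((hI i).2 ⟨y, hy, y', hyy', hcon⟩)
  have hex : ∀ i : I, ∃ ι : C i →ₐ[ℂ] N, ∀ (z : C i) (z' : N), S.T (z : M) z' → ι z = z' := by
    intro i
    obtain ⟨y, hy, y', hyy', htr⟩ := (hI i).1 i.2
    refine exists_embed S (C i) (hY i) ?_ y.2 hyy' htr
    rintro _ ⟨z, hz, rfl⟩
    exact hZS _ (hYZ i z hz)
  choose ι hι using hex
  have hσ : ∀ σ ∈ Γ, ∃ g ∈ G, (∀ i ∉ I, ∀ z ∈ C i, g z = z) ∧
      (∀ (i : I) (z z' : C i), (z' : M) = g z → ι i z' = σ (ι i z)) ∧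
        orderOf g ∣ orderOf σ := by
    intro σ hσΓ
    obtain ⟨g, hg, hgS⟩ := hact σ hσΓ
    refine ⟨g, hg, ?_, ?_, ?_⟩
    · intro i hi
      refine fix_adjoin (hY i) ?_
      rintro _ ⟨y, hy, rfl⟩
      obtain ⟨y', hy'⟩ := hZS _ (hYZ i y hy)
      have h1 := halg i hi y hy y' hy'
      obtain ⟨c, rfl⟩ := minpoly.mem_range_of_degree_eq_one ℂ y'
        (IsAlgClosed.degree_eq_one_of_irreducible ℂ (minpoly.irreducible h1.isIntegral))
      have h2 := hgS _ (hYZ i y hy) _ hy'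
      rw [AlgEquiv.commutes] at h2
      exact hback _ (hYZ i y hy) g hg _ h2 hy'
    · intro i z z' hz'
      have h1 : (ι i).comp ((rho G (C i) (fun g hg => hst g hg i) ⟨g, hg⟩ :
          C i ≃ₐ[ℂ] C i) : C i →ₐ[ℂ] C i) = (σ : N →ₐ[ℂ] N).comp (ι i) := by
        refine algHom_ext_of_eq_adjoin ℂ (hY i).symm ?_
        rintro _ ⟨y, hy, rfl⟩
        obtain ⟨y', hy'⟩ := hZS _ (hYZ i y hy)
        have h2 := hgS _ (hYZ i y hy) _ hy'
        have h3 := hι i y y' hy'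
        have h4 := hι i (rho G (C i) (fun g hg => hst g hg i) ⟨g, hg⟩ y) (σ y') h2
        change ι i (rho G (C i) (fun g hg => hst g hg i) ⟨g, hg⟩ y) = σ (ι i y)
        rw [h3, h4]
      have h2 := congrArg (fun φ : C i →ₐ[ℂ] N => φ z) h1
      have h3 : z' = rho G (C i) (fun g hg => hst g hg i) ⟨g, hg⟩ z := Subtype.ext hz'
      rw [h3]
      exact h2
    · apply orderOf_dvd_of_pow_eq_one
      have h1 : ∀ m : ℕ, ∀ y ∈ Z, ∀ y', S.T y y' → S.T ((g ^ m) y) ((σ ^ m) y') := by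
        intro m
        induction m with
        | zero =>
          intro y _ y' hyy'
          exact hyy'
        | succ m ih =>
          intro y hy y' hyy'
          rw [pow_succ', pow_succ']
          exact hgS _ (hZst y hy _ (G.pow_mem hg m)) _ (ih y hy y' hyy')
      have h2 : ∀ i, ∀ z ∈ C i, (g ^ orderOf σ) z = z := by
        intro i
        refine fix_adjoin (hY i) ?_
        rintro _ ⟨y, hy, rfl⟩
        obtain ⟨y', hy'⟩ := hZS _ (hYZ i y hy)
        have h3 := h1 (orderOf σ) _ (hYZ i y hy) y' hy'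
        rw [pow_orderOf_eq_one] at h3
        exact hback _ (hYZ i y hy) _ (G.pow_mem hg _) _ h3 hy'
      have h3 : (⨆ i, C i) ≤ fixedField (Subgroup.zpowers (g ^ orderOf σ)) := by
        refine iSup_le fun i z hz => ?_
        have h4 : Subgroup.zpowers (g ^ orderOf σ) ≤ MulAction.stabilizer (M ≃ₐ[ℂ] M) z :=
          (Subgroup.zpowers_le).2 (MulAction.mem_stabilizer_iff.2 (h2 i z hz))
        intro u
        exact MulAction.mem_stabilizer_iff.1 (h4 u.2)
      apply AlgEquiv.ext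
      intro z
      have h4 : z ∈ fixedField (Subgroup.zpowers (g ^ orderOf σ)) := by
        apply h3
        rw [hsup]
        exact IntermediateField.mem_top
      exact h4 ⟨_, Subgroup.mem_zpowers _⟩
  -- the quotients of the curves
  have hfix : ∀ (i : I) (c : ↥(C i ⊓ fixedField G)),
      ι i (inclusion (inf_le_left : C i ⊓ fixedField G ≤ C i) c) ∈ fixedField Γ := by
    rintro i c ⟨σ, hσΓ⟩
    obtain ⟨g, hg, -, h2, -⟩ := hσ σ hσΓ
    have h3 : ((inclusion (inf_le_left : C i ⊓ fixedField G ≤ C i) c : C i) : M) =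
        g ((inclusion (inf_le_left : C i ⊓ fixedField G ≤ C i) c : C i) : M) :=
      (c.2.2 ⟨g, hg⟩).symm
    exact (h2 i _ _ h3).symm
  obtain ⟨κ, hκ⟩ : ∃ κ : ∀ i : I, ↥(C i ⊓ fixedField G) →ₐ[ℂ] fixedField Γ,
      ∀ (i : I) (b : ↥(C i ⊓ fixedField G)), ((κ i b : fixedField Γ) : N) =
        ι i (inclusion (inf_le_left : C i ⊓ fixedField G ≤ C i) b) :=
    ⟨fun i => ((ι i).comp (inclusion (inf_le_left : C i ⊓ fixedField G ≤ C i))).codRestrict
      (fixedField Γ).toSubalgebra (hfix i),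
      fun i b => rfl⟩

  -- the quotients of the curves
  have hgen : ∀ i, ∃ w p, LiesOver (inf_le_left : C i ⊓ fixedField G ≤ C i) w p 1 ∧
      δ i p = 0 := by
    intro i
    obtain ⟨w, p, h1, h2⟩ := general_place (C i) G (fun g hg => hst g hg i) (T0 i)
    exact ⟨w, p, h1, hT0 i p h2⟩
  obtain ⟨κ', hκ'⟩ : ∃ κ' : ∀ i : I, ↥(C i ⊓ fixedField G) →ₐ[ℂ] MK,
      ∀ (i : I) (b : ↥(C i ⊓ fixedField G)), κ' i b = θ.symm (κ i b) :=
    ⟨fun i => (θ.symm : fixedField Γ →ₐ[ℂ] MK).comp (κ i), fun i b => rfl⟩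
  have hκ2 : ∀ (i : I) (b : ↥(C i ⊓ fixedField G)), ((θ (κ' i b) : fixedField Γ) : N) =
      ι i (inclusion (inf_le_left : C i ⊓ fixedField G ≤ C i) b) := by
    intro i b
    rw [hκ', AlgEquiv.apply_symm_apply, hκ]
  have hIe : I = ∅ := by
    by_contra hne
    obtain ⟨i0, hi0⟩ := Finset.nonempty_iff_ne_empty.2 hne
    choose r u hu0 hune htr m0 hm0 hform using fun i : I => curve_pull (κ' i) (δ i)
      (fun p => le_one hst hα h hgen i p) (T0 i) (hT0 i) (hdeg i)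
    obtain ⟨m, hm, hqm⟩ : ∃ m : ℕ, 1 ≤ m ∧ ∀ i, ∃ q, 1 ≤ q ∧ q * m0 i = m := by
      refine ⟨∏ i, m0 i, Nat.succ_le_of_lt (Finset.prod_pos fun i _ => hm0 i), fun i =>
        ⟨∏ j ∈ Finset.univ.erase i, m0 j, Nat.succ_le_of_lt (Finset.prod_pos fun j _ => hm0 j), ?_⟩⟩
      exact Finset.prod_erase_mul _ _ (Finset.mem_univ i)
    choose q hq1 hq using hqm
    choose hh hh0 hh1 hh2 using fun i : I => hform i (q i) (hq1 i)
    simp only [hq] at hh1 hh2
    -- integral weights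
    obtain ⟨D, hD, a, ha, haα⟩ : ∃ D : ℚ, 0 < D ∧ ∃ a : I → ℕ, (∀ i, 1 ≤ a i) ∧
        ∀ i, (a i : ℚ) = D * α i := by
      refine ⟨∏ j : I, ((α j).den : ℚ), Finset.prod_pos fun j _ => by
        exact_mod_cast (α j).den_pos, fun i =>
        (∏ j ∈ Finset.univ.erase i, (α (j : I)).den) * (α i).num.toNat, fun i => ?_, fun i => ?_⟩
      · refine Nat.mul_pos (Finset.prod_pos fun j _ => (α j).den_pos) ?_
        have h1 : 0 < (α i).num := Rat.num_pos.2 (hα i)
        omega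
      · have h1 : (((α i).num.toNat : ℕ) : ℚ) = ((α i).num : ℚ) := by
          have h2 : (((α i).num.toNat : ℕ) : ℤ) = (α i).num :=
            Int.toNat_of_nonneg (Rat.num_pos.2 (hα i)).le
          exact_mod_cast h2
        have h2 : ((α i).den : ℚ) * α i = (α i).num := Rat.den_mul_eq_num _
        push_cast
        rw [h1, ← Finset.prod_erase_mul Finset.univ (fun j : I => ((α j).den : ℚ))
          (Finset.mem_univ i), mul_assoc, h2]
    have hne' : Nonempty (Σ i : I, Fin (a i)) := ⟨⟨⟨i0, hi0⟩, ⟨0, ha _⟩⟩⟩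
    refine no_maps (S := Σ i : I, Fin (a i)) (fun s => r s.1) (fun s => u s.1)
      (fun s => hh s.1) m (fun s => hu0 s.1) (fun s => hune s.1)
      ⟨⟨⟨i0, hi0⟩, ⟨0, ha _⟩⟩, htr ⟨i0, hi0⟩⟩ (fun s => hh0 s.1) ?_ (fun s l => hh2 s.1 l)
    intro z l
    choose pz kz hz using fun i : I => exists_overH_plc (κ' i) z
    have h1 := plane_ineq Γ h hst hgen I ι hσ θ κ' hκ2 z pz kz hz
    have h2 : ((∑ s : (Σ i : I, Fin (a i)), (m : ℚ) * (kz s.1 * (1 - δ s.1 (pz s.1)) - 1) : ℚ)) ≤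
        ((∑ s : (Σ i : I, Fin (a i)), (plc z).ord (hh s.1 * u s.1 (l s)) : ℤ) : ℚ) := by
      push_cast
      exact Finset.sum_le_sum fun s _ => hh1 s.1 z _ _ (hz s.1) (l s)
    have h3 : ∑ s : (Σ i : I, Fin (a i)), (m : ℚ) * (kz s.1 * (1 - δ s.1 (pz s.1)) - 1) =
        m * D * (∑ i : I, α i * ((kz i : ℚ) * (1 - δ i (pz i))) - ∑ i ∈ I, α i) := by
      rw [Fintype.sum_sigma, ← Finset.sum_coe_sort I (fun i : Fin n => α i),
        ← Finset.sum_sub_distrib, Finset.mul_sum]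
      refine Finset.sum_congr rfl fun i _ => ?_
      change ∑ y : Fin (a i), (m : ℚ) * (kz i * (1 - δ i (pz i)) - 1) = _
      rw [Finset.sum_const, Finset.card_univ, Fintype.card_fin, nsmul_eq_mul, haα]
      ring
    rw [h3] at h2
    have h4 : (0 : ℚ) ≤ m * D * (∑ i : I, α i * ((kz i : ℚ) * (1 - δ i (pz i))) -
        ∑ i ∈ I, α i) := mul_nonneg (by positivity) (by linarith)
    exact_mod_cast h4.trans h2
  intro i y hy y' hyy'
  exact halg i (by rw [hIe]; exact Finset.notMem_empty i) y hy y' hyy'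

end

end Pool.Agent.K4H25.EN

end
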