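import Pool.Agent.K4H25.MG.G
import Pool.Agent.R882.KC
import Pool.Agent.K4H25.EN.JDefs
import Pool.Agent.K4H65.DM.Brody
import Pool.Agent.TH182.TC.Core
import Pool.Agent.Y221.FQ.Sub

section

/-!
Several meromorphic functions on the plane with a joint condition on their ramification.
-/

set_option autoImplicit false
set_option linter.overlappingInstances false
set_option linter.unusedSectionVars false
set_option linter.unusedVariables false
set_option maxHeartbeats 4000000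
set_option synthInstance.maxHeartbeats 400000

open FF IntermediateField Filter Topology Pool.Agent.W619.PQ
  Pool.Agent.W619.PL Pool.Agent.W619.TW Pool.Agent.W603.LV Pool.Agent.K4H25.HY
  Pool.Agent.Y221.AB
open Pool.Agent.TH143.EL (MK cl MDer)
open Pool.Agent.K4H65.DM (plc plc_ord)

namespace Pool.Agent.K4H25.EN

/-- **No maps with enough joint ramification.** -/
theorem no_maps_weighted {ι : Type} [Fintype ι] [Nonempty ι] (B : ι → Type) [∀ i, Field (B i)]
    [∀ i, Algebra ℂ (B i)] [∀ i, IsFF ℂ (B i)] (κ : ∀ i, B i →ₐ[ℂ] MK) {α : ι → ℚ}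
    (hα : ∀ i, 0 < α i) {δ : ∀ i, Place ℂ (B i) → ℚ} (hδ : ∀ i p, δ i p ≤ 1)
    (T : ∀ i, Finset (Place ℂ (B i))) (hT : ∀ i, ∀ q ∉ T i, δ i q = 0)
    (hdeg : ∀ i, (0 : ℚ) < canDeg ℂ (B i) + ∑ q ∈ T i, δ i q)
    (hloc : ∀ (z : ℂ) (pz : ∀ i, Place ℂ (B i)) (kz : ι → ℕ),
      (∀ i, OverH (κ i) (plc z) (pz i) (kz i)) →
        0 ≤ ∑ i, α i * ((kz i : ℚ) * (1 - δ i (pz i)) - 1)) : False := by
  classical
  choose r u hu0 hune htr m0 hm0 hform using fun i => curve_pull (κ i) (δ i) (hδ i) (T i) (hT i)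
    (hdeg i)
  obtain ⟨m, hm, hqm⟩ : ∃ m : ℕ, 1 ≤ m ∧ ∀ i, ∃ q, 1 ≤ q ∧ q * m0 i = m := by
    refine ⟨∏ i, m0 i, Nat.succ_le_of_lt (Finset.prod_pos fun i _ => hm0 i), fun i =>
      ⟨∏ j ∈ Finset.univ.erase i, m0 j,
        Nat.succ_le_of_lt (Finset.prod_pos fun j _ => hm0 j), ?_⟩⟩
    exact Finset.prod_erase_mul _ _ (Finset.mem_univ i)
  choose q hq1 hq using hqm
  choose hh hh0 hh1 hh2 using fun i => hform i (q i) (hq1 i)
  simp only [hq] at hh1 hh2
  -- integral weights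
  obtain ⟨D, hD, a, ha, haα⟩ : ∃ D : ℚ, 0 < D ∧ ∃ a : ι → ℕ, (∀ i, 1 ≤ a i) ∧
      ∀ i, (a i : ℚ) = D * α i := by
    refine ⟨∏ j, ((α j).den : ℚ), Finset.prod_pos fun j _ => by
      exact_mod_cast (α j).den_pos, fun i =>
      (∏ j ∈ Finset.univ.erase i, (α j).den) * (α i).num.toNat, fun i => ?_, fun i => ?_⟩
    · refine Nat.mul_pos (Finset.prod_pos fun j _ => (α j).den_pos) ?_
      have h1 : 0 < (α i).num := Rat.num_pos.2 (hα i)
      omega
    · have h1 : (((α i).num.toNat : ℕ) : ℚ) = ((α i).num : ℚ) := by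
        have h2 : (((α i).num.toNat : ℕ) : ℤ) = (α i).num :=
          Int.toNat_of_nonneg (Rat.num_pos.2 (hα i)).le
        exact_mod_cast h2
      have h2 : ((α i).den : ℚ) * α i = (α i).num := Rat.den_mul_eq_num _
      push_cast
      rw [h1, ← Finset.prod_erase_mul Finset.univ (fun j => ((α j).den : ℚ))
        (Finset.mem_univ i), mul_assoc, h2]
  obtain ⟨i0⟩ : Nonempty ι := inferInstance
  have hne' : Nonempty (Σ i : ι, Fin (a i)) := ⟨⟨i0, ⟨0, ha _⟩⟩⟩
  refine no_maps (S := Σ i : ι, Fin (a i)) (fun s => r s.1) (fun s => u s.1)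
    (fun s => hh s.1) m (fun s => hu0 s.1) (fun s => hune s.1)
    ⟨⟨i0, ⟨0, ha _⟩⟩, htr i0⟩ (fun s => hh0 s.1) ?_ (fun s l => hh2 s.1 l)
  intro z l
  choose pz kz hz using fun i => exists_overH_plc (κ i) z
  have h1 := hloc z pz kz hz
  have h2 : ((∑ s : (Σ i : ι, Fin (a i)), (m : ℚ) * (kz s.1 * (1 - δ s.1 (pz s.1)) - 1) : ℚ)) ≤
      ((∑ s : (Σ i : ι, Fin (a i)), (plc z).ord (hh s.1 * u s.1 (l s)) : ℤ) : ℚ) := by
    push_cast
    exact Finset.sum_le_sum fun s _ => hh1 s.1 z _ _ (hz s.1) (l s)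
  have h3 : ∑ s : (Σ i : ι, Fin (a i)), (m : ℚ) * (kz s.1 * (1 - δ s.1 (pz s.1)) - 1) =
      m * D * ∑ i, α i * ((kz i : ℚ) * (1 - δ i (pz i)) - 1) := by
    rw [Fintype.sum_sigma, Finset.mul_sum]
    refine Finset.sum_congr rfl fun i _ => ?_
    change ∑ y : Fin (a i), (m : ℚ) * (kz i * (1 - δ i (pz i)) - 1) = _
    rw [Finset.sum_const, Finset.card_univ, Fintype.card_fin, nsmul_eq_mul, haα]
    ring
  rw [h3] at h2
  have h4 : (0 : ℚ) ≤ m * D * ∑ i, α i * ((kz i : ℚ) * (1 - δ i (pz i)) - 1) :=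
    mul_nonneg (by positivity) h1
  exact_mod_cast h4.trans h2

theorem transc_of_ne {τ : MK} (hτ : ∀ c : ℂ, τ ≠ algebraMap ℂ MK c) : Transcendental ℂ τ := by
  intro halg
  obtain ⟨c, hc⟩ := minpoly.mem_range_of_degree_eq_one ℂ τ
    (IsAlgClosed.degree_eq_one_of_irreducible ℂ (minpoly.irreducible halg.isIntegral))
  exact hτ c hc.symm

theorem isFF_simple' {τ : MK} (hτ : Transcendental ℂ τ) : IsFF ℂ ℂ⟮τ⟯ := by
  have htop : ℂ⟮(⟨τ, mem_adjoin_simple_self ℂ τ⟩ : ℂ⟮τ⟯)⟯ = ⊤ := Pool.Agent.R882.KR.gen_top τ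
  refine IsFF.of_finite (f := (⟨τ, mem_adjoin_simple_self ℂ τ⟩ : ℂ⟮τ⟯)) ?_ ?_
  · intro h
    exact hτ (h.algebraMap (A := MK))
  · rw [htop]
    exact Module.Finite.of_surjective (Algebra.linearMap (⊤ : IntermediateField ℂ ℂ⟮τ⟯) ℂ⟮τ⟯)
      fun x => ⟨⟨x, trivial⟩, rfl⟩

/-- The places of the field of rational functions of `τ`. -/
theorem line_data {τ : MK} (hτ : Transcendental ℂ τ) (A : Finset ℂ) (δ : ℂ → ℚ)
    (hδ : ∀ c, δ c ≤ 1) (hA : ∀ c ∉ A, δ c = 0) (hsum : 2 < ∑ c ∈ A, δ c) :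
    ∃ (δ' : Place ℂ ℂ⟮τ⟯ → ℚ) (T : Finset (Place ℂ ℂ⟮τ⟯)), (∀ P, δ' P ≤ 1) ∧
      (∀ P ∉ T, δ' P = 0) ∧ (0 : ℚ) < canDeg ℂ ℂ⟮τ⟯ + ∑ P ∈ T, δ' P ∧
      ∀ z P e, OverH (ℂ⟮τ⟯.val) (plc z) P e →
        (∃ c : ℂ, 0 < (plc z).ord (τ - algebraMap ℂ MK c) ∧
          (e : ℤ) = (plc z).ord (τ - algebraMap ℂ MK c) ∧ δ' P = δ c) ∨
        ((plc z).ord τ < 0 ∧ (e : ℤ) = -(plc z).ord τ ∧ δ' P = 0) := by
  classical
  have hFF := isFF_simple' hτ
  obtain ⟨x, hx⟩ : ∃ x : ℂ⟮τ⟯, x = ⟨τ, mem_adjoin_simple_self ℂ τ⟩ := ⟨_, rfl⟩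
  have hxτ : (x : MK) = τ := by rw [hx]
  have htop : ℂ⟮x⟯ = ⊤ := by
    rw [hx]
    exact Pool.Agent.R882.KR.gen_top τ
  have hcan : canDeg ℂ ℂ⟮τ⟯ = -2 := canDeg_rational htop
  have hxt := transcendental_of_top htop
  choose P0 hP0 hP0u using fun c : ℂ => zero_unique (top_sub htop c)
  obtain ⟨Pi, hPi, hPiu⟩ := pole_unique htop
  have hne : ∀ c : ℂ, x - algebraMap ℂ ℂ⟮τ⟯ c ≠ 0 := fun c => sub_const_ne hxt c
  have hinj : ∀ c c' : ℂ, P0 c = P0 c' → c = c' := by
    intro c c' h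
    by_contra hcc
    have h1 := hP0 c
    have h2 := hP0 c'
    rw [← h] at h2
    have h3 : Ge (P0 c) 1 (x - algebraMap ℂ ℂ⟮τ⟯ c) := Or.inr h1.ge
    have h4 : Ge (P0 c) 1 (x - algebraMap ℂ ℂ⟮τ⟯ c') := Or.inr h2.ge
    have h5 := h3.sub h4
    have h6 : x - algebraMap ℂ ℂ⟮τ⟯ c - (x - algebraMap ℂ ℂ⟮τ⟯ c') =
        algebraMap ℂ ℂ⟮τ⟯ (c' - c) := by
      rw [map_sub]
      ring
    rw [h6] at h5
    have h7 : c' - c ≠ 0 := sub_ne_zero.2 (Ne.symm hcc)
    rcases h5 with h5 | h5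
    · exact (_root_.map_ne_zero (algebraMap ℂ ℂ⟮τ⟯)).2 h7 h5
    · rw [(P0 c).ord_const h7] at h5
      omega
  obtain ⟨δ', hδ'1, hδ'2⟩ : ∃ δ' : Place ℂ ℂ⟮τ⟯ → ℚ, (∀ c, δ' (P0 c) = δ c) ∧
      ∀ P, (∀ c, P ≠ P0 c) → δ' P = 0 := by
    refine ⟨fun P => if h : ∃ c, P = P0 c then δ h.choose else 0, fun c => ?_, fun P hP => ?_⟩
    · beta_reduce
      have h : ∃ c', P0 c = P0 c' := ⟨c, rfl⟩
      rw [dif_pos h, ← hinj c _ h.choose_spec]
    · beta_reduce
      rw [dif_neg]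
      rintro ⟨c, hc⟩
      exact hP c hc
  refine ⟨δ', A.image P0, fun P => ?_, fun P hP => ?_, ?_, fun z P e hPe => ?_⟩
  · by_cases h : ∃ c, P = P0 c
    · obtain ⟨c, rfl⟩ := h
      rw [hδ'1]
      exact hδ c
    · push Not at h
      rw [hδ'2 P h]
      norm_num
  · by_cases h : ∃ c, P = P0 c
    · obtain ⟨c, rfl⟩ := h
      rw [hδ'1]
      exact hA c fun hc => hP (Finset.mem_image_of_mem _ hc)
    · push Not at h
      exact hδ'2 P h
  · rw [hcan, Finset.sum_image (fun c _ c' _ h => hinj c c' h)]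
    simp only [hδ'1]
    push_cast
    linarith
  · have hord : ∀ f : ℂ⟮τ⟯, (plc z).ord (f : MK) = e * P.ord f := fun f => hPe.2 f
    have he : (1 : ℤ) ≤ e := by exact_mod_cast hPe.1
    by_cases h0 : 0 ≤ P.ord x
    · left
      obtain ⟨c, hc⟩ := exists_const P (f := x) (Or.inr h0)
      have h1 := hc.resolve_left (hne c)
      have h2 : P = P0 c := hP0u c P (by omega)
      have h3 := hord (x - algebraMap ℂ ℂ⟮τ⟯ c)
      have h4 : ((x - algebraMap ℂ ℂ⟮τ⟯ c : ℂ⟮τ⟯) : MK) = τ - algebraMap ℂ MK c := by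
        exact congrArg (fun w => w - algebraMap ℂ MK c) hxτ
      rw [h4, h2, hP0, mul_one] at h3
      refine ⟨c, by rw [h3]; omega, h3.symm, ?_⟩
      rw [h2, hδ'1]
    · right
      push Not at h0
      have h2 : P = Pi := hPiu P h0
      have h3 := hord x
      rw [hxτ, h2, hPi] at h3
      refine ⟨by rw [h3]; omega, by rw [h3]; ring, hδ'2 P fun c hc => ?_⟩
      have h4 := hP0 c
      rw [← hc] at h4
      have h5 : Ge P 1 (x - algebraMap ℂ ℂ⟮τ⟯ c) := Or.inr h4.ge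
      have h6 : Ge P 0 x := by
        have h7 := (h5.mono (show (0 : ℤ) ≤ 1 by norm_num)).add (Ge.const (P := P) c)
        rwa [sub_add_cancel] at h7
      rcases h6 with h6 | h6
      · rw [h6, P.ord_zero] at h0
        exact lt_irrefl _ h0
      · omega

/-- **Several meromorphic functions with a joint condition on the ramification.** -/
theorem joint {ι : Type} [Fintype ι] [Nonempty ι] (τ : ι → MK)
    (hτ : ∀ i, ∀ c : ℂ, τ i ≠ algebraMap ℂ MK c) {α : ι → ℚ} (hα : ∀ i, 0 < α i)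
    (A : ι → Finset ℂ) {δ : ι → ℂ → ℚ} (hδ : ∀ i c, δ i c ≤ 1) (hA : ∀ i, ∀ c ∉ A i, δ i c = 0)
    (hsum : ∀ i, 2 < ∑ c ∈ A i, δ i c)
    (hloc : ∀ (z : ℂ) (s : ι → ℚ), (∀ i, (∃ c : ℂ, 0 < (plc z).ord (τ i - algebraMap ℂ MK c) ∧
        s i = (plc z).ord (τ i - algebraMap ℂ MK c) * (1 - δ i c) - 1) ∨
        ((plc z).ord (τ i) < 0 ∧ s i = -(plc z).ord (τ i) - 1)) →
      0 ≤ ∑ i, α i * s i) : False := by
  have hFF : ∀ i, IsFF ℂ ℂ⟮τ i⟯ := fun i => isFF_simple' (transc_of_ne (hτ i))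
  choose δ' T h1 h2 h3 h4 using fun i => line_data (transc_of_ne (hτ i)) (A i) (δ i) (hδ i)
    (hA i) (hsum i)
  refine no_maps_weighted (fun i => ℂ⟮τ i⟯) (fun i => ℂ⟮τ i⟯.val) hα h1 T h2 h3
    fun z pz kz hz => ?_
  refine hloc z (fun i => (kz i : ℚ) * (1 - δ' i (pz i)) - 1) fun i => ?_
  rcases h4 i z (pz i) (kz i) (hz i) with ⟨c, hc, he, hd⟩ | ⟨hc, he, hd⟩
  · left
    refine ⟨c, hc, ?_⟩
    rw [hd, ← he]
    push_cast
    ring
  · right
    refine ⟨hc, ?_⟩
    have h5 : ((kz i : ℤ) : ℚ) = ((-(plc z).ord (τ i) : ℤ) : ℚ) := by rw [he]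
    push_cast at h5
    rw [hd, h5]
    ring

end Pool.Agent.K4H25.EN

end

section

/-!
Entire curves in varieties with jointly multiple fibres.
-/

set_option autoImplicit false
set_option linter.overlappingInstances false
set_option linter.unusedSectionVars false
set_option linter.unusedVariables false
set_option maxHeartbeats 4000000
set_option synthInstance.maxHeartbeats 400000

open FF Filter Topology

namespace Pool.Agent.K4H25.EN

open Pool.Agent.W602.GT Pool.Agent.Y221.FQ Pool.Agent.TH143.EL Pool.Agent.TH466.QG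
open Pool.Agent.K4H65.DM (plc plc_ord val_cl)
open Pool.Agent.TH182.TC (TorusRigid OnX PS)
open Pool.Agent.Y221.AB (Fn Oz evO evO_apply)

variable {m n : ℕ} {κ υ : Type} {Ψ : κ → MvPolynomial (Fin (m + 1)) ℂ}
  {Θ : υ → MvPolynomial (Fin (m + 1)) ℂ}

theorem res_plc (z : ℂ) (x : MK) (hx : (plc z).Reg x) :
    ∃ c : ℂ, x = algebraMap ℂ MK c ∨ 0 < (plc z).ord (x - algebraMap ℂ MK c) := by
  have hr := (plc_reg z).1 hx
  obtain ⟨c, hc⟩ : ∃ c, c = Fn x z := ⟨_, rfl⟩
  refine ⟨c, ?_⟩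
  by_cases h0 : x - algebraMap ℂ MK c = 0
  · left
    exact sub_eq_zero.1 h0
  · right
    have hr' : Pool.Agent.Y221.AB.Reg (x - algebraMap ℂ MK c) z :=
      ((⟨x, hr⟩ : Oz z) - algebraMap ℂ (Oz z) c).2
    have h1 : (plc z).Reg (x - algebraMap ℂ MK c) := (plc_reg z).2 hr'
    have h2 := ((plc z).reg_iff h0).1 h1
    have h3 : (plc z).ord (x - algebraMap ℂ MK c) ≠ 0 := by
      rw [Ne, plc_zero_iff h0, not_not]
      have h4 := evO_apply ((⟨x, hr⟩ : Oz z) - algebraMap ℂ (Oz z) c)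
      rw [map_sub, AlgHom.commutes] at h4
      have h5 : (((⟨x, hr⟩ : Oz z) - algebraMap ℂ (Oz z) c : Oz z) : MK) =
          x - algebraMap ℂ MK c := rfl
      rw [h5] at h4
      rw [← h4, evO_apply, hc]
      exact sub_self _
    omega

/-- the generic point of an entire curve -/
theorem entire_point {f : ℂ → Fin (m + 1) → ℂ} (hf : Entire Ψ f) : ∃ z : Fin (m + 1) → MK,
    z ≠ 0 ∧ (∀ T : MvPolynomial (Fin (m + 1)) ℂ, val z T = 0 ↔ ∀ t, val (f t) T = 0) ∧
      ∀ l, z l ≠ 0 → ¬ ∀ i, IsAlgebraic ℂ (z i / z l) := by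
  classical
  obtain ⟨f', hf'⟩ : ∃ f' : Fin (m + 1) → ℂ → ℂ, ∀ i t, f' i t = f t i := ⟨_, fun _ _ => rfl⟩
  have hff : ∀ t, (fun i => f' i t) = f t := fun t => funext fun i => hf' i t
  have hhol : ∀ i, Differentiable ℂ (f' i) := by
    intro i
    have : f' i = fun t => f t i := funext (hf' i)
    rw [this]
    exact hf.hol i
  have hmer : ∀ i, Meromorphic (f' i) := fun i t =>
    ((hhol i).analyticAt t).meromorphicAt
  obtain ⟨z, hzdef⟩ : ∃ z : Fin (m + 1) → MK, z = fun i => cl (f' i) (hmer i) := ⟨_, rfl⟩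
  have hcont : ∀ T : MvPolynomial (Fin (m + 1)) ℂ,
      Continuous fun t => MvPolynomial.eval (fun i => f' i t) T := fun T =>
    (MvPolynomial.continuous_eval T).comp (continuous_pi fun i => (hhol i).continuous)
  have hvz : ∀ T : MvPolynomial (Fin (m + 1)) ℂ, val z T = 0 ↔ ∀ t, val (f t) T = 0 := by
    intro T
    rw [hzdef, val_cl hmer T, cl_eq_zero]
    have h1 : ∀ t, MvPolynomial.eval (fun i => f' i t) T = val (f t) T := by
      intro t
      rw [hff]
      unfold Pool.Agent.W602.GT.val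
      rw [MvPolynomial.aeval_eq_eval]
    constructor
    · intro h t
      rw [← h1]
      exact eq_of_codis (g := fun _ => 0) h (hcont T).continuousAt continuousAt_const
    · intro h
      exact Eventually.of_forall fun t => (h1 t).trans (h t)
  have hzj : ∀ (a : ℂ) i j, z i = algebraMap ℂ MK a * z j → ∀ t, f t i = a * f t j := by
    intro a i j h t
    have h1 := (hvz (MvPolynomial.X i - MvPolynomial.C a * MvPolynomial.X j)).1 (by
      unfold Pool.Agent.W602.GT.val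
      rw [map_sub, map_mul, MvPolynomial.aeval_X, MvPolynomial.aeval_X, MvPolynomial.aeval_C, h,
        sub_self]) t
    unfold Pool.Agent.W602.GT.val at h1
    rw [map_sub, map_mul, MvPolynomial.aeval_X, MvPolynomial.aeval_X, MvPolynomial.aeval_C,
      sub_eq_zero] at h1
    exact h1
  refine ⟨z, ?_, hvz, fun l hl halg => ?_⟩
  · intro h0
    apply (hf.mem 0).1
    funext i
    have h1 := hzj 0 i i (by rw [h0]; simp) 0
    rw [h1, zero_mul]
    rfl
  · have h1 : ∀ i, ∃ a : ℂ, z i = algebraMap ℂ MK a * z l := by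
      intro i
      obtain ⟨c, hc⟩ := minpoly.mem_range_of_degree_eq_one ℂ (z i / z l)
        (IsAlgClosed.degree_eq_one_of_irreducible ℂ (minpoly.irreducible (halg i).isIntegral))
      refine ⟨c, ?_⟩
      rw [hc]
      field_simp
    choose a ha using h1
    obtain ⟨t1, t2, hli⟩ := hf.nonconst
    rw [LinearIndependent.pair_iff] at hli
    have h5 : ∀ t i, f t i = a i * f t l := fun t i => hzj _ _ _ (ha i) t
    have h6 := hli (f t2 l) (-(f t1 l)) (by
      funext i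
      simp only [Pi.add_apply, Pi.smul_apply, smul_eq_mul, Pi.zero_apply]
      rw [h5 t1 i, h5 t2 i]
      ring)
    apply (hf.mem t2).1
    funext i
    rw [h5 t2 i, h6.1, mul_zero]
    rfl

theorem mem_fibreEq {b : Fin n → LineRat Ψ} {q : Fin n → Fin 2 → ℂ} (hq : ∀ p, q p ≠ 0)
    {x : Fin (m + 1) → ℂ} : x ∈ Cone (fibreEq b q) ↔ x ∈ Cone Ψ ∧ ∀ p, (b p).Fibre x (q p) := by
  have hv : ∀ (p : Fin n) (h : (b p).pairs), val x (fibreEq b q (Sum.inr ⟨p, h⟩)) =
      algebraMap ℂ ℂ (q p 0) * val x h.1.2 - algebraMap ℂ ℂ (q p 1) * val x h.1.1 := by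
    intro p h
    unfold fibreEq Pool.Agent.W602.GT.val
    rw [Sum.elim_inr, map_sub, map_mul, map_mul, MvPolynomial.aeval_C, MvPolynomial.aeval_C]
  constructor
  · rintro ⟨h0, h⟩
    refine ⟨⟨h0, fun e => h (Sum.inl e)⟩, fun p => ⟨hq p, fun h' hh' => ?_⟩⟩
    have h1 := h (Sum.inr ⟨p, h', hh'⟩)
    rw [hv, sub_eq_zero] at h1
    exact h1
  · rintro ⟨⟨h0, h⟩, h2⟩
    refine ⟨h0, ?_⟩
    rintro (e | ⟨p, h', hh'⟩)
    · exact h e
    · rw [hv, sub_eq_zero]
      exact (h2 p).2 h' hh'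

/-- the fibres which contain an entire curve -/
theorem fibre_entire {b : LineRat Ψ} {f : ℂ → Fin (m + 1) → ℂ} {z : Fin (m + 1) → MK}
    (hvz : ∀ T : MvPolynomial (Fin (m + 1)) ℂ, val z T = 0 ↔ ∀ t, val (f t) T = 0)
    {q : Fin 2 → ℂ} : b.Fibre z q ↔ ∀ t, b.Fibre (f t) q := by
  have key : ∀ h ∈ b.pairs, (algebraMap ℂ MK (q 0) * val z h.2 = algebraMap ℂ MK (q 1) * val z h.1 ↔
      ∀ t, algebraMap ℂ ℂ (q 0) * val (f t) h.2 = algebraMap ℂ ℂ (q 1) * val (f t) h.1) := by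
    intro h _
    have h1 := hvz (MvPolynomial.C (q 0) * h.2 - MvPolynomial.C (q 1) * h.1)
    unfold Pool.Agent.W602.GT.val at h1 ⊢
    rw [map_sub, map_mul, map_mul, MvPolynomial.aeval_C, MvPolynomial.aeval_C, sub_eq_zero] at h1
    rw [h1]
    refine forall_congr' fun t => ?_
    rw [map_sub, map_mul, map_mul, MvPolynomial.aeval_C, MvPolynomial.aeval_C, sub_eq_zero]
  constructor
  · rintro ⟨h0, h⟩ t
    exact ⟨h0, fun h' hh' => (key h' hh').1 (h h' hh') t⟩
  · intro h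
    exact ⟨(h 0).1, fun h' hh' => (key h' hh').2 fun t => (h t).2 h' hh'⟩

/-- the value of a map which is not constant -/
theorem value_of_not {b : LineRat Ψ} {f : ℂ → Fin (m + 1) → ℂ} (hf : Entire Ψ f)
    {z : Fin (m + 1) → MK}
    (hvz : ∀ T : MvPolynomial (Fin (m + 1)) ℂ, val z T = 0 ↔ ∀ t, val (f t) T = 0)
    (hn : ¬ ∃ q, b.Fibre z q) : ∃ τ, b.Value z τ ∧ ∀ c : ℂ, τ ≠ algebraMap ℂ MK c := by
  have hglue : ∀ h ∈ b.pairs, ∀ h' ∈ b.pairs, val z h.1 * val z h'.2 = val z h'.1 * val z h.2 := by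
    intro h hh h' hh'
    have h1 := (hvz (h.1 * h'.2 - h'.1 * h.2)).2 (fun t => by
      have h2 := b.glue h hh h' hh' (f t) (hf.mem t)
      unfold Pool.Agent.W602.GT.val at h2 ⊢
      rw [map_sub, map_mul, map_mul, sub_eq_zero]
      exact h2)
    unfold Pool.Agent.W602.GT.val at h1 ⊢
    rw [map_sub, map_mul, map_mul, sub_eq_zero] at h1
    exact h1
  push Not at hn
  have hdef : ∃ h ∈ b.pairs, val z h.2 ≠ 0 := by
    by_contra hcon
    push Not at hcon
    refine hn ![1, 0] ⟨Function.ne_iff.2 ⟨0, by simp⟩, fun h hh => ?_⟩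
    rw [hcon h hh]
    simp
  obtain ⟨h, hh, h2⟩ := hdef
  refine ⟨val z h.1 / val z h.2, ⟨h, hh, h2, rfl⟩, fun c hc => ?_⟩
  rw [div_eq_iff h2] at hc
  refine hn ![c, 1] ⟨Function.ne_iff.2 ⟨1, by simp⟩, fun h' hh' => ?_⟩
  simp only [Matrix.cons_val_zero, Matrix.cons_val_one, map_one, one_mul]
  have h3 := hglue h hh h' hh'
  rw [hc] at h3
  apply mul_left_cancel₀ h2
  linear_combination h3

/-- **Entire curves which are not contained in the closed subset lie in the fibres.** -/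
theorem entire_joint {b : Fin n → LineRat Ψ} (hJ : Joint b Θ) {f : ℂ → Fin (m + 1) → ℂ}
    (hf : Entire Ψ f) (hoff : ∃ t e, val (f t) (Θ e) ≠ 0) :
    ∃ q : Fin n → Fin 2 → ℂ, ∀ t p, (b p).Fibre (f t) (q p) := by
  classical
  obtain ⟨z, hz, hvz, -⟩ := entire_point hf
  have hzΨ : ∀ e, val z (Ψ e) = 0 := fun e => (hvz _).2 fun t => (hf.mem t).2 e
  have hzΘ : ∃ e, val z (Θ e) ≠ 0 := by
    obtain ⟨t, e, h⟩ := hoff
    exact ⟨e, fun h0 => h ((hvz _).1 h0 t)⟩
  obtain ⟨I, hI⟩ : ∃ I : Finset (Fin n), ∀ p, p ∈ I ↔ ¬ ∃ q, (b p).Fibre z q :=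
    ⟨Finset.univ.filter fun p => ¬ ∃ q, (b p).Fibre z q, fun p => by simp⟩
  have hout : ∀ p, ∃ q, p ∉ I → (b p).Fibre z q := by
    intro p
    by_cases hp : p ∈ I
    · exact ⟨0, fun h => absurd hp h⟩
    · rw [hI, not_not] at hp
      obtain ⟨q, hq⟩ := hp
      exact ⟨q, fun _ => hq⟩
  choose q hq using hout
  by_cases hIe : I.Nonempty
  · exfalso
    obtain ⟨J, α, A, δ, hJe, hJI, hw, hloc⟩ := hJ I q hIe
    have hval : ∀ p, ∃ τ, p ∈ I → (b p).Value z τ ∧ ∀ c : ℂ, τ ≠ algebraMap ℂ MK c := by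
      intro p
      by_cases hp : p ∈ I
      · obtain ⟨τ, hτ⟩ := value_of_not hf hvz ((hI p).1 hp)
        exact ⟨τ, fun _ => hτ⟩
      · exact ⟨0, fun h => absurd h hp⟩
    choose τ hτ using hval
    have hne : Nonempty J := hJe.to_subtype
    refine joint (ι := J) (fun p => τ p) (fun p => (hτ p (hJI p.2)).2)
      (α := fun p => α p) (fun p => (hw p p.2).1) (fun p => A p) (δ := fun p => δ p)
      (fun p => (hw p p.2).2.1) (fun p => (hw p p.2).2.2.1) (fun p => (hw p p.2).2.2.2)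
      fun z0 s hs => ?_
    obtain ⟨s', hs'⟩ : ∃ s' : Fin n → ℚ, ∀ p : J, s' p = s p :=
      ⟨fun p => if hp : p ∈ J then s ⟨p, hp⟩ else 0, fun p => by simp⟩
    have h1 := hloc MK (plc z0) z τ s' ⟨res_plc z0, hz, hzΨ, hzΘ⟩ hq hτ (fun p hp => by
      have h2 := hs ⟨p, hp⟩
      rw [← hs'] at h2
      exact h2)
    rw [← Finset.sum_coe_sort] at h1
    have h2 : ∑ p : J, α p * s' p = ∑ p : J, α p * s p :=
      Finset.sum_congr rfl fun p _ => by rw [hs']
    rw [h2] at h1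
    exact h1
  · exact ⟨q, fun t p => (fibre_entire hvz).1 (hq p fun hp => hIe ⟨p, hp⟩) t⟩

/-- **Entire curves if the fibres are finite outside the closed subset.** -/
theorem entire_joint_off {b : Fin n → LineRat Ψ} (hJ : Joint b Θ) (hfin : ZeroDimOff b Θ)
    {f : ℂ → Fin (m + 1) → ℂ} (hf : Entire Ψ f) (t : ℂ) (e : υ) : val (f t) (Θ e) = 0 := by
  by_contra hcon
  obtain ⟨q, hat⟩ := entire_joint hJ hf ⟨t, e, hcon⟩
  obtain ⟨z, hz, hvz, hnc⟩ := entire_point hf
  have hzΨ : ∀ e, val z (Ψ e) = 0 := fun e => (hvz _).2 fun t => (hf.mem t).2 e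
  obtain ⟨l, hl⟩ := Function.ne_iff.1 hz
  refine hnc l hl fun i => ?_
  exact hfin q MK z hz hzΨ ⟨e, fun h0 => hcon ((hvz _).1 h0 t)⟩
    (fun p => (fibre_entire hvz).2 fun s => hat s p) i l hl

theorem torus_mono {μ : Type} {Φ : μ → MvPolynomial (Fin (m + 1)) ℂ}
    (hsub : ∀ x : Fin (m + 1) → ℂ, x ∈ Cone Φ → x ∈ Cone Ψ) (h : TorusRigid Ψ) :
    TorusRigid Φ := by
  intro d l g hg hX hper
  refine h d l g hg (fun z i => ?_) hper
  have h1 : (g z).rep ∈ Cone Φ := by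
    refine ⟨(g z).rep_nonzero, fun e => ?_⟩
    have h2 := hX z e
    unfold Pool.Agent.W602.GT.val
    rw [MvPolynomial.aeval_eq_eval]
    exact h2
  have h2 := (hsub _ h1).2 i
  unfold Pool.Agent.W602.GT.val at h2
  rw [MvPolynomial.aeval_eq_eval] at h2
  exact h2

/-- **Maps from tori.** -/
theorem torus_joint {b : Fin n → LineRat Ψ} (hJ : Joint b Θ)
    (h1 : TorusRigid (Sum.elim Ψ Θ) → ∀ f, ¬ Entire (Sum.elim Ψ Θ) f)
    (h2 : ∀ q : Fin n → Fin 2 → ℂ, (∀ p, q p ≠ 0) → TorusRigid (fibreEq b q) →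
      ∀ f, ¬ Entire (fibreEq b q) f) (hT : TorusRigid Ψ) (f : ℂ → Fin (m + 1) → ℂ)
    (hf : Entire Ψ f) : False := by
  by_cases hoff : ∃ t e, val (f t) (Θ e) ≠ 0
  · obtain ⟨q, hat⟩ := entire_joint hJ hf hoff
    have hq : ∀ p, q p ≠ 0 := fun p => (hat 0 p).1
    refine h2 q hq (torus_mono (fun x hx => ((mem_fibreEq hq).1 hx).1) hT) f
      ⟨hf.hol, fun t => (mem_fibreEq hq).2 ⟨hf.mem t, hat t⟩, hf.nonconst⟩
  · push Not at hoff
    refine h1 (torus_mono (fun x hx => ⟨hx.1, fun e => hx.2 (Sum.inl e)⟩) hT) f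
      ⟨hf.hol, fun t => ⟨(hf.mem t).1, ?_⟩, hf.nonconst⟩
    rintro (e | e)
    · exact (hf.mem t).2 e
    · exact hoff t e

end Pool.Agent.K4H25.EN

end

section

/-!
An example: cyclic coverings of products of lines.
-/

set_option autoImplicit false
set_option linter.overlappingInstances false
set_option linter.unusedSectionVars false
set_option linter.unusedVariables false
set_option maxHeartbeats 4000000
set_option synthInstance.maxHeartbeats 400000

open FF MvPolynomial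

namespace Pool.Agent.K4H25.EN

open Pool.Agent.W602.GT Pool.Agent.Y221.FQ Pool.Agent.W603.LV

/-- The equation `W ^ μ * X_0 ^ e = ∏_p ∏_{c ∈ A p} (X_p - c X_0)`, where `W` is the last of the
variables `X_0, ..., X_(n + 1)` and `e = ∑ |A p| - μ`. -/
noncomputable def cycEq {n : ℕ} (A : Fin n → Finset ℂ) (μ : ℕ) :
    Unit → MvPolynomial (Fin (n + 1 + 1)) ℂ := fun _ =>
  X (Fin.last _) ^ μ * X 0 ^ (∑ p, (A p).card - μ) -
    ∏ p : Fin n, ∏ c ∈ A p, (X p.succ.castSucc - C c * X 0)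

/-- The rational map `(X_p : X_0)`. -/
noncomputable def cycMap {n : ℕ} (A : Fin n → Finset ℂ) (μ : ℕ) (p : Fin n) :
    LineRat (cycEq A μ) where
  pairs := {(X p.succ.castSucc, X 0)}
  form := by
    rintro _ rfl
    exact ⟨1, isHomogeneous_X _ _, isHomogeneous_X _ _⟩
  glue := by
    rintro _ rfl _ rfl x _
    ring

/-- The form `W * X_0`. -/
noncomputable def cycOff (n : ℕ) : Unit → MvPolynomial (Fin (n + 1 + 1)) ℂ := fun _ =>
  X (Fin.last _) * X 0

theorem cycEq_form {n : ℕ} (A : Fin n → Finset ℂ) {μ : ℕ} (hμ : μ ≤ ∑ p, (A p).card) (i : Unit) :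
    IsForm (cycEq A μ i) := by
  refine ⟨∑ p, (A p).card, ?_⟩
  unfold cycEq
  refine IsHomogeneous.sub ?_ ?_
  · have h1 := ((isHomogeneous_X ℂ (Fin.last (n + 1))).pow μ).mul
      ((isHomogeneous_X ℂ (0 : Fin (n + 1 + 1))).pow (∑ p, (A p).card - μ))
    have h2 : 1 * μ + 1 * (∑ p, (A p).card - μ) = ∑ p, (A p).card := by omega
    rw [h2] at h1
    exact h1
  · refine IsHomogeneous.prod _ _ _ fun p _ => ?_
    have h1 : (A p).card = ∑ c ∈ A p, 1 := by simp
    rw [h1]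
    refine IsHomogeneous.prod _ _ _ fun c _ => ?_
    refine (isHomogeneous_X ℂ _).sub ?_
    have h2 := (isHomogeneous_C (Fin (n + 1 + 1)) c).mul (isHomogeneous_X ℂ (0 : Fin (n + 1 + 1)))
    rw [zero_add] at h2
    exact h2

/-- the order of `∏_{c ∈ A} (τ - c)` -/
theorem ord_prod_sub {F : Type} [Field F] [Algebra ℂ F] (P : Place ℂ F) {τ : F} (A : Finset ℂ)
    (hne : ∀ c ∈ A, τ - algebraMap ℂ F c ≠ 0) :
    P.ord (∏ c ∈ A, (τ - algebraMap ℂ F c)) = ∑ c ∈ A, P.ord (τ - algebraMap ℂ F c) := by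
  classical
  induction A using Finset.induction_on with
  | empty =>
    rw [Finset.prod_empty, Finset.sum_empty]
    exact Place.ord_one _
  | insert c A hc ih =>
    rw [Finset.prod_insert hc, Finset.sum_insert hc, P.ord_mul (hne c (Finset.mem_insert_self _ _))
      (Finset.prod_ne_zero_iff.2 fun c' hc' => hne c' (Finset.mem_insert_of_mem hc')),
      ih fun c' hc' => hne c' (Finset.mem_insert_of_mem hc')]

theorem ord_prod {F : Type} [Field F] [Algebra ℂ F] (P : Place ℂ F) {S : Type} (s : Finset S)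
    {x : S → F} (hne : ∀ i, x i ≠ 0) : P.ord (∏ i ∈ s, x i) = ∑ i ∈ s, P.ord (x i) := by
  classical
  induction s using Finset.induction_on with
  | empty =>
    rw [Finset.prod_empty, Finset.sum_empty]
    exact Place.ord_one _
  | insert c A hc ih =>
    rw [Finset.prod_insert hc, Finset.sum_insert hc, P.ord_mul (hne c)
      (Finset.prod_ne_zero_iff.2 fun c' _ => hne c'), ih]

/-- **Cyclic coverings.** -/
theorem cyc_joint {n μ : ℕ} (A : Fin n → Finset ℂ) (hμ : μ ≤ ∑ p, (A p).card) (hn : n < μ)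
    (hdvd : ∀ p, μ ∣ (A p).card) (hdeg : ∀ p, 2 * μ < (μ - n) * (A p).card) :
    Joint (cycMap A μ) (cycOff n) := by
  classical
  intro I q hI
  have hμ0 : (0 : ℚ) < μ := by
    have : 0 < μ := by omega
    exact_mod_cast this
  have hnμ : (n : ℚ) < μ := by exact_mod_cast hn
  refine ⟨I, fun _ => 1, A, fun p c => if c ∈ A p then 1 - n / μ else 0, hI, subset_rfl,
    fun p hp => ⟨one_pos, fun c => ?_, fun c hc => if_neg hc, ?_⟩, ?_⟩
  · beta_reduce
    split_ifs
    · have : (0 : ℚ) ≤ n / μ := by positivity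
      linarith
    · norm_num
  · beta_reduce
    rw [Finset.sum_congr rfl (fun c hc => if_pos hc), Finset.sum_const, nsmul_eq_mul]
    have h1 : (2 * μ : ℚ) < (μ - n) * (A p).card := by
      have h2 := hdeg p
      have h3 : ((2 * μ : ℕ) : ℚ) < (((μ - n) * (A p).card : ℕ) : ℚ) := by exact_mod_cast h2
      push_cast [Nat.cast_sub hn.le] at h3
      exact h3
    have h2 : ((A p).card : ℚ) * (1 - n / μ) = (μ - n) * (A p).card / μ := by
      field_simp
    rw [h2, lt_div_iff₀ hμ0]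
    linarith
  intro F _ _ P u τ s hu hout hin hex
  simp only [one_mul]
  obtain ⟨x0, hx0⟩ : ∃ x0, x0 = u 0 := ⟨_, rfl⟩
  obtain ⟨w, hw⟩ : ∃ w, w = u (Fin.last (n + 1)) := ⟨_, rfl⟩
  have hoff : w ≠ 0 ∧ x0 ≠ 0 := by
    obtain ⟨_, h1⟩ := hu.off
    unfold cycOff Pool.Agent.W602.GT.val at h1
    rw [map_mul, aeval_X, aeval_X] at h1
    rw [hw, hx0]
    exact ⟨left_ne_zero_of_mul h1, right_ne_zero_of_mul h1⟩
  obtain ⟨hw0, hx00⟩ := hoff
  obtain ⟨σ, hσ⟩ : ∃ σ : Fin n → F, ∀ p, σ p = u p.succ.castSucc / x0 := ⟨_, fun p => rfl⟩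
  have hτσ : ∀ p ∈ I, τ p = σ p := by
    intro p hp
    obtain ⟨⟨h, hh, h2, h3⟩, -⟩ := hin p hp
    obtain rfl : h = (X p.succ.castSucc, X 0) := hh
    rw [h3, hσ, hx0]
    unfold Pool.Agent.W602.GT.val
    rw [aeval_X, aeval_X]
  have hcσ : ∀ p ∉ I, ∃ c, σ p = algebraMap ℂ F c := by
    intro p hp
    obtain ⟨hq, h1⟩ := hout p hp
    have h2 := h1 (X p.succ.castSucc, X 0) rfl
    unfold Pool.Agent.W602.GT.val at h2
    rw [aeval_X, aeval_X, ← hx0] at h2
    have hq1 : q p 1 ≠ 0 := by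
      intro h0
      rw [h0, map_zero, zero_mul] at h2
      have h3 := (mul_eq_zero.1 h2).resolve_right hx00
      apply hq
      funext l
      fin_cases l
      · exact (map_eq_zero _).1 h3
      · exact h0
    refine ⟨q p 0 / q p 1, ?_⟩
    have h4 : algebraMap ℂ F (q p 1) ≠ 0 := (_root_.map_ne_zero _).2 hq1
    rw [hσ, map_div₀, div_eq_div_iff hx00 h4]
    linear_combination -h2
  -- the equation
  have heq : (w / x0) ^ μ = ∏ p : Fin n, ∏ c ∈ A p, (σ p - algebraMap ℂ F c) := by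
    have h1 := hu.mem ()
    unfold cycEq Pool.Agent.W602.GT.val at h1
    rw [map_sub, map_mul, map_pow, map_pow, aeval_X, aeval_X, map_prod, ← hw, ← hx0,
      sub_eq_zero] at h1
    have h2 : ∀ p : Fin n, aeval u (∏ c ∈ A p, (X p.succ.castSucc - C c * X 0)) =
        x0 ^ (A p).card * ∏ c ∈ A p, (σ p - algebraMap ℂ F c) := by
      intro p
      rw [map_prod, ← Finset.prod_const, ← Finset.prod_mul_distrib]
      refine Finset.prod_congr rfl fun c _ => ?_
      rw [map_sub, map_mul, aeval_X, aeval_X, aeval_C, ← hx0, hσ]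
      field_simp
    rw [Finset.prod_congr rfl fun p _ => h2 p, Finset.prod_mul_distrib,
      Finset.prod_pow_eq_pow_sum] at h1
    have h3 : x0 ^ (∑ p, (A p).card) = x0 ^ μ * x0 ^ (∑ p, (A p).card - μ) := by
      rw [← pow_add]
      congr 1
      omega
    rw [h3] at h1
    rw [div_pow, div_eq_iff (pow_ne_zero _ hx00)]
    have h4 : x0 ^ (∑ p, (A p).card - μ) ≠ 0 := pow_ne_zero _ hx00
    apply mul_right_cancel₀ h4
    rw [h1]
    ring
  have hwx : w / x0 ≠ 0 := div_ne_zero hw0 hx00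
  have hne1 : ∀ p, (∏ c ∈ A p, (σ p - algebraMap ℂ F c)) ≠ 0 := by
    intro p h0
    have h1 : (w / x0) ^ μ = 0 := by
      rw [heq]
      exact Finset.prod_eq_zero (Finset.mem_univ p) h0
    exact pow_ne_zero _ hwx h1
  have hne2 : ∀ p, ∀ c ∈ A p, σ p - algebraMap ℂ F c ≠ 0 := fun p c hc =>
    Finset.prod_ne_zero_iff.1 (hne1 p) c hc
  have hord : (μ : ℤ) * P.ord (w / x0) = ∑ p, ∑ c ∈ A p, P.ord (σ p - algebraMap ℂ F c) := by
    rw [← P.ord_pow, heq, ord_prod P _ hne1]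
    exact Finset.sum_congr rfl fun p _ => ord_prod_sub P (A p) (hne2 p)
  -- the local data
  have hloc : ∀ p, ∃ k : ℕ, ∃ i : Bool, (i = true → 1 ≤ k) ∧
      (∃ j : ℤ, ∑ c ∈ A p, P.ord (σ p - algebraMap ℂ F c) = (if i then (k : ℤ) else 0) + μ * j) ∧
      (i = true → p ∈ I) ∧ (p ∈ I → (if i then (k : ℚ) * (n / μ) - 1 else 0) ≤ s p) := by
    intro p
    have hconst : ∀ a : ℂ, a ≠ 0 → P.ord (algebraMap ℂ F a) = 0 := fun a ha => P.ord_const ha
    by_cases hp : p ∈ I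
    · have hnc := (hin p hp).2
      have hex' := hex p hp
      rw [hτσ p hp] at hnc hex'
      rcases hex' with ⟨c, hc, hs⟩ | ⟨hc, hs⟩
      · have hother : ∀ c' : ℂ, c' ≠ c → P.ord (σ p - algebraMap ℂ F c') = 0 := by
          intro c' hc'
          have h1 : σ p - algebraMap ℂ F c ≠ 0 := sub_ne_zero.2 (hnc c)
          have h2 : algebraMap ℂ F (c - c') ≠ 0 := (_root_.map_ne_zero _).2 (sub_ne_zero.2 hc'.symm)
          have h3 := P.ord_add_eq h2 h1 (by rw [hconst _ (sub_ne_zero.2 hc'.symm)]; exact hc)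
          have h4 : algebraMap ℂ F (c - c') + (σ p - algebraMap ℂ F c) =
              σ p - algebraMap ℂ F c' := by
            rw [map_sub]
            ring
          rw [h4, hconst _ (sub_ne_zero.2 hc'.symm)] at h3
          exact h3.2
        obtain ⟨k, hk⟩ := Int.eq_ofNat_of_zero_le hc.le
        by_cases hcA : c ∈ A p
        · refine ⟨k, true, fun _ => ?_, ⟨0, ?_⟩, fun _ => hp, fun _ => ?_⟩
          · rw [hk] at hc
            omega
          · rw [Finset.sum_eq_single c (fun c' _ hc' => hother c' hc')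
              (fun h => absurd hcA h), hk]
            simp
          · rw [hs]
            beta_reduce
            rw [if_pos rfl, if_pos hcA, hk]
            push_cast
            have : (k : ℚ) * (1 - (1 - n / μ)) = k * (n / μ) := by ring
            rw [this]
        · refine ⟨0, false, fun h => absurd h (by simp), ⟨0, ?_⟩, fun h => absurd h (by simp),
            fun _ => ?_⟩
          · rw [Finset.sum_eq_zero fun c' hc' => hother c' (by rintro rfl; exact hcA hc')]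
            simp
          · rw [hs]
            beta_reduce
            rw [if_neg (by simp), if_neg hcA, hk, sub_zero, mul_one]
            rw [hk] at hc
            have h1 : (1 : ℤ) ≤ k := by omega
            have h2 : (1 : ℚ) ≤ ((k : ℤ) : ℚ) := by exact_mod_cast h1
            linarith
      · have hall : ∀ c' : ℂ, P.ord (σ p - algebraMap ℂ F c') = P.ord (σ p) := by
          intro c'
          by_cases h0 : c' = 0
          · rw [h0, map_zero, sub_zero]
          · have h1 : σ p ≠ 0 := by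
              intro h
              apply hnc 0
              rw [h, map_zero]
            have h2 : -algebraMap ℂ F c' ≠ 0 := neg_ne_zero.2 ((_root_.map_ne_zero _).2 h0)
            have h3 := P.ord_add_eq h1 h2 (by rw [P.ord_neg, hconst _ h0]; exact hc)
            rw [← sub_eq_add_neg] at h3
            exact h3.2
        obtain ⟨j, hj⟩ := hdvd p
        refine ⟨0, false, fun h => absurd h (by simp), ⟨j * P.ord (σ p), ?_⟩,
          fun h => absurd h (by simp), fun _ => ?_⟩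
        · rw [Finset.sum_congr rfl fun c' _ => hall c', Finset.sum_const, nsmul_eq_mul, hj]
          push_cast
          simp
          ring
        · rw [hs, if_neg (by simp)]
          have h1 : (1 : ℤ) ≤ -P.ord (σ p) := by omega
          have h2 : (1 : ℚ) ≤ ((-P.ord (σ p) : ℤ) : ℚ) := by exact_mod_cast h1
          push_cast at h2
          linarith
    · refine ⟨0, false, fun h => absurd h (by simp), ⟨0, ?_⟩, fun h => absurd h (by simp),
        fun h => absurd h hp⟩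
      obtain ⟨c, hc⟩ := hcσ p hp
      rw [Finset.sum_eq_zero]
      · simp
      · intro c' hc'
        have h1 := hne2 p c' hc'
        rw [hc, ← map_sub] at h1 ⊢
        exact hconst _ fun h => h1 (by rw [h, map_zero])
  choose k i hk1 hk2 hk3 hk4 using hloc
  choose j hj using hk2
  obtain ⟨S, hS⟩ : ∃ S : Finset (Fin n), S = Finset.univ.filter fun p => i p = true := ⟨_, rfl⟩
  have hSI : S ⊆ I := by
    intro p hp
    rw [hS, Finset.mem_filter] at hp
    exact hk3 p hp.2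
  have hsum : (μ : ℤ) * P.ord (w / x0) = ∑ p ∈ S, (k p : ℤ) + μ * ∑ p, j p := by
    rw [hord, Finset.sum_congr rfl fun p _ => hj p, Finset.sum_add_distrib, ← Finset.mul_sum, hS,
      Finset.sum_filter]
  have hlow : ∑ p ∈ S, ((k p : ℚ) * (n / μ) - 1) ≤ ∑ p ∈ I, s p := by
    have h1 : ∑ p ∈ I, (if i p then (k p : ℚ) * (n / μ) - 1 else 0) ≤ ∑ p ∈ I, s p :=
      Finset.sum_le_sum fun p hp => hk4 p hp
    refine le_trans (le_of_eq ?_) h1
    rw [← Finset.sum_filter]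
    refine Finset.sum_congr ?_ fun _ _ => rfl
    ext p
    rw [Finset.mem_filter, hS, Finset.mem_filter]
    constructor
    · rintro ⟨-, h⟩
      exact ⟨hk3 p h, h⟩
    · rintro ⟨-, h⟩
      exact ⟨Finset.mem_univ _, h⟩
  refine le_trans ?_ hlow
  rcases S.eq_empty_or_nonempty with hSe | hSe
  · rw [hSe, Finset.sum_empty]
  · have h1 : (μ : ℤ) ∣ ∑ p ∈ S, (k p : ℤ) := ⟨P.ord (w / x0) - ∑ p, j p, by
      rw [mul_sub, hsum]
      ring⟩
    have h2 : 0 < ∑ p ∈ S, (k p : ℤ) := by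
      refine Finset.sum_pos (fun p hp => ?_) hSe
      rw [hS, Finset.mem_filter] at hp
      have := hk1 p hp.2
      omega
    have h3 := Int.le_of_dvd h2 h1
    have h4 : (μ : ℚ) ≤ ∑ p ∈ S, (k p : ℚ) := by exact_mod_cast h3
    have h5 : (S.card : ℚ) ≤ n := by
      have := Finset.card_le_univ S
      rw [Fintype.card_fin] at this
      exact_mod_cast this
    rw [Finset.sum_sub_distrib, ← Finset.sum_mul, Finset.sum_const, nsmul_eq_mul, mul_one]
    have h6 : (n : ℚ) ≤ (∑ p ∈ S, (k p : ℚ)) * (n / μ) := by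
      have h7 : (n : ℚ) = μ * (n / μ) := by field_simp
      calc (n : ℚ) = μ * (n / μ) := h7
        _ ≤ _ := mul_le_mul_of_nonneg_right h4 (by positivity)
    linarith

end Pool.Agent.K4H25.EN

end

section

/-!
The fibres of the example.
-/

set_option autoImplicit false
set_option linter.overlappingInstances false
set_option linter.unusedSectionVars false
set_option linter.unusedVariables false
set_option maxHeartbeats 4000000
set_option synthInstance.maxHeartbeats 400000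

open FF MvPolynomial

namespace Pool.Agent.K4H25.EN

open Pool.Agent.W602.GT Pool.Agent.Y221.FQ Pool.Agent.W603.LV

theorem cyc_zeroDim {n μ : ℕ} (A : Fin n → Finset ℂ) (hμ : μ ≤ ∑ p, (A p).card) (hμ0 : 0 < μ) :
    ZeroDimOff (cycMap A μ) (cycOff n) := by
  classical
  intro q F _ _ u hu0 hmem hoff hfib
  obtain ⟨x0, hx0⟩ : ∃ x0, x0 = u 0 := ⟨_, rfl⟩
  obtain ⟨w, hw⟩ : ∃ w, w = u (Fin.last (n + 1)) := ⟨_, rfl⟩
  have hoff' : w ≠ 0 ∧ x0 ≠ 0 := by
    obtain ⟨_, h1⟩ := hoff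
    unfold cycOff Pool.Agent.W602.GT.val at h1
    rw [map_mul, aeval_X, aeval_X] at h1
    rw [hw, hx0]
    exact ⟨left_ne_zero_of_mul h1, right_ne_zero_of_mul h1⟩
  obtain ⟨hw0, hx00⟩ := hoff'
  obtain ⟨σ, hσ⟩ : ∃ σ : Fin n → F, ∀ p, σ p = u p.succ.castSucc / x0 := ⟨_, fun p => rfl⟩
  have hcσ : ∀ p, ∃ c, σ p = algebraMap ℂ F c := by
    intro p
    obtain ⟨hq, h1⟩ := hfib p
    have h2 := h1 (X p.succ.castSucc, X 0) rfl
    unfold Pool.Agent.W602.GT.val at h2
    rw [aeval_X, aeval_X, ← hx0] at h2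
    have hq1 : q p 1 ≠ 0 := by
      intro h0
      rw [h0, map_zero, zero_mul] at h2
      have h3 := (mul_eq_zero.1 h2).resolve_right hx00
      apply hq
      funext l
      fin_cases l
      · exact (map_eq_zero _).1 h3
      · exact h0
    refine ⟨q p 0 / q p 1, ?_⟩
    have h4 : algebraMap ℂ F (q p 1) ≠ 0 := (_root_.map_ne_zero _).2 hq1
    rw [hσ, map_div₀, div_eq_div_iff hx00 h4]
    linear_combination -h2
  choose c hc using hcσ
  have heq : (w / x0) ^ μ = ∏ p : Fin n, ∏ a ∈ A p, (σ p - algebraMap ℂ F a) := by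
    have h1 := hmem ()
    unfold cycEq Pool.Agent.W602.GT.val at h1
    rw [map_sub, map_mul, map_pow, map_pow, aeval_X, aeval_X, map_prod, ← hw, ← hx0,
      sub_eq_zero] at h1
    have h2 : ∀ p : Fin n, aeval u (∏ c ∈ A p, (X p.succ.castSucc - C c * X 0)) =
        x0 ^ (A p).card * ∏ c ∈ A p, (σ p - algebraMap ℂ F c) := by
      intro p
      rw [map_prod, ← Finset.prod_const, ← Finset.prod_mul_distrib]
      refine Finset.prod_congr rfl fun c _ => ?_
      rw [map_sub, map_mul, aeval_X, aeval_X, aeval_C, ← hx0, hσ]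
      field_simp
    rw [Finset.prod_congr rfl fun p _ => h2 p, Finset.prod_mul_distrib,
      Finset.prod_pow_eq_pow_sum] at h1
    have h3 : x0 ^ (∑ p, (A p).card) = x0 ^ μ * x0 ^ (∑ p, (A p).card - μ) := by
      rw [← pow_add]
      congr 1
      omega
    rw [h3] at h1
    rw [div_pow, div_eq_iff (pow_ne_zero _ hx00)]
    have h4 : x0 ^ (∑ p, (A p).card - μ) ≠ 0 := pow_ne_zero _ hx00
    apply mul_right_cancel₀ h4
    rw [h1]
    ring
  have halg : ∀ i, IsAlgebraic ℂ (u i / x0) := by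
    intro i
    refine Fin.lastCases ?_ (fun j => ?_) i
    · rw [← hw]
      refine IsAlgebraic.of_pow hμ0 ?_
      rw [heq]
      have h1 : (∏ p : Fin n, ∏ a ∈ A p, (σ p - algebraMap ℂ F a)) =
          algebraMap ℂ F (∏ p : Fin n, ∏ a ∈ A p, (c p - a)) := by
        rw [map_prod]
        refine Finset.prod_congr rfl fun p _ => ?_
        rw [map_prod]
        refine Finset.prod_congr rfl fun a _ => ?_
        rw [map_sub, hc]
      rw [h1]
      exact isAlgebraic_algebraMap _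
    · refine Fin.cases ?_ (fun p => ?_) j
      · have h1 : u (Fin.castSucc 0) = x0 := hx0.symm
        rw [h1, div_self hx00]
        exact isAlgebraic_one
      · rw [← hσ, hc]
        exact isAlgebraic_algebraMap _
  intro i j hj
  have h1 : u i / u j = (u i / x0) * (u j / x0)⁻¹ := by
    field_simp
  rw [h1]
  exact (halg i).mul (halg j).inv

end Pool.Agent.K4H25.EN

end
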