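import Pool.Agent.K4H25.MG.Full
import Pool.Agent.K4H25.MG.Tor

/-!
Images of varieties which are separated by a map to a product of projective spaces.
-/

set_option autoImplicit false
set_option linter.unusedSectionVars false
set_option linter.overlappingInstances false

open FF Module Pool.Agent Pool.Agent.W602.GT Pool.Agent.W603.LV
open Pool.Agent.R882.LT (TraceNe IsTwisted)

namespace Pool.Agent.K4H25.MG

variable {K : Type} [Field K] [Algebra ℂ K] {n : ℕ}

/-- A regular canonical form gives `κ ≥ 0`. -/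
theorem kodGe_zero {ω : (Fin n → Derivation ℂ K K) → K} (hω : IsPluri 1 ω)
    (hreg : ∀ P : Place ℂ K, Divisorial n P → RegAt P ω) (h0 : ∃ D, ω D ≠ 0) :
    KodGe ℂ K n (fun _ => False) 0 := by
  obtain ⟨D, hne⟩ := h0
  refine ⟨1, one_pos, fun _ => ω, fun _ => ⟨hω, fun P hP D' hD' => ?_,
    fun P hP _ => hreg P hP⟩, D, hne, ?_⟩
  · exact hreg P hP D' fun i => Pool.Agent.TH466.QG.derReg_of_log (hD' i)
  · exact algebraicIndependent_empty_type

variable {N q d : ℕ} {β : Fin N → Fin q} {M : Fin q → ℕ} {t : Fin N → K}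
  {ω : (Fin n → Derivation ℂ K K) → K}

theorem twistedBox_reg (hω : TwistedBox n β M t ω) (P : Place ℂ K) (hP : Divisorial n P) :
    RegAt P ω := by
  intro D hD
  have h1 := hω.2 0 (by simp) P hP D hD
  simpa using h1

/-- **Separated images.** -/
theorem main_sep [Algebra.EssFiniteType ℂ K] (hK : Algebra.trdeg ℂ K = n)
    (hd : Algebra.trdeg ℂ (IntermediateField.adjoin ℂ (Set.range t)) = (d : ℕ))
    (hω : TwistedBox n β M t ω) (h0 : ∃ D, ω D ≠ 0)
    (L : Type) [Field L] [Algebra ℂ L] [Algebra L K] [IsScalarTower ℂ L K]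
    [FiniteDimensional L K] (hsep : IntermediateField.adjoin L (Set.range t) = ⊤) :
    ((∀ Λ : Finset (Fin q), Λ.Nonempty → fdeg L β t Λ ≤ 1 + ∑ b ∈ Λ, M b) →
      (∃ η : (Fin n → Derivation ℂ L L) → L, IsPluri 1 η ∧
        (∀ P : Place ℂ L, Divisorial n P → RegAt P η) ∧ ∃ D, η D ≠ 0) ∧
      ∀ r : ℕ, r ≤ d →
        (∀ Λ : Finset (Fin q), Λ.Nonempty →
          Algebra.trdeg ℂ (IntermediateField.adjoin ℂ (t '' {j | β j ∉ Λ})) < (r : ℕ) →
          2 * fdeg L β t Λ ≤ 1 + ∑ b ∈ Λ, M b) →
        KodGe ℂ L n (fun _ => False) r) ∧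
    ((∀ b, finrank L K ≤ M b) →
      KodGe ℂ L n (fun _ => False) (d - 1) ∧
      (KodGe ℂ (IntermediateField.adjoin ℂ (Set.range t)) d (fun _ => False) 0 →
        KodGe ℂ L n (fun _ => False) d) ∧
      (IntermediateField.adjoin ℂ (Set.range t) = ⊤ → KodGe ℂ L n (fun _ => False) n)) := by
  classical
  have htop : (IntermediateField.adjoin L (Set.range t)).restrictScalars ℂ = ⊤ := by
    rw [hsep]
    rfl
  have htr := traceNe_top h0 htop
  have hfr : finrank L (IntermediateField.adjoin L (Set.range t)) = finrank L K := by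
    rw [hsep]
    exact IntermediateField.topEquiv.toLinearEquiv.finrank_eq
  refine ⟨fun hm => ?_, fun hm => ?_⟩
  · obtain ⟨h1, h2⟩ := core_box (L := L) hK hd hω htr
      (fun Λ hΛ => (hm Λ hΛ).trans_eq (add_comm _ _))
    exact ⟨h1, fun r hr hk => Pool.Agent.R882.KR.kodGe_of_tr (h2 r hr fun Λ hΛ hlt =>
      (hk Λ hΛ hlt).trans_eq (add_comm _ _))⟩
  · have hpos : 0 < finrank L K := finrank_pos
    obtain ⟨η, hη, hηr, hη0⟩ : ∃ η : (Fin n → Derivation ℂ L L) → L, IsPluri 1 η ∧
        (∀ P : Place ℂ L, Divisorial n P → RegAt P η) ∧ ∃ D, η D ≠ 0 := by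
      refine (core_box (L := L) hK hd hω htr fun Λ hΛ => ?_).1
      obtain ⟨b, hb⟩ := hΛ
      have h1 : fdeg L β t Λ ≤ finrank L K := by
        rw [← hfr]
        exact fdeg_le Λ
      have h2 : M b ≤ ∑ b ∈ Λ, M b := Finset.single_le_sum (f := M) (fun _ _ => Nat.zero_le _) hb
      have h3 := hm b
      omega
    rcases Nat.eq_zero_or_pos d with hd0 | hd0
    · subst hd0
      refine ⟨kodGe_zero hη hηr hη0, fun _ => kodGe_zero hη hηr hη0, fun ht => ?_⟩
      have h1 : (n : Cardinal) = (0 : ℕ) := by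
        rw [← hd, ← hK, ht]
        exact (IntermediateField.topEquiv (F := ℂ) (E := K)).symm.trdeg_eq
      have h2 : n = 0 := by exact_mod_cast h1
      subst h2
      exact kodGe_zero hη hηr hη0
    · have hq : Nonempty (Fin q) := by
        by_contra hq
        rw [not_nonempty_iff] at hq
        have hN : IsEmpty (Fin N) := ⟨fun j => hq.elim (β j)⟩
        have h1 : Set.range t = ∅ := Set.range_eq_empty t
        rw [h1, IntermediateField.adjoin_empty] at hd
        have h2 : Algebra.trdeg ℂ (⊥ : IntermediateField ℂ K) = 0 := by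
          rw [(IntermediateField.botEquiv ℂ K).trdeg_eq]
          exact trdeg_eq_zero_iff.2 inferInstance
        rw [h2] at hd
        have h3 : d = 0 := by exact_mod_cast hd.symm
        omega
      have htw : IsTwisted n (finrank L K) t ω := by
        refine ⟨hω.1, fun a ha P hP => hω.2 a (fun b => ?_) P hP⟩
        have h1 : ∑ j with β j = b, a j ≤ ∑ j, a j :=
          Finset.sum_le_sum_of_subset (Finset.filter_subset _ _)
        have h2 := hm b
        omega
      obtain ⟨h1, h2⟩ := Pool.Agent.K4H25.AB.main_any (M := finrank L K) hpos hK hd L htw htr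
        hfr.le
      refine ⟨h1 (d - 1) (by omega), h2, fun ht => ?_⟩
      have h3 : (n : Cardinal) = (d : ℕ) := by
        rw [← hd, ← hK, ht]
        exact (IntermediateField.topEquiv (F := ℂ) (E := K)).symm.trdeg_eq
      have h4 : n = d := by exact_mod_cast h3
      subst h4
      refine h2 ?_
      have hKT : K ≃ₐ[ℂ] (IntermediateField.adjoin ℂ (Set.range t)) :=
        (IntermediateField.topEquiv (F := ℂ) (E := K)).symm.trans
          (IntermediateField.equivOfEq ht.symm)
      obtain ⟨ω', g1, g2, g3⟩ := Pool.Agent.K4H25.AB.form_equiv hKT hω.1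
        (fun P hP => twistedBox_reg hω P hP) h0
      exact kodGe_zero g1 g2 g3

end Pool.Agent.K4H25.MG
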